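import Mathlib

/-!
# Kak.APsum: harmonic sums over arithmetic progressions

PROOF.  The numbers `M ≡ c (mod q)` in `[e^s, e^(s+l))` are `M0, M0 + q, .., M0 + (k-1) q` with
`e^s ≤ M0 < e^s + q` and `M0 + (k-1) q < e^(s+l) ≤ M0 + k q` (`k ≥ 0`).
Since `q/(x+q) ≤ log((x+q)/x) ≤ q/x` for `x > 0`:
`q ∑ 1/M ≥ ∑_{i<k} log((M0+(i+1)q)/(M0 + i q)) = log ((M0 + k q)/M0) ≥ log (e^(s+l)/(e^s + q)) ≥ l - log 2`
(`q ≤ e^s`), also when `k = 0`.  And
`q ∑ 1/M ≤ q/M0 + ∑_{1 ≤ i<k} log((M0+i q)/(M0+(i-1)q)) = q/M0 + log((M0+(k-1)q)/M0) ≤ 1 + l`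
(for `k ≥ 1`; for `k = 0` the sum is 0).  So `|q ∑ 1/M - l| ≤ 1`.
-/

open Finset

namespace Kak

namespace APsumAux

theorem log_up {x q : ℝ} (hx : 0 < x) (hq : 0 < q) : Real.log (x + q) - Real.log x ≤ q / x := by
  rw [← Real.log_div (by positivity) hx.ne']
  have := Real.log_le_sub_one_of_pos (x := (x + q) / x) (by positivity)
  have e : (x + q) / x - 1 = q / x := by field_simp; ring
  linarith

theorem log_low {x q : ℝ} (hx : 0 < x) (hq : 0 < q) :
    q / (x + q) ≤ Real.log (x + q) - Real.log x := by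
  rw [← Real.log_div (by positivity) hx.ne']
  have := Real.one_sub_inv_le_log_of_pos (x := (x + q) / x) (by positivity)
  have e : 1 - ((x + q) / x)⁻¹ = q / (x + q) := by
    have : x + q ≠ 0 := by positivity
    field_simp; ring
  linarith

/-- lower bound of the sum over a progression -/
theorem sum_low {a q : ℕ} (ha : 0 < a) (hq : 0 < q) (k : ℕ) :
    Real.log ((a : ℝ) + k * q) - Real.log a ≤
      ∑ i ∈ range k, (q : ℝ) / ((a : ℝ) + i * q) := by
  have ha' : (0 : ℝ) < a := by exact_mod_cast ha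
  have hq' : (0 : ℝ) < q := by exact_mod_cast hq
  induction k with
  | zero => simp
  | succ k ih =>
    rw [Finset.sum_range_succ]
    have h := log_up (x := (a : ℝ) + k * q) (q := q) (by positivity) hq'
    have e : (a : ℝ) + ((k + 1 : ℕ) : ℝ) * q = (a : ℝ) + k * q + q := by push_cast; ring
    rw [e]
    linarith

theorem sum_up {a q : ℕ} (ha : 0 < a) (hq : 0 < q) (k : ℕ) :
    ∑ i ∈ range (k + 1), (q : ℝ) / ((a : ℝ) + i * q) ≤
      (q : ℝ) / a + (Real.log ((a : ℝ) + k * q) - Real.log a) := by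
  have ha' : (0 : ℝ) < a := by exact_mod_cast ha
  have hq' : (0 : ℝ) < q := by exact_mod_cast hq
  induction k with
  | zero => simp
  | succ k ih =>
    rw [Finset.sum_range_succ]
    have h := log_low (x := (a : ℝ) + k * q) (q := q) (by positivity) hq'
    have e : (a : ℝ) + ((k + 1 : ℕ) : ℝ) * q = (a : ℝ) + k * q + q := by push_cast; ring
    rw [e]
    linarith

/-- the first term of the progression -/
theorem first {q c : ℕ} {s : ℝ} (hq : 1 ≤ q) : ∃ a : ℕ, Real.exp s ≤ a ∧ (a : ℝ) < Real.exp s + q ∧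
    a % q = c % q ∧ ∀ M : ℕ, Real.exp s ≤ M → M % q = c % q → a ≤ M := by
  classical
  have hex : ∃ a : ℕ, Real.exp s ≤ a ∧ a % q = c % q := by
    refine ⟨c + q * ⌈Real.exp s⌉₊, ?_, by simp⟩
    have h1 := Nat.le_ceil (Real.exp s)
    have h2 : (⌈Real.exp s⌉₊ : ℕ) ≤ c + q * ⌈Real.exp s⌉₊ := by nlinarith
    exact h1.trans (by exact_mod_cast h2)
  refine ⟨Nat.find hex, (Nat.find_spec hex).1, ?_, (Nat.find_spec hex).2, ?_⟩
  · by_contra hlt
    rw [not_lt] at hlt
    have hpos := Real.exp_pos s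
    have hge : q ≤ Nat.find hex := by
      have : (q : ℝ) ≤ (Nat.find hex : ℕ) := by linarith
      exact_mod_cast this
    refine Nat.find_min hex (m := Nat.find hex - q) (by omega) ⟨?_, ?_⟩
    · rw [Nat.cast_sub hge]; linarith
    · rw [← Nat.mod_eq_sub_mod hge]
      exact (Nat.find_spec hex).2
  · intro M h1 h2
    exact Nat.find_min' hex ⟨h1, h2⟩

end APsumAux

open APsumAux in
theorem apsum {q c : ℕ} {s l : ℝ} (hq : 1 ≤ q) (hs : (q : ℝ) ≤ Real.exp s) (hl : 0 < l) :
    |(q : ℝ) * (∑ M ∈ (Finset.range ⌈Real.exp (s + l)⌉₊).filter (fun M : ℕ =>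
      Real.exp s ≤ (M : ℝ) ∧ (M : ℝ) < Real.exp (s + l) ∧ M % q = c % q), 1 / (M : ℝ)) - l| ≤ 1 := by
  classical
  obtain ⟨a, ha1, ha2, ha3, ha4⟩ := first (q := q) (c := c) (s := s) hq
  have hE := Real.exp_pos s
  have ha0 : 0 < a := by
    have : (0 : ℝ) < a := by linarith
    exact_mod_cast this
  have ha0' : (0 : ℝ) < a := by exact_mod_cast ha0
  have hq' : (0 : ℝ) < q := by exact_mod_cast hq
  have hexk : ∃ k : ℕ, Real.exp (s + l) ≤ (a : ℝ) + k * q := by
    refine ⟨⌈Real.exp (s + l)⌉₊, ?_⟩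
    have h1 := Nat.le_ceil (Real.exp (s + l))
    have h2 : (⌈Real.exp (s + l)⌉₊ : ℝ) ≤ (⌈Real.exp (s + l)⌉₊ : ℝ) * q := by
      have : (1 : ℝ) ≤ q := by exact_mod_cast hq
      nlinarith [Nat.cast_nonneg (α := ℝ) ⌈Real.exp (s + l)⌉₊]
    linarith
  set k := Nat.find hexk with hk
  have hk1 : Real.exp (s + l) ≤ (a : ℝ) + k * q := Nat.find_spec hexk
  have hk2 : ∀ i < k, (a : ℝ) + i * q < Real.exp (s + l) := fun i hi => by
    have := Nat.find_min hexk hi
    rwa [not_le] at this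
  have hset : (Finset.range ⌈Real.exp (s + l)⌉₊).filter (fun M : ℕ =>
      Real.exp s ≤ (M : ℝ) ∧ (M : ℝ) < Real.exp (s + l) ∧ M % q = c % q) =
      (range k).image (fun i => a + i * q) := by
    ext M
    simp only [Finset.mem_filter, Finset.mem_range, Finset.mem_image]
    constructor
    · rintro ⟨-, h1, h2, h3⟩
      have h4 := ha4 M h1 h3
      have h5 : a ≡ M [MOD q] := by
        unfold Nat.ModEq; rw [ha3, h3]
      obtain ⟨i, hi⟩ := (Nat.modEq_iff_dvd' h4).mp h5
      have hM : M = a + i * q := by rw [Nat.mul_comm] at hi; omega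
      refine ⟨i, ?_, hM.symm⟩
      by_contra hik
      rw [not_lt] at hik
      have : (a : ℝ) + k * q ≤ M := by
        rw [hM]; push_cast
        have : (k : ℝ) ≤ i := by exact_mod_cast hik
        nlinarith
      linarith
    · rintro ⟨i, hi, rfl⟩
      have h1 := hk2 i hi
      have h2 : ((a + i * q : ℕ) : ℝ) = (a : ℝ) + i * q := by push_cast; ring
      refine ⟨?_, ?_, ?_, ?_⟩
      · rw [Nat.lt_ceil, h2]; exact h1
      · rw [h2]
        have : (0 : ℝ) ≤ (i : ℝ) * q := by positivity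
        linarith
      · rw [h2]; exact h1
      · rw [Nat.add_mul_mod_self_right]; exact ha3
  rw [hset, Finset.sum_image (by
    intro i _ j _ h
    simp only at h
    have : i * q = j * q := by omega
    exact Nat.eq_of_mul_eq_mul_right (by omega) this), Finset.mul_sum]
  have hterm : ∀ i ∈ range k, (q : ℝ) * (1 / ((a + i * q : ℕ) : ℝ)) =
      (q : ℝ) / ((a : ℝ) + i * q) := by
    intro i _
    push_cast
    rw [mul_one_div]
  rw [Finset.sum_congr rfl hterm]
  have hloga1 : s ≤ Real.log a := by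
    rw [← Real.log_exp s]; exact Real.log_le_log hE ha1
  have hloga2 : Real.log a ≤ s + 1 := by
    have h1 : (a : ℝ) ≤ Real.exp (s + 1) := by
      rw [Real.exp_add]
      have : (2 : ℝ) ≤ Real.exp 1 := by have := Real.add_one_le_exp (1 : ℝ); linarith
      nlinarith
    rw [← Real.log_exp (s + 1)]
    exact Real.log_le_log ha0' h1
  rw [abs_le]
  constructor
  · have h1 := sum_low ha0 (by omega : 0 < q) k
    have h2 : s + l ≤ Real.log ((a : ℝ) + k * q) := by
      rw [← Real.log_exp (s + l)]; exact Real.log_le_log (Real.exp_pos _) hk1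
    linarith
  · rcases Nat.eq_zero_or_pos k with hk0 | hkpos
    · rw [hk0]; simp; linarith
    · obtain ⟨j, hj⟩ : ∃ j, k = j + 1 := ⟨k - 1, by omega⟩
      rw [hj]
      have h1 := sum_up ha0 (by omega : 0 < q) j
      have h2 := hk2 j (by omega)
      have h3 : Real.log ((a : ℝ) + j * q) ≤ s + l := by
        rw [← Real.log_exp (s + l)]
        exact Real.log_le_log (by positivity) h2.le
      have h4 : (q : ℝ) / a ≤ 1 := by
        rw [div_le_one ha0']; linarith
      linarith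

end Kak
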