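import Mathlib

/-!
# Kak.BinTV: binomial mass of a set with few points per window

PROOF.  Put `M = max_i C(N,i) = C(N, N/2)`.  First `C(N, N/2) ≤ 2^N / √N` (for `N ≥ 1`): e.g. for
`N = 2n`: `C(2n,n)^2 * 2n ≤ 16^n`, even `(2n+1) C(2n,n)^2 ≤ 16^n`, by induction from
`C(2n+2,n+1) = 2 (2n+1)/(n+1) C(2n,n)`; for `N = 2n+1`: `C(2n+1,n) = C(2n+2,n+1)/2 ≤
4^(n+1)/(2 √(2n+3)) = 2^N / √(2n+3)`.

Cut `{0,..,N}` into consecutive blocks of length `ℓ`.  Each block contains at most `q` elements of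
`S` (if `i0` is the smallest one, all the others are `< i0 + q` by `hS`).  So the sum is at most
`q * ∑_blocks max_block`.  The sequence `C(N,i)` increases up to `i = N/2` and decreases afterwards
(`Nat.choose_le_succ_of_lt_half_left`, symmetry).  Let `B_j` be the block containing `N/2`.  For a
block `B_i`, `i ≤ j - 2`, the maximum is at most every element of the next block, hence
`≤ (1/ℓ) ∑_{B_(i+1)} C(N,·)`; similarly for `i ≥ j + 2` with the previous block (which is full).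
The at most three remaining blocks contribute at most `3 M`.  Total:
`q (2^N / ℓ + 3 M) ≤ 2^N (q/ℓ + 3 q/√N)`.
(If `q = 0` then `S` is empty by `hS` with `i = j`.)
-/

open Finset

namespace Kak

namespace BinTVAux

theorem central (n : ℕ) : (2 * n + 1) * n.centralBinom ^ 2 ≤ 16 ^ n := by
  induction n with
  | zero => simp
  | succ n ih =>
    have h := Nat.succ_mul_centralBinom_succ n
    have h1 : (n + 1) ^ 2 * ((2 * (n + 1) + 1) * (n + 1).centralBinom ^ 2) ≤
        (n + 1) ^ 2 * 16 ^ (n + 1) := by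
      calc (n + 1) ^ 2 * ((2 * (n + 1) + 1) * (n + 1).centralBinom ^ 2)
          = (2 * (n + 1) + 1) * ((n + 1) * (n + 1).centralBinom) ^ 2 := by ring
        _ = (4 * (2 * n + 3) * (2 * n + 1)) * ((2 * n + 1) * n.centralBinom ^ 2) := by
            rw [h]; ring
        _ ≤ (4 * (2 * n + 3) * (2 * n + 1)) * 16 ^ n := Nat.mul_le_mul_left _ ih
        _ ≤ (16 * (n + 1) ^ 2) * 16 ^ n := by
            refine Nat.mul_le_mul_right _ ?_
            nlinarith
        _ = (n + 1) ^ 2 * 16 ^ (n + 1) := by ring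
    exact Nat.le_of_mul_le_mul_left h1 (by positivity)

theorem mid_sq (N : ℕ) : N * (N.choose (N / 2)) ^ 2 ≤ (2 ^ N) ^ 2 := by
  rcases Nat.even_or_odd' N with ⟨n, rfl | rfl⟩
  · have h := central n
    have h1 : (2 * n) / 2 = n := by omega
    rw [h1]
    have h2 : ((2 : ℕ) ^ (2 * n)) ^ 2 = 16 ^ n := by
      rw [← pow_mul, show 2 * n * 2 = 4 * n by ring, pow_mul]
      norm_num
    rw [h2]
    refine le_trans ?_ h
    rw [Nat.centralBinom]
    exact Nat.mul_le_mul_right _ (by omega)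
  · have h := central (n + 1)
    have h1 : (2 * n + 1) / 2 = n := by omega
    rw [h1]
    have h3 : (n + 1).centralBinom = 2 * (2 * n + 1).choose n := by
      rw [Nat.centralBinom, show 2 * (n + 1) = (2 * n + 1) + 1 by ring, Nat.choose_succ_succ']
      have : (2 * n + 1).choose (n + 1) = (2 * n + 1).choose n := by
        rw [← Nat.choose_symm_half n]
      omega
    rw [h3] at h
    have h2 : ((2 : ℕ) ^ (2 * n + 1)) ^ 2 * 4 = 16 ^ (n + 1) := by
      rw [← pow_mul, show (2 * n + 1) * 2 = 4 * n + 2 by ring, pow_add, pow_mul, pow_succ]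
      norm_num
      ring
    have h4 : 4 * ((2 * n + 1) * ((2 * n + 1).choose n) ^ 2) ≤ 4 * ((2 ^ (2 * n + 1)) ^ 2) := by
      calc 4 * ((2 * n + 1) * ((2 * n + 1).choose n) ^ 2)
          ≤ (2 * (n + 1) + 1) * (2 * (2 * n + 1).choose n) ^ 2 := by
            nlinarith [Nat.zero_le (((2 * n + 1).choose n) ^ 2)]
        _ ≤ 16 ^ (n + 1) := h
        _ = 4 * ((2 ^ (2 * n + 1)) ^ 2) := by rw [← h2]; ring
    exact Nat.le_of_mul_le_mul_left h4 (by norm_num)

theorem mid_le {N : ℕ} (hN : 1 ≤ N) : ((N.choose (N / 2) : ℕ) : ℝ) ≤ 2 ^ N / √(N : ℝ) := by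
  have hN' : (0 : ℝ) < N := by exact_mod_cast hN
  rw [le_div_iff₀ (Real.sqrt_pos.2 hN')]
  have h : (N : ℝ) * ((N.choose (N / 2) : ℕ) : ℝ) ^ 2 ≤ (2 ^ N) ^ 2 := by
    exact_mod_cast mid_sq N
  refine le_of_sq_le_sq ?_ (by positivity)
  rw [mul_pow, Real.sq_sqrt hN'.le]
  linarith

theorem mono (N : ℕ) {i j : ℕ} (hij : i ≤ j) (hj : j ≤ N / 2) : N.choose i ≤ N.choose j := by
  induction j, hij using Nat.le_induction with
  | base => exact le_rfl
  | succ j hij ih => exact (ih (by omega)).trans (Nat.choose_le_succ_of_lt_half_left (by omega))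

theorem anti (N : ℕ) {i j : ℕ} (hij : j ≤ i) (hj : N / 2 + 1 ≤ j) (hi : i ≤ N) :
    N.choose i ≤ N.choose j := by
  rw [← Nat.choose_symm hi, ← Nat.choose_symm (hij.trans hi)]
  exact mono N (by omega) (by omega)

theorem count {S : Set ℕ} {ℓ q : ℕ}
    (hS : ∀ i ∈ S, ∀ j ∈ S, i ≤ j → j < i + ℓ → j < i + q) (W : Finset ℕ)
    (hW : ∀ i ∈ W, i ∈ S) (h : ∀ i ∈ W, ∀ j ∈ W, j < i + ℓ) : W.card ≤ q := by
  rcases W.eq_empty_or_nonempty with h0 | h0
  · rw [h0]; simp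
  · have hm := W.min'_mem h0
    have h1 : W ⊆ Ico (W.min' h0) (W.min' h0 + q) := by
      intro j hj
      rw [mem_Ico]
      have h2 := W.min'_le j hj
      exact ⟨h2, hS _ (hW _ hm) _ (hW _ hj) h2 (h _ hm _ hj)⟩
    have h2 := card_le_card h1
    rw [Nat.card_Ico] at h2
    omega

theorem dbl {S : Set ℕ} {ℓ q : ℕ}
    (hS : ∀ i ∈ S, ∀ j ∈ S, i ≤ j → j < i + ℓ → j < i + q) (L J : Finset ℕ) (f : ℕ → ℝ)
    (hf : ∀ j, 0 ≤ f j) (rel : ℕ → ℕ → Prop) [∀ i j, Decidable (rel i j)]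
    (hL : ∀ i ∈ L, i ∈ S) (h : ∀ i j k, rel i k → rel j k → j < i + ℓ)
    (hi : ∀ i ∈ L, (ℓ : ℝ) * f i ≤ ∑ j ∈ J with rel i j, f j) :
    (ℓ : ℝ) * ∑ i ∈ L, f i ≤ q * ∑ j ∈ J, f j := by
  rw [mul_sum]
  refine (sum_le_sum hi).trans ?_
  have h1 : ∑ i ∈ L, ∑ j ∈ J with rel i j, f j = ∑ j ∈ J, ∑ i ∈ L with rel i j, f j := by
    simp_rw [sum_filter]
    exact sum_comm
  rw [h1, mul_sum]
  refine sum_le_sum fun j _ => ?_
  rw [sum_const, nsmul_eq_mul]
  refine mul_le_mul_of_nonneg_right ?_ (hf j)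
  have h2 : (L.filter (fun i => rel i j)).card ≤ q := by
    refine count hS _ (fun i hi => hL i (mem_filter.1 hi).1) ?_
    intro a ha b hb
    exact h a b j (mem_filter.1 ha).2 (mem_filter.1 hb).2
  exact_mod_cast h2

end BinTVAux

open Classical in
theorem binTV {N ℓ q : ℕ} (hN : 1 ≤ N) (hℓ : 1 ≤ ℓ) (S : Set ℕ)
    (hS : ∀ i ∈ S, ∀ j ∈ S, i ≤ j → j < i + ℓ → j < i + q) :
    ∑ i ∈ range (N + 1) with i ∈ S, ((N.choose i : ℕ) : ℝ) ≤
      2 ^ N * ((q : ℝ) / ℓ + 3 * q / √(N : ℝ)) := by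
  set f : ℕ → ℝ := fun i => ((N.choose i : ℕ) : ℝ) with hf
  have hf0 : ∀ j, 0 ≤ f j := fun j => Nat.cast_nonneg _
  set h : ℕ := N / 2 with hh
  set A : Finset ℕ := (range (N + 1)).filter (fun i => i ∈ S) with hA
  have hAS : ∀ i ∈ A, i ∈ S ∧ i ≤ N := by
    intro i hi
    rw [hA, mem_filter, mem_range] at hi
    exact ⟨hi.2, by omega⟩
  have hN' : (0 : ℝ) < N := by exact_mod_cast hN
  have hℓ' : (0 : ℝ) < ℓ := by exact_mod_cast hℓ
  -- left part
  have hleft : (ℓ : ℝ) * ∑ i ∈ A with i + ℓ ≤ h + 1, f i ≤ q * ∑ j ∈ range (h + 1), f j := by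
    refine BinTVAux.dbl hS _ _ f hf0 (fun i j => i ≤ j ∧ j < i + ℓ) ?_ ?_ ?_
    · intro i hi
      exact (hAS i (mem_filter.1 hi).1).1
    · intro i j k h1 h2
      omega
    · intro i hi
      have hi2 := (mem_filter.1 hi).2
      have hsub : Ico i (i + ℓ) ⊆ (range (h + 1)).filter (fun j => i ≤ j ∧ j < i + ℓ) := by
        intro j hj
        rw [mem_Ico] at hj
        rw [mem_filter, mem_range]
        omega
      calc (ℓ : ℝ) * f i = ∑ j ∈ Ico i (i + ℓ), f i := by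
            rw [sum_const, Nat.card_Ico, nsmul_eq_mul, Nat.add_sub_cancel_left]
        _ ≤ ∑ j ∈ Ico i (i + ℓ), f j := by
            refine sum_le_sum fun j hj => ?_
            rw [mem_Ico] at hj
            have := BinTVAux.mono N hj.1 (by omega)
            simp only [hf]
            exact_mod_cast this
        _ ≤ _ := sum_le_sum_of_subset_of_nonneg hsub fun j _ _ => hf0 j
  have hright : (ℓ : ℝ) * ∑ i ∈ A with h + ℓ ≤ i, f i ≤ q * ∑ j ∈ Ico (h + 1) (N + 1), f j := by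
    refine BinTVAux.dbl hS _ _ f hf0 (fun i j => j ≤ i ∧ i < j + ℓ) ?_ ?_ ?_
    · intro i hi
      exact (hAS i (mem_filter.1 hi).1).1
    · intro i j k h1 h2
      omega
    · intro i hi
      have hi2 := (mem_filter.1 hi).2
      have hiN := (hAS i (mem_filter.1 hi).1).2
      have hsub : Ico (i + 1 - ℓ) (i + 1) ⊆
          (Ico (h + 1) (N + 1)).filter (fun j => j ≤ i ∧ i < j + ℓ) := by
        intro j hj
        rw [mem_Ico] at hj
        rw [mem_filter, mem_Ico]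
        omega
      calc (ℓ : ℝ) * f i = ∑ j ∈ Ico (i + 1 - ℓ) (i + 1), f i := by
            rw [sum_const, Nat.card_Ico, nsmul_eq_mul]
            congr 2
            omega
        _ ≤ ∑ j ∈ Ico (i + 1 - ℓ) (i + 1), f j := by
            refine sum_le_sum fun j hj => ?_
            rw [mem_Ico] at hj
            have := BinTVAux.anti N (i := i) (j := j) (by omega) (by omega) hiN
            simp only [hf]
            exact_mod_cast this
        _ ≤ _ := sum_le_sum_of_subset_of_nonneg hsub fun j _ _ => hf0 j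
  have hM : ∀ j, f j ≤ 2 ^ N / √(N : ℝ) := by
    intro j
    refine le_trans ?_ (BinTVAux.mid_le hN)
    simp only [hf]
    exact_mod_cast Nat.choose_le_middle j N
  have hmid : ∀ W : Finset ℕ, (∀ i ∈ W, i ∈ A) → (∀ i ∈ W, ∀ j ∈ W, j < i + ℓ) →
      ∑ i ∈ W, f i ≤ q * (2 ^ N / √(N : ℝ)) := by
    intro W hW hW2
    have hc := BinTVAux.count hS W (fun i hi => (hAS i (hW i hi)).1) hW2
    calc ∑ i ∈ W, f i ≤ ∑ i ∈ W, (2 ^ N / √(N : ℝ)) := sum_le_sum fun i _ => hM i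
      _ = W.card * (2 ^ N / √(N : ℝ)) := by rw [sum_const, nsmul_eq_mul]
      _ ≤ q * (2 ^ N / √(N : ℝ)) := by
          refine mul_le_mul_of_nonneg_right ?_ (by positivity)
          exact_mod_cast hc
  have hm1 := hmid (A.filter (fun i => ¬ i + ℓ ≤ h + 1 ∧ i ≤ h))
    (fun i hi => (mem_filter.1 hi).1) (by
      intro i hi j hj
      have h1 := (mem_filter.1 hi).2
      have h2 := (mem_filter.1 hj).2
      omega)
  have hm2 := hmid (A.filter (fun i => ¬ h + ℓ ≤ i ∧ h < i))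
    (fun i hi => (mem_filter.1 hi).1) (by
      intro i hi j hj
      have h1 := (mem_filter.1 hi).2
      have h2 := (mem_filter.1 hj).2
      omega)
  have hsplit : ∑ i ∈ A, f i ≤ ∑ i ∈ A with i + ℓ ≤ h + 1, f i + ∑ i ∈ A with h + ℓ ≤ i, f i +
      ∑ i ∈ A with (¬ i + ℓ ≤ h + 1 ∧ i ≤ h), f i + ∑ i ∈ A with (¬ h + ℓ ≤ i ∧ h < i), f i := by
    simp_rw [sum_filter]
    rw [← sum_add_distrib, ← sum_add_distrib, ← sum_add_distrib]
    refine sum_le_sum fun i _ => ?_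
    have h0 := hf0 i
    split_ifs <;> first | linarith | (exfalso; omega)
  have htot : ∑ j ∈ range (h + 1), f j + ∑ j ∈ Ico (h + 1) (N + 1), f j = 2 ^ N := by
    rw [sum_range_add_sum_Ico _ (by omega)]
    have := Nat.sum_range_choose N
    simp only [hf]
    exact_mod_cast this
  have h1 : ∑ i ∈ A with i + ℓ ≤ h + 1, f i ≤ q / ℓ * ∑ j ∈ range (h + 1), f j := by
    rw [div_mul_eq_mul_div, le_div_iff₀ hℓ', mul_comm]
    exact hleft
  have h2 : ∑ i ∈ A with h + ℓ ≤ i, f i ≤ q / ℓ * ∑ j ∈ Ico (h + 1) (N + 1), f j := by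
    rw [div_mul_eq_mul_div, le_div_iff₀ hℓ', mul_comm]
    exact hright
  have h3 : (q : ℝ) / ℓ * ∑ j ∈ range (h + 1), f j + q / ℓ * ∑ j ∈ Ico (h + 1) (N + 1), f j =
      2 ^ N * (q / ℓ) := by
    rw [← mul_add, htot, mul_comm]
  have h4 : (2 : ℝ) ^ N * ((q : ℝ) / ℓ + 3 * q / √(N : ℝ)) =
      2 ^ N * (q / ℓ) + 3 * (q * (2 ^ N / √(N : ℝ))) := by ring
  have h5 : (0 : ℝ) ≤ q * (2 ^ N / √(N : ℝ)) := by positivity
  rw [h4]
  linarith

end Kak
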