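import Pool.Agent.Lib.Kak.LogDens

/-!
# Kak.C7: from the accelerated map to the Kakutani map

`Ck` is the map `C_{7,{2,3,5}}` of the problem.

PROOFS.
`Ck_smooth`: if `n = 2^a 3^b 5^c N` with `N` coprime to 30 then `Ck^[a+b+c] n = N` (first the factors 2, then 3,
then 5 are removed: induction on `a + b + c`).
`Ck_Syr`: if `N` is coprime to 30 then `Ck^[1 + a + b + c] N = Syr N` where `7N+1 = 2^a 3^b 5^c Syr N` (`Syr_spec`).
So for every `k` there is `j` with `Ck^[j] N = Syr^[k] N` (`N` coprime to 30; `Syr N` is coprime to 30).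

`main0`.  Given `ε`, let `N0, X0` be given by `logDens` with `ε/8`.  Let `n ≤ X` satisfy `N0 < Ck^[j] n` for all `j`.
Write `n = w N`, `w = 2^a 3^b 5^c`, `N` coprime to 30 (unique).  By the above `N0 < Syr^[k] N` for all `k`, and
`N ≤ X`.  So `∑_n 1/n ≤ (∑_{a,b,c ≤ X} 2^(-a) 3^(-b) 5^(-c)) * ∑_{N ≤ X bad} 1/N ≤ (15/4) (ε/8) log X` for
`X ≥ X0` (the map `n ↦ (a, b, c, N)` is injective; geometric sums `≤ 2 * 3/2 * 5/4`).

`main`.  Let `f → ∞` and `ε > 0`; take `N0, X0` from `main0` with `ε/2`.  There is `n0` with `f n > N0` for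
`n ≥ n0`.  If `n ≥ n0` and `f n ≤ Ck^[j] n` for all `j` then `N0 < Ck^[j] n` for all `j`.  So for `X ≥ X0` the
sum is `≤ ∑_{n < n0} 1/n + (ε/2) log X ≤ ε log X` for `X` large; divide by `log X`.
-/

open Finset Filter Topology

namespace Kak

/-- the Kakutani map -/
def Ck (n : ℕ) : ℕ :=
  if 2 ∣ n then n / 2 else if 3 ∣ n then n / 3 else if 5 ∣ n then n / 5 else 7 * n + 1

namespace C7Aux

theorem Ck_two (m : ℕ) : Ck (2 * m) = m := by
  have h : 2 ∣ 2 * m := ⟨m, rfl⟩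
  unfold Ck
  rw [if_pos h]
  omega

theorem Ck_three {m : ℕ} (h2 : ¬ 2 ∣ 3 * m) : Ck (3 * m) = m := by
  have h : 3 ∣ 3 * m := ⟨m, rfl⟩
  unfold Ck
  rw [if_neg h2, if_pos h]
  omega

theorem Ck_five {m : ℕ} (h2 : ¬ 2 ∣ 5 * m) (h3 : ¬ 3 ∣ 5 * m) : Ck (5 * m) = m := by
  have h : 5 ∣ 5 * m := ⟨m, rfl⟩
  unfold Ck
  rw [if_neg h2, if_neg h3, if_pos h]
  omega

theorem Ck_seven {m : ℕ} (h2 : ¬ 2 ∣ m) (h3 : ¬ 3 ∣ m) (h5 : ¬ 5 ∣ m) : Ck m = 7 * m + 1 := by
  unfold Ck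
  rw [if_neg h2, if_neg h3, if_neg h5]

theorem coprime30 {N : ℕ} (hN : Nat.Coprime N 30) : ¬ 2 ∣ N ∧ ¬ 3 ∣ N ∧ ¬ 5 ∣ N := by
  refine ⟨fun h => ?_, fun h => ?_, fun h => ?_⟩
  · have := Nat.dvd_gcd h (show 2 ∣ 30 by norm_num)
    rw [hN] at this; norm_num at this
  · have := Nat.dvd_gcd h (show 3 ∣ 30 by norm_num)
    rw [hN] at this; norm_num at this
  · have := Nat.dvd_gcd h (show 5 ∣ 30 by norm_num)
    rw [hN] at this; norm_num at this

theorem coprime30' {N : ℕ} (h2 : ¬ 2 ∣ N) (h3 : ¬ 3 ∣ N) (h5 : ¬ 5 ∣ N) : Nat.Coprime N 30 := by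
  have e : (30 : ℕ) = 2 * 3 * 5 := by norm_num
  rw [e]
  refine Nat.Coprime.mul_right (Nat.Coprime.mul_right ?_ ?_) ?_
  · exact ((Nat.Prime.coprime_iff_not_dvd Nat.prime_two).2 h2).symm
  · exact ((Nat.Prime.coprime_iff_not_dvd Nat.prime_three).2 h3).symm
  · exact ((Nat.Prime.coprime_iff_not_dvd Nat.prime_five).2 h5).symm

theorem it_two (a m : ℕ) : Ck^[a] (2 ^ a * m) = m := by
  induction a with
  | zero => simp
  | succ a ih =>
    rw [Function.iterate_succ_apply]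
    have : 2 ^ (a + 1) * m = 2 * (2 ^ a * m) := by ring
    rw [this, Ck_two, ih]

theorem it_three (b : ℕ) {m : ℕ} (hm : ¬ 2 ∣ m) : Ck^[b] (3 ^ b * m) = m := by
  induction b with
  | zero => simp
  | succ b ih =>
    rw [Function.iterate_succ_apply]
    have : 3 ^ (b + 1) * m = 3 * (3 ^ b * m) := by ring
    rw [this, Ck_three, ih]
    rw [← this, Nat.prime_two.dvd_mul]
    rintro (h | h)
    · have := Nat.prime_two.dvd_of_dvd_pow h
      norm_num at this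
    · exact hm h

theorem it_five (c : ℕ) {m : ℕ} (hm : ¬ 2 ∣ m) (hm3 : ¬ 3 ∣ m) : Ck^[c] (5 ^ c * m) = m := by
  induction c with
  | zero => simp
  | succ c ih =>
    rw [Function.iterate_succ_apply]
    have e : 5 ^ (c + 1) * m = 5 * (5 ^ c * m) := by ring
    rw [e, Ck_five, ih]
    · rw [← e, Nat.prime_two.dvd_mul]
      rintro (h | h)
      · have := Nat.prime_two.dvd_of_dvd_pow h
        norm_num at this
      · exact hm h
    · rw [← e, Nat.prime_three.dvd_mul]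
      rintro (h | h)
      · have := Nat.prime_three.dvd_of_dvd_pow h
        norm_num at this
      · exact hm3 h

/-- every positive integer is a smooth number times an integer coprime to 30 -/
theorem decomp {n : ℕ} (hn : 0 < n) : ∃ a b c N : ℕ, Nat.Coprime N 30 ∧
    n = 2 ^ a * 3 ^ b * 5 ^ c * N := by
  obtain ⟨a, m, hm, rfl⟩ := Nat.exists_eq_pow_mul_and_not_dvd hn.ne' 2 (by norm_num)
  have hm0 : m ≠ 0 := by rintro rfl; simp at hm
  obtain ⟨b, k, hk, rfl⟩ := Nat.exists_eq_pow_mul_and_not_dvd hm0 3 (by norm_num)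
  have hk0 : k ≠ 0 := by rintro rfl; simp at hk
  obtain ⟨c, l, hl, rfl⟩ := Nat.exists_eq_pow_mul_and_not_dvd hk0 5 (by norm_num)
  refine ⟨a, b, c, l, coprime30' ?_ ?_ hl, by ring⟩
  · intro h; exact hm (Dvd.dvd.mul_left (Dvd.dvd.mul_left h _) _)
  · intro h; exact hk (Dvd.dvd.mul_left h _)

end C7Aux

open C7Aux

theorem Ck_smooth (a b c : ℕ) {N : ℕ} (hN : Nat.Coprime N 30) :
    Ck^[a + b + c] (2 ^ a * 3 ^ b * 5 ^ c * N) = N := by
  obtain ⟨h2, h3, h5⟩ := coprime30 hN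
  have e : a + b + c = c + (b + a) := by ring
  rw [e, Function.iterate_add_apply, Function.iterate_add_apply]
  have e2 : 2 ^ a * 3 ^ b * 5 ^ c * N = 2 ^ a * (3 ^ b * (5 ^ c * N)) := by ring
  rw [e2, it_two, it_three, it_five c h2 h3]
  rw [Nat.prime_two.dvd_mul]
  rintro (h | h)
  · have := Nat.prime_two.dvd_of_dvd_pow h
    norm_num at this
  · exact h2 h

theorem Ck_Syr {N : ℕ} (hN : Nat.Coprime N 30) (k : ℕ) : ∃ j : ℕ, Ck^[j] N = Syr^[k] N := by
  induction k with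
  | zero => exact ⟨0, rfl⟩
  | succ k ih =>
    obtain ⟨j, hj⟩ := ih
    have hM : Nat.Coprime (Syr^[k] N) 30 := by
      cases k with
      | zero => exact hN
      | succ k => rw [Function.iterate_succ_apply']; exact Syr_coprime _
    obtain ⟨a, b, c, -, habc⟩ := Syr_spec hM
    obtain ⟨h2, h3, h5⟩ := coprime30 hM
    refine ⟨a + b + c + (1 + j), ?_⟩
    rw [Function.iterate_add_apply (f := Ck) (m := a + b + c), Function.iterate_add_apply (f := Ck) (m := 1),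
      hj, Function.iterate_one, Ck_seven h2 h3 h5, habc, Ck_smooth a b c (Syr_coprime _),
      Function.iterate_succ_apply']

namespace C7Aux

theorem geom_le {q : ℝ} (h0 : 0 ≤ q) (h1 : q < 1) (n : ℕ) : ∑ i ∈ range n, q ^ i ≤ (1 - q)⁻¹ := by
  rw [geom_sum_eq h1.ne, ← neg_div_neg_eq, neg_sub, neg_sub, div_eq_mul_inv]
  have h2 : 0 < (1 - q)⁻¹ := inv_pos.2 (by linarith)
  have h3 : 0 ≤ q ^ n := pow_nonneg h0 n
  nlinarith

end C7Aux

open Classical in
theorem main0 {ε : ℝ} (hε : 0 < ε) : ∃ (N0 X0 : ℕ), ∀ X : ℕ, X0 ≤ X →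
    ∑ n ∈ Icc 1 X with (∀ j : ℕ, N0 < Ck^[j] n), 1 / (n : ℝ) ≤ ε * Real.log X := by
  obtain ⟨N0, X0, h⟩ := logDens (show (0 : ℝ) < ε / 8 by positivity)
  refine ⟨N0, X0 + 1, fun X hX => ?_⟩
  have hX0 : X0 ≤ X := by omega
  have hX1 : 1 ≤ X := by omega
  have hlog : 0 ≤ Real.log X := Real.log_nonneg (by exact_mod_cast hX1)
  set B : Finset ℕ := (Icc 1 X).filter (fun N => Nat.Coprime N 30 ∧ ∀ k : ℕ, N0 < Syr^[k] N)
    with hB
  set D : Finset (ℕ × ℕ × ℕ × ℕ) := range (X + 1) ×ˢ range (X + 1) ×ˢ range (X + 1) ×ˢ B with hD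
  set φ : ℕ × ℕ × ℕ × ℕ → ℕ := fun t => 2 ^ t.1 * 3 ^ t.2.1 * 5 ^ t.2.2.1 * t.2.2.2 with hφ
  have hsub : (Icc 1 X).filter (fun n => ∀ j : ℕ, N0 < Ck^[j] n) ⊆ D.image φ := by
    intro n hn
    rw [mem_filter, mem_Icc] at hn
    obtain ⟨⟨hn1, hnX⟩, hj⟩ := hn
    obtain ⟨a, b, c, N, hN, rfl⟩ := decomp (show 0 < n by omega)
    have hNpos : 0 < N := by
      rcases Nat.eq_zero_or_pos N with h0 | h0
      · subst h0; simp at hn1
      · exact h0
    rw [mem_image]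
    have pa : a < 2 ^ a := Nat.lt_two_pow_self
    have pb : b < 3 ^ b := Nat.lt_pow_self (by norm_num)
    have pc : c < 5 ^ c := Nat.lt_pow_self (by norm_num)
    have qa : 0 < 2 ^ a := by positivity
    have qb : 0 < 3 ^ b := by positivity
    have qc : 0 < 5 ^ c := by positivity
    have la : 2 ^ a ≤ 2 ^ a * 3 ^ b * 5 ^ c * N := by
      calc 2 ^ a = 2 ^ a * 1 * 1 * 1 := by ring
        _ ≤ _ := by gcongr <;> omega
    have lb : 3 ^ b ≤ 2 ^ a * 3 ^ b * 5 ^ c * N := by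
      calc 3 ^ b = 1 * 3 ^ b * 1 * 1 := by ring
        _ ≤ _ := by gcongr <;> omega
    have lc : 5 ^ c ≤ 2 ^ a * 3 ^ b * 5 ^ c * N := by
      calc 5 ^ c = 1 * 1 * 5 ^ c * 1 := by ring
        _ ≤ _ := by gcongr <;> omega
    have lN : N ≤ 2 ^ a * 3 ^ b * 5 ^ c * N := by
      calc N = 1 * 1 * 1 * N := by ring
        _ ≤ _ := by gcongr <;> omega
    refine ⟨(a, b, c, N), ?_, rfl⟩
    rw [hD, mem_product, mem_product, mem_product, mem_range, mem_range, mem_range, hB, mem_filter,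
      mem_Icc]
    refine ⟨by simp only; omega, by simp only; omega, by simp only; omega,
      ⟨by simp only; omega, by simp only; omega⟩, hN, fun k => ?_⟩
    obtain ⟨j, hjk⟩ := Ck_Syr hN k
    have := hj (j + (a + b + c))
    rw [Function.iterate_add_apply, Ck_smooth a b c hN, hjk] at this
    exact this
  have h1 : ∑ n ∈ Icc 1 X with (∀ j : ℕ, N0 < Ck^[j] n), 1 / (n : ℝ) ≤
      ∑ n ∈ D.image φ, 1 / (n : ℝ) := by
    apply sum_le_sum_of_subset_of_nonneg hsub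
    intro i _ _; positivity
  have h2 : ∑ n ∈ D.image φ, 1 / (n : ℝ) ≤ ∑ t ∈ D, 1 / (φ t : ℝ) := by
    rw [← sum_fiberwise_of_maps_to (g := φ) (s := D) (t := D.image φ)
      (fun t ht => mem_image_of_mem _ ht)]
    apply sum_le_sum
    intro n hn
    obtain ⟨t, ht, rfl⟩ := mem_image.1 hn
    have hmem : t ∈ D.filter (fun i => φ i = φ t) := mem_filter.2 ⟨ht, rfl⟩
    exact single_le_sum (f := fun t => 1 / (φ t : ℝ)) (fun i _ => by positivity) hmem
  have h3 : ∑ t ∈ D, 1 / (φ t : ℝ) = (∑ a ∈ range (X + 1), (1 / 2 : ℝ) ^ a) *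
      ((∑ b ∈ range (X + 1), (1 / 3 : ℝ) ^ b) * ((∑ c ∈ range (X + 1), (1 / 5 : ℝ) ^ c) *
        ∑ N ∈ B, 1 / (N : ℝ))) := by
    rw [hD, sum_product, sum_mul]
    refine sum_congr rfl fun a _ => ?_
    rw [sum_product, sum_mul, mul_sum]
    refine sum_congr rfl fun b _ => ?_
    rw [sum_product, sum_mul, mul_sum, mul_sum]
    refine sum_congr rfl fun c _ => ?_
    rw [mul_sum, mul_sum, mul_sum]
    refine sum_congr rfl fun N _ => ?_
    simp only [hφ]
    push_cast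
    rw [one_div_pow, one_div_pow, one_div_pow]
    rw [one_div, mul_inv, mul_inv, mul_inv]
    ring
  have g2 := geom_le (q := 1 / 2) (by norm_num) (by norm_num) (X + 1)
  have g3 := geom_le (q := 1 / 3) (by norm_num) (by norm_num) (X + 1)
  have g5 := geom_le (q := 1 / 5) (by norm_num) (by norm_num) (X + 1)
  have n2 : 0 ≤ ∑ a ∈ range (X + 1), (1 / 2 : ℝ) ^ a := sum_nonneg fun _ _ => by positivity
  have n3 : 0 ≤ ∑ a ∈ range (X + 1), (1 / 3 : ℝ) ^ a := sum_nonneg fun _ _ => by positivity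
  have n5 : 0 ≤ ∑ a ∈ range (X + 1), (1 / 5 : ℝ) ^ a := sum_nonneg fun _ _ => by positivity
  have nB : 0 ≤ ∑ N ∈ B, 1 / (N : ℝ) := sum_nonneg fun _ _ => by positivity
  have hBle := h X hX0
  rw [← hB] at hBle
  calc ∑ n ∈ Icc 1 X with (∀ j : ℕ, N0 < Ck^[j] n), 1 / (n : ℝ)
      ≤ ∑ t ∈ D, 1 / (φ t : ℝ) := h1.trans h2
    _ = _ := h3
    _ ≤ (1 - 1 / 2)⁻¹ * ((1 - 1 / 3)⁻¹ * ((1 - 1 / 5)⁻¹ * (ε / 8 * Real.log X))) := by
        gcongr
    _ = 15 / 32 * (ε * Real.log X) := by norm_num; ring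
    _ ≤ ε * Real.log X := by
        have : 0 ≤ ε * Real.log X := by positivity
        linarith

open Classical in
theorem main (f : ℕ → ℝ) (hf : Tendsto f atTop atTop) :
    Tendsto (fun X : ℕ => (∑ n ∈ Icc 1 X with (∀ j : ℕ, f n ≤ (Ck^[j] n : ℝ)), 1 / (n : ℝ)) /
      Real.log X) atTop (𝓝 0) := by
  rw [Metric.tendsto_atTop]
  intro ε hε
  obtain ⟨N0, X0, h⟩ := main0 (show (0 : ℝ) < ε / 4 by positivity)
  obtain ⟨n0, hn0⟩ := eventually_atTop.1 (hf.eventually_gt_atTop (N0 : ℝ))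
  set A : ℝ := ∑ n ∈ range n0, 1 / (n : ℝ) with hA
  have hA0 : 0 ≤ A := sum_nonneg fun _ _ => by positivity
  have hlog : Tendsto (fun X : ℕ => Real.log (X : ℝ)) atTop atTop :=
    Real.tendsto_log_atTop.comp tendsto_natCast_atTop_atTop
  obtain ⟨X1, hX1⟩ := eventually_atTop.1 (hlog.eventually_gt_atTop (max 1 (4 * A / ε)))
  refine ⟨max X0 X1, fun X hX => ?_⟩
  have hXX0 : X0 ≤ X := (le_max_left _ _).trans hX
  have hXX1 : X1 ≤ X := (le_max_right _ _).trans hX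
  have hl := hX1 X hXX1
  have hl1 : 1 < Real.log X := (le_max_left _ _).trans_lt hl
  have hl2 : 4 * A / ε < Real.log X := (le_max_right _ _).trans_lt hl
  have hl0 : 0 < Real.log X := by linarith
  have hl3 : 4 * A < Real.log X * ε := (div_lt_iff₀ hε).1 hl2
  set S : ℝ := ∑ n ∈ Icc 1 X with (∀ j : ℕ, f n ≤ (Ck^[j] n : ℝ)), 1 / (n : ℝ) with hS
  have hS0 : 0 ≤ S := sum_nonneg fun _ _ => by positivity
  have hSle : S ≤ A + ε / 4 * Real.log X := by
    have hsub : (Icc 1 X).filter (fun n => ∀ j : ℕ, f n ≤ (Ck^[j] n : ℝ)) ⊆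
        range n0 ∪ (Icc 1 X).filter (fun n => ∀ j : ℕ, N0 < Ck^[j] n) := by
      intro n hn
      rw [mem_filter] at hn
      rw [mem_union, mem_range, mem_filter]
      rcases Nat.lt_or_ge n n0 with h' | h'
      · exact Or.inl h'
      · refine Or.inr ⟨hn.1, fun j => ?_⟩
        have := (hn0 n h').trans_le (hn.2 j)
        exact_mod_cast this
    calc S ≤ ∑ n ∈ range n0 ∪ (Icc 1 X).filter (fun n => ∀ j : ℕ, N0 < Ck^[j] n), 1 / (n : ℝ) :=
          sum_le_sum_of_subset_of_nonneg hsub fun _ _ _ => by positivity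
      _ ≤ A + ∑ n ∈ Icc 1 X with (∀ j : ℕ, N0 < Ck^[j] n), 1 / (n : ℝ) := by
          rw [← sum_union_inter]
          have : 0 ≤ ∑ n ∈ range n0 ∩ (Icc 1 X).filter (fun n => ∀ j : ℕ, N0 < Ck^[j] n),
              1 / (n : ℝ) := sum_nonneg fun _ _ => by positivity
          linarith
      _ ≤ A + ε / 4 * Real.log X := by
          have := h X hXX0
          linarith
  rw [Real.dist_eq, sub_zero, abs_of_nonneg (by positivity), div_lt_iff₀ hl0]
  nlinarith

end Kak
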