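import Pool.Agent.Lib.Kak.C7

/-!
# Kak.C7W: the bad set of the Kakutani map in short logarithmic windows

PROOF.  Let `ε > 0`; apply `stage` with `ε/100`: `N0`, `T0`.  Let `x ≥ T` (large).  Let `n` be in the set
of the statement: `exp x ≤ n < exp (x + x/32)` and `N0 < Ck^[j] n` for all `j`.  Write `n = w N` with
`w = 2^a 3^b 5^c`, `N` coprime to 30 (`n ≥ 1`; the map `n ↦ (a,b,c,N)` is injective).  By `Ck_smooth` and `Ck_Syr`
(applied to `N`) we have `N0 < Syr^[k] N` for all `k` (every `Syr^[k] N` is of the form `Ck^[j] n`).  Put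
`x' = x - log w`, so `exp x' ≤ N < exp (x' + x/32)`.
(a) Terms with `log w ≤ x/2`: `x' ≥ x/2 ≥ T0`.  Put `x'' = x' + x'/32`; since `x' ≥ x/2`,
`x'' + x''/32 ≥ x' + x'/16 ≥ x' + x/32`, so `N ∈ WN x' (x'/32) ∪ WN x'' (x''/32)`.  By `stage` the sum of `1/N`
over these `N` is `≤ (ε/100) (x' + x'') ≤ (ε/100) 3x`.  As `1/n = (1/w)(1/N)` and
`∑_w 1/w ≤ 15/4` (finite sums over `a, b, c` of geometric type: `2 * 3/2 * 5/4`), the total is
`≤ (15/4)(3/100) ε x ≤ (ε/2) x`.
(b) Terms with `log w > x/2`: for fixed `w` the sum of `1/N` over the `N` with `N < exp (2x)` is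
`≤ 1 + 2x`, and `1/w ≤ exp(-x/4) u` with `u = (3/4)^a (3/5)^b (1/2)^c`, `∑ u ≤ 20`.  The total is
`≤ 20 exp (-x/4) (1 + 2 x) ≤ (ε/2) x` for large `x`.

`mainWf`: let `f → ∞`, `N0, T` from `mainW`; for `n ≥ n0` one has `f n > N0`, and `n ≥ exp x ≥ n0` if `x ≥ log (n0 + 1)`; so the
set for `f` is contained in the set for `N0`.
-/

open Finset Filter Topology

namespace Kak

namespace C7WAux

theorem factor {n : ℕ} (hn : n ≠ 0) : ∃ a b c N : ℕ, n = 2 ^ a * 3 ^ b * 5 ^ c * N ∧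
    Nat.Coprime N 30 := by
  obtain ⟨a, n1, h1, e1⟩ := Nat.exists_eq_pow_mul_and_not_dvd hn 2 (by norm_num)
  have hn1 : n1 ≠ 0 := by rintro rfl; simp at h1
  obtain ⟨b, n2, h2, e2⟩ := Nat.exists_eq_pow_mul_and_not_dvd hn1 3 (by norm_num)
  have hn2 : n2 ≠ 0 := by rintro rfl; simp at h2
  obtain ⟨c, n3, h3, e3⟩ := Nat.exists_eq_pow_mul_and_not_dvd hn2 5 (by norm_num)
  refine ⟨a, b, c, n3, by rw [e1, e2, e3]; ring, ?_⟩
  have c2 : Nat.Coprime n3 2 := by
    refine ((Nat.Prime.coprime_iff_not_dvd Nat.prime_two).2 ?_).symm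
    intro h
    exact h1 (by rw [e2, e3]; exact (h.mul_left _).mul_left _)
  have c3 : Nat.Coprime n3 3 := by
    refine ((Nat.Prime.coprime_iff_not_dvd Nat.prime_three).2 ?_).symm
    intro h
    exact h2 (by rw [e3]; exact h.mul_left _)
  have c5 : Nat.Coprime n3 5 :=
    ((Nat.Prime.coprime_iff_not_dvd Nat.prime_five).2 h3).symm
  have : (30 : ℕ) = 2 * 3 * 5 := by norm_num
  rw [this]
  exact (c2.mul_right c3).mul_right c5

/-- the smooth number -/
def sw (p : ℕ × ℕ × ℕ) : ℕ := 2 ^ p.1 * 3 ^ p.2.1 * 5 ^ p.2.2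

theorem sw_pos (p : ℕ × ℕ × ℕ) : 0 < sw p := by unfold sw; positivity

theorem geo {r : ℝ} (h0 : 0 ≤ r) (h1 : r < 1) (K : ℕ) : ∑ a ∈ range K, r ^ a ≤ (1 - r)⁻¹ := by
  rw [← tsum_geometric_of_lt_one h0 h1]
  exact (summable_geometric_of_lt_one h0 h1).sum_le_tsum _ (fun i _ => pow_nonneg h0 i)

theorem geo3 {r s t : ℝ} (hr0 : 0 ≤ r) (hr1 : r < 1) (hs0 : 0 ≤ s) (hs1 : s < 1)
    (ht0 : 0 ≤ t) (ht1 : t < 1) (K : ℕ) :
    ∑ p ∈ range K ×ˢ (range K ×ˢ range K), r ^ p.1 * s ^ p.2.1 * t ^ p.2.2 ≤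
      (1 - r)⁻¹ * (1 - s)⁻¹ * (1 - t)⁻¹ := by
  have h : ∑ p ∈ range K ×ˢ (range K ×ˢ range K), r ^ p.1 * s ^ p.2.1 * t ^ p.2.2 =
      (∑ a ∈ range K, r ^ a) * (∑ a ∈ range K, s ^ a) * (∑ a ∈ range K, t ^ a) := by
    rw [Finset.sum_product]
    simp_rw [Finset.sum_product]
    rw [Finset.sum_mul_sum, Finset.sum_mul]
    refine Finset.sum_congr rfl fun a _ => ?_
    rw [Finset.sum_mul_sum]
  rw [h]
  have a1 := geo hr0 hr1 K
  have a2 := geo hs0 hs1 K
  have a3 := geo ht0 ht1 K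
  have b1 : 0 ≤ ∑ a ∈ range K, r ^ a := Finset.sum_nonneg fun i _ => pow_nonneg hr0 i
  have b2 : 0 ≤ ∑ a ∈ range K, s ^ a := Finset.sum_nonneg fun i _ => pow_nonneg hs0 i
  have b3 : 0 ≤ ∑ a ∈ range K, t ^ a := Finset.sum_nonneg fun i _ => pow_nonneg ht0 i
  exact mul_le_mul (mul_le_mul a1 a2 b2 (b1.trans a1)) a3 b3
    (mul_nonneg (b1.trans a1) (b2.trans a2))

theorem sum_sw (K : ℕ) :
    ∑ p ∈ range K ×ˢ (range K ×ˢ range K), 1 / (sw p : ℝ) ≤ 15 / 4 := by
  have h := geo3 (r := 1 / 2) (s := 1 / 3) (t := 1 / 5) (by norm_num) (by norm_num) (by norm_num)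
    (by norm_num) (by norm_num) (by norm_num) K
  norm_num at h
  refine le_trans (le_of_eq (Finset.sum_congr rfl fun p _ => ?_)) h
  simp [sw, mul_comm]

theorem sw_sq (p : ℕ × ℕ × ℕ) : 1 / (sw p : ℝ) ≤
    ((3 / 4 : ℝ) ^ p.1 * (3 / 5) ^ p.2.1 * (1 / 2) ^ p.2.2) ^ 2 := by
  have h1 : 1 / (sw p : ℝ) = (1 / 2) ^ p.1 * (1 / 3) ^ p.2.1 * (1 / 5) ^ p.2.2 := by
    simp [sw, mul_comm]
  have h2 : ((3 / 4 : ℝ) ^ p.1 * (3 / 5) ^ p.2.1 * (1 / 2) ^ p.2.2) ^ 2 =
      (9 / 16 : ℝ) ^ p.1 * (9 / 25) ^ p.2.1 * (1 / 4) ^ p.2.2 := by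
    rw [mul_pow, mul_pow, ← pow_mul, ← pow_mul, ← pow_mul, mul_comm p.1, mul_comm p.2.1,
      mul_comm p.2.2, pow_mul, pow_mul, pow_mul]
    norm_num
  rw [h1, h2]
  refine mul_le_mul (mul_le_mul (pow_le_pow_left₀ (by norm_num) (by norm_num) _)
    (pow_le_pow_left₀ (by norm_num) (by norm_num) _) (by positivity) (by positivity))
    (pow_le_pow_left₀ (by norm_num) (by norm_num) _) (by positivity) (by positivity)

theorem harm (M : ℕ) : ∑ N ∈ (range M).filter (fun N : ℕ => N ≠ 0), 1 / (N : ℝ) ≤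
    1 + Real.log M := by
  rcases Nat.eq_zero_or_pos M with rfl | hM
  · simp
  have h := harmonic_le_one_add_log M
  refine le_trans ?_ h
  rw [harmonic]
  push_cast
  have : (range M).filter (fun N : ℕ => N ≠ 0) ⊆ (range M).image (fun i => i + 1) := by
    intro N hN
    simp only [mem_filter, mem_range, mem_image] at hN ⊢
    exact ⟨N - 1, by omega, by omega⟩
  refine le_trans (Finset.sum_le_sum_of_subset_of_nonneg this (fun i _ _ => by positivity)) ?_
  rw [Finset.sum_image (by intro a _ b _ h; simpa using h)]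
  refine le_of_eq (Finset.sum_congr rfl fun i _ => ?_)
  push_cast
  rw [one_div]

end C7WAux

open C7WAux

open Classical in
theorem mainW {ε : ℝ} (hε : 0 < ε) : ∃ (N0 : ℕ) (T : ℝ), 1 ≤ T ∧ ∀ x : ℝ, T ≤ x →
    ∑ n ∈ (Finset.range ⌈Real.exp (x + x / 32)⌉₊).filter (fun n : ℕ => Real.exp x ≤ (n : ℝ) ∧
      ∀ j : ℕ, N0 < Ck^[j] n), 1 / (n : ℝ) ≤ ε * x := by
  obtain ⟨N0, T0, hT0, hst⟩ := stage (ε := ε / 100) (by positivity)
  refine ⟨N0, max (2 * T0) (max 1 (4 * Real.log (120 / ε))), ?_, ?_⟩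
  · exact le_trans (le_max_left _ _) (le_max_right _ _)
  intro x hx
  have hx1 : 2 * T0 ≤ x := (le_max_left _ _).trans hx
  have hx2 : 1 ≤ x := ((le_max_left _ _).trans (le_max_right _ _)).trans hx
  have hx3 : 4 * Real.log (120 / ε) ≤ x :=
    ((le_max_right _ _).trans (le_max_right _ _)).trans hx
  set F : Set ℕ := {N | ∀ k : ℕ, N0 < Syr^[k] N} with hF
  set K := ⌈Real.exp (x + x / 32)⌉₊ with hK
  set S := (Finset.range K).filter (fun n : ℕ => Real.exp x ≤ (n : ℝ) ∧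
      ∀ j : ℕ, N0 < Ck^[j] n) with hS
  -- the choice of the factorization
  have hSpos : ∀ n ∈ S, n ≠ 0 := by
    intro n hn h0
    rw [hS, mem_filter] at hn
    have := hn.2.1
    rw [h0] at this
    have h2 := Real.exp_pos x
    simp at this
    linarith
  have hex : ∀ n : ℕ, ∃ y : (ℕ × ℕ × ℕ) × ℕ, n ∈ S → n = sw y.1 * y.2 ∧ Nat.Coprime y.2 30 := by
    intro n
    by_cases hn : n ∈ S
    · obtain ⟨a, b, c, N, h1, h2⟩ := factor (hSpos n hn)
      exact ⟨((a, b, c), N), fun _ => ⟨h1, h2⟩⟩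
    · exact ⟨((0, 0, 0), 0), fun h => absurd h hn⟩
  choose e he using hex
  have hinj : Set.InjOn e (S : Set ℕ) := by
    intro m hm n hn hmn
    rw [(he m hm).1, (he n hn).1, hmn]
  let R := range K ×ˢ (range K ×ˢ range K)
  let cond : (ℕ × ℕ × ℕ) × ℕ → Prop := fun y => Real.exp x ≤ (sw y.1 : ℝ) * y.2 ∧
    (sw y.1 : ℝ) * y.2 < Real.exp (x + x / 32) ∧ Nat.Coprime y.2 30 ∧ y.2 ∈ F
  have hsub : S.image e ⊆ (R ×ˢ range K).filter cond := by
    intro y hy
    rw [mem_image] at hy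
    obtain ⟨n, hn, rfl⟩ := hy
    have h1 := he n hn
    have hn' := hn
    rw [hS, mem_filter, mem_range] at hn'
    obtain ⟨hnK, hnx, hnj⟩ := hn'
    have hn0 := hSpos n hn
    have hN0 : (e n).2 ≠ 0 := by
      intro h; rw [h, mul_zero] at h1; exact hn0 h1.1
    have hle1 : sw (e n).1 ≤ n := by
      conv_rhs => rw [h1.1]
      exact Nat.le_mul_of_pos_right _ (Nat.pos_of_ne_zero hN0)
    have hle2 : (e n).2 ≤ n := by
      conv_rhs => rw [h1.1]
      exact Nat.le_mul_of_pos_left _ (sw_pos _)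
    have ha : (e n).1.1 < K := by
      refine lt_of_lt_of_le (Nat.lt_pow_self (by norm_num : 1 < 2)) (le_trans ?_ (hle1.trans hnK.le))
      unfold sw
      rw [mul_assoc]
      exact Nat.le_mul_of_pos_right _ (by positivity)
    have hb : (e n).1.2.1 < K := by
      refine lt_of_lt_of_le (Nat.lt_pow_self (by norm_num : 1 < 3)) (le_trans ?_ (hle1.trans hnK.le))
      unfold sw
      rw [mul_comm (2 ^ _), mul_assoc]
      exact Nat.le_mul_of_pos_right _ (by positivity)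
    have hc : (e n).1.2.2 < K := by
      refine lt_of_lt_of_le (Nat.lt_pow_self (by norm_num : 1 < 5)) (le_trans ?_ (hle1.trans hnK.le))
      unfold sw
      exact Nat.le_mul_of_pos_left _ (by positivity)
    have hcast : (sw (e n).1 : ℝ) * ((e n).2 : ℝ) = n := by
      conv_rhs => rw [h1.1]
      push_cast
      rfl
    rw [mem_filter]
    refine ⟨?_, ?_, ?_, h1.2, ?_⟩
    · simp only [R, mem_product, mem_range]
      exact ⟨⟨ha, hb, hc⟩, lt_of_le_of_lt hle2 hnK⟩
    · rw [hcast]; exact hnx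
    · rw [hcast]; exact Nat.lt_ceil.1 hnK
    · change ∀ k : ℕ, N0 < Syr^[k] (e n).2
      intro k
      obtain ⟨j, hj⟩ := Ck_Syr h1.2 k
      have h2 := Ck_smooth (e n).1.1 (e n).1.2.1 (e n).1.2.2 h1.2
      have h3 : 2 ^ (e n).1.1 * 3 ^ (e n).1.2.1 * 5 ^ (e n).1.2.2 * (e n).2 = n := h1.1.symm
      rw [h3] at h2
      have h4 := hnj (j + ((e n).1.1 + (e n).1.2.1 + (e n).1.2.2))
      rw [Function.iterate_add_apply, h2, hj] at h4
      exact h4
  have hsum1 : ∑ n ∈ S, 1 / (n : ℝ) ≤ ∑ y ∈ (R ×ˢ range K).filter cond,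
      1 / (sw y.1 : ℝ) * (1 / (y.2 : ℝ)) := by
    have h1 : ∑ n ∈ S, 1 / (n : ℝ) = ∑ y ∈ S.image e, 1 / (sw y.1 : ℝ) * (1 / (y.2 : ℝ)) := by
      rw [Finset.sum_image hinj]
      refine Finset.sum_congr rfl fun n hn => ?_
      conv_lhs => rw [(he n hn).1]
      push_cast
      rw [one_div_mul_one_div]
    rw [h1]
    exact Finset.sum_le_sum_of_subset_of_nonneg hsub (fun i _ _ => by positivity)
  -- the inner bound
  have hinner : ∀ p : ℕ × ℕ × ℕ,
      1 / (sw p : ℝ) * ∑ N ∈ (range K).filter (fun N => cond (p, N)), 1 / (N : ℝ) ≤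
      (1 / (sw p : ℝ)) * (ε / 100 * (3 * x)) + ((3 / 4 : ℝ) ^ p.1 * (3 / 5) ^ p.2.1 *
        (1 / 2) ^ p.2.2) * (Real.exp (-x / 4) * (1 + (x + x / 32 + 1))) := by
    intro p
    have hw : (0 : ℝ) < sw p := by exact_mod_cast sw_pos p
    have hnon1 : 0 ≤ (1 / (sw p : ℝ)) * (ε / 100 * (3 * x)) := by positivity
    have hnon2 : 0 ≤ ((3 / 4 : ℝ) ^ p.1 * (3 / 5) ^ p.2.1 *
        (1 / 2) ^ p.2.2) * (Real.exp (-x / 4) * (1 + (x + x / 32 + 1))) := by positivity
    rcases le_or_gt (Real.log (sw p)) (x / 2) with hcase | hcase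
    · -- small w
      refine le_trans ?_ (le_add_of_nonneg_right hnon2)
      refine mul_le_mul_of_nonneg_left ?_ (by positivity)
      set x' := x - Real.log (sw p) with hx'
      have hlog0 : 0 ≤ Real.log (sw p) := Real.log_nonneg (by exact_mod_cast sw_pos p)
      have hx'1 : x / 2 ≤ x' := by rw [hx']; linarith
      have hx'2 : x' ≤ x := by rw [hx']; linarith
      set x'' := x' + x' / 32 with hx''
      have hA := hst x' (by linarith)
      have hB := hst x'' (by rw [hx'']; linarith)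
      have hexp : Real.exp x' = Real.exp x / sw p := by
        rw [hx', Real.exp_sub, Real.exp_log hw]
      have hsubW : (range K).filter (fun N => cond (p, N)) ⊆
          (WN x' (x' / 32)).filter (fun N => N ∈ F) ∪ (WN x'' (x'' / 32)).filter (fun N => N ∈ F) := by
        intro N hN
        rw [mem_filter] at hN
        obtain ⟨hNK, h1, h2, h3, h4⟩ := hN
        simp only at h1 h2 h3 h4
        have h5 : Real.exp x' ≤ N := by
          rw [hexp, div_le_iff₀ hw, mul_comm]; exact h1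
        have h6 : (N : ℝ) < Real.exp (x'' + x'' / 32) := by
          have h7 : (N : ℝ) < Real.exp (x' + x / 32) := by
            have : Real.exp (x' + x / 32) = Real.exp (x + x / 32) / sw p := by
              rw [show x' + x / 32 = (x + x / 32) - Real.log (sw p) by rw [hx']; ring,
                Real.exp_sub, Real.exp_log hw]
            rw [this, lt_div_iff₀ hw, mul_comm]; exact h2
          refine lt_of_lt_of_le h7 (Real.exp_le_exp.2 ?_)
          rw [hx'']; linarith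
        rw [mem_union, mem_filter, mem_filter]
        unfold WN
        rw [mem_filter, mem_filter, mem_range, mem_range]
        rcases lt_or_ge (N : ℝ) (Real.exp (x' + x' / 32)) with h8 | h8
        · left
          exact ⟨⟨Nat.lt_ceil.2 h8, h5, h8, h3⟩, h4⟩
        · right
          exact ⟨⟨Nat.lt_ceil.2 h6, h8, h6, h3⟩, h4⟩
      have hWS : ∀ s l : ℝ, ∑ N ∈ (WN s l).filter (fun N => N ∈ F), 1 / (N : ℝ) = WS s l F := by
        intro s l
        rw [Finset.sum_filter]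
        unfold WS
        refine Finset.sum_congr rfl fun N _ => ?_
        rw [Set.indicator_apply]
      calc ∑ N ∈ (range K).filter (fun N => cond (p, N)), 1 / (N : ℝ)
          ≤ ∑ N ∈ (WN x' (x' / 32)).filter (fun N => N ∈ F) ∪
              (WN x'' (x'' / 32)).filter (fun N => N ∈ F), 1 / (N : ℝ) :=
            Finset.sum_le_sum_of_subset_of_nonneg hsubW (fun i _ _ => by positivity)
        _ ≤ ∑ N ∈ (WN x' (x' / 32)).filter (fun N => N ∈ F), 1 / (N : ℝ) +
              ∑ N ∈ (WN x'' (x'' / 32)).filter (fun N => N ∈ F), 1 / (N : ℝ) := by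
            rw [← Finset.sum_union_inter]
            exact le_add_of_nonneg_right (Finset.sum_nonneg fun i _ => by positivity)
        _ ≤ ε / 100 * x' + ε / 100 * x'' := by
            rw [hWS, hWS]; exact add_le_add hA hB
        _ ≤ ε / 100 * (3 * x) := by
            rw [← mul_add]
            refine mul_le_mul_of_nonneg_left ?_ (by positivity)
            rw [hx'']; linarith
    · -- large w
      refine le_trans ?_ (le_add_of_nonneg_left hnon1)
      have hu : 1 / (sw p : ℝ) ≤ ((3 / 4 : ℝ) ^ p.1 * (3 / 5) ^ p.2.1 * (1 / 2) ^ p.2.2) *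
          Real.exp (-x / 4) := by
        have h1 := sw_sq p
        have h2 : 1 / (sw p : ℝ) ≤ Real.exp (-x / 4) ^ 2 := by
          rw [← Real.exp_nat_mul]
          have h3 : Real.exp (x / 2) < sw p := by
            rw [← Real.lt_log_iff_exp_lt hw]; exact hcase
          rw [div_le_iff₀ hw]
          have h4 : Real.exp ((2 : ℕ) * (-x / 4)) = (Real.exp (x / 2))⁻¹ := by
            rw [← Real.exp_neg]; congr 1; push_cast; ring
          rw [h4, ← div_eq_inv_mul, le_div_iff₀ (Real.exp_pos _)]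
          linarith
        have h3 : (1 / (sw p : ℝ)) ^ 2 ≤ (((3 / 4 : ℝ) ^ p.1 * (3 / 5) ^ p.2.1 *
            (1 / 2) ^ p.2.2) * Real.exp (-x / 4)) ^ 2 := by
          rw [mul_pow, sq (1 / (sw p : ℝ))]
          exact mul_le_mul h1 h2 (by positivity) (by positivity)
        exact le_of_sq_le_sq h3 (by positivity)
      have hH : ∑ N ∈ (range K).filter (fun N => cond (p, N)), 1 / (N : ℝ) ≤
          1 + (x + x / 32 + 1) := by
        have h1 : (range K).filter (fun N => cond (p, N)) ⊆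
            (range K).filter (fun N : ℕ => N ≠ 0) := by
          intro N hN
          rw [mem_filter] at hN ⊢
          refine ⟨hN.1, ?_⟩
          rintro rfl
          have := hN.2.2.2.1
          simp at this
        refine (Finset.sum_le_sum_of_subset_of_nonneg h1 (fun i _ _ => by positivity)).trans
          ((harm K).trans ?_)
        have h2 : (K : ℝ) ≤ Real.exp (x + x / 32 + 1) := by
          have h3 : (K : ℝ) < Real.exp (x + x / 32) + 1 := Nat.ceil_lt_add_one (Real.exp_pos _).le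
          have h4 : (1 : ℝ) ≤ Real.exp (x + x / 32) := Real.one_le_exp (by positivity)
          have h5 : (2 : ℝ) ≤ Real.exp 1 := by
            have := Real.add_one_le_exp (1 : ℝ); linarith
          rw [Real.exp_add (x + x / 32) 1]
          nlinarith
        have hKpos : (0 : ℝ) < K := by
          have : 0 < K := Nat.ceil_pos.2 (Real.exp_pos _)
          exact_mod_cast this
        have h6 : Real.log K ≤ x + x / 32 + 1 := (Real.log_le_iff_le_exp hKpos).2 h2
        linarith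
      calc 1 / (sw p : ℝ) * ∑ N ∈ (range K).filter (fun N => cond (p, N)), 1 / (N : ℝ)
          ≤ (((3 / 4 : ℝ) ^ p.1 * (3 / 5) ^ p.2.1 * (1 / 2) ^ p.2.2) *
          Real.exp (-x / 4)) * (1 + (x + x / 32 + 1)) :=
            mul_le_mul hu hH (Finset.sum_nonneg fun i _ => by positivity) (by positivity)
        _ = _ := by ring
  have hsum2 : ∑ y ∈ (R ×ˢ range K).filter cond, 1 / (sw y.1 : ℝ) * (1 / (y.2 : ℝ)) =
      ∑ p ∈ R, 1 / (sw p : ℝ) * ∑ N ∈ (range K).filter (fun N => cond (p, N)), 1 / (N : ℝ) := by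
    rw [Finset.sum_filter, Finset.sum_product]
    refine Finset.sum_congr rfl fun p _ => ?_
    rw [Finset.sum_filter, Finset.mul_sum]
    refine Finset.sum_congr rfl fun N _ => ?_
    split_ifs <;> simp
  rw [hsum2] at hsum1
  refine hsum1.trans ((Finset.sum_le_sum fun p _ => hinner p).trans ?_)
  rw [Finset.sum_add_distrib, ← Finset.sum_mul, ← Finset.sum_mul]
  have g1 := sum_sw K
  have g2 := geo3 (r := 3 / 4) (s := 3 / 5) (t := 1 / 2) (by norm_num) (by norm_num) (by norm_num)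
    (by norm_num) (by norm_num) (by norm_num) K
  have g3 : Real.exp (-x / 4) ≤ ε / 120 := by
    rw [← Real.le_log_iff_exp_le (by positivity)]
    have : Real.log (ε / 120) = - Real.log (120 / ε) := by
      rw [← Real.log_inv, inv_div]
    rw [this]; linarith
  have g4 : (1 - 3 / 4 : ℝ)⁻¹ * (1 - 3 / 5)⁻¹ * (1 - 1 / 2)⁻¹ = 20 := by norm_num
  rw [g4] at g2
  have g5 : (∑ p ∈ R, 1 / (sw p : ℝ)) * (ε / 100 * (3 * x)) ≤ 15 / 4 * (ε / 100 * (3 * x)) :=
    mul_le_mul_of_nonneg_right g1 (by positivity)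
  have g6 : (∑ p ∈ R, ((3 / 4 : ℝ) ^ p.1 * (3 / 5) ^ p.2.1 * (1 / 2) ^ p.2.2)) *
      (Real.exp (-x / 4) * (1 + (x + x / 32 + 1))) ≤
      20 * (ε / 120 * (1 + (x + x / 32 + 1))) := by
    refine mul_le_mul g2 (mul_le_mul_of_nonneg_right g3 (by positivity)) (by positivity)
      (by norm_num)
  have g7 : 20 * (ε / 120 * (1 + (x + x / 32 + 1))) ≤ ε * x * (33 / 64) := by
    nlinarith [mul_pos hε (by linarith : (0 : ℝ) < x)]
  nlinarith [mul_pos hε (by linarith : (0 : ℝ) < x)]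

open Classical in
theorem mainWf (f : ℕ → ℝ) (hf : Tendsto f atTop atTop) {ε : ℝ} (hε : 0 < ε) :
    ∃ T : ℝ, 1 ≤ T ∧ ∀ x : ℝ, T ≤ x →
    ∑ n ∈ (Finset.range ⌈Real.exp (x + x / 32)⌉₊).filter (fun n : ℕ => Real.exp x ≤ (n : ℝ) ∧
      ∀ j : ℕ, f n ≤ (Ck^[j] n : ℝ)), 1 / (n : ℝ) ≤ ε * x := by
  obtain ⟨N0, T, hT, hm⟩ := mainW hε
  obtain ⟨n0, hn0⟩ := Filter.eventually_atTop.1 (hf.eventually_gt_atTop (N0 : ℝ))
  refine ⟨max T (Real.log (n0 + 1)), hT.trans (le_max_left _ _), fun x hx => ?_⟩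
  refine le_trans (Finset.sum_le_sum_of_subset_of_nonneg ?_ (fun i _ _ => by positivity))
    (hm x ((le_max_left _ _).trans hx))
  intro n hn
  rw [mem_filter] at hn ⊢
  refine ⟨hn.1, hn.2.1, fun j => ?_⟩
  have h1 : Real.log (n0 + 1) ≤ x := (le_max_right _ _).trans hx
  have h2 : (n0 : ℝ) + 1 ≤ Real.exp x := (Real.log_le_iff_le_exp (by positivity)).1 h1
  have h3 : n0 ≤ n := by
    have : (n0 : ℝ) < n := by linarith [hn.2.1]
    exact_mod_cast this.le
  have h4 := hn0 n h3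
  have h5 := hn.2.2 j
  have h6 : (N0 : ℝ) < (Ck^[j] n : ℕ) := lt_of_lt_of_le h4 h5
  exact_mod_cast h6

end Kak
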