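import Pool.Agent.Lib.Kak.ExBasic

/-!
# Kak.KernProb: one-step probabilities

PROOFS.  All by `nx_letter` and `base_sum` (choose `A, B, C` to be indicator functions, `G` to
contain `hh (nx r ..)` and the indicator of the event) and finite checks with rationals.

* `prob_b`: `P_r(lb l ≥ 1) ≥ 1/3` (the exact values for r = 1,2,4,7,8,11,13,14 are .3600, .4793,
  .3812, .3768, .4984, .4134, .6130, .6324); on `LS H` `lb l ≥ 1` iff `l.2.1.1 ≠ 0`.
* `prob_c`: `P_r(lc l ≥ 1) ≥ 1/6` (values .2401, .3193, .1982, .1954, .3452, .3541, .3307, .4222).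
* `prob_two`: `P_r(next state = 2) ≥ 1/11` (smallest value .0982 at r = 7).
* `prob_coin2`: the factor `w2 H t` is independent of everything else, so
  `P_r(t = s) = (1/16) / (16/15) = 15/256` for `s = 1, 2` (use `H ≥ 2`, so `2 ≠ H + 1`).
* `prob_coin3`: `P_r(b ≠ 0, u ∈ {1,2}) = P_r(b ≠ 0) * (2/81)/(81/80) ≥ (1/3) (160/6561) ≥ 1/124`
  ; the stated bound `1/130` follows from `prob_b`.
* `prob_top`: `P_r(t = H+1) = (16/15) 16^(-H) / (16/15) = 16^(-H)`,
  `P_r(u = H+1) ≤ 81^(-H)`, `P_r(c ≠ 0, k = H) ≤ 25^(-H)`.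
-/

open Finset

namespace Kak

namespace KernProbAux

/-- the sum over the exponents -/
noncomputable def cf (SA SB SC : ℝ) (D : ℕ → ℕ → ℕ → ℝ) (r : ZMod 15) : ℝ :=
  ∑ a ∈ Icc 1 4, ∑ b ∈ range 5, ∑ c ∈ range 3,
    ((1 / 2) ^ a * SA) * (if b = 0 then 1 else (1 / 3) ^ b * SB) *
      (if c = 0 then 1 else (1 / 5) ^ c * SC) * (D a b c * hh (nx r (2 ^ a * 3 ^ b * 5 ^ c)))

/-- integer form -/
def NN (d : ℕ → ℕ → ℕ → ℕ) (r : ZMod 15) : ℕ :=
  ∑ a ∈ Icc 1 4, ∑ b ∈ range 5, ∑ c ∈ range 3,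
    2 ^ (4 - a) * (if b = 0 then 80 else 3 ^ (4 - b)) * (if c = 0 then 24 else 5 ^ (2 - c)) *
      (d a b c * hN (nx r (2 ^ a * 3 ^ b * 5 ^ c)))

theorem key {H : ℕ} {r : ZMod 15} (A B C : ℕ → ℝ) (D : ℕ → ℕ → ℕ → ℝ) :
    ∑ l ∈ LS H, pr H r l * (A l.1.2 * (if l.2.1.1 = 0 then 1 else B l.2.1.2) *
      (if l.2.2.1 = 0 then 1 else C l.2.2.2) * D l.1.1 l.2.1.1 l.2.2.1) =
    cf (∑ t ∈ range (H + 2), w2 H t * A t) (∑ u ∈ range (H + 2), w3 H u * B u)
      (∑ k ∈ range (H + 1), w5 H k * C k) D r / hh r := by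
  unfold cf
  rw [← base_sum H A B C (fun a b c => D a b c * hh (nx r (2 ^ a * 3 ^ b * 5 ^ c))), sum_div]
  refine sum_congr rfl fun l hl => ?_
  unfold pr
  rw [nx_letter hl r]
  ring

theorem cf_nat (d : ℕ → ℕ → ℕ → ℕ) (r : ZMod 15) :
    cf (16 / 15) (81 / 80) (25 / 24) (fun a b c => (d a b c : ℝ)) r = (NN d r : ℝ) / 28800 := by
  unfold cf NN
  push_cast
  rw [sum_div]
  refine sum_congr rfl fun a ha => ?_
  rw [sum_div]
  refine sum_congr rfl fun b hb => ?_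
  rw [sum_div]
  refine sum_congr rfl fun c hc => ?_
  have h1 : ((1 : ℝ) / 2) ^ a * (16 / 15) = 2 ^ (4 - a) / 15 := by
    rw [mem_Icc] at ha
    obtain ⟨ha1, ha2⟩ := ha
    interval_cases a <;> norm_num
  have h2 : (if b = 0 then (1 : ℝ) else (1 / 3) ^ b * (81 / 80)) =
      (if b = 0 then (80 : ℝ) else 3 ^ (4 - b)) / 80 := by
    rw [mem_range] at hb
    interval_cases b <;> norm_num
  have h3 : (if c = 0 then (1 : ℝ) else (1 / 5) ^ c * (25 / 24)) =
      (if c = 0 then (24 : ℝ) else 5 ^ (2 - c)) / 24 := by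
    rw [mem_range] at hc
    interval_cases c <;> norm_num
  rw [h1, h2, h3]
  unfold hh
  ring

theorem cf_b (SA SB SC : ℝ) {D : ℕ → ℕ → ℕ → ℝ} (hD : ∀ a c, D a 0 c = 0) (r : ZMod 15) :
    cf SA SB SC D r = SB * cf SA 1 SC D r := by
  unfold cf
  rw [mul_sum]
  refine sum_congr rfl fun a _ => ?_
  rw [mul_sum]
  refine sum_congr rfl fun b _ => ?_
  rw [mul_sum]
  refine sum_congr rfl fun c _ => ?_
  by_cases hb : b = 0
  · subst hb
    rw [hD]
    ring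
  · rw [if_neg hb, if_neg hb]
    ring

theorem cf_c (SA SB SC : ℝ) {D : ℕ → ℕ → ℕ → ℝ} (hD : ∀ a b, D a b 0 = 0) (r : ZMod 15) :
    cf SA SB SC D r = SC * cf SA SB 1 D r := by
  unfold cf
  rw [mul_sum]
  refine sum_congr rfl fun a _ => ?_
  rw [mul_sum]
  refine sum_congr rfl fun b _ => ?_
  rw [mul_sum]
  refine sum_congr rfl fun c _ => ?_
  by_cases hc : c = 0
  · subst hc
    rw [hD]
    ring
  · rw [if_neg hc, if_neg hc]
    ring

theorem cf_a (SA SB SC : ℝ) (D : ℕ → ℕ → ℕ → ℝ) (r : ZMod 15) :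
    cf SA SB SC D r = SA * cf 1 SB SC D r := by
  unfold cf
  rw [mul_sum]
  refine sum_congr rfl fun a _ => ?_
  rw [mul_sum]
  refine sum_congr rfl fun b _ => ?_
  rw [mul_sum]
  refine sum_congr rfl fun c _ => ?_
  ring

/-- the probability of an event that depends only on the exponents and the residue -/
theorem key1 {H : ℕ} (hH : 2 ≤ H) {r : ZMod 15} (D : ℕ → ℕ → ℕ → ℝ) :
    ∑ l ∈ LS H, pr H r l * D l.1.1 l.2.1.1 l.2.2.1 =
      cf (16 / 15) (81 / 80) (25 / 24) D r / hh r := by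
  have h := key (H := H) (r := r) (fun _ => 1) (fun _ => 1) (fun _ => 1) D
  simp only [mul_one, ite_self, one_mul, sum_w2 hH, sum_w3 hH, sum_w5 H] at h
  exact h

theorem b_iff {H : ℕ} {l : Lt} (hl : l ∈ LS H) : 1 ≤ lb l ↔ l.2.1.1 ≠ 0 := by
  unfold LS at hl
  simp only [mem_product] at hl
  obtain ⟨-, hb, -⟩ := hl
  rw [mem_insert, mem_product, mem_Icc] at hb
  unfold lb
  rcases hb with hb | hb
  · rw [hb]
    simp
  · constructor
    · intro _
      omega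
    · intro _
      omega

theorem c_iff {H : ℕ} {l : Lt} (hl : l ∈ LS H) : 1 ≤ lc l ↔ l.2.2.1 ≠ 0 := by
  unfold LS at hl
  simp only [mem_product] at hl
  obtain ⟨-, -, hc⟩ := hl
  rw [mem_insert, mem_product, mem_Icc] at hc
  unfold lc
  rcases hc with hc | hc
  · rw [hc]
    simp
  · constructor
    · intro _
      omega
    · intro _
      omega

theorem bu {H : ℕ} {l : Lt} (hl : l ∈ LS H) (h : l.2.1.2 = H + 1) : l.2.1.1 ≠ 0 := by
  unfold LS at hl
  simp only [mem_product] at hl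
  obtain ⟨-, hb, -⟩ := hl
  rw [mem_insert, mem_product, mem_Icc] at hb
  rcases hb with hb | hb
  · rw [hb] at h
    simp at h
  · omega

theorem nat_bound {r : ZMod 15} (hr : r ∈ UU) (d : ℕ → ℕ → ℕ → ℕ) (m : ℕ) (hm : 0 < m)
    (h : 28800 * hN r ≤ m * NN d r) :
    1 / (m : ℝ) ≤ cf (16 / 15) (81 / 80) (25 / 24) (fun a b c => (d a b c : ℝ)) r / hh r := by
  rw [cf_nat]
  have h0 : 0 < hh r := hh_pos hr
  have h1 : (0 : ℝ) < m := by exact_mod_cast hm
  rw [div_div, div_le_div_iff₀ h1 (by positivity)]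
  have h2 : (28800 * hN r : ℝ) ≤ m * NN d r := by exact_mod_cast h
  unfold hh
  linarith

theorem chk_b : ∀ r ∈ UU, 28800 * hN r ≤ 3 * NN (fun _ b _ => if b = 0 then 0 else 1) r := by
  decide +kernel

theorem chk_c : ∀ r ∈ UU, 28800 * hN r ≤ 6 * NN (fun _ _ c => if c = 0 then 0 else 1) r := by
  decide +kernel

theorem chk_two : ∀ r ∈ UU,
    28800 * hN r ≤ 11 * NN (fun a b c => if nx r (2 ^ a * 3 ^ b * 5 ^ c) = 2 then 1 else 0) r := by
  decide +kernel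

theorem total {H : ℕ} (hH : 2 ≤ H) {r : ZMod 15} (hr : r ∈ UU) :
    cf (16 / 15) (81 / 80) (25 / 24) (fun _ _ _ => 1) r / hh r = 1 := by
  rw [← key1 hH]
  refine Eq.trans (sum_congr rfl fun l _ => ?_) (pr_sum hH hr)
  rw [mul_one]

/-- the probability of the value of the 2-coin -/
theorem coinA {H : ℕ} (hH : 2 ≤ H) {r : ZMod 15} (hr : r ∈ UU) {s : ℕ} (hs : s < H + 2) :
    ∑ l ∈ LS H with l.1.2 = s, pr H r l = w2 H s * (15 / 16) := by
  have h := key (H := H) (r := r) (fun t => if t = s then 1 else 0) (fun _ => 1) (fun _ => 1)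
    (fun _ _ _ => 1)
  simp only [mul_one, ite_self, sum_w3 hH, sum_w5 H, mul_ite, mul_zero] at h
  rw [sum_ite_eq' (range (H + 2)) s, if_pos (mem_range.2 hs)] at h
  rw [sum_filter, h]
  have ht := total hH hr
  rw [cf_a] at ht ⊢
  have : cf 1 (81 / 80) (25 / 24) (fun _ _ _ => 1) r / hh r = 15 / 16 := by
    rw [mul_div_assoc] at ht
    linarith
  rw [mul_div_assoc, this]

theorem w2_one {H : ℕ} : w2 H 1 = 1 / 16 := by
  unfold w2
  rw [if_neg one_ne_zero, if_pos rfl]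

theorem w2_two {H : ℕ} (hH : 2 ≤ H) : w2 H 2 = 1 / 16 := by
  unfold w2
  rw [if_neg (by omega), if_neg (by omega), if_neg (by omega)]
  norm_num

theorem w3_one {H : ℕ} : w3 H 1 = 1 / 81 := by
  unfold w3
  rw [if_neg one_ne_zero, if_pos rfl]

theorem w3_two {H : ℕ} (hH : 2 ≤ H) : w3 H 2 = 1 / 81 := by
  unfold w3
  rw [if_neg (by omega), if_neg (by omega), if_neg (by omega)]
  norm_num

/-- the probability of a set of values of the 3-coin, relative to `b ≠ 0` -/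
theorem coinB {H : ℕ} (hH : 2 ≤ H) {r : ZMod 15} (p : ℕ → Prop) [DecidablePred p] :
    ∑ l ∈ LS H with l.2.1.1 ≠ 0 ∧ p l.2.1.2, pr H r l =
      (∑ u ∈ range (H + 2), w3 H u * (if p u then 1 else 0)) * (80 / 81) *
        ∑ l ∈ LS H with l.2.1.1 ≠ 0, pr H r l := by
  have h := key (H := H) (r := r) (fun _ => 1) (fun u => if p u then 1 else 0) (fun _ => 1)
    (fun _ b _ => if b = 0 then 0 else 1)
  have h1 := key1 (r := r) hH (fun _ b _ => if b = 0 then 0 else 1)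
  simp only [mul_one, ite_self, one_mul, sum_w2 hH, sum_w5 H] at h
  rw [cf_b _ _ _ (fun _ _ => if_pos rfl)] at h h1
  have e1 : ∑ l ∈ LS H with l.2.1.1 ≠ 0 ∧ p l.2.1.2, pr H r l =
      ∑ l ∈ LS H, pr H r l * ((if l.2.1.1 = 0 then 1 else if p l.2.1.2 then 1 else 0) *
        if l.2.1.1 = 0 then 0 else 1) := by
    rw [sum_filter]
    refine sum_congr rfl fun l _ => ?_
    by_cases h1 : l.2.1.1 = 0
    · simp [h1]
    · by_cases h2 : p l.2.1.2
      · simp [h1, h2]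
      · simp [h1, h2]
  have e2 : ∑ l ∈ LS H with l.2.1.1 ≠ 0, pr H r l =
      ∑ l ∈ LS H, pr H r l * (if l.2.1.1 = 0 then 0 else 1) := by
    rw [sum_filter]
    refine sum_congr rfl fun l _ => ?_
    by_cases h1 : l.2.1.1 = 0
    · simp [h1]
    · simp [h1]
  rw [e1, e2, h, h1]
  ring

/-- the probability of a set of values of the 5-variable, relative to `c ≠ 0` -/
theorem coinC {H : ℕ} (hH : 2 ≤ H) {r : ZMod 15} (p : ℕ → Prop) [DecidablePred p] :
    ∑ l ∈ LS H with l.2.2.1 ≠ 0 ∧ p l.2.2.2, pr H r l =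
      (∑ u ∈ range (H + 1), w5 H u * (if p u then 1 else 0)) * (24 / 25) *
        ∑ l ∈ LS H with l.2.2.1 ≠ 0, pr H r l := by
  have h := key (H := H) (r := r) (fun _ => 1) (fun _ => 1) (fun u => if p u then 1 else 0)
    (fun _ _ c => if c = 0 then 0 else 1)
  have h1 := key1 (r := r) hH (fun _ _ c => if c = 0 then 0 else 1)
  simp only [mul_one, ite_self, one_mul, sum_w2 hH, sum_w3 hH] at h
  rw [cf_c _ _ _ (fun _ _ => if_pos rfl)] at h h1
  have e1 : ∑ l ∈ LS H with l.2.2.1 ≠ 0 ∧ p l.2.2.2, pr H r l =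
      ∑ l ∈ LS H, pr H r l * ((if l.2.2.1 = 0 then 1 else if p l.2.2.2 then 1 else 0) *
        if l.2.2.1 = 0 then 0 else 1) := by
    rw [sum_filter]
    refine sum_congr rfl fun l _ => ?_
    by_cases h1 : l.2.2.1 = 0
    · simp [h1]
    · by_cases h2 : p l.2.2.2
      · simp [h1, h2]
      · simp [h1, h2]
  have e2 : ∑ l ∈ LS H with l.2.2.1 ≠ 0, pr H r l =
      ∑ l ∈ LS H, pr H r l * (if l.2.2.1 = 0 then 0 else 1) := by
    rw [sum_filter]
    refine sum_congr rfl fun l _ => ?_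
    by_cases h1 : l.2.2.1 = 0
    · simp [h1]
    · simp [h1]
  rw [e1, e2, h, h1]
  ring

theorem le_one {H : ℕ} (hH : 2 ≤ H) {r : ZMod 15} (hr : r ∈ UU) (p : Lt → Prop)
    [DecidablePred p] : ∑ l ∈ LS H with p l, pr H r l ≤ 1 := by
  rw [← pr_sum hH hr]
  exact sum_le_sum_of_subset_of_nonneg (filter_subset _ _) (fun l _ _ => pr_nonneg H r l)

theorem nonneg {H : ℕ} {r : ZMod 15} (p : Lt → Prop)
    [DecidablePred p] : 0 ≤ ∑ l ∈ LS H with p l, pr H r l :=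
  sum_nonneg fun l _ => pr_nonneg H r l

theorem b_ge {H : ℕ} (hH : 2 ≤ H) {r : ZMod 15} (hr : r ∈ UU) :
    1 / 3 ≤ ∑ l ∈ LS H with l.2.1.1 ≠ 0, pr H r l := by
  have h := nat_bound hr (fun _ b _ => if b = 0 then 0 else 1) 3 (by norm_num) (chk_b r hr)
  push_cast at h
  rw [← key1 hH] at h
  refine h.trans (le_of_eq ?_)
  rw [sum_filter]
  refine sum_congr rfl fun l _ => ?_
  by_cases h1 : l.2.1.1 = 0
  · simp [h1]
  · simp [h1]

end KernProbAux

open KernProbAux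

theorem prob_b {H : ℕ} (hH : 2 ≤ H) {r : ZMod 15} (hr : r ∈ UU) :
    1 / 3 ≤ ∑ l ∈ LS H with 1 ≤ lb l, pr H r l := by
  refine (b_ge hH hr).trans (le_of_eq (sum_congr (filter_congr fun l hl => ?_) fun _ _ => rfl))
  rw [b_iff hl]

theorem prob_c {H : ℕ} (hH : 2 ≤ H) {r : ZMod 15} (hr : r ∈ UU) :
    1 / 6 ≤ ∑ l ∈ LS H with 1 ≤ lc l, pr H r l := by
  have h := nat_bound hr (fun _ _ c => if c = 0 then 0 else 1) 6 (by norm_num) (chk_c r hr)
  push_cast at h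
  rw [← key1 hH] at h
  refine h.trans (le_of_eq ?_)
  rw [sum_filter]
  refine sum_congr rfl fun l hl => ?_
  by_cases h1 : l.2.2.1 = 0
  · have h2 : ¬ 1 ≤ lc l := by
      rw [c_iff hl]
      exact not_not.2 h1
    rw [if_neg h2, if_pos h1, mul_zero]
  · have h2 : 1 ≤ lc l := (c_iff hl).2 h1
    rw [if_pos h2, if_neg h1, mul_one]

theorem prob_two {H : ℕ} (hH : 2 ≤ H) {r : ZMod 15} (hr : r ∈ UU) :
    1 / 11 ≤ ∑ l ∈ LS H with nx r (lw l) = 2, pr H r l := by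
  have h := nat_bound hr (fun a b c => if nx r (2 ^ a * 3 ^ b * 5 ^ c) = 2 then 1 else 0) 11
    (by norm_num) (chk_two r hr)
  push_cast at h
  rw [← key1 hH] at h
  refine h.trans (le_of_eq ?_)
  rw [sum_filter]
  refine sum_congr rfl fun l hl => ?_
  rw [nx_letter hl r]
  by_cases h1 : nx r (2 ^ l.1.1 * 3 ^ l.2.1.1 * 5 ^ l.2.2.1) = 2
  · rw [if_pos h1, if_pos h1, mul_one]
  · rw [if_neg h1, if_neg h1, mul_zero]

theorem prob_coin2 {H : ℕ} (hH : 2 ≤ H) {r : ZMod 15} (hr : r ∈ UU) {s : ℕ}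
    (hs : s = 1 ∨ s = 2) : ∑ l ∈ LS H with l.1.2 = s, pr H r l = 15 / 256 := by
  rw [coinA hH hr (by omega)]
  rcases hs with rfl | rfl
  · rw [w2_one]
    norm_num
  · rw [w2_two hH]
    norm_num

theorem prob_coin3 {H : ℕ} (hH : 2 ≤ H) {r : ZMod 15} (hr : r ∈ UU) :
    1 / 130 ≤ ∑ l ∈ LS H with l.2.1.1 ≠ 0 ∧ (l.2.1.2 = 1 ∨ l.2.1.2 = 2), pr H r l := by
  rw [coinB hH (fun u => u = 1 ∨ u = 2)]
  have h1 : ∑ u ∈ range (H + 2), w3 H u * (if u = 1 ∨ u = 2 then (1 : ℝ) else 0) = 2 / 81 := by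
    have h2 : ({1, 2} : Finset ℕ) ⊆ range (H + 2) := by
      intro x hx
      simp only [mem_insert, mem_singleton] at hx
      rw [mem_range]
      omega
    rw [← sum_subset h2]
    · rw [sum_pair (by norm_num)]
      simp only [true_or, or_true, if_true, mul_one]
      rw [w3_one, w3_two hH]
      norm_num
    · intro x _ hx
      simp only [mem_insert, mem_singleton] at hx
      rw [if_neg hx, mul_zero]
  rw [h1]
  have h3 := b_ge hH hr
  linarith

theorem prob_top {H : ℕ} (hH : 2 ≤ H) {r : ZMod 15} (hr : r ∈ UU) :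
    ∑ l ∈ LS H with (l.1.2 = H + 1 ∨ l.2.1.2 = H + 1 ∨ (l.2.2.1 ≠ 0 ∧ l.2.2.2 = H)),
      pr H r l ≤ 3 * (1 / 16) ^ H := by
  have hA : ∑ l ∈ LS H with l.1.2 = H + 1, pr H r l = (1 / 16) ^ H := by
    rw [coinA hH hr (by omega)]
    unfold w2
    rw [if_neg (by omega), if_neg (by omega), if_pos rfl]
    ring
  have hB : ∑ l ∈ LS H with l.2.1.1 ≠ 0 ∧ l.2.1.2 = H + 1, pr H r l ≤ (1 / 16) ^ H := by
    rw [coinB hH (fun u => u = H + 1)]
    have h1 : ∑ u ∈ range (H + 2), w3 H u * (if u = H + 1 then (1 : ℝ) else 0) =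
        81 / 80 * (1 / 81) ^ H := by
      simp only [mul_ite, mul_one, mul_zero]
      rw [sum_ite_eq' (range (H + 2)) (H + 1), if_pos (mem_range.2 (by omega))]
      unfold w3
      rw [if_neg (by omega), if_neg (by omega), if_pos rfl]
    rw [h1]
    have h2 := le_one hH hr (fun l => l.2.1.1 ≠ 0)
    have h3 := nonneg (H := H) (r := r) (fun l => l.2.1.1 ≠ 0)
    have h4 : ((1 : ℝ) / 81) ^ H ≤ (1 / 16) ^ H :=
      pow_le_pow_left₀ (by norm_num) (by norm_num) H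
    have h5 : (0 : ℝ) ≤ (1 / 81) ^ H := by positivity
    nlinarith
  have hC : ∑ l ∈ LS H with l.2.2.1 ≠ 0 ∧ l.2.2.2 = H, pr H r l ≤ (1 / 16) ^ H := by
    rw [coinC hH (fun u => u = H)]
    have h1 : ∑ u ∈ range (H + 1), w5 H u * (if u = H then (1 : ℝ) else 0) =
        25 / 24 * (1 / 25) ^ H := by
      simp only [mul_ite, mul_one, mul_zero]
      rw [sum_ite_eq' (range (H + 1)) H, if_pos (mem_range.2 (by omega))]
      unfold w5
      rw [if_pos rfl]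
    rw [h1]
    have h2 := le_one hH hr (fun l => l.2.2.1 ≠ 0)
    have h3 := nonneg (H := H) (r := r) (fun l => l.2.2.1 ≠ 0)
    have h4 : ((1 : ℝ) / 25) ^ H ≤ (1 / 16) ^ H :=
      pow_le_pow_left₀ (by norm_num) (by norm_num) H
    have h5 : (0 : ℝ) ≤ (1 / 25) ^ H := by positivity
    nlinarith
  have hsum : ∑ l ∈ LS H with (l.1.2 = H + 1 ∨ l.2.1.2 = H + 1 ∨ (l.2.2.1 ≠ 0 ∧ l.2.2.2 = H)),
      pr H r l ≤ ∑ l ∈ LS H with l.1.2 = H + 1, pr H r l +
        ∑ l ∈ LS H with l.2.1.1 ≠ 0 ∧ l.2.1.2 = H + 1, pr H r l +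
        ∑ l ∈ LS H with l.2.2.1 ≠ 0 ∧ l.2.2.2 = H, pr H r l := by
    rw [sum_filter, sum_filter, sum_filter, sum_filter, ← sum_add_distrib, ← sum_add_distrib]
    refine sum_le_sum fun l hl => ?_
    have hp := pr_nonneg H r l
    have hn1 : (0 : ℝ) ≤ if l.1.2 = H + 1 then pr H r l else 0 := by split_ifs <;> simp [hp]
    have hn2 : (0 : ℝ) ≤ if l.2.1.1 ≠ 0 ∧ l.2.1.2 = H + 1 then pr H r l else 0 := by
      split_ifs <;> simp [hp]
    have hn3 : (0 : ℝ) ≤ if l.2.2.1 ≠ 0 ∧ l.2.2.2 = H then pr H r l else 0 := by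
      split_ifs <;> simp [hp]
    by_cases h : l.1.2 = H + 1 ∨ l.2.1.2 = H + 1 ∨ (l.2.2.1 ≠ 0 ∧ l.2.2.2 = H)
    · rw [if_pos h]
      rcases h with h | h | h
      · rw [if_pos h]
        linarith
      · rw [if_pos (⟨bu hl h, h⟩ : l.2.1.1 ≠ 0 ∧ l.2.1.2 = H + 1)]
        linarith
      · rw [if_pos h]
        linarith
    · rw [if_neg h]
      linarith
  linarith

end Kak
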