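import Pool.Agent.Lib.Kak.ExBasic
import Pool.Agent.Lib.Kak.KernProb

/-!
# Kak.Doeb: convergence of the chain of states

PROOF.  Put `u j s = Ex H j s (fun v => φ (st s v))` for `s ∈ UU`.  `u (j+1) s = ∑_l pr H s l * u j (nx s (lw l))`.
Let `A_j = max_{s ∈ UU} u j s`, `a_j = min_{s ∈ UU} u j s`.  Since `∑ pr = 1`, `a_j ≤ a_(j+1) ≤ A_(j+1) ≤ A_j`.
Moreover with `p = ∑_{l : nx s (lw l) = 2} pr ≥ 1/11` (`prob_two`):
`u (j+1) s ≤ p u j 2 + (1-p) A_j ≤ (1/11) u j 2 + (10/11) A_j` and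
`u (j+1) s ≥ (1/11) u j 2 + (10/11) a_j`.  So `A_(j+1) - a_(j+1) ≤ (10/11)(A_j - a_j) ≤ (10/11)^(j+1) * 2`.
Let `c = lim a_j = lim A_j` (monotone bounded sequences, or nested intervals); `a_j ≤ c ≤ A_j`, so
`|u j s - c| ≤ A_j - a_j ≤ 2 (10/11)^j`, and `|c| ≤ 1`.
-/

open Finset

namespace Kak

/-- one step: upper bound -/
theorem doeb_up {H : ℕ} (hH : 2 ≤ H) (u : ZMod 15 → ℝ) {A : ℝ} (hA : ∀ t ∈ UU, u t ≤ A)
    {s : ZMod 15} (hs : s ∈ UU) :
    ∑ l ∈ LS H, pr H s l * u (nx s (lw l)) ≤ 1 / 11 * u 2 + 10 / 11 * A := by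
  classical
  have h2 : (2 : ZMod 15) ∈ UU := by decide
  have h1 : ∀ l ∈ LS H, pr H s l * u (nx s (lw l)) ≤
      pr H s l * A - (if nx s (lw l) = 2 then pr H s l else 0) * (A - u 2) := by
    intro l _
    by_cases h : nx s (lw l) = 2
    · rw [if_pos h, h]; linarith
    · rw [if_neg h]
      by_cases h' : nx s (lw l) ∈ UU
      · have := mul_le_mul_of_nonneg_left (hA _ h') (pr_nonneg H s l)
        linarith
      · rw [pr_eq_zero h']; simp
  refine (Finset.sum_le_sum h1).trans ?_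
  rw [Finset.sum_sub_distrib, ← Finset.sum_mul, ← Finset.sum_mul, pr_sum hH hs,
    ← Finset.sum_filter]
  have h3 := prob_two hH hs
  have h4 := hA 2 h2
  nlinarith

/-- one step: lower bound -/
theorem doeb_lo {H : ℕ} (hH : 2 ≤ H) (u : ZMod 15 → ℝ) {a : ℝ} (ha : ∀ t ∈ UU, a ≤ u t)
    {s : ZMod 15} (hs : s ∈ UU) :
    1 / 11 * u 2 + 10 / 11 * a ≤ ∑ l ∈ LS H, pr H s l * u (nx s (lw l)) := by
  have h := doeb_up hH (fun t => - u t) (A := -a) (fun t ht => neg_le_neg (ha t ht)) hs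
  simp only [mul_neg, Finset.sum_neg_distrib] at h
  linarith

theorem doeb {H : ℕ} (hH : 2 ≤ H) (φ : ZMod 15 → ℝ) (hφ : ∀ t, |φ t| ≤ 1) :
    ∃ c : ℝ, |c| ≤ 1 ∧ ∀ j : ℕ, ∀ s ∈ UU,
      |Ex H j s (fun v => φ (st s v)) - c| ≤ 2 * (10 / 11) ^ j := by
  have h2 : (2 : ZMod 15) ∈ UU := by decide
  obtain ⟨u, hu⟩ : ∃ u : ℕ → ZMod 15 → ℝ,
      u = fun j s => Ex H j s (fun v => φ (st s v)) := ⟨_, rfl⟩
  have hus : ∀ j s, u (j + 1) s = ∑ l ∈ LS H, pr H s l * u j (nx s (lw l)) := by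
    intro j s; rw [hu]; rfl
  have hu0 : ∀ s, u 0 s = φ s := by intro s; rw [hu]; rfl
  obtain ⟨lo, hlo⟩ : ∃ lo : ℕ → ℝ,
      lo = fun j => Nat.rec (-1 : ℝ) (fun j x => 1 / 11 * u j 2 + 10 / 11 * x) j := ⟨_, rfl⟩
  have hl0 : lo 0 = -1 := by rw [hlo]; rfl
  have hls : ∀ j, lo (j + 1) = 1 / 11 * u j 2 + 10 / 11 * lo j := by intro j; rw [hlo]
  have key : ∀ j, ∀ s ∈ UU, lo j ≤ u j s ∧ u j s ≤ lo j + 2 * (10 / 11) ^ j := by
    intro j
    induction j with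
    | zero =>
      intro s _
      have := abs_le.mp (hφ s)
      rw [hu0, hl0]; constructor <;> [linarith [this.1]; (rw [pow_zero]; linarith [this.2])]
    | succ j ih =>
      intro s hs
      rw [hus, hls]
      refine ⟨doeb_lo hH (u j) (fun t ht => (ih t ht).1) hs, ?_⟩
      refine (doeb_up hH (u j) (fun t ht => (ih t ht).2) hs).trans (le_of_eq ?_)
      rw [pow_succ]; ring
  have hmono : Monotone lo := by
    refine monotone_nat_of_le_succ fun j => ?_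
    rw [hls]
    linarith [(key j 2 h2).1]
  have hanti : Antitone (fun j => lo j + 2 * (10 / 11 : ℝ) ^ j) := by
    refine antitone_nat_of_succ_le fun j => ?_
    show lo (j + 1) + 2 * (10 / 11 : ℝ) ^ (j + 1) ≤ lo j + 2 * (10 / 11 : ℝ) ^ j
    rw [hls, pow_succ]
    linarith [(key j 2 h2).2]
  have hpos : ∀ j : ℕ, (0 : ℝ) ≤ 2 * (10 / 11) ^ j := fun j => by positivity
  have hcross : ∀ i j, lo i ≤ lo j + 2 * (10 / 11) ^ j := by
    intro i j
    have h1 := hmono (le_max_left i j)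
    have h3 := hanti (le_max_right i j)
    simp only at h3
    linarith [hpos (max i j)]
  have hbdd : BddAbove (Set.range lo) := ⟨lo 0 + 2 * (10 / 11) ^ 0, by
    rintro _ ⟨i, rfl⟩; exact hcross i 0⟩
  refine ⟨⨆ i, lo i, ?_, ?_⟩
  · have h1 : lo 0 ≤ ⨆ i, lo i := le_ciSup hbdd 0
    have h3 : ⨆ i, lo i ≤ lo 0 + 2 * (10 / 11) ^ 0 := ciSup_le fun i => hcross i 0
    rw [hl0] at h1 h3
    rw [abs_le]; constructor <;> [exact h1; (rw [pow_zero] at h3; linarith)]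
  · intro j s hs
    have h1 : lo j ≤ ⨆ i, lo i := le_ciSup hbdd j
    have h3 : ⨆ i, lo i ≤ lo j + 2 * (10 / 11) ^ j := ciSup_le fun i => hcross i j
    have h4 := key j s hs
    have h5 : Ex H j s (fun v => φ (st s v)) = u j s := by rw [hu]
    rw [h5, abs_le]
    constructor <;> linarith [h4.1, h4.2]

end Kak
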