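import Pool.Agent.Lib.Kak.OscOne

/-!
# Kak.OscChain: small oscillation between all levels `m ≤ n`

PROOFS.
`PdL_eq`: for `m ≤ n`, `v = v1 ++ u` with `|v1| = m`: `Fp v ≡ Fp v1` modulo `7^m` (`Fp_append`), so by
`Ex_append`: `PdL H n m r φ y = PdL H m m r ψ y` with `ψ s = Ex H (n-m) s (u ↦ φ (st s u))`.

`osc_tri`: for `m ≤ n' ≤ n`: `Osc H n m r φ ≤ Osc H n n' r φ + Osc H n' m r ψ` with
`ψ s = Ex H (n-n') s (u ↦ φ (st s u))`: triangle inequality, inserting `PdL H n n' r φ (Y mod 7^n')/7^(n-n')`: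
`∑_Y |PdL H n n' r φ (Y mod 7^n')/7^(n-n') - PdL H n m r φ (Y mod 7^m)/7^(n-m)|
= ∑_{y mod 7^n'} |PdL H n n' r φ y - PdL H n m r φ (y mod 7^m)/7^(n'-m)|` (each `y` has `7^(n-n')` lifts), and
`PdL H n n' r φ = PdL H n' n' r ψ`, `PdL H n m r φ = PdL H n' m r ψ` (`Ex_append` as above).
To have `|ψ| ≤ 1` everywhere, replace `ψ` by `0` outside `UU` (`PdL` only uses the values of the
function at final states, which are in `UU` for `r ∈ UU`).

`oscChain`: let `C` be the constant of `oscOne`.  Claim by strong induction on `n`: for all `1 ≤ m ≤ n ≤ H`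
and `|φ| ≤ 1`: `Osc H n m r φ ≤ K (1/m^2 - 1/n^2) + K/m^2`, with `K = max (50 C) 20000`.
* `n < 100`: `Osc ≤ 2 ≤ 20000/m^2` (`Osc ≤ ∑_Y |P Y| + ∑_Y (∑_{Y'} |P Y'|)/7^(n-m) ≤ 2`).
* `49 n ≤ 50 m`: `Osc ≤ C/n^2 ≤ K/m^2`.
* otherwise `n ≥ 100`, `n' = ⌈49n/50⌉ ≤ 49n/50 + 1`, so `m ≤ n'`, `n - n' ≥ n/50 - 1 ≥ n/100`, and by
  `osc_tri`, `oscOne` and induction
  `Osc ≤ C/n^2 + K (1/m^2 - 1/n'^2) + K/m^2`, while
  `K(1/n'^2 - 1/n^2) = K (n-n')(n+n')/(n^2 n'^2) ≥ K (n - n')/n^3 * (n+n')/n' ... ≥ 2 K (n-n')/n^3 ≥ K/(50 n^2) ≥ C/n^2`.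
-/

open Finset

namespace Kak

theorem PdL_eq {H n m : ℕ} (hm : m ≤ n) (r : ZMod 15) (φ : ZMod 15 → ℝ) (y : ZMod (7 ^ m)) :
    PdL H n m r φ y = PdL H m m r (fun s => Ex H (n - m) s (fun u => φ (st s u))) y := by
  obtain ⟨k, rfl⟩ := Nat.exists_eq_add_of_le hm
  unfold PdL
  rw [Ex_append, Nat.add_sub_cancel_left]
  refine Ex_congr H m r fun v hv _ => ?_
  have h1 : ∀ u : List Lt, PadicInt.toZModPow m (Fp (v ++ u)) = PadicInt.toZModPow m (Fp v) := by
    intro u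
    rw [Fp_append, map_add, map_mul, map_mul, hv]
    have : PadicInt.toZModPow m ((7 : ℤ_[7]) ^ m) = 0 := by
      have h7 : ((7 : ℤ_[7]) ^ m) = (((7 ^ m : ℕ) : ℕ) : ℤ_[7]) := by push_cast; rfl
      rw [h7, map_natCast]
      exact ZMod.natCast_self (7 ^ m)
    rw [this]
    ring
  simp only [h1, st_append]
  by_cases h : PadicInt.toZModPow m (Fp v) = y
  · simp only [h, if_true]
  · simp only [h, if_false]
    exact Ex_zero_fun (E := ℝ) H k _

namespace OscChainAux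

/-- reduction modulo a smaller power: all fibres have the same size -/
lemma sum_reduce {a b : ℕ} (hab : b ≤ a) (F : ZMod (7 ^ b) → ℝ) :
    ∑ Y : ZMod (7 ^ a), F ((Y.val : ℕ) : ZMod (7 ^ b)) = 7 ^ (a - b) * ∑ y : ZMod (7 ^ b), F y := by
  classical
  have hdvd : 7 ^ b ∣ 7 ^ a := pow_dvd_pow 7 hab
  set f : ZMod (7 ^ a) →+* ZMod (7 ^ b) := ZMod.castHom hdvd (ZMod (7 ^ b)) with hf
  have hfv : ∀ Y : ZMod (7 ^ a), ((Y.val : ℕ) : ZMod (7 ^ b)) = f Y := by
    intro Y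
    rw [ZMod.natCast_val, hf, ZMod.castHom_apply]
  have hsurj : Function.Surjective f := ZMod.castHom_surjective hdvd
  have hcard : ∀ y : ZMod (7 ^ b), (Finset.univ.filter fun Y => f Y = y).card =
      (Finset.univ.filter fun Y => f Y = 0).card := by
    intro y
    exact AddMonoidHom.card_fiber_eq_of_mem_range f.toAddMonoidHom (hsurj y) (hsurj 0)
  have htot : (7 : ℝ) ^ a = 7 ^ b * ((Finset.univ.filter fun Y => f Y = 0).card : ℝ) := by
    have h1 : (Finset.univ : Finset (ZMod (7 ^ a))).card =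
        ∑ y : ZMod (7 ^ b), (Finset.univ.filter fun Y => f Y = y).card :=
      Finset.card_eq_sum_card_fiberwise (fun x _ => Finset.mem_univ (f x))
    simp only [hcard, Finset.sum_const, Finset.card_univ, ZMod.card, smul_eq_mul] at h1
    exact_mod_cast h1
  have hc : ((Finset.univ.filter fun Y => f Y = 0).card : ℝ) = 7 ^ (a - b) := by
    have h2 : (7 : ℝ) ^ a = 7 ^ b * 7 ^ (a - b) := by
      rw [← pow_add]; congr 1; omega
    rw [h2] at htot
    have h3 : (7 : ℝ) ^ b ≠ 0 := by positivity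
    exact (mul_left_cancel₀ h3 htot).symm
  simp only [hfv]
  rw [← Finset.sum_fiberwise_of_maps_to (g := fun Y => f Y) (t := Finset.univ)
    (fun x _ => Finset.mem_univ _)]
  rw [Finset.mul_sum]
  refine Finset.sum_congr rfl fun y _ => ?_
  rw [Finset.sum_congr rfl (g := fun _ => F y) (fun Y hY => by
    rw [(Finset.mem_filter.mp hY).2])]
  rw [Finset.sum_const, nsmul_eq_mul, hcard, hc]

lemma val_val {a b c : ℕ} (hab : c ≤ b) (Y : ZMod (7 ^ a)) :
    (((((Y.val : ℕ) : ZMod (7 ^ b)).val : ℕ)) : ZMod (7 ^ c)) = ((Y.val : ℕ) : ZMod (7 ^ c)) := by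
  rw [ZMod.val_natCast]
  rw [ZMod.natCast_eq_natCast_iff']
  exact Nat.mod_mod_of_dvd _ (pow_dvd_pow 7 hab)

lemma PdL_congr {H n m : ℕ} {r : ZMod 15} (hr : r ∈ UU) {φ ψ : ZMod 15 → ℝ}
    (h : ∀ s ∈ UU, φ s = ψ s) (y : ZMod (7 ^ m)) : PdL H n m r φ y = PdL H n m r ψ y := by
  unfold PdL
  refine Ex_congr H n r fun v _ hv => ?_
  rw [h _ (st_mem v r hr hv)]

lemma osc_tri {H n n' m : ℕ} (hH : 2 ≤ H) (h1 : m ≤ n') (h2 : n' ≤ n) {r : ZMod 15}
    (hr : r ∈ UU) (φ : ZMod 15 → ℝ) (hφ : ∀ t, |φ t| ≤ 1) :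
    ∃ ψ : ZMod 15 → ℝ, (∀ t, |ψ t| ≤ 1) ∧
      Osc H n m r φ ≤ Osc H n n' r φ + Osc H n' m r ψ := by
  classical
  set ψ0 : ZMod 15 → ℝ := fun s => Ex H (n - n') s (fun u => φ (st s u)) with hψ0
  set ψ : ZMod 15 → ℝ := fun s => if s ∈ UU then ψ0 s else 0 with hψ
  have hψe : ∀ s ∈ UU, ψ0 s = ψ s := by
    intro s hs
    rw [hψ]
    simp only [hs, if_true]
  refine ⟨ψ, ?_, ?_⟩
  · intro t
    by_cases ht : t ∈ UU
    · rw [← hψe t ht]
      refine (abs_Ex_le _ _ _ _).trans (Ex_le_const hH _ ht fun v _ _ => hφ _)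
    · rw [hψ]
      simp [ht]
  · have e1 : ∀ y, PdL H n n' r φ y = PdL H n' n' r ψ y := by
      intro y
      rw [PdL_eq h2]
      exact PdL_congr hr hψe y
    have e2 : ∀ y, PdL H n m r φ y = PdL H n' m r ψ y := by
      intro y
      rw [← PdL_congr hr hψe y, PdL_eq (h1.trans h2), PdL_eq h1]
      congr 1
      funext s
      rw [hψ0]
      simp only
      have h3 : n - m = (n' - m) + (n - n') := by omega
      rw [h3, Ex_append]
      simp only [st_append]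
    unfold Osc
    have h4 : ∀ Y : ZMod (7 ^ n), |PdL H n n r φ Y -
        PdL H n m r φ ((Y.val : ℕ) : ZMod (7 ^ m)) / 7 ^ (n - m)| ≤
        |PdL H n n r φ Y - PdL H n n' r φ ((Y.val : ℕ) : ZMod (7 ^ n')) / 7 ^ (n - n')| +
        (fun y : ZMod (7 ^ n') => |PdL H n' n' r ψ y -
          PdL H n' m r ψ ((y.val : ℕ) : ZMod (7 ^ m)) / 7 ^ (n' - m)| / 7 ^ (n - n'))
          ((Y.val : ℕ) : ZMod (7 ^ n')) := by
      intro Y
      simp only
      rw [val_val h1, ← e1, ← e2]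
      have h5 : (7 : ℝ) ^ (n - m) = 7 ^ (n' - m) * 7 ^ (n - n') := by
        rw [← pow_add]; congr 1; omega
      set A := PdL H n n r φ Y
      set B := PdL H n n' r φ ((Y.val : ℕ) : ZMod (7 ^ n'))
      set D := PdL H n m r φ ((Y.val : ℕ) : ZMod (7 ^ m))
      have h6 : |B - D / 7 ^ (n' - m)| / 7 ^ (n - n') = |B / 7 ^ (n - n') - D / 7 ^ (n - m)| := by
        rw [h5, ← div_div, ← sub_div, abs_div, abs_of_pos (by positivity : (0 : ℝ) < 7 ^ (n - n'))]
      rw [h6]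
      exact abs_sub_le _ _ _
    refine (Finset.sum_le_sum fun Y _ => h4 Y).trans ?_
    rw [Finset.sum_add_distrib]
    refine add_le_add_right ?_ _ |>.trans (le_of_eq rfl)
    rw [sum_reduce h2 (fun y : ZMod (7 ^ n') => |PdL H n' n' r ψ y -
          PdL H n' m r ψ ((y.val : ℕ) : ZMod (7 ^ m)) / 7 ^ (n' - m)| / 7 ^ (n - n')),
      ← Finset.sum_div]
    exact le_of_eq (mul_div_cancel₀ _ (by positivity))

lemma sum_PdL {H n m : ℕ} (hH : 2 ≤ H) {r : ZMod 15} (hr : r ∈ UU) (φ : ZMod 15 → ℝ)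
    (hφ : ∀ t, |φ t| ≤ 1) : ∑ y : ZMod (7 ^ m), |PdL H n m r φ y| ≤ 1 := by
  classical
  have h1 : ∀ y : ZMod (7 ^ m), |PdL H n m r φ y| ≤
      Ex H n r (fun v => if PadicInt.toZModPow m (Fp v) = y then 1 else 0) := by
    intro y
    unfold PdL
    refine (abs_Ex_le _ _ _ _).trans (Ex_mono _ _ _ fun v _ _ => ?_)
    split_ifs
    · exact hφ _
    · simp
  refine (Finset.sum_le_sum fun y _ => h1 y).trans ?_
  rw [← Ex_sum]
  refine Ex_le_const hH n hr fun v _ _ => ?_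
  rw [Finset.sum_ite_eq]
  simp

lemma osc_le_two {H n m : ℕ} (hH : 2 ≤ H) (hm : m ≤ n) {r : ZMod 15} (hr : r ∈ UU)
    (φ : ZMod 15 → ℝ) (hφ : ∀ t, |φ t| ≤ 1) : Osc H n m r φ ≤ 2 := by
  unfold Osc
  have h1 : ∀ Y : ZMod (7 ^ n), |PdL H n n r φ Y -
        PdL H n m r φ ((Y.val : ℕ) : ZMod (7 ^ m)) / 7 ^ (n - m)| ≤
      |PdL H n n r φ Y| + (fun y : ZMod (7 ^ m) => |PdL H n m r φ y| / 7 ^ (n - m))
        ((Y.val : ℕ) : ZMod (7 ^ m)) := by
    intro Y
    simp only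
    refine (abs_sub _ _).trans (le_of_eq ?_)
    rw [abs_div, abs_of_pos (by positivity : (0 : ℝ) < 7 ^ (n - m))]
  refine (Finset.sum_le_sum fun Y _ => h1 Y).trans ?_
  rw [Finset.sum_add_distrib, sum_reduce hm (fun y : ZMod (7 ^ m) =>
    |PdL H n m r φ y| / 7 ^ (n - m)), ← Finset.sum_div]
  have h2 := sum_PdL (n := n) (m := n) hH hr φ hφ
  have h3 := sum_PdL (n := n) (m := m) hH hr φ hφ
  have h4 : (7 : ℝ) ^ (n - m) * ((∑ y : ZMod (7 ^ m), |PdL H n m r φ y|) / 7 ^ (n - m)) =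
      ∑ y : ZMod (7 ^ m), |PdL H n m r φ y| := by
    field_simp
  rw [h4]
  linarith

end OscChainAux

open OscChainAux in
theorem oscChain : ∃ C : ℝ, 1 ≤ C ∧ ∀ H, 2 ≤ H → ∀ n m : ℕ, 1 ≤ m → m ≤ n → n ≤ H →
    ∀ r ∈ UU, ∀ φ : ZMod 15 → ℝ, (∀ t, |φ t| ≤ 1) → Osc H n m r φ ≤ C / (m : ℝ) ^ 2 := by
  obtain ⟨C, hC, hone⟩ := oscOne
  set K : ℝ := max (50 * C) 20000 with hK
  have hK1 : 50 * C ≤ K := le_max_left _ _
  have hK2 : 20000 ≤ K := le_max_right _ _
  have hK0 : 0 < K := by linarith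
  refine ⟨2 * K, by linarith, ?_⟩
  intro H hH
  have main : ∀ n m : ℕ, 1 ≤ m → m ≤ n → n ≤ H → ∀ r ∈ UU, ∀ φ : ZMod 15 → ℝ,
      (∀ t, |φ t| ≤ 1) → Osc H n m r φ ≤ K * (2 / (m : ℝ) ^ 2 - 1 / (n : ℝ) ^ 2) := by
    intro n
    induction n using Nat.strong_induction_on with
    | _ n ih =>
      intro m hm1 hmn hnH r hr φ hφ
      have hm0 : (0 : ℝ) < m := by exact_mod_cast hm1
      have hmn' : (m : ℝ) ≤ n := by exact_mod_cast hmn
      have hn0 : (0 : ℝ) < n := lt_of_lt_of_le hm0 hmn'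
      have hle : 1 / (n : ℝ) ^ 2 ≤ 1 / (m : ℝ) ^ 2 :=
        one_div_le_one_div_of_le (by positivity) (pow_le_pow_left₀ hm0.le hmn' 2)
      have hge : K * (1 / (m : ℝ) ^ 2) ≤ K * (2 / (m : ℝ) ^ 2 - 1 / (n : ℝ) ^ 2) := by
        refine mul_le_mul_of_nonneg_left ?_ hK0.le
        have : 2 / (m : ℝ) ^ 2 = 1 / (m : ℝ) ^ 2 + 1 / (m : ℝ) ^ 2 := by ring
        rw [this]
        linarith
      by_cases hn100 : n < 100
      · refine (osc_le_two hH hmn hr φ hφ).trans (le_trans ?_ hge)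
        have hm100 : (m : ℝ) ≤ 100 := by
          have : m ≤ 100 := by omega
          exact_mod_cast this
        have h1 : (m : ℝ) ^ 2 ≤ 10000 := by nlinarith
        rw [mul_one_div, le_div_iff₀ (by positivity)]
        nlinarith
      · push Not at hn100
        by_cases h49 : 49 * n ≤ 50 * m
        · have h1 := hone H hH n m (by omega) hnH hmn h49 r hr φ hφ
          refine h1.trans (le_trans ?_ hge)
          have h2 : C / (n : ℝ) ^ 2 = C * (1 / (n : ℝ) ^ 2) := by ring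
          rw [h2]
          exact mul_le_mul (by linarith) hle (by positivity) hK0.le
        · push Not at h49
          set n' := (49 * n + 49) / 50 with hn'
          have hn'1 : 49 * n ≤ 50 * n' := by omega
          have hn'2 : 50 * n' ≤ 49 * n + 49 := by omega
          have hmn' : m ≤ n' := by omega
          have hn'n : n' < n := by omega
          obtain ⟨ψ, hψ, htri⟩ := osc_tri hH hmn' hn'n.le hr φ hφ
          have h1 := hone H hH n n' (by omega) hnH hn'n.le hn'1 r hr φ hφ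
          have h2 := ih n' hn'n m hm1 hmn' (hn'n.le.trans hnH) r hr ψ hψ
          have hn'0 : (0 : ℝ) < n' := by
            have : 0 < n' := by omega
            exact_mod_cast this
          have hnn : (n' : ℝ) ≤ n := by exact_mod_cast hn'n.le
          have hdiff : (n : ℝ) / 100 ≤ n - n' := by
            have h3 : (50 : ℝ) * n' ≤ 49 * n + 49 := by exact_mod_cast hn'2
            have h4 : (100 : ℝ) ≤ n := by exact_mod_cast hn100
            linarith
          have h5 : C / (n : ℝ) ^ 2 ≤ K * (1 / (n' : ℝ) ^ 2 - 1 / (n : ℝ) ^ 2) := by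
            have h6 : 1 / (50 * (n : ℝ) ^ 2) ≤ 1 / (n' : ℝ) ^ 2 - 1 / (n : ℝ) ^ 2 := by
              rw [div_sub_div _ _ (by positivity) (by positivity), div_le_div_iff₀ (by positivity)
                (by positivity)]
              have h7 : (n : ℝ) ^ 2 - (n' : ℝ) ^ 2 = (n - n') * (n + n') := by ring
              have h8 : (n : ℝ) / 100 * (2 * n') ≤ (n - n') * (n + n') :=
                mul_le_mul hdiff (by linarith) (by positivity) (by linarith)
              have h9 : (n' : ℝ) ^ 2 * (n : ℝ) ^ 2 ≤ 50 * (n : ℝ) ^ 2 * ((n : ℝ) / 100 * (2 * n')) := by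
                have h10 : (n' : ℝ) ^ 2 ≤ n * n' := by nlinarith
                nlinarith [sq_nonneg (n : ℝ)]
              have h11 : 50 * (n : ℝ) ^ 2 * ((n : ℝ) / 100 * (2 * n')) ≤
                  50 * (n : ℝ) ^ 2 * ((n - n') * (n + n')) :=
                mul_le_mul_of_nonneg_left h8 (by positivity)
              nlinarith
            calc C / (n : ℝ) ^ 2 = 50 * C * (1 / (50 * (n : ℝ) ^ 2)) := by field_simp
              _ ≤ K * (1 / (50 * (n : ℝ) ^ 2)) := mul_le_mul_of_nonneg_right hK1 (by positivity)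
              _ ≤ _ := mul_le_mul_of_nonneg_left h6 hK0.le
          have h12 : K * (2 / (m : ℝ) ^ 2 - 1 / (n : ℝ) ^ 2) =
              K * (1 / (n' : ℝ) ^ 2 - 1 / (n : ℝ) ^ 2) + K * (2 / (m : ℝ) ^ 2 - 1 / (n' : ℝ) ^ 2) := by
            ring
          rw [h12]
          linarith
  intro n m hm1 hmn hnH r hr φ hφ
  refine (main n m hm1 hmn hnH r hr φ hφ).trans ?_
  have h1 : 2 * K / (m : ℝ) ^ 2 = K * (2 / (m : ℝ) ^ 2) := by ring
  rw [h1]
  refine mul_le_mul_of_nonneg_left ?_ hK0.le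
  have : 0 ≤ 1 / (n : ℝ) ^ 2 := by positivity
  linarith

end Kak
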