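import Pool.Agent.Lib.Kak.KSwap
import Pool.Agent.Lib.Kak.Doeb
import Pool.Agent.Lib.Kak.OscChain

/-!
# Kak.T3: the transported densities for `n1` and `n2` steps are close

PROOF.  Let `φ s = 1/hh s` (which is `0` outside `UU`); `|φ| ≤ 1`.  Let `c` be the constant of `doeb` for `φ`,
`m = (n1 + 1) / 2` (natural division); `1 ≤ m ≤ n1 ≤ 2m`.  For `M` coprime to 30, `r = (M : ZMod 15)`, put
`K' M = (7^m/M) hh r c PdL H m m r 1 M`.
Claim: for `n ∈ {n1, n2}`: `∑_{M ∈ WN s l} |KK H n M - K' M| ≤ C (l+1)/n1`.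
Indeed `KK H n M = (7^n/M) hh r PdL H n n r φ M` and
`|KK H n M - K' M| ≤ (7^n/M) hh r |PdL H n n r φ M - PdL H n m r φ M/7^(n-m)| + (7^m/M) hh r |PdL H n m r φ M - c PdL H m m r 1 M|`.
Both parts are summed with `class_sum`: the numbers of the window in one class modulo `15` and modulo `7^n` lie in one
class modulo `30 * 7^n`, so `apsum` applies.
First part: `≤ ((l+1)/30) ∑_r hh r Osc H n m r φ ≤ ((l+1)/30) C/m^2` (`oscChain`).
Second part: by `PdL_eq`, `PdL H n m r φ M = PdL H m m r ψ M` with `|ψ s - c| ≤ 2 (10/11)^(n-m)` on `UU` (`doeb`), so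
`|PdL H m m r ψ M - c PdL H m m r 1 M| ≤ 2 (10/11)^(n-m) PdL H m m r 1 M`, and `∑_Y PdL H m m r 1 Y = 1`.
As `n - m ≥ n1/2 - 1/2`, `(10/11)^(n-m) ≤ 20/n1`.
-/

open Finset

namespace Kak

namespace T3Aux

theorem wn_mem {s l : ℝ} {M : ℕ} (h : M ∈ WN s l) :
    Real.exp s ≤ M ∧ (M : ℝ) < Real.exp (s + l) ∧ M % 2 = 1 ∧ (M : ZMod 15) ∈ UU := by
  unfold WN at h
  rw [mem_filter] at h
  obtain ⟨-, h1, h2, h3⟩ := h
  rw [coprime_iff] at h3
  exact ⟨h1, h2, h3.1, h3.2⟩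

theorem mod_eq {n a b : ℕ} (h2 : a % 2 = b % 2) (h15 : (a : ZMod 15) = (b : ZMod 15))
    (h7 : ((a : ℕ) : ZMod (7 ^ n)) = ((b : ℕ) : ZMod (7 ^ n))) :
    a % (30 * 7 ^ n) = b % (30 * 7 ^ n) := by
  have e2 : a ≡ b [MOD 2] := h2
  have e15 : a ≡ b [MOD 15] := (ZMod.natCast_eq_natCast_iff _ _ _).1 h15
  have e7 : a ≡ b [MOD 7 ^ n] := (ZMod.natCast_eq_natCast_iff _ _ _).1 h7
  have c1 : Nat.Coprime 2 15 := by norm_num
  have c2 : Nat.Coprime 30 (7 ^ n) := Nat.Coprime.pow_right n (by norm_num)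
  have e30 : a ≡ b [MOD 30] := (Nat.modEq_and_modEq_iff_modEq_mul c1).1 ⟨e2, e15⟩
  exact (Nat.modEq_and_modEq_iff_modEq_mul c2).1 ⟨e30, e7⟩

theorem fiber {n : ℕ} {s l : ℝ} (hs : 30 * (7 : ℝ) ^ n ≤ Real.exp s) (hl : 0 < l)
    (y : ZMod 15 × ZMod (7 ^ n)) :
    ∑ M ∈ (WN s l).filter (fun M : ℕ => ((M : ZMod 15), ((M : ℕ) : ZMod (7 ^ n))) = y), (7 : ℝ) ^ n / M ≤
      (l + 1) / 30 := by
  rcases Finset.eq_empty_or_nonempty
    ((WN s l).filter fun M : ℕ => ((M : ZMod 15), ((M : ℕ) : ZMod (7 ^ n))) = y) with he | hne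
  · rw [he, sum_empty]
    positivity
  · obtain ⟨M0, hM0⟩ := hne
    rw [mem_filter] at hM0
    obtain ⟨hM0, hy⟩ := hM0
    obtain ⟨-, -, hodd, -⟩ := wn_mem hM0
    have h7 : (0 : ℝ) < 7 ^ n := by positivity
    have hq : 1 ≤ 30 * 7 ^ n := by
      have : 0 < 7 ^ n := by positivity
      omega
    have hap := apsum (q := 30 * 7 ^ n) (c := M0) hq (by push_cast; exact hs) hl
    set T := (Finset.range ⌈Real.exp (s + l)⌉₊).filter (fun M : ℕ =>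
      Real.exp s ≤ (M : ℝ) ∧ (M : ℝ) < Real.exp (s + l) ∧ M % (30 * 7 ^ n) = M0 % (30 * 7 ^ n))
      with hT
    have hsub : ((WN s l).filter fun M : ℕ => ((M : ZMod 15), ((M : ℕ) : ZMod (7 ^ n))) = y) ⊆ T := by
      intro M hM
      rw [mem_filter] at hM
      obtain ⟨hM, hy'⟩ := hM
      obtain ⟨k1, k2, k3, -⟩ := wn_mem hM
      rw [hT, mem_filter]
      have hr : M ∈ Finset.range ⌈Real.exp (s + l)⌉₊ := by
        unfold WN at hM
        exact (mem_filter.1 hM).1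
      rw [← hy, Prod.mk.injEq] at hy'
      exact ⟨hr, k1, k2, mod_eq (by rw [k3, hodd]) hy'.1 hy'.2⟩
    have h1 : ∑ M ∈ (WN s l).filter (fun M : ℕ => ((M : ZMod 15), ((M : ℕ) : ZMod (7 ^ n))) = y), (7 : ℝ) ^ n / M ≤
        ∑ M ∈ T, (7 : ℝ) ^ n / M :=
      sum_le_sum_of_subset_of_nonneg hsub fun _ _ _ => by positivity
    have h2 : ∑ M ∈ T, (7 : ℝ) ^ n / M = 7 ^ n * ∑ M ∈ T, 1 / (M : ℝ) := by
      rw [mul_sum]
      exact sum_congr rfl fun M _ => by ring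
    have h3 := (abs_le.1 hap).2
    push_cast at h3
    rw [h2] at h1
    linarith

/-- sums over the window by classes -/
theorem class_sum {n : ℕ} {s l : ℝ} (hs : 30 * (7 : ℝ) ^ n ≤ Real.exp s) (hl : 0 < l)
    (g : ZMod 15 → ZMod (7 ^ n) → ℝ) (hg : ∀ r ∈ UU, ∀ Y, 0 ≤ g r Y) :
    ∑ M ∈ WN s l, (7 : ℝ) ^ n / M * g (M : ZMod 15) ((M : ℕ) : ZMod (7 ^ n)) ≤
      (l + 1) / 30 * ∑ r ∈ UU, ∑ Y : ZMod (7 ^ n), g r Y := by
  have hmap : ∀ M ∈ WN s l, ((M : ZMod 15), ((M : ℕ) : ZMod (7 ^ n))) ∈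
      UU ×ˢ (Finset.univ : Finset (ZMod (7 ^ n))) := by
    intro M hM
    rw [mem_product]
    exact ⟨(wn_mem hM).2.2.2, mem_univ _⟩
  rw [← sum_fiberwise_of_maps_to hmap, ← sum_product', mul_sum]
  refine sum_le_sum fun y hy => ?_
  have hy1 : y.1 ∈ UU := (mem_product.1 hy).1
  have h1 : ∑ M ∈ (WN s l).filter (fun M : ℕ => ((M : ZMod 15), ((M : ℕ) : ZMod (7 ^ n))) = y),
      (7 : ℝ) ^ n / M * g (M : ZMod 15) ((M : ℕ) : ZMod (7 ^ n)) =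
      (∑ M ∈ (WN s l).filter (fun M : ℕ => ((M : ZMod 15), ((M : ℕ) : ZMod (7 ^ n))) = y), (7 : ℝ) ^ n / M) *
        g y.1 y.2 := by
    rw [sum_mul]
    refine sum_congr rfl fun M hM => ?_
    rw [mem_filter] at hM
    rw [← hM.2]
  rw [h1]
  exact mul_le_mul_of_nonneg_right (fiber hs hl y) (hg _ hy1 _)

theorem sum_hh : ∑ r ∈ UU, hh r ≤ 155280 := by
  have h1 : ∑ r ∈ UU, hh r ≤ ∑ r ∈ UU, (19410 : ℝ) := sum_le_sum fun r hr => (hh_bounds hr).2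
  have h2 : UU.card = 8 := by decide
  rw [sum_const, h2] at h1
  norm_num at h1
  linarith

theorem sum_PdL_one {H : ℕ} (hH : 2 ≤ H) (m : ℕ) {r : ZMod 15} (hr : r ∈ UU) :
    ∑ Y : ZMod (7 ^ m), PdL H m m r (fun _ => 1) Y = 1 := by
  unfold PdL
  rw [← Ex_sum]
  have : (fun v : List Lt => ∑ Y : ZMod (7 ^ m),
      if PadicInt.toZModPow m (Fp v) = Y then (1 : ℝ) else 0) = fun _ => 1 := by
    funext v
    rw [sum_ite_eq]
    simp
  rw [this]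
  exact Ex_const hH m hr 1

theorem PdL_one_nonneg (H m : ℕ) (r : ZMod 15) (Y : ZMod (7 ^ m)) :
    0 ≤ PdL H m m r (fun _ => 1) Y := by
  unfold PdL
  refine Ex_nonneg H m r fun v _ _ => ?_
  split_ifs <;> norm_num

/-- comparison with the constant -/
theorem PdL_close {H : ℕ} {n m : ℕ} (hm : m ≤ n) {r : ZMod 15} (hr : r ∈ UU)
    (φ : ZMod 15 → ℝ) (c β : ℝ)
    (hc : ∀ s ∈ UU, |Ex H (n - m) s (fun v => φ (st s v)) - c| ≤ β) (y : ZMod (7 ^ m)) :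
    |PdL H n m r φ y - c * PdL H m m r (fun _ => 1) y| ≤ β * PdL H m m r (fun _ => 1) y := by
  rw [PdL_eq hm]
  unfold PdL
  rw [← Ex_mul_left, ← Ex_mul_left, ← Ex_sub]
  refine (abs_Ex_le _ _ _ _).trans ?_
  refine Ex_mono H m r fun v _ hv => ?_
  have h1 := hc _ (st_mem v r hr hv)
  split_ifs
  · rw [mul_one, mul_one]
    exact h1
  · simp

theorem val_cast {n m M : ℕ} (hm : m ≤ n) :
    (((((M : ℕ) : ZMod (7 ^ n)).val : ℕ)) : ZMod (7 ^ m)) = ((M : ℕ) : ZMod (7 ^ m)) := by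
  rw [ZMod.val_natCast, ZMod.natCast_eq_natCast_iff]
  exact (Nat.mod_modEq M (7 ^ n)).of_dvd (pow_dvd_pow 7 hm)

theorem abs_phi (t : ZMod 15) : |1 / hh t| ≤ 1 := by
  by_cases ht : t ∈ UU
  · have h1 := (hh_bounds ht).1
    rw [abs_of_nonneg (by positivity), div_le_one (by linarith)]
    linarith
  · rw [hh_eq_zero ht]
    simp

/-- the comparison density -/
noncomputable def Kp (H m : ℕ) (c : ℝ) (M : ℕ) : ℝ :=
  (7 : ℝ) ^ m / M * hh (M : ZMod 15) *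
    (c * PdL H m m (M : ZMod 15) (fun _ => 1) ((M : ℕ) : ZMod (7 ^ m)))

theorem one_side {C0 : ℝ} {H : ℕ} (hH : 2 ≤ H) {n m : ℕ} (hm : m ≤ n)
    (hosc : ∀ r ∈ UU, Osc H n m r (fun s => 1 / hh s) ≤ C0)
    {c β : ℝ} (hβ : 0 ≤ β)
    (hc : ∀ s ∈ UU, |Ex H (n - m) s (fun v => 1 / hh (st s v)) - c| ≤ β)
    {s l : ℝ} (hl : 0 < l) (hs : 30 * (7 : ℝ) ^ n ≤ Real.exp s) :
    ∑ M ∈ WN s l, |KK H n M - Kp H m c M| ≤ (l + 1) / 30 * (155280 * (C0 + β)) := by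
  set φ : ZMod 15 → ℝ := fun s => 1 / hh s with hφ
  have hs' : 30 * (7 : ℝ) ^ m ≤ Real.exp s := by
    have : (7 : ℝ) ^ m ≤ 7 ^ n := pow_le_pow_right₀ (by norm_num) hm
    linarith
  have hC0 : 0 ≤ C0 := by
    have h1 : (1 : ZMod 15) ∈ UU := by decide
    refine le_trans ?_ (hosc 1 h1)
    unfold Osc
    exact sum_nonneg fun _ _ => abs_nonneg _
  have e7 : (7 : ℝ) ^ n = 7 ^ m * 7 ^ (n - m) := by
    rw [← pow_add]
    congr 1
    omega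
  have hpt : ∀ M ∈ WN s l, |KK H n M - Kp H m c M| ≤
      (7 : ℝ) ^ n / M * (hh (M : ZMod 15) * |PdL H n n (M : ZMod 15) φ ((M : ℕ) : ZMod (7 ^ n)) -
        PdL H n m (M : ZMod 15) φ (((((M : ℕ) : ZMod (7 ^ n)).val : ℕ)) : ZMod (7 ^ m)) / 7 ^ (n - m)|) +
      (7 : ℝ) ^ m / M * (hh (M : ZMod 15) *
        (β * PdL H m m (M : ZMod 15) (fun _ => 1) ((M : ℕ) : ZMod (7 ^ m)))) := by
    intro M hM
    obtain ⟨h1, -, -, h4⟩ := wn_mem hM
    have hM0 : (0 : ℝ) < M := lt_of_lt_of_le (Real.exp_pos s) h1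
    have hh0 := hh_nonneg (M : ZMod 15)
    have hcl := PdL_close hm h4 φ c β hc ((M : ℕ) : ZMod (7 ^ m))
    rw [val_cast hm]
    set a := PdL H n n (M : ZMod 15) φ ((M : ℕ) : ZMod (7 ^ n)) with ha
    set b := PdL H n m (M : ZMod 15) φ ((M : ℕ) : ZMod (7 ^ m)) with hb
    set d := PdL H m m (M : ZMod 15) (fun _ => 1) ((M : ℕ) : ZMod (7 ^ m)) with hd
    have hK : KK H n M = (7 : ℝ) ^ n / M * hh (M : ZMod 15) * a := rfl
    have hK' : Kp H m c M = (7 : ℝ) ^ m / M * hh (M : ZMod 15) * (c * d) := rfl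
    have key : KK H n M - Kp H m c M = (7 : ℝ) ^ n / M * (hh (M : ZMod 15) * (a - b / 7 ^ (n - m))) +
        (7 : ℝ) ^ m / M * (hh (M : ZMod 15) * (b - c * d)) := by
      rw [hK, hK', e7]
      field_simp
      ring
    rw [key]
    refine (abs_add_le _ _).trans (add_le_add (le_of_eq ?_) ?_)
    · rw [abs_mul, abs_mul, abs_of_nonneg (show (0 : ℝ) ≤ 7 ^ n / M by positivity),
        abs_of_nonneg hh0]
    · rw [abs_mul, abs_mul, abs_of_nonneg (show (0 : ℝ) ≤ 7 ^ m / M by positivity),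
        abs_of_nonneg hh0]
      refine mul_le_mul_of_nonneg_left ?_ (by positivity)
      exact mul_le_mul_of_nonneg_left hcl hh0
  refine (sum_le_sum hpt).trans ?_
  rw [sum_add_distrib]
  have p1 := class_sum hs hl (fun r Y => hh r * |PdL H n n r φ Y -
    PdL H n m r φ ((Y.val : ℕ) : ZMod (7 ^ m)) / 7 ^ (n - m)|)
    (fun r _ Y => mul_nonneg (hh_nonneg r) (abs_nonneg _))
  have p2 := class_sum hs' hl (fun r Y => hh r * (β * PdL H m m r (fun _ => 1) Y))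
    (fun r _ Y => mul_nonneg (hh_nonneg r) (mul_nonneg hβ (PdL_one_nonneg H m r Y)))
  have q1 : ∑ r ∈ UU, ∑ Y : ZMod (7 ^ n), hh r * |PdL H n n r φ Y -
      PdL H n m r φ ((Y.val : ℕ) : ZMod (7 ^ m)) / 7 ^ (n - m)| ≤ 155280 * C0 := by
    have h1 : ∀ r ∈ UU, ∑ Y : ZMod (7 ^ n), hh r * |PdL H n n r φ Y -
        PdL H n m r φ ((Y.val : ℕ) : ZMod (7 ^ m)) / 7 ^ (n - m)| ≤ hh r * C0 := by
      intro r hr
      rw [← mul_sum]
      exact mul_le_mul_of_nonneg_left (hosc r hr) (hh_nonneg r)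
    refine (sum_le_sum h1).trans ?_
    rw [← sum_mul]
    exact mul_le_mul_of_nonneg_right sum_hh hC0
  have q2 : ∑ r ∈ UU, ∑ Y : ZMod (7 ^ m), hh r * (β * PdL H m m r (fun _ => 1) Y) ≤
      155280 * β := by
    have h1 : ∀ r ∈ UU, ∑ Y : ZMod (7 ^ m), hh r * (β * PdL H m m r (fun _ => 1) Y) = hh r * β := by
      intro r hr
      rw [← mul_sum, ← mul_sum, sum_PdL_one hH m hr, mul_one]
    rw [sum_congr rfl h1, ← sum_mul]
    exact mul_le_mul_of_nonneg_right sum_hh hβ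
  have hl30 : 0 ≤ (l + 1) / 30 := by positivity
  have r1 := p1.trans (mul_le_mul_of_nonneg_left q1 hl30)
  have r2 := p2.trans (mul_le_mul_of_nonneg_left q2 hl30)
  calc _ ≤ (l + 1) / 30 * (155280 * C0) + (l + 1) / 30 * (155280 * β) := add_le_add r1 r2
    _ = _ := by ring

theorem geo_bound {n1 m n : ℕ} (h1 : 1 ≤ n1) (hm : m = (n1 + 1) / 2) (hn : n1 ≤ n) :
    2 * (10 / 11 : ℝ) ^ (n - m) ≤ 40 / n1 := by
  have hn0 : (0 : ℝ) < n1 := by exact_mod_cast h1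
  obtain ⟨k, hk⟩ : ∃ k, k = n - m := ⟨_, rfl⟩
  rw [← hk]
  have h2 : n1 ≤ 2 * k + 1 := by omega
  have h3 : (n1 : ℝ) ≤ 2 * k + 1 := by exact_mod_cast h2
  have h4 : 1 + (k : ℝ) * (1 / 10) ≤ (1 + 1 / 10 : ℝ) ^ k :=
    one_add_mul_le_pow (by norm_num) k
  have h5 : (10 / 11 : ℝ) ^ k * (11 / 10 : ℝ) ^ k = 1 := by
    rw [← mul_pow]
    norm_num
  have h6 : (1 + 1 / 10 : ℝ) = 11 / 10 := by norm_num
  rw [h6] at h4
  have h7 : 0 < (10 / 11 : ℝ) ^ k := by positivity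
  rw [le_div_iff₀ hn0]
  have h8 : (10 / 11 : ℝ) ^ k * (1 + (k : ℝ) * (1 / 10)) ≤ 1 :=
    (mul_le_mul_of_nonneg_left h4 h7.le).trans (le_of_eq h5)
  nlinarith

end T3Aux

open T3Aux

theorem T3 : ∃ C : ℝ, 1 ≤ C ∧ ∀ H, 2 ≤ H → ∀ n1 n2 : ℕ, 1 ≤ n1 → n1 ≤ n2 → n2 ≤ H →
    ∀ s l : ℝ, 0 < l → 30 * (7 : ℝ) ^ n2 ≤ Real.exp s → ∀ P : Set ℕ,
      |KS H n1 s l P - KS H n2 s l P| ≤ C * (l + 1) / n1 := by
  obtain ⟨C, hC, hosc⟩ := oscChain
  refine ⟨10352 * (4 * C + 40), by linarith, ?_⟩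
  intro H hH n1 n2 h1 h12 h2H s l hl hs P
  have hn0 : (0 : ℝ) < n1 := by exact_mod_cast h1
  obtain ⟨c, -, hc⟩ := doeb hH (fun s => 1 / hh s) abs_phi
  obtain ⟨m, hm⟩ : ∃ m, m = (n1 + 1) / 2 := ⟨_, rfl⟩
  have hm1 : 1 ≤ m := by omega
  have hmn : m ≤ n1 := by omega
  have hm2 : n1 ≤ 2 * m := by omega
  have hC0 : C / (m : ℝ) ^ 2 ≤ 4 * C / n1 := by
    have a1 : (1 : ℝ) ≤ m := by exact_mod_cast hm1
    have a2 : (n1 : ℝ) ≤ 2 * m := by exact_mod_cast hm2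
    rw [div_le_div_iff₀ (by positivity) hn0]
    have a3 : (n1 : ℝ) ≤ 4 * m ^ 2 := by nlinarith
    nlinarith
  have side : ∀ n, n1 ≤ n → n ≤ n2 →
      ∑ M ∈ WN s l, |KK H n M - Kp H m c M| ≤
        (l + 1) / 30 * (155280 * (4 * C / n1 + 40 / n1)) := by
    intro n hn hn2
    have hs' : 30 * (7 : ℝ) ^ n ≤ Real.exp s := by
      have : (7 : ℝ) ^ n ≤ 7 ^ n2 := pow_le_pow_right₀ (by norm_num) hn2
      linarith
    exact one_side hH (by omega)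
      (fun r hr => (hosc H hH n m hm1 (by omega) (by omega) r hr _ abs_phi).trans hC0)
      (by positivity)
      (fun t ht => (hc (n - m) t ht).trans (geo_bound h1 hm hn)) hl hs'
  have key : ∀ n, |KS H n s l P - ∑ M ∈ WN s l, P.indicator (fun M : ℕ => Kp H m c M) M| ≤
      ∑ M ∈ WN s l, |KK H n M - Kp H m c M| := by
    intro n
    unfold KS
    rw [← sum_sub_distrib]
    refine (abs_sum_le_sum_abs _ _).trans (sum_le_sum fun M _ => ?_)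
    by_cases hM : M ∈ P
    · rw [Set.indicator_of_mem hM, Set.indicator_of_mem hM]
    · rw [Set.indicator_of_notMem hM, Set.indicator_of_notMem hM, sub_zero, abs_zero]
      exact abs_nonneg _
  have k1 := (key n1).trans (side n1 le_rfl h12)
  have k2 := (key n2).trans (side n2 h12 le_rfl)
  set X := ∑ M ∈ WN s l, P.indicator (fun M : ℕ => Kp H m c M) M
  have k3 : |KS H n1 s l P - KS H n2 s l P| ≤ |KS H n1 s l P - X| + |KS H n2 s l P - X| := by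
    have := abs_sub (KS H n1 s l P - X) (KS H n2 s l P - X)
    rwa [sub_sub_sub_cancel_right] at this
  refine k3.trans ((add_le_add k1 k2).trans (le_of_eq ?_))
  field_simp
  ring

end Kak
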