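import Pool.Agent.Lib.Kak.Mean

/-!
# Kak.TypProb: most words are typical

PROOF.  The complement of `TY H n w s` is contained in the union of
* `{v | ¬ NT H v}`: probability `≤ n * 3 (1/16)^H ≤ 3 n/16^n ≤ 3/(n+1)` (union bound over the letters with `prob_top`,
  as in `big_letter`; `n ≤ H`; `n (n+1) ≤ 16^n`);
* `{w < |log Wd - n log 7 - dd H n|}`: Chebyshev (`PP_markov` with `f = (..)^2`, `c = w^2`), `≤ C (n+1)/w^2`;
* `{exp s < 2 Fr v}`: Markov with `√(Fr v)`: `≤ C √2 exp(-s/2)`.
-/

open Finset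

namespace Kak

/-- union bound for the top letters -/
theorem not_NT_prob {H : ℕ} (hH : 2 ≤ H) (n : ℕ) : ∀ r ∈ UU,
    PP H n r {v | ¬ NT H v} ≤ n * (3 * (1 / 16) ^ H) := by
  classical
  induction n with
  | zero =>
    intro r _
    unfold PP
    rw [Ex_zero, Set.indicator_of_notMem]
    · simp
    · simp [NT]
  | succ n ih =>
    intro r hr
    unfold PP
    rw [Ex_succ]
    have h1 : ∀ l ∈ LS H, pr H r l • Ex H n (nx r (lw l))
        (fun v => ({v | ¬ NT H v} : Set (List Lt)).indicator (fun _ => (1 : ℝ)) (l :: v)) ≤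
        (if (l.1.2 = H + 1 ∨ l.2.1.2 = H + 1 ∨ (l.2.2.1 ≠ 0 ∧ l.2.2.2 = H)) then pr H r l else 0)
          + pr H r l * (n * (3 * (1 / 16) ^ H)) := by
      intro l _
      by_cases hl : nx r (lw l) ∈ UU
      · rw [smul_eq_mul]
        have h2 : Ex H n (nx r (lw l))
            (fun v => ({v | ¬ NT H v} : Set (List Lt)).indicator (fun _ => (1 : ℝ)) (l :: v)) ≤
            (if (l.1.2 = H + 1 ∨ l.2.1.2 = H + 1 ∨ (l.2.2.1 ≠ 0 ∧ l.2.2.2 = H)) then (1 : ℝ)
              else 0) + n * (3 * (1 / 16) ^ H) := by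
          by_cases hc : (l.1.2 = H + 1 ∨ l.2.1.2 = H + 1 ∨ (l.2.2.1 ≠ 0 ∧ l.2.2.2 = H))
          · rw [if_pos hc]
            have h3 : Ex H n (nx r (lw l))
              (fun v => ({v | ¬ NT H v} : Set (List Lt)).indicator (fun _ => (1 : ℝ)) (l :: v)) ≤ 1 :=
              Ex_le_const hH n hl fun v _ _ =>
                Set.indicator_le_self' (fun _ _ => zero_le_one) _
            have h4 : (0 : ℝ) ≤ n * (3 * (1 / 16) ^ H) := by positivity
            linarith
          · rw [if_neg hc, zero_add]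
            refine le_trans (Ex_mono H n _ (g := ({v | ¬ NT H v} : Set (List Lt)).indicator
              (fun _ => (1 : ℝ))) fun v _ _ => ?_) (ih _ hl)
            by_cases hv : NT H v
            · have h5 : NT H (l :: v) := by
                intro x hx
                rcases List.mem_cons.mp hx with rfl | hx
                · refine ⟨fun h => hc (Or.inl h), fun h => hc (Or.inr (Or.inl h)), fun h h' =>
                    hc (Or.inr (Or.inr ⟨h, h'⟩))⟩
                · exact hv x hx
              rw [Set.indicator_of_notMem (by simpa using h5),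
                Set.indicator_of_notMem (by simpa using hv)]
            · rw [Set.indicator_of_mem (s := {v | ¬ NT H v}) (a := v) hv]
              exact Set.indicator_le_self' (fun _ _ => zero_le_one) _
        refine (mul_le_mul_of_nonneg_left h2 (pr_nonneg H r l)).trans (le_of_eq ?_)
        rw [mul_add]
        congr 1
        split_ifs <;> simp
      · rw [pr_eq_zero hl]; simp
    refine (Finset.sum_le_sum h1).trans ?_
    rw [Finset.sum_add_distrib, ← Finset.sum_filter, ← Finset.sum_mul, pr_sum hH hr]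
    have := prob_top hH hr
    push_cast
    linarith

theorem typProb : ∃ C : ℝ, 0 ≤ C ∧ ∀ H, 2 ≤ H → ∀ n : ℕ, n ≤ H → ∀ w s : ℝ, 0 < w →
    ∀ r ∈ UU, PP H n r (TY H n w s)ᶜ ≤
      C * ((n + 1) / w ^ 2 + Real.exp (-s / 2) + 1 / (n + 1)) := by
  obtain ⟨C1, hC1, h1⟩ := var_bound
  obtain ⟨C2, hC2, h2⟩ := Fr_half
  refine ⟨C1 + C2 * √2 + 3, by positivity, ?_⟩
  intro H hH n hn w s hw r hr
  -- the three events
  have hsub : PP H n r (TY H n w s)ᶜ ≤ PP H n r ({v | ¬ NT H v} ∪
      ({v | w < |Real.log (Wd v) - n * Real.log 7 - dd H n|} ∪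
        {v | Real.exp s < 2 * Fr v})) := by
    refine PP_mono H n r fun v _ _ hv => ?_
    by_contra hcon
    apply hv
    simp only [Set.mem_union, Set.mem_ofPred_eq, not_or, not_not, not_lt] at hcon
    exact ⟨hcon.1, hcon.2.1, hcon.2.2⟩
  have hA : PP H n r {v | ¬ NT H v} ≤ 3 * (1 / (n + 1)) := by
    refine (not_NT_prob hH n r hr).trans ?_
    have e1 : (n : ℝ) * (n + 1) ≤ 16 ^ H := by
      have a1 : n < 2 ^ n := Nat.lt_two_pow_self
      have a2 : n * (n + 1) ≤ 2 ^ n * 2 ^ n := Nat.mul_le_mul a1.le a1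
      have a3 : 2 ^ n * 2 ^ n = 4 ^ n := by rw [← mul_pow]; norm_num
      have a4 : 4 ^ n ≤ 16 ^ n := Nat.pow_le_pow_left (by norm_num) n
      have a5 : 16 ^ n ≤ 16 ^ H := Nat.pow_le_pow_right (by norm_num) hn
      have a6 : n * (n + 1) ≤ 16 ^ H := by rw [a3] at a2; exact a2.trans (a4.trans a5)
      exact_mod_cast a6
    have e2 : (n : ℝ) * (1 / 16) ^ H ≤ 1 / (n + 1) := by
      rw [one_div_pow, mul_one_div, div_le_div_iff₀ (by positivity) (by positivity)]
      linarith
    calc (n : ℝ) * (3 * (1 / 16) ^ H) = 3 * (n * (1 / 16) ^ H) := by ring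
      _ ≤ 3 * (1 / (n + 1)) := by linarith
  have hB : PP H n r {v | w < |Real.log (Wd v) - n * Real.log 7 - dd H n|} ≤
      C1 * ((n + 1) / w ^ 2) := by
    refine (PP_markov H n r (f := fun v => (Real.log (Wd v) - n * Real.log 7 - dd H n) ^ 2)
      (c := w ^ 2) (by positivity) (fun v _ _ => sq_nonneg _) (fun v _ _ hv => ?_)).trans ?_
    · have : w < |Real.log (Wd v) - n * Real.log 7 - dd H n| := hv
      rw [← sq_abs (Real.log (Wd v) - n * Real.log 7 - dd H n)]
      exact pow_le_pow_left₀ hw.le this.le 2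
    · rw [← mul_div_assoc]
      exact div_le_div_of_nonneg_right (h1 H hH n r hr) (by positivity)
  have hC : PP H n r {v | Real.exp s < 2 * Fr v} ≤ C2 * √2 * Real.exp (-s / 2) := by
    have e0 : 0 < Real.exp (s / 2) / √2 := by positivity
    refine (PP_markov H n r (f := fun v => √(Fr v)) (c := Real.exp (s / 2) / √2) e0
      (fun v _ _ => Real.sqrt_nonneg _) (fun v _ _ hv => ?_)).trans ?_
    · have hv' : Real.exp s < 2 * Fr v := hv
      apply Real.le_sqrt_of_sq_le
      rw [div_pow, Real.sq_sqrt (by norm_num : (0:ℝ) ≤ 2), ← Real.exp_nat_mul]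
      rw [show ((2 : ℕ) : ℝ) * (s / 2) = s by push_cast; ring]
      linarith
    · rw [div_le_iff₀ e0]
      have e1 : C2 * √2 * Real.exp (-s / 2) * (Real.exp (s / 2) / √2) = C2 := by
        have e2 : Real.exp (-s / 2) * Real.exp (s / 2) = 1 := by
          rw [← Real.exp_add, show -s / 2 + s / 2 = 0 by ring, Real.exp_zero]
        have e3 : √(2 : ℝ) ≠ 0 := by positivity
        calc C2 * √2 * Real.exp (-s / 2) * (Real.exp (s / 2) / √2)
            = C2 * (Real.exp (-s / 2) * Real.exp (s / 2)) * (√2 / √2) := by ring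
          _ = C2 := by rw [e2, div_self e3]; ring
      rw [e1]; exact h2 H hH n r hr
  have hU : PP H n r ({v | ¬ NT H v} ∪
      ({v | w < |Real.log (Wd v) - n * Real.log 7 - dd H n|} ∪
        {v | Real.exp s < 2 * Fr v})) ≤ 3 * (1 / (n + 1)) +
        (C1 * ((n + 1) / w ^ 2) + C2 * √2 * Real.exp (-s / 2)) :=
    (PP_union_le H n r _ _).trans (add_le_add hA ((PP_union_le H n r _ _).trans
      (add_le_add hB hC)))
  refine (hsub.trans hU).trans ?_
  have p1 : (0 : ℝ) ≤ (n + 1) / w ^ 2 := by positivity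
  have p2 : (0 : ℝ) ≤ Real.exp (-s / 2) := (Real.exp_pos _).le
  have p3 : (0 : ℝ) ≤ 1 / ((n : ℝ) + 1) := by positivity
  have p4 : 0 ≤ C2 * √2 := by positivity
  have q1 := mul_nonneg (by positivity : 0 ≤ C2 * √2 + 3) p1
  have q2 := mul_nonneg (by positivity : 0 ≤ C1 + 3) p2
  have q3 := mul_nonneg (by positivity : 0 ≤ C1 + C2 * √2) p3
  nlinarith

end Kak
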