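import Pool.Agent.Lib.Kak.Trans
import Pool.Agent.Lib.Kak.T3
import Pool.Agent.Lib.Kak.TypProb

/-!
# Kak.ChainStep: comparison of two scales

PROOF.  Let `x` (large) be given.  Put `n2 = ⌊x/8⌋₊`, `n1 = ⌊x/16⌋₊`, `H = n2` (`≥ 2`),
`s = x - (dd H n2 - dd H n1)`, `sM = x - dd H n2`, `w = x^(3/4)`.
By `dd_incr` (with `n2 - n1 ∈ [x/16 - 1, x/16 + 1]`, and with `n = 0`: `dd H 0 = 0`, so
`dd H n2 ≤ (5/2)(x/8) + C`):
`x - (5/32) x - C' ≤ s ≤ x - x/96 + C'` and `sM ≥ (11/16) x - C`.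
For large `x`: `30 * 7^n2 ≤ exp sM` (`log 30 + (x/8) log 7 ≤ 3.5 + .244 x`), `30 ≤ exp x` and `n1 ≤ ⌊s/8⌋₊`
(`s/8 ≥ (27/256) x - C > x/16`).
By `typProb` the hypothesis of `T1` (`n = n1`) and `T2` (`n = n2`) (at `sM`) holds with
`p = C ((n+1)/w^2 + exp(-sM/2) + 1/(n+1)) ≤ C'' (x^(-1/2))` (`n + 1 ≤ x`, `w^2 = x^(3/2)`, `n1 + 1 ≥ x/16`), so
`(l + 1) p ≤ C''' x^(1/2)` for `l ≤ x`.
Now (`sM + dd H n2 = x`, `sM + dd H n1 = s`)
`WS x l {N | Syr^[n2] N ∈ F} ≤ KS H n2 sM l F + C (w+1) + C (l+1) p ≤ KS H n1 sM l F + C (l+1)/n1 + ...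
≤ WS s l {N | Syr^[n1] N ∈ F} + C (w+1) + C (l+1) p + ...`, total error `≤ C4 x^(3/4)`.
Finally `Syr^[n1] N ∈ F` implies `Syr^[⌊s/8⌋₊] N ∈ F` (`F` is closed under `Syr`, `n1 ≤ ⌊s/8⌋₊`), and `WS` is
monotone in the set.
-/

open Finset

namespace Kak

private lemma WS_mono {s l : ℝ} {P Q : Set ℕ} (h : P ⊆ Q) : WS s l P ≤ WS s l Q := by
  unfold WS
  refine Finset.sum_le_sum (fun N _ => ?_)
  exact Set.indicator_le_indicator_of_subset h (fun N => by positivity) N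

private lemma syr_closed {F : Set ℕ} (hF : ∀ N ∈ F, Syr N ∈ F) (k : ℕ) :
    ∀ N ∈ F, Syr^[k] N ∈ F := by
  induction k with
  | zero => intro N hN; simpa using hN
  | succ k ih => intro N hN; rw [Function.iterate_succ_apply]; exact ih _ (hF N hN)

private lemma syr_closed' {F : Set ℕ} (hF : ∀ N ∈ F, Syr N ∈ F) {a b : ℕ} (hab : a ≤ b) {N : ℕ}
    (hN : Syr^[a] N ∈ F) : Syr^[b] N ∈ F := by
  obtain ⟨k, rfl⟩ := Nat.exists_eq_add_of_le hab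
  rw [add_comm, Function.iterate_add_apply]
  exact syr_closed hF k _ hN

private lemma exp_big {x sM : ℝ} {n : ℕ} (hn : (n : ℝ) ≤ x / 8) (h : 4 + x / 4 ≤ sM) :
    30 * (7 : ℝ) ^ n ≤ Real.exp sM := by
  have he : (2.7 : ℝ) < Real.exp 1 := by have := Real.exp_one_gt_d9; linarith
  have h2 : (7 : ℝ) ≤ Real.exp 2 := by
    have : Real.exp 2 = Real.exp 1 * Real.exp 1 := by rw [← Real.exp_add]; norm_num
    rw [this]; nlinarith
  have h4 : (30 : ℝ) ≤ Real.exp 4 := by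
    have : Real.exp 4 = Real.exp 2 * Real.exp 2 := by rw [← Real.exp_add]; norm_num
    rw [this]; nlinarith
  calc 30 * (7 : ℝ) ^ n ≤ Real.exp 4 * (Real.exp 2) ^ n := by gcongr
    _ = Real.exp (4 + n * 2) := by rw [Real.exp_add, ← Real.exp_nat_mul]
    _ ≤ Real.exp sM := Real.exp_le_exp.mpr (by linarith)

theorem chainStep : ∃ C : ℝ, 1 ≤ C ∧ ∀ x : ℝ, C ≤ x → ∃ s : ℝ,
    27 / 32 * x - C ≤ s ∧ s ≤ 95 / 96 * x + C ∧
    ∀ l : ℝ, 0 < l → l ≤ x → ∀ F : Set ℕ, (∀ N ∈ F, Syr N ∈ F) →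
      WS x l {N | Syr^[⌊x / 8⌋₊] N ∈ F} ≤
        WS s l {N | Syr^[⌊s / 8⌋₊] N ∈ F} + C * x ^ (3 / 4 : ℝ) := by
  obtain ⟨C1, hC1, h1⟩ := T1
  obtain ⟨C2, hC2, h2⟩ := T2
  obtain ⟨C3, hC3, h3⟩ := T3
  obtain ⟨C4, hC4, h4⟩ := typProb
  obtain ⟨C5, hC5, h5⟩ := dd_incr
  have hpos : 0 ≤ (C1 + C2) * C4 := mul_nonneg (by linarith) hC4
  refine ⟨200 + 40 * C5 + 2 * C1 + 2 * C2 + 42 * ((C1 + C2) * C4) + 64 * C3, by linarith,
    fun x hx => ?_⟩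
  have hxC : 200 + 40 * C5 ≤ x := by linarith
  have hx200 : (200 : ℝ) ≤ x := by linarith
  have hx0 : (0 : ℝ) < x := by linarith
  obtain ⟨n2, hn2⟩ : ∃ n2, n2 = ⌊x / 8⌋₊ := ⟨_, rfl⟩
  obtain ⟨n1, hn1⟩ : ∃ n1, n1 = ⌊x / 16⌋₊ := ⟨_, rfl⟩
  have hn2u : (n2 : ℝ) ≤ x / 8 := by rw [hn2]; exact Nat.floor_le (by positivity)
  have hn2l : x / 8 < n2 + 1 := by rw [hn2]; exact Nat.lt_floor_add_one _
  have hn1u : (n1 : ℝ) ≤ x / 16 := by rw [hn1]; exact Nat.floor_le (by positivity)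
  have hn1l : x / 16 < n1 + 1 := by rw [hn1]; exact Nat.lt_floor_add_one _
  have hn12 : n1 ≤ n2 := by rw [hn1, hn2]; exact Nat.floor_le_floor (by linarith)
  have hn1one : 1 ≤ n1 := by rw [hn1]; exact Nat.le_floor (by norm_num; linarith)
  have hH : 2 ≤ n2 := by rw [hn2]; exact Nat.le_floor (by norm_num; linarith)
  have hd0 : dd n2 0 = 0 := by simp [dd, Ex, Wd]
  have e2 := h5 n2 hH 0 n2
  rw [hd0, Nat.zero_add] at e2
  have e1 := h5 n2 hH n1 (n2 - n1)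
  rw [Nat.add_sub_cancel' hn12, Nat.cast_sub hn12] at e1
  obtain ⟨d2, hd2⟩ : ∃ d2, d2 = dd n2 n2 := ⟨_, rfl⟩
  obtain ⟨d1, hd1⟩ : ∃ d1, d1 = dd n2 n1 := ⟨_, rfl⟩
  rw [← hd2] at e1 e2
  rw [← hd1] at e1
  obtain ⟨sM, hsM⟩ : ∃ sM, sM = x - d2 := ⟨_, rfl⟩
  have hsMl : 11 / 16 * x - C5 ≤ sM := by linarith [e2.2]
  refine ⟨sM + d1, by linarith [e1.2], by linarith [e1.1], ?_⟩
  intro l hl hlx F hF
  obtain ⟨w, hw⟩ : ∃ w : ℝ, w = x ^ (3 / 4 : ℝ) := ⟨_, rfl⟩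
  have hw1 : 1 ≤ w := by rw [hw]; exact Real.one_le_rpow (by linarith) (by norm_num)
  have hw0 : 0 < w := by linarith
  have hwsq : w ^ 2 = x * x ^ (1 / 2 : ℝ) := by
    rw [hw, ← Real.rpow_natCast, ← Real.rpow_mul hx0.le]
    nth_rewrite 2 [← Real.rpow_one x]
    rw [← Real.rpow_add hx0]
    norm_num
  obtain ⟨q, hq⟩ : ∃ q : ℝ, q = x ^ (1 / 2 : ℝ) := ⟨_, rfl⟩
  have hq0 : 0 < q := by rw [hq]; positivity
  have hqw : q ≤ w := by
    rw [hq, hw]; exact Real.rpow_le_rpow_of_exponent_le (by linarith) (by norm_num)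
  have hqq : q * q = x := by rw [hq, ← Real.rpow_add hx0]; norm_num
  rw [← hq] at hwsq
  obtain ⟨p, hp⟩ : ∃ p : ℝ, p = C4 * (1 / q + 20 / x) := ⟨_, rfl⟩
  have hp0 : 0 ≤ p := by rw [hp]; positivity
  have hexp : Real.exp (-sM / 2) ≤ 4 / x := by
    have hE : 1 + x / 4 ≤ Real.exp (x / 4) := by
      have := Real.add_one_le_exp (x / 4); linarith
    calc Real.exp (-sM / 2) ≤ Real.exp (-(x / 4)) := Real.exp_le_exp.mpr (by linarith)
      _ = 1 / Real.exp (x / 4) := by rw [Real.exp_neg, one_div]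
      _ ≤ 1 / (x / 4) := one_div_le_one_div_of_le (by positivity) (by linarith)
      _ = 4 / x := by field_simp
  have hpn : ∀ n : ℕ, n1 ≤ n → n ≤ n2 → ∀ r ∈ UU, PP n2 n r (TY n2 n w sM)ᶜ ≤ p := by
    intro n ha hb r hr
    refine (h4 n2 hH n hb w sM hw0 r hr).trans ?_
    rw [hp]
    refine mul_le_mul_of_nonneg_left ?_ hC4
    have hna : (n1 : ℝ) ≤ n := by exact_mod_cast ha
    have hnb : (n : ℝ) ≤ n2 := by exact_mod_cast hb
    have t1 : ((n : ℝ) + 1) / w ^ 2 ≤ 1 / q := by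
      rw [hwsq, div_le_div_iff₀ (by positivity) hq0, one_mul]
      exact mul_le_mul_of_nonneg_right (by linarith) hq0.le
    have t2 : 1 / ((n : ℝ) + 1) ≤ 16 / x := by
      rw [div_le_div_iff₀ (by positivity) hx0]; linarith
    have t3 : (20 : ℝ) / x = 4 / x + 16 / x := by ring
    linarith
  have hc2 : 30 * (7 : ℝ) ^ n2 ≤ Real.exp sM := exp_big hn2u (by linarith)
  have hc1 : 30 * (7 : ℝ) ^ n1 ≤ Real.exp sM := by
    refine exp_big (x := x) (by linarith) (by linarith)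
  have hx30 : 30 ≤ Real.exp (sM + dd n2 n2) := by
    have : sM + dd n2 n2 = x := by rw [← hd2]; linarith
    rw [this]
    have := Real.add_one_le_exp x
    linarith
  have r2 := h2 n2 hH n2 sM l w p hl hw1 hp0 hc2 hx30 (hpn n2 hn12 le_rfl) F
  have r1 := h1 n2 hH n1 sM l w p hl hw1 hp0 hc1 (hpn n1 le_rfl hn12) F
  have r3 := h3 n2 hH n1 n2 hn1one hn12 le_rfl sM l hl hc2 F
  have hxs : sM + dd n2 n2 = x := by rw [← hd2]; linarith
  rw [hxs] at r2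
  rw [← hd1] at r1
  have r3' := (abs_le.mp r3).1
  have hfl : n1 ≤ ⌊(sM + d1) / 8⌋₊ := Nat.le_floor (by linarith [e1.2])
  have hmono : WS (sM + d1) l {N | Syr^[n1] N ∈ F} ≤
      WS (sM + d1) l {N | Syr^[⌊(sM + d1) / 8⌋₊] N ∈ F} :=
    WS_mono (fun N hN => syr_closed' hF hfl hN)
  -- error terms
  have er1 : (l + 1) * p ≤ 42 * C4 * w := by
    have a1 : l + 1 ≤ 2 * x := by linarith
    have a2 : (l + 1) * p ≤ 2 * x * p := mul_le_mul_of_nonneg_right a1 hp0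
    have a3 : 2 * x * p = C4 * (2 * q + 40) := by
      rw [hp]
      have : x / q = q := by rw [div_eq_iff hq0.ne']; exact hqq.symm
      field_simp
      nlinarith [hqq]
    have a4 : C4 * (2 * q + 40) ≤ C4 * (42 * w) :=
      mul_le_mul_of_nonneg_left (by linarith) hC4
    linarith
  have er3 : C3 * (l + 1) / n1 ≤ 64 * C3 * w := by
    have hn1pos : (0 : ℝ) < n1 := by exact_mod_cast hn1one
    rw [div_le_iff₀ hn1pos]
    have b1 : C3 * (l + 1) ≤ C3 * (2 * x) := mul_le_mul_of_nonneg_left (by linarith) (by linarith)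
    have b2 : C3 * (2 * x) ≤ C3 * (64 * n1) := mul_le_mul_of_nonneg_left (by linarith) (by linarith)
    have b3 : C3 * (64 * n1) * 1 ≤ C3 * (64 * n1) * w :=
      mul_le_mul_of_nonneg_left hw1 (by positivity)
    linarith
  have er1a : C1 * (l + 1) * p ≤ C1 * (42 * C4 * w) := by
    rw [mul_assoc]; exact mul_le_mul_of_nonneg_left er1 (by linarith)
  have er1b : C2 * (l + 1) * p ≤ C2 * (42 * C4 * w) := by
    rw [mul_assoc]; exact mul_le_mul_of_nonneg_left er1 (by linarith)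
  have er4a : C1 * (w + 1) ≤ C1 * (2 * w) := mul_le_mul_of_nonneg_left (by linarith) (by linarith)
  have er4b : C2 * (w + 1) ≤ C2 * (2 * w) := mul_le_mul_of_nonneg_left (by linarith) (by linarith)
  have er5 : (0 : ℝ) ≤ (200 + 40 * C5) * w := by positivity
  rw [← hn2, ← hw]
  have fin : (200 + 40 * C5 + 2 * C1 + 2 * C2 + 42 * ((C1 + C2) * C4) + 64 * C3) * w =
      (200 + 40 * C5) * w + C1 * (2 * w) + C2 * (2 * w) + C1 * (42 * C4 * w) + C2 * (42 * C4 * w)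
        + 64 * C3 * w := by ring
  rw [fin]
  linarith

end Kak
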