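import Pool.Agent.Lib.Kak.ExBasic

/-!
# Kak.KernFib: the weight of a smooth number is `1/w`

PROOFS.
* `fib_sum`: the letters of `LS H` with given exponents `(a, b, c)`: `l.1.1` is the element of
  `{1,..,4}` congruent to `a` modulo 4, and `t - 1 = (a - l.1.1)/4 =: κ ≤ H - 1`; if `κ = 0` there
  are the two choices `t = 0, 1` with total weight `15/16 + 1/16 = 1`; if `κ ≥ 1` then
  `t = κ + 1 ≤ H` has weight `16^(-κ)`.  In both cases the total is `2^(-a)`.  Same for 3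
  (`b = 0` forces the pair `(0,0)`, weight 1; for `b ≥ 1`, `b ≤ 4H` gives `κ ≤ H - 1`), and for 5
  (`c ≥ 1`: `l.2.2.1 ∈ {1,2}` with the parity of `c`, `k = (c - l.2.2.1)/2 ≤ H - 1`).
  The sum over the fibre is the product of the three sums.
* `fib_map`: group the sum over the non-top letters by the exponents: a letter of `LS H` is not a
  top letter iff `la l ≤ 4H`, `lb l ≤ 4H`, `lc l ≤ 2H` (for `H ≥ 2`).
* `lw_inj`: unique factorisation.
-/

open Finset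

namespace Kak

namespace KernFibAux

/-- the sum over the pairs with a given exponent (period 4, coin weights) -/
lemma sum4 {H a : ℕ} (hH : 2 ≤ H) (ha : 1 ≤ a) (ha' : a ≤ 4 * H) (x : ℝ) (w : ℕ → ℝ)
    (h01 : w 0 + w 1 = 1) (hk : ∀ κ, 1 ≤ κ → κ ≤ H - 1 → w (κ + 1) = (x ^ 4) ^ κ) :
    ∑ p ∈ Icc 1 4 ×ˢ range (H + 2) with p.1 + 4 * (p.2 - 1) = a, x ^ p.1 * w p.2 = x ^ a := by
  obtain ⟨al, κ, hal1, hal4, rfl⟩ : ∃ al κ, 1 ≤ al ∧ al ≤ 4 ∧ a = al + 4 * κ :=
    ⟨(a - 1) % 4 + 1, (a - 1) / 4, by omega, by omega, by omega⟩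
  rcases Nat.eq_zero_or_pos κ with rfl | hκ
  · have : (Icc 1 4 ×ˢ range (H + 2)).filter (fun p : ℕ × ℕ => p.1 + 4 * (p.2 - 1) = al + 4 * 0) =
        {(al, 0), (al, 1)} := by
      ext ⟨p, q⟩
      simp only [mem_filter, mem_product, mem_Icc, mem_range, mem_insert, mem_singleton,
        Prod.mk.injEq]
      omega
    rw [this, sum_insert (by simp), sum_singleton]
    simp only [mul_zero, add_zero]
    rw [← mul_add, h01, mul_one]
  · have : (Icc 1 4 ×ˢ range (H + 2)).filter (fun p : ℕ × ℕ => p.1 + 4 * (p.2 - 1) = al + 4 * κ) =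
        {(al, κ + 1)} := by
      ext ⟨p, q⟩
      simp only [mem_filter, mem_product, mem_Icc, mem_range, mem_singleton,
        Prod.mk.injEq]
      omega
    rw [this, sum_singleton]
    simp only
    rw [hk κ hκ (by omega), ← pow_mul, ← pow_add]

lemma sumA {H a : ℕ} (hH : 2 ≤ H) (ha : 1 ≤ a) (ha' : a ≤ 4 * H) :
    ∑ p ∈ Icc 1 4 ×ˢ range (H + 2) with p.1 + 4 * (p.2 - 1) = a, (1 / 2 : ℝ) ^ p.1 * w2 H p.2 =
      (1 / 2 : ℝ) ^ a := by
  apply sum4 hH ha ha'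
  · simp only [w2]; norm_num
  · intro κ h1 h2
    unfold w2
    rw [if_neg (by omega), if_neg (by omega), if_neg (by omega)]
    norm_num

lemma sumB {H b : ℕ} (hH : 2 ≤ H) (hb : b ≤ 4 * H) :
    ∑ p ∈ insert ((0, 0) : ℕ × ℕ) (Icc 1 4 ×ˢ range (H + 2)) with p.1 + 4 * (p.2 - 1) = b,
      (if p.1 = 0 then (1 : ℝ) else (1 / 3 : ℝ) ^ p.1 * w3 H p.2) = (1 / 3 : ℝ) ^ b := by
  rcases Nat.eq_zero_or_pos b with rfl | hb0
  · have : (insert ((0, 0) : ℕ × ℕ) (Icc 1 4 ×ˢ range (H + 2))).filter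
        (fun p : ℕ × ℕ => p.1 + 4 * (p.2 - 1) = 0) = {(0, 0)} := by
      ext ⟨p, q⟩
      simp only [mem_filter, mem_product, mem_Icc, mem_range, mem_insert, mem_singleton,
        Prod.mk.injEq]
      omega
    rw [this, sum_singleton]
    simp
  · have : (insert ((0, 0) : ℕ × ℕ) (Icc 1 4 ×ˢ range (H + 2))).filter
        (fun p : ℕ × ℕ => p.1 + 4 * (p.2 - 1) = b) =
        (Icc 1 4 ×ˢ range (H + 2)).filter (fun p : ℕ × ℕ => p.1 + 4 * (p.2 - 1) = b) := by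
      ext ⟨p, q⟩
      simp only [mem_filter, mem_product, mem_Icc, mem_range, mem_insert,
        Prod.mk.injEq]
      omega
    rw [this]
    rw [← sum4 (x := 1 / 3) (w := w3 H) hH hb0 hb]
    · apply sum_congr rfl
      rintro ⟨p, q⟩ hp
      simp only [mem_filter, mem_product, mem_Icc, mem_range] at hp
      rw [if_neg (by simp only; omega)]
    · simp only [w3]; norm_num
    · intro κ h1 h2
      unfold w3
      rw [if_neg (by omega), if_neg (by omega), if_neg (by omega)]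
      norm_num

lemma sumC {H c : ℕ} (hH : 2 ≤ H) (hc : c ≤ 2 * H) :
    ∑ p ∈ insert ((0, 0) : ℕ × ℕ) (Icc 1 2 ×ˢ range (H + 1)) with p.1 + 2 * p.2 = c,
      (if p.1 = 0 then (1 : ℝ) else (1 / 5 : ℝ) ^ p.1 * w5 H p.2) = (1 / 5 : ℝ) ^ c := by
  rcases Nat.eq_zero_or_pos c with rfl | hc0
  · have : (insert ((0, 0) : ℕ × ℕ) (Icc 1 2 ×ˢ range (H + 1))).filter
        (fun p : ℕ × ℕ => p.1 + 2 * p.2 = 0) = {(0, 0)} := by
      ext ⟨p, q⟩
      simp only [mem_filter, mem_product, mem_Icc, mem_range, mem_insert, mem_singleton,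
        Prod.mk.injEq]
      omega
    rw [this, sum_singleton]
    simp
  · obtain ⟨ga, k, hg1, hg2, rfl⟩ : ∃ ga k, 1 ≤ ga ∧ ga ≤ 2 ∧ c = ga + 2 * k :=
      ⟨(c - 1) % 2 + 1, (c - 1) / 2, by omega, by omega, by omega⟩
    have : (insert ((0, 0) : ℕ × ℕ) (Icc 1 2 ×ˢ range (H + 1))).filter
        (fun p : ℕ × ℕ => p.1 + 2 * p.2 = ga + 2 * k) = {(ga, k)} := by
      ext ⟨p, q⟩
      simp only [mem_filter, mem_product, mem_Icc, mem_range, mem_insert, mem_singleton,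
        Prod.mk.injEq]
      omega
    rw [this, sum_singleton]
    simp only
    rw [if_neg (by omega)]
    unfold w5
    rw [if_neg (by omega)]
    rw [pow_add, pow_mul]
    norm_num

end KernFibAux

open KernFibAux

theorem fib_sum {H a b c : ℕ} (hH : 2 ≤ H) (ha : 1 ≤ a) (ha' : a ≤ 4 * H) (hb : b ≤ 4 * H)
    (hc : c ≤ 2 * H) :
    ∑ l ∈ LS H with (la l = a ∧ lb l = b ∧ lc l = c), wt H l = 1 / ((2 : ℝ) ^ a * 3 ^ b * 5 ^ c) := by
  have hset : (LS H).filter (fun l => la l = a ∧ lb l = b ∧ lc l = c) =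
      (Icc 1 4 ×ˢ range (H + 2)).filter (fun p : ℕ × ℕ => p.1 + 4 * (p.2 - 1) = a) ×ˢ
      ((insert ((0, 0) : ℕ × ℕ) (Icc 1 4 ×ˢ range (H + 2))).filter
        (fun p : ℕ × ℕ => p.1 + 4 * (p.2 - 1) = b) ×ˢ
      (insert ((0, 0) : ℕ × ℕ) (Icc 1 2 ×ˢ range (H + 1))).filter
        (fun p : ℕ × ℕ => p.1 + 2 * p.2 = c)) := by
    ext l
    simp only [LS, la, lb, lc, mem_filter, mem_product]
    tauto
  rw [hset, sum_product]
  have h1 : ∀ p ∈ (Icc 1 4 ×ˢ range (H + 2)).filter (fun p : ℕ × ℕ => p.1 + 4 * (p.2 - 1) = a),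
      ∑ q ∈ (insert ((0, 0) : ℕ × ℕ) (Icc 1 4 ×ˢ range (H + 2))).filter
        (fun p : ℕ × ℕ => p.1 + 4 * (p.2 - 1) = b) ×ˢ
      (insert ((0, 0) : ℕ × ℕ) (Icc 1 2 ×ˢ range (H + 1))).filter
        (fun p : ℕ × ℕ => p.1 + 2 * p.2 = c), wt H (p, q) =
      ((1 / 2 : ℝ) ^ p.1 * w2 H p.2) * ((1 / 3 : ℝ) ^ b * (1 / 5 : ℝ) ^ c) := by
    intro p _
    rw [sum_product]
    rw [← sumB hH hb, ← sumC hH hc, sum_mul_sum, mul_sum]
    apply sum_congr rfl
    intro x _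
    rw [mul_sum]
    apply sum_congr rfl
    intro y _
    simp only [wt]
    ring
  rw [sum_congr rfl h1, ← sum_mul, sumA hH ha ha']
  rw [one_div_pow, one_div_pow, one_div_pow]
  field_simp

theorem NT1_iff {H : ℕ} (hH : 2 ≤ H) {l : Lt} (hl : l ∈ LS H) :
    NT1 H l ↔ (la l ≤ 4 * H ∧ lb l ≤ 4 * H ∧ lc l ≤ 2 * H) := by
  obtain ⟨⟨al, t⟩, ⟨be, u⟩, ⟨ga, k⟩⟩ := l
  simp only [LS, mem_product, mem_insert, mem_Icc, mem_range, Prod.mk.injEq] at hl
  simp only [NT1, la, lb, lc]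
  omega

open Classical in
theorem fib_map {H : ℕ} (hH : 2 ≤ H) (X : ℕ → ℝ) :
    ∑ l ∈ LS H with NT1 H l, wt H l * (lw l : ℝ) * X (lw l) =
      ∑ a ∈ Icc 1 (4 * H), ∑ b ∈ range (4 * H + 1), ∑ c ∈ range (2 * H + 1),
        X (2 ^ a * 3 ^ b * 5 ^ c) := by
  have hmaps : ∀ l ∈ (LS H).filter (fun l => NT1 H l),
      (la l, (lb l, lc l)) ∈ Icc 1 (4 * H) ×ˢ (range (4 * H + 1) ×ˢ range (2 * H + 1)) := by
    intro l hl
    obtain ⟨h1, h2⟩ := mem_filter.1 hl
    have h3 := (NT1_iff hH h1).1 h2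
    have h4 : 1 ≤ la l := by
      simp only [LS, mem_product, mem_Icc] at h1
      unfold la
      omega
    simp only [mem_product, mem_Icc, mem_range]
    omega
  rw [← sum_fiberwise_of_maps_to hmaps]
  rw [sum_product]
  apply sum_congr rfl
  intro a ha
  rw [sum_product]
  apply sum_congr rfl
  intro b hb
  apply sum_congr rfl
  intro c hc
  rw [mem_Icc] at ha
  rw [mem_range] at hb hc
  have hset : ((LS H).filter (fun l => NT1 H l)).filter
      (fun l => (la l, (lb l, lc l)) = (a, (b, c))) =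
      (LS H).filter (fun l => la l = a ∧ lb l = b ∧ lc l = c) := by
    ext l
    simp only [mem_filter, Prod.mk.injEq]
    constructor
    · rintro ⟨⟨h1, -⟩, h2⟩
      exact ⟨h1, h2⟩
    · rintro ⟨h1, h2, h3, h4⟩
      refine ⟨⟨h1, ?_⟩, h2, h3, h4⟩
      rw [NT1_iff hH h1]
      omega
  rw [hset]
  have : ∀ l ∈ (LS H).filter (fun l => la l = a ∧ lb l = b ∧ lc l = c),
      wt H l * (lw l : ℝ) * X (lw l) =
        wt H l * (((2 : ℝ) ^ a * 3 ^ b * 5 ^ c) * X (2 ^ a * 3 ^ b * 5 ^ c)) := by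
    intro l hl
    obtain ⟨h1, h2, h3, h4⟩ := mem_filter.1 hl
    have : lw l = 2 ^ a * 3 ^ b * 5 ^ c := by rw [lw, h2, h3, h4]
    rw [this]
    push_cast
    ring
  rw [sum_congr rfl this, ← sum_mul, fib_sum hH ha.1 ha.2 (by omega) (by omega)]
  have hpos : (2 : ℝ) ^ a * 3 ^ b * 5 ^ c ≠ 0 := by positivity
  field_simp

theorem lw_inj {l l' : Lt} (h : lw l = lw l') : la l = la l' ∧ lb l = lb l' ∧ lc l = lc l' := by
  have key : ∀ m : Lt, (lw m).factorization 2 = la m ∧ (lw m).factorization 3 = lb m ∧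
      (lw m).factorization 5 = lc m := by
    intro m
    unfold lw
    have e2 : (2 ^ la m * 3 ^ lb m * 5 ^ lc m : ℕ) ≠ 0 := by positivity
    rw [Nat.factorization_mul (by positivity) (by positivity),
      Nat.factorization_mul (by positivity) (by positivity),
      Nat.Prime.factorization_pow (by norm_num), Nat.Prime.factorization_pow (by norm_num),
      Nat.Prime.factorization_pow (by norm_num)]
    simp
  obtain ⟨a1, a2, a3⟩ := key l
  obtain ⟨b1, b2, b3⟩ := key l'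
  rw [h] at a1 a2 a3
  exact ⟨a1.symm.trans b1, a2.symm.trans b2, a3.symm.trans b3⟩

end Kak
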