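import Pool.Agent.Lib.Kak.ExBasic

/-!
# 7-adic basics and the characters `ph`
-/

open Finset

namespace Kak

theorem PadicBAux.unit_nat {w : ℕ} (h : ¬ 7 ∣ w) : IsUnit ((w : ℕ) : ℤ_[7]) := by
  rw [PadicInt.isUnit_iff, PadicInt.norm_natCast_eq_one_iff]
  exact (Nat.Prime.coprime_iff_not_dvd (by norm_num : Nat.Prime 7)).2 h

theorem iv_spec {w : ℕ} (h : ¬ 7 ∣ w) : (w : ℤ_[7]) * iv w = 1 :=
  Ring.mul_inverse_cancel _ (PadicBAux.unit_nat h)

theorem iv_isUnit {w : ℕ} (h : ¬ 7 ∣ w) : IsUnit (iv w) :=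
  IsUnit.of_mul_eq_one_right _ (iv_spec h)

theorem iv_mul {a b : ℕ} (ha : ¬ 7 ∣ a) (hb : ¬ 7 ∣ b) : iv (a * b) = iv a * iv b := by
  have hab : ¬ 7 ∣ a * b := by
    intro h
    rcases (Nat.Prime.dvd_mul (by norm_num : Nat.Prime 7)).1 h with h | h
    · exact ha h
    · exact hb h
  have h1 := iv_spec hab
  have h2 := iv_spec ha
  have h3 := iv_spec hb
  push_cast at h1
  apply (PadicBAux.unit_nat hab).mul_left_cancel
  push_cast
  rw [h1]
  calc (1 : ℤ_[7]) = ((a : ℤ_[7]) * iv a) * ((b : ℤ_[7]) * iv b) := by rw [h2, h3, one_mul]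
    _ = (a : ℤ_[7]) * (b : ℤ_[7]) * (iv a * iv b) := by ring

theorem iv_one : iv 1 = 1 := by
  have h := iv_spec (w := 1) (by norm_num)
  rwa [Nat.cast_one, one_mul] at h

theorem not_dvd_lw (l : Lt) : ¬ 7 ∣ lw l := by
  have hp : Nat.Prime 7 := by norm_num
  unfold lw
  intro h
  rcases (Nat.Prime.dvd_mul hp).1 h with h | h
  · rcases (Nat.Prime.dvd_mul hp).1 h with h | h
    · have := hp.dvd_of_dvd_pow h
      omega
    · have := hp.dvd_of_dvd_pow h
      omega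
  · have := hp.dvd_of_dvd_pow h
    omega

theorem not_dvd_Wd (v : List Lt) : ¬ 7 ∣ Wd v := by
  induction v with
  | nil => simp [Wd]
  | cons l v ih =>
    intro h
    rcases (Nat.Prime.dvd_mul (by norm_num : Nat.Prime 7)).1 h with h | h
    · exact not_dvd_lw l h
    · exact ih h

theorem iv_Wd_append (v u : List Lt) : iv (Wd (v ++ u)) = iv (Wd v) * iv (Wd u) := by
  have h : Wd (v ++ u) = Wd v * Wd u := by
    induction v with
    | nil => simp [Wd]
    | cons l v ih => simp only [List.cons_append, Wd, ih, mul_assoc]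
  rw [h, iv_mul (not_dvd_Wd v) (not_dvd_Wd u)]

theorem Fp_mul_Wd (v : List Lt) : Fp v * (Wd v : ℤ_[7]) = (Gd v : ℤ_[7]) := by
  induction v with
  | nil => simp [Fp, Gd, Wd]
  | cons l v ih =>
    have h1 : (lw l : ℤ_[7]) * iv (lw l) = 1 := iv_spec (not_dvd_lw l)
    simp only [Fp, Gd, Wd]
    push_cast
    change (1 + 7 * Fp v) * iv (lw l) * ((lw l : ℤ_[7]) * (Wd v : ℤ_[7])) = _
    calc (1 + 7 * Fp v) * iv (lw l) * ((lw l : ℤ_[7]) * (Wd v : ℤ_[7]))
        = ((lw l : ℤ_[7]) * iv (lw l)) * ((Wd v : ℤ_[7]) + 7 * (Fp v * (Wd v : ℤ_[7]))) := by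
          ring
      _ = _ := by rw [h1, ih, one_mul]

theorem Fp_append (v u : List Lt) :
    Fp (v ++ u) = Fp v + 7 ^ v.length * iv (Wd v) * Fp u := by
  induction v with
  | nil => simp [Fp, Wd, iv_one]
  | cons l v ih =>
    have h1 : iv (Wd (l :: v)) = iv (lw l) * iv (Wd v) :=
      iv_mul (not_dvd_lw l) (not_dvd_Wd v)
    rw [h1, List.length_cons, pow_succ]
    simp only [List.cons_append, Fp, ih]
    change (1 + 7 * (Fp v + 7 ^ v.length * iv (Wd v) * Fp u)) * iv (lw l) =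
      (1 + 7 * Fp v) * iv (lw l) + _
    ring

/-- reformulation of the congruence `Fp v ≡ y` modulo `7^n` -/
theorem toZMod_Fp_iff (n : ℕ) (v : List Lt) (y : ZMod (7 ^ n)) :
    PadicInt.toZModPow n (Fp v) = y ↔ (Wd v : ZMod (7 ^ n)) * y = (Gd v : ZMod (7 ^ n)) := by
  have hu : IsUnit ((Wd v : ℕ) : ZMod (7 ^ n)) := by
    have := (PadicBAux.unit_nat (not_dvd_Wd v)).map (PadicInt.toZModPow (p := 7) n)
    rwa [map_natCast] at this
  have h1 : PadicInt.toZModPow n (Fp v) * (Wd v : ZMod (7 ^ n)) = (Gd v : ZMod (7 ^ n)) := by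
    have := congrArg (PadicInt.toZModPow (p := 7) n) (Fp_mul_Wd v)
    rwa [map_mul, map_natCast, map_natCast] at this
  constructor
  · rintro rfl
    rw [mul_comm]
    exact h1
  · intro h
    apply hu.mul_left_cancel
    rw [h, mul_comm]
    exact h1

theorem ph_zero (n : ℕ) : ph n 0 = 1 := by
  unfold ph
  rw [map_zero, AddChar.map_zero_eq_one]

theorem ph_add (n : ℕ) (x y : ℤ_[7]) : ph n (x + y) = ph n x * ph n y := by
  unfold ph
  rw [map_add, AddChar.map_add_eq_mul]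

theorem norm_ph (n : ℕ) (x : ℤ_[7]) : ‖ph n x‖ = 1 := by
  unfold ph
  exact AddChar.norm_apply _ _

theorem ph_congr {n : ℕ} {x y : ℤ_[7]} (h : (7 : ℤ_[7]) ^ n ∣ x - y) : ph n x = ph n y := by
  have h1 : PadicInt.toZModPow n x = PadicInt.toZModPow n y := by
    rw [← sub_eq_zero, ← map_sub]
    have h2 : x - y ∈ RingHom.ker (PadicInt.toZModPow (p := 7) n) := by
      rw [PadicInt.ker_toZModPow, Ideal.mem_span_singleton]
      exact_mod_cast h
    exact h2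
  unfold ph
  rw [h1]

theorem ph_level_zero (x : ℤ_[7]) : ph 0 x = 1 := by
  have h : ph 0 x = ph 0 0 := ph_congr (by simp)
  rw [h, ph_zero]

theorem PadicBAux.ph_nat (n k : ℕ) :
    ph n (k : ℤ_[7]) = Complex.exp (2 * Real.pi * Complex.I * ((k : ℝ) / 7 ^ n : ℝ)) := by
  unfold ph
  rw [map_natCast]
  have h := ZMod.stdAddChar_coe (N := 7 ^ n) (k : ℤ)
  rw [Int.cast_natCast] at h
  rw [h]
  congr 1
  push_cast
  ring

theorem PadicBAux.exists_appr (n : ℕ) (x : ℤ_[7]) :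
    ∃ k : ℕ, k < 7 ^ n ∧ (7 : ℤ_[7]) ^ n ∣ x - (k : ℤ_[7]) := by
  refine ⟨x.appr n, PadicInt.appr_lt x n, ?_⟩
  have h := PadicInt.appr_spec n x
  rw [Ideal.mem_span_singleton] at h
  exact_mod_cast h

theorem ph_level {n j : ℕ} (h : j ≤ n) (x : ℤ_[7]) : ph n (7 ^ j * x) = ph (n - j) x := by
  obtain ⟨k, -, hk⟩ := PadicBAux.exists_appr (n - j) x
  have h1 : ph (n - j) x = ph (n - j) (k : ℤ_[7]) := ph_congr hk
  have h2 : ph n (7 ^ j * x) = ph n ((7 ^ j * k : ℕ) : ℤ_[7]) := by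
    apply ph_congr
    have e : (7 : ℤ_[7]) ^ n = 7 ^ j * 7 ^ (n - j) := by
      rw [← pow_add]
      congr 1
      omega
    push_cast
    rw [e, ← mul_sub]
    exact mul_dvd_mul_left _ hk
  rw [h1, h2, PadicBAux.ph_nat, PadicBAux.ph_nat]
  congr 3
  have e : (7 : ℝ) ^ n = 7 ^ j * 7 ^ (n - j) := by
    rw [← pow_add]
    congr 1
    omega
  push_cast
  rw [e]
  field_simp

/-- divisibility of integers by powers of 7 can be read in `ℤ_[7]` -/
theorem int_dvd_iff (n : ℕ) (x : ℤ) : (7 : ℤ_[7]) ^ n ∣ (x : ℤ_[7]) ↔ (7 : ℤ) ^ n ∣ x := by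
  have h := PadicInt.pow_p_dvd_int_iff (p := 7) n x
  exact_mod_cast h

theorem phase {n : ℕ} {x : ℤ_[7]} {ε : ℝ} (h0 : 0 < ε) (h1 : ε ≤ 1 / 2)
    (h : ¬ ∃ y : ℤ, (7 : ℤ_[7]) ^ n ∣ (y : ℤ_[7]) - x ∧ |(y : ℝ)| ≤ ε * 7 ^ n) :
    ‖1 + ph n x‖ / 2 ≤ 1 - ε ^ 2 := by
  obtain ⟨k, hk, hd⟩ := PadicBAux.exists_appr n x
  have hN : (0 : ℝ) < 7 ^ n := by positivity
  have hk' : (k : ℝ) < 7 ^ n := by exact_mod_cast hk
  set θ : ℝ := (k : ℝ) / 7 ^ n with hθ
  have hphx : ph n x = Complex.exp (2 * Real.pi * Complex.I * (θ : ℝ)) := by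
    rw [ph_congr hd, PadicBAux.ph_nat]
  have hlo : ε < θ := by
    by_contra hc
    apply h
    refine ⟨(k : ℤ), ?_, ?_⟩
    · rw [← neg_sub, dvd_neg]
      exact_mod_cast hd
    · rw [hθ, not_lt, div_le_iff₀ hN] at hc
      rw [Int.cast_natCast, abs_of_nonneg (Nat.cast_nonneg k)]
      exact hc
  have hhi : θ < 1 - ε := by
    by_contra hc
    apply h
    refine ⟨(k : ℤ) - 7 ^ n, ?_, ?_⟩
    · push_cast
      have e : (k : ℤ_[7]) - 7 ^ n - x = -((x - (k : ℤ_[7])) + 7 ^ n) := by ring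
      rw [e, dvd_neg]
      exact dvd_add hd (dvd_refl _)
    · rw [hθ, not_lt, le_div_iff₀ hN] at hc
      push_cast
      rw [abs_of_nonpos (by linarith)]
      linarith
  have hnorm : ‖1 + ph n x‖ = 2 * |Real.cos (Real.pi * θ)| := by
    have e : 1 + ph n x = Complex.exp (((Real.pi * θ : ℝ) : ℂ) * Complex.I) *
        ((2 * Real.cos (Real.pi * θ) : ℝ) : ℂ) := by
      rw [hphx]
      push_cast
      rw [Complex.two_cos, mul_add, ← Complex.exp_add, ← Complex.exp_add]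
      have e1 : (Real.pi : ℂ) * (θ : ℂ) * Complex.I + (Real.pi : ℂ) * (θ : ℂ) * Complex.I =
        2 * Real.pi * Complex.I * θ := by ring
      have e2 : (Real.pi : ℂ) * (θ : ℂ) * Complex.I + -((Real.pi : ℂ) * (θ : ℂ)) * Complex.I = 0 := by
        ring
      rw [e1, e2, Complex.exp_zero, add_comm]
    rw [e, norm_mul, Complex.norm_exp_ofReal_mul_I, one_mul, Complex.norm_real,
      Real.norm_eq_abs, abs_mul, abs_two]
  have hpi := Real.pi_pos
  have hc1 : Real.cos (Real.pi * θ) ≤ Real.cos (Real.pi * ε) := by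
    apply Real.cos_le_cos_of_nonneg_of_le_pi
    · positivity
    · nlinarith
    · nlinarith
  have hc2 : -Real.cos (Real.pi * ε) ≤ Real.cos (Real.pi * θ) := by
    rw [← Real.cos_pi_sub]
    apply Real.cos_le_cos_of_nonneg_of_le_pi
    · nlinarith
    · nlinarith
    · nlinarith
  have hc3 : Real.cos (Real.pi * ε) ≤ 1 - 2 * ε ^ 2 := by
    have hs : ε ≤ Real.sin (Real.pi * ε / 2) := by
      have := Real.mul_le_sin (x := Real.pi * ε / 2) (by positivity) (by nlinarith)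
      have e : 2 / Real.pi * (Real.pi * ε / 2) = ε := by field_simp
      rwa [e] at this
    have e : Real.pi * ε = 2 * (Real.pi * ε / 2) := by ring
    rw [e, Real.cos_two_mul, Real.cos_sq']
    nlinarith
  rw [hnorm]
  have : |Real.cos (Real.pi * θ)| ≤ Real.cos (Real.pi * ε) := abs_le.2 ⟨hc2, hc1⟩
  nlinarith [sq_nonneg ε]

end Kak
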