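import Pool.Agent.Lib.Kak.Inject
import Pool.Agent.Lib.Kak.PadicB
import Pool.Agent.Lib.Kak.KernFib

/-!
# Kak.ClassBd: the probability of a residue class with given `k`, `Wd`

PROOF.
Step 1.  For a list `x` of natural numbers and `H ≥ n`, `r ∈ UU`: if every `y ∈ x` satisfies `y ≤ 7^n`
then `PP H x.length r {v | v.map lw = x} ≤ (19410/11473)·(∏_{y ∈ x} 1/y)`; more precisely, by induction on `x`:
`Ex H x.length r (v ↦ if v.map lw = x then 1 / hh (st r v) else 0) ≤ (1 / hh r) * ∏_{y ∈ x} (1/y)`.
Indeed for `x = y :: x'` only letters with `lw l = y` contribute; they all have the same next state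
`s = nx r y`, and `∑_{l : lw l = y} pr H r l = (hh s/hh r) ∑_{l : lw l = y} wt H l ≤ (hh s / hh r) (1/y)`:
by `lw_inj` all letters with `lw l = y` have the same exponents `(a, b, c)`, `y = 2^a 3^b 5^c ≤ 7^n`, so
`a ≤ 4 n ≤ 4H` (`7 < 16`), `b ≤ 4H`, `c ≤ 2H` (`7 < 25`), `a ≥ 1` for letters of `LS H`, and `fib_sum`
applies (if no letter of `LS H` has `lw l = y` the sum is 0).
Since `1/hh (st r v) ≥ 1/19410`, `1/hh r ≤ 1/11473` (`hh_bounds`), the claim of step 1 follows.
Step 2.  Let `S` be the set in the statement.  If `S` contains no admissible word of length `k` the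
probability is 0.  Otherwise let `v0` be one, `x = v0.map lw` (all entries divide `W ≤ 7^n`,
product `W`).  Any admissible `v ∈ S` of length `k` has
`(Gd v : ZMod (7^n)) = Wd v * Y = W * Y` (`toZMod_Fp_iff`), so `Gd v ≡ Gd v0` modulo `7^n`, both `< 7^n`, so
equal, and `inject` gives `v.map lw = x`.  By step 1 the probability is
`≤ (19410/11473)/W ≤ 2/W`.
-/

open Finset

namespace Kak

namespace ClassBdAux

theorem fib_le {H n y : ℕ} (hH : 2 ≤ H) (hn : n ≤ H) (hy : y ≤ 7 ^ n) :
    ∑ l ∈ LS H with lw l = y, wt H l ≤ 1 / (y : ℝ) := by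
  by_cases hex : ∃ l0 ∈ LS H, lw l0 = y
  · obtain ⟨l0, h0, h1⟩ := hex
    have h7 : (7 : ℕ) ^ n ≤ 7 ^ H := Nat.pow_le_pow_right (by norm_num) hn
    have hyH : y ≤ 7 ^ H := hy.trans h7
    have hw : lw l0 = 2 ^ la l0 * 3 ^ lb l0 * 5 ^ lc l0 := rfl
    have p2 : 0 < 2 ^ la l0 := by positivity
    have p3 : 0 < 3 ^ lb l0 := by positivity
    have p5 : 0 < 5 ^ lc l0 := by positivity
    have hyp : 0 < y := by rw [← h1]; exact lw_pos l0
    have ha : la l0 ≤ 4 * H := by
      have e1 : 2 ^ la l0 ≤ y := Nat.le_of_dvd hyp (by rw [← h1, hw, mul_assoc]; exact dvd_mul_right _ _)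
      have e2 : (7 : ℕ) ^ H ≤ 2 ^ (4 * H) := by
        rw [pow_mul]; exact Nat.pow_le_pow_left (by norm_num) H
      exact (Nat.pow_le_pow_iff_right (by norm_num)).1 (e1.trans (hyH.trans e2))
    have hb : lb l0 ≤ 4 * H := by
      have e1 : 3 ^ lb l0 ≤ y := Nat.le_of_dvd hyp
        (by rw [← h1, hw]; exact Dvd.dvd.mul_right (dvd_mul_left _ _) _)
      have e2 : (7 : ℕ) ^ H ≤ 3 ^ (4 * H) := by
        rw [pow_mul]; exact Nat.pow_le_pow_left (by norm_num) H
      exact (Nat.pow_le_pow_iff_right (by norm_num)).1 (e1.trans (hyH.trans e2))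
    have hc : lc l0 ≤ 2 * H := by
      have e1 : 5 ^ lc l0 ≤ y := Nat.le_of_dvd hyp (by rw [← h1, hw]; exact dvd_mul_left _ _)
      have e2 : (7 : ℕ) ^ H ≤ 5 ^ (2 * H) := by
        rw [pow_mul]; exact Nat.pow_le_pow_left (by norm_num) H
      exact (Nat.pow_le_pow_iff_right (by norm_num)).1 (e1.trans (hyH.trans e2))
    have hf : (LS H).filter (fun l => lw l = y) =
        (LS H).filter (fun l => la l = la l0 ∧ lb l = lb l0 ∧ lc l = lc l0) := by
      apply Finset.filter_congr
      intro l _
      constructor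
      · intro h
        exact lw_inj (h.trans h1.symm)
      · rintro ⟨e1, e2, e3⟩
        rw [← h1]
        unfold lw
        rw [e1, e2, e3]
    rw [hf, fib_sum hH (one_le_la h0) ha hb hc, ← h1, hw]
    push_cast
    exact le_rfl
  · push Not at hex
    rw [Finset.sum_eq_zero]
    · positivity
    · intro l hl
      rw [Finset.mem_filter] at hl
      exact absurd hl.2 (hex l hl.1)

open Classical in
theorem step1 {H n : ℕ} (hH : 2 ≤ H) (hn : n ≤ H) :
    ∀ (x : List ℕ) (r : ZMod 15), r ∈ UU → (∀ y ∈ x, y ≤ 7 ^ n) →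
      Ex H x.length r (fun v => if v.map lw = x then 1 / hh (st r v) else 0) ≤
        1 / hh r * (x.map (fun y : ℕ => 1 / (y : ℝ))).prod := by
  intro x
  induction x with
  | nil =>
    intro r _ _
    simp [Ex_zero, st]
  | cons y x ih =>
    intro r hr hx
    rw [List.length_cons, Ex_succ]
    have hx' : ∀ z ∈ x, z ≤ 7 ^ n := fun z hz => hx z (List.mem_cons_of_mem _ hz)
    have hP : 0 ≤ (x.map (fun y : ℕ => 1 / (y : ℝ))).prod := by
      apply List.prod_nonneg
      intro a ha
      obtain ⟨z, _, rfl⟩ := List.mem_map.1 ha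
      positivity
    have hrp := hh_pos hr
    have hterm : ∀ l ∈ LS H, pr H r l • Ex H x.length (nx r (lw l))
        (fun v => if (l :: v).map lw = y :: x then 1 / hh (st r (l :: v)) else 0) ≤
        (if lw l = y then wt H l else 0) *
          (1 / hh r * (x.map (fun y : ℕ => 1 / (y : ℝ))).prod) := by
      intro l _
      by_cases hl : lw l = y
      · rw [if_pos hl]
        have e : (fun v : List Lt => if (l :: v).map lw = y :: x then 1 / hh (st r (l :: v)) else 0) =
            (fun v => if v.map lw = x then 1 / hh (st (nx r (lw l)) v) else 0) := by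
          funext v
          have e1 : ((l :: v).map lw = y :: x) ↔ (v.map lw = x) := by
            rw [List.map_cons, hl]
            simp
          simp only [e1]
          rfl
        rw [e, smul_eq_mul]
        by_cases hu : nx r (lw l) ∈ UU
        · have h1 := ih (nx r (lw l)) hu hx'
          have h2 := hh_pos hu
          have h3 := pr_nonneg H r l
          calc pr H r l * Ex H x.length (nx r (lw l))
                (fun v => if v.map lw = x then 1 / hh (st (nx r (lw l)) v) else 0)
              ≤ pr H r l * (1 / hh (nx r (lw l)) * (x.map (fun y : ℕ => 1 / (y : ℝ))).prod) :=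
                mul_le_mul_of_nonneg_left h1 h3
            _ = wt H l * (1 / hh r * (x.map (fun y : ℕ => 1 / (y : ℝ))).prod) := by
                unfold pr
                field_simp
        · rw [pr_eq_zero hu, zero_mul]
          have := wt_nonneg H l
          positivity
      · rw [if_neg hl, zero_mul]
        have e : (fun v : List Lt => if (l :: v).map lw = y :: x then 1 / hh (st r (l :: v)) else 0) =
            (fun _ => (0 : ℝ)) := by
          funext v
          rw [if_neg]
          rw [List.map_cons]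
          intro h
          exact hl (List.cons.inj h).1
        rw [e, Ex_zero_fun, smul_zero]
    refine (Finset.sum_le_sum hterm).trans ?_
    rw [← Finset.sum_mul, ← Finset.sum_filter, List.map_cons, List.prod_cons]
    have h4 := fib_le hH hn (hx y (List.mem_cons_self))
    calc (∑ l ∈ LS H with lw l = y, wt H l) * (1 / hh r * (x.map (fun y : ℕ => 1 / (y : ℝ))).prod)
        ≤ 1 / (y : ℝ) * (1 / hh r * (x.map (fun y : ℕ => 1 / (y : ℝ))).prod) :=
          mul_le_mul_of_nonneg_right h4 (by positivity)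
      _ = _ := by ring

theorem prod_inv : ∀ v : List Lt, ((v.map lw).map (fun y : ℕ => 1 / (y : ℝ))).prod =
    1 / (Wd v : ℝ) := by
  intro v
  induction v with
  | nil => simp [Wd]
  | cons l v ih =>
    rw [List.map_cons, List.map_cons, List.prod_cons, ih]
    simp only [Wd]
    push_cast
    rw [one_div_mul_one_div]

theorem le_Wd : ∀ (v : List Lt), ∀ y ∈ v.map lw, y ≤ Wd v := by
  intro v
  induction v with
  | nil => intro y hy; simp at hy
  | cons l v ih =>
    intro y hy
    rw [List.map_cons, List.mem_cons] at hy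
    have h1 := Wd_pos v
    have h2 := lw_pos l
    simp only [Wd]
    rcases hy with rfl | hy
    · exact Nat.le_mul_of_pos_right _ h1
    · exact (ih y hy).trans (Nat.le_mul_of_pos_left _ h2)

end ClassBdAux

theorem classBd {H n k W : ℕ} (hH : 2 ≤ H) (hn : n ≤ H) (hW0 : 0 < W) (hW : W ≤ 7 ^ n)
    {r : ZMod 15} (hr : r ∈ UU) (Y : ZMod (7 ^ n)) :
    PP H k r {v | Wd v = W ∧ Gd v < 7 ^ n ∧ PadicInt.toZModPow n (Fp v) = Y} ≤ 2 / (W : ℝ) := by
  classical
  set S : Set (List Lt) := {v | Wd v = W ∧ Gd v < 7 ^ n ∧ PadicInt.toZModPow n (Fp v) = Y} with hS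
  by_cases hex : ∃ v0 : List Lt, v0.length = k ∧ Ok H r v0 ∧ v0 ∈ S
  · obtain ⟨v0, hk, hok, h1, h2, h3⟩ := hex
    have hx : ∀ y ∈ v0.map lw, y ≤ 7 ^ n := fun y hy =>
      (ClassBdAux.le_Wd v0 y hy).trans (h1 ▸ hW)
    have hst := ClassBdAux.step1 hH hn (v0.map lw) r hr hx
    rw [ClassBdAux.prod_inv, List.length_map, hk, h1] at hst
    have hle : PP H k r S ≤ 19410 * Ex H k r (fun v => if v.map lw = v0.map lw then
        1 / hh (st r v) else 0) := by
      rw [← Ex_mul_left]
      unfold PP
      refine Ex_mono H k r fun v hv hv' => ?_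
      have hu := st_mem v r hr hv'
      have hb := (hh_bounds hu).2
      have hp := hh_pos hu
      by_cases hvS : v ∈ S
      · rw [Set.indicator_of_mem hvS]
        obtain ⟨g1, g2, g3⟩ := hvS
        have hG : Gd v = Gd v0 := by
          have e1 := (toZMod_Fp_iff n v Y).1 g3
          have e2 := (toZMod_Fp_iff n v0 Y).1 h3
          rw [g1] at e1
          rw [h1] at e2
          have e3 : ((Gd v : ℕ) : ZMod (7 ^ n)) = ((Gd v0 : ℕ) : ZMod (7 ^ n)) := e1.symm.trans e2
          rw [ZMod.natCast_eq_natCast_iff'] at e3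
          rwa [Nat.mod_eq_of_lt g2, Nat.mod_eq_of_lt h2] at e3
        have hm : v.map lw = v0.map lw := inject hr (hv.trans hk.symm) hv' hok (g1.trans h1.symm) hG
        rw [if_pos hm, mul_one_div, le_div_iff₀ hp, one_mul]
        exact hb
      · rw [Set.indicator_of_notMem hvS]
        split_ifs <;> positivity
    have hb := (hh_bounds hr).1
    have hp := hh_pos hr
    have hWp : (0 : ℝ) < W := by exact_mod_cast hW0
    refine hle.trans ((mul_le_mul_of_nonneg_left hst (by norm_num)).trans ?_)
    rw [one_div_mul_one_div, mul_one_div, div_le_div_iff₀ (by positivity) hWp]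
    nlinarith
  · have h0 : PP H k r S ≤ PP H k r ∅ :=
      PP_mono H k r fun v hv hv' hvS => (hex ⟨v, hv, hv', hvS⟩).elim
    have h1 : PP H k r ∅ = 0 := by
      unfold PP
      rw [Set.indicator_empty']
      exact Ex_zero_fun H k r
    refine h0.trans (h1.le.trans ?_)
    positivity

end Kak
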