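import Pool.Agent.Lib.Kak.KernProb

/-!
# Kak.CoinLD: large deviations for the number of coins and the exponents

PROOFS.  If `P_r(letter in S) ≥ p0` for all `r ∈ UU`, then with `cnt` = number of letters of the
word in `S`: `Ex H n r ((1/2)^cnt) ≤ (1 - p0/2)^n` (induction on `n`), hence
`PP {c * cnt < n} ≤ 2^(n/c) (1 - p0/2)^n` (Markov: on the event `(1/2)^cnt ≥ (1/2)^(n/c)`).

* `cn2_low`: `p0 = 30/256`, `c = 25`: `2^(1/25) (1 - 15/256) ≤ 97/100`
  (i.e. `2 (241/256)^25 ≤ (97/100)^25`).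
* `cn3_low`: `p0 = 1/130`, `c = 400`: `2^(1/400) (1 - 1/260) ≤ 999/1000`
  (i.e. `2 (259/260)^400 ≤ (999/1000)^400`: the left side is `2 * 0.2141 = .4282`, the right side is
  `.6702`).
* `eb_low`: `cnt` = number of letters with `lb ≥ 1`, `cnt ≤ eb v`; `p0 = 1/3`, `c = 16`.
* `ec_low`: `cnt` = number of letters with `lc ≥ 1`, `cnt ≤ ec v`; `p0 = 1/6`, `c = 16`:
  `2 (11/12)^16 ≤ (24/25)^16` (left `.4971`, right `.5204`).
-/

open Finset

namespace Kak

namespace CoinLDAux

theorem ex_half {H : ℕ} (hH : 2 ≤ H) (S : Lt → Prop) [DecidablePred S] {p0 : ℝ}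
    (hp : ∀ r ∈ UU, p0 ≤ ∑ l ∈ LS H with S l, pr H r l) (hp1 : p0 ≤ 1) (n : ℕ) {r : ZMod 15}
    (hr : r ∈ UU) :
    Ex H n r (fun v => (1 / 2 : ℝ) ^ (v.countP (fun l => S l))) ≤ (1 - p0 / 2) ^ n := by
  induction n generalizing r with
  | zero => rw [Ex_zero, pow_zero]; simp
  | succ n ih =>
    have hq : 0 ≤ (1 - p0 / 2) ^ n := pow_nonneg (by linarith) n
    rw [Ex_succ]
    have h1 : ∀ l ∈ LS H, pr H r l • Ex H n (nx r (lw l))
        (fun v => (1 / 2 : ℝ) ^ ((l :: v).countP (fun l => S l))) ≤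
        pr H r l * (if S l then 1 / 2 else 1) * (1 - p0 / 2) ^ n := by
      intro l _
      by_cases hl : nx r (lw l) ∈ UU
      · have h2 : (fun v => (1 / 2 : ℝ) ^ ((l :: v).countP (fun l => S l))) =
            fun v => (if S l then 1 / 2 else 1) * (1 / 2 : ℝ) ^ (v.countP (fun l => S l)) := by
          funext v
          rw [List.countP_cons]
          by_cases hS : S l
          · simp only [hS, decide_true, if_true]
            rw [pow_succ]
            ring
          · simp only [hS, decide_false, if_false]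
            simp
        rw [h2, Ex_mul_left, smul_eq_mul, ← mul_assoc]
        refine mul_le_mul_of_nonneg_left (ih hl) (mul_nonneg (pr_nonneg _ _ _) ?_)
        split_ifs <;> norm_num
      · rw [pr_eq_zero hl, zero_smul, zero_mul, zero_mul]
    refine (Finset.sum_le_sum h1).trans ?_
    rw [← Finset.sum_mul, pow_succ, mul_comm]
    refine mul_le_mul_of_nonneg_left ?_ hq
    have h3 : ∑ l ∈ LS H, pr H r l * (if S l then (1 / 2 : ℝ) else 1) =
        ∑ l ∈ LS H, pr H r l - 1 / 2 * ∑ l ∈ LS H with S l, pr H r l := by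
      rw [Finset.sum_filter, Finset.mul_sum, ← Finset.sum_sub_distrib]
      refine Finset.sum_congr rfl fun l _ => ?_
      split_ifs <;> ring
    rw [h3, pr_sum hH hr]
    linarith [hp r hr]

theorem main {H : ℕ} (hH : 2 ≤ H) (S : Lt → Prop) [DecidablePred S] {p0 q : ℝ} (c : ℕ)
    (hp : ∀ r ∈ UU, p0 ≤ ∑ l ∈ LS H with S l, pr H r l) (hp1 : p0 ≤ 1) (hq : 0 < q)
    (hl1 : (1 - p0 / 2) / q ≤ 1) (hl2 : ((1 - p0 / 2) / q) ^ c ≤ 1 / 2) (n : ℕ) {r : ZMod 15}
    (hr : r ∈ UU) :
    PP H n r {v | c * v.countP (fun l => S l) < n} ≤ q ^ n := by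
  set lam : ℝ := (1 - p0 / 2) / q with hlam
  have hl0 : 0 < lam := div_pos (by linarith) hq
  have h1 := PP_markov H n r (A := {v | c * v.countP (fun l => S l) < n})
    (f := fun v => (1 / 2 : ℝ) ^ (v.countP (fun l => S l))) (c := lam ^ n) (pow_pos hl0 n)
    (fun v _ _ => by positivity) (fun v _ _ hv => by
      have hv' : c * v.countP (fun l => S l) < n := hv
      calc lam ^ n ≤ lam ^ (c * v.countP (fun l => S l)) :=
            pow_le_pow_of_le_one hl0.le hl1 hv'.le
        _ = (lam ^ c) ^ (v.countP (fun l => S l)) := pow_mul _ _ _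
        _ ≤ (1 / 2) ^ (v.countP (fun l => S l)) := pow_le_pow_left₀ (by positivity) hl2 _)
  refine h1.trans ?_
  rw [div_le_iff₀ (pow_pos hl0 n), ← mul_pow]
  refine (ex_half hH S hp hp1 n hr).trans (le_of_eq ?_)
  rw [hlam, mul_div_cancel₀ _ hq.ne']

end CoinLDAux

theorem cn2_low {H : ℕ} (hH : 2 ≤ H) (n : ℕ) {r : ZMod 15} (hr : r ∈ UU) :
    PP H n r {v | 25 * cn2 v < n} ≤ (97 / 100) ^ n := by
  refine CoinLDAux.main hH (fun l : Lt => l.1.2 = 1 ∨ l.1.2 = 2) (p0 := 30 / 256) 25 ?_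
    (by norm_num) (by norm_num) (by norm_num) (by norm_num) n hr
  intro s hs
  rw [Finset.filter_or, Finset.sum_union, prob_coin2 hH hs (Or.inl rfl),
    prob_coin2 hH hs (Or.inr rfl)]
  · norm_num
  · rw [Finset.disjoint_filter]
    intro l _ h1 h2
    omega

theorem cn3_low {H : ℕ} (hH : 2 ≤ H) (n : ℕ) {r : ZMod 15} (hr : r ∈ UU) :
    PP H n r {v | 400 * cn3 v < n} ≤ (999 / 1000) ^ n :=
  CoinLDAux.main hH (fun l : Lt => l.2.1.1 ≠ 0 ∧ (l.2.1.2 = 1 ∨ l.2.1.2 = 2)) (p0 := 1 / 130) 400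
    (fun _ hs => prob_coin3 hH hs) (by norm_num) (by norm_num) (by norm_num)
    (by
      have h1 : ((1 - 1 / 130 / 2 : ℝ) / (999 / 1000)) ^ 20 ≤ 945 / 1000 := by norm_num
      have h0 : (0 : ℝ) ≤ ((1 - 1 / 130 / 2 : ℝ) / (999 / 1000)) ^ 20 := by positivity
      calc ((1 - 1 / 130 / 2 : ℝ) / (999 / 1000)) ^ 400 =
            (((1 - 1 / 130 / 2 : ℝ) / (999 / 1000)) ^ 20) ^ 20 := by rw [← pow_mul]
        _ ≤ (945 / 1000) ^ 20 := pow_le_pow_left₀ h0 h1 20
        _ ≤ 1 / 2 := by norm_num) n hr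

theorem eb_low {H : ℕ} (hH : 2 ≤ H) (n : ℕ) {r : ZMod 15} (hr : r ∈ UU) :
    PP H n r {v | 16 * eb v < n} ≤ (24 / 25) ^ n := by
  refine (PP_mono H n r fun v _ _ hv => ?_).trans (CoinLDAux.main hH (fun l : Lt => 1 ≤ lb l)
    (p0 := 1 / 3) 16 (fun _ hs => prob_b hH hs) (by norm_num) (by norm_num) (by norm_num)
    (by norm_num) n hr)
  have hv' : 16 * eb v < n := hv
  have h1 : ∀ v : List Lt, v.countP (fun l => decide (1 ≤ lb l)) ≤ eb v := by
    intro v
    induction v with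
    | nil => simp
    | cons l v ih =>
      rw [List.countP_cons]
      simp only [eb, List.map_cons, List.sum_cons] at ih ⊢
      by_cases hl : 1 ≤ lb l
      · simp only [hl, decide_true, if_true]
        omega
      · simp only [hl, decide_false]
        simp only [Bool.false_eq_true, if_false]
        omega
  have h2 := h1 v
  show 16 * v.countP (fun l => decide (1 ≤ lb l)) < n
  omega

theorem ec_low {H : ℕ} (hH : 2 ≤ H) (n : ℕ) {r : ZMod 15} (hr : r ∈ UU) :
    PP H n r {v | 16 * ec v < n} ≤ (24 / 25) ^ n := by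
  refine (PP_mono H n r fun v _ _ hv => ?_).trans (CoinLDAux.main hH (fun l : Lt => 1 ≤ lc l)
    (p0 := 1 / 6) 16 (fun _ hs => prob_c hH hs) (by norm_num) (by norm_num) (by norm_num)
    (by norm_num) n hr)
  have hv' : 16 * ec v < n := hv
  have h1 : ∀ v : List Lt, v.countP (fun l => decide (1 ≤ lc l)) ≤ ec v := by
    intro v
    induction v with
    | nil => simp
    | cons l v ih =>
      rw [List.countP_cons]
      simp only [ec, List.map_cons, List.sum_cons] at ih ⊢
      by_cases hl : 1 ≤ lc l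
      · simp only [hl, decide_true, if_true]
        omega
      · simp only [hl, decide_false]
        simp only [Bool.false_eq_true, if_false]
        omega
  have h2 := h1 v
  show 16 * v.countP (fun l => decide (1 ≤ lc l)) < n
  omega

end Kak
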