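import Pool.Agent.Lib.Kak.SyrB
import Pool.Agent.Lib.Kak.KernFib

/-!
# Kak.Count: lower bound for the preimages of `M`

PROOF.  Induction on `n`, for all `M` coprime to 30.  Let `C(n, M, v)` be the condition
`toZModPow n (Fp v) = M ∧ NT H v ∧ Nb M v ∈ T`.
`n = 0`: the left side is `g M` if `M ∈ T`, and the right side is
`hh M * (g M / hh M)` (`Fp [] = 0 = M` in `ZMod 1`, `Wd [] = 1`, `Nb M [] = M`).
Step: the left side for `n+1` is `∑_{M1} ∑_{N ∈ T, Syr^[n] N = M1} g N` over the `M1` with `Syr M1 = M`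
(`Syr^[n+1] N = Syr (Syr^[n] N)`; `M1` ranges over the finite image of `T`; all the terms are
`≥ 0`).  It is at least the sum over the pairwise distinct numbers `M1 = (w M - 1)/7`,
`w = 2^a 3^b 5^c`, `1 ≤ a ≤ 4H`, `b ≤ 4H`, `c ≤ 2H`, with `w M ≡ 1 (7)` and `nx M w ∈ UU` (then `M1` is coprime to
30, `(M1 : ZMod 15) = nx M w` and `Syr M1 = M` by `back_step`; distinct `w` give distinct `M1`).
By the induction hypothesis it is at least `∑_w hh (M1) Ex H n M1 (v ↦ if C(n,M1,v) then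
Wd v g(Nb M1 v)/hh(st M1 v) else 0)`.
On the other side `hh M * Ex H (n+1) M (...) = ∑_{l ∈ LS H} wt H l hh(nx M (lw l)) Ex H n (nx M (lw l)) (v ↦ if C(n+1, M, l::v)
then lw l Wd v g(Nb M (l::v))/hh(..) else 0)`, and for an admissible letter, by `cong_iff`,
`C(n+1, M, l::v)` means `NT1 H l`, `lw l * M ≡ 1 (7)` and `C(n, M1, v)` with `M1 = (lw l M - 1)/7`,
`Nb M (l::v) = Nb M1 v`.  By `fib_map` the sum over the non-top letters of `wt H l * lw l * X(lw l)` is
`∑_{a,b,c} X(2^a 3^b 5^c)`, where `X w = hh (nx M w) Ex H n .. (if C(n, M1, v) ..)` if `w M ≡ 1 (7)`, and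
`0` otherwise.  So both sides agree.
(For letters with `nx M (lw l) ∉ UU` the factor `hh (nx ..)` is 0.)
-/

open Finset

namespace Kak

namespace CountAux

/-- unique factorisation for the exponents -/
theorem trip_inj {a b c a' b' c' : ℕ} (h : 2 ^ a * 3 ^ b * 5 ^ c = 2 ^ a' * 3 ^ b' * 5 ^ c') :
    a = a' ∧ b = b' ∧ c = c' := by
  have := lw_inj (l := ((a, 1), ((b, 1), (c, 0)))) (l' := ((a', 1), ((b', 1), (c', 0))))
    (by simpa [lw, la, lb, lc] using h)
  simpa [la, lb, lc] using this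

theorem seven_mul {w M : ℕ} (h : (w * M) % 7 = 1) : 7 * ((w * M - 1) / 7) + 1 = w * M := by
  omega

open Classical in
theorem triples (H : ℕ) (T : Finset ℕ) (g : ℕ → ℝ) (hg : ∀ N, 0 ≤ g N) (n : ℕ)
    {M : ℕ} (hM : Nat.Coprime M 30) :
    ∑ a ∈ Icc 1 (4 * H), ∑ b ∈ range (4 * H + 1), ∑ c ∈ range (2 * H + 1),
      (if ((2 ^ a * 3 ^ b * 5 ^ c) * M) % 7 = 1 ∧ nx (M : ZMod 15) (2 ^ a * 3 ^ b * 5 ^ c) ∈ UU then
        ∑ N ∈ T with Syr^[n] N = ((2 ^ a * 3 ^ b * 5 ^ c) * M - 1) / 7, g N else 0) ≤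
      ∑ N ∈ T with Syr^[n + 1] N = M, g N := by
  have hM0 : 0 < M := by
    rcases Nat.eq_zero_or_pos M with rfl | h
    · norm_num at hM
    · exact h
  have e1 : ∀ a b c : ℕ,
      (if ((2 ^ a * 3 ^ b * 5 ^ c) * M) % 7 = 1 ∧ nx (M : ZMod 15) (2 ^ a * 3 ^ b * 5 ^ c) ∈ UU then
        ∑ N ∈ T with Syr^[n] N = ((2 ^ a * 3 ^ b * 5 ^ c) * M - 1) / 7, g N else 0) =
      ∑ N ∈ T, (if (((2 ^ a * 3 ^ b * 5 ^ c) * M) % 7 = 1 ∧
        nx (M : ZMod 15) (2 ^ a * 3 ^ b * 5 ^ c) ∈ UU) ∧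
          Syr^[n] N = ((2 ^ a * 3 ^ b * 5 ^ c) * M - 1) / 7 then g N else 0) := by
    intro a b c
    by_cases h : ((2 ^ a * 3 ^ b * 5 ^ c) * M) % 7 = 1 ∧
        nx (M : ZMod 15) (2 ^ a * 3 ^ b * 5 ^ c) ∈ UU
    · simp only [h, sum_filter, if_true, true_and, and_self]
    · simp only [h, false_and, if_false, sum_const_zero]
  simp_rw [e1]
  have e2 : ∀ F : ℕ → ℕ → ℕ → ℕ → ℝ,
      ∑ a ∈ Icc 1 (4 * H), ∑ b ∈ range (4 * H + 1), ∑ c ∈ range (2 * H + 1), ∑ N ∈ T, F a b c N =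
      ∑ N ∈ T, ∑ p ∈ Icc 1 (4 * H) ×ˢ (range (4 * H + 1) ×ˢ range (2 * H + 1)),
        F p.1 p.2.1 p.2.2 N := by
    intro F
    symm
    rw [sum_comm, sum_product]
    apply sum_congr rfl
    intro a _
    rw [sum_product]
  rw [e2, sum_filter]
  apply sum_le_sum
  intro N _
  by_cases hex : ∃ p ∈ Icc 1 (4 * H) ×ˢ (range (4 * H + 1) ×ˢ range (2 * H + 1)),
      (((2 ^ p.1 * 3 ^ p.2.1 * 5 ^ p.2.2) * M) % 7 = 1 ∧
        nx (M : ZMod 15) (2 ^ p.1 * 3 ^ p.2.1 * 5 ^ p.2.2) ∈ UU) ∧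
          Syr^[n] N = ((2 ^ p.1 * 3 ^ p.2.1 * 5 ^ p.2.2) * M - 1) / 7
  · obtain ⟨p, hp, ⟨h7, hU⟩, hS⟩ := hex
    have hSyr : Syr^[n + 1] N = M := by
      rw [Function.iterate_succ_apply', hS]
      exact Syr_pred hM (seven_mul h7)
    rw [if_pos hSyr]
    rw [sum_eq_single_of_mem p hp]
    · rw [if_pos ⟨⟨h7, hU⟩, hS⟩]
    · intro q _ hqp
      rw [if_neg]
      rintro ⟨⟨h7', _⟩, hS'⟩
      apply hqp
      have h1 := seven_mul h7
      have h2 := seven_mul h7'
      have h3 : (2 ^ q.1 * 3 ^ q.2.1 * 5 ^ q.2.2) * M = (2 ^ p.1 * 3 ^ p.2.1 * 5 ^ p.2.2) * M := by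
        rw [← h1, ← h2, ← hS, ← hS']
      have h4 := trip_inj (Nat.eq_of_mul_eq_mul_right hM0 h3)
      exact Prod.ext h4.1 (Prod.ext h4.2.1 h4.2.2)
  · have : ∑ p ∈ Icc 1 (4 * H) ×ˢ (range (4 * H + 1) ×ˢ range (2 * H + 1)),
        (if (((2 ^ p.1 * 3 ^ p.2.1 * 5 ^ p.2.2) * M) % 7 = 1 ∧
        nx (M : ZMod 15) (2 ^ p.1 * 3 ^ p.2.1 * 5 ^ p.2.2) ∈ UU) ∧
          Syr^[n] N = ((2 ^ p.1 * 3 ^ p.2.1 * 5 ^ p.2.2) * M - 1) / 7 then g N else 0) = 0 := by
      apply sum_eq_zero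
      intro p hp
      rw [if_neg]
      intro h
      exact hex ⟨p, hp, h⟩
    rw [this]
    split_ifs
    · exact hg N
    · exact le_refl _

end CountAux

open Classical in
theorem count {H : ℕ} (hH : 2 ≤ H) (T : Finset ℕ) (g : ℕ → ℝ) (hg : ∀ N, 0 ≤ g N) (n : ℕ)
    {M : ℕ} (hM : Nat.Coprime M 30) :
    hh (M : ZMod 15) * Ex H n (M : ZMod 15) (fun v =>
      if PadicInt.toZModPow n (Fp v) = ((M : ℕ) : ZMod (7 ^ n)) ∧ NT H v ∧ Nb M v ∈ T then
        (Wd v : ℝ) * g (Nb M v) / hh (st (M : ZMod 15) v) else 0) ≤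
      ∑ N ∈ T with Syr^[n] N = M, g N := by
  induction n generalizing M with
  | zero =>
    have hU : (M : ZMod 15) ∈ UU := (coprime_iff.1 hM).2
    have hh0 : hh (M : ZMod 15) ≠ 0 := hh_ne_zero_iff.2 hU
    rw [Ex_zero]
    by_cases hT : M ∈ T
    · have e : (∑ N ∈ T with Syr^[0] N = M, g N) = g M := by
        rw [sum_filter, sum_eq_single_of_mem M hT]
        · simp
        · intro b _ hb
          simp [hb]
      rw [e]
      split_ifs
      · simp only [Wd, Nb, st, Nat.cast_one, one_mul]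
        rw [mul_div_cancel₀ _ hh0]
      · rw [mul_zero]; exact hg M
    · rw [if_neg (by simp only [Nb]; tauto), mul_zero]
      exact sum_nonneg fun N _ => hg N
  | succ n ih =>
    have hU : (M : ZMod 15) ∈ UU := (coprime_iff.1 hM).2
    have hh0 : hh (M : ZMod 15) ≠ 0 := hh_ne_zero_iff.2 hU
    have hM0 : 0 < M := by
      rcases Nat.eq_zero_or_pos M with rfl | h
      · norm_num at hM
      · exact h
    refine le_trans ?_ (CountAux.triples H T g hg n hM)
    have hfib := fib_map (H := H) hH (fun w => if (w * M) % 7 = 1 ∧ nx (M : ZMod 15) w ∈ UU then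
        ∑ N ∈ T with Syr^[n] N = (w * M - 1) / 7, g N else 0)
    rw [← hfib, Ex_succ, mul_sum, sum_filter]
    apply sum_le_sum
    intro l hl
    by_cases hn : nx (M : ZMod 15) (lw l) ∈ UU
    · by_cases hNT : NT1 H l
      · rw [if_pos hNT]
        by_cases h7 : (lw l * M) % 7 = 1
        · obtain ⟨hcast, hrest⟩ := back_step hl hM h7
          obtain ⟨hcop, _⟩ := hrest hn
          have IH := ih hcop
          rw [hcast] at IH
          have hfun : (fun v => if PadicInt.toZModPow (n + 1) (Fp (l :: v)) =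
              ((M : ℕ) : ZMod (7 ^ (n + 1))) ∧ NT H (l :: v) ∧ Nb M (l :: v) ∈ T then
              (Wd (l :: v) : ℝ) * g (Nb M (l :: v)) / hh (st (M : ZMod 15) (l :: v)) else 0) =
              (fun v => (lw l : ℝ) * (if PadicInt.toZModPow n (Fp v) =
                (((lw l * M - 1) / 7 : ℕ) : ZMod (7 ^ n)) ∧ NT H v ∧
                  Nb ((lw l * M - 1) / 7) v ∈ T then
                (Wd v : ℝ) * g (Nb ((lw l * M - 1) / 7) v) /
                  hh (st (nx (M : ZMod 15) (lw l)) v) else 0)) := by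
            funext v
            have hNTc : NT H (l :: v) ↔ NT H v := by
              unfold NT
              simp [hNT]
            have hC : (PadicInt.toZModPow (n + 1) (Fp (l :: v)) =
              ((M : ℕ) : ZMod (7 ^ (n + 1))) ∧ NT H (l :: v) ∧ Nb M (l :: v) ∈ T) ↔
              (PadicInt.toZModPow n (Fp v) =
                (((lw l * M - 1) / 7 : ℕ) : ZMod (7 ^ n)) ∧ NT H v ∧
                  Nb ((lw l * M - 1) / 7) v ∈ T) := by
              rw [cong_iff hM0, hNTc]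
              simp only [h7, true_and, Nb]
            by_cases hc : (PadicInt.toZModPow n (Fp v) =
                (((lw l * M - 1) / 7 : ℕ) : ZMod (7 ^ n)) ∧ NT H v ∧
                  Nb ((lw l * M - 1) / 7) v ∈ T)
            · rw [if_pos (hC.2 hc), if_pos hc]
              simp only [Wd, Nb, st, Nat.cast_mul]
              ring
            · rw [if_neg (fun h => hc (hC.1 h)), if_neg hc, mul_zero]
          rw [hfun, Ex_mul_left, if_pos ⟨h7, hn⟩]
          have hw : 0 ≤ wt H l * (lw l : ℝ) := mul_nonneg (wt_nonneg H l) (Nat.cast_nonneg _)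
          calc _ = wt H l * (lw l : ℝ) * (hh (nx (M : ZMod 15) (lw l)) *
                Ex H n (nx (M : ZMod 15) (lw l)) (fun v => if PadicInt.toZModPow n (Fp v) =
                (((lw l * M - 1) / 7 : ℕ) : ZMod (7 ^ n)) ∧ NT H v ∧
                  Nb ((lw l * M - 1) / 7) v ∈ T then
                (Wd v : ℝ) * g (Nb ((lw l * M - 1) / 7) v) /
                  hh (st (nx (M : ZMod 15) (lw l)) v) else 0)) := by
                simp only [pr, smul_eq_mul]
                field_simp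
            _ ≤ _ := mul_le_mul_of_nonneg_left IH hw
        · have hz : (fun v => if PadicInt.toZModPow (n + 1) (Fp (l :: v)) =
              ((M : ℕ) : ZMod (7 ^ (n + 1))) ∧ NT H (l :: v) ∧ Nb M (l :: v) ∈ T then
              (Wd (l :: v) : ℝ) * g (Nb M (l :: v)) / hh (st (M : ZMod 15) (l :: v)) else 0) =
              (fun _ => (0 : ℝ)) := by
            funext v
            rw [if_neg]
            rintro ⟨h, _⟩
            exact h7 ((cong_iff hM0).1 h).1
          rw [hz, Ex_zero_fun, smul_zero, mul_zero, if_neg (fun h => h7 h.1), mul_zero]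
      · rw [if_neg hNT]
        have hz : (fun v => if PadicInt.toZModPow (n + 1) (Fp (l :: v)) =
              ((M : ℕ) : ZMod (7 ^ (n + 1))) ∧ NT H (l :: v) ∧ Nb M (l :: v) ∈ T then
              (Wd (l :: v) : ℝ) * g (Nb M (l :: v)) / hh (st (M : ZMod 15) (l :: v)) else 0) =
              (fun _ => (0 : ℝ)) := by
          funext v
          rw [if_neg]
          rintro ⟨_, h, _⟩
          exact hNT (h l (by simp))
        rw [hz, Ex_zero_fun, smul_zero, mul_zero]
    · rw [pr_eq_zero hn, zero_smul, mul_zero]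
      split_ifs with h1 h2
      · exact absurd h2.2 hn
      · rw [mul_zero]
      · exact le_refl _

end Kak
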