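import Pool.Agent.Lib.Kak.Gain

/-!
# Kak.FL1: the transfer operator gains unless all points are black

PROOF.  Put `c = ε^2/2^15 ≤ 1`.  Induction on `s` (all `m`, `r ∈ UU`, `ξ`).  `s = 0`: `Fb = 1`
(empty condition), both sides 1.  Step `s → s+1`: `TT (s+1) m r ξ 1 = ∑ pr pr rho TT s (m-1) r'' ξ'' 1`
with `TT s (m-1) .. 1 ≤ 1 - c (1 - Fb s (m-1) r'' ξ'') ≤ 1`.
* If `Blk ε m r ξ`: `rho ≤ 1`, so the sum is `≤ ∑ pr pr (1 - c(1 - Fb s (m-1) r'' ξ''))
  = 1 - c (1 - ∑ pr pr Fb s (m-1) r'' ξ'')` and `∑ pr pr Fb s (m-1) r'' ξ'' = Fb (s+1) m r ξ`: for a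
  word `l1 :: l2 :: v`, the condition for `t = 0` is `Blk ε m r ξ` (`Wd [] = 1`, `iv 1 = 1`), the
  condition for `t + 1` is the condition for `t` of the word `v` from `(m-1, r'', ξ'')`
  (`m - (t+1) = (m-1) - t`; `iv (Wd (l1::l2::v')) = iv (lw l1 * lw l2) * iv (Wd v')`).
* If not `Blk ε m r ξ`: `Fb (s+1) m r ξ = 0`, and by `gain` the sum is `≤ ∑ pr pr rho ≤ 1 - c`
  (needs `ε ≤ 1/2`).
-/

open Finset

namespace Kak

namespace FL1Aux

theorem iv_take (ξ : ℤ_[7]) (l1 l2 : Lt) (v : List Lt) :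
    ξ * iv (Wd (l1 :: l2 :: v)) = ξ * iv (lw l1 * lw l2) * iv (Wd v) := by
  have h1 : ¬ 7 ∣ lw l1 * lw l2 := by
    intro h
    rcases (Nat.Prime.dvd_mul (by norm_num)).1 h with h | h
    · exact not_dvd_lw l1 h
    · exact not_dvd_lw l2 h
  have h2 : Wd (l1 :: l2 :: v) = (lw l1 * lw l2) * Wd v := by
    show lw l1 * (lw l2 * Wd v) = _
    ring
  rw [h2, iv_mul h1 (not_dvd_Wd v), mul_assoc]

theorem cond_iff {ε : ℝ} {s m : ℕ} {r : ZMod 15} {ξ : ℤ_[7]} (h : Blk ε m r ξ) (l1 l2 : Lt)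
    (v : List Lt) :
    (∀ t < s + 1, Blk ε (m - t) (st r ((l1 :: l2 :: v).take (2 * t)))
      (ξ * iv (Wd ((l1 :: l2 :: v).take (2 * t))))) ↔
    ∀ t < s, Blk ε (m - 1 - t) (st (nx (nx r (lw l1)) (lw l2)) (v.take (2 * t)))
      (ξ * iv (lw l1 * lw l2) * iv (Wd (v.take (2 * t)))) := by
  have key : ∀ t, (Blk ε (m - (t + 1)) (st r ((l1 :: l2 :: v).take (2 * (t + 1))))
      (ξ * iv (Wd ((l1 :: l2 :: v).take (2 * (t + 1)))))) ↔
      Blk ε (m - 1 - t) (st (nx (nx r (lw l1)) (lw l2)) (v.take (2 * t)))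
        (ξ * iv (lw l1 * lw l2) * iv (Wd (v.take (2 * t)))) := by
    intro t
    have h1 : (l1 :: l2 :: v).take (2 * (t + 1)) = l1 :: l2 :: v.take (2 * t) := by
      rw [show 2 * (t + 1) = 2 * t + 1 + 1 by ring, List.take_succ_cons, List.take_succ_cons]
    have h2 : m - (t + 1) = m - 1 - t := by omega
    rw [h1, iv_take, h2]
    exact Iff.rfl
  constructor
  · intro hA t ht
    exact (key t).1 (hA (t + 1) (by omega))
  · intro hA t ht
    cases t with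
    | zero =>
      have h1 : (l1 :: l2 :: v).take (2 * 0) = [] := rfl
      rw [h1]
      show Blk ε m r (ξ * iv 1)
      rw [iv_one, mul_one]
      exact h
    | succ t => exact (key t).2 (hA t (by omega))

theorem Fb_succ {H : ℕ} {ε : ℝ} {s m : ℕ} {r : ZMod 15} {ξ : ℤ_[7]} (h : Blk ε m r ξ) :
    Fb H ε (s + 1) m r ξ = ∑ l1 ∈ LS H, ∑ l2 ∈ LS H, pr H r l1 * pr H (nx r (lw l1)) l2 *
      Fb H ε s (m - 1) (nx (nx r (lw l1)) (lw l2)) (ξ * iv (lw l1 * lw l2)) := by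
  classical
  unfold Fb PP
  rw [show 2 * (s + 1) = 2 * s + 1 + 1 by ring, Ex_succ]
  refine sum_congr rfl fun l1 _ => ?_
  rw [Ex_succ, smul_eq_mul, mul_sum]
  refine sum_congr rfl fun l2 _ => ?_
  rw [smul_eq_mul, ← mul_assoc]
  congr 1
  refine congrArg (Ex H (2 * s) (nx (nx r (lw l1)) (lw l2))) ?_
  funext v
  simp only [Set.indicator_apply, Set.mem_ofPred_eq]
  rw [if_congr (cond_iff h l1 l2 v) rfl rfl]

theorem Fb_not {H : ℕ} {ε : ℝ} {s m : ℕ} {r : ZMod 15} {ξ : ℤ_[7]} (h : ¬ Blk ε m r ξ) :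
    Fb H ε (s + 1) m r ξ = 0 := by
  classical
  unfold Fb PP
  have h1 : {v : List Lt | ∀ t < s + 1,
      Blk ε (m - t) (st r (v.take (2 * t))) (ξ * iv (Wd (v.take (2 * t))))} = ∅ := by
    ext v
    simp only [Set.mem_ofPred_eq, Set.mem_empty_iff_false, iff_false]
    intro hA
    have h2 := hA 0 (by omega)
    have h3 : v.take (2 * 0) = [] := by simp
    rw [h3] at h2
    apply h
    have h4 : ξ * iv (Wd []) = ξ := by
      show ξ * iv 1 = ξ
      rw [iv_one, mul_one]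
    rw [h4] at h2
    exact h2
  rw [h1]
  simp only [Set.indicator_empty]
  exact Ex_zero_fun H _ r

theorem sum_prpr {H : ℕ} (hH : 2 ≤ H) {r : ZMod 15} (hr : r ∈ UU) :
    ∑ l1 ∈ LS H, ∑ l2 ∈ LS H, pr H r l1 * pr H (nx r (lw l1)) l2 = 1 := by
  have h1 : ∀ l1 ∈ LS H, ∑ l2 ∈ LS H, pr H r l1 * pr H (nx r (lw l1)) l2 = pr H r l1 := by
    intro l1 _
    rw [← mul_sum]
    by_cases hl : nx r (lw l1) ∈ UU
    · rw [pr_sum hH hl, mul_one]
    · rw [pr_eq_zero hl, zero_mul]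
  rw [sum_congr rfl h1, pr_sum hH hr]

theorem TT_succ (H s m : ℕ) (r : ZMod 15) (ξ : ℤ_[7]) (g : ZMod 15 → ℤ_[7] → ℝ) :
    TT H (s + 1) m r ξ g = ∑ l1 ∈ LS H, ∑ l2 ∈ LS H,
      pr H r l1 * pr H (nx r (lw l1)) l2 * rho m ξ l1 l2 *
        TT H s (m - 1) (nx (nx r (lw l1)) (lw l2)) (ξ * iv (lw l1 * lw l2)) g := rfl

end FL1Aux

open FL1Aux

theorem TT_gain {H : ℕ} (hH : 2 ≤ H) {ε : ℝ} (h0 : 0 < ε) (h1 : ε ≤ 1 / 2) (s m : ℕ)
    {r : ZMod 15} (hr : r ∈ UU) (ξ : ℤ_[7]) :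
    TT H s m r ξ (fun _ _ => 1) ≤ 1 - ε ^ 2 / 2 ^ 15 * (1 - Fb H ε s m r ξ) := by
  induction s generalizing m r ξ with
  | zero =>
    have h2 : Fb H ε 0 m r ξ = 1 := by
      unfold Fb
      have h3 : {v : List Lt | ∀ t < 0,
          Blk ε (m - t) (st r (v.take (2 * t))) (ξ * iv (Wd (v.take (2 * t))))} = Set.univ := by
        ext v
        simp
      rw [h3, PP_univ hH _ hr]
    rw [h2, sub_self, mul_zero, sub_zero]
    exact le_refl _
  | succ s ih =>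
    have hc : 0 ≤ ε ^ 2 / 2 ^ 15 := by positivity
    generalize hcd : ε ^ 2 / 2 ^ 15 = c at hc ih ⊢
    by_cases hB : Blk ε m r ξ
    · rw [Fb_succ hB, TT_succ]
      have hterm : ∀ l1 ∈ LS H, ∀ l2 ∈ LS H,
          pr H r l1 * pr H (nx r (lw l1)) l2 * rho m ξ l1 l2 *
            TT H s (m - 1) (nx (nx r (lw l1)) (lw l2)) (ξ * iv (lw l1 * lw l2)) (fun _ _ => 1) ≤
          (1 - c) * (pr H r l1 * pr H (nx r (lw l1)) l2) +
            c * (pr H r l1 * pr H (nx r (lw l1)) l2 *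
              Fb H ε s (m - 1) (nx (nx r (lw l1)) (lw l2)) (ξ * iv (lw l1 * lw l2))) := by
        intro l1 _ l2 _
        by_cases hl : nx (nx r (lw l1)) (lw l2) ∈ UU
        · have h2 := ih (m - 1) hl (ξ * iv (lw l1 * lw l2))
          have h3 : 0 ≤ TT H s (m - 1) (nx (nx r (lw l1)) (lw l2)) (ξ * iv (lw l1 * lw l2))
              (fun _ _ => 1) := TT_nonneg fun _ _ => zero_le_one
          have h4 : 0 ≤ pr H r l1 * pr H (nx r (lw l1)) l2 :=
            mul_nonneg (pr_nonneg _ _ _) (pr_nonneg _ _ _)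
          have h5 : rho m ξ l1 l2 * TT H s (m - 1) (nx (nx r (lw l1)) (lw l2))
              (ξ * iv (lw l1 * lw l2)) (fun _ _ => 1) ≤
              1 - c * (1 - Fb H ε s (m - 1) (nx (nx r (lw l1)) (lw l2)) (ξ * iv (lw l1 * lw l2))) :=
            (mul_le_of_le_one_left h3 (rho_le_one _ _ _ _)).trans h2
          have h6 := mul_le_mul_of_nonneg_left h5 h4
          calc pr H r l1 * pr H (nx r (lw l1)) l2 * rho m ξ l1 l2 *
                TT H s (m - 1) (nx (nx r (lw l1)) (lw l2)) (ξ * iv (lw l1 * lw l2)) (fun _ _ => 1)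
              = pr H r l1 * pr H (nx r (lw l1)) l2 * (rho m ξ l1 l2 *
                TT H s (m - 1) (nx (nx r (lw l1)) (lw l2)) (ξ * iv (lw l1 * lw l2))
                  (fun _ _ => 1)) := by ring
            _ ≤ pr H r l1 * pr H (nx r (lw l1)) l2 * (1 - c * (1 -
                Fb H ε s (m - 1) (nx (nx r (lw l1)) (lw l2)) (ξ * iv (lw l1 * lw l2)))) := h6
            _ = _ := by ring
        · rw [pr_eq_zero (H := H) (r := nx r (lw l1)) hl]
          simp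
      refine (sum_le_sum fun l1 h1 => sum_le_sum fun l2 h2 => hterm l1 h1 l2 h2).trans ?_
      have h7 : ∑ l1 ∈ LS H, ∑ l2 ∈ LS H, ((1 - c) * (pr H r l1 * pr H (nx r (lw l1)) l2) +
            c * (pr H r l1 * pr H (nx r (lw l1)) l2 *
              Fb H ε s (m - 1) (nx (nx r (lw l1)) (lw l2)) (ξ * iv (lw l1 * lw l2)))) =
          (1 - c) * (∑ l1 ∈ LS H, ∑ l2 ∈ LS H, pr H r l1 * pr H (nx r (lw l1)) l2) +
            c * (∑ l1 ∈ LS H, ∑ l2 ∈ LS H, pr H r l1 * pr H (nx r (lw l1)) l2 *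
              Fb H ε s (m - 1) (nx (nx r (lw l1)) (lw l2)) (ξ * iv (lw l1 * lw l2))) := by
        simp only [sum_add_distrib, mul_sum]
      rw [h7, sum_prpr hH hr]
      linarith
    · rw [Fb_not hB, TT_succ, sub_zero, mul_one]
      have hg := gain hH h0 h1 hr hB
      rw [hcd] at hg
      refine le_trans (sum_le_sum fun l1 _ => sum_le_sum fun l2 _ => ?_) hg
      by_cases hl : nx (nx r (lw l1)) (lw l2) ∈ UU
      · refine mul_le_of_le_one_right ?_ (TT_le_one hH _ _ hl _)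
        exact mul_nonneg (mul_nonneg (pr_nonneg _ _ _) (pr_nonneg _ _ _)) (rho_nonneg _ _ _ _)
      · rw [pr_eq_zero (H := H) (r := nx r (lw l1)) hl]
        simp

end Kak
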