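import Pool.Agent.Lib.Kak.TOp

/-!
# Kak.QRec: the characteristic function is bounded by `QQ`

PROOF.  Induction on `m` (all `r ∈ UU`, all `ξ`).  `m = 0`: both sides: `‖ph 0 _ * φ‖ ≤ 1 = QQ H 0`.
Step: expand two letters (`Ex_succ` twice):
`Phi H (2m+2) r ξ φ = ∑_{l1,l2} pr pr Ex H (2m) r'' (v ↦ ph(2m+2)(ξ Fp(l1::l2::v)) φ(..))` and
`Fp (l1 :: l2 :: v) = iv (lw l1) + 7 iv (lw l1) iv (lw l2) + 49 iv (lw l1) iv (lw l2) Fp v`, so (with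
`ph_add`, `ph_level` for the factor 49) the inner expectation is
`e(l1,l2) * Phi H (2m) r'' (ξ iv (lw l1 * lw l2)) φ`, with
`e(l1,l2) = ph(2m+2)(ξ iv(lw l1)) * ph(2m+2)(7 ξ iv (lw l1 * lw l2))`.
Call `(l1,l2)` a swap pair if `(t1,t2) = (1,2)` or `(2,1)` (`t_i = l_i.1.2`), and let `σ` be the
involution on the swap pairs (inside `LS H`) exchanging the values of `t1` and `t2`
(`l_i` keep the other data).  For a swap pair the product `lw l1 * lw l2 = 16 w0 l1 w0 l2` is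
unchanged by `σ`, the states `nx r (lw l1)` and `r''` are unchanged (`16 = 1` mod 15), and
`pr * pr` is unchanged (`w2 H 1 = w2 H 2`, `H ≥ 2`); the numbers `lw l1` are `w0 l1` (`t1 = 1`)
and `16 w0 l1` (`t1 = 2`).  So the sum over the two elements of the orbit of the terms is
`pr pr Phi'' ph(7 ξ iv(...)) (ph(ξ iv (w0 l1)) + ph(ξ iv(16 w0 l1)))`, of absolute value
`≤ pr pr |Phi''| ‖1 + ph(2m+2)(15 ξ iv(16 w0 l1))‖` because
`iv (w0) - iv (16 w0) = 15 iv (16 w0)`; this is `pr pr rho Phi''` summed over the two elements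
of the orbit.  The other pairs are bounded trivially (`rho = 1`).  Conclude with the induction
hypothesis `|Phi''| ≤ QQ H m r'' ξ''`, which is the recursion of `QQ H (m+1) = TT H (m+1) (m+1) 1`.
(If `r'' ∉ UU` then `pr = 0`.)
-/

open Finset

namespace Kak

namespace QRecAux

/-- exchange of the values of `t` -/
private def sw (p : Lt × Lt) : Lt × Lt :=
  (((p.1.1.1, p.2.1.2), p.1.2), ((p.2.1.1, p.1.1.2), p.2.2))

private theorem sw_sw (p : Lt × Lt) : sw (sw p) = p := rfl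

private theorem sw_mem {H : ℕ} {p : Lt × Lt} (hp : p ∈ LS H ×ˢ LS H) : sw p ∈ LS H ×ˢ LS H := by
  obtain ⟨⟨⟨a1, t1⟩, q1⟩, ⟨⟨a2, t2⟩, q2⟩⟩ := p
  simp only [LS, mem_product, sw] at hp ⊢
  tauto

/-- the term of a pair of letters -/
private noncomputable def FF (H m : ℕ) (r : ZMod 15) (ξ : ℤ_[7]) (φ : ZMod 15 → ℂ)
    (p : Lt × Lt) : ℂ :=
  ((pr H r p.1 * pr H (nx r (lw p.1)) p.2 : ℝ) : ℂ) *
    (ph (2 * (m + 1)) (ξ * iv (lw p.1)) * ph (2 * (m + 1)) (7 * (ξ * iv (lw p.1 * lw p.2))) *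
      Phi H (2 * m) (nx (nx r (lw p.1)) (lw p.2)) (ξ * iv (lw p.1 * lw p.2)) φ)

private noncomputable def GG (H m : ℕ) (r : ZMod 15) (ξ : ℤ_[7])
    (p : Lt × Lt) : ℝ :=
  pr H r p.1 * pr H (nx r (lw p.1)) p.2 * rho (m + 1) ξ p.1 p.2 *
    QQ H m (nx (nx r (lw p.1)) (lw p.2)) (ξ * iv (lw p.1 * lw p.2))

private theorem Fp_cons2 (l1 l2 : Lt) (v : List Lt) :
    Fp (l1 :: l2 :: v) = iv (lw l1) + 7 * (iv (lw l1 * lw l2)) +
      7 ^ 2 * (iv (lw l1 * lw l2) * Fp v) := by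
  have h : Fp (l1 :: l2 :: v) = (1 + 7 * ((1 + 7 * Fp v) * iv (lw l2))) * iv (lw l1) := rfl
  rw [h, iv_mul (not_dvd_lw l1) (not_dvd_lw l2)]
  ring

private theorem inner_eq (H m : ℕ) (ξ : ℤ_[7]) (φ : ZMod 15 → ℂ) (l1 l2 : Lt)
    (s : ZMod 15) :
    Ex H (2 * m) s (fun v => ph (2 * (m + 1)) (ξ * Fp (l1 :: l2 :: v)) * φ (st s v)) =
      ph (2 * (m + 1)) (ξ * iv (lw l1)) * ph (2 * (m + 1)) (7 * (ξ * iv (lw l1 * lw l2))) *
        Phi H (2 * m) s (ξ * iv (lw l1 * lw l2)) φ := by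
  have h := Ex_map H (2 * m) s (LinearMap.mulLeft ℝ
    (ph (2 * (m + 1)) (ξ * iv (lw l1)) * ph (2 * (m + 1)) (7 * (ξ * iv (lw l1 * lw l2)))))
    (fun v => ph (2 * m) (ξ * iv (lw l1 * lw l2) * Fp v) * φ (st s v))
  simp only [LinearMap.mulLeft_apply] at h
  rw [Phi, h]
  congr 1
  funext v
  rw [Fp_cons2]
  have e1 : ξ * (iv (lw l1) + 7 * (iv (lw l1 * lw l2)) + 7 ^ 2 * (iv (lw l1 * lw l2) * Fp v)) =
      ξ * iv (lw l1) + 7 * (ξ * iv (lw l1 * lw l2)) +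
        7 ^ 2 * (ξ * iv (lw l1 * lw l2) * Fp v) := by ring
  rw [e1, ph_add, ph_add, ph_level (by omega)]
  have e2 : 2 * (m + 1) - 2 = 2 * m := by omega
  rw [e2]
  ring

private theorem Phi_step (H m : ℕ) (r : ZMod 15) (ξ : ℤ_[7]) (φ : ZMod 15 → ℂ) :
    Phi H (2 * (m + 1)) r ξ φ = ∑ p ∈ LS H ×ˢ LS H, FF H m r ξ φ p := by
  rw [sum_product]
  have e : Phi H (2 * (m + 1)) r ξ φ =
      ∑ l1 ∈ LS H, pr H r l1 • ∑ l2 ∈ LS H, pr H (nx r (lw l1)) l2 •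
        Ex H (2 * m) (nx (nx r (lw l1)) (lw l2))
          (fun v => ph (2 * (m + 1)) (ξ * Fp (l1 :: l2 :: v)) *
            φ (st (nx (nx r (lw l1)) (lw l2)) v)) := rfl
  rw [e]
  refine sum_congr rfl fun l1 _ => ?_
  rw [smul_sum]
  refine sum_congr rfl fun l2 _ => ?_
  rw [inner_eq H m]
  simp only [FF, Complex.real_smul]
  push_cast
  ring

private theorem QQ_step (H m : ℕ) (r : ZMod 15) (ξ : ℤ_[7]) :
    QQ H (m + 1) r ξ = ∑ p ∈ LS H ×ˢ LS H, GG H m r ξ p := by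
  rw [sum_product]
  rfl

private theorem norm_FF (H m : ℕ) (r : ZMod 15) (ξ : ℤ_[7]) (φ : ZMod 15 → ℂ) (p : Lt × Lt) :
    ‖FF H m r ξ φ p‖ = pr H r p.1 * pr H (nx r (lw p.1)) p.2 *
      ‖Phi H (2 * m) (nx (nx r (lw p.1)) (lw p.2)) (ξ * iv (lw p.1 * lw p.2)) φ‖ := by
  rw [FF, norm_mul, norm_mul, norm_mul, norm_ph, norm_ph, Complex.norm_real,
    Real.norm_of_nonneg (mul_nonneg (pr_nonneg _ _ _) (pr_nonneg _ _ _))]
  ring

/-- bound with the induction hypothesis, also if the state is not a unit -/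
private theorem pr_mul_le {H m : ℕ} {r : ZMod 15} {ξ : ℤ_[7]} {φ : ZMod 15 → ℂ} {p : Lt × Lt}
    (ih : ∀ {r : ZMod 15}, r ∈ UU → ∀ ξ : ℤ_[7], ‖Phi H (2 * m) r ξ φ‖ ≤ QQ H m r ξ) :
    pr H r p.1 * pr H (nx r (lw p.1)) p.2 *
      ‖Phi H (2 * m) (nx (nx r (lw p.1)) (lw p.2)) (ξ * iv (lw p.1 * lw p.2)) φ‖ ≤
    pr H r p.1 * pr H (nx r (lw p.1)) p.2 *
      QQ H m (nx (nx r (lw p.1)) (lw p.2)) (ξ * iv (lw p.1 * lw p.2)) := by
  by_cases h : nx (nx r (lw p.1)) (lw p.2) ∈ UU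
  · exact mul_le_mul_of_nonneg_left (ih h _) (mul_nonneg (pr_nonneg _ _ _) (pr_nonneg _ _ _))
  · rw [pr_eq_zero h]; simp

private theorem w2_one (H : ℕ) (hH : 2 ≤ H) : w2 H 2 = w2 H 1 := by
  unfold w2
  have h1 : ¬ (2 = H + 1) := by omega
  simp [h1]

/-- data of a pair of 2-coins `(1, 2)` and of its exchange -/
private theorem swap_data {H : ℕ} (hH : 2 ≤ H) (r : ZMod 15) (a : ℕ) (q : (ℕ × ℕ) × (ℕ × ℕ)) :
    lw ((a, 2), q) = 16 * lw ((a, 1), q) ∧ w0 ((a, 2), q) = w0 ((a, 1), q) ∧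
    lw ((a, 1), q) = w0 ((a, 1), q) ∧ nx r (lw ((a, 2), q)) = nx r (lw ((a, 1), q)) ∧
    pr H r ((a, 2), q) = pr H r ((a, 1), q) := by
  have h1 : lw ((a, 2), q) = 16 * lw ((a, 1), q) := by
    simp only [lw, la, lb, lc]
    rw [pow_add]
    norm_num
    ring
  have h3 : lw ((a, 1), q) = w0 ((a, 1), q) := by
    simp only [lw, w0, la, lb, lc]
    simp
  have h4 : nx r (lw ((a, 2), q)) = nx r (lw ((a, 1), q)) := by
    rw [h1]
    simp only [nx, Nat.cast_mul]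
    have : ((16 : ℕ) : ZMod 15) = 1 := by decide
    rw [this, one_mul]
  refine ⟨h1, rfl, h3, h4, ?_⟩
  rw [pr, pr, h4]
  have : wt H ((a, 2), q) = wt H ((a, 1), q) := by
    simp only [wt]
    rw [w2_one H hH]
  rw [this]

/-- bound for the sum over the orbit of a pair of 2-coins with the values `(1, 2)` -/
private theorem swap_bd {H m : ℕ} (hH : 2 ≤ H) (r : ZMod 15) (ξ : ℤ_[7]) (φ : ZMod 15 → ℂ)
    (ih : ∀ {r : ZMod 15}, r ∈ UU → ∀ ξ : ℤ_[7], ‖Phi H (2 * m) r ξ φ‖ ≤ QQ H m r ξ)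
    (a1 a2 : ℕ) (q1 q2 : (ℕ × ℕ) × (ℕ × ℕ)) :
    ‖FF H m r ξ φ (((a1, 1), q1), ((a2, 2), q2)) + FF H m r ξ φ (((a1, 2), q1), ((a2, 1), q2))‖ ≤
      GG H m r ξ (((a1, 1), q1), ((a2, 2), q2)) + GG H m r ξ (((a1, 2), q1), ((a2, 1), q2)) := by
  obtain ⟨h1, h2, h3, h4, h5⟩ := swap_data hH r a1 q1
  obtain ⟨k1, k2, k3, k4, k5⟩ := swap_data hH (nx r (lw ((a1, 1), q1))) a2 q2
  set W := lw ((a1, 1), q1) with hW
  set V := lw ((a2, 1), q2) with hV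
  have hWV : 16 * W * V = W * (16 * V) := by ring
  have h7 : ¬ 7 ∣ 16 := by norm_num
  have hW7 : ¬ 7 ∣ W := not_dvd_lw _
  have hiv : iv W = 16 * iv (16 * W) := by
    rw [iv_mul h7 hW7]
    have := iv_spec h7
    push_cast at this
    rw [← mul_assoc, this, one_mul]
  -- the terms
  have eF1 : FF H m r ξ φ (((a1, 1), q1), ((a2, 2), q2)) =
      ((pr H r ((a1, 1), q1) * pr H (nx r W) ((a2, 1), q2) : ℝ) : ℂ) *
        (ph (2 * (m + 1)) (ξ * iv W) * ph (2 * (m + 1)) (7 * (ξ * iv (W * (16 * V)))) *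
      Phi H (2 * m) (nx (nx r W) V) (ξ * iv (W * (16 * V))) φ) := by
    simp only [FF]
    rw [← hW, k5, k4, k1]
  have eF2 : FF H m r ξ φ (((a1, 2), q1), ((a2, 1), q2)) =
      ((pr H r ((a1, 1), q1) * pr H (nx r W) ((a2, 1), q2) : ℝ) : ℂ) *
        (ph (2 * (m + 1)) (ξ * iv (16 * W)) * ph (2 * (m + 1)) (7 * (ξ * iv (W * (16 * V)))) *
      Phi H (2 * m) (nx (nx r W) V) (ξ * iv (W * (16 * V))) φ) := by
    simp only [FF]
    rw [← hV, h4, h5, h1, hWV]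
  have eG1 : GG H m r ξ (((a1, 1), q1), ((a2, 2), q2)) =
      pr H r ((a1, 1), q1) * pr H (nx r W) ((a2, 1), q2) *
        (‖1 + ph (2 * (m + 1)) (15 * ξ * iv (16 * W))‖ / 2) *
      QQ H m (nx (nx r W) V) (ξ * iv (W * (16 * V))) := by
    simp only [GG]
    rw [← hW, k5, k4, k1]
    simp only [rho]
    rw [if_pos (Or.inl ⟨trivial, trivial⟩), ← h3]
  have eG2 : GG H m r ξ (((a1, 2), q1), ((a2, 1), q2)) =
      pr H r ((a1, 1), q1) * pr H (nx r W) ((a2, 1), q2) *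
        (‖1 + ph (2 * (m + 1)) (15 * ξ * iv (16 * W))‖ / 2) *
      QQ H m (nx (nx r W) V) (ξ * iv (W * (16 * V))) := by
    simp only [GG]
    rw [← hV, h4, h5, h1, hWV]
    simp only [rho]
    rw [if_pos (Or.inr ⟨trivial, trivial⟩), h2, ← h3]
  have hph : ph (2 * (m + 1)) (ξ * iv W) =
      ph (2 * (m + 1)) (ξ * iv (16 * W)) * ph (2 * (m + 1)) (15 * ξ * iv (16 * W)) := by
    rw [← ph_add, hiv]
    congr 1
    ring
  rw [eF1, eF2, eG1, eG2, hph]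
  set P : ℝ := pr H r ((a1, 1), q1) * pr H (nx r W) ((a2, 1), q2) with hP
  have hP0 : 0 ≤ P := mul_nonneg (pr_nonneg _ _ _) (pr_nonneg _ _ _)
  have hPl : P * ‖Phi H (2 * m) (nx (nx r W) V) (ξ * iv (W * (16 * V))) φ‖ ≤
      P * QQ H m (nx (nx r W) V) (ξ * iv (W * (16 * V))) := by
    by_cases h : nx (nx r W) V ∈ UU
    · exact mul_le_mul_of_nonneg_left (ih h _) hP0
    · rw [hP, pr_eq_zero (r := nx r W) (l := ((a2, 1), q2)) h]; simp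
  set A := ph (2 * (m + 1)) (ξ * iv (16 * W)) with hA
  set B := ph (2 * (m + 1)) (15 * ξ * iv (16 * W)) with hB
  set C := ph (2 * (m + 1)) (7 * (ξ * iv (W * (16 * V)))) with hC
  set Z := Phi H (2 * m) (nx (nx r W) V) (ξ * iv (W * (16 * V))) φ with hZ
  set Q := QQ H m (nx (nx r W) V) (ξ * iv (W * (16 * V))) with hQ
  have e : (P : ℂ) * (A * B * C * Z) + (P : ℂ) * (A * C * Z) = (P : ℂ) * Z * (A * C) * (1 + B) := by
    ring
  rw [e, norm_mul, norm_mul, norm_mul, norm_mul, norm_ph, norm_ph, Complex.norm_real,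
    Real.norm_of_nonneg hP0]
  have := mul_le_mul_of_nonneg_right hPl (norm_nonneg (1 + B))
  nlinarith [this]

private theorem pair_bd {H m : ℕ} (hH : 2 ≤ H) (r : ZMod 15) (ξ : ℤ_[7]) (φ : ZMod 15 → ℂ)
    (ih : ∀ {r : ZMod 15}, r ∈ UU → ∀ ξ : ℤ_[7], ‖Phi H (2 * m) r ξ φ‖ ≤ QQ H m r ξ)
    (p : Lt × Lt) :
    ‖FF H m r ξ φ p + FF H m r ξ φ (sw p)‖ ≤ GG H m r ξ p + GG H m r ξ (sw p) := by
  obtain ⟨⟨⟨a1, t1⟩, q1⟩, ⟨⟨a2, t2⟩, q2⟩⟩ := p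
  by_cases h : (t1 = 1 ∧ t2 = 2) ∨ (t1 = 2 ∧ t2 = 1)
  · rcases h with ⟨rfl, rfl⟩ | ⟨rfl, rfl⟩
    · exact swap_bd hH r ξ φ ih a1 a2 q1 q2
    · have := swap_bd hH r ξ φ ih a1 a2 q1 q2
      rw [add_comm (FF H m r ξ φ _), add_comm (GG H m r ξ _)]
      exact this
  · have h' : ¬ ((t2 = 1 ∧ t1 = 2) ∨ (t2 = 2 ∧ t1 = 1)) := by tauto
    have one : ∀ p : Lt × Lt, ¬ ((p.1.1.2 = 1 ∧ p.2.1.2 = 2) ∨ (p.1.1.2 = 2 ∧ p.2.1.2 = 1)) →
        ‖FF H m r ξ φ p‖ ≤ GG H m r ξ p := by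
      intro p hp
      rw [norm_FF, GG, rho, if_neg hp, mul_one]
      exact pr_mul_le ih
    exact (norm_add_le _ _).trans (add_le_add (one _ h) (one _ h'))

end QRecAux

open QRecAux in
theorem Phi_le_QQ {H : ℕ} (hH : 2 ≤ H) (m : ℕ) {r : ZMod 15} (hr : r ∈ UU) (ξ : ℤ_[7])
    (φ : ZMod 15 → ℂ) (hφ : ∀ s, ‖φ s‖ ≤ 1) : ‖Phi H (2 * m) r ξ φ‖ ≤ QQ H m r ξ := by
  induction m generalizing r ξ with
  | zero =>
    have h1 : Phi H (2 * 0) r ξ φ = ph 0 (ξ * Fp []) * φ r := rfl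
    have h2 : QQ H 0 r ξ = 1 := rfl
    rw [h1, h2, norm_mul, norm_ph, one_mul]
    exact hφ r
  | succ m ih =>
    have ih' : ∀ {r : ZMod 15}, r ∈ UU → ∀ ξ : ℤ_[7], ‖Phi H (2 * m) r ξ φ‖ ≤ QQ H m r ξ :=
      fun h ξ => ih h ξ
    rw [Phi_step, QQ_step]
    have hF : ∑ p ∈ LS H ×ˢ LS H, FF H m r ξ φ (sw p) = ∑ p ∈ LS H ×ˢ LS H, FF H m r ξ φ p :=
      sum_nbij' sw sw (fun p hp => sw_mem hp) (fun p hp => sw_mem hp) (fun p _ => sw_sw p)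
        (fun p _ => sw_sw p) (fun p _ => rfl)
    have hG : ∑ p ∈ LS H ×ˢ LS H, GG H m r ξ (sw p) = ∑ p ∈ LS H ×ˢ LS H, GG H m r ξ p :=
      sum_nbij' sw sw (fun p hp => sw_mem hp) (fun p hp => sw_mem hp) (fun p _ => sw_sw p)
        (fun p _ => sw_sw p) (fun p _ => rfl)
    have h1 : ‖∑ p ∈ LS H ×ˢ LS H, (FF H m r ξ φ p + FF H m r ξ φ (sw p))‖ ≤
        ∑ p ∈ LS H ×ˢ LS H, (GG H m r ξ p + GG H m r ξ (sw p)) :=
      (norm_sum_le _ _).trans (sum_le_sum fun p _ => pair_bd hH r ξ φ ih' p)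
    rw [sum_add_distrib, sum_add_distrib, hF, hG, ← two_mul, ← two_mul, norm_mul] at h1
    have h2 : ‖(2 : ℂ)‖ = 2 := by simp
    rw [h2] at h1
    linarith

end Kak
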