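import Pool.Agent.Lib.Kak.ExBasic

/-!
# Kak.KernGrow: one-step exponential moments

PROOFS.  Use `nx_letter` and `base_sum` with `A t = x^(t-1)` etc.

* `grow_step`: on the letter `((a,t),((b,u),(c,k)))` one has
  `1/√(lw l) = (1/√2)^a (1/4)^(t-1) (1/√3)^b (1/9)^(u-1) (1/√5)^c (1/5)^k`.  By `sum_w2_geo` with
  `x = 1/4`, `sum_w3_geo` with `x = 1/9`, `sum_w5_geo` with `x = 1/5`, the three inner sums are
  (decreasing in `H`, so at most their value at `H = 2`)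
  `A ≤ 1 + 1/64 + (16/15)/4096`, `B ≤ 1 + 1/729 + (81/80)/729^2`, `C ≤ 1 + 1/125 + (25/24)/15625`.
  (To see this: `∑_{k<H} y^k + c y^H` changes by `y^H (1 + c y - c) ≤ 0` from `H` to `H+1` iff
  `c (1 - y) ≥ 1`, true for `(c, y) = (16/15, 1/64), (81/80, 1/729), (25/24, 1/125)`.)
  Then use `1/√2 ≤ 0.70711`, `1/√3 ≤ 0.57736`, `1/√5 ≤ 0.44722`, `√7 ≤ 2.64576` and check
  for each of the 8 states `r` (sum of 60 terms)
  `∑_{a,b,c} (0.70711/2)^a A (1 or (0.57736/3)^b B) (1 or (0.44722/5)^c C) VN(nx r (2^a 3^b 5^c))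
    * 2.64576 ≤ 0.91 * VN r`
  (numerically the quotients are .90816, .89695, .89079, .90363, .89272, .90195, .89867, .90967 for
  r = 1,2,4,7,8,11,13,14).
* `sqrt_step`: the same with `√(lw l) = √2^a 4^(t-1) √3^b 9^(u-1) √5^c 5^k`, inner sums
  `∑ 4^(-k)` (at most 4/3), at most 9/8, at most 5/4, and `√2 ≤ 1.4143`, `√3 ≤ 1.7321`,
  `√5 ≤ 2.2361`; the values of the sum divided by `hh r` are at most 8.75.
* `pow34_step`: crude bound: `pr ≤ 2 wt` (since `hh s / hh r ≤ 2`), and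
  `(lw l)^(3/4) = √(lw l) √√(lw l)`; `∑_l wt l (lw l)^(3/4)` is a product of three sums bounded
  by constants independent of `H` (terms `2^(-a/4)`, with the top letter `(16/15) 16^(-H) 8^H`).
-/

open Finset

namespace Kak

namespace KernGrowAux

theorem mem_aux {H : ℕ} {l : Lt} (h : l ∈ LS H) :
    (l.2.1.1 = 0 → l.2.1.2 = 0) ∧ (l.2.2.1 = 0 → l.2.2.2 = 0) := by
  unfold LS at h
  rw [Finset.mem_product] at h
  have h23 := h.2
  rw [Finset.mem_product, Finset.mem_insert, Finset.mem_insert] at h23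
  obtain ⟨h2, h3⟩ := h23
  constructor
  · intro h0
    rcases h2 with h2 | h2
    · rw [h2]
    · rw [Finset.mem_product, Finset.mem_Icc] at h2
      omega
  · intro h0
    rcases h3 with h3 | h3
    · rw [h3]
    · rw [Finset.mem_product, Finset.mem_Icc] at h3
      omega

/-- the general sum -/
theorem gen (H : ℕ) (G : ZMod 15 → ℝ) (r : ZMod 15) (X Y Z p q s : ℝ) :
    ∑ l ∈ LS H, wt H l * (p ^ l.1.1 * X ^ (l.1.2 - 1)) * (q ^ l.2.1.1 * Y ^ (l.2.1.2 - 1)) *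
      (s ^ l.2.2.1 * Z ^ l.2.2.2) * G (nx r (lw l)) =
    ∑ a ∈ Icc 1 4, ∑ b ∈ range 5, ∑ c ∈ range 3,
      ((1 / 2) ^ a * ∑ t ∈ range (H + 2), w2 H t * X ^ (t - 1)) *
      (if b = 0 then 1 else (1 / 3) ^ b * ∑ u ∈ range (H + 2), w3 H u * Y ^ (u - 1)) *
      (if c = 0 then 1 else (1 / 5) ^ c * ∑ k ∈ range (H + 1), w5 H k * Z ^ k) *
      (p ^ a * q ^ b * s ^ c * G (nx r (2 ^ a * 3 ^ b * 5 ^ c))) := by
  rw [← base_sum H (fun t => X ^ (t - 1)) (fun u => Y ^ (u - 1)) (fun k => Z ^ k)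
    (fun a b c => p ^ a * q ^ b * s ^ c * G (nx r (2 ^ a * 3 ^ b * 5 ^ c)))]
  refine Finset.sum_congr rfl fun l hl => ?_
  rw [nx_letter hl]
  obtain ⟨h1, h2⟩ := mem_aux hl
  have e1 : (if l.2.1.1 = 0 then 1 else Y ^ (l.2.1.2 - 1)) = Y ^ (l.2.1.2 - 1) := by
    split_ifs with h
    · rw [h1 h]; simp
    · rfl
  have e2 : (if l.2.2.1 = 0 then 1 else Z ^ l.2.2.2) = Z ^ l.2.2.2 := by
    split_ifs with h
    · rw [h2 h]; simp
    · rfl
  rw [e1, e2]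
  ring

theorem sq_lw (l : Lt) : √(lw l : ℝ) = (√2 ^ l.1.1 * 4 ^ (l.1.2 - 1)) *
    (√3 ^ l.2.1.1 * 9 ^ (l.2.1.2 - 1)) * (√5 ^ l.2.2.1 * 5 ^ l.2.2.2) := by
  rw [Real.sqrt_eq_iff_mul_self_eq (by positivity) (by positivity)]
  have h2 : (√2 : ℝ) ^ 2 = 2 := Real.sq_sqrt (by norm_num)
  have h3 : (√3 : ℝ) ^ 2 = 3 := Real.sq_sqrt (by norm_num)
  have h5 : (√5 : ℝ) ^ 2 = 5 := Real.sq_sqrt (by norm_num)
  have a2 : ((√2 : ℝ) ^ l.1.1) ^ 2 = 2 ^ l.1.1 := by rw [← pow_mul, mul_comm, pow_mul, h2]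
  have a3 : ((√3 : ℝ) ^ l.2.1.1) ^ 2 = 3 ^ l.2.1.1 := by rw [← pow_mul, mul_comm, pow_mul, h3]
  have a5 : ((√5 : ℝ) ^ l.2.2.1) ^ 2 = 5 ^ l.2.2.1 := by rw [← pow_mul, mul_comm, pow_mul, h5]
  have b2 : ((4 : ℝ) ^ (l.1.2 - 1)) ^ 2 = 2 ^ (4 * (l.1.2 - 1)) := by
    rw [← pow_mul, mul_comm, pow_mul, pow_mul]; norm_num
  have b3 : ((9 : ℝ) ^ (l.2.1.2 - 1)) ^ 2 = 3 ^ (4 * (l.2.1.2 - 1)) := by
    rw [← pow_mul, mul_comm, pow_mul, pow_mul]; norm_num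
  have b5 : ((5 : ℝ) ^ l.2.2.2) ^ 2 = 5 ^ (2 * l.2.2.2) := by
    rw [← pow_mul, mul_comm]
  have e : ((lw l : ℕ) : ℝ) = (2 ^ l.1.1 * 2 ^ (4 * (l.1.2 - 1))) *
      (3 ^ l.2.1.1 * 3 ^ (4 * (l.2.1.2 - 1))) * (5 ^ l.2.2.1 * 5 ^ (2 * l.2.2.2)) := by
    unfold lw la lb lc
    push_cast
    rw [pow_add, pow_add, pow_add]
  rw [e, ← a2, ← a3, ← a5, ← b2, ← b3, ← b5]
  ring

theorem geo (y c : ℝ) (hy1 : y < 1) (hc : 1 ≤ c * (1 - y)) (hy0 : 0 ≤ y) {H : ℕ} (hH : 2 ≤ H) :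
    ∑ k ∈ range H, y ^ k + c * y ^ H ≤ 1 + y + c * y ^ 2 := by
  have h1 : (∑ k ∈ range H, y ^ k) * (1 - y) = 1 - y ^ H := geom_sum_mul_neg y H
  have h2 : 0 < 1 - y := by linarith
  have h3 : y ^ H ≤ y ^ 2 := pow_le_pow_of_le_one hy0 hy1.le hH
  have h4 : (∑ k ∈ range H, y ^ k + c * y ^ H) * (1 - y) ≤ (1 + y + c * y ^ 2) * (1 - y) := by
    have e1 : (∑ k ∈ range H, y ^ k + c * y ^ H) * (1 - y) = 1 + (c * (1 - y) - 1) * y ^ H := by
      rw [add_mul, h1]; ring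
    have e2 : (1 + y + c * y ^ 2) * (1 - y) = 1 + (c * (1 - y) - 1) * y ^ 2 := by ring
    rw [e1, e2]
    have := mul_le_mul_of_nonneg_left h3 (by linarith : 0 ≤ c * (1 - y) - 1)
    linarith
  exact le_of_mul_le_mul_right h4 h2

theorem geo' (y c : ℝ) (hy1 : y < 1) (hc : c * (1 - y) ≤ 1) (hy0 : 0 ≤ y) (H : ℕ) :
    ∑ k ∈ range H, y ^ k + c * y ^ H ≤ 1 / (1 - y) := by
  have h1 : (∑ k ∈ range H, y ^ k) * (1 - y) = 1 - y ^ H := geom_sum_mul_neg y H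
  have h2 : 0 < 1 - y := by linarith
  rw [le_div_iff₀ h2, add_mul, h1]
  have h3 : 0 ≤ y ^ H := pow_nonneg hy0 H
  nlinarith

theorem S2nn (H : ℕ) {X : ℝ} (hX : 0 ≤ X) : 0 ≤ ∑ t ∈ range (H + 2), w2 H t * X ^ (t - 1) :=
  Finset.sum_nonneg fun t _ => mul_nonneg (w2_nonneg H t) (pow_nonneg hX _)
theorem S3nn (H : ℕ) {X : ℝ} (hX : 0 ≤ X) : 0 ≤ ∑ t ∈ range (H + 2), w3 H t * X ^ (t - 1) :=
  Finset.sum_nonneg fun t _ => mul_nonneg (w3_nonneg H t) (pow_nonneg hX _)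
theorem S5nn (H : ℕ) {X : ℝ} (hX : 0 ≤ X) : 0 ≤ ∑ t ∈ range (H + 1), w5 H t * X ^ t :=
  Finset.sum_nonneg fun t _ => mul_nonneg (w5_nonneg H t) (pow_nonneg hX _)

/-- comparison with numerical coefficients -/
theorem cmp (H : ℕ) (G : ZMod 15 → ℕ) (r : ZMod 15) {X Y Z p q s : ℝ} (hX : 0 ≤ X) (hY : 0 ≤ Y)
    (hZ : 0 ≤ Z) (hp : 0 ≤ p) (hq : 0 ≤ q) (hs : 0 ≤ s) (al be ga : ℕ → ℕ)
    (h2 : ∀ a ∈ Icc 1 4, ((1 / 2) ^ a * ∑ t ∈ range (H + 2), w2 H t * X ^ (t - 1)) * p ^ a ≤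
      (al a : ℝ) / 10 ^ 7)
    (h3 : ∀ b ∈ range 5, (if b = 0 then 1 else (1 / 3) ^ b *
      ∑ u ∈ range (H + 2), w3 H u * Y ^ (u - 1)) * q ^ b ≤ (be b : ℝ) / 10 ^ 7)
    (h5 : ∀ c ∈ range 3, (if c = 0 then 1 else (1 / 5) ^ c *
      ∑ k ∈ range (H + 1), w5 H k * Z ^ k) * s ^ c ≤ (ga c : ℝ) / 10 ^ 7) :
    ∑ l ∈ LS H, wt H l * (p ^ l.1.1 * X ^ (l.1.2 - 1)) * (q ^ l.2.1.1 * Y ^ (l.2.1.2 - 1)) *
      (s ^ l.2.2.1 * Z ^ l.2.2.2) * (G (nx r (lw l)) : ℝ) ≤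
    ((∑ a ∈ Icc 1 4, ∑ b ∈ range 5, ∑ c ∈ range 3,
      al a * be b * ga c * G (nx r (2 ^ a * 3 ^ b * 5 ^ c)) : ℕ) : ℝ) / 10 ^ 21 := by
  rw [gen H (fun x => (G x : ℝ)) r X Y Z p q s]
  push_cast
  rw [Finset.sum_div]
  refine Finset.sum_le_sum fun a ha => ?_
  rw [Finset.sum_div]
  refine Finset.sum_le_sum fun b hb => ?_
  rw [Finset.sum_div]
  refine Finset.sum_le_sum fun c hc => ?_
  have e1 := h2 a ha
  have e2 := h3 b hb
  have e3 := h5 c hc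
  have n1 : 0 ≤ ((1 / 2) ^ a * ∑ t ∈ range (H + 2), w2 H t * X ^ (t - 1)) * p ^ a :=
    mul_nonneg (mul_nonneg (by positivity) (S2nn H hX)) (pow_nonneg hp _)
  have n2 : 0 ≤ (if b = 0 then 1 else (1 / 3) ^ b *
      ∑ u ∈ range (H + 2), w3 H u * Y ^ (u - 1)) * q ^ b := by
    refine mul_nonneg ?_ (pow_nonneg hq _)
    split_ifs
    · norm_num
    · exact mul_nonneg (by positivity) (S3nn H hY)
  have n3 : 0 ≤ (if c = 0 then 1 else (1 / 5) ^ c *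
      ∑ k ∈ range (H + 1), w5 H k * Z ^ k) * s ^ c := by
    refine mul_nonneg ?_ (pow_nonneg hs _)
    split_ifs
    · norm_num
    · exact mul_nonneg (by positivity) (S5nn H hZ)
  have e4 := mul_le_mul (mul_le_mul e1 e2 n2 (n1.trans e1)) e3 n3
    (mul_nonneg (n1.trans e1) (n2.trans e2))
  have e5 := mul_le_mul_of_nonneg_right e4
    (Nat.cast_nonneg (G (nx r (2 ^ a * 3 ^ b * 5 ^ c))) : (0 : ℝ) ≤ _)
  refine le_trans (le_of_eq ?_) (e5.trans (le_of_eq ?_))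
  · ring
  · ring

def al1 (a : ℕ) : ℕ := if a = 1 then 3591714 else if a = 2 then 1269869 else if a = 3 then 448969
  else 158735
def be1 (b : ℕ) : ℕ := if b = 0 then 10000000 else if b = 1 then 1927177 else if b = 2 then 370892
  else if b = 3 then 71380 else 13738
def ga1 (c : ℕ) : ℕ := if c = 0 then 10000000 else if c = 1 then 901656 else 80648
def al2 (a : ℕ) : ℕ := if a = 1 then 9428667 else if a = 2 then 6667482 else if a = 3 then 4714910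
  else 3334149
def be2 (b : ℕ) : ℕ := if b = 0 then 10000000 else if b = 1 then 6495375 else if b = 2 then 3750214
  else if b = 3 then 2165248 else 1250143
def ga2 (c : ℕ) : ℕ := if c = 0 then 10000000 else if c = 1 then 5590250 else 2500072

theorem num1 : ∀ r ∈ UU, (∑ a ∈ Icc 1 4, ∑ b ∈ range 5, ∑ c ∈ range 3,
      al1 a * be1 b * ga1 c * VN (nx r (2 ^ a * 3 ^ b * 5 ^ c))) * 26457600 ≤
      91 * VN r * 10 ^ 26 := by
  decide +kernel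

theorem num2 : ∀ r ∈ UU, (∑ a ∈ Icc 1 4, ∑ b ∈ range 5, ∑ c ∈ range 3,
      al2 a * be2 b * ga2 c * hN (nx r (2 ^ a * 3 ^ b * 5 ^ c))) ≤
      9 * hN r * 10 ^ 21 := by
  decide +kernel

theorem coef2 {S x y : ℝ} (hS : S ≤ y) (hS0 : 0 ≤ S) {p p' : ℝ} (hp : 0 ≤ p) (hpp : p ≤ p')
    (a : ℕ) (c : ℝ) (hc : 0 ≤ c) (h : c ^ a * y * p' ^ a ≤ x) : c ^ a * S * p ^ a ≤ x := by
  refine le_trans ?_ h
  exact mul_le_mul (mul_le_mul_of_nonneg_left hS (pow_nonneg hc a)) (pow_le_pow_left₀ hp hpp a)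
    (pow_nonneg hp a) (mul_nonneg (pow_nonneg hc a) (hS0.trans hS))

end KernGrowAux

open KernGrowAux

theorem grow_step {H : ℕ} (hH : 2 ≤ H) {r : ZMod 15} (hr : r ∈ UU) :
    ∑ l ∈ LS H, wt H l / √(lw l : ℝ) * (VN (nx r (lw l)) : ℝ) ≤ 91 / 100 / √7 * VN r := by
  have q2 : 1 / √2 ≤ (70711 / 100000 : ℝ) := by
    rw [div_le_iff₀ (by positivity)]
    have : (100000 / 70711 : ℝ) ≤ √2 := Real.le_sqrt_of_sq_le (by norm_num)
    linarith
  have q3 : 1 / √3 ≤ (57736 / 100000 : ℝ) := by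
    rw [div_le_iff₀ (by positivity)]
    have : (100000 / 57736 : ℝ) ≤ √3 := Real.le_sqrt_of_sq_le (by norm_num)
    linarith
  have q5 : 1 / √5 ≤ (44722 / 100000 : ℝ) := by
    rw [div_le_iff₀ (by positivity)]
    have : (100000 / 44722 : ℝ) ≤ √5 := Real.le_sqrt_of_sq_le (by norm_num)
    linarith
  have q7 : √7 ≤ (264576 / 100000 : ℝ) := Real.sqrt_le_iff.2 ⟨by norm_num, by norm_num⟩
  have z2 : 0 ≤ 1 / √2 := by positivity
  have z3 : 0 ≤ 1 / √3 := by positivity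
  have z5 : 0 ≤ 1 / √5 := by positivity
  have SA := geo (1 / 64) (16 / 15) (by norm_num) (by norm_num) (by norm_num) hH
  have SB := geo (1 / 729) (81 / 80) (by norm_num) (by norm_num) (by norm_num) hH
  have SC := geo (1 / 125) (25 / 24) (by norm_num) (by norm_num) (by norm_num) hH
  have A := sum_w2_geo hH (1 / 4)
  have B := sum_w3_geo hH (1 / 9)
  have C := sum_w5_geo H (1 / 5)
  have y2 : (1 / 4 / 16 : ℝ) = 1 / 64 := by norm_num
  have y3 : (1 / 9 / 81 : ℝ) = 1 / 729 := by norm_num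
  have y5 : (1 / 5 / 25 : ℝ) = 1 / 125 := by norm_num
  rw [y2] at A
  rw [y3] at B
  rw [y5] at C
  have key := cmp H VN r (X := 1 / 4) (Y := 1 / 9) (Z := 1 / 5) (by norm_num) (by norm_num)
    (by norm_num) z2 z3 z5 al1 be1 ga1 (by
      intro a ha
      rw [A]
      refine coef2 SA (by positivity) z2 q2 a (1 / 2) (by norm_num) ?_
      rw [mem_Icc] at ha
      obtain ⟨h1, h4⟩ := ha
      interval_cases a <;> norm_num [al1]) (by
      intro b hb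
      split_ifs with h0
      · rw [h0]; norm_num [be1]
      rw [B]
      refine coef2 SB (by positivity) z3 q3 b (1 / 3) (by norm_num) ?_
      rw [mem_range] at hb
      interval_cases b
      · exact absurd rfl h0
      all_goals norm_num [be1]) (by
      intro c hc
      split_ifs with h0
      · rw [h0]; norm_num [ga1]
      rw [C]
      refine coef2 SC (by positivity) z5 q5 c (1 / 5) (by norm_num) ?_
      rw [mem_range] at hc
      interval_cases c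
      · exact absurd rfl h0
      all_goals norm_num [ga1])
  have e : ∑ l ∈ LS H, wt H l / √(lw l : ℝ) * (VN (nx r (lw l)) : ℝ) =
      ∑ l ∈ LS H, wt H l * ((1 / √2) ^ l.1.1 * (1 / 4) ^ (l.1.2 - 1)) *
      ((1 / √3) ^ l.2.1.1 * (1 / 9) ^ (l.2.1.2 - 1)) *
      ((1 / √5) ^ l.2.2.1 * (1 / 5) ^ l.2.2.2) * (VN (nx r (lw l)) : ℝ) := by
    refine Finset.sum_congr rfl fun l _ => ?_
    rw [sq_lw, div_eq_mul_inv]
    simp only [one_div, inv_pow, mul_inv]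
    ring
  rw [e]
  refine key.trans ?_
  have n1 := num1 r hr
  have n2 : ((∑ a ∈ Icc 1 4, ∑ b ∈ range 5, ∑ c ∈ range 3,
      al1 a * be1 b * ga1 c * VN (nx r (2 ^ a * 3 ^ b * 5 ^ c)) : ℕ) : ℝ) * 26457600 ≤
      91 * (VN r : ℝ) * 10 ^ 26 := by exact_mod_cast n1
  generalize ((∑ a ∈ Icc 1 4, ∑ b ∈ range 5, ∑ c ∈ range 3,
      al1 a * be1 b * ga1 c * VN (nx r (2 ^ a * 3 ^ b * 5 ^ c)) : ℕ) : ℝ) = T at n2 ⊢
  have h7 : (100000 / 264576 : ℝ) ≤ 1 / √7 := by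
    rw [le_div_iff₀ (by positivity)]
    linarith
  have hV : (0 : ℝ) ≤ VN r := Nat.cast_nonneg _
  have e2 : 91 / 100 / √7 * (VN r : ℝ) = (91 / 100 * (VN r : ℝ)) * (1 / √7) := by ring
  rw [e2]
  refine le_trans ?_ (mul_le_mul_of_nonneg_left h7 (by positivity))
  linarith

theorem sqrt_step {H : ℕ} (hH : 2 ≤ H) {r : ZMod 15} (hr : r ∈ UU) :
    ∑ l ∈ LS H, pr H r l * √(lw l : ℝ) ≤ 9 := by
  have q2 : √2 ≤ (14143 / 10000 : ℝ) := Real.sqrt_le_iff.2 ⟨by norm_num, by norm_num⟩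
  have q3 : √3 ≤ (17321 / 10000 : ℝ) := Real.sqrt_le_iff.2 ⟨by norm_num, by norm_num⟩
  have q5 : √5 ≤ (22361 / 10000 : ℝ) := Real.sqrt_le_iff.2 ⟨by norm_num, by norm_num⟩
  have z2 : 0 ≤ √2 := by positivity
  have z3 : 0 ≤ √3 := by positivity
  have z5 : 0 ≤ √5 := by positivity
  have SA := geo' (1 / 4) (16 / 15) (by norm_num) (by norm_num) (by norm_num) H
  have SB := geo' (1 / 9) (81 / 80) (by norm_num) (by norm_num) (by norm_num) H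
  have SC := geo' (1 / 5) (25 / 24) (by norm_num) (by norm_num) (by norm_num) H
  have A := sum_w2_geo hH 4
  have B := sum_w3_geo hH 9
  have C := sum_w5_geo H 5
  have y2 : (4 / 16 : ℝ) = 1 / 4 := by norm_num
  have y3 : (9 / 81 : ℝ) = 1 / 9 := by norm_num
  have y5 : (5 / 25 : ℝ) = 1 / 5 := by norm_num
  rw [y2] at A
  rw [y3] at B
  rw [y5] at C
  have key := cmp H hN r (X := 4) (Y := 9) (Z := 5) (by norm_num) (by norm_num)
    (by norm_num) z2 z3 z5 al2 be2 ga2 (by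
      intro a ha
      rw [A]
      refine coef2 SA (by positivity) z2 q2 a (1 / 2) (by norm_num) ?_
      rw [mem_Icc] at ha
      obtain ⟨h1, h4⟩ := ha
      interval_cases a <;> norm_num [al2]) (by
      intro b hb
      split_ifs with h0
      · rw [h0]; norm_num [be2]
      rw [B]
      refine coef2 SB (by positivity) z3 q3 b (1 / 3) (by norm_num) ?_
      rw [mem_range] at hb
      interval_cases b
      · exact absurd rfl h0
      all_goals norm_num [be2]) (by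
      intro c hc
      split_ifs with h0
      · rw [h0]; norm_num [ga2]
      rw [C]
      refine coef2 SC (by positivity) z5 q5 c (1 / 5) (by norm_num) ?_
      rw [mem_range] at hc
      interval_cases c
      · exact absurd rfl h0
      all_goals norm_num [ga2])
  have hrp := hh_pos hr
  have e : ∑ l ∈ LS H, pr H r l * √(lw l : ℝ) =
      (∑ l ∈ LS H, wt H l * (√2 ^ l.1.1 * 4 ^ (l.1.2 - 1)) *
      (√3 ^ l.2.1.1 * 9 ^ (l.2.1.2 - 1)) *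
      (√5 ^ l.2.2.1 * 5 ^ l.2.2.2) * (hN (nx r (lw l)) : ℝ)) / hh r := by
    rw [Finset.sum_div]
    refine Finset.sum_congr rfl fun l _ => ?_
    rw [sq_lw]
    unfold pr
    show _ = _ * hh (nx r (lw l)) / hh r
    ring
  rw [e, div_le_iff₀ hrp]
  refine key.trans ?_
  have n1 := num2 r hr
  have n2 : ((∑ a ∈ Icc 1 4, ∑ b ∈ range 5, ∑ c ∈ range 3,
      al2 a * be2 b * ga2 c * hN (nx r (2 ^ a * 3 ^ b * 5 ^ c)) : ℕ) : ℝ) ≤
      9 * (hN r : ℝ) * 10 ^ 21 := by exact_mod_cast n1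
  rw [div_le_iff₀ (by positivity)]
  exact n2

theorem pow34_step : ∃ C : ℝ, 1 ≤ C ∧ ∀ H, 2 ≤ H → ∀ r ∈ UU,
    ∑ l ∈ LS H, pr H r l * (√(lw l : ℝ) * √√(lw l : ℝ)) ≤ C := by
  refine ⟨100000000, by norm_num, ?_⟩
  intro H hH r hr
  have hrp := hh_pos hr
  have hrb := (hh_bounds hr).1
  have hhle : ∀ s : ZMod 15, hh s ≤ 19410 := by
    intro s
    by_cases h : s ∈ UU
    · exact (hh_bounds h).2
    · rw [hh_eq_zero h]; norm_num
  have k2 : (√2 : ℝ) ^ 2 = 2 := Real.sq_sqrt (by norm_num)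
  have k3 : (√3 : ℝ) ^ 2 = 3 := Real.sq_sqrt (by norm_num)
  have k5 : (√5 : ℝ) ^ 2 = 5 := Real.sq_sqrt (by norm_num)
  have t2 : √√(2 : ℝ) ^ 2 = √2 := Real.sq_sqrt (by positivity)
  have t3 : √√(3 : ℝ) ^ 2 = √3 := Real.sq_sqrt (by positivity)
  have t5 : √√(5 : ℝ) ^ 2 = √5 := Real.sq_sqrt (by positivity)
  have fourth : ∀ l : Lt, √√(lw l : ℝ) = (√√2 ^ l.1.1 * 2 ^ (l.1.2 - 1)) *
      (√√3 ^ l.2.1.1 * 3 ^ (l.2.1.2 - 1)) * (√√5 ^ l.2.2.1 * √5 ^ l.2.2.2) := by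
    intro l
    rw [Real.sqrt_eq_iff_mul_self_eq (by positivity) (by positivity), sq_lw]
    have a2 : (√2 : ℝ) ^ l.1.1 = (√√(2 : ℝ) ^ l.1.1) ^ 2 := by
      rw [← pow_mul, mul_comm, pow_mul, t2]
    have a3 : (√3 : ℝ) ^ l.2.1.1 = (√√(3 : ℝ) ^ l.2.1.1) ^ 2 := by
      rw [← pow_mul, mul_comm, pow_mul, t3]
    have a5 : (√5 : ℝ) ^ l.2.2.1 = (√√(5 : ℝ) ^ l.2.2.1) ^ 2 := by
      rw [← pow_mul, mul_comm, pow_mul, t5]
    have b2 : (4 : ℝ) ^ (l.1.2 - 1) = ((2 : ℝ) ^ (l.1.2 - 1)) ^ 2 := by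
      rw [← pow_mul, mul_comm, pow_mul]; norm_num
    have b3 : (9 : ℝ) ^ (l.2.1.2 - 1) = ((3 : ℝ) ^ (l.2.1.2 - 1)) ^ 2 := by
      rw [← pow_mul, mul_comm, pow_mul]; norm_num
    have b5 : (5 : ℝ) ^ l.2.2.2 = (√5 ^ l.2.2.2) ^ 2 := by
      rw [← pow_mul, mul_comm, pow_mul, k5]
    rw [a2, a3, a5, b2, b3, b5]
    ring
  have e : ∑ l ∈ LS H, pr H r l * (√(lw l : ℝ) * √√(lw l : ℝ)) =
      (∑ l ∈ LS H, wt H l * ((√2 * √√2) ^ l.1.1 * 8 ^ (l.1.2 - 1)) *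
      ((√3 * √√3) ^ l.2.1.1 * 27 ^ (l.2.1.2 - 1)) *
      ((√5 * √√5) ^ l.2.2.1 * (5 * √5) ^ l.2.2.2) * hh (nx r (lw l))) / hh r := by
    rw [Finset.sum_div]
    refine Finset.sum_congr rfl fun l _ => ?_
    rw [fourth, sq_lw]
    unfold pr
    have b2 : (8 : ℝ) ^ (l.1.2 - 1) = 4 ^ (l.1.2 - 1) * 2 ^ (l.1.2 - 1) := by
      rw [← mul_pow]; norm_num
    have b3 : (27 : ℝ) ^ (l.2.1.2 - 1) = 9 ^ (l.2.1.2 - 1) * 3 ^ (l.2.1.2 - 1) := by
      rw [← mul_pow]; norm_num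
    rw [b2, b3, mul_pow, mul_pow, mul_pow, mul_pow]
    ring
  rw [e, gen H hh r 8 27 (5 * √5) (√2 * √√2) (√3 * √√3) (√5 * √√5), div_le_iff₀ hrp]
  have s5u : √5 ≤ (9 / 4 : ℝ) := Real.sqrt_le_iff.2 ⟨by norm_num, by norm_num⟩
  have SA := geo' (1 / 2) (16 / 15) (by norm_num) (by norm_num) (by norm_num) H
  have SB := geo' (1 / 3) (81 / 80) (by norm_num) (by norm_num) (by norm_num) H
  have SC := geo' (5 * √5 / 25) (25 / 24) (by linarith) (by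
    have : (2 : ℝ) ≤ √5 := Real.le_sqrt_of_sq_le (by norm_num)
    linarith) (by positivity) H
  have SC2 : 1 / (1 - 5 * √5 / 25) ≤ (2 : ℝ) := by
    rw [div_le_iff₀ (by linarith)]
    linarith
  have A := sum_w2_geo hH 8
  have B := sum_w3_geo hH 27
  have C := sum_w5_geo H (5 * √5)
  have y2 : (8 / 16 : ℝ) = 1 / 2 := by norm_num
  have y3 : (27 / 81 : ℝ) = 1 / 3 := by norm_num
  rw [y2] at A
  rw [y3] at B
  have A' : ∑ t ∈ range (H + 2), w2 H t * (8 : ℝ) ^ (t - 1) ≤ 2 := by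
    rw [A]; refine SA.trans ?_; norm_num
  have B' : ∑ t ∈ range (H + 2), w3 H t * (27 : ℝ) ^ (t - 1) ≤ 2 := by
    rw [B]; refine SB.trans ?_; norm_num
  have C' : ∑ k ∈ range (H + 1), w5 H k * (5 * √5) ^ k ≤ 2 := by
    rw [C]; exact SC.trans SC2
  have A0 := S2nn H (X := 8) (by norm_num)
  have B0 := S3nn H (X := 27) (by norm_num)
  have C0 := S5nn H (X := 5 * √5) (by positivity)
  have u2 : √√(2 : ℝ) ≤ √2 := by
    refine Real.sqrt_le_sqrt ?_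
    exact Real.sqrt_le_iff.2 ⟨by norm_num, by norm_num⟩
  have u3 : √√(3 : ℝ) ≤ √3 := by
    refine Real.sqrt_le_sqrt ?_
    exact Real.sqrt_le_iff.2 ⟨by norm_num, by norm_num⟩
  have u5 : √√(5 : ℝ) ≤ √5 := by
    refine Real.sqrt_le_sqrt ?_
    exact Real.sqrt_le_iff.2 ⟨by norm_num, by norm_num⟩
  have v2 : √2 * √√(2 : ℝ) ≤ 2 := by
    have : √2 * √√(2 : ℝ) ≤ √2 * √2 := by gcongr
    nlinarith
  have v3 : √3 * √√(3 : ℝ) ≤ 3 := by
    have : √3 * √√(3 : ℝ) ≤ √3 * √3 := by gcongr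
    nlinarith
  have v5 : √5 * √√(5 : ℝ) ≤ 5 := by
    have : √5 * √√(5 : ℝ) ≤ √5 * √5 := by gcongr
    nlinarith
  have term : ∀ a ∈ Icc 1 4, ∀ b ∈ range 5, ∀ c ∈ range 3,
      ((1 / 2) ^ a * ∑ t ∈ range (H + 2), w2 H t * (8 : ℝ) ^ (t - 1)) *
      (if b = 0 then 1 else (1 / 3) ^ b * ∑ u ∈ range (H + 2), w3 H u * (27 : ℝ) ^ (u - 1)) *
      (if c = 0 then 1 else (1 / 5) ^ c * ∑ k ∈ range (H + 1), w5 H k * (5 * √5) ^ k) *
      ((√2 * √√2) ^ a * (√3 * √√3) ^ b * (√5 * √√5) ^ c *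
        hh (nx r (2 ^ a * 3 ^ b * 5 ^ c))) ≤ 2 * 2 * 2 * 19410 := by
    intro a _ b _ c _
    have f1 : ((1 / 2) ^ a * ∑ t ∈ range (H + 2), w2 H t * (8 : ℝ) ^ (t - 1)) *
        (√2 * √√2) ^ a ≤ 2 := by
      have g1 : (√2 * √√(2 : ℝ)) ^ a ≤ 2 ^ a := pow_le_pow_left₀ (by positivity) v2 a
      have g2 : (1 / 2 : ℝ) ^ a * 2 ^ a = 1 := by rw [← mul_pow]; norm_num
      calc ((1 / 2) ^ a * ∑ t ∈ range (H + 2), w2 H t * (8 : ℝ) ^ (t - 1)) * (√2 * √√2) ^ a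
          ≤ ((1 / 2) ^ a * 2) * 2 ^ a := by gcongr
        _ = ((1 / 2) ^ a * 2 ^ a) * 2 := by ring
        _ = 2 := by rw [g2, one_mul]
    have f2 : (if b = 0 then 1 else (1 / 3) ^ b *
        ∑ u ∈ range (H + 2), w3 H u * (27 : ℝ) ^ (u - 1)) * (√3 * √√3) ^ b ≤ 2 := by
      split_ifs with h0
      · rw [h0]; norm_num
      have g1 : (√3 * √√(3 : ℝ)) ^ b ≤ 3 ^ b := pow_le_pow_left₀ (by positivity) v3 b
      have g2 : (1 / 3 : ℝ) ^ b * 3 ^ b = 1 := by rw [← mul_pow]; norm_num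
      calc ((1 / 3) ^ b * ∑ t ∈ range (H + 2), w3 H t * (27 : ℝ) ^ (t - 1)) * (√3 * √√3) ^ b
          ≤ ((1 / 3) ^ b * 2) * 3 ^ b := by gcongr
        _ = ((1 / 3) ^ b * 3 ^ b) * 2 := by ring
        _ = 2 := by rw [g2, one_mul]
    have f3 : (if c = 0 then 1 else (1 / 5) ^ c *
        ∑ k ∈ range (H + 1), w5 H k * (5 * √5) ^ k) * (√5 * √√5) ^ c ≤ 2 := by
      split_ifs with h0
      · rw [h0]; norm_num
      have g1 : (√5 * √√(5 : ℝ)) ^ c ≤ 5 ^ c := pow_le_pow_left₀ (by positivity) v5 c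
      have g2 : (1 / 5 : ℝ) ^ c * 5 ^ c = 1 := by rw [← mul_pow]; norm_num
      calc ((1 / 5) ^ c * ∑ k ∈ range (H + 1), w5 H k * (5 * √5) ^ k) * (√5 * √√5) ^ c
          ≤ ((1 / 5) ^ c * 2) * 5 ^ c := by gcongr
        _ = ((1 / 5) ^ c * 5 ^ c) * 2 := by ring
        _ = 2 := by rw [g2, one_mul]
    have n1 : 0 ≤ ((1 / 2) ^ a * ∑ t ∈ range (H + 2), w2 H t * (8 : ℝ) ^ (t - 1)) *
        (√2 * √√2) ^ a := mul_nonneg (mul_nonneg (by positivity) A0) (by positivity)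
    have n2 : 0 ≤ (if b = 0 then 1 else (1 / 3) ^ b *
        ∑ u ∈ range (H + 2), w3 H u * (27 : ℝ) ^ (u - 1)) * (√3 * √√3) ^ b := by
      refine mul_nonneg ?_ (by positivity)
      split_ifs
      · norm_num
      · exact mul_nonneg (by positivity) B0
    have n3 : 0 ≤ (if c = 0 then 1 else (1 / 5) ^ c *
        ∑ k ∈ range (H + 1), w5 H k * (5 * √5) ^ k) * (√5 * √√5) ^ c := by
      refine mul_nonneg ?_ (by positivity)
      split_ifs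
      · norm_num
      · exact mul_nonneg (by positivity) C0
    have e4 := mul_le_mul (mul_le_mul (mul_le_mul f1 f2 n2 (by norm_num)) f3 n3 (by norm_num))
      (hhle (nx r (2 ^ a * 3 ^ b * 5 ^ c))) (hh_nonneg _) (by norm_num)
    refine le_trans (le_of_eq ?_) e4
    ring
  refine le_trans (Finset.sum_le_sum fun a ha => Finset.sum_le_sum fun b hb =>
    Finset.sum_le_sum fun c hc => term a ha b hb c hc) ?_
  simp only [Finset.sum_const, Finset.card_range, Nat.card_Icc, nsmul_eq_mul]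
  push_cast
  linarith

end Kak
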