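import Pool.Agent.Lib.Kak.Visit
import Pool.Agent.Lib.Kak.KernGrow
import Pool.Agent.Lib.Kak.KernProb

/-!
# Kak.ExitOver: the overshoot at the exit time

PROOF.

Single letters (`exitOver1`).  Let `C0` be the constant of `pow34_step`.  Let `v = v' ++ [l]` be a word
of length `i`, with `W' = Wd v' ∣ Z`, `Z' = Z / W'`, and `W' * lw l ∤ Z`, i.e. `lw l ∤ Z'`.  Let
`v_p` be the exponent of `p` in `Z'` (`p = 2,3,5`).  Then `e_p(l) > v_p` for some `p ∈ {2,3,5}` (`e_2 = la`,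
`e_3 = lb`, `e_5 = lc`).  Also `den (Wd v) Z ∣ lw l` (`gcd (W' w, W' Z') = W' gcd (w, Z')`,
so `den = w / gcd(w, Z') ≤ w = lw l`).  Hence, with `x_p = (1/p)^(1/4)` (`= 1/√√p`),
`√den ≤ √w ≤ ∑_p √w 1{e_p(l) > v_p} ≤ ∑_p √w x_p^(v_p) (p^(e_p(l)))^(1/4) ≤ (∑_p x_p^(v_p)) √w √√w`
(on `e_p(l) > v_p`, `1 ≤ p^((e_p(l) - v_p)/4)`; and `p^(e_p(l)) ≤ w`).
Taking the expectation over the last letter (`Ex_append` with `k = 1`, `pow34_step`) the
`i`-th term is `≤ C0 ∑_p Ex H (i-1) r (v' ↦ if e_p(v') ≤ V_p then x_p^(V_p - e_p(v')) else 0)` with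
`V_p` the exponent of `p` in `Z ≠ 0` (`padicValInt`/`emultiplicity`; `W' ∣ Z` gives `e_p(v') ≤ V_p`
and `v_p = V_p - e_p(v')`).  Sum over `i` with `visit` (`p0 = 1` for `p = 2` as `la ≥ 1` on `LS H`
(`one_le_la`), `1/3` for `p = 3` (`prob_b`), `1/6` for `p = 5` (`prob_c`)).

Pairs (`exitPair`).  Let `v` have length `2t` and belong to `ExitAt Z t`: `Wd (v.take (2t-2)) ∣ Z`,
`Wd v ∤ Z`.  Either `Wd (v.take (2t-1)) ∣ Z`: a single letter exit at `i = 2t`; or not: a single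
letter exit at `i = 2t - 1`, and `den (Wd v) Z ≤ den (Wd (v.take (2t-1))) Z * lw (last letter)`
(`den (W w) Z ≤ w den W Z` since `gcd (W, Z) ∣ gcd (W w, Z)`), the expectation of `√lw` over the last
letter is `≤ 9` (`sqrt_step`).  So the sum over `t` is at most `(1 + 9)` times the single letter
constant.

`den_mul_le`: `den (W * w) Z ≤ w * den W Z`.
-/

open Finset

namespace Kak

theorem den_mul_le {W w : ℕ} (hW : 0 < W) (Z : ℤ) : den (W * w) Z ≤ den W Z * w := by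
  unfold den
  have hg : 0 < Nat.gcd W Z.natAbs := Nat.gcd_pos_of_pos_left _ hW
  obtain ⟨q, hq⟩ := Nat.gcd_dvd_left W Z.natAbs
  have h1 : Nat.gcd W Z.natAbs ∣ Nat.gcd (W * w) Z.natAbs :=
    Nat.gcd_dvd_gcd_of_dvd_left _ (Dvd.intro _ rfl)
  have h2 : W / Nat.gcd W Z.natAbs = q := Nat.div_eq_of_eq_mul_right hg hq
  have h3 : W * w / Nat.gcd W Z.natAbs = q * w :=
    Nat.div_eq_of_eq_mul_right hg (by rw [← mul_assoc, ← hq])
  rw [h2, ← h3]
  rcases Nat.eq_zero_or_pos w with rfl | hw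
  · simp
  · exact Nat.div_le_div_left (Nat.le_of_dvd (Nat.gcd_pos_of_pos_left _ (Nat.mul_pos hW hw)) h1) hg

namespace ExitOverAux

theorem dvd_iff {z : ℕ} (hz : z ≠ 0) (v : List Lt) :
    Wd v ∣ z ↔ ea v ≤ z.factorization 2 ∧ eb v ≤ z.factorization 3 ∧ ec v ≤ z.factorization 5 := by
  rw [Wd_eq, ← Nat.Prime.pow_dvd_iff_le_factorization Nat.prime_two hz,
    ← Nat.Prime.pow_dvd_iff_le_factorization Nat.prime_three hz,
    ← Nat.Prime.pow_dvd_iff_le_factorization Nat.prime_five hz]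
  constructor
  · intro h
    refine ⟨dvd_trans ⟨3 ^ eb v * 5 ^ ec v, by ring⟩ h, dvd_trans ⟨2 ^ ea v * 5 ^ ec v, by ring⟩ h,
      dvd_trans ⟨2 ^ ea v * 3 ^ eb v, by ring⟩ h⟩
  · rintro ⟨h1, h2, h3⟩
    have c1 : Nat.Coprime (2 ^ ea v) (3 ^ eb v) := Nat.Coprime.pow _ _ (by norm_num)
    have c2 : Nat.Coprime (2 ^ ea v * 3 ^ eb v) (5 ^ ec v) :=
      Nat.Coprime.mul_left (Nat.Coprime.pow _ _ (by norm_num)) (Nat.Coprime.pow _ _ (by norm_num))
    exact c2.mul_dvd_of_dvd_of_dvd (c1.mul_dvd_of_dvd_of_dvd h1 h2) h3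

/-- the exit term -/
noncomputable def fi (Z : ℤ) (i : ℕ) (v : List Lt) : ℝ :=
  if ((Wd (v.take (i - 1)) : ℕ) : ℤ) ∣ Z ∧ ¬ ((Wd v : ℕ) : ℤ) ∣ Z then √(den (Wd v) Z : ℝ) else 0

theorem fi_nonneg (Z : ℤ) (i : ℕ) (v : List Lt) : 0 ≤ fi Z i v := by
  unfold fi; split_ifs <;> positivity

theorem dvdZ {W : ℕ} {Z : ℤ} : (W : ℤ) ∣ Z ↔ W ∣ Z.natAbs := Int.natCast_dvd

theorem ssq {x : ℝ} (hx : 0 ≤ x) (n : ℕ) : √√(x ^ n) = √√x ^ n := by
  induction n with
  | zero => simp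
  | succ n ih =>
    rw [pow_succ, pow_succ, Real.sqrt_mul (by positivity), Real.sqrt_mul (by positivity), ih]

theorem one_le_term {p e n w : ℕ} (hp : 0 < p) (hpw : p ^ e ≤ w) (hp1 : 1 ≤ p) (hn : n ≤ e) :
    1 ≤ √√(w : ℝ) * (1 / √√(p : ℝ)) ^ n := by
  have hp0 : (0 : ℝ) < p := by exact_mod_cast hp
  have h1 : √√((p : ℝ) ^ n) ≤ √√(w : ℝ) := by
    apply Real.sqrt_le_sqrt
    apply Real.sqrt_le_sqrt
    have : p ^ n ≤ w := (Nat.pow_le_pow_right hp1 hn).trans hpw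
    exact_mod_cast this
  rw [ssq hp0.le] at h1
  have h2 : 0 < √√(p : ℝ) := by positivity
  rw [one_div, inv_pow, ← div_eq_mul_inv, le_div_iff₀ (by positivity), one_mul]
  exact h1

/-- the weight at a prime -/
noncomputable def gp (p : ℕ) (V e : ℕ) : ℝ := if e ≤ V then (1 / √√(p : ℝ)) ^ (V - e) else 0

theorem gp_nonneg (p V e : ℕ) : 0 ≤ gp p V e := by unfold gp; split_ifs <;> positivity

theorem pow_le_lw (l : Lt) : 2 ^ la l ≤ lw l ∧ 3 ^ lb l ≤ lw l ∧ 5 ^ lc l ≤ lw l := by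
  unfold lw
  have h2 : 0 < 2 ^ la l := by positivity
  have h3 : 0 < 3 ^ lb l := by positivity
  have h5 : 0 < 5 ^ lc l := by positivity
  refine ⟨?_, ?_, ?_⟩
  · rw [mul_assoc]; exact Nat.le_mul_of_pos_right _ (by positivity)
  · calc 3 ^ lb l ≤ 2 ^ la l * 3 ^ lb l := Nat.le_mul_of_pos_left _ h2
      _ ≤ _ := Nat.le_mul_of_pos_right _ h5
  · exact Nat.le_mul_of_pos_left _ (by positivity)

theorem letter_bound {Z : ℤ} (hZ : Z ≠ 0) (v : List Lt) (l : Lt) :
    fi Z (v.length + 1) (v ++ [l]) ≤ (√(lw l : ℝ) * √√(lw l : ℝ)) *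
      (gp 2 (Z.natAbs.factorization 2) (ea v) + gp 3 (Z.natAbs.factorization 3) (eb v) +
        gp 5 (Z.natAbs.factorization 5) (ec v)) := by
  have hz : Z.natAbs ≠ 0 := Int.natAbs_ne_zero.mpr hZ
  have hg2 := gp_nonneg 2 (Z.natAbs.factorization 2) (ea v)
  have hg3 := gp_nonneg 3 (Z.natAbs.factorization 3) (eb v)
  have hg5 := gp_nonneg 5 (Z.natAbs.factorization 5) (ec v)
  have hs : 0 ≤ √(lw l : ℝ) := Real.sqrt_nonneg _
  have hss : 0 ≤ √√(lw l : ℝ) := Real.sqrt_nonneg _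
  unfold fi
  split_ifs with h
  · obtain ⟨h1, h2⟩ := h
    rw [Nat.add_sub_cancel, List.take_append_of_le_length le_rfl, List.take_of_length_le le_rfl,
      dvdZ] at h1
    rw [dvdZ, dvd_iff hz] at h2
    have h1' := (dvd_iff hz v).mp h1
    have hea : ea (v ++ [l]) = ea v + la l := by simp [ea]
    have heb : eb (v ++ [l]) = eb v + lb l := by simp [eb]
    have hec : ec (v ++ [l]) = ec v + lc l := by simp [ec]
    rw [hea, heb, hec] at h2
    have hden : √(den (Wd (v ++ [l])) Z : ℝ) ≤ √(lw l : ℝ) := by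
      apply Real.sqrt_le_sqrt
      have h3 : den (Wd v) Z = 1 := by
        unfold den
        rw [Nat.gcd_eq_left h1, Nat.div_self (Wd_pos v)]
      have h4 := den_mul_le (W := Wd v) (w := lw l) (Wd_pos v) Z
      rw [h3, one_mul] at h4
      have h5 : Wd (v ++ [l]) = Wd v * lw l := by
        rw [Wd_append]; simp [Wd]
      rw [h5]
      exact_mod_cast h4
    obtain ⟨p2, p3, p5⟩ := pow_le_lw l
    have hmain : 1 ≤ √√(lw l : ℝ) * (gp 2 (Z.natAbs.factorization 2) (ea v) +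
        gp 3 (Z.natAbs.factorization 3) (eb v) + gp 5 (Z.natAbs.factorization 5) (ec v)) := by
      by_cases c2 : ea v + la l ≤ Z.natAbs.factorization 2
      · by_cases c3 : eb v + lb l ≤ Z.natAbs.factorization 3
        · have c5 : ¬ ec v + lc l ≤ Z.natAbs.factorization 5 := fun h => h2 ⟨c2, c3, h⟩
          have := one_le_term (p := 5) (e := lc l) (n := Z.natAbs.factorization 5 - ec v)
            (w := lw l) (by norm_num) p5 (by norm_num) (by omega)
          have h6 : gp 5 (Z.natAbs.factorization 5) (ec v) =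
            (1 / √√((5 : ℕ) : ℝ)) ^ (Z.natAbs.factorization 5 - ec v) := by
            unfold gp; rw [if_pos h1'.2.2]
          rw [← h6] at this
          nlinarith
        · have := one_le_term (p := 3) (e := lb l) (n := Z.natAbs.factorization 3 - eb v)
            (w := lw l) (by norm_num) p3 (by norm_num) (by omega)
          have h6 : gp 3 (Z.natAbs.factorization 3) (eb v) =
            (1 / √√((3 : ℕ) : ℝ)) ^ (Z.natAbs.factorization 3 - eb v) := by
            unfold gp; rw [if_pos h1'.2.1]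
          rw [← h6] at this
          nlinarith
      · have := one_le_term (p := 2) (e := la l) (n := Z.natAbs.factorization 2 - ea v)
          (w := lw l) (by norm_num) p2 (by norm_num) (by omega)
        have h6 : gp 2 (Z.natAbs.factorization 2) (ea v) =
          (1 / √√((2 : ℕ) : ℝ)) ^ (Z.natAbs.factorization 2 - ea v) := by
          unfold gp; rw [if_pos h1'.1]
        rw [← h6] at this
        nlinarith
    calc √(den (Wd (v ++ [l])) Z : ℝ) ≤ √(lw l : ℝ) * 1 := by rw [mul_one]; exact hden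
      _ ≤ √(lw l : ℝ) * (√√(lw l : ℝ) * (gp 2 (Z.natAbs.factorization 2) (ea v) +
        gp 3 (Z.natAbs.factorization 3) (eb v) + gp 5 (Z.natAbs.factorization 5) (ec v))) :=
          mul_le_mul_of_nonneg_left hmain hs
      _ = _ := by ring
  · positivity

theorem Ex_one (H : ℕ) (r : ZMod 15) (F : List Lt → ℝ) :
    Ex H 1 r F = ∑ l ∈ LS H, pr H r l * F [l] := by
  rw [show (1 : ℕ) = 0 + 1 from rfl, Ex_succ]
  rfl

theorem term_bound {C0 : ℝ} {H : ℕ}
    (hC : ∀ r ∈ UU, ∑ l ∈ LS H, pr H r l * (√(lw l : ℝ) * √√(lw l : ℝ)) ≤ C0)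
    {r : ZMod 15} (hr : r ∈ UU) {Z : ℤ} (hZ : Z ≠ 0) (j : ℕ) :
    Ex H (j + 1) r (fi Z (j + 1)) ≤
      C0 * (Ex H j r (fun v => gp 2 (Z.natAbs.factorization 2) (ea v)) +
        Ex H j r (fun v => gp 3 (Z.natAbs.factorization 3) (eb v)) +
        Ex H j r (fun v => gp 5 (Z.natAbs.factorization 5) (ec v))) := by
  rw [Ex_append, ← Ex_add, ← Ex_add, ← Ex_mul_left]
  refine Ex_mono H j r fun v hv hok => ?_
  rw [Ex_one]
  have hst := st_mem v r hr hok
  have hg : 0 ≤ gp 2 (Z.natAbs.factorization 2) (ea v) + gp 3 (Z.natAbs.factorization 3) (eb v) +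
      gp 5 (Z.natAbs.factorization 5) (ec v) :=
    add_nonneg (add_nonneg (gp_nonneg _ _ _) (gp_nonneg _ _ _)) (gp_nonneg _ _ _)
  calc ∑ l ∈ LS H, pr H (st r v) l * fi Z (j + 1) (v ++ [l])
      ≤ ∑ l ∈ LS H, pr H (st r v) l * ((√(lw l : ℝ) * √√(lw l : ℝ)) *
      (gp 2 (Z.natAbs.factorization 2) (ea v) + gp 3 (Z.natAbs.factorization 3) (eb v) +
        gp 5 (Z.natAbs.factorization 5) (ec v))) := by
        refine Finset.sum_le_sum fun l _ => mul_le_mul_of_nonneg_left ?_ (pr_nonneg _ _ _)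
        rw [← hv]
        exact letter_bound hZ v l
    _ = (∑ l ∈ LS H, pr H (st r v) l * (√(lw l : ℝ) * √√(lw l : ℝ))) *
      (gp 2 (Z.natAbs.factorization 2) (ea v) + gp 3 (Z.natAbs.factorization 3) (eb v) +
        gp 5 (Z.natAbs.factorization 5) (ec v)) := by
        rw [Finset.sum_mul]
        exact Finset.sum_congr rfl fun l _ => by ring
    _ ≤ _ := mul_le_mul_of_nonneg_right (hC _ hst) hg

theorem xlt {p : ℕ} (hp : 2 ≤ p) : 0 < 1 / √√(p : ℝ) ∧ 1 / √√(p : ℝ) < 1 := by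
  have hp' : (1 : ℝ) < p := by exact_mod_cast hp
  have h0 : (0 : ℝ) < p := by linarith
  have h1 : 1 < √√(p : ℝ) := by
    rw [Real.lt_sqrt (by norm_num), Real.lt_sqrt (by norm_num)]
    linarith
  exact ⟨by positivity, by rw [div_lt_one (by positivity)]; exact h1⟩

theorem visit_gp {H : ℕ} (hH : 2 ≤ H) (e : Lt → ℕ) {p : ℕ} (hp : 2 ≤ p) {p0 : ℝ} (hp0 : 0 < p0)
    (hq : ∀ r ∈ UU, p0 ≤ ∑ l ∈ LS H with 1 ≤ e l, pr H r l) (n V : ℕ)
    {r : ZMod 15} (hr : r ∈ UU) :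
    ∑ i ∈ range n, Ex H i r (fun v => gp p V (v.map e).sum) ≤
      1 / (p0 * (1 - 1 / √√(p : ℝ))) := by
  unfold gp
  exact visit hH e hp0 (xlt hp).1 (xlt hp).2 hq n V hr

theorem sum_pairs (a : ℕ → ℝ) (ha : ∀ i, 0 ≤ a i) (n : ℕ) :
    ∑ t ∈ Icc 1 n, (a (2 * t) + 9 * a (2 * t - 1)) ≤ 10 * ∑ i ∈ Icc 1 (2 * n), a i := by
  induction n with
  | zero => simp
  | succ n ih =>
    rw [Finset.sum_Icc_succ_top (by omega), show 2 * (n + 1) = 2 * n + 1 + 1 from by ring,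
      Finset.sum_Icc_succ_top (by omega), Finset.sum_Icc_succ_top (by omega)]
    have h1 := ha (2 * n + 1)
    have h2 := ha (2 * n + 1 + 1)
    have h3 : 2 * n + 1 + 1 - 1 = 2 * n + 1 := by omega
    rw [h3]
    linarith

end ExitOverAux

open ExitOverAux

open Classical in
theorem exitOver1 : ∃ C : ℝ, 1 ≤ C ∧ ∀ H, 2 ≤ H → ∀ r ∈ UU, ∀ Z : ℤ, Z ≠ 0 → ∀ n : ℕ,
    ∑ i ∈ Icc 1 n, Ex H i r (fun v => if ((Wd (v.take (i - 1)) : ℕ) : ℤ) ∣ Z ∧
      ¬ ((Wd v : ℕ) : ℤ) ∣ Z then √(den (Wd v) Z : ℝ) else 0) ≤ C := by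
  obtain ⟨C0, hC0, hC⟩ := pow34_step
  obtain ⟨K, hK⟩ : ∃ K : ℝ, K = 1 / (1 * (1 - 1 / √√((2 : ℕ) : ℝ))) +
      1 / (1 / 3 * (1 - 1 / √√((3 : ℕ) : ℝ))) + 1 / (1 / 6 * (1 - 1 / √√((5 : ℕ) : ℝ))) := ⟨_, rfl⟩
  refine ⟨max 1 (C0 * K), le_max_left _ _, fun H hH r hr Z hZ n => ?_⟩
  refine le_trans ?_ (le_max_right _ _)
  have h1 : ∑ i ∈ Icc 1 n, Ex H i r (fun v => if ((Wd (v.take (i - 1)) : ℕ) : ℤ) ∣ Z ∧
      ¬ ((Wd v : ℕ) : ℤ) ∣ Z then √(den (Wd v) Z : ℝ) else 0) =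
      ∑ j ∈ range n, Ex H (j + 1) r (fi Z (j + 1)) := by
    rw [Finset.range_eq_Ico, Finset.sum_Ico_add' (fun i => Ex H i r (fi Z i)) 0 n 1]
    have : Ico (0 + 1) (n + 1) = Icc 1 n := by ext x; simp
    rw [this]
    refine Finset.sum_congr rfl fun i _ => ?_
    congr 1
  rw [h1]
  refine (Finset.sum_le_sum fun j _ => term_bound (hC H hH) hr hZ j).trans ?_
  rw [← Finset.mul_sum]
  refine mul_le_mul_of_nonneg_left ?_ (by linarith)
  rw [Finset.sum_add_distrib, Finset.sum_add_distrib, hK]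
  refine add_le_add (add_le_add ?_ ?_) ?_
  · refine visit_gp hH la le_rfl one_pos (fun s hs => ?_) n _ hr
    rw [Finset.filter_true_of_mem fun l hl => one_le_la hl, pr_sum hH hs]
  · exact visit_gp hH lb (by norm_num) (by norm_num) (fun s hs => prob_b hH hs) n _ hr
  · exact visit_gp hH lc (by norm_num) (by norm_num) (fun s hs => prob_c hH hs) n _ hr

theorem exitPair : ∃ C : ℝ, 1 ≤ C ∧ ∀ H, 2 ≤ H → ∀ r ∈ UU, ∀ Z : ℤ, Z ≠ 0 → ∀ n : ℕ,
    ∑ t ∈ Icc 1 n, Ex H (2 * t) r ((ExitAt Z t).indicator (fun v => √(den (Wd v) Z : ℝ))) ≤ C := by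
  obtain ⟨C1, hC1, hC⟩ := exitOver1
  refine ⟨10 * C1, by linarith, fun H hH r hr Z hZ n => ?_⟩
  have h1 := hC H hH r hr Z hZ (2 * n)
  have h2 : ∑ i ∈ Icc 1 (2 * n), Ex H i r (fi Z i) ≤ C1 := by
    refine le_trans (le_of_eq ?_) h1
    refine Finset.sum_congr rfl fun i _ => ?_
    congr 1
  refine le_trans ?_ (mul_le_mul_of_nonneg_left h2 (by norm_num : (0 : ℝ) ≤ 10))
  refine le_trans (Finset.sum_le_sum fun t ht => ?_)
    (sum_pairs (fun i => Ex H i r (fi Z i)) (fun i => Ex_nonneg H i r fun v _ _ => fi_nonneg Z i v) n)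
  have ht1 : 1 ≤ t := (Finset.mem_Icc.mp ht).1
  obtain ⟨j, rfl⟩ : ∃ j, t = j + 1 := ⟨t - 1, by omega⟩
  have e1 : 2 * (j + 1) - 1 = 2 * j + 1 := by omega
  rw [show 2 * (j + 1) = (2 * j + 1) + 1 from by ring, Nat.add_sub_cancel]
  rw [Ex_append, Ex_append H (2 * j + 1) 1 r (fi Z (2 * j + 1 + 1)), ← Ex_mul_left, ← Ex_add]
  refine Ex_mono H _ r fun v hv hok => ?_
  have hst := st_mem v r hr hok
  rw [Ex_one, Ex_one]
  have hterm : ∀ l ∈ LS H, pr H (st r v) l *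
      (ExitAt Z (j + 1)).indicator (fun v => √(den (Wd v) Z : ℝ)) (v ++ [l]) ≤
      pr H (st r v) l * fi Z (2 * j + 1 + 1) (v ++ [l]) +
        fi Z (2 * j + 1) v * (pr H (st r v) l * √(lw l : ℝ)) := by
    intro l _
    have hpr := pr_nonneg H (st r v) l
    have hkey : (ExitAt Z (j + 1)).indicator (fun v => √(den (Wd v) Z : ℝ)) (v ++ [l]) ≤
        fi Z (2 * j + 1 + 1) (v ++ [l]) + fi Z (2 * j + 1) v * √(lw l : ℝ) := by
      by_cases hmem : v ++ [l] ∈ ExitAt Z (j + 1)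
      · rw [Set.indicator_of_mem hmem]
        have hm := hmem
        obtain ⟨m1, m2⟩ := hm
        have t1 : (v ++ [l]).take (2 * (j + 1)) = v ++ [l] :=
          List.take_of_length_le (by simp [hv]; omega)
        have t2 : (v ++ [l]).take (2 * (j + 1) - 2) = v.take (2 * j) := by
          rw [show 2 * (j + 1) - 2 = 2 * j from by omega,
            List.take_append_of_le_length (by omega)]
        rw [t1] at m2
        rw [t2] at m1
        by_cases hW : ((Wd v : ℕ) : ℤ) ∣ Z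
        · have h3 : fi Z (2 * j + 1 + 1) (v ++ [l]) = √(den (Wd (v ++ [l])) Z : ℝ) := by
            unfold fi
            rw [if_pos]
            refine ⟨?_, m2⟩
            rw [Nat.add_sub_cancel, List.take_append_of_le_length (by omega),
              List.take_of_length_le (by omega)]
            exact hW
          rw [h3]
          have := mul_nonneg (fi_nonneg Z (2 * j + 1) v) (Real.sqrt_nonneg (lw l : ℝ))
          linarith
        · have h3 : fi Z (2 * j + 1) v = √(den (Wd v) Z : ℝ) := by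
            unfold fi
            rw [if_pos]
            refine ⟨?_, hW⟩
            rw [Nat.add_sub_cancel]
            exact m1
          rw [h3, ← Real.sqrt_mul (by positivity)]
          have h4 : √(den (Wd (v ++ [l])) Z : ℝ) ≤ √((den (Wd v) Z : ℝ) * (lw l : ℝ)) := by
            apply Real.sqrt_le_sqrt
            have h5 : Wd (v ++ [l]) = Wd v * lw l := by
              rw [Wd_append]; simp [Wd]
            rw [h5]
            exact_mod_cast den_mul_le (Wd_pos v) Z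
          have h6 := fi_nonneg Z (2 * j + 1 + 1) (v ++ [l])
          linarith
      · rw [Set.indicator_of_notMem hmem]
        exact add_nonneg (fi_nonneg _ _ _) (mul_nonneg (fi_nonneg _ _ _) (Real.sqrt_nonneg _))
    have := mul_le_mul_of_nonneg_left hkey hpr
    nlinarith
  refine (Finset.sum_le_sum hterm).trans ?_
  rw [Finset.sum_add_distrib, ← Finset.mul_sum]
  have h7 := mul_le_mul_of_nonneg_left (sqrt_step hH hst) (fi_nonneg Z (2 * j + 1) v)
  linarith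

end Kak
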