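import Pool.Agent.Lib.Kak.KernGrow

/-!
# Kak.Growth: growth of the products `Wd v`

PROOFS.
* `growth_half`: put `a_n(r) = Ex H n r (√(7^n / Wd v) * VN (st r v) / hh (st r v))` for `r ∈ UU`.
  By the recursion and `pr H r l = wt H l * hh (nx) / hh r` and `grow_step`, by induction on `n`:
  `a_n(r) ≤ (91/100)^n VN r / hh r`.  Since `VN/hh` is between two positive constants on `UU`
  (`28 ≤ VN ≤ 100`, `11473 ≤ hh ≤ 19410`), the claim follows with a constant `C`
  (use `Ex_mono` and `st_mem`).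
* `sqrtW`: induction with `sqrt_step`.
* `growth_prob`: Markov (`PP_markov`) applied to `√(7^n/Wd v)` : on the event,
  `√(7^n / Wd v) > 1/√D`.
* `growth_prob'`: on the event `7^n / Wd v > 7^(-n/20) / D`, so `√ > 7^(-n/40) / √D`, and
  `7^(1/40) * 91/100 ≤ 24/25` (`7^(1/40) = 1.04986..`, i.e. `7 ≤ (96/91)^40`).
* `Fr_half`: `Fr v = ∑_{i < n} 7^i / Wd (v.take (i+1))` for `v` of length `n` (induction: `Fr (l::v)
  = (1 + 7 Fr v) / lw l`), so `√(Fr v) ≤ ∑_{i<n} √(7^(i+1)/Wd (v.take (i+1)))`, and `Ex_take`,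
  `growth_half`, geometric series.
* `big_letter`: union bound over the `n` letters, `P_r(lw l ≥ X) ≤ 9 / √X` by `sqrt_step`
  (induction on `n`).
-/

open Finset

namespace Kak

namespace GrowthAux

theorem sqrt_add_le' {a b : ℝ} (ha : 0 ≤ a) (hb : 0 ≤ b) : √(a + b) ≤ √a + √b := by
  rw [Real.sqrt_le_iff]
  have h1 := Real.sqrt_nonneg a
  have h2 := Real.sqrt_nonneg b
  refine ⟨by positivity, ?_⟩
  nlinarith [Real.sq_sqrt ha, Real.sq_sqrt hb, mul_nonneg h1 h2]

theorem VN_low : ∀ r : ZMod 15, r ∈ UU → 28 ≤ VN r := by decide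

theorem VN_high : ∀ r : ZMod 15, r ∈ UU → VN r ≤ 100 := by decide

theorem Wd_pos' (v : List Lt) : (0 : ℝ) < (Wd v : ℝ) := by exact_mod_cast Wd_pos v

theorem lw_pos' (l : Lt) : (0 : ℝ) < (lw l : ℝ) := by exact_mod_cast lw_pos l

theorem key {H : ℕ} (hH : 2 ≤ H) : ∀ (n : ℕ) (r : ZMod 15), r ∈ UU →
    Ex H n r (fun v => √((7 : ℝ) ^ n / Wd v) * ((VN (st r v) : ℝ) / hh (st r v))) ≤
      (91 / 100) ^ n * ((VN r : ℝ) / hh r) := by
  intro n
  induction n with
  | zero =>
    intro r hr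
    rw [Ex_zero]
    simp [Wd, st]
  | succ n ih =>
    intro r hr
    rw [Ex_succ]
    have hhr : 0 < hh r := hh_pos hr
    have h7 : (0 : ℝ) < √7 := Real.sqrt_pos.mpr (by norm_num)
    have hstep : ∀ l ∈ LS H,
        pr H r l • Ex H n (nx r (lw l)) (fun v => √((7 : ℝ) ^ (n + 1) / Wd (l :: v)) *
          ((VN (st r (l :: v)) : ℝ) / hh (st r (l :: v)))) ≤
        (91 / 100) ^ n * (√7 / hh r) * (wt H l / √(lw l : ℝ) * (VN (nx r (lw l)) : ℝ)) := by
      intro l hl
      have hlw := lw_pos' l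
      have hs : 0 < √(lw l : ℝ) := Real.sqrt_pos.mpr hlw
      by_cases hnx : nx r (lw l) ∈ UU
      · have hfun : (fun v => √((7 : ℝ) ^ (n + 1) / Wd (l :: v)) *
            ((VN (st r (l :: v)) : ℝ) / hh (st r (l :: v)))) =
            fun v => (√7 / √(lw l : ℝ)) * (√((7 : ℝ) ^ n / Wd v) *
              ((VN (st (nx r (lw l)) v) : ℝ) / hh (st (nx r (lw l)) v))) := by
          funext v
          have hw := Wd_pos' v
          have e1 : (7 : ℝ) ^ (n + 1) / (Wd (l :: v) : ℕ) = (7 / (lw l : ℝ)) * ((7 : ℝ) ^ n / Wd v) := by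
            simp only [Wd]; push_cast; field_simp; ring
          rw [e1, Real.sqrt_mul (by positivity), Real.sqrt_div (by norm_num)]
          simp only [st]
          ring
        rw [hfun, Ex_mul_left, smul_eq_mul]
        have hpos := hh_pos hnx
        have h1 := ih (nx r (lw l)) hnx
        have h2 : 0 ≤ pr H r l * (√7 / √(lw l : ℝ)) :=
          mul_nonneg (pr_nonneg _ _ _) (by positivity)
        calc pr H r l * (√7 / √(lw l : ℝ) * Ex H n (nx r (lw l)) _)
            = pr H r l * (√7 / √(lw l : ℝ)) * Ex H n (nx r (lw l)) _ := by ring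
          _ ≤ pr H r l * (√7 / √(lw l : ℝ)) *
              ((91 / 100) ^ n * ((VN (nx r (lw l)) : ℝ) / hh (nx r (lw l)))) :=
              mul_le_mul_of_nonneg_left h1 h2
          _ = _ := by
              unfold pr
              field_simp
      · rw [pr_eq_zero hnx, zero_smul]
        have := wt_nonneg H l
        positivity
    refine (Finset.sum_le_sum hstep).trans ?_
    rw [← Finset.mul_sum]
    have hg := grow_step hH hr
    have h3 : 0 ≤ (91 / 100 : ℝ) ^ n * (√7 / hh r) := by positivity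
    refine (mul_le_mul_of_nonneg_left hg h3).trans (le_of_eq ?_)
    rw [pow_succ]
    field_simp

theorem half {H : ℕ} (hH : 2 ≤ H) (n : ℕ) {r : ZMod 15} (hr : r ∈ UU) :
    Ex H n r (fun v => √((7 : ℝ) ^ n / Wd v)) ≤ 7 * (91 / 100) ^ n := by
  have h1 : Ex H n r (fun v => √((7 : ℝ) ^ n / Wd v)) ≤
      Ex H n r (fun v => (19410 / 28) * (√((7 : ℝ) ^ n / Wd v) *
        ((VN (st r v) : ℝ) / hh (st r v)))) := by
    refine Ex_mono H n r fun v _ hv => ?_
    have hst := st_mem v r hr hv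
    have hb := hh_bounds hst
    have hv28 : (28 : ℝ) ≤ (VN (st r v) : ℝ) := by exact_mod_cast VN_low _ hst
    have hpos := hh_pos hst
    have hq : (28 / 19410 : ℝ) ≤ (VN (st r v) : ℝ) / hh (st r v) := by
      rw [div_le_div_iff₀ (by norm_num) hpos]
      nlinarith [hb.2]
    have hs : 0 ≤ √((7 : ℝ) ^ n / Wd v) := Real.sqrt_nonneg _
    have h2 := mul_le_mul_of_nonneg_left hq hs
    linarith
  rw [Ex_mul_left] at h1
  have h2 := key hH n r hr
  have hb := hh_bounds hr
  have hpos := hh_pos hr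
  have hv : (VN r : ℝ) ≤ 100 := by exact_mod_cast VN_high _ hr
  have hq : (VN r : ℝ) / hh r ≤ 100 / 11473 := by
    rw [div_le_div_iff₀ hpos (by norm_num)]
    nlinarith [hb.1]
  have h4 : (0 : ℝ) < (91 / 100 : ℝ) ^ n := by positivity
  have h5 := mul_le_mul_of_nonneg_left hq h4.le
  nlinarith

end GrowthAux

open GrowthAux

theorem growth_half : ∃ C : ℝ, 1 ≤ C ∧ ∀ H, 2 ≤ H → ∀ n : ℕ, ∀ r ∈ UU,
    Ex H n r (fun v => √((7 : ℝ) ^ n / Wd v)) ≤ C * (91 / 100) ^ n :=
  ⟨7, by norm_num, fun _ hH n _ hr => half hH n hr⟩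

theorem sqrtW {H : ℕ} (hH : 2 ≤ H) (n : ℕ) {r : ZMod 15} (hr : r ∈ UU) :
    Ex H n r (fun v => √(Wd v : ℝ)) ≤ 9 ^ n := by
  induction n generalizing r with
  | zero => rw [Ex_zero]; simp [Wd]
  | succ n ih =>
    rw [Ex_succ]
    have hstep : ∀ l ∈ LS H,
        pr H r l • Ex H n (nx r (lw l)) (fun v => √(Wd (l :: v) : ℝ)) ≤
        9 ^ n * (pr H r l * √(lw l : ℝ)) := by
      intro l hl
      by_cases hnx : nx r (lw l) ∈ UU
      · have hfun : (fun v => √(Wd (l :: v) : ℝ)) =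
            fun v => √(lw l : ℝ) * √(Wd v : ℝ) := by
          funext v
          simp only [Wd]; push_cast
          rw [Real.sqrt_mul (by positivity)]
        rw [hfun, Ex_mul_left, smul_eq_mul]
        have h1 := ih hnx
        have h2 : 0 ≤ pr H r l * √(lw l : ℝ) :=
          mul_nonneg (pr_nonneg _ _ _) (Real.sqrt_nonneg _)
        calc pr H r l * (√(lw l : ℝ) * Ex H n (nx r (lw l)) _)
            = pr H r l * √(lw l : ℝ) * Ex H n (nx r (lw l)) _ := by ring
          _ ≤ pr H r l * √(lw l : ℝ) * 9 ^ n := mul_le_mul_of_nonneg_left h1 h2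
          _ = _ := by ring
      · rw [pr_eq_zero hnx, zero_smul]
        simp
    refine (Finset.sum_le_sum hstep).trans ?_
    rw [← Finset.mul_sum, pow_succ]
    exact mul_le_mul_of_nonneg_left (sqrt_step hH hr) (by positivity)

theorem growth_prob : ∃ C : ℝ, 1 ≤ C ∧ ∀ H, 2 ≤ H → ∀ n : ℕ, ∀ r ∈ UU, ∀ D : ℝ, 0 < D →
    PP H n r {v | (Wd v : ℝ) < D * 7 ^ n} ≤ C * √D * (91 / 100) ^ n := by
  refine ⟨7, by norm_num, fun H hH n r hr D hD => ?_⟩
  have hsD : 0 < √D := Real.sqrt_pos.mpr hD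
  have h1 := PP_markov H n r (A := {v | (Wd v : ℝ) < D * 7 ^ n})
    (f := fun v => √((7 : ℝ) ^ n / Wd v)) (c := 1 / √D) (by positivity)
    (fun v _ _ => Real.sqrt_nonneg _) (fun v _ _ hv => ?_)
  · refine h1.trans ?_
    have h2 := half hH n hr
    rw [div_div_eq_mul_div, div_one]
    calc _ ≤ (7 * (91 / 100) ^ n) * √D := mul_le_mul_of_nonneg_right h2 hsD.le
      _ = _ := by ring
  · have hw := Wd_pos' v
    have hv' : (Wd v : ℝ) < D * 7 ^ n := hv
    rw [← Real.sqrt_one, ← Real.sqrt_div (by norm_num)]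
    apply Real.sqrt_le_sqrt
    rw [div_le_div_iff₀ hD hw]
    linarith

theorem growth_prob' : ∃ C : ℝ, 1 ≤ C ∧ ∀ H, 2 ≤ H → ∀ n : ℕ, ∀ r ∈ UU, ∀ D : ℝ, 0 < D →
    PP H n r {v | (Wd v : ℝ) < D * (7 : ℝ) ^ ((21 / 20 : ℝ) * n)} ≤ C * √D * (24 / 25) ^ n := by
  refine ⟨7, by norm_num, fun H hH n r hr D hD => ?_⟩
  have hsD : 0 < √D := Real.sqrt_pos.mpr hD
  set x : ℝ := (7 : ℝ) ^ ((1 / 40 : ℝ)) with hx
  have hx0 : 0 < x := by positivity
  have hx1 : x ≤ 96 / 91 := by
    have h1 : (7 : ℝ) ≤ (96 / 91 : ℝ) ^ (40 : ℕ) := by norm_num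
    calc x ≤ ((96 / 91 : ℝ) ^ (40 : ℕ)) ^ ((1 / 40 : ℝ)) :=
          Real.rpow_le_rpow (by norm_num) h1 (by norm_num)
      _ = 96 / 91 := by
          rw [← Real.rpow_natCast, ← Real.rpow_mul (by norm_num)]
          norm_num
  have hxn : (7 : ℝ) ^ ((1 / 20 : ℝ) * n) = (x ^ n) ^ 2 := by
    calc (7 : ℝ) ^ ((1 / 20 : ℝ) * n) = (7 : ℝ) ^ ((1 / 40 : ℝ) * ((2 * n : ℕ) : ℝ)) := by
          congr 1; push_cast; ring
      _ = x ^ (2 * n) := by rw [Real.rpow_mul (by norm_num : (0:ℝ) ≤ 7), Real.rpow_natCast]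
      _ = (x ^ n) ^ 2 := by rw [← pow_mul, mul_comm]
  have hsplit : (7 : ℝ) ^ ((21 / 20 : ℝ) * n) = 7 ^ n * (x ^ n) ^ 2 := by
    rw [← hxn, ← Real.rpow_natCast, ← Real.rpow_add (by norm_num)]
    congr 1
    ring
  have h1 := PP_markov H n r (A := {v | (Wd v : ℝ) < D * (7 : ℝ) ^ ((21 / 20 : ℝ) * n)})
    (f := fun v => √((7 : ℝ) ^ n / Wd v)) (c := 1 / (√D * x ^ n)) (by positivity)
    (fun v _ _ => Real.sqrt_nonneg _) (fun v _ _ hv => ?_)
  · refine h1.trans ?_
    have h2 := half hH n hr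
    rw [div_div_eq_mul_div, div_one]
    calc _ ≤ (7 * (91 / 100) ^ n) * (√D * x ^ n) :=
          mul_le_mul_of_nonneg_right h2 (by positivity)
      _ ≤ (7 * (91 / 100) ^ n) * (√D * (96 / 91) ^ n) := by
          gcongr
      _ = 7 * √D * ((91 / 100) ^ n * (96 / 91) ^ n) := by ring
      _ = _ := by rw [← mul_pow]; norm_num
  · have hw := Wd_pos' v
    have hv' : (Wd v : ℝ) < D * (7 : ℝ) ^ ((21 / 20 : ℝ) * n) := hv
    rw [hsplit] at hv'
    apply Real.le_sqrt_of_sq_le
    rw [div_pow, mul_pow, Real.sq_sqrt hD.le, one_pow, div_le_div_iff₀ (by positivity) hw]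
    linarith

theorem Fr_half : ∃ C : ℝ, 1 ≤ C ∧ ∀ H, 2 ≤ H → ∀ n : ℕ, ∀ r ∈ UU,
    Ex H n r (fun v => √(Fr v)) ≤ C := by
  have main : ∀ H, 2 ≤ H → ∀ n : ℕ, ∀ r ∈ UU,
      Ex H n r (fun v => √(Fr v)) ≤ 700 / 9 * (1 - (91 / 100) ^ n) := by
    intro H hH n
    induction n with
    | zero => intro r hr; rw [Ex_zero]; simp [Fr, Gd]
    | succ n ih =>
      intro r hr
      have h1 := Ex_append_le H n 1 r (f := fun v => √(Fr v))
        (g := fun v => √(Fr v) + √((7 : ℝ) ^ n / Wd v)) (fun v hv hv' => ?_)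
      · rw [Ex_add] at h1
        have h2 := ih r hr
        have h3 := half hH n hr
        rw [pow_succ]
        linarith
      · refine Ex_le_const hH 1 (st_mem v r hr hv') fun u hu hu' => ?_
        obtain ⟨l, rfl⟩ := List.length_eq_one_iff.mp hu
        have hw := Wd_pos' v
        have hl := lw_pos' l
        have hlN : (1 : ℝ) ≤ (lw l : ℝ) := by exact_mod_cast lw_pos l
        have hF0 : 0 ≤ Fr v := by unfold Fr; positivity
        have e : Fr (v ++ [l]) = Fr v + (7 : ℝ) ^ n / Wd v / lw l := by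
          unfold Fr
          rw [Gd_append, Wd_append, hv]
          simp only [Wd, Gd]
          push_cast
          field_simp
        have e2 : Fr (v ++ [l]) ≤ Fr v + (7 : ℝ) ^ n / Wd v := by
          rw [e]
          have : (7 : ℝ) ^ n / Wd v / lw l ≤ (7 : ℝ) ^ n / Wd v :=
            div_le_self (by positivity) hlN
          linarith
        refine (Real.sqrt_le_sqrt e2).trans ?_
        exact sqrt_add_le' hF0 (by positivity)
  refine ⟨700 / 9, by norm_num, fun H hH n r hr => (main H hH n r hr).trans ?_⟩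
  have h4 : (0 : ℝ) < (91 / 100 : ℝ) ^ n := by positivity
  nlinarith

theorem big_letter {H : ℕ} (hH : 2 ≤ H) (n : ℕ) {r : ZMod 15} (hr : r ∈ UU) {X : ℝ}
    (hX : 0 < X) : PP H n r {v | ∃ l ∈ v, X ≤ (lw l : ℝ)} ≤ n * (9 / √X) := by
  classical
  have hsX : 0 < √X := Real.sqrt_pos.mpr hX
  induction n generalizing r with
  | zero =>
    unfold PP
    rw [Ex_zero, Set.indicator_of_notMem]
    · simp
    · simp
  | succ n ih =>
    unfold PP
    rw [Ex_succ]
    have hstep : ∀ l ∈ LS H,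
        pr H r l • Ex H n (nx r (lw l)) (fun v => ({v | ∃ l ∈ v, X ≤ (lw l : ℝ)} :
          Set (List Lt)).indicator (fun _ => (1 : ℝ)) (l :: v)) ≤
        1 / √X * (pr H r l * √(lw l : ℝ)) + (n * (9 / √X)) * pr H r l := by
      intro l hl
      by_cases hnx : nx r (lw l) ∈ UU
      · have h1 : Ex H n (nx r (lw l)) (fun v => ({v | ∃ l ∈ v, X ≤ (lw l : ℝ)} :
            Set (List Lt)).indicator (fun _ => (1 : ℝ)) (l :: v)) ≤
            √(lw l : ℝ) / √X + PP H n (nx r (lw l)) {v | ∃ l ∈ v, X ≤ (lw l : ℝ)} := by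
          have hc : Ex H n (nx r (lw l)) (fun _ => √(lw l : ℝ) / √X) = √(lw l : ℝ) / √X :=
            Ex_const hH n hnx _
          rw [← hc]
          unfold PP
          rw [← Ex_add]
          refine Ex_mono H n _ fun v _ _ => ?_
          by_cases hXl : X ≤ (lw l : ℝ)
          · have h2 : 1 ≤ √(lw l : ℝ) / √X := by
              rw [one_le_div hsX]; exact Real.sqrt_le_sqrt hXl
            have h3 : ({v | ∃ l ∈ v, X ≤ (lw l : ℝ)} : Set (List Lt)).indicator
                (fun _ => (1 : ℝ)) (l :: v) ≤ 1 :=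
              Set.indicator_le_self' (fun _ _ => zero_le_one) _
            have h4 : 0 ≤ ({v | ∃ l ∈ v, X ≤ (lw l : ℝ)} : Set (List Lt)).indicator
                (fun _ => (1 : ℝ)) v := Set.indicator_nonneg (fun _ _ => zero_le_one) _
            linarith
          · have h2 : 0 ≤ √(lw l : ℝ) / √X := by positivity
            have h3 : ({v | ∃ l ∈ v, X ≤ (lw l : ℝ)} : Set (List Lt)).indicator
                (fun _ => (1 : ℝ)) (l :: v) = ({v | ∃ l ∈ v, X ≤ (lw l : ℝ)} :
                Set (List Lt)).indicator (fun _ => (1 : ℝ)) v := by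
              by_cases hv : v ∈ ({v | ∃ l ∈ v, X ≤ (lw l : ℝ)} : Set (List Lt))
              · rw [Set.indicator_of_mem hv, Set.indicator_of_mem]
                obtain ⟨l', hl', hx⟩ := hv
                exact ⟨l', List.mem_cons_of_mem _ hl', hx⟩
              · rw [Set.indicator_of_notMem hv, Set.indicator_of_notMem]
                rintro ⟨l', hl', hx⟩
                rcases List.mem_cons.mp hl' with rfl | h'
                · exact hXl hx
                · exact hv ⟨l', h', hx⟩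
            rw [h3]
            linarith
        have h5 := ih hnx
        have h6 := pr_nonneg H r l
        rw [smul_eq_mul]
        calc _ ≤ pr H r l * (√(lw l : ℝ) / √X + n * (9 / √X)) :=
              mul_le_mul_of_nonneg_left (h1.trans (by linarith)) h6
          _ = _ := by ring
      · rw [pr_eq_zero hnx, zero_smul]
        simp
    refine (Finset.sum_le_sum hstep).trans ?_
    rw [Finset.sum_add_distrib, ← Finset.mul_sum, ← Finset.mul_sum, pr_sum hH hr]
    have h7 := mul_le_mul_of_nonneg_left (sqrt_step hH hr) (show 0 ≤ 1 / √X by positivity)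
    push_cast
    calc _ ≤ 1 / √X * 9 + n * (9 / √X) * 1 := by linarith
      _ = _ := by ring

end Kak
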