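import Pool.Agent.Lib.Kak.Sep
import Pool.Agent.Lib.Kak.ExitOver
import Pool.Agent.Lib.Kak.Growth
import Pool.Agent.Lib.Kak.CoinLD

/-!
# Kak.ShortExit: a point which is not deep leaves the black set quickly

PROOF.  Constants: let `C1` be the constant of `growth_prob`, `C2` the constant of `exitPair`.
Choose `D1 ≥ 1` with `C1 / √D1 * ∑_t (91/100)^(2t) ≤ 1/8`, `B ≥ 1` with `C2 / √B ≤ 1/8`, then
`0 < ε ≤ 1/2^10` with `ε 2^8 B (1 + D1) < 1`, and `C3 = 30`, so that `(24/25)^(2 (C3 - 1)) ≤ 1/8`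


Let `s ≥ C3 (L+1)`, `s ≤ m`; so `s ≥ 1`, `m ≥ 1`.  If `r, ξ` is not black at level `m` then the event
in `Fb` is empty (`t = 0`: `Wd [] = 1`, `iv 1 = 1`), `Fb = 0`.  Otherwise let `Z` be the integer of
`Blk ε m r ξ`: `|Z| ≤ ε 2^(4 + al0 r) 7^(2m) ≤ ε 2^8 7^(2m)`; as `Dp ε L m ξ` fails, `30^L ∤ Z`, so for
some `p ∈ {2,3,5}`, `p^L ∤ Z`; in particular `Z ≠ 0`.
Let `𝔅` be the event that all points at the times `t < s` are black, and (for words `v` of length `2s`)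
* `E1`: for some `t < s`, `Wd (v.take (2t)) < (1/D1) 7^(2t)`; by `growth_prob` (and `PP_take`),
  `P(E1) ≤ ∑_t C1 √(1/D1) (91/100)^(2t) ≤ 1/8`.
* `E2`: `e_p (v.take (2 (s-1))) < L`.  For `p = 2` impossible (`length_le_ea`, `2(s-1) ≥ L`).  For
  `p = 3, 5`: `16 e_p < 16 L ≤ 2 (s-1)` (as `s - 1 ≥ 8 L`, from `C3 ≥ 9`), so by `eb_low`, `ec_low`
  `P(E2) ≤ (24/25)^(2(s-1)) ≤ 1/8`.
* `E3`: for some `t ∈ [1, s-1]`: `v ∈ ExitAt Z t` and `den (Wd (v.take (2t))) Z ≥ B`; by Markov and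
  `exitPair`, `P(E3) ≤ C2/√B ≤ 1/8`.
Claim: `𝔅 ⊆ E1 ∪ E2 ∪ E3`; this gives `Fb ≤ 3/8 ≤ 1/2`.  Let `v ∈ 𝔅` outside `E1 ∪ E2 ∪ E3`.  As
`e_p (v.take (2(s-1))) ≥ L` and `p^L ∤ Z`, `Wd (v.take (2(s-1))) ∤ Z`; while `Wd (v.take 0) = 1 ∣ Z`.
So there is `t ∈ [1, s-1]` with `v ∈ ExitAt Z t` (first time), and `d = den (Wd (v.take (2t))) Z < B`.
At the time `t` the point is black: let `Z'` be its integer, `|Z'| ≤ ε 2^8 7^(2m')`, `m' = m - t`.
By `unif` with `W = Wd (v.take (2t))` (`≥ 7^(2t)/D1`):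
`7^(2m') ≤ d |Z'| + d |Z| / W ≤ B ε 2^8 7^(2m') + B ε 2^8 7^(2m) D1 / 7^(2t)
= ε 2^8 B (1 + D1) 7^(2m') < 7^(2m')`, contradiction.
(`IsUnit ξ` is not really needed.)
-/

open Finset

namespace Kak

namespace ShortExitAux

theorem al0_le (r : ZMod 15) : al0 r ≤ 4 := by
  unfold al0
  split_ifs <;> norm_num

theorem blk_le {ε : ℝ} (hε : 0 ≤ ε) {m : ℕ} {r : ZMod 15} {Z : ℤ}
    (h : |(Z : ℝ)| ≤ ε * 2 ^ (4 + al0 r) * 7 ^ (2 * m)) : |(Z : ℝ)| ≤ ε * 2 ^ 8 * 7 ^ (2 * m) := by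
  refine h.trans ?_
  have h1 : (2 : ℝ) ^ (4 + al0 r) ≤ 2 ^ 8 :=
    pow_le_pow_right₀ (by norm_num) (by have := al0_le r; omega)
  have h2 : (0 : ℝ) ≤ 7 ^ (2 * m) := by positivity
  exact mul_le_mul_of_nonneg_right (mul_le_mul_of_nonneg_left h1 hε) h2

theorem geo (s : ℕ) : ∑ t ∈ range s, ((91 / 100 : ℝ)) ^ (2 * t) ≤ 6 := by
  have h1 : ∀ t ∈ range s, ((91 / 100 : ℝ)) ^ (2 * t) = ((91 / 100 : ℝ) ^ 2) ^ t := by
    intro t _
    rw [pow_mul]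
  rw [sum_congr rfl h1]
  have h2 := (summable_geometric_of_lt_one (r := (91 / 100 : ℝ) ^ 2) (by norm_num)
    (by norm_num)).sum_le_tsum (range s) (fun i _ => by positivity)
  rw [tsum_geometric_of_lt_one (by norm_num) (by norm_num)] at h2
  refine h2.trans ?_
  norm_num

theorem e1 {C : ℝ} (hC : 1 ≤ C) (hg : ∀ H, 2 ≤ H → ∀ n : ℕ, ∀ r ∈ UU, ∀ D : ℝ, 0 < D →
    PP H n r {v | (Wd v : ℝ) < D * 7 ^ n} ≤ C * √D * (91 / 100) ^ n)
    {H : ℕ} (hH : 2 ≤ H) {r : ZMod 15} (hr : r ∈ UU) (s : ℕ) :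
    PP H (2 * s) r (⋃ t ∈ range s,
      {v : List Lt | v.take (2 * t) ∈ {u : List Lt | (Wd u : ℝ) < 1 / (48 * C) ^ 2 * 7 ^ (2 * t)}}) ≤
      1 / 8 := by
  have hC0 : 0 < C := by linarith
  refine (PP_biUnion_le H (2 * s) r (range s) _).trans ?_
  have h1 : ∀ t ∈ range s, PP H (2 * s) r
      {v : List Lt | v.take (2 * t) ∈ {u : List Lt | (Wd u : ℝ) < 1 / (48 * C) ^ 2 * 7 ^ (2 * t)}} ≤
        1 / 48 * (91 / 100) ^ (2 * t) := by
    intro t ht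
    have ht' := mem_range.1 ht
    rw [PP_take hH (by omega : 2 * t ≤ 2 * s) hr]
    refine (hg H hH (2 * t) r hr (1 / (48 * C) ^ 2) (by positivity)).trans ?_
    have h2 : √(1 / (48 * C) ^ 2) = 1 / (48 * C) := by
      rw [show 1 / (48 * C) ^ 2 = (1 / (48 * C)) ^ 2 by rw [div_pow, one_pow]]
      exact Real.sqrt_sq (by positivity)
    rw [h2]
    have h3 : C * (1 / (48 * C)) = 1 / 48 := by
      field_simp
    rw [h3]
  refine (sum_le_sum h1).trans ?_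
  rw [← mul_sum]
  linarith [geo s]

theorem e3 {C : ℝ} (hC : 1 ≤ C) (hg : ∀ H, 2 ≤ H → ∀ r ∈ UU, ∀ Z : ℤ, Z ≠ 0 → ∀ n : ℕ,
    ∑ t ∈ Icc 1 n, Ex H (2 * t) r ((ExitAt Z t).indicator (fun v => √(den (Wd v) Z : ℝ))) ≤ C)
    {H : ℕ} (hH : 2 ≤ H) {r : ZMod 15} (hr : r ∈ UU) (s : ℕ) {Z : ℤ} (hZ : Z ≠ 0) :
    PP H (2 * s) r (⋃ t ∈ Icc 1 (s - 1),
      {v : List Lt | v.take (2 * t) ∈ {u : List Lt | u ∈ ExitAt Z t ∧
        (8 * C) ^ 2 ≤ (den (Wd u) Z : ℝ)}}) ≤ 1 / 8 := by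
  have hC0 : 0 < C := by linarith
  refine (PP_biUnion_le H (2 * s) r (Icc 1 (s - 1)) _).trans ?_
  have h1 : ∀ t ∈ Icc 1 (s - 1), PP H (2 * s) r
      {v : List Lt | v.take (2 * t) ∈ {u : List Lt | u ∈ ExitAt Z t ∧
        (8 * C) ^ 2 ≤ (den (Wd u) Z : ℝ)}} ≤
      Ex H (2 * t) r ((ExitAt Z t).indicator (fun v => √(den (Wd v) Z : ℝ))) / (8 * C) := by
    intro t ht
    have ht' := mem_Icc.1 ht
    rw [PP_take hH (by omega : 2 * t ≤ 2 * s) hr]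
    refine PP_markov H (2 * t) r (by positivity) ?_ ?_
    · intro v _ _
      exact Set.indicator_nonneg (fun _ _ => Real.sqrt_nonneg _) v
    · rintro v _ _ ⟨hv1, hv2⟩
      rw [Set.indicator_of_mem hv1]
      exact Real.le_sqrt_of_sq_le hv2
  refine (sum_le_sum h1).trans ?_
  rw [← sum_div]
  have h2 := hg H hH r hr Z hZ (s - 1)
  calc _ ≤ C / (8 * C) := div_le_div_of_nonneg_right h2 (by positivity)
    _ = 1 / 8 := by field_simp

theorem e2b {H : ℕ} (hH : 2 ≤ H) {r : ZMod 15} (hr : r ∈ UU) {L s : ℕ} (hs : 30 * (L + 1) ≤ s) :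
    PP H (2 * s) r {v : List Lt | v.take (2 * (s - 1)) ∈ {u : List Lt | eb u < L}} ≤ 1 / 10 := by
  rw [PP_take hH (by omega : 2 * (s - 1) ≤ 2 * s) hr]
  have h1 : PP H (2 * (s - 1)) r {u : List Lt | eb u < L} ≤
      PP H (2 * (s - 1)) r {v | 16 * eb v < 2 * (s - 1)} := by
    refine PP_mono H _ r fun v _ _ hv => ?_
    have hv' : eb v < L := hv
    show 16 * eb v < 2 * (s - 1)
    omega
  refine (h1.trans (eb_low hH (2 * (s - 1)) hr)).trans ?_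
  have h2 : ((24 / 25 : ℝ)) ^ (2 * (s - 1)) ≤ (24 / 25) ^ 58 :=
    pow_le_pow_of_le_one (by norm_num) (by norm_num) (by omega)
  refine h2.trans ?_
  norm_num

theorem e2c {H : ℕ} (hH : 2 ≤ H) {r : ZMod 15} (hr : r ∈ UU) {L s : ℕ} (hs : 30 * (L + 1) ≤ s) :
    PP H (2 * s) r {v : List Lt | v.take (2 * (s - 1)) ∈ {u : List Lt | ec u < L}} ≤ 1 / 10 := by
  rw [PP_take hH (by omega : 2 * (s - 1) ≤ 2 * s) hr]
  have h1 : PP H (2 * (s - 1)) r {u : List Lt | ec u < L} ≤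
      PP H (2 * (s - 1)) r {v | 16 * ec v < 2 * (s - 1)} := by
    refine PP_mono H _ r fun v _ _ hv => ?_
    have hv' : ec v < L := hv
    show 16 * ec v < 2 * (s - 1)
    omega
  refine (h1.trans (ec_low hH (2 * (s - 1)) hr)).trans ?_
  have h2 : ((24 / 25 : ℝ)) ^ (2 * (s - 1)) ≤ (24 / 25) ^ 58 :=
    pow_le_pow_of_le_one (by norm_num) (by norm_num) (by omega)
  refine h2.trans ?_
  norm_num

end ShortExitAux

theorem shortExit : ∃ ε : ℝ, 0 < ε ∧ ε ≤ 1 / 2 ^ 10 ∧ ∃ C3 : ℕ, 1 ≤ C3 ∧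
    ∀ H, 2 ≤ H → ∀ m : ℕ, ∀ r ∈ UU, ∀ ξ : ℤ_[7], IsUnit ξ → ∀ L s : ℕ,
      C3 * (L + 1) ≤ s → s ≤ m → ¬ Dp ε L m ξ → Fb H ε s m r ξ ≤ 1 / 2 := by
  obtain ⟨C1, hC1, hg1⟩ := growth_prob
  obtain ⟨C2, hC2, hg2⟩ := exitPair
  set B : ℝ := (8 * C2) ^ 2 with hB
  set D1 : ℝ := (48 * C1) ^ 2 with hD1
  have hB1 : 1 ≤ B := by
    rw [hB]
    exact one_le_pow₀ (by linarith)
  have hD11 : 1 ≤ D1 := by
    rw [hD1]
    exact one_le_pow₀ (by linarith)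
  have hBD : 1 ≤ B * (1 + D1) := by
    nlinarith
  refine ⟨1 / (2 ^ 10 * (B * (1 + D1))), by positivity, ?_, 30, by norm_num, ?_⟩
  · refine one_div_le_one_div_of_le (by norm_num) ?_
    nlinarith
  set ε : ℝ := 1 / (2 ^ 10 * (B * (1 + D1))) with hεdef
  have hε : 0 < ε := by positivity
  have hεB : ε * 2 ^ 8 * (B * (1 + D1)) = 1 / 4 := by
    rw [hεdef]
    field_simp
    norm_num
  intro H hH m r hr ξ _ L s hs hsm hD
  unfold Fb
  by_cases hb : Blk ε m r ξ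
  swap
  · have h0 : PP H (2 * s) r {v | ∀ t < s,
        Blk ε (m - t) (st r (v.take (2 * t))) (ξ * iv (Wd (v.take (2 * t))))} ≤
        PP H (2 * s) r (∅ : Set (List Lt)) := by
      refine PP_mono H _ r fun v _ _ hv => ?_
      refine (hb ?_).elim
      have := hv 0 (by omega)
      rw [Nat.sub_zero, Nat.mul_zero, List.take_zero, show Wd [] = 1 from rfl, iv_one,
        mul_one] at this
      exact this
    refine h0.trans ?_
    have h1 : PP H (2 * s) r (∅ : Set (List Lt)) = 0 := by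
      unfold PP
      rw [Set.indicator_empty]
      exact Ex_zero_fun H (2 * s) r
    rw [h1]
    norm_num
  obtain ⟨Z, hZ1, _, hZ3⟩ := hb
  have hZb := ShortExitAux.blk_le hε.le hZ3
  have h30 : ¬ (30 : ℤ) ^ L ∣ Z := fun h => hD ⟨Z, hZ1, h, hZb⟩
  have hZ0 : Z ≠ 0 := by
    rintro rfl
    exact h30 (dvd_zero _)
  set E1 : Set (List Lt) := ⋃ t ∈ range s, {v : List Lt | v.take (2 * t) ∈
    {u : List Lt | (Wd u : ℝ) < 1 / (48 * C1) ^ 2 * 7 ^ (2 * t)}} with hE1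
  set E3 : Set (List Lt) := ⋃ t ∈ Icc 1 (s - 1), {v : List Lt | v.take (2 * t) ∈
    {u : List Lt | u ∈ ExitAt Z t ∧ (8 * C2) ^ 2 ≤ (den (Wd u) Z : ℝ)}} with hE3
  set E2 : Set (List Lt) := {v : List Lt | v.take (2 * (s - 1)) ∈ {u : List Lt | eb u < L}} with hE2
  set E4 : Set (List Lt) := {v : List Lt | v.take (2 * (s - 1)) ∈ {u : List Lt | ec u < L}} with hE4
  have p1 : PP H (2 * s) r E1 ≤ 1 / 8 := ShortExitAux.e1 hC1 hg1 hH hr s
  have p2 : PP H (2 * s) r E2 ≤ 1 / 10 := ShortExitAux.e2b hH hr hs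
  have p3 : PP H (2 * s) r E3 ≤ 1 / 8 := ShortExitAux.e3 hC2 hg2 hH hr s hZ0
  have p4 : PP H (2 * s) r E4 ≤ 1 / 10 := ShortExitAux.e2c hH hr hs
  have hsub : PP H (2 * s) r {v | ∀ t < s,
      Blk ε (m - t) (st r (v.take (2 * t))) (ξ * iv (Wd (v.take (2 * t))))} ≤
      PP H (2 * s) r ((E1 ∪ E2) ∪ (E3 ∪ E4)) := by
    refine PP_mono H _ r fun v hvl hok hv => ?_
    by_contra hn
    have hn1 : v ∉ E1 := fun h => hn (Or.inl (Or.inl h))
    have hn2 : v ∉ E2 := fun h => hn (Or.inl (Or.inr h))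
    have hn3 : v ∉ E3 := fun h => hn (Or.inr (Or.inl h))
    have hn4 : v ∉ E4 := fun h => hn (Or.inr (Or.inr h))
    -- the last time
    have hlast : ¬ ((Wd (v.take (2 * (s - 1))) : ℕ) : ℤ) ∣ Z := by
      intro hdv
      refine h30 (dvd_trans ?_ hdv)
      have ha : L ≤ ea (v.take (2 * (s - 1))) := by
        have h1 := length_le_ea (Ok_take hok (2 * (s - 1)))
        rw [List.length_take, hvl] at h1
        omega
      have hb : L ≤ eb (v.take (2 * (s - 1))) := by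
        by_contra h
        exact hn2 (show eb (v.take (2 * (s - 1))) < L by omega)
      have hc : L ≤ ec (v.take (2 * (s - 1))) := by
        by_contra h
        exact hn4 (show ec (v.take (2 * (s - 1))) < L by omega)
      rw [Wd_eq]
      have h1 : (30 : ℕ) ^ L ∣ 2 ^ ea (v.take (2 * (s - 1))) * 3 ^ eb (v.take (2 * (s - 1))) *
          5 ^ ec (v.take (2 * (s - 1))) := by
        rw [show (30 : ℕ) = 2 * 3 * 5 by norm_num, mul_pow, mul_pow]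
        exact Nat.mul_dvd_mul (Nat.mul_dvd_mul (pow_dvd_pow 2 ha) (pow_dvd_pow 3 hb))
          (pow_dvd_pow 5 hc)
      have h2 := Int.natCast_dvd_natCast.2 h1
      rwa [Nat.cast_pow, Nat.cast_ofNat] at h2
    -- the exit time
    have hex : ∃ t, ¬ ((Wd (v.take (2 * t)) : ℕ) : ℤ) ∣ Z := ⟨s - 1, hlast⟩
    classical
    set t := Nat.find hex with ht
    have ht1 : ¬ ((Wd (v.take (2 * t)) : ℕ) : ℤ) ∣ Z := Nat.find_spec hex
    have ht2 : t ≤ s - 1 := Nat.find_min' hex hlast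
    have ht0 : 1 ≤ t := by
      by_contra h0
      have h0' : t = 0 := by omega
      rw [h0'] at ht1
      refine ht1 ?_
      rw [Nat.mul_zero, List.take_zero, show Wd [] = 1 from rfl]
      exact one_dvd _
    have ht3 : ((Wd (v.take (2 * t - 2)) : ℕ) : ℤ) ∣ Z := by
      have h1 := Nat.find_min hex (show t - 1 < t by omega)
      rw [not_not] at h1
      rwa [show 2 * t - 2 = 2 * (t - 1) by omega]
    have hd : (den (Wd (v.take (2 * t))) Z : ℝ) < B := by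
      by_contra h
      push Not at h
      refine hn3 ?_
      rw [hE3]
      refine Set.mem_iUnion₂.2 ⟨t, mem_Icc.2 ⟨ht0, ht2⟩, ?_⟩
      refine ⟨⟨?_, ?_⟩, ?_⟩
      · rw [List.take_take, min_eq_left (by omega)]
        exact ht3
      · rw [List.take_take, min_self]
        exact ht1
      · exact h
    have hW : 1 / D1 * 7 ^ (2 * t) ≤ (Wd (v.take (2 * t)) : ℝ) := by
      by_contra h
      push Not at h
      refine hn1 ?_
      rw [hE1]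
      exact Set.mem_iUnion₂.2 ⟨t, mem_range.2 (by omega), h⟩
    obtain ⟨Z', hZ'1, _, hZ'3⟩ := hv t (by omega)
    have hZ'b := ShortExitAux.blk_le hε.le hZ'3
    have hWpos : 0 < Wd (v.take (2 * t)) := Wd_pos _
    have hu := unif (by omega : m - t ≤ m) (not_dvd_Wd _) hWpos hZ1 hZ'1 ht1
    set d : ℝ := (den (Wd (v.take (2 * t))) Z : ℝ) with hddef
    have hd0 : 0 ≤ d := Nat.cast_nonneg _
    set W : ℝ := (Wd (v.take (2 * t)) : ℝ) with hWdef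
    have hW0 : 0 < W := Nat.cast_pos.2 hWpos
    have hX : (0 : ℝ) < 7 ^ (2 * (m - t)) := by positivity
    have hY : (0 : ℝ) < 7 ^ (2 * t) := by positivity
    have hm7 : (7 : ℝ) ^ (2 * m) = 7 ^ (2 * (m - t)) * 7 ^ (2 * t) := by
      rw [← pow_add]
      congr 1
      omega
    have k1 : d * |(Z' : ℝ)| ≤ B * (ε * 2 ^ 8 * 7 ^ (2 * (m - t))) :=
      mul_le_mul hd.le hZ'b (abs_nonneg _) (by positivity)
    have k2 : d * |(Z : ℝ)| / W ≤ B * (ε * 2 ^ 8 * 7 ^ (2 * (m - t))) * D1 := by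
      rw [div_le_iff₀ hW0]
      have h1 : d * |(Z : ℝ)| ≤ B * (ε * 2 ^ 8 * 7 ^ (2 * m)) :=
        mul_le_mul hd.le hZb (abs_nonneg _) (by positivity)
      refine h1.trans ?_
      rw [hm7]
      have h2 : (7 : ℝ) ^ (2 * t) ≤ D1 * W := by
        have h3 := mul_le_mul_of_nonneg_left hW (by positivity : (0 : ℝ) ≤ D1)
        have h4 : D1 * (1 / D1 * 7 ^ (2 * t)) = (7 : ℝ) ^ (2 * t) := by
          field_simp
        linarith
      calc B * (ε * 2 ^ 8 * (7 ^ (2 * (m - t)) * 7 ^ (2 * t)))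
          = B * (ε * 2 ^ 8 * 7 ^ (2 * (m - t))) * 7 ^ (2 * t) := by ring
        _ ≤ B * (ε * 2 ^ 8 * 7 ^ (2 * (m - t))) * (D1 * W) :=
            mul_le_mul_of_nonneg_left h2 (by positivity)
        _ = _ := by ring
    have k3 : B * (ε * 2 ^ 8 * 7 ^ (2 * (m - t))) + B * (ε * 2 ^ 8 * 7 ^ (2 * (m - t))) * D1 =
        1 / 4 * 7 ^ (2 * (m - t)) := by
      rw [← hεB]
      ring
    linarith
  refine hsub.trans ?_
  have u1 := PP_union_le H (2 * s) r (E1 ∪ E2) (E3 ∪ E4)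
  have u2 := PP_union_le H (2 * s) r E1 E2
  have u3 := PP_union_le H (2 * s) r E3 E4
  linarith

end Kak
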