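import Pool.Agent.Lib.Kak.LongStep
import Pool.Agent.Lib.Kak.ShortExit
import Pool.Agent.Lib.Kak.FL1
import Pool.Agent.Lib.Kak.QRec

/-!
# Kak.Decay: polynomial decay of all orders of the characteristic function

PROOF.
1. From `shortExit` (`ε`, `C3`) and `TT_gain`: if `C3 (L+1) ≤ s ≤ m` and `¬ Dp ε L m ξ` then
   `TT H s m r ξ 1 ≤ 1 - (ε^2/2^15)(1/2) = 1 - η`, `η = ε^2/2^16`.
2. Let `A` be given, `δ = 1/(2 * 50^A)`, and `C, θ, m1` from `longStep`.  Claim: there is `B` with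
   `QQ H m r ξ ≤ B / m^A` for all `H ≥ 2`, `m ≥ 1`, `r ∈ UU`, units `ξ`.  Take `B ≥ m1^A`, `B ≥ 1` and
   `B ≥ 2 C θ^m m^A` for all `m` (bounded since `θ < 1`).  Strong induction on `m`: for `m < m1` (or
   `m ≤ 1`) use `QQ ≤ 1 ≤ B / m^A`.  For `m ≥ m1`: for `m'` with `m ≤ 50 m'`, `m' < m` (so `m' ≥ 1`):
   `QQ ≤ B / m'^A ≤ B 50^A / m^A =: u`, and `longStep` gives
   `QQ ≤ C θ^m + δ u ≤ (B/2)/m^A + (B/2)/m^A`.
3. `‖Phi H (2m) r ξ φ‖ ≤ QQ H m r ξ` (`Phi_le_QQ`).  For `n = 2m+1` expand the first letter: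
   `Phi H (2m+1) r ξ φ = ∑_l pr ph(2m+1)(ξ iv(lw l)) Phi H (2m) (nx) (ξ iv (lw l)) φ`
   (`Fp (l::v) = (1 + 7 Fp v) iv (lw l)`, `ph_add`, `ph_level` with `j = 1`), so
   `‖Phi H (2m+1)‖ ≤ B/m^A` for `m ≥ 1`; and `n = 2m ≤ 3m`, `n = 2m + 1 ≤ 3m`, so the bound
   `3^A B / n^A` holds for `n ≥ 2`; for `n = 1`: `‖Phi‖ ≤ 1`.
-/

open Finset

namespace Kak

theorem decayQ (A : ℕ) : ∃ B : ℝ, 1 ≤ B ∧ ∀ H, 2 ≤ H → ∀ m : ℕ, 1 ≤ m → ∀ r ∈ UU,
    ∀ ξ : ℤ_[7], IsUnit ξ → QQ H m r ξ ≤ B / (m : ℝ) ^ A := by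
  obtain ⟨ε, hε0, hε1, C3, hC3, hSE⟩ := shortExit
  have hεh : ε ≤ 1 / 2 := hε1.trans (by norm_num)
  set η : ℝ := ε ^ 2 / 2 ^ 16 with hη
  have hη0 : 0 < η := by positivity
  have hη1 : η ≤ 1 := by
    rw [hη, div_le_one (by positivity)]
    have : ε ^ 2 ≤ 1 := pow_le_one₀ hε0.le (by linarith)
    linarith [show (1 : ℝ) ≤ 2 ^ 16 by norm_num]
  have hS : ∀ H, 2 ≤ H → ∀ m : ℕ, ∀ r ∈ UU, ∀ ξ : ℤ_[7], IsUnit ξ → ∀ L s : ℕ,
      C3 * (L + 1) ≤ s → s ≤ m → ¬ Dp ε L m ξ → TT H s m r ξ (fun _ _ => 1) ≤ 1 - η := by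
    intro H hH m r hr ξ hξ L s h1 h2 h3
    have hF := hSE H hH m r hr ξ hξ L s h1 h2 h3
    have hT := TT_gain hH hε0 hεh s m hr ξ
    have : ε ^ 2 / 2 ^ 15 * (1 - Fb H ε s m r ξ) ≥ η := by
      have h5 : ε ^ 2 / 2 ^ 15 * (1 - Fb H ε s m r ξ) ≥ ε ^ 2 / 2 ^ 15 * (1 / 2) :=
        mul_le_mul_of_nonneg_left (by linarith) (by positivity)
      have h6 : ε ^ 2 / 2 ^ 15 * (1 / 2) = η := by rw [hη]; ring
      linarith
    linarith
  have hδ : (0 : ℝ) < 1 / (2 * 50 ^ A) := by positivity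
  obtain ⟨C, θ, hC, hθ0, hθ1, m1, hL⟩ := longStep hε0 hε1 hη0 hη1 hC3 hS hδ
  have hlim : Filter.Tendsto (fun m : ℕ => (m : ℝ) ^ A * θ ^ m) Filter.atTop (nhds 0) :=
    tendsto_pow_const_mul_const_pow_of_lt_one A hθ0.le hθ1
  obtain ⟨K, hK⟩ := hlim.bddAbove_range
  have hKb : ∀ m : ℕ, (m : ℝ) ^ A * θ ^ m ≤ K := fun m => hK ⟨m, rfl⟩
  refine ⟨max 1 (max ((m1 : ℝ) ^ A) (2 * C * K)), le_max_left _ _, ?_⟩
  set B := max 1 (max ((m1 : ℝ) ^ A) (2 * C * K)) with hB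
  have hB1 : 1 ≤ B := le_max_left _ _
  have hB2 : (m1 : ℝ) ^ A ≤ B := (le_max_left _ _).trans (le_max_right _ _)
  have hB3 : 2 * C * K ≤ B := (le_max_right _ _).trans (le_max_right _ _)
  intro H hH m
  induction m using Nat.strong_induction_on with
  | _ m ih =>
    intro hm r hr ξ hξ
    have hm0 : (0 : ℝ) < m := by exact_mod_cast hm
    have hmA : (0 : ℝ) < (m : ℝ) ^ A := by positivity
    by_cases hlt : m < m1
    · refine (QQ_le_one hH m hr ξ).trans ?_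
      rw [le_div_iff₀ hmA, one_mul]
      refine le_trans ?_ hB2
      exact pow_le_pow_left₀ hm0.le (by exact_mod_cast hlt.le) A
    · push Not at hlt
      have hu0 : (0 : ℝ) ≤ B * 50 ^ A / (m : ℝ) ^ A := by positivity
      have h := hL H hH m hlt (B * 50 ^ A / (m : ℝ) ^ A) hu0 (by
        intro m' h1 h2 r' hr' ξ' hξ'
        have hm' : 1 ≤ m' := by omega
        have hm'0 : (0 : ℝ) < m' := by exact_mod_cast hm'
        refine (ih m' h2 hm' r' hr' ξ' hξ').trans ?_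
        rw [div_le_div_iff₀ (by positivity) hmA, mul_assoc]
        refine mul_le_mul_of_nonneg_left ?_ (by linarith)
        rw [← mul_pow]
        exact pow_le_pow_left₀ hm0.le (by exact_mod_cast h1) A) r hr ξ hξ
      refine h.trans ?_
      have h7 : C * θ ^ m ≤ (B / 2) / (m : ℝ) ^ A := by
        rw [le_div_iff₀ hmA]
        have := hKb m
        nlinarith
      have h8 : 1 / (2 * 50 ^ A) * (B * 50 ^ A / (m : ℝ) ^ A) = (B / 2) / (m : ℝ) ^ A := by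
        field_simp
      rw [h8]
      have : (B / 2) / (m : ℝ) ^ A + (B / 2) / (m : ℝ) ^ A = B / (m : ℝ) ^ A := by ring
      linarith

theorem decay (A : ℕ) : ∃ C : ℝ, 1 ≤ C ∧ ∀ H, 2 ≤ H → ∀ n : ℕ, 1 ≤ n → ∀ r ∈ UU,
    ∀ ξ : ℤ_[7], IsUnit ξ → ∀ φ : ZMod 15 → ℂ, (∀ s, ‖φ s‖ ≤ 1) →
      ‖Phi H n r ξ φ‖ ≤ C / (n : ℝ) ^ A := by
  obtain ⟨B, hB, hQ⟩ := decayQ A
  refine ⟨3 ^ A * B, ?_, ?_⟩
  · have : (1 : ℝ) ≤ 3 ^ A := one_le_pow₀ (by norm_num)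
    nlinarith
  intro H hH n hn r hr ξ hξ φ hφ
  have h3 : (1 : ℝ) ≤ 3 ^ A := one_le_pow₀ (by norm_num)
  -- even case bound
  have heven : ∀ m : ℕ, 1 ≤ m → ∀ r ∈ UU, ∀ ξ : ℤ_[7], IsUnit ξ →
      ‖Phi H (2 * m) r ξ φ‖ ≤ B / (m : ℝ) ^ A := fun m hm r hr ξ hξ =>
    (Phi_le_QQ hH m hr ξ φ hφ).trans (hQ H hH m hm r hr ξ hξ)
  -- one letter expansion
  have hexp : ∀ m : ℕ, Phi H (2 * m + 1) r ξ φ = ∑ l ∈ LS H, pr H r l •
      (ph (2 * m + 1) (ξ * iv (lw l)) * Phi H (2 * m) (nx r (lw l)) (ξ * iv (lw l)) φ) := by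
    intro m
    unfold Phi
    rw [Ex_succ]
    refine Finset.sum_congr rfl fun l _ => ?_
    congr 1
    rw [← smul_eq_mul (ph (2 * m + 1) (ξ * iv (lw l)))]
    have hmap := Ex_map H (2 * m) (nx r (lw l))
      ((ph (2 * m + 1) (ξ * iv (lw l))) • (LinearMap.id : ℂ →ₗ[ℝ] ℂ))
      (fun v => ph (2 * m) (ξ * iv (lw l) * Fp v) * φ (st (nx r (lw l)) v))
    simp only [LinearMap.smul_apply, LinearMap.id_apply] at hmap
    rw [hmap]
    refine Ex_congr _ _ _ fun v _ _ => ?_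
    have hF : ξ * Fp (l :: v) = ξ * iv (lw l) + 7 ^ 1 * (ξ * iv (lw l) * Fp v) := by
      simp only [Fp, iv]; ring
    rw [hF, ph_add, ph_level (by omega : 1 ≤ 2 * m + 1)]
    simp only [st, smul_eq_mul, Nat.add_sub_cancel]
    ring
  rcases Nat.even_or_odd n with ⟨m, hm⟩ | ⟨m, hm⟩
  · have hnm : n = 2 * m := by omega
    subst hnm
    have hm1 : 1 ≤ m := by omega
    have hm0 : (0 : ℝ) < m := by exact_mod_cast hm1
    refine (heven m hm1 r hr ξ hξ).trans ?_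
    push_cast
    rw [div_le_div_iff₀ (by positivity) (by positivity), mul_pow]
    have h2 : (2 : ℝ) ^ A ≤ 3 ^ A := pow_le_pow_left₀ (by norm_num) (by norm_num) A
    have hBm : 0 ≤ B * (m : ℝ) ^ A := by positivity
    nlinarith
  · subst hm
    rw [hexp]
    have hbd : ∀ l ∈ LS H, ∀ β : ℝ, (nx r (lw l) ∈ UU →
        ‖Phi H (2 * m) (nx r (lw l)) (ξ * iv (lw l)) φ‖ ≤ β) →
        ‖pr H r l • (ph (2 * m + 1) (ξ * iv (lw l)) *
          Phi H (2 * m) (nx r (lw l)) (ξ * iv (lw l)) φ)‖ ≤ pr H r l * β := by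
      intro l _ β hβ
      by_cases hl : nx r (lw l) ∈ UU
      · rw [norm_smul, norm_mul, norm_ph, one_mul, Real.norm_of_nonneg (pr_nonneg _ _ _)]
        exact mul_le_mul_of_nonneg_left (hβ hl) (pr_nonneg _ _ _)
      · rw [pr_eq_zero hl]; simp
    by_cases hm1 : 1 ≤ m
    · have hm0 : (0 : ℝ) < m := by exact_mod_cast hm1
      have h1 : ‖∑ l ∈ LS H, pr H r l • (ph (2 * m + 1) (ξ * iv (lw l)) *
          Phi H (2 * m) (nx r (lw l)) (ξ * iv (lw l)) φ)‖ ≤ B / (m : ℝ) ^ A := by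
        refine (norm_sum_le _ _).trans ?_
        calc _ ≤ ∑ l ∈ LS H, pr H r l * (B / (m : ℝ) ^ A) := by
              refine Finset.sum_le_sum fun l hl => hbd l hl _ fun hu => ?_
              exact heven m hm1 _ hu _ (hξ.mul (iv_isUnit (not_dvd_lw l)))
          _ = B / (m : ℝ) ^ A := by rw [← Finset.sum_mul, pr_sum hH hr, one_mul]
      refine h1.trans ?_
      push_cast
      rw [div_le_div_iff₀ (by positivity) (by positivity)]
      have h5 : (2 * (m : ℝ) + 1) ^ A ≤ (3 * (m : ℝ)) ^ A := by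
        refine pow_le_pow_left₀ (by positivity) ?_ A
        have : (1 : ℝ) ≤ m := by exact_mod_cast hm1
        linarith
      rw [mul_pow] at h5
      calc B * (2 * (m : ℝ) + 1) ^ A ≤ B * (3 ^ A * (m : ℝ) ^ A) :=
            mul_le_mul_of_nonneg_left h5 (by linarith)
        _ = 3 ^ A * B * (m : ℝ) ^ A := by ring
    · have hm0 : m = 0 := by omega
      subst hm0
      have h1 : ‖∑ l ∈ LS H, pr H r l • (ph (2 * 0 + 1) (ξ * iv (lw l)) *
          Phi H (2 * 0) (nx r (lw l)) (ξ * iv (lw l)) φ)‖ ≤ 1 := by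
        refine (norm_sum_le _ _).trans ?_
        calc _ ≤ ∑ l ∈ LS H, pr H r l * 1 := by
              refine Finset.sum_le_sum fun l hl => hbd l hl _ fun hu => ?_
              unfold Phi
              rw [Nat.mul_zero, Ex_zero, norm_mul, norm_ph, one_mul]
              exact hφ _
          _ = 1 := by rw [← Finset.sum_mul, pr_sum hH hr, one_mul]
      refine h1.trans ?_
      norm_num
      nlinarith

end Kak
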