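import Pool.Agent.Lib.Kak.ExitOver
import Pool.Agent.Lib.Kak.Growth

/-!
# Kak.LExD: large denominators and failure of growth after the exit

PROOFS.

`bigDen`.  For `v` of length `2(t+q)`, `v = v1 ++ v2` with `v1 = v.take (2t)`: by `den_mul_le`
`den (Wd v) Z ≤ den (Wd v1) Z * Wd v2`.  Markov (`PP_markov` with
`f v = (ExitAt Z t).indicator (√(den (Wd (v.take (2t))) Z)) v * √(Wd (v.drop (2t)))`, `c = √D`), `Ex_append`
and `sqrtW` (`≤ 9^(2q) = 81^q`, the state after `v1` is in `UU`): the `t`-th probability is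
`≤ 81^q / √D * Ex H (2t) r ((ExitAt Z t).indicator √den)`; sum with `exitPair`.

`noGrow`.  By `growth_prob` with `2D`: `∑_{t > j0} C √(2D) (91/100)^(2(t+q))
≤ 2 C √D (91/100)^(2 j0) ∑_{i ≥ 0} (91/100)^(2i)`.
-/

open Finset

namespace Kak

namespace LExDAux

theorem append_mem {Z : ℤ} {t : ℕ} {v u : List Lt} (hv : v.length = 2 * t) :
    v ++ u ∈ ExitAt Z t ↔ v ∈ ExitAt Z t := by
  unfold ExitAt
  simp only [Set.mem_ofPred_eq]
  rw [List.take_append_of_le_length (by omega : 2 * t - 2 ≤ v.length),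
    List.take_append_of_le_length (by omega : 2 * t ≤ v.length)]

theorem geo {x : ℝ} (hx0 : 0 ≤ x) (hx : 6 * x ≤ 5) (j0 k : ℕ) :
    ∑ t ∈ Ioc j0 (j0 + k), x ^ t ≤ 5 * (x ^ j0 - x ^ (j0 + k)) := by
  induction k with
  | zero => simp
  | succ k ih =>
    rw [← add_assoc, Finset.sum_Ioc_succ_top (by omega)]
    have h1 : x ^ (j0 + k + 1) = x ^ (j0 + k) * x := pow_succ _ _
    have h2 : 0 ≤ x ^ (j0 + k) := pow_nonneg hx0 _
    have h3 : 6 * x ^ (j0 + k + 1) ≤ 5 * x ^ (j0 + k) := by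
      rw [h1]
      nlinarith
    linarith

theorem geo' {x : ℝ} (hx0 : 0 ≤ x) (hx : 6 * x ≤ 5) (j0 n : ℕ) :
    ∑ t ∈ Ioc j0 n, x ^ t ≤ 5 * x ^ j0 := by
  by_cases h : n ≤ j0
  · rw [Ioc_eq_empty (by omega), sum_empty]
    positivity
  · obtain ⟨k, rfl⟩ := Nat.exists_eq_add_of_le (le_of_not_ge h)
    refine (geo hx0 hx j0 k).trans ?_
    have := pow_nonneg hx0 (j0 + k)
    linarith

end LExDAux

open LExDAux

theorem bigDen : ∃ C : ℝ, 1 ≤ C ∧ ∀ H, 2 ≤ H → ∀ r ∈ UU, ∀ Z : ℤ, Z ≠ 0 → ∀ n q : ℕ, ∀ D : ℝ,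
    0 < D → ∑ t ∈ Icc 1 n, PP H (2 * (t + q)) r (ExitAt Z t ∩ {v | D < (den (Wd v) Z : ℝ)}) ≤
      C * 81 ^ q / √D := by
  obtain ⟨C, hC, he⟩ := exitPair
  refine ⟨C, hC, fun H hH r hr Z hZ n q D hD => ?_⟩
  have hsD : 0 < √D := Real.sqrt_pos.mpr hD
  have hterm : ∀ t ∈ Icc 1 n, PP H (2 * (t + q)) r (ExitAt Z t ∩ {v | D < (den (Wd v) Z : ℝ)}) ≤
      81 ^ q / √D * Ex H (2 * t) r ((ExitAt Z t).indicator (fun v => √(den (Wd v) Z : ℝ))) := by
    intro t _
    set F : List Lt → ℝ := (ExitAt Z t).indicator (fun v => √(den (Wd v) Z : ℝ)) with hF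
    have hF0 : ∀ v, 0 ≤ F v := fun v => Set.indicator_nonneg (fun _ _ => Real.sqrt_nonneg _) v
    have h1 := PP_markov H (2 * (t + q)) r (A := ExitAt Z t ∩ {v | D < (den (Wd v) Z : ℝ)})
      (f := fun v => F (v.take (2 * t)) * √(Wd (v.drop (2 * t)) : ℝ)) (c := √D) hsD
      (fun v _ _ => mul_nonneg (hF0 _) (Real.sqrt_nonneg _)) (fun v hv _ hvA => ?_)
    · refine h1.trans ?_
      have e : 2 * (t + q) = 2 * t + 2 * q := by ring
      rw [e]
      have h2 := Ex_append_le H (2 * t) (2 * q) r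
        (f := fun v => F (v.take (2 * t)) * √(Wd (v.drop (2 * t)) : ℝ))
        (g := fun v => 81 ^ q * F v) (fun v hv hok => ?_)
      · rw [Ex_mul_left] at h2
        rw [div_mul_eq_mul_div]
        exact div_le_div_of_nonneg_right h2 hsD.le
      · have h3 : (fun u => F ((v ++ u).take (2 * t)) * √(Wd ((v ++ u).drop (2 * t)) : ℝ)) =
            fun u => F v * √(Wd u : ℝ) := by
          funext u
          rw [List.take_left' hv, List.drop_left' hv]
        rw [h3, Ex_mul_left, mul_comm (81 ^ q : ℝ)]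
        refine mul_le_mul_of_nonneg_left ?_ (hF0 v)
        have h4 := sqrtW hH (2 * q) (st_mem v r hr hok)
        refine h4.trans (le_of_eq ?_)
        rw [pow_mul]
        norm_num
    · obtain ⟨hv1, hv2⟩ := hvA
      have hv2' : D < (den (Wd v) Z : ℝ) := hv2
      have hlen : (v.take (2 * t)).length = 2 * t := by
        rw [List.length_take, hv]
        omega
      have hsplit : v.take (2 * t) ++ v.drop (2 * t) = v := List.take_append_drop _ _
      have hv3 : v.take (2 * t) ∈ ExitAt Z t := by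
        rw [← append_mem (u := v.drop (2 * t)) hlen, hsplit]
        exact hv1
      have hFv : F (v.take (2 * t)) = √(den (Wd (v.take (2 * t))) Z : ℝ) :=
        Set.indicator_of_mem hv3 _
      show √D ≤ F (v.take (2 * t)) * √(Wd (v.drop (2 * t)) : ℝ)
      rw [hFv, ← Real.sqrt_mul (Nat.cast_nonneg _)]
      refine Real.sqrt_le_sqrt (hv2'.le.trans ?_)
      have h5 := den_mul_le (w := Wd (v.drop (2 * t))) (Wd_pos (v.take (2 * t))) Z
      rw [← Wd_append, hsplit] at h5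
      exact_mod_cast h5
  refine (sum_le_sum hterm).trans ?_
  rw [← mul_sum]
  have h6 := mul_le_mul_of_nonneg_left (he H hH r hr Z hZ n)
    (show (0 : ℝ) ≤ 81 ^ q / √D by positivity)
  refine h6.trans (le_of_eq ?_)
  ring

theorem noGrow : ∃ C : ℝ, 1 ≤ C ∧ ∀ H, 2 ≤ H → ∀ r ∈ UU, ∀ j0 n q : ℕ, ∀ D : ℝ, 0 < D →
    ∑ t ∈ Ioc j0 n, PP H (2 * (t + q)) r {v | (Wd v : ℝ) < 2 * D * 7 ^ (2 * (t + q))} ≤
      C * √D * (91 / 100) ^ (2 * j0) := by
  obtain ⟨C, hC, hg⟩ := growth_prob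
  refine ⟨C * 10, by linarith, fun H hH r hr j0 n q D hD => ?_⟩
  have hterm : ∀ t ∈ Ioc j0 n, PP H (2 * (t + q)) r {v | (Wd v : ℝ) < 2 * D * 7 ^ (2 * (t + q))} ≤
      C * (2 * √D) * (((91 : ℝ) / 100) ^ 2) ^ t := by
    intro t _
    refine (hg H hH (2 * (t + q)) r hr (2 * D) (by linarith)).trans ?_
    have h1 : √(2 * D) ≤ 2 * √D := by
      rw [Real.sqrt_mul (by norm_num)]
      refine mul_le_mul_of_nonneg_right ?_ (Real.sqrt_nonneg _)
      rw [Real.sqrt_le_left (by norm_num)]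
      norm_num
    have h2 : ((91 : ℝ) / 100) ^ (2 * (t + q)) ≤ (((91 : ℝ) / 100) ^ 2) ^ t := by
      rw [← pow_mul]
      exact pow_le_pow_of_le_one (by norm_num) (by norm_num) (by omega)
    exact mul_le_mul (mul_le_mul_of_nonneg_left h1 (by linarith)) h2 (by positivity) (by positivity)
  refine (sum_le_sum hterm).trans ?_
  rw [← mul_sum]
  have h3 := geo' (x := ((91 : ℝ) / 100) ^ 2) (by positivity) (by norm_num) j0 n
  have h4 := mul_le_mul_of_nonneg_left h3 (show 0 ≤ C * (2 * √D) by positivity)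
  refine h4.trans (le_of_eq ?_)
  rw [← pow_mul]
  ring

end Kak
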