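import Pool.Agent.Lib.Kak.PadicB

/-!
# Kak.Sep: arithmetic separation of the simplices

PROOFS.

`unif`.  Let `g = gcd (W, Z)`, `W = g d`, `Z = g z`, `d = den W Z`, `gcd (d, z) = 1`.  In `ℤ_[7]`:
`W Z' ≡ 15 ξ ≡ Z` modulo `7^(2m')` (multiply `Z' - 15 ξ iv W` by `W`, and `m' ≤ m`).  So `7^(2m')`
divides the integer `W Z' - Z = g (d Z' - z)` (`int_dvd_iff`), and `7 ∤ g` (as `g ∣ W`), so
`7^(2m') ∣ d Z' - z`.  If `d Z' = z` then `d ∣ z`, so `d = 1` and `W = g ∣ Z`, contradiction.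
Hence `7^(2m') ≤ |d Z' - z| ≤ d |Z'| + |z|` and `|z| = |Z| / g = d |Z| / W`.

`sized`.  Let `Z'` be the integer from `Dp`.  By `unif` with `W = Wd v`, `m' = m - j`:
`7^(2m') ≤ D |Z'| + D |Z| / W ≤ D |Z'| + D (7^(2m)/4) / (2 D 7^(2j)) = D|Z'| + 7^(2m')/8`, so
`D |Z'| ≥ (7/8) 7^(2m') ≥ 7^(2m')/2`.

`pair2`.  Let `i = hs2 v' - hs2 v`, so `4 i ≤ L`; `Wd v' = 16^i Wd v` (same skeleton: for each letter
`lw l = 16^(1 if t = 2) lw (sk2 l)`).  Let `Z1`, `Z2` be the integers for `v`, `v'`.  Modulo `7^(2m')`: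
`16^i Z2 ≡ 15 ξ 16^i iv (Wd v') = 15 ξ iv (Wd v) ≡ Z1`.  As `30^L ∣ Z1` and `4 i ≤ L`, `Z1 = 16^i Y`,
hence `7^(2m') ∣ Z2 - Y` (`7 ∤ 16`) with `|Z2|, |Y| ≤ ε 2^8 7^(2m') ≤ 7^(2m')/4`; so `Z2 = Y`
and `|Z1| = 16^i |Z2|`.  Therefore `16^i 7^(2m')/(2D) ≤ 16^i |Z2| = |Z1| ≤ ε 2^8 7^(2m') ≤ 7^(2m')/4`,
so `16^i ≤ D/2 < 16^q`, `i < q`.

`pair3`: the same with `81` in the place of `16`: `Wd v' = 81^i Wd v`, `3^(4i) ∣ 30^L`, and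
`81^i ≤ D/2 < 16^q ≤ 81^q`.
-/

open Finset

namespace Kak

namespace SepAux

theorem cop7 {b : ℕ} (hb : ¬ 7 ∣ b) (k : ℕ) : IsCoprime ((7 : ℤ) ^ k) (b : ℤ) := by
  apply IsCoprime.pow_left
  have h : Nat.Coprime 7 b := (Nat.Prime.coprime_iff_not_dvd (by norm_num)).2 hb
  have := Nat.isCoprime_iff_coprime.2 h
  exact_mod_cast this

theorem le_abs_of_dvd {k : ℕ} {x : ℤ} (h : (7 : ℤ) ^ k ∣ x) (hx : x ≠ 0) :
    (7 : ℝ) ^ k ≤ |(x : ℝ)| := by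
  have h1 : (7 : ℤ) ^ k ≤ |x| := Int.le_of_dvd (abs_pos.2 hx) ((dvd_abs _ _).2 h)
  exact_mod_cast h1

theorem congr_int {n W : ℕ} {Z Z' : ℤ} {ξ : ℤ_[7]} (hW : ¬ 7 ∣ W)
    (hZ : (7 : ℤ_[7]) ^ n ∣ (Z : ℤ_[7]) - 15 * ξ)
    (hZ' : (7 : ℤ_[7]) ^ n ∣ (Z' : ℤ_[7]) - 15 * (ξ * iv W)) :
    (7 : ℤ) ^ n ∣ (W : ℤ) * Z' - Z := by
  rw [← int_dvd_iff]
  have h1 : (((W : ℤ) * Z' - Z : ℤ) : ℤ_[7]) =
      (W : ℤ_[7]) * ((Z' : ℤ_[7]) - 15 * (ξ * iv W)) - ((Z : ℤ_[7]) - 15 * ξ) := by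
    push_cast
    linear_combination (15 * ξ) * iv_spec hW
  rw [h1]
  exact dvd_sub (dvd_mul_of_dvd_right hZ' _) hZ

theorem abs_int_cast (x : ℤ) : |(x : ℝ)| = ((|x| : ℤ) : ℝ) := by
  rw [Int.cast_abs]

theorem pairG {ε D : ℝ} (hε : ε ≤ 1 / 2 ^ 10) {b i L m' W W' : ℕ} {ξ : ℤ_[7]}
    (hD : 0 < D) (hb : ¬ 7 ∣ b) (hb0 : 0 < b) (hbi : ((b : ℤ) ^ i) ∣ (30 : ℤ) ^ L)
    (hW0 : ¬ 7 ∣ W) (hW : W' = b ^ i * W)
    (hv : SD ε D L m' (ξ * iv W)) (hv' : SD ε D L m' (ξ * iv W')) :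
    (b : ℝ) ^ i ≤ D / 2 := by
  obtain ⟨Z1, a1, a2, a3, a4⟩ := hv
  obtain ⟨Z2, b1, b2, b3, b4⟩ := hv'
  have hbi7 : ¬ 7 ∣ b ^ i := fun h => hb (Nat.Prime.dvd_of_dvd_pow (by norm_num) h)
  have hiv : iv W' = iv W * iv (b ^ i) := by
    rw [hW, iv_mul hbi7 hW0, mul_comm]
  rw [hiv, ← mul_assoc ξ] at b1
  have h1 : (7 : ℤ) ^ (2 * m') ∣ ((b ^ i : ℕ) : ℤ) * Z2 - Z1 := congr_int hbi7 a1 b1
  obtain ⟨Y, hY⟩ := hbi.trans a2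
  have h2 : ((b ^ i : ℕ) : ℤ) * Z2 - Z1 = ((b ^ i : ℕ) : ℤ) * (Z2 - Y) := by
    rw [hY]
    push_cast
    ring
  rw [h2] at h1
  have h3 : (7 : ℤ) ^ (2 * m') ∣ Z2 - Y := (cop7 hbi7 _).dvd_of_dvd_mul_left h1
  have hbr : (1 : ℝ) ≤ (b : ℝ) ^ i := one_le_pow₀ (by exact_mod_cast hb0)
  have hZ1 : |(Z1 : ℝ)| = (b : ℝ) ^ i * |(Y : ℝ)| := by
    rw [hY]
    push_cast
    rw [abs_mul, abs_of_nonneg (by positivity : (0 : ℝ) ≤ (b : ℝ) ^ i)]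
  have hp : (0 : ℝ) < 7 ^ (2 * m') := by positivity
  have hsm : ε * 2 ^ 8 * 7 ^ (2 * m') ≤ (7 : ℝ) ^ (2 * m') / 4 := by
    have : ε * 2 ^ 8 ≤ 1 / 4 := by
      have := mul_le_mul_of_nonneg_right hε (by norm_num : (0 : ℝ) ≤ 2 ^ 8)
      norm_num at this ⊢
      linarith
    nlinarith
  have hYle : |(Y : ℝ)| ≤ |(Z1 : ℝ)| := by
    rw [hZ1]
    nlinarith [abs_nonneg (Y : ℝ)]
  have h4 : Z2 = Y := by
    by_contra hne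
    have h5 := le_abs_of_dvd h3 (sub_ne_zero.2 hne)
    push_cast at h5
    have h6 : |(Z2 : ℝ) - (Y : ℝ)| ≤ |(Z2 : ℝ)| + |(Y : ℝ)| := abs_sub _ _
    linarith
  rw [h4] at b4
  have h7 : (b : ℝ) ^ i * 7 ^ (2 * m') ≤ 2 * D * |(Z1 : ℝ)| := by
    rw [hZ1]
    have := mul_le_mul_of_nonneg_left b4 (by positivity : (0 : ℝ) ≤ (b : ℝ) ^ i)
    calc (b : ℝ) ^ i * 7 ^ (2 * m') ≤ (b : ℝ) ^ i * (2 * D * |(Y : ℝ)|) := this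
      _ = 2 * D * ((b : ℝ) ^ i * |(Y : ℝ)|) := by ring
  have h8 : (b : ℝ) ^ i * 7 ^ (2 * m') ≤ D / 2 * 7 ^ (2 * m') := by
    have h9 : 2 * D * |(Z1 : ℝ)| ≤ 2 * D * ((7 : ℝ) ^ (2 * m') / 4) :=
      mul_le_mul_of_nonneg_left (a3.trans hsm) (by positivity)
    calc (b : ℝ) ^ i * 7 ^ (2 * m') ≤ 2 * D * |(Z1 : ℝ)| := h7
      _ ≤ 2 * D * ((7 : ℝ) ^ (2 * m') / 4) := h9
      _ = D / 2 * 7 ^ (2 * m') := by ring
  exact le_of_mul_le_mul_right h8 hp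

theorem Wd_sk2 (v : List Lt) : Wd v = 16 ^ hs2 v * Wd (v.map sk2) := by
  induction v with
  | nil => simp [Wd, hs2]
  | cons l v ih =>
    have hc : hs2 (l :: v) = hs2 v + (if l.1.2 = 2 then 1 else 0) := by
      unfold hs2
      rw [List.countP_cons]
      simp
    have hl : lw l = 16 ^ (if l.1.2 = 2 then 1 else 0) * lw (sk2 l) := by
      by_cases h : l.1.2 = 2
      · simp only [h, if_true]
        unfold lw la sk2 lb lc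
        simp only [h, if_true]
        rw [show l.1.1 + 4 * (2 - 1) = l.1.1 + 4 by norm_num, pow_add]
        norm_num
        ring
      · simp only [h, if_false]
        unfold lw la sk2 lb lc
        simp only [h, if_false]
        ring
    rw [List.map_cons]
    simp only [Wd]
    rw [hc, pow_add, ih, hl]
    ring_nf

theorem Wd_sk3 (v : List Lt) : Wd v = 81 ^ hs3 v * Wd (v.map sk3) := by
  induction v with
  | nil => simp [Wd, hs3]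
  | cons l v ih =>
    have hc : hs3 (l :: v) = hs3 v + (if l.2.1.1 ≠ 0 ∧ l.2.1.2 = 2 then 1 else 0) := by
      unfold hs3
      rw [List.countP_cons]
      simp
    have hl : lw l = 81 ^ (if l.2.1.1 ≠ 0 ∧ l.2.1.2 = 2 then 1 else 0) * lw (sk3 l) := by
      by_cases h : l.2.1.1 ≠ 0 ∧ l.2.1.2 = 2
      · rw [if_pos h]
        unfold lw la sk3 lb lc
        rw [if_pos h]
        simp only
        rw [h.2, show l.2.1.1 + 4 * (2 - 1) = l.2.1.1 + 4 by norm_num, pow_add 3]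
        norm_num
        ring
      · rw [if_neg h]
        unfold lw la sk3 lb lc
        rw [if_neg h]
        simp only
        ring
    rw [List.map_cons]
    simp only [Wd]
    rw [hc, pow_add, ih, hl]
    ring_nf

theorem dvd2 {i L : ℕ} (h : 4 * i ≤ L) : (((16 : ℕ) : ℤ) ^ i) ∣ (30 : ℤ) ^ L := by
  have h1 : (((16 : ℕ) : ℤ) ^ i) = 2 ^ (4 * i) := by
    rw [pow_mul]
    norm_num
  rw [h1]
  exact (pow_dvd_pow 2 h).trans (pow_dvd_pow_of_dvd (by norm_num) L)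

theorem dvd3 {i L : ℕ} (h : 4 * i ≤ L) : (((81 : ℕ) : ℤ) ^ i) ∣ (30 : ℤ) ^ L := by
  have h1 : (((81 : ℕ) : ℤ) ^ i) = 3 ^ (4 * i) := by
    rw [pow_mul]
    norm_num
  rw [h1]
  exact (pow_dvd_pow 3 h).trans (pow_dvd_pow_of_dvd (by norm_num) L)

end SepAux

open SepAux

theorem unif {m m' W : ℕ} {Z Z' : ℤ} {ξ : ℤ_[7]} (hm : m' ≤ m) (hW : ¬ 7 ∣ W) (hW0 : 0 < W)
    (hZ : (7 : ℤ_[7]) ^ (2 * m) ∣ (Z : ℤ_[7]) - 15 * ξ)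
    (hZ' : (7 : ℤ_[7]) ^ (2 * m') ∣ (Z' : ℤ_[7]) - 15 * (ξ * iv W))
    (hWZ : ¬ (W : ℤ) ∣ Z) :
    (7 : ℝ) ^ (2 * m') ≤ (den W Z : ℝ) * |(Z' : ℝ)| + (den W Z : ℝ) * |(Z : ℝ)| / W := by
  have h1 : (7 : ℤ) ^ (2 * m') ∣ (W : ℤ) * Z' - Z :=
    congr_int hW ((pow_dvd_pow _ (by omega)).trans hZ) hZ'
  set g : ℕ := Nat.gcd W Z.natAbs with hg
  have hg0 : 0 < g := Nat.gcd_pos_of_pos_left _ hW0
  have hgW : g ∣ W := Nat.gcd_dvd_left _ _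
  have hgZ : (g : ℤ) ∣ Z := Int.natCast_dvd.2 (Nat.gcd_dvd_right _ _)
  have hWd : W = g * den W Z := by
    unfold den
    rw [← hg, Nat.mul_div_cancel' hgW]
  set d : ℕ := den W Z with hd
  obtain ⟨z, hz⟩ := hgZ
  have hg7 : ¬ 7 ∣ g := fun h => hW (h.trans hgW)
  have h2 : (W : ℤ) * Z' - Z = (g : ℤ) * ((d : ℤ) * Z' - z) := by
    rw [hz]
    have : (W : ℤ) = (g : ℤ) * (d : ℤ) := by exact_mod_cast hWd
    rw [this]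
    ring
  rw [h2] at h1
  have h3 : (7 : ℤ) ^ (2 * m') ∣ (d : ℤ) * Z' - z := (cop7 hg7 _).dvd_of_dvd_mul_left h1
  have h4 : (d : ℤ) * Z' - z ≠ 0 := by
    intro h
    apply hWZ
    refine ⟨Z', ?_⟩
    have : (W : ℤ) = (g : ℤ) * (d : ℤ) := by exact_mod_cast hWd
    rw [hz, this]
    have h5 : z = (d : ℤ) * Z' := by linarith
    rw [h5]
    ring
  have h5 := le_abs_of_dvd h3 h4
  push_cast at h5
  have h6 : |(d : ℝ) * (Z' : ℝ) - (z : ℝ)| ≤ (d : ℝ) * |(Z' : ℝ)| + |(z : ℝ)| := by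
    refine (abs_sub _ _).trans ?_
    rw [abs_mul, Nat.abs_cast]
  have h7 : |(z : ℝ)| = (d : ℝ) * |(Z : ℝ)| / W := by
    have hgr : (0 : ℝ) < g := by exact_mod_cast hg0
    have hWr : (W : ℝ) = (g : ℝ) * (d : ℝ) := by exact_mod_cast hWd
    have hW0r : (0 : ℝ) < W := by exact_mod_cast hW0
    have hd0 : (0 : ℝ) < d := by
      rw [hWr] at hW0r
      exact (pos_iff_pos_of_mul_pos hW0r).1 hgr
    have hzr : (Z : ℝ) = (g : ℝ) * (z : ℝ) := by exact_mod_cast hz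
    rw [hzr, abs_mul, Nat.abs_cast, hWr]
    field_simp
  rw [h7] at h6
  exact h5.trans h6

theorem sized {ε D : ℝ} {L m j : ℕ} {Z : ℤ} {ξ : ℤ_[7]} {v : List Lt} (hj : j ≤ m) (hD : 0 < D)
    (hZ : (7 : ℤ_[7]) ^ (2 * m) ∣ (Z : ℤ_[7]) - 15 * ξ)
    (hZb : |(Z : ℝ)| ≤ 7 ^ (2 * m) / 4) (hWZ : ¬ ((Wd v : ℕ) : ℤ) ∣ Z)
    (hd : (den (Wd v) Z : ℝ) ≤ D) (hW : 2 * D * 7 ^ (2 * j) ≤ (Wd v : ℝ))
    (h : Dp ε L (m - j) (ξ * iv (Wd v))) : SD ε D L (m - j) (ξ * iv (Wd v)) := by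
  obtain ⟨Z', a1, a2, a3⟩ := h
  refine ⟨Z', a1, a2, a3, ?_⟩
  have hW7 := not_dvd_Wd v
  have hW0 : 0 < Wd v := Nat.pos_of_ne_zero (fun h => hW7 (h ▸ dvd_zero _))
  have h1 := unif (Nat.sub_le m j) hW7 hW0 hZ a1 hWZ
  have hWr : (0 : ℝ) < Wd v := by exact_mod_cast hW0
  have h2 : (den (Wd v) Z : ℝ) * |(Z' : ℝ)| ≤ D * |(Z' : ℝ)| :=
    mul_le_mul_of_nonneg_right hd (abs_nonneg _)
  have hpow : (7 : ℝ) ^ (2 * m) = 7 ^ (2 * (m - j)) * 7 ^ (2 * j) := by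
    rw [← pow_add]
    congr 1
    omega
  have h3 : (den (Wd v) Z : ℝ) * |(Z : ℝ)| / (Wd v : ℝ) ≤ 7 ^ (2 * (m - j)) / 8 := by
    rw [div_le_iff₀ hWr]
    have h4 : (den (Wd v) Z : ℝ) * |(Z : ℝ)| ≤ D * (7 ^ (2 * m) / 4) :=
      mul_le_mul hd hZb (abs_nonneg _) hD.le
    have h5 : (7 : ℝ) ^ (2 * (m - j)) / 8 * (2 * D * 7 ^ (2 * j)) ≤
        7 ^ (2 * (m - j)) / 8 * (Wd v : ℝ) :=
      mul_le_mul_of_nonneg_left hW (by positivity)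
    calc (den (Wd v) Z : ℝ) * |(Z : ℝ)| ≤ D * (7 ^ (2 * m) / 4) := h4
      _ = (7 : ℝ) ^ (2 * (m - j)) / 8 * (2 * D * 7 ^ (2 * j)) := by
          rw [hpow]
          ring
      _ ≤ _ := h5
  have h6 : (0 : ℝ) < 7 ^ (2 * (m - j)) := by positivity
  linarith

theorem pair2 {ε D : ℝ} (hε : ε ≤ 1 / 2 ^ 10) {L m' q : ℕ} {ξ : ℤ_[7]} {v v' : List Lt}
    (hD : 0 < D) (hq : D < 16 ^ q) (hv : SD ε D L m' (ξ * iv (Wd v)))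
    (hv' : SD ε D L m' (ξ * iv (Wd v'))) (hs : v.map sk2 = v'.map sk2)
    (h1 : hs2 v ≤ hs2 v') (h2 : hs2 v' < hs2 v + (L / 4 + 1)) : hs2 v' < hs2 v + q := by
  obtain ⟨i, hi⟩ := Nat.exists_eq_add_of_le h1
  have hW : Wd v' = 16 ^ i * Wd v := by
    rw [Wd_sk2 v', Wd_sk2 v, hs, hi, pow_add]
    ring
  have h3 := pairG hε (b := 16) (i := i) hD (by norm_num) (by norm_num)
    (dvd2 (by omega : 4 * i ≤ L)) (not_dvd_Wd v) hW hv hv'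
  by_contra hlt
  have hqi : q ≤ i := by omega
  have h4 : (16 : ℝ) ^ q ≤ 16 ^ i := pow_le_pow_right₀ (by norm_num) hqi
  push_cast at h3
  linarith

theorem pair3 {ε D : ℝ} (hε : ε ≤ 1 / 2 ^ 10) {L m' q : ℕ} {ξ : ℤ_[7]} {v v' : List Lt}
    (hD : 0 < D) (hq : D < 16 ^ q) (hv : SD ε D L m' (ξ * iv (Wd v)))
    (hv' : SD ε D L m' (ξ * iv (Wd v'))) (hs : v.map sk3 = v'.map sk3)
    (h1 : hs3 v ≤ hs3 v') (h2 : hs3 v' < hs3 v + (L / 4 + 1)) : hs3 v' < hs3 v + q := by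
  obtain ⟨i, hi⟩ := Nat.exists_eq_add_of_le h1
  have hW : Wd v' = 81 ^ i * Wd v := by
    rw [Wd_sk3 v', Wd_sk3 v, hs, hi, pow_add]
    ring
  have h3 := pairG hε (b := 81) (i := i) hD (by norm_num) (by norm_num)
    (dvd3 (by omega : 4 * i ≤ L)) (not_dvd_Wd v) hW hv hv'
  by_contra hlt
  have hqi : q ≤ i := by omega
  have h4 : (16 : ℝ) ^ q ≤ 16 ^ i := pow_le_pow_right₀ (by norm_num) hqi
  have h5 : (16 : ℝ) ^ i ≤ 81 ^ i := pow_le_pow_left₀ (by norm_num) (by norm_num) i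
  push_cast at h3
  linarith

end Kak
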