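import Pool.Agent.Lib.Kak.Disp
import Pool.Agent.Lib.Kak.Sep
import Pool.Agent.Lib.Kak.CoinLD

/-!
# Kak.LExM: the main dispersal estimates at the exit

PROOFS.

`main2`.  Fix `t`.  Apply `disp2` with `n = 2(t+q)`, `ℓ = L/4 + 1`, `q := Q`,
`A = {v | SD ε D L (m - t - q) (ξ * iv (Wd v))}`, `B = B35 Z t`.  `B` only depends on `eb`, `ec` of
the prefixes, which are functions of `v.map sk2` (`lb (sk2 l) = lb l`, `lc (sk2 l) = lc l`, and
`(v.take k).map sk2 = (v.map sk2).take k`).  The hypothesis on `A` is `pair2` (`ξ`, `m' = m - t - q`).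
So the `t`-th term is `≤ PP (B ∩ {cn2 v < N}) + PP B * (Q/ℓ + 3Q/√N) ≤
PP {cn2 v < N} + PP B * (...)`.  Since `25 N ≤ 2 j0 < 2 (t+q)`, `{cn2 v < N} ⊆ {25 cn2 v < 2(t+q)}` and
`cn2_low` gives `≤ (97/100)^(2(t+q))`; the sum over `t > j0` is `≤ 20 (97/100)^(2 j0)`.
The events `B35 Z t` (which depend on `v.take (2t)` only, so `PP H (2(t+q)) r (B35 Z t)` is the
same as `PP H (2n) r (B35 Z t)` for `t ≤ n` by `PP_take`) are pairwise disjoint
(`3^eb 5^ec` of a prefix divides the one of a longer prefix), so the sum of their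
probabilities is `≤ 1` (`sum_PP_le`).

`main3`: the same with `disp3`, `pair3`, `B2 Z t` (depends only on `ea`, `la (sk3 l) = la l`) and
`cn3_low` (`400 N ≤ 2 j0`): `∑ (999/1000)^(2(t+q)) ≤ 1000 (999/1000)^(2 j0)`.
-/

open Finset

namespace Kak

namespace LExMAux

theorem tele {y : ℝ} {j0 n : ℕ} (h : j0 ≤ n) :
    (1 - y) * ∑ t ∈ Ioc j0 n, y ^ t = y ^ (j0 + 1) - y ^ (n + 1) := by
  induction n, h using Nat.le_induction with
  | base => simp
  | succ n hn ih =>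
    rw [Finset.sum_Ioc_succ_top (by omega), mul_add, ih]
    ring

/-- geometric sum -/
theorem geo {x C : ℝ} (hx : 0 ≤ x) (hx1 : x < 1) (hC : x ^ 2 ≤ C * (1 - x ^ 2)) (j0 n q : ℕ) :
    ∑ t ∈ Ioc j0 n, x ^ (2 * (t + q)) ≤ C * x ^ (2 * j0) := by
  set y : ℝ := x ^ 2 with hy
  have hy0 : 0 ≤ y := sq_nonneg x
  have hy1 : y < 1 := by
    rw [hy]
    nlinarith
  have hC0 : 0 ≤ C := by
    by_contra hc
    have h1 : C * (1 - y) < 0 := mul_neg_of_neg_of_pos (not_le.1 hc) (by linarith)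
    linarith
  have h1 : ∑ t ∈ Ioc j0 n, x ^ (2 * (t + q)) ≤ ∑ t ∈ Ioc j0 n, y ^ t := by
    refine Finset.sum_le_sum fun t _ => ?_
    rw [pow_mul, ← hy, pow_add]
    exact mul_le_of_le_one_right (pow_nonneg hy0 t) (pow_le_one₀ hy0 hy1.le)
  refine h1.trans ?_
  rw [pow_mul, ← hy]
  rcases le_total j0 n with h | h
  · have h2 := tele (y := y) h
    have h3 : (1 - y) * ∑ t ∈ Ioc j0 n, y ^ t ≤ (1 - y) * (C * y ^ j0) := by
      rw [h2]
      have h4 : y ^ (j0 + 1) ≤ C * (1 - y) * y ^ j0 := by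
        rw [pow_succ, mul_comm]
        exact mul_le_mul_of_nonneg_right hC (pow_nonneg hy0 j0)
      have h5 : 0 ≤ y ^ (n + 1) := pow_nonneg hy0 _
      linarith
    exact le_of_mul_le_mul_left h3 (by linarith)
  · rw [Finset.Ioc_eq_empty (by omega), Finset.sum_empty]
    positivity

/-- disjoint events -/
theorem sum_bd {H : ℕ} (hH : 2 ≤ H) {r : ZMod 15} (hr : r ∈ UU) (B : ℕ → Set (List Lt))
    (hBt : ∀ t v, v.take (2 * t) ∈ B t ↔ v ∈ B t)
    (hBd : ∀ v i j, i < j → v ∈ B i → v ∈ B j → False) (q j0 n : ℕ) :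
    ∑ t ∈ Ioc j0 n, PP H (2 * (t + q)) r (B t) ≤ 1 := by
  have h1 : ∀ t ∈ Ioc j0 n, PP H (2 * (t + q)) r (B t) = PP H (2 * n) r (B t) := by
    intro t ht
    rw [Finset.mem_Ioc] at ht
    have h2 : {v : List Lt | v.take (2 * t) ∈ B t} = B t := by
      ext v
      exact hBt t v
    have h3 := PP_take hH (k := 2 * t) (n := 2 * (t + q)) (by omega) hr (B t)
    have h4 := PP_take hH (k := 2 * t) (n := 2 * n) (by omega) hr (B t)
    rw [h2] at h3 h4
    rw [h3, h4]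
  rw [Finset.sum_congr rfl h1, ← PP_univ hH (2 * n) hr]
  refine sum_PP_le (2 * n) r (Ioc j0 n) B Set.univ (fun v _ _ i _ j _ hi hj => ?_)
    (fun _ _ _ _ _ _ => Set.mem_univ _)
  rcases lt_trichotomy i j with h | h | h
  · exact (hBd v i j h hi hj).elim
  · exact h
  · exact (hBd v j i h hj hi).elim

theorem take_eq {i j : ℕ} (h : i ≤ j) (v : List Lt) :
    v.take j = v.take i ++ (v.take j).drop i := by
  conv_lhs => rw [← List.take_append_drop i (v.take j)]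
  rw [List.take_take, min_eq_left h]

theorem ea_take {i j : ℕ} (h : i ≤ j) (v : List Lt) : ea (v.take i) ≤ ea (v.take j) := by
  rw [take_eq h v]
  unfold ea
  rw [List.map_append, List.sum_append]
  omega

theorem eb_take {i j : ℕ} (h : i ≤ j) (v : List Lt) : eb (v.take i) ≤ eb (v.take j) := by
  rw [take_eq h v]
  unfold eb
  rw [List.map_append, List.sum_append]
  omega

theorem ec_take {i j : ℕ} (h : i ≤ j) (v : List Lt) : ec (v.take i) ≤ ec (v.take j) := by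
  rw [take_eq h v]
  unfold ec
  rw [List.map_append, List.sum_append]
  omega

theorem B35_take (Z : ℤ) (t : ℕ) (v : List Lt) : v.take (2 * t) ∈ B35 Z t ↔ v ∈ B35 Z t := by
  unfold B35
  rw [Set.mem_ofPred_eq, Set.mem_ofPred_eq, List.take_take, List.take_take,
    min_eq_left (by omega), min_self]

theorem B2_take (Z : ℤ) (t : ℕ) (v : List Lt) : v.take (2 * t) ∈ B2 Z t ↔ v ∈ B2 Z t := by
  unfold B2
  rw [Set.mem_ofPred_eq, Set.mem_ofPred_eq, List.take_take, List.take_take,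
    min_eq_left (by omega), min_self]

theorem B35_disj (Z : ℤ) (v : List Lt) (i j : ℕ) (h : i < j) (hi : v ∈ B35 Z i)
    (hj : v ∈ B35 Z j) : False := by
  refine hi.2 (dvd_trans (mul_dvd_mul (pow_dvd_pow _ ?_) (pow_dvd_pow _ ?_)) hj.1)
  · exact eb_take (by omega) v
  · exact ec_take (by omega) v

theorem B2_disj (Z : ℤ) (v : List Lt) (i j : ℕ) (h : i < j) (hi : v ∈ B2 Z i)
    (hj : v ∈ B2 Z j) : False :=
  hi.2 (dvd_trans (pow_dvd_pow _ (ea_take (by omega) v)) hj.1)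

theorem eb_sk2 {v v' : List Lt} (h : v.map sk2 = v'.map sk2) (k : ℕ) :
    eb (v.take k) = eb (v'.take k) := by
  have h1 : ∀ u : List Lt, u.map lb = (u.map sk2).map lb := by
    intro u
    rw [List.map_map]
    rfl
  have h2 : (v.take k).map sk2 = (v'.take k).map sk2 := by
    rw [List.map_take, List.map_take, h]
  unfold eb
  rw [h1, h2, ← h1]

theorem ec_sk2 {v v' : List Lt} (h : v.map sk2 = v'.map sk2) (k : ℕ) :
    ec (v.take k) = ec (v'.take k) := by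
  have h1 : ∀ u : List Lt, u.map lc = (u.map sk2).map lc := by
    intro u
    rw [List.map_map]
    rfl
  have h2 : (v.take k).map sk2 = (v'.take k).map sk2 := by
    rw [List.map_take, List.map_take, h]
  unfold ec
  rw [h1, h2, ← h1]

theorem ea_sk3 {v v' : List Lt} (h : v.map sk3 = v'.map sk3) (k : ℕ) :
    ea (v.take k) = ea (v'.take k) := by
  have h1 : ∀ u : List Lt, u.map la = (u.map sk3).map la := by
    intro u
    rw [List.map_map]
    rfl
  have h2 : (v.take k).map sk3 = (v'.take k).map sk3 := by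
    rw [List.map_take, List.map_take, h]
  unfold ea
  rw [h1, h2, ← h1]

/-- the final summation -/
theorem final {H : ℕ} (hH : 2 ≤ H) {r : ZMod 15} (hr : r ∈ UU) (A B : ℕ → Set (List Lt))
    (hBt : ∀ t v, v.take (2 * t) ∈ B t ↔ v ∈ B t)
    (hBd : ∀ v i j, i < j → v ∈ B i → v ∈ B j → False) {q j0 n : ℕ} {x C c : ℝ}
    (hx : 0 ≤ x) (hx1 : x < 1) (hC : x ^ 2 ≤ C * (1 - x ^ 2)) (hc : 0 ≤ c)
    (h : ∀ t ∈ Ioc j0 n, PP H (2 * (t + q)) r (A t) ≤
      x ^ (2 * (t + q)) + PP H (2 * (t + q)) r (B t) * c) :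
    ∑ t ∈ Ioc j0 n, PP H (2 * (t + q)) r (A t) ≤ C * x ^ (2 * j0) + c := by
  refine (Finset.sum_le_sum h).trans ?_
  rw [Finset.sum_add_distrib, ← Finset.sum_mul]
  refine add_le_add (geo hx hx1 hC j0 n q) ?_
  exact mul_le_of_le_one_left hc (sum_bd hH hr B hBt hBd q j0 n)

end LExMAux

theorem main2 {H : ℕ} (hH : 2 ≤ H) {r : ZMod 15} (hr : r ∈ UU) {ε D : ℝ}
    (hε : ε ≤ 1 / 2 ^ 10) (hD : 0 < D) (Z : ℤ) (ξ : ℤ_[7]) (m q L : ℕ) {Q N j0 n : ℕ}
    (hQ : D < 16 ^ Q) (hN : 1 ≤ N) (hNj : 25 * N ≤ 2 * j0) :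
    ∑ t ∈ Ioc j0 n, PP H (2 * (t + q)) r
      ({v | SD ε D L (m - t - q) (ξ * iv (Wd v))} ∩ B35 Z t) ≤
      20 * (97 / 100) ^ (2 * j0) + ((Q : ℝ) / ((L / 4 + 1 : ℕ) : ℝ) + 3 * Q / √(N : ℝ)) := by
  refine LExMAux.final hH hr (fun t => {v | SD ε D L (m - t - q) (ξ * iv (Wd v))} ∩ B35 Z t)
    (fun t => B35 Z t) (LExMAux.B35_take Z) (LExMAux.B35_disj Z) (x := 97 / 100) (C := 20)
    (by norm_num) (by norm_num) (by norm_num) (by positivity) ?_
  intro t ht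
  rw [Finset.mem_Ioc] at ht
  have h1 := disp2 hH (n := 2 * (t + q)) (N := N) (ℓ := L / 4 + 1) (q := Q) hN (by omega) hr
    {v | SD ε D L (m - t - q) (ξ * iv (Wd v))} (B35 Z t) (by
      intro v v' h
      unfold B35
      rw [Set.mem_ofPred_eq, Set.mem_ofPred_eq, LExMAux.eb_sk2 h, LExMAux.ec_sk2 h,
        LExMAux.eb_sk2 h, LExMAux.ec_sk2 h]) (by
      intro v v' _ _ _ _ hs hv hv' h2 h3
      exact pair2 hε hD hQ hv hv' hs h2 h3)
  refine h1.trans (add_le_add ?_ le_rfl)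
  refine le_trans (PP_mono H (2 * (t + q)) r ?_) (cn2_low hH (2 * (t + q)) hr)
  intro v _ _ hv
  have h2 : cn2 v < N := hv.2
  show 25 * cn2 v < 2 * (t + q)
  omega

theorem main3 {H : ℕ} (hH : 2 ≤ H) {r : ZMod 15} (hr : r ∈ UU) {ε D : ℝ}
    (hε : ε ≤ 1 / 2 ^ 10) (hD : 0 < D) (Z : ℤ) (ξ : ℤ_[7]) (m q L : ℕ) {Q N j0 n : ℕ}
    (hQ : D < 16 ^ Q) (hN : 1 ≤ N) (hNj : 400 * N ≤ 2 * j0) :
    ∑ t ∈ Ioc j0 n, PP H (2 * (t + q)) r
      ({v | SD ε D L (m - t - q) (ξ * iv (Wd v))} ∩ B2 Z t) ≤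
      1000 * (999 / 1000) ^ (2 * j0) + ((Q : ℝ) / ((L / 4 + 1 : ℕ) : ℝ) + 3 * Q / √(N : ℝ)) := by
  refine LExMAux.final hH hr (fun t => {v | SD ε D L (m - t - q) (ξ * iv (Wd v))} ∩ B2 Z t)
    (fun t => B2 Z t) (LExMAux.B2_take Z) (LExMAux.B2_disj Z) (x := 999 / 1000) (C := 1000)
    (by norm_num) (by norm_num) (by norm_num) (by positivity) ?_
  intro t ht
  rw [Finset.mem_Ioc] at ht
  have h1 := disp3 hH (n := 2 * (t + q)) (N := N) (ℓ := L / 4 + 1) (q := Q) hN (by omega) hr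
    {v | SD ε D L (m - t - q) (ξ * iv (Wd v))} (B2 Z t) (by
      intro v v' h
      unfold B2
      rw [Set.mem_ofPred_eq, Set.mem_ofPred_eq, LExMAux.ea_sk3 h, LExMAux.ea_sk3 h]) (by
      intro v v' _ _ _ _ hs hv hv' h2 h3
      exact pair3 hε hD hQ hv hv' hs h2 h3)
  refine h1.trans (add_le_add ?_ le_rfl)
  refine le_trans (PP_mono H (2 * (t + q)) r ?_) (cn3_low hH (2 * (t + q)) hr)
  intro v _ _ hv
  have h2 : cn3 v < N := hv.2
  show 400 * cn3 v < 2 * (t + q)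
  omega

end Kak
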