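import Pool.Agent.Lib.Kak.LExE
import Pool.Agent.Lib.Kak.LExD
import Pool.Agent.Lib.Kak.LExM

/-!
# Kak.LExit: after leaving a deep simplex one is rarely in a deep simplex again

PROOF.  Let `Cd` be the constant of `bigDen`, `Cg` the constant of `noGrow`.  For `q` given put
`D = (8 Cd 81^q / δ)^2` (so `Cd 81^q/√D = δ/8`; we may assume `δ ≤ 1`, so `D ≥ 1`), and let `Q` be a
natural number with `D < 16^Q` and `Q ≤ K (1 + q)`, where `K` depends only on `δ` (and `Cd`):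
`D = (8Cd/δ)^2 * 81^(2q) ≤ 16^(k0) * 16^(4q)` if `(8 Cd/δ)^2 ≤ 16^k0`, so take `Q = k0 + 1 + 4q`,
`K = k0 + 4`.  Choose `K2` with `4 K / K2 ≤ δ/16`, i.e. `K2 ≥ 64 K/δ`; with `L = K2 (1+q)` one has
`L/4 + 1 ≥ L/4` (real division on the right) so `Q / (L/4+1) ≤ 4 K (1+q)/(K2 (1+q)) ≤ δ/16`.

Put `j0 = ⌊κ m / 20⌋`, `N = (2 j0) / 400`.  All quantities below tend to 0 when `m → ∞` (for fixed
`q`, `δ`, `κ`), uniformly in `H`, `r`, `ξ`, `Z`; `m1` is chosen accordingly, with also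
`m ≥ m1 → 24m/25 + q ≤ m` and `N ≥ 1` (if `j0 > 24m/25` the second part below is empty, and the
first sum is restricted to `t ≤ 24m/25`; nonnegative terms).

For `t ≤ j0`: drop `Dp`, use `early` with `L := ⌈κ m⌉₊`: the sum is
`≤ 81^(j0) / √(2^(κ m)) ≤ (81^(1/20) / 2^(1/2))^(κ m) → 0` (`81^(1/20) = 1.2457 < 1.4142`).

For `j0 < t ≤ 24m/25` (so `j := t + q ≤ m`): a word `v` (length `2(t+q)`, `Ok`) in
`ExitAt Z t ∩ {Dp ε L (m - t - q) (ξ iv (Wd v))}` belongs to one of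
* `ExitAt Z t ∩ {D < den (Wd v) Z}`: total `≤ δ/8` by `bigDen` (restrict the sum over `Icc 1 n`);
* `{Wd v < 2 D 7^(2(t+q))}`: total `≤ Cg √D (91/100)^(2 j0) → 0` by `noGrow`;
* otherwise `sized` applies (`Wd v ∤ Z` since `Wd (v.take (2t)) ∣ Wd v`; `|Z| ≤ ε 2^8 7^(2m)
  ≤ 7^(2m)/4`) and gives `SD ε D L (m - t - q) (ξ iv (Wd v))`.  Moreover
  `ExitAt Z t ⊆ B35 Z t ∪ B2 Z t`: `Wd w = 2^ea 3^eb 5^ec` (`Wd_eq`), if `Wd (v.take (2t)) ∤ Z` then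
  `2^ea ∤ Z` or `3^eb 5^ec ∤ Z` (coprime), and both parts of `Wd (v.take (2t-2))` divide `Z`.
  So `main2` and `main3` bound the total by
  `20 (97/100)^(2j0) + 1000 (999/1000)^(2j0) + 2 (Q/(L/4+1) + 3Q/√N) ≤ 2 δ/16 + o(1)`.
Altogether `≤ δ/8 + δ/8 + o(1) ≤ δ`.
-/

open Finset

namespace Kak

namespace LExitAux

open Filter Topology

/-- The error term tends to zero. -/
theorem err_tendsto (A Q : ℝ) : Tendsto (fun j : ℕ => (81 / 1024 : ℝ) ^ j +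
    A * (91 / 100 : ℝ) ^ (2 * j) + 20 * (97 / 100 : ℝ) ^ (2 * j) +
    1000 * (999 / 1000 : ℝ) ^ (2 * j) + 2 * (3 * Q / √(((2 * j / 400 : ℕ) : ℝ)))) atTop (𝓝 0) := by
  have hp : ∀ c : ℝ, 0 ≤ c → c < 1 → Tendsto (fun j : ℕ => c ^ (2 * j)) atTop (𝓝 0) := by
    intro c h0 h1
    have := tendsto_pow_atTop_nhds_zero_of_lt_one (r := c ^ 2) (by positivity) (by nlinarith)
    refine this.congr fun j => ?_
    rw [← pow_mul]
  have h1 := tendsto_pow_atTop_nhds_zero_of_lt_one (r := (81 / 1024 : ℝ)) (by norm_num) (by norm_num)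
  have h2 := (hp (91 / 100) (by norm_num) (by norm_num)).const_mul A
  have h3 := (hp (97 / 100) (by norm_num) (by norm_num)).const_mul 20
  have h4 := (hp (999 / 1000) (by norm_num) (by norm_num)).const_mul 1000
  have hN : Tendsto (fun j : ℕ => 2 * j / 400) atTop atTop := by
    refine Filter.tendsto_atTop_atTop.2 fun b => ⟨200 * b, fun a ha => ?_⟩
    rw [Nat.le_div_iff_mul_le (by norm_num)]
    omega
  have h5 : Tendsto (fun j : ℕ => √(((2 * j / 400 : ℕ) : ℝ))) atTop atTop :=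
    Real.tendsto_sqrt_atTop.comp (tendsto_natCast_atTop_atTop.comp hN)
  have h6 := (h5.const_div_atTop (3 * Q)).const_mul 2
  have := (((h1.add h2).add h3).add h4).add h6
  simpa using this

theorem exit_sub {Z : ℤ} {t : ℕ} {v : List Lt} (h : v ∈ ExitAt Z t) :
    v ∈ B35 Z t ∨ v ∈ B2 Z t := by
  obtain ⟨h1, h2⟩ := h
  have e1 : ((Wd (v.take (2 * t - 2)) : ℕ) : ℤ) = 2 ^ ea (v.take (2 * t - 2)) *
      (3 ^ eb (v.take (2 * t - 2)) * 5 ^ ec (v.take (2 * t - 2))) := by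
    rw [Wd_eq]; push_cast; ring
  have e2 : ((Wd (v.take (2 * t)) : ℕ) : ℤ) = 2 ^ ea (v.take (2 * t)) *
      (3 ^ eb (v.take (2 * t)) * 5 ^ ec (v.take (2 * t))) := by
    rw [Wd_eq]; push_cast; ring
  rw [e1] at h1
  rw [e2] at h2
  by_cases h3 : (3 : ℤ) ^ eb (v.take (2 * t)) * 5 ^ ec (v.take (2 * t)) ∣ Z
  · right
    refine ⟨(Dvd.intro _ rfl).trans h1, fun h4 => h2 ?_⟩
    have hcop : IsCoprime ((2 : ℤ) ^ ea (v.take (2 * t)))
        (3 ^ eb (v.take (2 * t)) * 5 ^ ec (v.take (2 * t))) := by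
      refine IsCoprime.mul_right ?_ ?_
      · exact IsCoprime.pow (by norm_num)
      · exact IsCoprime.pow (by norm_num)
    exact hcop.mul_dvd h4 h3
  · left
    exact ⟨(Dvd.intro_left _ rfl).trans h1, h3⟩

end LExitAux

open LExitAux in
theorem longExit {ε : ℝ} (hε0 : 0 < ε) (hε : ε ≤ 1 / 2 ^ 10) {κ δ : ℝ} (hκ : 0 < κ)
    (hδ : 0 < δ) : ∃ K2 : ℕ, 1 ≤ K2 ∧ ∀ q : ℕ, ∃ m1 : ℕ, ∀ H, 2 ≤ H → ∀ m, m1 ≤ m →
      ∀ r ∈ UU, ∀ ξ : ℤ_[7], IsUnit ξ → ∀ Z : ℤ, Z ≠ 0 →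
      (7 : ℤ_[7]) ^ (2 * m) ∣ (Z : ℤ_[7]) - 15 * ξ → |(Z : ℝ)| ≤ ε * 2 ^ 8 * 7 ^ (2 * m) →
      (30 : ℤ) ^ ⌈κ * m⌉₊ ∣ Z →
      ∑ t ∈ Icc 1 (24 * m / 25), PP H (2 * (t + q)) r
        (ExitAt Z t ∩ {v | Dp ε (K2 * (1 + q)) (m - t - q) (ξ * iv (Wd v))}) ≤ δ := by
  obtain ⟨Cd, hCd1, hCd⟩ := bigDen
  obtain ⟨Cg, hCg1, hCg⟩ := noGrow
  obtain ⟨k0, hk0⟩ := pow_unbounded_of_one_lt ((8 * Cd / δ) ^ 2) (by norm_num : (1 : ℝ) < 16)
  have hCd0 : 0 < Cd := by linarith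
  set K : ℕ := k0 + 4 with hK
  set K2 : ℕ := ⌈64 * (K : ℝ) / δ⌉₊ + 1 with hK2
  have hK2r : 64 * (K : ℝ) / δ ≤ K2 := by
    rw [hK2]; push_cast
    have := Nat.le_ceil (64 * (K : ℝ) / δ)
    linarith
  have hK2pos : (0 : ℝ) < K2 := by rw [hK2]; positivity
  refine ⟨K2, by rw [hK2]; omega, fun q => ?_⟩
  set D : ℝ := (8 * Cd * 81 ^ q / δ) ^ 2 with hD
  have hDroot : √D = 8 * Cd * 81 ^ q / δ := Real.sqrt_sq (by positivity)
  have hDpos : 0 < D := by positivity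
  set Q : ℕ := k0 + 4 * q with hQ
  have hDQ : D < 16 ^ Q := by
    have e1 : D = (8 * Cd / δ) ^ 2 * (6561 : ℝ) ^ q := by
      rw [hD, show (6561 : ℝ) = 81 ^ 2 by norm_num, ← pow_mul, mul_comm 2 q, pow_mul]
      field_simp
    have e2 : (16 : ℝ) ^ Q = 16 ^ k0 * (65536 : ℝ) ^ q := by
      rw [hQ, pow_add, pow_mul]; norm_num
    rw [e1, e2]
    have h1 : (6561 : ℝ) ^ q ≤ 65536 ^ q := by gcongr; norm_num
    calc (8 * Cd / δ) ^ 2 * (6561 : ℝ) ^ q < 16 ^ k0 * 6561 ^ q := by gcongr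
      _ ≤ 16 ^ k0 * 65536 ^ q := by gcongr
  have hQL : (Q : ℝ) / ((K2 * (1 + q) / 4 + 1 : ℕ) : ℝ) ≤ δ / 16 := by
    have h1 : ((K2 * (1 + q) : ℕ) : ℝ) / 4 ≤ ((K2 * (1 + q) / 4 + 1 : ℕ) : ℝ) := by
      have h2 : K2 * (1 + q) ≤ 4 * (K2 * (1 + q) / 4 + 1) := by omega
      have h3 : ((K2 * (1 + q) : ℕ) : ℝ) ≤ 4 * ((K2 * (1 + q) / 4 + 1 : ℕ) : ℝ) := by
        exact_mod_cast h2
      linarith
    have h4 : (Q : ℝ) ≤ K * (1 + q) := by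
      have : Q ≤ K * (1 + q) := by rw [hQ, hK]; nlinarith
      exact_mod_cast this
    have h5 : (0 : ℝ) < ((K2 * (1 + q) / 4 + 1 : ℕ) : ℝ) := by positivity
    rw [div_le_iff₀ h5]
    have h6 : 64 * (K : ℝ) ≤ δ * K2 := by
      rw [div_le_iff₀ hδ] at hK2r; linarith
    have h7 : (0 : ℝ) ≤ 1 + q := by positivity
    calc (Q : ℝ) ≤ K * (1 + q) := h4
      _ ≤ (δ * K2 / 64) * (1 + q) := by gcongr; linarith
      _ = δ / 16 * (((K2 * (1 + q) : ℕ) : ℝ) / 4) := by push_cast; ring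
      _ ≤ δ / 16 * ((K2 * (1 + q) / 4 + 1 : ℕ) : ℝ) := by gcongr
  -- the error term
  have herr := (err_tendsto (Cg * √D) Q).eventually (gt_mem_nhds (half_pos hδ))
  obtain ⟨J, hJ⟩ := Filter.eventually_atTop.1 herr
  obtain ⟨m0, hm0⟩ := exists_nat_gt (20 * ((max J 200 : ℕ) + 1 : ℝ) / κ)
  refine ⟨max m0 (25 * q), fun H hH m hm r hr ξ hξ Z hZ0 hZ hZb hL => ?_⟩
  have hmm0 : m0 ≤ m := (le_max_left _ _).trans hm
  have hmq : 25 * q ≤ m := (le_max_right _ _).trans hm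
  set j0 : ℕ := ⌊κ * m / 20⌋₊ with hj0
  have hj0J : max J 200 ≤ j0 := by
    rw [hj0]
    apply Nat.le_floor
    have h1 : 20 * ((max J 200 : ℕ) + 1 : ℝ) / κ < m :=
      hm0.trans_le (by exact_mod_cast hmm0)
    rw [div_lt_iff₀ hκ] at h1
    linarith
  have hjJ : J ≤ j0 := (le_max_left _ _).trans hj0J
  have hj200 : 200 ≤ j0 := (le_max_right _ _).trans hj0J
  have herr' := hJ j0 hjJ
  set n : ℕ := 24 * m / 25 with hn
  set N : ℕ := 2 * j0 / 400 with hN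
  have hN1 : 1 ≤ N := by rw [hN]; omega
  have hN400 : 400 * N ≤ 2 * j0 := by rw [hN]; omega
  have hN25 : 25 * N ≤ 2 * j0 := by omega
  have hZ4 : |(Z : ℝ)| ≤ 7 ^ (2 * m) / 4 := by
    refine hZb.trans ?_
    have h7 : (0 : ℝ) < 7 ^ (2 * m) := by positivity
    have : ε * 2 ^ 8 ≤ 1 / 4 := by
      calc ε * 2 ^ 8 ≤ (1 / 2 ^ 10) * 2 ^ 8 := by gcongr
        _ = 1 / 4 := by norm_num
    calc ε * 2 ^ 8 * 7 ^ (2 * m) ≤ 1 / 4 * 7 ^ (2 * m) := by gcongr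
      _ = 7 ^ (2 * m) / 4 := by ring
  -- splitting the sum
  have hsplit : ∑ t ∈ Icc 1 n, PP H (2 * (t + q)) r
        (ExitAt Z t ∩ {v | Dp ε (K2 * (1 + q)) (m - t - q) (ξ * iv (Wd v))}) ≤
      ∑ t ∈ Icc 1 j0, PP H (2 * (t + q)) r (ExitAt Z t) +
      ∑ t ∈ Ioc j0 n, PP H (2 * (t + q)) r
        (ExitAt Z t ∩ {v | Dp ε (K2 * (1 + q)) (m - t - q) (ξ * iv (Wd v))}) := by
    have hsub : Icc 1 n ⊆ Icc 1 j0 ∪ Ioc j0 n := by
      intro t ht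
      rw [mem_Icc] at ht
      rw [mem_union, mem_Icc, mem_Ioc]
      omega
    have hdisj : Disjoint (Icc 1 j0) (Ioc j0 n) := by
      rw [Finset.disjoint_left]
      intro t h1 h2
      rw [mem_Icc] at h1; rw [mem_Ioc] at h2; omega
    calc _ ≤ ∑ t ∈ Icc 1 j0 ∪ Ioc j0 n, PP H (2 * (t + q)) r
            (ExitAt Z t ∩ {v | Dp ε (K2 * (1 + q)) (m - t - q) (ξ * iv (Wd v))}) :=
          Finset.sum_le_sum_of_subset_of_nonneg hsub fun _ _ _ => PP_nonneg _ _ _ _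
      _ = _ := Finset.sum_union hdisj
      _ ≤ _ := by
          gcongr with t ht
          exact PP_mono _ _ _ fun v _ _ h => h.1
  have hearly : ∑ t ∈ Icc 1 j0, PP H (2 * (t + q)) r (ExitAt Z t) ≤ (81 / 1024 : ℝ) ^ j0 := by
    refine (early hH hL j0 q hr).trans ?_
    have h1 : 20 * j0 ≤ ⌈κ * m⌉₊ := by
      have h2 : (j0 : ℝ) ≤ κ * m / 20 := Nat.floor_le (by positivity)
      have h3 : ((20 * j0 : ℕ) : ℝ) ≤ (⌈κ * m⌉₊ : ℝ) := by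
        push_cast
        exact le_trans (by linarith) (Nat.le_ceil _)
      exact_mod_cast h3
    have h4 : (1024 : ℝ) ^ j0 ≤ √((2 : ℝ) ^ ⌈κ * m⌉₊) := by
      apply Real.le_sqrt_of_sq_le
      calc ((1024 : ℝ) ^ j0) ^ 2 = 2 ^ (20 * j0) := by
            rw [show (1024 : ℝ) = 2 ^ 10 by norm_num, ← pow_mul, ← pow_mul]; congr 1; ring
        _ ≤ 2 ^ ⌈κ * m⌉₊ := pow_le_pow_right₀ (by norm_num) h1
    rw [div_pow, pow_mul]
    norm_num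
    gcongr
  have hlate : ∑ t ∈ Ioc j0 n, PP H (2 * (t + q)) r
        (ExitAt Z t ∩ {v | Dp ε (K2 * (1 + q)) (m - t - q) (ξ * iv (Wd v))}) ≤
      ∑ t ∈ Ioc j0 n, PP H (2 * (t + q)) r (ExitAt Z t ∩ {v | D < (den (Wd v) Z : ℝ)}) +
      ∑ t ∈ Ioc j0 n, PP H (2 * (t + q)) r {v | (Wd v : ℝ) < 2 * D * 7 ^ (2 * (t + q))} +
      ∑ t ∈ Ioc j0 n, PP H (2 * (t + q)) r
        ({v | SD ε D (K2 * (1 + q)) (m - t - q) (ξ * iv (Wd v))} ∩ B35 Z t) +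
      ∑ t ∈ Ioc j0 n, PP H (2 * (t + q)) r
        ({v | SD ε D (K2 * (1 + q)) (m - t - q) (ξ * iv (Wd v))} ∩ B2 Z t) := by
    rw [← Finset.sum_add_distrib, ← Finset.sum_add_distrib, ← Finset.sum_add_distrib]
    refine Finset.sum_le_sum fun t ht => ?_
    rw [mem_Ioc] at ht
    have htm : t + q ≤ m := by omega
    have h1 := PP_mono H (2 * (t + q)) r
      (A := ExitAt Z t ∩ {v | Dp ε (K2 * (1 + q)) (m - t - q) (ξ * iv (Wd v))})
      (B := ((ExitAt Z t ∩ {v | D < (den (Wd v) Z : ℝ)}) ∪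
        {v | (Wd v : ℝ) < 2 * D * 7 ^ (2 * (t + q))} ∪
        ({v | SD ε D (K2 * (1 + q)) (m - t - q) (ξ * iv (Wd v))} ∩ B35 Z t)) ∪
        ({v | SD ε D (K2 * (1 + q)) (m - t - q) (ξ * iv (Wd v))} ∩ B2 Z t)) (by
      intro v hv hOk hmem
      obtain ⟨hE, hDp⟩ := hmem
      by_cases hc1 : D < (den (Wd v) Z : ℝ)
      · exact Or.inl (Or.inl (Or.inl ⟨hE, hc1⟩))
      by_cases hc2 : (Wd v : ℝ) < 2 * D * 7 ^ (2 * (t + q))
      · exact Or.inl (Or.inl (Or.inr hc2))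
      have hWZ : ¬ ((Wd v : ℕ) : ℤ) ∣ Z := by
        intro h
        refine hE.2 (dvd_trans ?_ h)
        have h2 := Wd_take_dvd v (i := 2 * t) (j := v.length) (by omega)
        rw [List.take_length] at h2
        exact_mod_cast h2
      have hSD : SD ε D (K2 * (1 + q)) (m - t - q) (ξ * iv (Wd v)) := by
        have hDp' : Dp ε (K2 * (1 + q)) (m - (t + q)) (ξ * iv (Wd v)) := by
          rw [← Nat.sub_sub]; exact hDp
        rw [Nat.sub_sub]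
        exact sized htm hDpos hZ hZ4 hWZ (not_lt.1 hc1) (not_lt.1 hc2) hDp'
      rcases exit_sub hE with h | h
      · exact Or.inl (Or.inr ⟨hSD, h⟩)
      · exact Or.inr ⟨hSD, h⟩)
    refine h1.trans ((PP_union_le _ _ _ _ _).trans ?_)
    gcongr
    refine (PP_union_le _ _ _ _ _).trans ?_
    gcongr
    exact PP_union_le _ _ _ _ _
  have hA1 : ∑ t ∈ Ioc j0 n, PP H (2 * (t + q)) r (ExitAt Z t ∩ {v | D < (den (Wd v) Z : ℝ)}) ≤
      δ / 8 := by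
    have hsub : Ioc j0 n ⊆ Icc 1 n := by
      intro t ht; rw [mem_Ioc] at ht; rw [mem_Icc]; omega
    refine (Finset.sum_le_sum_of_subset_of_nonneg hsub fun _ _ _ => PP_nonneg _ _ _ _).trans ?_
    refine (hCd H hH r hr Z hZ0 n q D hDpos).trans (le_of_eq ?_)
    rw [hDroot]
    field_simp
  have hA2 := hCg H hH r hr j0 n q D hDpos
  have hA3 := main2 hH hr hε hDpos Z ξ m q (K2 * (1 + q)) (n := n) hDQ hN1 hN25
  have hA4 := main3 hH hr hε hDpos Z ξ m q (K2 * (1 + q)) (n := n) hDQ hN1 hN400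
  have hfin := herr'
  calc _ ≤ _ := hsplit
    _ ≤ (81 / 1024 : ℝ) ^ j0 + (δ / 8 + Cg * √D * (91 / 100) ^ (2 * j0) +
        (20 * (97 / 100) ^ (2 * j0) + (δ / 16 + 3 * Q / √(N : ℝ))) +
        (1000 * (999 / 1000) ^ (2 * j0) + (δ / 16 + 3 * Q / √(N : ℝ)))) := by
        gcongr
        refine hlate.trans ?_
        gcongr
        · refine hA3.trans ?_
          gcongr
        · refine hA4.trans ?_
          gcongr
    _ ≤ δ := by linarith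

end Kak
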