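import Pool.Agent.Lib.Kak.TOp

/-!
# Kak.Windows: gains over several windows

PROOF.  Induction on `p`.  `p = 0`: `TT_le_one`.  Step: `q p ≤ q (p+1)` (by `hq`).  Let
`s = q (p+1) - q p ≥ C3 (L p + 1)`.  By `TT_add`, `TT (q (p+1)) m r ξ 1 =
TT (q p) m r ξ (r',ξ' ↦ TT s (m - q p) r' ξ' 1)`.  For `r' ∈ UU`, `ξ'` a unit, `hS` (with
`s ≤ m - q p`) gives `TT s (m - q p) r' ξ' 1 ≤ 1 - η` if not `Dp ε (L p) (m - q p) ξ'`, and always
`≤ 1 ≤ (1 - η) + 1`.  So (with `TT_mono`, `TT_fun_add`, `TT_mul`, `TT_le_Ex`)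
`TT (q (p+1)) ≤ (1-η) TT (q p) m r ξ 1 + TT (q p) m r ξ (indicator of Dp ε (L p) (m - q p))
≤ (1-η)((1-η)^p + ∑_{a<p} P_a) + P_p ≤ (1-η)^(p+1) + ∑_{a<p+1} P_a`, where
`P_a = PP H (2 * q a) r {v | Dp ε (L a) (m - q a) (ξ * iv (Wd v))}`.
-/

open Finset

namespace Kak

theorem windows {H : ℕ} (hH : 2 ≤ H) {ε η : ℝ} (hη0 : 0 ≤ η) (hη1 : η ≤ 1) {C3 : ℕ}
    (hS : ∀ m : ℕ, ∀ r ∈ UU, ∀ ξ : ℤ_[7], IsUnit ξ → ∀ L s : ℕ, C3 * (L + 1) ≤ s → s ≤ m →
      ¬ Dp ε L m ξ → TT H s m r ξ (fun _ _ => 1) ≤ 1 - η)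
    (p : ℕ) (q L : ℕ → ℕ) (hq : ∀ a < p, q a + C3 * (L a + 1) ≤ q (a + 1))
    {m : ℕ} {r : ZMod 15} {ξ : ℤ_[7]} (hr : r ∈ UU) (hξ : IsUnit ξ) (hm : q p ≤ m) :
    TT H (q p) m r ξ (fun _ _ => 1) ≤ (1 - η) ^ p +
      ∑ a ∈ range p, PP H (2 * q a) r {v | Dp ε (L a) (m - q a) (ξ * iv (Wd v))} := by
  classical
  induction p with
  | zero =>
    simp only [pow_zero, Finset.range_zero, Finset.sum_empty, add_zero]
    exact TT_le_one hH (q 0) m hr ξ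
  | succ p ih =>
    have h0 : q p + C3 * (L p + 1) ≤ q (p + 1) := hq p (Nat.lt_succ_self p)
    have h1 : q p ≤ m := by omega
    have h2 := ih (fun a ha => hq a (Nat.lt_succ_of_lt ha)) h1
    obtain ⟨s, hs⟩ : ∃ s, q (p + 1) = q p + s := ⟨q (p + 1) - q p, by omega⟩
    have hs1 : C3 * (L p + 1) ≤ s := by omega
    have hs2 : s ≤ m - q p := by omega
    have h3 : TT H (q (p + 1)) m r ξ (fun _ _ => 1) ≤
        (1 - η) * TT H (q p) m r ξ (fun _ _ => 1) +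
          TT H (q p) m r ξ (fun _ ξ' => if Dp ε (L p) (m - q p) ξ' then (1 : ℝ) else 0) := by
      rw [hs, TT_add, ← TT_mul, ← TT_fun_add]
      refine TT_mono hr hξ fun r' hr' ξ' hξ' => ?_
      by_cases hD : Dp ε (L p) (m - q p) ξ'
      · rw [if_pos hD]
        have := TT_le_one hH s (m - q p) hr' ξ'
        nlinarith
      · rw [if_neg hD]
        have := hS (m - q p) r' hr' ξ' hξ' (L p) s hs1 hs2 hD
        linarith
    have h4 : TT H (q p) m r ξ (fun _ ξ' => if Dp ε (L p) (m - q p) ξ' then (1 : ℝ) else 0) ≤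
        PP H (2 * q p) r {v | Dp ε (L p) (m - q p) (ξ * iv (Wd v))} := by
      refine (TT_le_Ex (q p) m r ξ
        (g := fun _ ξ' => if Dp ε (L p) (m - q p) ξ' then (1 : ℝ) else 0) ?_).trans (le_of_eq ?_)
      · intro r' ξ'
        split_ifs
        · exact zero_le_one
        · exact le_rfl
      · unfold PP
        refine congrArg (Ex H (2 * q p) r) ?_
        funext v
        by_cases hD : Dp ε (L p) (m - q p) (ξ * iv (Wd v))
        · rw [if_pos hD, Set.indicator_of_mem (by exact hD)]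
        · rw [if_neg hD, Set.indicator_of_notMem (by exact hD)]
    have h5 : 0 ≤ ∑ a ∈ range p, PP H (2 * q a) r {v | Dp ε (L a) (m - q a) (ξ * iv (Wd v))} :=
      Finset.sum_nonneg fun a _ => PP_nonneg _ _ _ _
    have h6 : (1 - η) * TT H (q p) m r ξ (fun _ _ => 1) ≤ (1 - η) * ((1 - η) ^ p +
        ∑ a ∈ range p, PP H (2 * q a) r {v | Dp ε (L a) (m - q a) (ξ * iv (Wd v))}) :=
      mul_le_mul_of_nonneg_left h2 (by linarith)
    have h7 : (1 - η) * ∑ a ∈ range p, PP H (2 * q a) r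
        {v | Dp ε (L a) (m - q a) (ξ * iv (Wd v))} ≤
        ∑ a ∈ range p, PP H (2 * q a) r {v | Dp ε (L a) (m - q a) (ξ * iv (Wd v))} := by
      have : 0 ≤ η * ∑ a ∈ range p, PP H (2 * q a) r
        {v | Dp ε (L a) (m - q a) (ξ * iv (Wd v))} := mul_nonneg hη0 h5
      linarith
    rw [Finset.sum_range_succ, pow_succ]
    rw [mul_add] at h6
    linarith [h3, h4, h6, h7, mul_comm (1 - η) ((1 - η) ^ p)]

end Kak
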