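import Pool.Agent.Lib.Kak.StopQ
import Pool.Agent.Lib.Kak.Windows
import Pool.Agent.Lib.Kak.LExit

/-!
# Kak.DeepStep: the gain at a deep point

PROOF.  We may assume `u ≥ 0`.  Choose `p ≥ 1` with `(1-η)^p ≤ δ/2`.  Let `K2` be given by `longExit`
with `δ/(2p)` in the place of `δ`.  Define `q 0 = 0`, `L a = K2 (1 + q a)`,
`q (a+1) = q a + C3 (L a + 1)`.  Let `C θ` be the constants of `noLate`, and `m1` larger than the
`m1` of `longExit` for `q = q a`, `a < p`, and such that `m ≥ m1` implies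
`24m/25 + q p ≤ m` and `m ≤ 30 (m - 24m/25 - q p)` (and `m1 ≥ 25`, so that `24 m/25 ≥ 1`).

Let `m ≥ m1`, `Z` the integer in `Dp ε ⌈κ m⌉₊ m ξ`.  `Z ≠ 0`: if `Z = 0` then `7 ∣ 15 ξ`, contradiction
with `IsUnit ξ` (`m ≥ 1`).  `|Z| ≤ ε 2^8 7^(2m) ≤ 7^(2m)`.  By `stopQ` with `T = 24m/25` and `noLate`:
`QQ H m r ξ ≤ ∑_{t ≤ T} Ex H (2t) r ((ExitAt Z t).indicator (QQ H (m-t) ...)) + C θ^m`.
For `t ≤ T`, `r' ∈ UU`, `ξ'` a unit: by `QQ_le_mul` (with `s = q p`, level `m - t - q p`, which is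
`< m` as `t ≥ 1` and satisfies `m ≤ 30 * level`) and `windows`:
`QQ H (m-t) r' ξ' ≤ u ((1-η)^p + ∑_{a<p} PP H (2 q a) r' {w | Dp ε (L a) (m-t-q a) (ξ' iv (Wd w))})`.
Insert `r' = st r v`, `ξ' = ξ iv (Wd v)`; by `Ex_append`
`Ex H (2t) r ((ExitAt Z t).indicator (v ↦ PP H (2 q a) (st r v) {...}))
= PP H (2(t + q a)) r (ExitAt Z t ∩ {v | Dp ε (L a) (m - t - q a) (ξ iv (Wd v))})`
(membership in `ExitAt Z t` depends only on the first `2t` letters).  Sum over `t`: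
`∑_t PP H (2t) r (ExitAt Z t) ≤ 1` (`exit_disjoint`, `PP_take`), and `longExit` bounds the `a`-th sum
by `δ/(2p)`.  Total `≤ u (δ/2 + p δ/(2p)) + C θ^m = u δ + C θ^m`.
-/

open Finset

namespace Kak

namespace DeepStepAux

/-- cutting the word does not change membership in `ExitAt` -/
theorem take_mem_exit {Z : ℤ} {t : ℕ} {v : List Lt} :
    v.take (2 * t) ∈ ExitAt Z t ↔ v ∈ ExitAt Z t := by
  unfold ExitAt
  simp only [Set.mem_ofPred_eq, List.take_take]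
  rw [min_eq_left (by omega : 2 * t - 2 ≤ 2 * t), min_self]

theorem append_mem_exit {Z : ℤ} {t : ℕ} {v u : List Lt} (hv : v.length = 2 * t) :
    v ++ u ∈ ExitAt Z t ↔ v ∈ ExitAt Z t := by
  rw [← take_mem_exit (v := v ++ u), ← take_mem_exit (v := v)]
  rw [List.take_append_of_le_length (by omega)]

theorem exit_sum {H : ℕ} (hH : 2 ≤ H) (Z : ℤ) (T : ℕ) {r : ZMod 15} (hr : r ∈ UU) :
    ∑ t ∈ Icc 1 T, PP H (2 * t) r (ExitAt Z t) ≤ 1 := by
  have h1 : ∀ t ∈ Icc 1 T, PP H (2 * t) r (ExitAt Z t) =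
      PP H (2 * T) r {v | v.take (2 * t) ∈ ExitAt Z t} := by
    intro t ht
    rw [Finset.mem_Icc] at ht
    exact (PP_take hH (by omega) hr _).symm
  rw [Finset.sum_congr rfl h1]
  refine (sum_PP_le (H := H) (2 * T) r (Icc 1 T) _ Set.univ ?_ ?_).trans
    (PP_le_one hH _ hr _)
  · intro v _ _ i _ j _ hi hj
    exact exit_disjoint (take_mem_exit.mp hi) (take_mem_exit.mp hj)
  · intro v _ _ i _ _
    exact Set.mem_univ _

theorem isUnit_fifteen : IsUnit (15 : ℤ_[7]) := by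
  have h := iv_spec (w := 15) (by norm_num)
  exact IsUnit.of_mul_eq_one _ (by exact_mod_cast h)

theorem ne_zero_of_dvd {Z : ℤ} {m : ℕ} {ξ : ℤ_[7]} (hm : 1 ≤ m) (hξ : IsUnit ξ)
    (h : (7 : ℤ_[7]) ^ (2 * m) ∣ (Z : ℤ_[7]) - 15 * ξ) : Z ≠ 0 := by
  rintro rfl
  have h1 : (7 : ℤ_[7]) ∣ 15 * ξ := by
    have h2 : (7 : ℤ_[7]) ∣ (7 : ℤ_[7]) ^ (2 * m) := dvd_pow_self _ (by omega)
    have h3 := h2.trans h
    simpa using h3
  have h4 : IsUnit (15 * ξ) := isUnit_fifteen.mul hξ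
  have h5 : IsUnit (7 : ℤ_[7]) := isUnit_of_dvd_unit h1 h4
  have h6 : ¬ IsUnit ((7 : ℕ) : ℤ_[7]) := (PadicInt.prime_p (p := 7)).not_isUnit
  exact h6 (by exact_mod_cast h5)

/-- the windows -/
def qs (C3 K2 : ℕ) : ℕ → ℕ
  | 0 => 0
  | a + 1 => qs C3 K2 a + C3 * (K2 * (1 + qs C3 K2 a) + 1)

theorem qs_mono_step (C3 K2 a : ℕ) : qs C3 K2 a ≤ qs C3 K2 (a + 1) := by
  show qs C3 K2 a ≤ qs C3 K2 a + _
  exact Nat.le_add_right _ _

theorem qs_le {C3 K2 a p : ℕ} (h : a ≤ p) : qs C3 K2 a ≤ qs C3 K2 p :=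
  monotone_nat_of_le_succ (qs_mono_step C3 K2) h

/-- the term of one exit time and one window -/
theorem append_term {H : ℕ} (Z : ℤ) (ε : ℝ) (t qa L m : ℕ) (r : ZMod 15) (ξ : ℤ_[7]) :
    Ex H (2 * t) r ((ExitAt Z t).indicator (fun v => PP H (2 * qa) (st r v)
      {w | Dp ε L (m - t - qa) (ξ * iv (Wd v) * iv (Wd w))})) =
    PP H (2 * (t + qa)) r
      (ExitAt Z t ∩ {v | Dp ε L (m - t - qa) (ξ * iv (Wd v))}) := by
  classical
  unfold PP
  rw [show 2 * (t + qa) = 2 * t + 2 * qa by ring, Ex_append]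
  refine Ex_congr H (2 * t) r fun v hv _ => ?_
  by_cases hvE : v ∈ ExitAt Z t
  · rw [Set.indicator_of_mem hvE]
    refine Ex_congr H (2 * qa) (st r v) fun w _ _ => ?_
    have hvw : v ++ w ∈ ExitAt Z t := (append_mem_exit hv).mpr hvE
    have hz : ξ * iv (Wd (v ++ w)) = ξ * iv (Wd v) * iv (Wd w) := by
      rw [iv_Wd_append, mul_assoc]
    by_cases hD : Dp ε L (m - t - qa) (ξ * iv (Wd v) * iv (Wd w))
    · rw [Set.indicator_of_mem (show w ∈ {w | Dp ε L (m - t - qa)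
        (ξ * iv (Wd v) * iv (Wd w))} from hD), Set.indicator_of_mem]
      exact ⟨hvw, by rw [Set.mem_ofPred_eq, hz]; exact hD⟩
    · rw [Set.indicator_of_notMem (show w ∉ {w | Dp ε L (m - t - qa)
        (ξ * iv (Wd v) * iv (Wd w))} from hD), Set.indicator_of_notMem]
      rintro ⟨_, h2⟩
      rw [Set.mem_ofPred_eq, hz] at h2
      exact hD h2
  · rw [Set.indicator_of_notMem hvE]
    symm
    have : (fun u => (ExitAt Z t ∩ {v | Dp ε L (m - t - qa) (ξ * iv (Wd v))}).indicator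
        (fun _ => (1 : ℝ)) (v ++ u)) = fun _ => 0 := by
      funext u
      rw [Set.indicator_of_notMem]
      rintro ⟨h1, _⟩
      exact hvE ((append_mem_exit hv).mp h1)
    rw [this, Ex_zero_fun]

end DeepStepAux

open DeepStepAux in
theorem deepStep {ε η : ℝ} (hε0 : 0 < ε) (hε : ε ≤ 1 / 2 ^ 10) (hη0 : 0 < η) (hη1 : η ≤ 1)
    {C3 : ℕ} (hC3 : 1 ≤ C3)
    (hS : ∀ H, 2 ≤ H → ∀ m : ℕ, ∀ r ∈ UU, ∀ ξ : ℤ_[7], IsUnit ξ → ∀ L s : ℕ,
      C3 * (L + 1) ≤ s → s ≤ m → ¬ Dp ε L m ξ → TT H s m r ξ (fun _ _ => 1) ≤ 1 - η)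
    {κ δ : ℝ} (hκ : 0 < κ) (hδ : 0 < δ) :
    ∃ C θ : ℝ, 0 < C ∧ 0 < θ ∧ θ < 1 ∧ ∃ m1 : ℕ, ∀ H, 2 ≤ H → ∀ m, m1 ≤ m → ∀ u : ℝ, 0 ≤ u →
      (∀ m', m ≤ 30 * m' → m' < m → ∀ r' ∈ UU, ∀ ξ' : ℤ_[7], IsUnit ξ' → QQ H m' r' ξ' ≤ u) →
      ∀ r ∈ UU, ∀ ξ : ℤ_[7], IsUnit ξ → Dp ε ⌈κ * m⌉₊ m ξ →
        QQ H m r ξ ≤ C * θ ^ m + δ * u := by
  classical
  -- the number of windows
  obtain ⟨p0, hp0⟩ := exists_pow_lt_of_lt_one (show 0 < δ / 2 by positivity)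
    (show 1 - η < 1 by linarith)
  set p : ℕ := p0 + 1 with hp
  have hη' : 0 ≤ 1 - η := by linarith
  have hpow : (1 - η) ^ p ≤ δ / 2 := by
    rw [hp, pow_succ]
    have h1 : (1 - η) ^ p0 * (1 - η) ≤ (1 - η) ^ p0 * 1 :=
      mul_le_mul_of_nonneg_left (by linarith) (pow_nonneg hη' _)
    linarith
  have hpR : (0 : ℝ) < p := by rw [hp]; positivity
  obtain ⟨K2, hK2, hLE⟩ := longExit hε0 hε hκ (show 0 < δ / (2 * p) by positivity)
  choose M hM using hLE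
  obtain ⟨C, θ, hC, hθ0, hθ1, hNL⟩ := noLate
  set q : ℕ → ℕ := qs C3 K2 with hq
  set L : ℕ → ℕ := fun a => K2 * (1 + q a) with hL
  refine ⟨C, θ, hC, hθ0, hθ1, (range p).sup (fun a => M (q a)) + 150 * q p + 25, ?_⟩
  intro H hH m hm u hu hQ r hr ξ hξ hDp
  have hm25 : 25 ≤ m := by omega
  have hmq : 150 * q p ≤ m := by omega
  have hmM : ∀ a ∈ range p, M (q a) ≤ m := by
    intro a ha
    have := Finset.le_sup (f := fun a => M (q a)) ha

    omega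
  obtain ⟨Z, hZ1, hZ2, hZ3⟩ := hDp
  have hZ0 : Z ≠ 0 := ne_zero_of_dvd (by omega) hξ hZ1
  have hZ4 : |(Z : ℝ)| ≤ 7 ^ (2 * m) := by
    refine hZ3.trans ?_
    have h1 : (0 : ℝ) < 7 ^ (2 * m) := by positivity
    have h2 : ε * 2 ^ 8 ≤ 1 := by
      have : ε * 2 ^ 8 ≤ 1 / 2 ^ 10 * 2 ^ 8 := mul_le_mul_of_nonneg_right hε (by norm_num)
      refine this.trans (by norm_num)
    nlinarith
  set T : ℕ := 24 * m / 25 with hT
  have hTm : T ≤ m := by omega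
  have h1 := stopQ hH hTm hr ξ Z
  have h2 := hNL H hH m r hr Z hZ0 hZ4
  -- each exit time
  have h3 : ∀ t ∈ Icc 1 T, Ex H (2 * t) r ((ExitAt Z t).indicator
      (fun v => QQ H (m - t) (st r v) (ξ * iv (Wd v)))) ≤
      u * ((1 - η) ^ p * PP H (2 * t) r (ExitAt Z t) + ∑ a ∈ range p,
        PP H (2 * (t + q a)) r
          (ExitAt Z t ∩ {v | Dp ε (K2 * (1 + q a)) (m - t - q a) (ξ * iv (Wd v))})) := by
    intro t ht
    rw [Finset.mem_Icc] at ht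
    have hqt : q p ≤ m - t := by omega
    have hstep : ∀ r' ∈ UU, ∀ ξ' : ℤ_[7], IsUnit ξ' → QQ H (m - t) r' ξ' ≤
        u * ((1 - η) ^ p + ∑ a ∈ range p, PP H (2 * q a) r'
          {v | Dp ε (L a) (m - t - q a) (ξ' * iv (Wd v))}) := by
      intro r' hr' ξ' hξ'
      have h4 := QQ_le_mul (H := H) hqt hr' hξ' (u := u)
        (hQ (m - t - q p) (by omega) (by omega))
      have h5 := windows hH hη0.le hη1 (hS H hH) p q L
        (fun a _ => le_refl _) hr' hξ' hqt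
      exact h4.trans (mul_le_mul_of_nonneg_left h5 hu)
    have h6 : Ex H (2 * t) r ((ExitAt Z t).indicator
        (fun v => QQ H (m - t) (st r v) (ξ * iv (Wd v)))) ≤
        Ex H (2 * t) r (fun v => u * ((1 - η) ^ p * (ExitAt Z t).indicator (fun _ => (1 : ℝ)) v +
          ∑ a ∈ range p, (ExitAt Z t).indicator (fun v => PP H (2 * q a) (st r v)
            {w | Dp ε (L a) (m - t - q a) (ξ * iv (Wd v) * iv (Wd w))}) v)) := by
      refine Ex_mono H (2 * t) r fun v hv hv' => ?_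
      by_cases hvE : v ∈ ExitAt Z t
      · simp only [Set.indicator_of_mem hvE, mul_one]
        exact hstep _ (st_mem v r hr hv') _ (hξ.mul (iv_isUnit (not_dvd_Wd v)))
      · simp only [Set.indicator_of_notMem hvE, mul_zero, Finset.sum_const_zero, add_zero]
        exact le_refl _
    refine h6.trans (le_of_eq ?_)
    rw [Ex_mul_left, Ex_add, Ex_mul_left, Ex_sum]
    congr 1
    congr 1
    refine Finset.sum_congr rfl fun a _ => ?_
    exact append_term Z ε t (q a) (L a) m r ξ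
  have h7 : ∑ t ∈ Icc 1 T, Ex H (2 * t) r ((ExitAt Z t).indicator
      (fun v => QQ H (m - t) (st r v) (ξ * iv (Wd v)))) ≤ δ * u := by
    refine (Finset.sum_le_sum h3).trans ?_
    rw [← Finset.mul_sum, Finset.sum_add_distrib, ← Finset.mul_sum, Finset.sum_comm]
    have h8 : ∑ a ∈ range p, ∑ t ∈ Icc 1 T, PP H (2 * (t + q a)) r
        (ExitAt Z t ∩ {v | Dp ε (K2 * (1 + q a)) (m - t - q a) (ξ * iv (Wd v))}) ≤
        ∑ a ∈ range p, δ / (2 * p) := by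
      refine Finset.sum_le_sum fun a ha => ?_
      exact hM (q a) H hH m (hmM a ha) r hr ξ hξ Z hZ0 hZ1 hZ3 hZ2
    rw [Finset.sum_const, Finset.card_range, nsmul_eq_mul] at h8
    have h9 : (p : ℝ) * (δ / (2 * p)) = δ / 2 := by field_simp
    rw [h9] at h8
    have h10 := exit_sum hH Z T hr
    have h11 : (1 - η) ^ p * ∑ t ∈ Icc 1 T, PP H (2 * t) r (ExitAt Z t) ≤ δ / 2 := by
      have h12 : (1 - η) ^ p * ∑ t ∈ Icc 1 T, PP H (2 * t) r (ExitAt Z t) ≤ (1 - η) ^ p * 1 :=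
        mul_le_mul_of_nonneg_left h10 (pow_nonneg hη' _)
      linarith
    have h13 : (1 - η) ^ p * ∑ t ∈ Icc 1 T, PP H (2 * t) r (ExitAt Z t) +
        ∑ a ∈ range p, ∑ t ∈ Icc 1 T, PP H (2 * (t + q a)) r
        (ExitAt Z t ∩ {v | Dp ε (K2 * (1 + q a)) (m - t - q a) (ξ * iv (Wd v))}) ≤ δ := by
      linarith
    calc _ ≤ u * δ := mul_le_mul_of_nonneg_left h13 hu
      _ = δ * u := mul_comm _ _
  linarith

end Kak
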