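import Mathlib

/-!
# Definitions for the Kakutani `7x+1` map (project Kak)

Backward words: a letter `l` describes a smooth number `lw l = 2^(la l) 3^(lb l) 5^(lc l)` with
`la l ≥ 1`; the backward step is `M ↦ (lw l * M - 1) / 7`.  The letters carry the extra coin
variables used in the Fourier analysis.  `Ex H n r f` is the expectation of `f` over the words of
length `n` of the Markov chain (on residues modulo 15) started at `r`.
-/

open Finset

namespace Kak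

instance fact7 : Fact (Nat.Prime 7) := ⟨by norm_num⟩

/-- Letters `((al, t), ((be, u), (ga, k)))`. -/
abbrev Lt := (ℕ × ℕ) × ((ℕ × ℕ) × (ℕ × ℕ))

/-- exponent of 2 -/
def la (l : Lt) : ℕ := l.1.1 + 4 * (l.1.2 - 1)
/-- exponent of 3 -/
def lb (l : Lt) : ℕ := l.2.1.1 + 4 * (l.2.1.2 - 1)
/-- exponent of 5 -/
def lc (l : Lt) : ℕ := l.2.2.1 + 2 * l.2.2.2
/-- the smooth number of a letter -/
def lw (l : Lt) : ℕ := 2 ^ la l * 3 ^ lb l * 5 ^ lc l
/-- the smooth number of a letter with the coin removed from the exponent of 2 -/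
def w0 (l : Lt) : ℕ := 2 ^ l.1.1 * 3 ^ lb l * 5 ^ lc l

/-- The finite alphabet. -/
def LS (H : ℕ) : Finset Lt :=
  (Icc 1 4 ×ˢ range (H + 2)) ×ˢ
    (insert (0, 0) (Icc 1 4 ×ˢ range (H + 2)) ×ˢ insert (0, 0) (Icc 1 2 ×ˢ range (H + 1)))

noncomputable def w2 (H t : ℕ) : ℝ :=
  if t = 0 then 15 / 16 else if t = 1 then 1 / 16
  else if t = H + 1 then 16 / 15 * (1 / 16) ^ H else (1 / 16) ^ (t - 1)
noncomputable def w3 (H u : ℕ) : ℝ :=
  if u = 0 then 80 / 81 else if u = 1 then 1 / 81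
  else if u = H + 1 then 81 / 80 * (1 / 81) ^ H else (1 / 81) ^ (u - 1)
noncomputable def w5 (H k : ℕ) : ℝ :=
  if k = H then 25 / 24 * (1 / 25) ^ H else (1 / 25) ^ k

/-- the weight of a letter -/
noncomputable def wt (H : ℕ) (l : Lt) : ℝ :=
  (1 / 2) ^ l.1.1 * w2 H l.1.2 *
    (if l.2.1.1 = 0 then 1 else (1 / 3) ^ l.2.1.1 * w3 H l.2.1.2) *
    (if l.2.2.1 = 0 then 1 else (1 / 5) ^ l.2.2.1 * w5 H l.2.2.2)

/-- the states: units modulo 15 -/
def UU : Finset (ZMod 15) := {1, 2, 4, 7, 8, 11, 13, 14}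

/-- the eigenvector -/
def hN (r : ZMod 15) : ℕ :=
  if r = 1 then 15802 else if r = 2 then 15258 else if r = 4 then 19142
  else if r = 7 then 19410 else if r = 8 then 14112 else if r = 11 then 13759
  else if r = 13 then 11473 else if r = 14 then 11539 else 0

noncomputable def hh (r : ZMod 15) : ℝ := (hN r : ℝ)

/-- the new residue modulo 15 after the backward step with the smooth number `w` -/
def nx (r : ZMod 15) (w : ℕ) : ZMod 15 := ((w : ZMod 15) * r - 1) * 13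

/-- transition probabilities -/
noncomputable def pr (H : ℕ) (r : ZMod 15) (l : Lt) : ℝ := wt H l * hh (nx r (lw l)) / hh r

/-- expectation over words -/
noncomputable def Ex {E : Type*} [AddCommGroup E] [Module ℝ E] (H : ℕ) :
    ℕ → ZMod 15 → (List Lt → E) → E
  | 0, _, f => f []
  | n + 1, r, f => ∑ l ∈ LS H, pr H r l • Ex H n (nx r (lw l)) (fun v => f (l :: v))

/-- probability of a set of words -/
noncomputable def PP (H n : ℕ) (r : ZMod 15) (A : Set (List Lt)) : ℝ :=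
  Ex H n r (A.indicator (fun _ => (1 : ℝ)))

/-- the product of the smooth numbers of a word -/
def Wd : List Lt → ℕ
  | [] => 1
  | l :: v => lw l * Wd v
/-- `7^n * N + Gd v = Wd v * M` for the backward endpoint `N` of `M` along `v` -/
def Gd : List Lt → ℕ
  | [] => 0
  | l :: v => Wd v + 7 * Gd v
/-- the final state -/
def st (r : ZMod 15) : List Lt → ZMod 15
  | [] => r
  | l :: v => st (nx r (lw l)) v
/-- `Gd / Wd` as a real number -/
noncomputable def Fr (v : List Lt) : ℝ := (Gd v : ℝ) / (Wd v : ℝ)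
/-- `Gd / Wd` as a 7-adic integer -/
noncomputable def Fp : List Lt → ℤ_[7]
  | [] => 0
  | l :: v => (1 + 7 * Fp v) * Ring.inverse ((lw l : ℕ) : ℤ_[7])

/-- admissible words (all letters in the alphabet, all states units) -/
def Ok (H : ℕ) : ZMod 15 → List Lt → Prop
  | _, [] => True
  | r, l :: v => l ∈ LS H ∧ nx r (lw l) ∈ UU ∧ Ok H (nx r (lw l)) v

/-- inverse of a natural number in the 7-adic integers -/
noncomputable def iv (w : ℕ) : ℤ_[7] := Ring.inverse ((w : ℕ) : ℤ_[7])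

/-- the standard additive character of level `n` -/
noncomputable def ph (n : ℕ) (x : ℤ_[7]) : ℂ := ZMod.stdAddChar (PadicInt.toZModPow n x)

/-- the characteristic function -/
noncomputable def Phi (H n : ℕ) (r : ZMod 15) (ξ : ℤ_[7]) (φ : ZMod 15 → ℂ) : ℂ :=
  Ex H n r (fun v => ph n (ξ * Fp v) * φ (st r v))

/-- number of 2-coins -/
def cn2 (v : List Lt) : ℕ := v.countP (fun l => l.1.2 = 1 ∨ l.1.2 = 2)
/-- number of 3-coins -/
def cn3 (v : List Lt) : ℕ := v.countP (fun l => l.2.1.1 ≠ 0 ∧ (l.2.1.2 = 1 ∨ l.2.1.2 = 2))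

/-- total exponents -/
def ea (v : List Lt) : ℕ := (v.map la).sum
def eb (v : List Lt) : ℕ := (v.map lb).sum
def ec (v : List Lt) : ℕ := (v.map lc).sum

/-- remove the value of the 2-coin -/
def sk2 (l : Lt) : Lt := ((l.1.1, if l.1.2 = 2 then 1 else l.1.2), l.2)
/-- remove the value of the 3-coin -/
def sk3 (l : Lt) : Lt :=
  (l.1, ((l.2.1.1, if l.2.1.1 ≠ 0 ∧ l.2.1.2 = 2 then 1 else l.2.1.2), l.2.2))
/-- number of heads of the 2-coins -/
def hs2 (v : List Lt) : ℕ := v.countP (fun l => l.1.2 = 2)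
/-- number of heads of the 3-coins -/
def hs3 (v : List Lt) : ℕ := v.countP (fun l => l.2.1.1 ≠ 0 ∧ l.2.1.2 = 2)

/-- the letter `(2^(al0 r))` is admissible from `r` -/
def al0 (r : ZMod 15) : ℕ :=
  if r = 1 then 1 else if r = 2 then 2 else if r = 4 then 1 else if r = 7 then 1
  else if r = 8 then 2 else if r = 11 then 2 else if r = 13 then 3 else 4

/-- the gain of a pair of letters: the two letters are 2-coins with different values -/
noncomputable def rho (m : ℕ) (ξ : ℤ_[7]) (l1 l2 : Lt) : ℝ :=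
  if (l1.1.2 = 1 ∧ l2.1.2 = 2) ∨ (l1.1.2 = 2 ∧ l2.1.2 = 1) then
    ‖1 + ph (2 * m) (15 * ξ * iv (16 * w0 l1))‖ / 2 else 1

/-- the transfer operator over `s` pairs of letters, starting at level `m` (modulus `7^(2m)`) -/
noncomputable def TT (H : ℕ) :
    ℕ → ℕ → ZMod 15 → ℤ_[7] → (ZMod 15 → ℤ_[7] → ℝ) → ℝ
  | 0, _, r, ξ, g => g r ξ
  | s + 1, m, r, ξ, g => ∑ l1 ∈ LS H, ∑ l2 ∈ LS H,
      pr H r l1 * pr H (nx r (lw l1)) l2 * rho m ξ l1 l2 *
        TT H s (m - 1) (nx (nx r (lw l1)) (lw l2)) (ξ * iv (lw l1 * lw l2)) g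

/-- the majorant of the characteristic function at level `m` -/
noncomputable def QQ (H m : ℕ) (r : ZMod 15) (ξ : ℤ_[7]) : ℝ := TT H m m r ξ (fun _ _ => 1)

/-- black points -/
def Blk (ε : ℝ) (m : ℕ) (r : ZMod 15) (ξ : ℤ_[7]) : Prop :=
  ∃ Z : ℤ, (7 : ℤ_[7]) ^ (2 * m) ∣ (Z : ℤ_[7]) - 15 * ξ ∧ (2 : ℤ) ^ (4 + al0 r) ∣ Z ∧
    |(Z : ℝ)| ≤ ε * 2 ^ (4 + al0 r) * 7 ^ (2 * m)

/-- probability that all points at the times `0 .. s-1` are black -/
noncomputable def Fb (H : ℕ) (ε : ℝ) (s m : ℕ) (r : ZMod 15) (ξ : ℤ_[7]) : ℝ :=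
  PP H (2 * s) r {v | ∀ t < s,
    Blk ε (m - t) (st r (v.take (2 * t))) (ξ * iv (Wd (v.take (2 * t))))}

/-- deep points of depth `L` -/
def Dp (ε : ℝ) (L m : ℕ) (ξ : ℤ_[7]) : Prop :=
  ∃ Z : ℤ, (7 : ℤ_[7]) ^ (2 * m) ∣ (Z : ℤ_[7]) - 15 * ξ ∧ (30 : ℤ) ^ L ∣ Z ∧
    |(Z : ℝ)| ≤ ε * 2 ^ 8 * 7 ^ (2 * m)

/-- deep points of depth `L` whose size is at least `7^(2m) / (2D)` -/
def SD (ε D : ℝ) (L m : ℕ) (ξ : ℤ_[7]) : Prop :=
  ∃ Z : ℤ, (7 : ℤ_[7]) ^ (2 * m) ∣ (Z : ℤ_[7]) - 15 * ξ ∧ (30 : ℤ) ^ L ∣ Z ∧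
    |(Z : ℝ)| ≤ ε * 2 ^ 8 * 7 ^ (2 * m) ∧ (7 : ℝ) ^ (2 * m) ≤ 2 * D * |(Z : ℝ)|

/-- words leaving the divisors of `Z` at the pair time `t ≥ 1` -/
def ExitAt (Z : ℤ) (t : ℕ) : Set (List Lt) :=
  {v | ((Wd (v.take (2 * t - 2)) : ℕ) : ℤ) ∣ Z ∧ ¬ ((Wd (v.take (2 * t)) : ℕ) : ℤ) ∣ Z}

/-- exit through the primes 3, 5 at the pair time `t` -/
def B35 (Z : ℤ) (t : ℕ) : Set (List Lt) :=
  {v | (3 : ℤ) ^ eb (v.take (2 * t - 2)) * 5 ^ ec (v.take (2 * t - 2)) ∣ Z ∧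
    ¬ (3 : ℤ) ^ eb (v.take (2 * t)) * 5 ^ ec (v.take (2 * t)) ∣ Z}

/-- exit through the prime 2 at the pair time `t` -/
def B2 (Z : ℤ) (t : ℕ) : Set (List Lt) :=
  {v | (2 : ℤ) ^ ea (v.take (2 * t - 2)) ∣ Z ∧ ¬ (2 : ℤ) ^ ea (v.take (2 * t)) ∣ Z}

/-- denominator of `Z / W` -/
def den (W : ℕ) (Z : ℤ) : ℕ := W / Nat.gcd W Z.natAbs

/-- distribution of `Fp` modulo `7^m` over words of length `n` -/
noncomputable def PdL (H n m : ℕ) (r : ZMod 15) (φ : ZMod 15 → ℝ) (y : ZMod (7 ^ m)) : ℝ :=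
  Ex H n r (fun v => if PadicInt.toZModPow m (Fp v) = y then φ (st r v) else 0)

/-- oscillation between the levels `m ≤ n` -/
noncomputable def Osc (H n m : ℕ) (r : ZMod 15) (φ : ZMod 15 → ℝ) : ℝ :=
  ∑ Y : ZMod (7 ^ n), |PdL H n n r φ Y - PdL H n m r φ ((Y.val : ℕ) : ZMod (7 ^ m)) / 7 ^ (n - m)|

/-- stopped words (at time `k`, modulus `7^n`) -/
def SK (n k : ℕ) : Set (List Lt) :=
  {v | Wd (v.take (k - 1)) * n ^ 13 < 7 ^ n ∧ 7 ^ n ≤ Wd (v.take k) * n ^ 13 ∧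
    Wd (v.take k) ≤ 7 ^ n ∧ Gd (v.take k) < 7 ^ n}

/-- the stopped part of the distribution of `Fp` modulo `7^n` -/
noncomputable def MM (H n : ℕ) (r : ZMod 15) (φ : ZMod 15 → ℝ) (Y : ZMod (7 ^ n)) : ℝ :=
  ∑ k ∈ Icc 1 (24 * n / 25), Ex H n r ((SK n k).indicator
    (fun v => if PadicInt.toZModPow n (Fp v) = Y then φ (st r v) else 0))

/-- the characteristic function after the stopping time -/
noncomputable def cc (H n : ℕ) (φ : ZMod 15 → ℝ) (k W : ℕ) (s : ZMod 15) (x : ℤ_[7]) : ℂ :=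
  Ex H (n - k) s (fun u => ph n (x * 7 ^ k * iv W * Fp u) * (φ (st s u) : ℂ))

/-- not a top letter -/
def NT1 (H : ℕ) (l : Lt) : Prop :=
  l.1.2 ≠ H + 1 ∧ l.2.1.2 ≠ H + 1 ∧ (l.2.2.1 ≠ 0 → l.2.2.2 ≠ H)

/-- the word contains no top letter -/
def NT (H : ℕ) (v : List Lt) : Prop := ∀ l ∈ v, NT1 H l

/-- backward endpoint -/
def Nb (M : ℕ) : List Lt → ℕ
  | [] => M
  | l :: v => Nb ((lw l * M - 1) / 7) v

/-- the smooth part -/
def sm (n : ℕ) : ℕ := 2 ^ padicValNat 2 n * 3 ^ padicValNat 3 n * 5 ^ padicValNat 5 n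
/-- the accelerated map -/
def Syr (N : ℕ) : ℕ := (7 * N + 1) / sm (7 * N + 1)

/-- integers coprime to 30 in `[e^s, e^(s+l))` -/
noncomputable def WN (s l : ℝ) : Finset ℕ :=
  (Finset.range ⌈Real.exp (s + l)⌉₊).filter
    (fun N => Real.exp s ≤ N ∧ (N : ℝ) < Real.exp (s + l) ∧ Nat.Coprime N 30)

/-- logarithmic mass of a set in the window -/
noncomputable def WS (s l : ℝ) (P : Set ℕ) : ℝ :=
  ∑ N ∈ WN s l, P.indicator (fun N : ℕ => 1 / (N : ℝ)) N

/-- the density of the image of the logarithmic measure after `n` steps -/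
noncomputable def KK (H n M : ℕ) : ℝ :=
  7 ^ n / (M : ℝ) * hh (M : ZMod 15) *
    PdL H n n (M : ZMod 15) (fun s => 1 / hh s) ((M : ℕ) : ZMod (7 ^ n))

noncomputable def KS (H n : ℕ) (s l : ℝ) (P : Set ℕ) : ℝ :=
  ∑ M ∈ WN s l, P.indicator (fun M : ℕ => KK H n M) M

/-- the growth vector -/
def VN (r : ZMod 15) : ℕ :=
  if r = 1 then 51 else if r = 2 then 46 else if r = 4 then 77 else if r = 7 then 100
  else if r = 8 then 40 else if r = 11 then 48 else if r = 13 then 30 else if r = 14 then 28 else 0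

/-- the mean displacement (started at the state 1) -/
noncomputable def dd (H n : ℕ) : ℝ :=
  Ex H n 1 (fun v => Real.log (Wd v)) - n * Real.log 7

/-- the typical words used in the transport lemmas -/
def TY (H n : ℕ) (w s : ℝ) : Set (List Lt) :=
  {v | NT H v ∧ |Real.log (Wd v) - n * Real.log 7 - dd H n| ≤ w ∧ 2 * Fr v ≤ Real.exp s}

end Kak
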