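import Pool.Agent.Lib.Kak.ExBasic
import Pool.Agent.Lib.Kak.BinTV

/-!
# Kak.Disp: dispersal by coins

PROOF (for the 2-coins; the 3-coins are the same with `l.2.1` in the place of `l.1`; it is
recommended to prove a general version with an abstract involution `fl` on the coins, preserving
`wt` and `nx`).  For `H ≥ 2` the letters `((al,1),x)` and `((al,2),x)` have the same weight `wt`
(`w2 H 1 = w2 H 2 = 1/16`) and the same `nx` (the numbers `lw` differ by the factor 16, and
`16 = 1` in `ZMod 15`).  [For the 3-coins, with `l.2.1.1 ≠ 0`: `w3 H 1 = w3 H 2 = 1/81`, and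
`81 * 3^b = 3^b` in `ZMod 15` for `b ≥ 1`.]

For `f : List Lt → ℝ` define `Av f v` by recursion on `v`: `Av f [] = f []` and, if `l` is a coin
(`l.1.2 = 1` or `2`), `Av f (l :: v) = (Av (f ∘ cons l1) v + Av (f ∘ cons l2) v) / 2` where `l1, l2`
are the two coins with the same other data, and `Av f (l :: v) = Av (f ∘ cons l) v` otherwise.
Then `Ex H n r f = Ex H n r (Av f)` (induction on `n`: exchange the two coins in the sum over `l`).

Let `f` be the indicator of `A ∩ B`.  Fix a word `v` of length `n`, `Ok H r v`, `m = cn2 v`.  If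
`v ∉ B` then no word with the same skeleton is in `B`, and `Av f v = 0`.  Otherwise let
`S = {hs2 v' : v' ∈ A, same skeleton as v (v'.map sk2 = v.map sk2), length n, Ok}`.  Then
`Av f v ≤ 2^(-m) ∑_{i ∈ S, i ≤ m} C(m,i)` (by induction one shows that
`Av (indicator of {hs2 ∈ S}) v = 2^(-m) ∑_{i ≤ m, i ∈ S} C(m, i)`), and `S` satisfies the window
hypothesis of `binTV`.  So `Av f v ≤ 1` if `m < N` and `Av f v ≤ q/ℓ + 3q/√m ≤ q/ℓ + 3q/√N` if
`m ≥ N`.  Taking expectations gives the claim.
-/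

open Finset

namespace Kak

namespace DispAux

/-- an involution on the letters that exchanges the two values of a coin -/
structure Flip (H : ℕ) (fl sk : Lt → Lt) (C D : Lt → Prop) : Prop where
  inv : ∀ l, fl (fl l) = l
  mem : ∀ l ∈ LS H, fl l ∈ LS H
  wt : ∀ l ∈ LS H, wt H (fl l) = wt H l
  nx : ∀ l ∈ LS H, ∀ r, nx r (lw (fl l)) = nx r (lw l)
  coin : ∀ l, C l → (D (fl l) ↔ ¬ D l)
  non : ∀ l, ¬ C l → fl l = l ∧ ¬ D l
  sk : ∀ l, sk (fl l) = sk l

/-- average over the flips -/
noncomputable def Av (fl : Lt → Lt) : (List Lt → ℝ) → List Lt → ℝ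
  | f, [] => f []
  | f, l :: v => (Av fl (fun w => f (l :: w)) v + Av fl (fun w => f (fl l :: w)) v) / 2

variable {H : ℕ} {fl sk : Lt → Lt} {C D : Lt → Prop}

theorem Ex_Av (F : Flip H fl sk C D) (n : ℕ) (r : ZMod 15) (f : List Lt → ℝ) :
    Ex H n r (Av fl f) = Ex H n r f := by
  induction n generalizing r f with
  | zero => rfl
  | succ n ih =>
    rw [Ex_succ, Ex_succ]
    have h1 : ∀ l ∈ LS H, pr H r l • Ex H n (nx r (lw l)) (fun v => Av fl f (l :: v)) =
        (pr H r l • Ex H n (nx r (lw l)) (fun v => f (l :: v)) +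
          pr H r (fl l) • Ex H n (nx r (lw (fl l))) (fun v => f (fl l :: v))) / 2 := by
      intro l hl
      have e1 : (fun v => Av fl f (l :: v)) = fun v =>
          (1 / 2 : ℝ) • (Av fl (fun w => f (l :: w)) v + Av fl (fun w => f (fl l :: w)) v) := by
        funext v
        simp only [Av, smul_eq_mul]
        ring
      have e2 : pr H r (fl l) = pr H r l := by
        unfold pr
        rw [F.wt l hl, F.nx l hl]
      rw [e1, Ex_smul, Ex_add, ih, ih, e2, F.nx l hl]
      simp only [smul_eq_mul]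
      ring
    rw [Finset.sum_congr rfl h1, ← Finset.sum_div, Finset.sum_add_distrib]
    have h2 : ∑ l ∈ LS H, pr H r (fl l) • Ex H n (nx r (lw (fl l))) (fun v => f (fl l :: v)) =
        ∑ l ∈ LS H, pr H r l • Ex H n (nx r (lw l)) (fun v => f (l :: v)) :=
      Finset.sum_nbij' fl fl F.mem F.mem (fun l _ => F.inv l) (fun l _ => F.inv l)
        (fun l _ => rfl)
    rw [h2]
    ring

theorem Av_mono (R : Lt → Lt → Prop) (hR : ∀ l, R l l ∧ R l (fl l)) :
    ∀ (v : List Lt) (f g : List Lt → ℝ), (∀ w, List.Forall₂ R v w → f w ≤ g w) →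
      Av fl f v ≤ Av fl g v := by
  intro v
  induction v with
  | nil => intro f g h; exact h [] List.Forall₂.nil
  | cons l v ih =>
    intro f g h
    simp only [Av]
    have h1 := ih (fun w => f (l :: w)) (fun w => g (l :: w))
      (fun w hw => h (l :: w) (List.Forall₂.cons (hR l).1 hw))
    have h2 := ih (fun w => f (fl l :: w)) (fun w => g (fl l :: w))
      (fun w hw => h (fl l :: w) (List.Forall₂.cons (hR l).2 hw))
    linarith

theorem pascal_sum (m : ℕ) (φ : ℕ → ℝ) :
    ∑ i ∈ range (m + 2), ((m + 1).choose i : ℝ) * φ i =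
      ∑ i ∈ range (m + 1), (m.choose i : ℝ) * φ (i + 1) +
        ∑ i ∈ range (m + 1), (m.choose i : ℝ) * φ i := by
  rw [Finset.sum_range_succ']
  have h1 : ∀ i ∈ range (m + 1), ((m + 1).choose (i + 1) : ℝ) * φ (i + 1) =
      (m.choose i : ℝ) * φ (i + 1) + (m.choose (i + 1) : ℝ) * φ (i + 1) := by
    intro i _
    rw [Nat.choose_succ_succ]
    push_cast
    ring
  rw [Finset.sum_congr rfl h1, Finset.sum_add_distrib, add_assoc]
  congr 1
  have h2 := Finset.sum_range_succ' (fun i => (m.choose i : ℝ) * φ i) (m + 1)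
  rw [Finset.sum_range_succ] at h2
  simp only [Nat.choose_succ_self, Nat.cast_zero, zero_mul, add_zero, Nat.choose_zero_right,
    Nat.cast_one, one_mul] at h2 ⊢
  exact h2.symm

open Classical in
theorem Av_hs (F : Flip H fl sk C D) : ∀ (v : List Lt) (φ : ℕ → ℝ),
    Av fl (fun w => φ (w.countP (fun l => decide (D l)))) v =
      (1 / 2) ^ (v.countP (fun l => decide (C l))) *
        ∑ i ∈ range (v.countP (fun l => decide (C l)) + 1),
          ((v.countP (fun l => decide (C l))).choose i : ℝ) * φ i := by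
  intro v
  induction v with
  | nil => intro φ; simp [Av]
  | cons l v ih =>
    intro φ
    simp only [Av]
    by_cases hC : C l
    · have e1 : (l :: v).countP (fun l => decide (C l)) =
          v.countP (fun l => decide (C l)) + 1 := by
        rw [List.countP_cons]
        simp [hC]
      rw [e1]
      generalize hm : v.countP (fun l => decide (C l)) = m at ih ⊢
      have key : ∀ l : Lt, ∀ b : Bool, decide (D l) = b →
          Av fl (fun w => φ ((l :: w).countP (fun l => decide (D l)))) v =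
            (1 / 2) ^ m * ∑ i ∈ range (m + 1), (m.choose i : ℝ) * φ (i + b.toNat) := by
        intro l b hb
        have e2 : (fun w : List Lt => φ ((l :: w).countP (fun l => decide (D l)))) =
            fun w => (fun i => φ (i + b.toNat)) (w.countP (fun l => decide (D l))) := by
          funext w
          rw [List.countP_cons, hb]
          cases b <;> simp
        rw [e2]
        exact ih (fun i => φ (i + b.toNat))
      have hD := F.coin l hC
      rw [pascal_sum]
      by_cases hDl : D l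
      · have h3 : ¬ D (fl l) := fun h => (hD.1 h) hDl
        rw [key l true (by simp [hDl]), key (fl l) false (by simp [h3])]
        simp only [Bool.toNat_true, Bool.toNat_false, add_zero]
        rw [pow_succ]
        ring
      · have h3 : D (fl l) := hD.2 hDl
        rw [key l false (by simp [hDl]), key (fl l) true (by simp [h3])]
        simp only [Bool.toNat_true, Bool.toNat_false, add_zero]
        rw [pow_succ]
        ring
    · obtain ⟨h1, h2⟩ := F.non l hC
      have e1 : (l :: v).countP (fun l => decide (C l)) = v.countP (fun l => decide (C l)) := by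
        rw [List.countP_cons]
        simp [hC]
      have e2 : (fun w : List Lt => φ ((l :: w).countP (fun l => decide (D l)))) =
          fun w => φ (w.countP (fun l => decide (D l))) := by
        funext w
        rw [List.countP_cons]
        simp [h2]
      rw [e1, h1, e2, ih φ]
      ring

theorem rel_facts (F : Flip H fl sk C D) : ∀ (v w : List Lt) (r : ZMod 15),
    List.Forall₂ (fun l l' => l' = l ∨ l' = fl l) v w → Ok H r v →
    Ok H r w ∧ w.map sk = v.map sk := by
  intro v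
  induction v with
  | nil =>
    intro w r h hv
    rw [List.forall₂_nil_left_iff] at h
    subst h
    exact ⟨hv, rfl⟩
  | cons l v ih =>
    intro w r h hv
    rcases w with _ | ⟨l', w⟩
    · cases h
    rw [List.forall₂_cons] at h
    obtain ⟨h1, h2⟩ := h
    have h3 : nx r (lw l') = nx r (lw l) := by
      rcases h1 with h1 | h1
      · rw [h1]
      · rw [h1, F.nx l hv.1]
    have h4 : l' ∈ LS H := by
      rcases h1 with h1 | h1
      · rw [h1]; exact hv.1
      · rw [h1]; exact F.mem l hv.1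
    have h5 : sk l' = sk l := by
      rcases h1 with h1 | h1
      · rw [h1]
      · rw [h1, F.sk]
    have h6 := ih w (nx r (lw l)) h2 hv.2.2
    refine ⟨⟨h4, ?_, ?_⟩, ?_⟩
    · rw [h3]; exact hv.2.1
    · rw [h3]; exact h6.1
    · rw [List.map_cons, List.map_cons, h5, h6.2]

open Classical in
theorem disp (hH : 2 ≤ H) (F : Flip H fl sk C D) {n N ℓ q : ℕ} (hN : 1 ≤ N) (hℓ : 1 ≤ ℓ)
    {r : ZMod 15} (A B : Set (List Lt))
    (hB : ∀ v v' : List Lt, v.map sk = v'.map sk → (v ∈ B ↔ v' ∈ B))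
    (hA : ∀ v v' : List Lt, v.length = n → v'.length = n → Ok H r v → Ok H r v' →
      v.map sk = v'.map sk → v ∈ A → v' ∈ A →
      v.countP (fun l => decide (D l)) ≤ v'.countP (fun l => decide (D l)) →
      v'.countP (fun l => decide (D l)) < v.countP (fun l => decide (D l)) + ℓ →
      v'.countP (fun l => decide (D l)) < v.countP (fun l => decide (D l)) + q) :
    PP H n r (A ∩ B) ≤ PP H n r (B ∩ {v | v.countP (fun l => decide (C l)) < N}) +
      PP H n r B * ((q : ℝ) / ℓ + 3 * q / √(N : ℝ)) := by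
  unfold PP
  rw [← Ex_Av F, ← Ex_mul_right, ← Ex_add]
  refine Ex_mono H n r fun v hv hok => ?_
  have hc0 : 0 ≤ (q : ℝ) / ℓ + 3 * q / √(N : ℝ) := by positivity
  by_cases hvB : v ∈ B
  · set S : Set ℕ := {i | ∃ v' : List Lt, v' ∈ A ∧ v'.map sk = v.map sk ∧ v'.length = n ∧
      Ok H r v' ∧ v'.countP (fun l => decide (D l)) = i} with hS
    have h1 : Av fl ((A ∩ B).indicator fun _ => (1 : ℝ)) v ≤
        Av fl (fun w => (fun i => if i ∈ S then (1 : ℝ) else 0)
          (w.countP (fun l => decide (D l)))) v := by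
      refine Av_mono (fun l l' => l' = l ∨ l' = fl l) (fun l => ⟨Or.inl rfl, Or.inr rfl⟩) v _ _ ?_
      intro w hw
      obtain ⟨h2, h3⟩ := rel_facts F v w r hw hok
      by_cases hwA : w ∈ A ∩ B
      · rw [Set.indicator_of_mem hwA]
        have h4 : w.countP (fun l => decide (D l)) ∈ S :=
          ⟨w, hwA.1, h3, by rw [← hw.length_eq, hv], h2, rfl⟩
        simp [h4]
      · rw [Set.indicator_of_notMem hwA]
        beta_reduce
        split_ifs <;> norm_num
    replace h1 := h1.trans_eq (Av_hs F v (fun i => if i ∈ S then (1 : ℝ) else 0))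
    generalize hm : v.countP (fun l => decide (C l)) = m at h1
    have h2 : ∑ i ∈ range (m + 1), (m.choose i : ℝ) * (if i ∈ S then (1 : ℝ) else 0) =
        ∑ i ∈ range (m + 1) with i ∈ S, ((m.choose i : ℕ) : ℝ) := by
      rw [Finset.sum_filter]
      refine Finset.sum_congr rfl fun i _ => ?_
      split_ifs <;> simp
    rw [h2] at h1
    rw [Set.indicator_of_mem hvB, one_mul]
    by_cases hmN : m < N
    · have h3 : v ∈ B ∩ {v | v.countP (fun l => decide (C l)) < N} := by
        refine ⟨hvB, ?_⟩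
        rw [Set.mem_setOf_eq, hm]
        exact hmN
      rw [Set.indicator_of_mem h3]
      have h4 : ∑ i ∈ range (m + 1) with i ∈ S, ((m.choose i : ℕ) : ℝ) ≤ 2 ^ m := by
        refine (Finset.sum_le_sum_of_subset_of_nonneg (filter_subset _ _)
          (fun i _ _ => Nat.cast_nonneg _)).trans ?_
        rw [← Nat.cast_sum, Nat.sum_range_choose]
        push_cast
        exact le_rfl
      have h5 : (1 / 2 : ℝ) ^ m * ∑ i ∈ range (m + 1) with i ∈ S, ((m.choose i : ℕ) : ℝ) ≤ 1 := by
        calc _ ≤ (1 / 2 : ℝ) ^ m * 2 ^ m := mul_le_mul_of_nonneg_left h4 (by positivity)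
          _ = 1 := by rw [← mul_pow]; norm_num
      linarith
    · have h3 : v ∉ B ∩ {v | v.countP (fun l => decide (C l)) < N} := by
        intro h
        have := h.2
        rw [Set.mem_setOf_eq, hm] at this
        exact hmN this
      rw [Set.indicator_of_notMem h3, zero_add]
      have hmN' : N ≤ m := not_lt.1 hmN
      have hS' : ∀ i ∈ S, ∀ j ∈ S, i ≤ j → j < i + ℓ → j < i + q := by
        rintro i ⟨v1, a1, a2, a3, a4, rfl⟩ j ⟨v2, b1, b2, b3, b4, rfl⟩ hij hij'
        exact hA v1 v2 a3 b3 a4 b4 (a2.trans b2.symm) a1 b1 hij hij'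
      have h4 := binTV (hN.trans hmN') hℓ S hS'
      have h5 : (q : ℝ) / ℓ + 3 * q / √(m : ℝ) ≤ (q : ℝ) / ℓ + 3 * q / √(N : ℝ) := by
        have h6 : √(N : ℝ) ≤ √(m : ℝ) := Real.sqrt_le_sqrt (by exact_mod_cast hmN')
        have h7 : 0 < √(N : ℝ) := Real.sqrt_pos.2 (by exact_mod_cast hN)
        have h8 : 3 * (q : ℝ) / √(m : ℝ) ≤ 3 * q / √(N : ℝ) :=
          div_le_div_of_nonneg_left (by positivity) h7 h6
        linarith
      calc _ ≤ (1 / 2 : ℝ) ^ m * ∑ i ∈ range (m + 1) with i ∈ S, ((m.choose i : ℕ) : ℝ) := h1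
        _ ≤ (1 / 2 : ℝ) ^ m * (2 ^ m * ((q : ℝ) / ℓ + 3 * q / √(m : ℝ))) :=
          mul_le_mul_of_nonneg_left h4 (by positivity)
        _ = (q : ℝ) / ℓ + 3 * q / √(m : ℝ) := by
          rw [← mul_assoc, ← mul_pow]
          norm_num
        _ ≤ _ := h5
  · have h1 : Av fl ((A ∩ B).indicator fun _ => (1 : ℝ)) v ≤ Av fl (fun w => (fun _ => (0 : ℝ))
        (w.countP (fun l => decide (D l)))) v := by
      refine Av_mono (fun l l' => l' = l ∨ l' = fl l) (fun l => ⟨Or.inl rfl, Or.inr rfl⟩) v _ _ ?_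
      intro w hw
      obtain ⟨h2, h3⟩ := rel_facts F v w r hw hok
      have h4 : w ∉ A ∩ B := fun h => hvB ((hB w v h3).1 h.2)
      rw [Set.indicator_of_notMem h4]
    replace h1 := h1.trans_eq (Av_hs F v (fun _ => (0 : ℝ)))
    simp only [mul_zero, Finset.sum_const_zero] at h1
    refine h1.trans ?_
    refine add_nonneg (Set.indicator_nonneg (fun _ _ => zero_le_one) _) ?_
    exact mul_nonneg (Set.indicator_nonneg (fun _ _ => zero_le_one) _) hc0

/-- flip of the 2-coins -/
def fl2 (l : Lt) : Lt :=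
  ((l.1.1, if l.1.2 = 1 then 2 else if l.1.2 = 2 then 1 else l.1.2), l.2)

/-- flip of the 3-coins -/
def fl3 (l : Lt) : Lt :=
  (l.1, ((l.2.1.1, if l.2.1.1 ≠ 0 ∧ l.2.1.2 = 1 then 2
    else if l.2.1.1 ≠ 0 ∧ l.2.1.2 = 2 then 1 else l.2.1.2), l.2.2))

theorem flip2 (hH : 2 ≤ H) :
    Flip H fl2 sk2 (fun l => l.1.2 = 1 ∨ l.1.2 = 2) (fun l => l.1.2 = 2) where
  inv := by
    rintro ⟨⟨a, t⟩, x⟩
    simp only [fl2]
    split_ifs <;> simp_all
  mem := by
    rintro ⟨⟨a, t⟩, x⟩ h
    simp only [LS, fl2, mem_product, mem_Icc, mem_range] at h ⊢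
    refine ⟨⟨h.1.1, ?_⟩, h.2⟩
    split_ifs <;> omega
  wt := by
    rintro ⟨⟨a, t⟩, x⟩ _
    have h1 : w2 H (if t = 1 then 2 else if t = 2 then 1 else t) = w2 H t := by
      by_cases h1 : t = 1
      · subst h1
        have h2 : ¬ (2 = H + 1) := by omega
        simp [w2, h2]
      · by_cases h2 : t = 2
        · subst h2
          have h2 : ¬ (2 = H + 1) := by omega
          simp [w2, h2]
        · simp [h1, h2]
    simp only [Kak.wt, fl2]
    rw [h1]
  nx := by
    rintro ⟨⟨a, t⟩, x⟩ h r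
    have h' : fl2 ((a, t), x) ∈ LS H := by
      simp only [LS, fl2, mem_product, mem_Icc, mem_range] at h ⊢
      refine ⟨⟨h.1.1, ?_⟩, h.2⟩
      split_ifs <;> omega
    rw [nx_letter h, nx_letter h']
    rfl
  coin := by
    rintro ⟨⟨a, t⟩, x⟩ h
    simp only [fl2] at h ⊢
    rcases h with h | h <;> simp [h]
  non := by
    rintro ⟨⟨a, t⟩, x⟩ h
    simp only [fl2, not_or] at h ⊢
    simp [h.1, h.2]
  sk := by
    rintro ⟨⟨a, t⟩, x⟩
    simp only [fl2, sk2]
    split_ifs <;> simp_all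

theorem mem3 (hH : 2 ≤ H) : ∀ l ∈ LS H, fl3 l ∈ LS H := by
  rintro ⟨x, ⟨⟨b, u⟩, y⟩⟩ h
  simp only [LS, fl3, mem_product, mem_Icc, mem_range, mem_insert, Prod.mk.injEq] at h ⊢
  refine ⟨h.1, ?_, h.2.2⟩
  rcases h.2.1 with h1 | h1
  · left
    simp [h1.1, h1.2]
  · right
    refine ⟨h1.1, ?_⟩
    split_ifs <;> omega

theorem flip3 (hH : 2 ≤ H) :
    Flip H fl3 sk3 (fun l => l.2.1.1 ≠ 0 ∧ (l.2.1.2 = 1 ∨ l.2.1.2 = 2))
      (fun l => l.2.1.1 ≠ 0 ∧ l.2.1.2 = 2) where
  inv := by
    rintro ⟨x, ⟨⟨b, u⟩, y⟩⟩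
    simp only [fl3]
    split_ifs <;> simp_all
  mem := mem3 hH
  wt := by
    rintro ⟨x, ⟨⟨b, u⟩, y⟩⟩ _
    by_cases hb : b = 0
    · subst hb
      simp [Kak.wt, fl3]
    have h1 : w3 H (if b ≠ 0 ∧ u = 1 then 2 else if b ≠ 0 ∧ u = 2 then 1 else u) = w3 H u := by
      by_cases h1 : u = 1
      · subst h1
        have h2 : ¬ (2 = H + 1) := by omega
        simp [w3, h2, hb]
      · by_cases h2 : u = 2
        · subst h2
          have h2 : ¬ (2 = H + 1) := by omega
          simp [w3, h2, hb]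
        · simp [h1, h2]
    simp only [Kak.wt, fl3]
    rw [h1]
  nx := by
    rintro ⟨x, ⟨⟨b, u⟩, y⟩⟩ h r
    rw [nx_letter h, nx_letter (mem3 hH _ h)]
    rfl
  coin := by
    rintro ⟨x, ⟨⟨b, u⟩, y⟩⟩ h
    simp only [fl3] at h ⊢
    rcases h with ⟨hb, h | h⟩ <;> simp [h, hb]
  non := by
    rintro ⟨x, ⟨⟨b, u⟩, y⟩⟩ h
    simp only [fl3] at h ⊢
    by_cases hb : b = 0
    · simp [hb]
    · simp only [ne_eq, hb, not_false_eq_true, true_and, not_or] at h ⊢
      simp [h.1, h.2]
  sk := by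
    rintro ⟨x, ⟨⟨b, u⟩, y⟩⟩
    simp only [fl3, sk3]
    split_ifs <;> simp_all

end DispAux

open DispAux

theorem disp2 {H : ℕ} (hH : 2 ≤ H) {n N ℓ q : ℕ} (hN : 1 ≤ N) (hℓ : 1 ≤ ℓ) {r : ZMod 15}
    (hr : r ∈ UU) (A B : Set (List Lt))
    (hB : ∀ v v' : List Lt, v.map sk2 = v'.map sk2 → (v ∈ B ↔ v' ∈ B))
    (hA : ∀ v v' : List Lt, v.length = n → v'.length = n → Ok H r v → Ok H r v' →
      v.map sk2 = v'.map sk2 → v ∈ A → v' ∈ A → hs2 v ≤ hs2 v' → hs2 v' < hs2 v + ℓ →
      hs2 v' < hs2 v + q) :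
    PP H n r (A ∩ B) ≤ PP H n r (B ∩ {v | cn2 v < N}) +
      PP H n r B * ((q : ℝ) / ℓ + 3 * q / √(N : ℝ)) := by
  have e1 : ∀ v : List Lt, hs2 v = v.countP (fun l => @decide (l.1.2 = 2) (Classical.dec _)) := by
    intro v
    unfold hs2
    congr 1
    funext l
    congr
  have e2 : ∀ v : List Lt, cn2 v =
      v.countP (fun l => @decide (l.1.2 = 1 ∨ l.1.2 = 2) (Classical.dec _)) := by
    intro v
    unfold cn2
    congr 1
    funext l
    congr
  have h := disp hH (flip2 hH) (n := n) (r := r) hN hℓ A B hB (q := q)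
    (by simpa only [e1] using hA)
  simpa only [e2] using h

theorem disp3 {H : ℕ} (hH : 2 ≤ H) {n N ℓ q : ℕ} (hN : 1 ≤ N) (hℓ : 1 ≤ ℓ) {r : ZMod 15}
    (hr : r ∈ UU) (A B : Set (List Lt))
    (hB : ∀ v v' : List Lt, v.map sk3 = v'.map sk3 → (v ∈ B ↔ v' ∈ B))
    (hA : ∀ v v' : List Lt, v.length = n → v'.length = n → Ok H r v → Ok H r v' →
      v.map sk3 = v'.map sk3 → v ∈ A → v' ∈ A → hs3 v ≤ hs3 v' → hs3 v' < hs3 v + ℓ →
      hs3 v' < hs3 v + q) :
    PP H n r (A ∩ B) ≤ PP H n r (B ∩ {v | cn3 v < N}) +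
      PP H n r B * ((q : ℝ) / ℓ + 3 * q / √(N : ℝ)) := by
  have e1 : ∀ v : List Lt, hs3 v =
      v.countP (fun l => @decide (l.2.1.1 ≠ 0 ∧ l.2.1.2 = 2) (Classical.dec _)) := by
    intro v
    unfold hs3
    congr 1
    funext l
    congr
  have e2 : ∀ v : List Lt, cn3 v =
      v.countP (fun l => @decide (l.2.1.1 ≠ 0 ∧ (l.2.1.2 = 1 ∨ l.2.1.2 = 2))
        (Classical.dec _)) := by
    intro v
    unfold cn3
    congr 1
    funext l
    congr
  have h := disp hH (flip3 hH) (n := n) (r := r) hN hℓ A B hB (q := q)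
    (by simpa only [e1] using hA)
  simpa only [e2] using h

end Kak
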