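import Pool.Agent.Lib.Kak.KernBase

/-!
# Kak.KernH: the transition probabilities sum to 1, column sums

PROOFS.  By `nx_letter` and `base_sum` (with `A = B = C = 1`, `G a b c = hh (nx r (2^a 3^b 5^c))`,
resp. `G a b c = hh (nx ..) * X (nx ..)`) and `sum_w2, sum_w3, sum_w5` everything reduces to
finite sums of 60 terms with rational coefficients
`(16/15) 2^(-a) * (1 or (81/80) 3^(-b)) * (1 or (25/24) 5^(-c))`.

* `pr_sum`: `∑_{a,b,c} coefficient * hh (nx r (2^a 3^b 5^c)) = hh r` for each of the 8 states `r`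
  (finite check; the column vector `h = (1:15802, 2:15258, 4:19142, 7:19410, 8:14112, 11:13759,
  13:11473, 14:11539)` is the Perron eigenvector of the matrix `L(r,s)`).
* `col_sum`: for each state `s` the sum over the 8 states `r` of `L(r,s)` is 1 (finite check);
  states outside `UU` do not contribute since `hh = 0` there.
-/

open Finset

namespace Kak

namespace KernHAux

private def nA (a : ℕ) : ℕ := 2 ^ (4 - a)
private def nB (b : ℕ) : ℕ := if b = 0 then 80 else 3 ^ (4 - b)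
private def nC (c : ℕ) : ℕ := if c = 0 then 24 else 5 ^ (2 - c)

private theorem key1 : ∀ r ∈ UU, ∑ a ∈ Icc 1 4, ∑ b ∈ range 5, ∑ c ∈ range 3,
    nA a * nB b * nC c * hN (nx r (2 ^ a * 3 ^ b * 5 ^ c)) = 28800 * hN r := by
  decide +kernel

private theorem key2 : ∀ s ∈ UU, ∑ r ∈ UU, ∑ a ∈ Icc 1 4, ∑ b ∈ range 5, ∑ c ∈ range 3,
    nA a * nB b * nC c * (if nx r (2 ^ a * 3 ^ b * 5 ^ c) = s then 1 else 0) = 28800 := by
  decide +kernel

private theorem hN_out : ∀ s : ZMod 15, s ∉ UU → hN s = 0 := by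
  decide +kernel

private theorem hN_bd : ∀ s ∈ UU, 11473 ≤ hN s ∧ hN s ≤ 19410 := by
  decide +kernel

private theorem wA {a : ℕ} (ha : a ∈ Icc 1 4) : ((1 : ℝ) / 2) ^ a * (16 / 15) = (nA a : ℝ) / 15 := by
  rw [mem_Icc] at ha
  obtain ⟨h1, h2⟩ := ha
  interval_cases a <;> norm_num [nA]

private theorem wB {b : ℕ} (hb : b ∈ range 5) :
    (if b = 0 then (1 : ℝ) else (1 / 3) ^ b * (81 / 80)) = (nB b : ℝ) / 80 := by
  rw [mem_range] at hb
  interval_cases b <;> norm_num [nB]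

private theorem wC {c : ℕ} (hc : c ∈ range 3) :
    (if c = 0 then (1 : ℝ) else (1 / 5) ^ c * (25 / 24)) = (nC c : ℝ) / 24 := by
  rw [mem_range] at hc
  interval_cases c <;> norm_num [nC]

private theorem red {H : ℕ} (hH : 2 ≤ H) (F : ZMod 15 → ℝ) (r : ZMod 15) :
    ∑ l ∈ LS H, wt H l * F (nx r (lw l)) =
      (∑ a ∈ Icc 1 4, ∑ b ∈ range 5, ∑ c ∈ range 3,
        ((nA a * nB b * nC c : ℕ) : ℝ) * F (nx r (2 ^ a * 3 ^ b * 5 ^ c))) / 28800 := by
  have h1 : ∑ l ∈ LS H, wt H l * F (nx r (lw l)) =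
      ∑ l ∈ LS H, wt H l * (fun _ => (1 : ℝ)) l.1.2 *
      (if l.2.1.1 = 0 then 1 else (fun _ => (1 : ℝ)) l.2.1.2) *
      (if l.2.2.1 = 0 then 1 else (fun _ => (1 : ℝ)) l.2.2.2) *
      (fun a b c => F (nx r (2 ^ a * 3 ^ b * 5 ^ c))) l.1.1 l.2.1.1 l.2.2.1 := by
    refine sum_congr rfl fun l hl => ?_
    rw [nx_letter hl r]
    simp
  rw [h1, base_sum H (fun _ => (1 : ℝ)) (fun _ => (1 : ℝ)) (fun _ => (1 : ℝ))
    (fun a b c => F (nx r (2 ^ a * 3 ^ b * 5 ^ c)))]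
  simp only [mul_one]
  rw [sum_w2 hH, sum_w3 hH, sum_w5 H, sum_div]
  refine sum_congr rfl fun a ha => ?_
  rw [sum_div]
  refine sum_congr rfl fun b hb => ?_
  rw [sum_div]
  refine sum_congr rfl fun c hc => ?_
  rw [wA ha, wB hb, wC hc]
  push_cast
  ring

end KernHAux

open KernHAux

theorem hh_pos {r : ZMod 15} (hr : r ∈ UU) : 0 < hh r := by
  have h := (hN_bd r hr).1
  unfold hh
  exact_mod_cast (by omega : 0 < hN r)

/-- the eigenvector is between 11473 and 19410 -/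
theorem hh_bounds {r : ZMod 15} (hr : r ∈ UU) : 11473 ≤ hh r ∧ hh r ≤ 19410 := by
  have h := hN_bd r hr
  unfold hh
  exact ⟨by exact_mod_cast h.1, by exact_mod_cast h.2⟩

theorem pr_sum {H : ℕ} (hH : 2 ≤ H) {r : ZMod 15} (hr : r ∈ UU) :
    ∑ l ∈ LS H, pr H r l = 1 := by
  have hp := hh_pos hr
  unfold pr
  rw [← sum_div, red hH hh r, div_eq_one_iff_eq hp.ne', div_eq_iff (by norm_num)]
  have h := key1 r hr
  have h' : ((∑ a ∈ Icc 1 4, ∑ b ∈ range 5, ∑ c ∈ range 3,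
    nA a * nB b * nC c * hN (nx r (2 ^ a * 3 ^ b * 5 ^ c)) : ℕ) : ℝ) = ((28800 * hN r : ℕ) : ℝ) := by
    rw [h]
  push_cast at h' ⊢
  unfold hh
  rw [h']
  ring

theorem col_sum {H : ℕ} (hH : 2 ≤ H) (X : ZMod 15 → ℝ) :
    ∑ r ∈ UU, ∑ l ∈ LS H, wt H l * hh (nx r (lw l)) * X (nx r (lw l)) =
      ∑ s ∈ UU, hh s * X s := by
  have h1 : ∑ r ∈ UU, ∑ l ∈ LS H, wt H l * hh (nx r (lw l)) * X (nx r (lw l)) =
      ∑ r ∈ UU, (∑ a ∈ Icc 1 4, ∑ b ∈ range 5, ∑ c ∈ range 3,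
        ((nA a * nB b * nC c : ℕ) : ℝ) * (hh (nx r (2 ^ a * 3 ^ b * 5 ^ c)) *
          X (nx r (2 ^ a * 3 ^ b * 5 ^ c)))) / 28800 := by
    refine sum_congr rfl fun r _ => ?_
    rw [← red hH (fun s => hh s * X s) r]
    exact sum_congr rfl fun l _ => by ring
  have h2 : ∀ t : ZMod 15, hh t * X t = ∑ s ∈ UU, hh s * X s * ((if t = s then 1 else 0 : ℕ) : ℝ) := by
    intro t
    by_cases ht : t ∈ UU
    · rw [Finset.sum_eq_single t]
      · simp
      · intro b _ hb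
        rw [if_neg (Ne.symm hb)]
        simp
      · intro h; exact absurd ht h
    · have h0 : hh t = 0 := by
        unfold hh
        exact_mod_cast hN_out t ht
      rw [h0, zero_mul]
      symm
      refine sum_eq_zero fun s hs => ?_
      have : t ≠ s := fun h => ht (h ▸ hs)
      rw [if_neg this]
      simp
  rw [h1, ← sum_div]
  have h3 : ∑ r ∈ UU, ∑ a ∈ Icc 1 4, ∑ b ∈ range 5, ∑ c ∈ range 3,
        ((nA a * nB b * nC c : ℕ) : ℝ) * (hh (nx r (2 ^ a * 3 ^ b * 5 ^ c)) *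
          X (nx r (2 ^ a * 3 ^ b * 5 ^ c))) =
      ∑ s ∈ UU, hh s * X s * ((∑ r ∈ UU, ∑ a ∈ Icc 1 4, ∑ b ∈ range 5, ∑ c ∈ range 3,
    nA a * nB b * nC c * (if nx r (2 ^ a * 3 ^ b * 5 ^ c) = s then 1 else 0) : ℕ) : ℝ) := by
    have e1 : ∀ (r : ZMod 15) (a b c : ℕ), ((nA a * nB b * nC c : ℕ) : ℝ) * (hh (nx r (2 ^ a * 3 ^ b * 5 ^ c)) *
          X (nx r (2 ^ a * 3 ^ b * 5 ^ c))) =
        ∑ s ∈ UU, hh s * X s * (((nA a * nB b * nC c *
          (if nx r (2 ^ a * 3 ^ b * 5 ^ c) = s then 1 else 0) : ℕ) : ℝ)) := by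
      intro r a b c
      rw [h2, mul_sum]
      refine sum_congr rfl fun s _ => ?_
      rw [Nat.cast_mul (nA a * nB b * nC c)]
      ring
    simp_rw [e1]
    rw [sum_congr rfl fun r _ => sum_congr rfl fun a _ => sum_congr rfl fun b _ => sum_comm]
    rw [sum_congr rfl fun r _ => sum_congr rfl fun a _ => sum_comm]
    rw [sum_congr rfl fun r _ => sum_comm]
    rw [sum_comm]
    refine sum_congr rfl fun s _ => ?_
    simp_rw [← mul_sum]
    congr 1
    simp_rw [← Nat.cast_sum]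
  rw [h3, div_eq_iff (by norm_num), sum_mul]
  refine sum_congr rfl fun s hs => ?_
  rw [key2 s hs]
  norm_num

end Kak
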