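import Pool.Agent.Lib.Kak.Defs
import Pool.Agent.Lib.Kak.KernH

/-!
# Basic properties of the expectation `Ex` and of the probability `PP`
-/

open Finset

namespace Kak

section general

variable {E : Type*} [AddCommGroup E] [Module ℝ E]

theorem Ex_zero (H : ℕ) (r : ZMod 15) (f : List Lt → E) : Ex H 0 r f = f [] := rfl

theorem Ex_succ (H n : ℕ) (r : ZMod 15) (f : List Lt → E) :
    Ex H (n + 1) r f =
      ∑ l ∈ LS H, pr H r l • Ex H n (nx r (lw l)) (fun v => f (l :: v)) := rfl

theorem Ex_add (H n : ℕ) (r : ZMod 15) (f g : List Lt → E) :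
    Ex H n r (fun v => f v + g v) = Ex H n r f + Ex H n r g := by
  induction n generalizing r f g with
  | zero => rfl
  | succ n ih =>
    rw [Ex_succ, Ex_succ, Ex_succ, ← Finset.sum_add_distrib]
    refine Finset.sum_congr rfl fun l _ => ?_
    rw [ih, smul_add]

theorem Ex_smul (H n : ℕ) (r : ZMod 15) (c : ℝ) (f : List Lt → E) :
    Ex H n r (fun v => c • f v) = c • Ex H n r f := by
  induction n generalizing r f with
  | zero => rfl
  | succ n ih =>
    rw [Ex_succ, Ex_succ, Finset.smul_sum]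
    refine Finset.sum_congr rfl fun l _ => ?_
    rw [ih, smul_comm]

theorem Ex_zero_fun (H n : ℕ) (r : ZMod 15) :
    Ex H n r (fun _ => (0 : E)) = 0 := by
  have := Ex_smul (E := E) H n r 0 (fun _ => 0)
  simpa using this

theorem Ex_neg (H n : ℕ) (r : ZMod 15) (f : List Lt → E) :
    Ex H n r (fun v => - f v) = - Ex H n r f := by
  have := Ex_smul H n r (-1) f
  simpa using this

theorem Ex_sub (H n : ℕ) (r : ZMod 15) (f g : List Lt → E) :
    Ex H n r (fun v => f v - g v) = Ex H n r f - Ex H n r g := by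
  have h := Ex_add H n r f (fun v => - g v)
  rw [Ex_neg] at h
  simpa [sub_eq_add_neg] using h

theorem Ex_sum {ι : Type*} (H n : ℕ) (r : ZMod 15) (s : Finset ι) (f : ι → List Lt → E) :
    Ex H n r (fun v => ∑ i ∈ s, f i v) = ∑ i ∈ s, Ex H n r (f i) := by
  classical
  induction s using Finset.induction_on with
  | empty => simpa using Ex_zero_fun (E := E) H n r
  | insert a s ha ih =>
    rw [Finset.sum_insert ha, ← ih, ← Ex_add]
    congr 1; funext v; rw [Finset.sum_insert ha]

/-- linear maps commute with the expectation -/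
theorem Ex_map {F : Type*} [AddCommGroup F] [Module ℝ F] (H n : ℕ) (r : ZMod 15)
    (L : E →ₗ[ℝ] F) (f : List Lt → E) :
    L (Ex H n r f) = Ex H n r (fun v => L (f v)) := by
  induction n generalizing r f with
  | zero => rfl
  | succ n ih =>
    rw [Ex_succ, Ex_succ, map_sum]
    refine Finset.sum_congr rfl fun l _ => ?_
    rw [map_smul, ih]

/-- Markov property -/
theorem Ex_append (H n k : ℕ) (r : ZMod 15) (f : List Lt → E) :
    Ex H (n + k) r f = Ex H n r (fun v => Ex H k (st r v) (fun u => f (v ++ u))) := by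
  induction n generalizing r f with
  | zero => simp [Ex_zero, st]
  | succ n ih =>
    rw [show n + 1 + k = (n + k) + 1 from by ring, Ex_succ, Ex_succ]
    refine Finset.sum_congr rfl fun l _ => ?_
    rw [ih]
    rfl

end general

theorem hN_ne_zero_iff : ∀ r : ZMod 15, hN r ≠ 0 ↔ r ∈ UU := by decide

theorem hh_ne_zero_iff {r : ZMod 15} : hh r ≠ 0 ↔ r ∈ UU := by
  rw [← hN_ne_zero_iff]; unfold hh; exact_mod_cast Iff.rfl

theorem hh_eq_zero {r : ZMod 15} (h : r ∉ UU) : hh r = 0 := by
  by_contra h'; exact h (hh_ne_zero_iff.mp h')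

theorem hh_nonneg (r : ZMod 15) : 0 ≤ hh r := Nat.cast_nonneg _

theorem w2_nonneg (H t : ℕ) : 0 ≤ w2 H t := by unfold w2; split_ifs <;> positivity
theorem w3_nonneg (H t : ℕ) : 0 ≤ w3 H t := by unfold w3; split_ifs <;> positivity
theorem w5_nonneg (H t : ℕ) : 0 ≤ w5 H t := by unfold w5; split_ifs <;> positivity

theorem wt_nonneg (H : ℕ) (l : Lt) : 0 ≤ wt H l := by
  unfold wt
  have h2 := w2_nonneg H l.1.2
  have h3 := w3_nonneg H l.2.1.2
  have h5 := w5_nonneg H l.2.2.2
  split_ifs <;> positivity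

theorem pr_nonneg (H : ℕ) (r : ZMod 15) (l : Lt) : 0 ≤ pr H r l :=
  div_nonneg (mul_nonneg (wt_nonneg H l) (hh_nonneg _)) (hh_nonneg _)

theorem pr_eq_zero {H : ℕ} {r : ZMod 15} {l : Lt} (h : nx r (lw l) ∉ UU) : pr H r l = 0 := by
  unfold pr; rw [hh_eq_zero h]; simp

section general

variable {E : Type*} [AddCommGroup E] [Module ℝ E]

theorem Ex_const {H : ℕ} (hH : 2 ≤ H) (n : ℕ) {r : ZMod 15} (hr : r ∈ UU) (c : E) :
    Ex H n r (fun _ => c) = c := by
  induction n generalizing r with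
  | zero => rfl
  | succ n ih =>
    rw [Ex_succ]
    have h : ∀ l ∈ LS H, pr H r l • Ex H n (nx r (lw l)) (fun _ => c) = pr H r l • c := by
      intro l _
      by_cases hl : nx r (lw l) ∈ UU
      · rw [ih hl]
      · rw [pr_eq_zero hl, zero_smul, zero_smul]
    rw [Finset.sum_congr rfl h, ← Finset.sum_smul, pr_sum hH hr, one_smul]

theorem Ex_congr (H n : ℕ) (r : ZMod 15) {f g : List Lt → E}
    (h : ∀ v, v.length = n → Ok H r v → f v = g v) : Ex H n r f = Ex H n r g := by
  induction n generalizing r f g with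
  | zero => exact h [] rfl trivial
  | succ n ih =>
    rw [Ex_succ, Ex_succ]
    refine Finset.sum_congr rfl fun l hl => ?_
    by_cases hl' : nx r (lw l) ∈ UU
    · rw [ih (nx r (lw l)) (f := fun v => f (l :: v)) (g := fun v => g (l :: v))
        (fun v hv hv' => h (l :: v) (by simp [hv]) ⟨hl, hl', hv'⟩)]
    · rw [pr_eq_zero hl', zero_smul, zero_smul]

/-- only the first `k` letters matter -/
theorem Ex_take {H : ℕ} (hH : 2 ≤ H) {k n : ℕ} (hk : k ≤ n) {r : ZMod 15} (hr : r ∈ UU)
    (f : List Lt → E) : Ex H n r (fun v => f (v.take k)) = Ex H k r f := by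
  obtain ⟨j, rfl⟩ := Nat.exists_eq_add_of_le hk
  rw [Ex_append]
  have hst : ∀ v : List Lt, ∀ r : ZMod 15, r ∈ UU → Ok H r v → st r v ∈ UU := by
    intro v
    induction v with
    | nil => intro r hr _; exact hr
    | cons l v ih => intro r _ h; exact ih _ h.2.1 h.2.2
  refine Ex_congr H k r fun v hv hv' => ?_
  have : (fun u : List Lt => f ((v ++ u).take k)) = fun _ => f v := by
    funext u
    rw [List.take_append_of_le_length (by omega), List.take_of_length_le (by omega)]
  rw [this, Ex_const hH j (hst v r hr hv')]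

end general

theorem st_mem {H : ℕ} : ∀ (v : List Lt) (r : ZMod 15), r ∈ UU → Ok H r v → st r v ∈ UU := by
  intro v
  induction v with
  | nil => intro r hr _; exact hr
  | cons l v ih => intro r _ h; exact ih _ h.2.1 h.2.2

theorem Ok_append {H : ℕ} : ∀ (v u : List Lt) (r : ZMod 15),
    Ok H r (v ++ u) ↔ Ok H r v ∧ Ok H (st r v) u := by
  intro v
  induction v with
  | nil => intro u r; simp [Ok, st]
  | cons l v ih =>
    intro u r
    simp only [List.cons_append, Ok, st, ih]
    tauto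

theorem Ok_take {H : ℕ} {r : ZMod 15} {v : List Lt} (h : Ok H r v) (k : ℕ) :
    Ok H r (v.take k) := by
  rw [← List.take_append_drop k v, Ok_append] at h
  exact h.1

theorem Ok_drop {H : ℕ} {r : ZMod 15} {v : List Lt} (h : Ok H r v) (k : ℕ) :
    Ok H (st r (v.take k)) (v.drop k) := by
  rw [← List.take_append_drop k v, Ok_append] at h
  exact h.2

theorem Ok_mem {H : ℕ} : ∀ {v : List Lt} {r : ZMod 15}, Ok H r v → ∀ l ∈ v, l ∈ LS H := by
  intro v
  induction v with
  | nil => intro r _ l hl; simp at hl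
  | cons a v ih =>
    intro r h l hl
    rcases List.mem_cons.mp hl with rfl | hl
    · exact h.1
    · exact ih h.2.2 l hl

theorem st_append : ∀ (v u : List Lt) (r : ZMod 15), st r (v ++ u) = st (st r v) u := by
  intro v
  induction v with
  | nil => intro u r; rfl
  | cons l v ih => intro u r; simp only [List.cons_append, st, ih]

theorem Ex_mono (H n : ℕ) (r : ZMod 15) {f g : List Lt → ℝ}
    (h : ∀ v, v.length = n → Ok H r v → f v ≤ g v) : Ex H n r f ≤ Ex H n r g := by
  induction n generalizing r f g with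
  | zero => exact h [] rfl trivial
  | succ n ih =>
    rw [Ex_succ, Ex_succ]
    refine Finset.sum_le_sum fun l hl => ?_
    by_cases hl' : nx r (lw l) ∈ UU
    · have := ih (nx r (lw l)) (f := fun v => f (l :: v)) (g := fun v => g (l :: v))
        (fun v hv hv' => h (l :: v) (by simp [hv]) ⟨hl, hl', hv'⟩)
      simp only [smul_eq_mul]
      exact mul_le_mul_of_nonneg_left this (pr_nonneg _ _ _)
    · rw [pr_eq_zero hl', zero_smul, zero_smul]

theorem Ex_nonneg (H n : ℕ) (r : ZMod 15) {f : List Lt → ℝ}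
    (h : ∀ v, v.length = n → Ok H r v → 0 ≤ f v) : 0 ≤ Ex H n r f := by
  have := Ex_mono H n r (f := fun _ => 0) (g := f) h
  rwa [Ex_zero_fun] at this

theorem Ex_mul_left (H n : ℕ) (r : ZMod 15) (c : ℝ) (f : List Lt → ℝ) :
    Ex H n r (fun v => c * f v) = c * Ex H n r f := Ex_smul H n r c f

theorem Ex_mul_right (H n : ℕ) (r : ZMod 15) (c : ℝ) (f : List Lt → ℝ) :
    Ex H n r (fun v => f v * c) = Ex H n r f * c := by
  simp_rw [mul_comm _ c]; exact Ex_smul H n r c f

theorem Ex_le_const {H : ℕ} (hH : 2 ≤ H) (n : ℕ) {r : ZMod 15} (hr : r ∈ UU) {f : List Lt → ℝ}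
    {c : ℝ} (h : ∀ v, v.length = n → Ok H r v → f v ≤ c) : Ex H n r f ≤ c := by
  have := Ex_mono H n r (f := f) (g := fun _ => c) h
  rwa [Ex_const hH n hr] at this

theorem const_le_Ex {H : ℕ} (hH : 2 ≤ H) (n : ℕ) {r : ZMod 15} (hr : r ∈ UU) {f : List Lt → ℝ}
    {c : ℝ} (h : ∀ v, v.length = n → Ok H r v → c ≤ f v) : c ≤ Ex H n r f := by
  have := Ex_mono H n r (f := fun _ => c) (g := f) h
  rwa [Ex_const hH n hr] at this

theorem norm_Ex_le {E : Type*} [NormedAddCommGroup E] [NormedSpace ℝ E] (H n : ℕ) (r : ZMod 15)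
    (f : List Lt → E) : ‖Ex H n r f‖ ≤ Ex H n r (fun v => ‖f v‖) := by
  induction n generalizing r f with
  | zero => exact le_refl _
  | succ n ih =>
    rw [Ex_succ, Ex_succ]
    refine (norm_sum_le _ _).trans (Finset.sum_le_sum fun l _ => ?_)
    rw [norm_smul, Real.norm_of_nonneg (pr_nonneg _ _ _), smul_eq_mul]
    exact mul_le_mul_of_nonneg_left (ih _ _) (pr_nonneg _ _ _)

theorem abs_Ex_le (H n : ℕ) (r : ZMod 15) (f : List Lt → ℝ) :
    |Ex H n r f| ≤ Ex H n r (fun v => |f v|) := norm_Ex_le H n r f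

/-! ### Probabilities -/

theorem PP_nonneg (H n : ℕ) (r : ZMod 15) (A : Set (List Lt)) : 0 ≤ PP H n r A :=
  Ex_nonneg H n r fun _ _ _ => Set.indicator_nonneg (fun _ _ => zero_le_one) _

theorem PP_le_one {H : ℕ} (hH : 2 ≤ H) (n : ℕ) {r : ZMod 15} (hr : r ∈ UU)
    (A : Set (List Lt)) : PP H n r A ≤ 1 :=
  Ex_le_const hH n hr fun v _ _ => Set.indicator_le_self' (fun _ _ => zero_le_one) v

theorem PP_univ {H : ℕ} (hH : 2 ≤ H) (n : ℕ) {r : ZMod 15} (hr : r ∈ UU) :
    PP H n r Set.univ = 1 := by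
  unfold PP; simp only [Set.indicator_univ]; exact Ex_const hH n hr 1

theorem PP_mono (H n : ℕ) (r : ZMod 15) {A B : Set (List Lt)}
    (h : ∀ v, v.length = n → Ok H r v → v ∈ A → v ∈ B) : PP H n r A ≤ PP H n r B := by
  classical
  refine Ex_mono H n r fun v hv hv' => ?_
  by_cases hA : v ∈ A
  · rw [Set.indicator_of_mem hA, Set.indicator_of_mem (h v hv hv' hA)]
  · rw [Set.indicator_of_notMem hA]; exact Set.indicator_nonneg (fun _ _ => zero_le_one) _

theorem PP_congr (H n : ℕ) (r : ZMod 15) {A B : Set (List Lt)}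
    (h : ∀ v, v.length = n → Ok H r v → (v ∈ A ↔ v ∈ B)) : PP H n r A = PP H n r B :=
  le_antisymm (PP_mono H n r fun v h1 h2 h3 => (h v h1 h2).mp h3)
    (PP_mono H n r fun v h1 h2 h3 => (h v h1 h2).mpr h3)

theorem PP_union_le (H n : ℕ) (r : ZMod 15) (A B : Set (List Lt)) :
    PP H n r (A ∪ B) ≤ PP H n r A + PP H n r B := by
  classical
  unfold PP
  rw [← Ex_add]
  refine Ex_mono H n r fun v _ _ => ?_
  by_cases hA : v ∈ A <;> by_cases hB : v ∈ B <;> simp [Set.indicator, hA, hB]

theorem PP_biUnion_le {ι : Type*} (H n : ℕ) (r : ZMod 15) (s : Finset ι)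
    (A : ι → Set (List Lt)) : PP H n r (⋃ i ∈ s, A i) ≤ ∑ i ∈ s, PP H n r (A i) := by
  classical
  unfold PP
  rw [← Ex_sum]
  refine Ex_mono H n r fun v _ _ => ?_
  by_cases hA : v ∈ ⋃ i ∈ s, A i
  · rw [Set.indicator_of_mem hA]
    obtain ⟨i, hi, hv⟩ := Set.mem_iUnion₂.mp hA
    have h := Finset.single_le_sum (f := fun i => (A i).indicator (fun _ => (1:ℝ)) v)
      (fun j _ => Set.indicator_nonneg (fun _ _ => zero_le_one) _) hi
    simp only [Set.indicator_of_mem hv] at h
    exact h
  · rw [Set.indicator_of_notMem hA]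
    exact Finset.sum_nonneg fun j _ => Set.indicator_nonneg (fun _ _ => zero_le_one) _

/-- sum of the probabilities of pairwise disjoint events -/
theorem sum_PP_le {ι : Type*} {H : ℕ} (n : ℕ) (r : ZMod 15) (s : Finset ι)
    (A : ι → Set (List Lt)) (B : Set (List Lt))
    (hd : ∀ v, v.length = n → Ok H r v → ∀ i ∈ s, ∀ j ∈ s, v ∈ A i → v ∈ A j → i = j)
    (hB : ∀ v, v.length = n → Ok H r v → ∀ i ∈ s, v ∈ A i → v ∈ B) :
    ∑ i ∈ s, PP H n r (A i) ≤ PP H n r B := by
  classical
  unfold PP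
  rw [← Ex_sum]
  refine Ex_mono H n r fun v hv hv' => ?_
  by_cases hA : ∃ i ∈ s, v ∈ A i
  · obtain ⟨i, hi, hvi⟩ := hA
    rw [Set.indicator_of_mem (hB v hv hv' i hi hvi)]
    rw [Finset.sum_eq_single i, Set.indicator_of_mem hvi]
    · intro j hj hji
      rw [Set.indicator_of_notMem]
      intro hvj; exact hji (hd v hv hv' j hj i hi hvj hvi)
    · intro h; exact absurd hi h
  · push Not at hA
    rw [Finset.sum_eq_zero]
    · exact Set.indicator_nonneg (fun _ _ => zero_le_one) _
    · intro i hi; rw [Set.indicator_of_notMem (hA i hi)]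

theorem PP_compl {H : ℕ} (hH : 2 ≤ H) (n : ℕ) {r : ZMod 15} (hr : r ∈ UU)
    (A : Set (List Lt)) : PP H n r Aᶜ = 1 - PP H n r A := by
  classical
  have h : PP H n r A + PP H n r Aᶜ = 1 := by
    unfold PP
    rw [← Ex_add]
    conv_rhs => rw [← Ex_const hH n hr (1:ℝ)]
    refine Ex_congr H n r fun v _ _ => ?_
    by_cases hA : v ∈ A <;> simp [hA]
  linarith

/-- only the first `k` letters matter -/
theorem PP_take {H : ℕ} (hH : 2 ≤ H) {k n : ℕ} (hk : k ≤ n) {r : ZMod 15} (hr : r ∈ UU)
    (A : Set (List Lt)) : PP H n r {v | v.take k ∈ A} = PP H k r A := by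
  unfold PP
  rw [← Ex_take hH hk hr]
  rfl

/-- Markov inequality -/
theorem PP_markov (H n : ℕ) (r : ZMod 15) {A : Set (List Lt)} {f : List Lt → ℝ} {c : ℝ}
    (hc : 0 < c) (hf : ∀ v, v.length = n → Ok H r v → 0 ≤ f v)
    (h : ∀ v, v.length = n → Ok H r v → v ∈ A → c ≤ f v) :
    PP H n r A ≤ Ex H n r f / c := by
  classical
  rw [le_div_iff₀ hc]
  unfold PP
  rw [← Ex_mul_right]
  refine Ex_mono H n r fun v hv hv' => ?_
  by_cases hA : v ∈ A
  · rw [Set.indicator_of_mem hA, one_mul]; exact h v hv hv' hA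
  · rw [Set.indicator_of_notMem hA, zero_mul]; exact hf v hv hv'

/-- product bound: conditional expectation after the first `n` letters -/
theorem Ex_append_le (H n k : ℕ) (r : ZMod 15) {f : List Lt → ℝ} {g : List Lt → ℝ}
    (h : ∀ v, v.length = n → Ok H r v → Ex H k (st r v) (fun u => f (v ++ u)) ≤ g v) :
    Ex H (n + k) r f ≤ Ex H n r g := by
  rw [Ex_append]; exact Ex_mono H n r h

theorem Wd_pos : ∀ v : List Lt, 0 < Wd v := by
  intro v
  induction v with
  | nil => exact Nat.one_pos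
  | cons l v ih => unfold Wd lw; positivity

theorem lw_pos (l : Lt) : 0 < lw l := by unfold lw; positivity

theorem Wd_append : ∀ v u : List Lt, Wd (v ++ u) = Wd v * Wd u := by
  intro v
  induction v with
  | nil => intro u; simp [Wd]
  | cons l v ih => intro u; simp only [List.cons_append, Wd, ih]; ring

theorem Gd_append : ∀ v u : List Lt, Gd (v ++ u) = Wd u * Gd v + 7 ^ v.length * Gd u := by
  intro v
  induction v with
  | nil => intro u; simp [Gd]
  | cons l v ih =>
    intro u; simp only [List.cons_append, Gd, ih, Wd_append, List.length_cons]; ring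

theorem Wd_take_dvd (v : List Lt) {i j : ℕ} (h : i ≤ j) : Wd (v.take i) ∣ Wd (v.take j) := by
  have : v.take j = v.take i ++ (v.take j).drop i := by
    conv_lhs => rw [← List.take_append_drop i (v.take j)]
    rw [List.take_take, min_eq_left h]
  rw [this, Wd_append]; exact dvd_mul_right _ _

theorem Wd_eq (v : List Lt) : Wd v = 2 ^ ea v * 3 ^ eb v * 5 ^ ec v := by
  induction v with
  | nil => simp [Wd, ea, eb, ec]
  | cons l v ih =>
    rw [Wd, ih]; simp only [lw, ea, eb, ec, List.map_cons, List.sum_cons, pow_add]; ring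

/-- letters of the alphabet have even smooth number -/
theorem one_le_la {H : ℕ} {l : Lt} (h : l ∈ LS H) : 1 ≤ la l := by
  unfold LS at h
  rw [Finset.mem_product, Finset.mem_product, Finset.mem_Icc] at h
  unfold la; omega

theorem two_le_lw {H : ℕ} {l : Lt} (h : l ∈ LS H) : 2 ≤ lw l := by
  have h1 := one_le_la h
  unfold lw
  have h2 : 2 ^ 1 ≤ 2 ^ la l := Nat.pow_le_pow_right (by norm_num) h1
  have h3 : 0 < 3 ^ lb l := by positivity
  have h5 : 0 < 5 ^ lc l := by positivity
  nlinarith [Nat.mul_le_mul h2 h3, Nat.mul_pos h3 h5, Nat.mul_le_mul (Nat.mul_le_mul h2 h3) h5]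

theorem length_le_ea {H : ℕ} : ∀ {v : List Lt} {r : ZMod 15}, Ok H r v → v.length ≤ ea v := by
  intro v
  induction v with
  | nil => intro r _; simp [ea]
  | cons l v ih =>
    intro r h
    have h1 := one_le_la h.1
    have h2 := ih h.2.2
    simp only [ea, List.map_cons, List.sum_cons, List.length_cons] at *
    omega

end Kak
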