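import Pool.Agent.Lib.Kak.TOp
import Pool.Agent.Lib.Kak.KernProb

/-!
# Kak.Gain: the gain at a point which is not black

PROOF.  All `rho ≤ 1` and `∑ pr pr = 1`.  Consider the pairs `l1 = ((al0 r, t1), ((0,0),(0,0)))`,
`t1 ∈ {1,2}`, and `l2` any letter with `l2.1.2 = 3 - t1`.  Here `w0 l1 = 2^(al0 r)`, so
`16 * w0 l1 = 2^(4 + al0 r)` and `rho m ξ l1 l2 = ‖1 + ph(2m)(x)‖/2` with
`x = 15 ξ iv(2^(4 + al0 r))`.  Since the point is not black there is no integer `y` with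
`7^(2m) ∣ y - x` and `|y| ≤ ε 7^(2m)` (otherwise `Z = 2^(4+al0 r) y` shows that the point is black:
`Z - 15 ξ = 2^(4 + al0 r) (y - x)`).  So `phase` gives `rho ≤ 1 - ε^2` for these pairs.
Their total probability is `∑_{t1} pr(l1) P(l2.1.2 = 3 - t1) = 2 pr(l1) (15/256)` (`prob_coin2`, and
`al0 r` is admissible: `nx r (2^(al0 r)) ∈ UU`, finite check), and
`pr(l1) = 2^(-al0 r) (1/16) hh(nx)/hh(r) ≥ (1/16)(1/16)(11473/19410)`; the product is `≥ 2^(-12)`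
(`2.7e-4` against `2.44e-4`).
-/

open Finset

namespace Kak

theorem al0_mem {r : ZMod 15} (hr : r ∈ UU) : nx r (2 ^ al0 r) ∈ UU ∧ 1 ≤ al0 r ∧ al0 r ≤ 4 := by
  revert r
  decide

namespace GainAux

/-- the distinguished letter -/
def L1 (r : ZMod 15) : Lt := ((al0 r, 1), ((0, 0), (0, 0)))

theorem L1_mem {H : ℕ} {r : ZMod 15} (hr : r ∈ UU) : L1 r ∈ LS H := by
  obtain ⟨-, h1, h2⟩ := al0_mem hr
  unfold LS L1
  simp only [Finset.mem_product, Finset.mem_insert, Finset.mem_Icc, Finset.mem_range, true_or,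
    and_true]
  exact ⟨⟨h1, h2⟩, by omega⟩

theorem lw_L1 (r : ZMod 15) : lw (L1 r) = 2 ^ al0 r := by
  simp [lw, la, lb, lc, L1]

theorem w0_L1 (r : ZMod 15) : w0 (L1 r) = 2 ^ al0 r := by
  simp [w0, lb, lc, L1]

theorem pr_L1 {H : ℕ} {r : ZMod 15} (hr : r ∈ UU) :
    1 / 256 * (11473 / 19410) ≤ pr H r (L1 r) := by
  obtain ⟨h0, h1, h2⟩ := al0_mem hr
  unfold pr
  rw [lw_L1]
  have hw : wt H (L1 r) = (1 / 2) ^ al0 r * (1 / 16) := by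
    simp [wt, L1, w2]
  rw [hw]
  have hb := hh_bounds hr
  have hb' := hh_bounds h0
  have hp := hh_pos hr
  have h3 : (1 : ℝ) / 16 ≤ (1 / 2) ^ al0 r := by
    have : ((1 : ℝ) / 2) ^ 4 ≤ (1 / 2) ^ al0 r :=
      pow_le_pow_of_le_one (by norm_num) (by norm_num) h2
    refine le_trans (by norm_num) this
  rw [le_div_iff₀ hp]
  have h4 : (1 : ℝ) / 256 * (11473 / 19410) * hh r ≤ 1 / 256 * 11473 := by
    have := hb.2
    nlinarith
  refine h4.trans ?_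
  have h5 : (1 : ℝ) / 256 ≤ (1 / 2) ^ al0 r * (1 / 16) := by nlinarith
  exact mul_le_mul h5 hb'.1 (by norm_num) (by positivity)

theorem sum_pr {H : ℕ} (hH : 2 ≤ H) {r : ZMod 15} (hr : r ∈ UU) :
    ∑ l1 ∈ LS H, ∑ l2 ∈ LS H, pr H r l1 * pr H (nx r (lw l1)) l2 = 1 := by
  rw [← pr_sum hH hr]
  refine Finset.sum_congr rfl fun l _ => ?_
  rw [← Finset.mul_sum]
  by_cases hl : nx r (lw l) ∈ UU
  · rw [pr_sum hH hl, mul_one]
  · rw [pr_eq_zero hl, zero_mul]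

end GainAux

open GainAux
theorem gain {H : ℕ} (hH : 2 ≤ H) {ε : ℝ} (h0 : 0 < ε) (h1 : ε ≤ 1 / 2) {m : ℕ} {r : ZMod 15}
    (hr : r ∈ UU) {ξ : ℤ_[7]} (h : ¬ Blk ε m r ξ) :
    ∑ l1 ∈ LS H, ∑ l2 ∈ LS H, pr H r l1 * pr H (nx r (lw l1)) l2 * rho m ξ l1 l2 ≤
      1 - ε ^ 2 / 2 ^ 15 := by
  obtain ⟨hn, ha, hb⟩ := al0_mem hr
  -- the value of rho
  have hx : ‖1 + ph (2 * m) (15 * ξ * iv (16 * w0 (L1 r)))‖ / 2 ≤ 1 - ε ^ 2 := by
    apply phase h0 h1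
    rintro ⟨y, hy1, hy2⟩
    apply h
    have hw : 16 * w0 (L1 r) = 2 ^ (4 + al0 r) := by
      rw [w0_L1, pow_add]
      norm_num
    rw [hw] at hy1
    have h7 : ¬ 7 ∣ 2 ^ (4 + al0 r) := by
      intro hd
      have := (Nat.Prime.dvd_of_dvd_pow (by norm_num) hd)
      omega
    have hs := iv_spec h7
    refine ⟨2 ^ (4 + al0 r) * y, ?_, Dvd.intro _ rfl, ?_⟩
    · have e : (((2 ^ (4 + al0 r) * y : ℤ)) : ℤ_[7]) - 15 * ξ =
          ((2 ^ (4 + al0 r) : ℕ) : ℤ_[7]) * ((y : ℤ_[7]) - 15 * ξ * iv (2 ^ (4 + al0 r))) := by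
        rw [mul_sub]
        have e2 : ((2 ^ (4 + al0 r) : ℕ) : ℤ_[7]) * (15 * ξ * iv (2 ^ (4 + al0 r))) = 15 * ξ := by
          rw [show ((2 ^ (4 + al0 r) : ℕ) : ℤ_[7]) * (15 * ξ * iv (2 ^ (4 + al0 r))) =
            15 * ξ * (((2 ^ (4 + al0 r) : ℕ) : ℤ_[7]) * iv (2 ^ (4 + al0 r))) from by ring, hs,
            mul_one]
        rw [e2]
        push_cast
        ring
      rw [e]
      exact Dvd.dvd.mul_left hy1 _
    · push_cast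
      rw [abs_mul, abs_of_pos (by positivity : (0 : ℝ) < 2 ^ (4 + al0 r))]
      have hp : (0 : ℝ) < 2 ^ (4 + al0 r) := by positivity
      calc (2 : ℝ) ^ (4 + al0 r) * |(y : ℝ)| ≤ 2 ^ (4 + al0 r) * (ε * 7 ^ (2 * m)) :=
            mul_le_mul_of_nonneg_left hy2 hp.le
        _ = ε * 2 ^ (4 + al0 r) * 7 ^ (2 * m) := by ring
  -- the difference
  have hd : ∑ l1 ∈ LS H, ∑ l2 ∈ LS H, pr H r l1 * pr H (nx r (lw l1)) l2 -
      ∑ l1 ∈ LS H, ∑ l2 ∈ LS H, pr H r l1 * pr H (nx r (lw l1)) l2 * rho m ξ l1 l2 =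
      ∑ l1 ∈ LS H, ∑ l2 ∈ LS H, pr H r l1 * pr H (nx r (lw l1)) l2 * (1 - rho m ξ l1 l2) := by
    rw [← Finset.sum_sub_distrib]
    refine Finset.sum_congr rfl fun l1 _ => ?_
    rw [← Finset.sum_sub_distrib]
    refine Finset.sum_congr rfl fun l2 _ => ?_
    ring
  have hnn : ∀ l1 l2 : Lt, 0 ≤ pr H r l1 * pr H (nx r (lw l1)) l2 * (1 - rho m ξ l1 l2) :=
    fun l1 l2 => mul_nonneg (mul_nonneg (pr_nonneg _ _ _) (pr_nonneg _ _ _))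
      (by linarith [rho_le_one m ξ l1 l2])
  have hs1 : ∑ l2 ∈ LS H, pr H r (L1 r) * pr H (nx r (lw (L1 r))) l2 * (1 - rho m ξ (L1 r) l2) ≤
      ∑ l1 ∈ LS H, ∑ l2 ∈ LS H, pr H r l1 * pr H (nx r (lw l1)) l2 * (1 - rho m ξ l1 l2) :=
    Finset.single_le_sum
      (f := fun l1 => ∑ l2 ∈ LS H, pr H r l1 * pr H (nx r (lw l1)) l2 * (1 - rho m ξ l1 l2))
      (fun l1 _ => Finset.sum_nonneg fun l2 _ => hnn l1 l2) (L1_mem hr)
  have hs2 : ∑ l2 ∈ LS H with l2.1.2 = 2,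
      pr H r (L1 r) * pr H (nx r (lw (L1 r))) l2 * (1 - rho m ξ (L1 r) l2) ≤
      ∑ l2 ∈ LS H, pr H r (L1 r) * pr H (nx r (lw (L1 r))) l2 * (1 - rho m ξ (L1 r) l2) :=
    Finset.sum_le_sum_of_subset_of_nonneg (Finset.filter_subset _ _) fun l2 _ _ => hnn _ l2
  have hs3 : pr H r (L1 r) * ε ^ 2 * (15 / 256) ≤ ∑ l2 ∈ LS H with l2.1.2 = 2,
      pr H r (L1 r) * pr H (nx r (lw (L1 r))) l2 * (1 - rho m ξ (L1 r) l2) := by
    have hn' : nx r (lw (L1 r)) ∈ UU := by rw [lw_L1]; exact hn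
    rw [← prob_coin2 hH hn' (s := 2) (Or.inr rfl), Finset.mul_sum]
    refine Finset.sum_le_sum fun l2 hl2 => ?_
    have ht : l2.1.2 = 2 := (Finset.mem_filter.1 hl2).2
    have hr1 : rho m ξ (L1 r) l2 ≤ 1 - ε ^ 2 := by
      unfold rho
      rw [if_pos (Or.inl ⟨rfl, ht⟩)]
      exact hx
    have hp : 0 ≤ pr H r (L1 r) * pr H (nx r (lw (L1 r))) l2 :=
      mul_nonneg (pr_nonneg _ _ _) (pr_nonneg _ _ _)
    calc pr H r (L1 r) * ε ^ 2 * pr H (nx r (lw (L1 r))) l2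
        = pr H r (L1 r) * pr H (nx r (lw (L1 r))) l2 * ε ^ 2 := by ring
      _ ≤ _ := mul_le_mul_of_nonneg_left (by linarith) hp
  have hp1 := pr_L1 (H := H) hr
  have he : 0 < ε ^ 2 := by positivity
  have hfin : ε ^ 2 / 2 ^ 15 ≤ pr H r (L1 r) * ε ^ 2 * (15 / 256) := by
    have : (1 : ℝ) / 2 ^ 15 ≤ pr H r (L1 r) * (15 / 256) := by
      refine le_trans ?_ (mul_le_mul_of_nonneg_right hp1 (by norm_num))
      norm_num
    nlinarith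
  rw [sum_pr hH hr] at hd
  linarith [hd, hs1, hs2, hs3, hfin]

end Kak
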