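import Pool.Agent.Lib.Kak.ExBasic

/-!
# Kak.Inject: a word is determined by `Wd` and `Gd`

PROOF.  Let `M` be a natural number with `M` odd and `(M : ZMod 15) = r` (e.g. one of `r.val`,
`r.val + 15`).  For an admissible word `v` (from `r`) put `X v = Wd v * M - Gd v : ℤ`.
(a) `(X v : ZMod 15) = 7 ^ v.length * st r v`, and `X v` is odd: by induction from the end
(`List.reverseRecOn`; `Wd (v ++ [l]) = Wd v * lw l`, `Gd (v ++ [l]) = lw l * Gd v + 7 ^ v.length`
(`Gd_append`), so `X (v ++ [l]) = lw l * X v - 7 ^ v.length`, and `st r (v ++ [l]) = (lw l * st r v - 1) * 13`,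
`7 * 13 = 1` in `ZMod 15`; `lw l` is even).  Since `st r v ∈ UU` (units), `X v` is coprime to 30,
in particular `X v ≠ 0`.
(b) Induction on the common length, from the end.  Let `v = v1 ++ [l]`, `v' = v1' ++ [l']` with the
same `Wd`, `Gd`, length `k+1`.  Then `X v = X v'` and `X v + 7^k = lw l * X v1 = lw l' * X v1'` with
`X v1`, `X v1'` coprime to 30 and `lw l`, `lw l'` products of powers of 2, 3, 5.  So `lw l = lw l'`
(`lw l` is coprime to `X v1'`, so `lw l ∣ lw l'` and conversely).  Then `Wd v1 = Wd v1'` and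
`Gd v1 = Gd v1'` (cancel `lw l > 0`), and the induction hypothesis applies to `v1`, `v1'`
(`Ok_append`).
-/

open Finset

namespace Kak

namespace InjectAux

/-- the backward endpoint, up to a power of 7 -/
private def X (M : ℕ) (v : List Lt) : ℤ := (Wd v : ℤ) * M - Gd v

private theorem X_append (M : ℕ) (v : List Lt) (l : Lt) :
    X M (v ++ [l]) = (lw l : ℤ) * X M v - 7 ^ v.length := by
  unfold X
  rw [Wd_append, Gd_append]
  simp only [Wd, Gd]
  push_cast
  ring

private theorem X_cast {M : ℕ} {r : ZMod 15} (hM : (M : ZMod 15) = r) (v : List Lt) :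
    ((X M v : ℤ) : ZMod 15) = 7 ^ v.length * st r v := by
  induction v using List.reverseRecOn with
  | nil => simp [X, Wd, Gd, st, hM]
  | append_singleton v l ih =>
    rw [X_append, st_append]
    push_cast
    rw [ih, List.length_append, List.length_singleton, pow_succ]
    simp only [st, nx]
    have h : (7 : ZMod 15) * 13 = 1 := by decide
    calc (lw l : ZMod 15) * (7 ^ v.length * st r v) - 7 ^ v.length
        = 7 ^ v.length * 1 * ((lw l : ZMod 15) * st r v - 1) := by ring
      _ = 7 ^ v.length * (7 * 13) * ((lw l : ZMod 15) * st r v - 1) := by rw [h]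
      _ = _ := by ring

private theorem lw_even {H : ℕ} {l : Lt} (h : l ∈ LS H) : Even (lw l) := by
  have h1 := one_le_la h
  unfold lw
  rw [mul_assoc]
  exact Even.mul_right ((Nat.even_pow' (by omega)).mpr even_two) _

private theorem X_odd {M H : ℕ} (hM : Odd M) (v : List Lt) (hv : ∀ l ∈ v, l ∈ LS H) :
    Odd (X M v) := by
  induction v using List.reverseRecOn with
  | nil =>
    simp only [X, Wd, Gd, Nat.cast_one, one_mul, Nat.cast_zero, sub_zero]
    exact_mod_cast hM
  | append_singleton v l _ =>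
    rw [X_append]
    have h1 : Even ((lw l : ℤ)) := by
      exact_mod_cast lw_even (hv l (by simp))
    have h2 : Odd ((7 : ℤ) ^ v.length) := Odd.pow (by decide)
    exact (h1.mul_right _).sub_odd h2

private theorem unit_UU : ∀ r ∈ UU, ∃ s : ZMod 15, r * s = 1 := by decide

private theorem X_coprime {M H : ℕ} {r : ZMod 15} (hr : r ∈ UU) (hMo : Odd M)
    (hM : (M : ZMod 15) = r) {v : List Lt} (hv : Ok H r v) (l : Lt) :
    IsCoprime (lw l : ℤ) (X M v) := by
  have h1 := X_odd hMo v (fun l hl => Ok_mem hv l hl)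
  have h2 := X_cast hM v
  obtain ⟨s, hs⟩ := unit_UU _ (st_mem v r hr hv)
  have h7 : (7 : ZMod 15) * 13 = 1 := by decide
  obtain ⟨y, hy⟩ := ZMod.intCast_surjective (13 ^ v.length * s : ZMod 15)
  have h3 : ((X M v * y - 1 : ℤ) : ZMod 15) = 0 := by
    push_cast
    rw [h2, hy]
    calc (7 : ZMod 15) ^ v.length * st r v * (13 ^ v.length * s) - 1
        = (7 * 13) ^ v.length * (st r v * s) - 1 := by rw [mul_pow]; ring
      _ = 0 := by rw [h7, hs]; simp
  rw [ZMod.intCast_zmod_eq_zero_iff_dvd] at h3
  obtain ⟨z, hz⟩ := h3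
  have h15 : IsCoprime (15 : ℤ) (X M v) := ⟨-z, y, by push_cast at hz; linear_combination hz⟩
  have h15' : IsCoprime ((3 : ℤ) * 5) (X M v) := by
    have : (3 : ℤ) * 5 = 15 := by norm_num
    rw [this]
    exact h15
  have h3' : IsCoprime (3 : ℤ) (X M v) := h15'.of_mul_left_left
  have h5' : IsCoprime (5 : ℤ) (X M v) := h15'.of_mul_left_right
  have h2' : IsCoprime (2 : ℤ) (X M v) := by
    obtain ⟨k, hk⟩ := h1
    exact ⟨-k, 1, by rw [hk]; ring⟩
  unfold lw
  push_cast
  exact (h2'.pow_left.mul_left h3'.pow_left).mul_left h5'.pow_left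

private theorem main {M H : ℕ} {r : ZMod 15} (hr : r ∈ UU) (hMo : Odd M)
    (hM : (M : ZMod 15) = r) (n : ℕ) : ∀ v v' : List Lt, v.length = n → v'.length = n →
    Ok H r v → Ok H r v' → Wd v = Wd v' → Gd v = Gd v' → v.map lw = v'.map lw := by
  induction n with
  | zero =>
    intro v v' h h' _ _ _ _
    rw [List.length_eq_zero_iff.mp h, List.length_eq_zero_iff.mp h']
  | succ n ih =>
    intro v v' h h' hv hv' hW hG
    rcases List.eq_nil_or_concat v with rfl | ⟨v1, l, rfl⟩
    · simp at h
    rcases List.eq_nil_or_concat v' with rfl | ⟨v1', l', rfl⟩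
    · simp at h'
    rw [List.concat_eq_append] at h hv hW hG
    rw [List.concat_eq_append] at h' hv' hW hG
    rw [List.concat_eq_append, List.concat_eq_append]
    have hn : v1.length = n := by simpa using h
    have hn' : v1'.length = n := by simpa using h'
    rw [Ok_append] at hv hv'
    have hX : X M (v1 ++ [l]) = X M (v1' ++ [l']) := by
      unfold X
      rw [hW, hG]
    rw [X_append, X_append, hn, hn'] at hX
    have hX' : (lw l : ℤ) * X M v1 = lw l' * X M v1' := by linarith
    have hd1 : (lw l : ℤ) ∣ lw l' := by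
      refine (X_coprime hr hMo hM hv'.1 l).dvd_of_dvd_mul_right ?_
      rw [← hX']
      exact dvd_mul_right _ _
    have hd2 : (lw l' : ℤ) ∣ lw l := by
      refine (X_coprime hr hMo hM hv.1 l').dvd_of_dvd_mul_right ?_
      rw [hX']
      exact dvd_mul_right _ _
    have hl : lw l = lw l' := Nat.dvd_antisymm (by exact_mod_cast hd1) (by exact_mod_cast hd2)
    have hp := lw_pos l'
    have hW1 : Wd v1 = Wd v1' := by
      rw [Wd_append, Wd_append] at hW
      simp only [Wd, mul_one] at hW
      rw [hl] at hW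
      exact Nat.eq_of_mul_eq_mul_right hp hW
    have hG1 : Gd v1 = Gd v1' := by
      rw [Gd_append, Gd_append, hn, hn'] at hG
      simp only [Wd, Gd, mul_one, mul_zero, add_zero] at hG
      rw [hl] at hG
      exact Nat.eq_of_mul_eq_mul_left hp (by omega)
    rw [List.map_append, List.map_append, ih v1 v1' hn hn' hv.1 hv'.1 hW1 hG1]
    simp [hl]

private theorem exists_M (r : ZMod 15) : ∃ M : ℕ, Odd M ∧ (M : ZMod 15) = r := by
  rcases Nat.even_or_odd r.val with h | h
  · refine ⟨r.val + 15, h.add_odd (by decide), ?_⟩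
    push_cast
    rw [ZMod.natCast_zmod_val]
    have : (15 : ZMod 15) = 0 := by decide
    rw [this, add_zero]
  · exact ⟨r.val, h, ZMod.natCast_zmod_val r⟩

end InjectAux

theorem inject {H : ℕ} {r : ZMod 15} (hr : r ∈ UU) {v v' : List Lt} (hl : v.length = v'.length)
    (hv : Ok H r v) (hv' : Ok H r v') (hW : Wd v = Wd v') (hG : Gd v = Gd v') :
    v.map lw = v'.map lw := by
  obtain ⟨M, hMo, hM⟩ := InjectAux.exists_M r
  exact InjectAux.main hr hMo hM v'.length v v' hl rfl hv hv' hW hG

end Kak
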