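import Pool.Agent.Lib.Kak.Decay

/-!
# Kak.InnerBd: the characteristic function after the stopping time

PROOF.  Let `x = 7^j x'` with `7 ∤ x'` (`x ≠ 0` since `7^(n-m) ∤ x`), so `j < n - m ≤ n/50` (from
`49 n ≤ 50 m`).  Put `N = n - k - j`; `k + j ≤ 24n/25 + n/50 = 49n/50`, so `N ≥ n/50 > 0`, so
`1 ≤ N` and `n ≤ 50 N`.  The argument of `ph n` is `7^(k+j) * (x' iv W Fp u)`, so by `ph_level` it equals
`ph N (ξ' Fp u)` with `ξ' = x' iv W` a unit.  The words `u` have length `n - k = N + j`; by `Ex_append`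
`u = u1 ++ u2`, `|u1| = N`, and `Fp u = Fp u1 + 7^N iv (Wd u1) Fp u2` (`Fp_append`), so `ph N (ξ' Fp u) = ph N (ξ' Fp u1)`
(`ph_congr`).  So the expectation is `Phi H N s ξ' ψ` with `ψ s' = Ex H j s' (u2 ↦ φ (st s' u2))`
(`(φ .. : ℂ)`; use `Ex_smul`/`Ex_map` to take the constant `ph N (ξ' Fp u1)` out).  `‖ψ s'‖ ≤ 1` for
`s' ∈ UU`; as `decay` wants `‖ψ s'‖ ≤ 1` for all `s'`, replace `ψ` by 0 outside `UU` (`Ex_congr`, the
final states are in `UU`).  By `decay`: `≤ C/N^A ≤ C 50^A / n^A`.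
-/

open Finset

namespace Kak

theorem innerBd (A : ℕ) : ∃ C : ℝ, 1 ≤ C ∧ ∀ H, 2 ≤ H → ∀ n k m x W : ℕ, 1 ≤ n →
    k ≤ 24 * n / 25 → m ≤ n → 49 * n ≤ 50 * m → ¬ 7 ^ (n - m) ∣ x → ¬ 7 ∣ W → ∀ s ∈ UU,
    ∀ φ : ZMod 15 → ℝ, (∀ t, |φ t| ≤ 1) → ‖cc H n φ k W s (x : ℤ_[7])‖ ≤ C / (n : ℝ) ^ A := by
  obtain ⟨C, hC1, hC⟩ := decay A
  refine ⟨C * 50 ^ A, ?_, ?_⟩
  · have : (1 : ℝ) ≤ 50 ^ A := one_le_pow₀ (by norm_num)
    nlinarith
  intro H hH n k m x W hn hk hmn hm hx hW s hs φ hφ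
  have hx0 : x ≠ 0 := by rintro rfl; exact hx (dvd_zero _)
  obtain ⟨j, x', hx', rfl⟩ := Nat.exists_eq_pow_mul_and_not_dvd hx0 7 (by norm_num)
  have hj : j < n - m := by
    by_contra h
    push Not at h
    exact hx (Dvd.dvd.mul_right (pow_dvd_pow 7 h) _)
  obtain ⟨N, hN⟩ : ∃ N, n - k = N + j := ⟨n - k - j, by omega⟩
  have hN50 : n ≤ 50 * N := by omega
  have hN1 : 1 ≤ N := by omega
  have hξu : IsUnit ((x' : ℤ_[7]) * iv W) := by
    refine IsUnit.mul ?_ (iv_isUnit hW)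
    exact IsUnit.of_mul_eq_one _ (iv_spec hx')
  set ξ : ℤ_[7] := (x' : ℤ_[7]) * iv W with hξ
  classical
  set ψ : ZMod 15 → ℂ := fun s' =>
    if s' ∈ UU then Ex H j s' (fun u => (φ (st s' u) : ℂ)) else 0 with hψdef
  have hψ : ∀ s', ‖ψ s'‖ ≤ 1 := by
    intro s'
    by_cases hs' : s' ∈ UU
    · simp only [hψdef, if_pos hs']
      refine (norm_Ex_le H j s' _).trans (Ex_le_const hH j hs' fun v _ _ => ?_)
      rw [Complex.norm_real, Real.norm_eq_abs]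
      exact hφ _
    · simp [hψdef, if_neg hs']
  have key : cc H n φ k W s (((7 ^ j * x' : ℕ) : ℕ) : ℤ_[7]) = Phi H N s ξ ψ := by
    unfold cc Phi
    rw [hN, Ex_append]
    refine Ex_congr H N s fun v hv hv' => ?_
    have hst : st s v ∈ UU := st_mem v s hs hv'
    simp only [hψdef, if_pos hst]
    have hmap := Ex_map H j (st s v)
      ((ph N (ξ * Fp v)) • (LinearMap.id : ℂ →ₗ[ℝ] ℂ))
      (fun u => (φ (st (st s v) u) : ℂ))
    simp only [LinearMap.smul_apply, LinearMap.id_apply, smul_eq_mul] at hmap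
    rw [hmap]
    refine Ex_congr _ _ _ fun u _ _ => ?_
    rw [st_append]
    congr 1
    have h1 : (((7 ^ j * x' : ℕ) : ℕ) : ℤ_[7]) * 7 ^ k * iv W * Fp (v ++ u) =
        7 ^ (k + j) * (ξ * Fp (v ++ u)) := by
      rw [hξ]; push_cast; ring
    rw [h1, ph_level (by omega : k + j ≤ n)]
    have h2 : n - (k + j) = N := by omega
    rw [h2]
    refine ph_congr ?_
    rw [Fp_append, hv]
    exact ⟨ξ * iv (Wd v) * Fp u, by ring⟩
  rw [key]
  have hn0 : (0 : ℝ) < n := by exact_mod_cast hn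
  have hN0 : (0 : ℝ) < N := by exact_mod_cast hN1
  refine (hC H hH N hN1 s hs ξ hξu ψ hψ).trans ?_
  rw [div_le_div_iff₀ (by positivity) (by positivity), mul_assoc]
  refine mul_le_mul_of_nonneg_left ?_ (by linarith)
  rw [← mul_pow]
  exact pow_le_pow_left₀ hn0.le (by exact_mod_cast hN50) A

end Kak
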