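import Pool.Agent.Lib.Kak.SyrB
import Pool.Agent.Lib.Kak.APsum

/-!
# Kak.KSwap: averages over the window

PROOFS.
`kswap`.  For `r ∈ UU` and a word `v` let `S(r,v)` be the sum of `7^n/M` over the `M ∈ WN s l` with
`(M : ZMod 15) = r` and `(M : ZMod (7^n)) = toZModPow n (Fp v)`.  By `coprime_iff` (`M` is coprime to 30 iff it is
odd and its class mod 15 is in `UU`), these are the `M` of the window in one class modulo
`q = 30 * 7^n` (Chinese remainder theorem: odd, `≡ r (15)`, `≡ Fp v (7^n)`), so `apsum` gives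
`|30 S(r,v) - l| ≤ 1`.  The left side of `kswap` (the sum over `M` of expectations) is, after
exchanging the sums (`Ex_sum`, group the `M` by their class `r` mod 15),
`∑_{r ∈ UU} hh r Ex H n r (v ↦ S(r,v) ψ r v)`.

`sum_end`: `∑_{r ∈ UU} hh r * Ex H n r (fun v => g (st r v) / hh (st r v)) = ∑_{s ∈ UU} g s`: induction on `n` with
`col_sum` (`hh r * pr H r l = wt H l * hh (nx)`).

`KS_total`: `kswap` with `ψ r v = 1/hh (st r v)` and `sum_end` with `g = 1` (`∑ = 8`).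

`WS_total`: `WN s l` consists of the 8 classes coprime to 30 modulo 30; `apsum` with `q = 30`.
-/

open Finset

namespace Kak

private theorem ks_class {n : ℕ} {r : ZMod 15} (hr : r ∈ UU) (y : ZMod (7 ^ n)) :
    ∃ c : ℕ, ∀ M : ℕ, (Nat.Coprime M 30 ∧ (M : ZMod 15) = r ∧ y = ((M : ℕ) : ZMod (7 ^ n))) ↔
      M % (30 * 7 ^ n) = c % (30 * 7 ^ n) := by
  have h7 : NeZero (7 ^ n) := ⟨by positivity⟩
  obtain ⟨c1, h1, h2⟩ := Nat.chineseRemainder (show Nat.Coprime 2 15 by norm_num) 1 r.val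
  have hco : Nat.Coprime 30 (7 ^ n) := Nat.Coprime.pow_right n (by norm_num)
  obtain ⟨c, h3, h4⟩ := Nat.chineseRemainder hco c1 y.val
  refine ⟨c, fun M => ?_⟩
  have e15 : (M : ZMod 15) = r ↔ M ≡ c1 [MOD 15] := by
    rw [← ZMod.natCast_eq_natCast_iff]
    have : ((c1 : ℕ) : ZMod 15) = r := by
      rw [(ZMod.natCast_eq_natCast_iff _ _ _).2 h2]
      exact ZMod.natCast_zmod_val r
    rw [this]
  have e7 : y = ((M : ℕ) : ZMod (7 ^ n)) ↔ M ≡ c [MOD 7 ^ n] := by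
    rw [← ZMod.natCast_eq_natCast_iff]
    have : ((c : ℕ) : ZMod (7 ^ n)) = y := by
      rw [(ZMod.natCast_eq_natCast_iff _ _ _).2 h4]
      exact ZMod.natCast_zmod_val y
    rw [this]
    exact eq_comm
  have e2 : M % 2 = 1 ↔ M ≡ c1 [MOD 2] := by
    unfold Nat.ModEq at h1 ⊢
    omega
  have e30 : (M ≡ c1 [MOD 2] ∧ M ≡ c1 [MOD 15]) ↔ M ≡ c [MOD 30] := by
    rw [Nat.modEq_and_modEq_iff_modEq_mul (show Nat.Coprime 2 15 by norm_num)]
    constructor
    · intro h; exact h.trans h3.symm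
    · intro h; exact h.trans h3
  have e : (M ≡ c [MOD 30] ∧ M ≡ c [MOD 7 ^ n]) ↔ M ≡ c [MOD 30 * 7 ^ n] :=
    Nat.modEq_and_modEq_iff_modEq_mul hco
  rw [coprime_iff]
  change _ ↔ M ≡ c [MOD 30 * 7 ^ n]
  rw [← e, ← e30, ← e2, ← e7, ← e15]
  constructor
  · rintro ⟨⟨a, _⟩, b, d⟩; exact ⟨⟨a, b⟩, d⟩
  · rintro ⟨⟨a, b⟩, d⟩; exact ⟨⟨a, by rw [b]; exact hr⟩, b, d⟩

private theorem ks_ap {n : ℕ} {s l : ℝ} (hs : 30 * (7 : ℝ) ^ n ≤ Real.exp s) (hl : 0 < l)
    {r : ZMod 15} (hr : r ∈ UU) (y : ZMod (7 ^ n)) :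
    |30 * (∑ M ∈ (WN s l).filter (fun M : ℕ => (M : ZMod 15) = r),
      if y = ((M : ℕ) : ZMod (7 ^ n)) then (7 : ℝ) ^ n / M else 0) - l| ≤ 1 := by
  obtain ⟨c, hc⟩ := ks_class hr y
  have h := apsum (q := 30 * 7 ^ n) (c := c) (s := s) (l := l)
    (Nat.one_le_iff_ne_zero.mpr (by positivity)) (by push_cast; exact hs) hl
  have e : 30 * (∑ M ∈ (WN s l).filter (fun M : ℕ => (M : ZMod 15) = r),
      if y = ((M : ℕ) : ZMod (7 ^ n)) then (7 : ℝ) ^ n / M else 0) =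
      ((30 * 7 ^ n : ℕ) : ℝ) * (∑ M ∈ (Finset.range ⌈Real.exp (s + l)⌉₊).filter (fun M : ℕ =>
      Real.exp s ≤ (M : ℝ) ∧ (M : ℝ) < Real.exp (s + l) ∧
        M % (30 * 7 ^ n) = c % (30 * 7 ^ n)), 1 / (M : ℝ)) := by
    rw [← Finset.sum_filter]
    have e1 : ((WN s l).filter (fun M : ℕ => (M : ZMod 15) = r)).filter
        (fun M : ℕ => y = ((M : ℕ) : ZMod (7 ^ n))) =
        (Finset.range ⌈Real.exp (s + l)⌉₊).filter (fun M : ℕ =>
          Real.exp s ≤ (M : ℝ) ∧ (M : ℝ) < Real.exp (s + l) ∧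
          M % (30 * 7 ^ n) = c % (30 * 7 ^ n)) := by
      ext M
      unfold WN
      simp only [Finset.mem_filter]
      rw [← hc M]
      tauto
    rw [e1, Nat.cast_mul, mul_assoc]
    push_cast
    congr 1
    rw [Finset.mul_sum]
    refine Finset.sum_congr rfl fun M _ => ?_
    ring
  rw [e]
  exact h

private theorem WN_UU {s l : ℝ} {M : ℕ} (h : M ∈ WN s l) : (M : ZMod 15) ∈ UU := by
  unfold WN at h
  rw [Finset.mem_filter] at h
  exact (coprime_iff.1 h.2.2.2).2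

theorem kswap {H n : ℕ} {s l : ℝ} (hs : 30 * (7 : ℝ) ^ n ≤ Real.exp s) (hl : 0 < l)
    (ψ : ZMod 15 → List Lt → ℝ) (hψ : ∀ r v, 0 ≤ ψ r v) :
    |∑ M ∈ WN s l, (7 : ℝ) ^ n / M * hh (M : ZMod 15) * Ex H n (M : ZMod 15) (fun v =>
        if PadicInt.toZModPow n (Fp v) = ((M : ℕ) : ZMod (7 ^ n)) then ψ (M : ZMod 15) v else 0) -
      l / 30 * ∑ r ∈ UU, hh r * Ex H n r (ψ r)| ≤
      1 / 30 * ∑ r ∈ UU, hh r * Ex H n r (ψ r) := by
  have h1 : ∑ M ∈ WN s l, (7 : ℝ) ^ n / M * hh (M : ZMod 15) * Ex H n (M : ZMod 15) (fun v =>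
        if PadicInt.toZModPow n (Fp v) = ((M : ℕ) : ZMod (7 ^ n)) then ψ (M : ZMod 15) v else 0) =
      ∑ r ∈ UU, hh r * Ex H n r (fun v =>
        (∑ M ∈ (WN s l).filter (fun M : ℕ => (M : ZMod 15) = r),
          if PadicInt.toZModPow n (Fp v) = ((M : ℕ) : ZMod (7 ^ n)) then (7 : ℝ) ^ n / M else 0)
          * ψ r v) := by
    rw [← Finset.sum_fiberwise_of_maps_to (g := fun M : ℕ => (M : ZMod 15)) (t := UU)
      (fun M hM => WN_UU hM)]
    refine Finset.sum_congr rfl fun r _ => ?_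
    have h2 : ∀ M ∈ (WN s l).filter (fun M : ℕ => (M : ZMod 15) = r),
        (7 : ℝ) ^ n / M * hh (M : ZMod 15) * Ex H n (M : ZMod 15) (fun v =>
        if PadicInt.toZModPow n (Fp v) = ((M : ℕ) : ZMod (7 ^ n)) then ψ (M : ZMod 15) v else 0) =
        hh r * Ex H n r (fun v =>
          (if PadicInt.toZModPow n (Fp v) = ((M : ℕ) : ZMod (7 ^ n)) then (7 : ℝ) ^ n / M else 0)
          * ψ r v) := by
      intro M hM
      rw [(Finset.mem_filter.1 hM).2]
      rw [mul_comm ((7 : ℝ) ^ n / M) (hh r), mul_assoc, ← Ex_mul_left]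
      congr 2
      funext v
      split_ifs <;> simp
    rw [Finset.sum_congr rfl h2, ← Finset.mul_sum, ← Ex_sum]
    congr 2
    funext v
    rw [Finset.sum_mul]
  rw [h1, Finset.mul_sum, Finset.mul_sum, ← Finset.sum_sub_distrib]
  refine (Finset.abs_sum_le_sum_abs _ _).trans (Finset.sum_le_sum fun r hr => ?_)
  have h3 : hh r * Ex H n r (fun v =>
        (∑ M ∈ (WN s l).filter (fun M : ℕ => (M : ZMod 15) = r),
          if PadicInt.toZModPow n (Fp v) = ((M : ℕ) : ZMod (7 ^ n)) then (7 : ℝ) ^ n / M else 0)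
          * ψ r v) - l / 30 * (hh r * Ex H n r (ψ r)) =
      hh r * Ex H n r (fun v =>
        ((∑ M ∈ (WN s l).filter (fun M : ℕ => (M : ZMod 15) = r),
          if PadicInt.toZModPow n (Fp v) = ((M : ℕ) : ZMod (7 ^ n)) then (7 : ℝ) ^ n / M else 0)
          - l / 30) * ψ r v) := by
    have h4 : Ex H n r (fun v =>
        (∑ M ∈ (WN s l).filter (fun M : ℕ => (M : ZMod 15) = r),
          if PadicInt.toZModPow n (Fp v) = ((M : ℕ) : ZMod (7 ^ n)) then (7 : ℝ) ^ n / M else 0)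
          * ψ r v) = Ex H n r (fun v =>
        ((∑ M ∈ (WN s l).filter (fun M : ℕ => (M : ZMod 15) = r),
          if PadicInt.toZModPow n (Fp v) = ((M : ℕ) : ZMod (7 ^ n)) then (7 : ℝ) ^ n / M else 0)
          - l / 30) * ψ r v) + l / 30 * Ex H n r (ψ r) := by
      rw [← Ex_mul_left, ← Ex_add]
      congr 1
      funext v
      ring
    rw [h4]
    ring
  rw [h3, abs_mul, abs_of_nonneg (hh_nonneg r), mul_left_comm]
  refine mul_le_mul_of_nonneg_left ?_ (hh_nonneg r)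
  refine (abs_Ex_le H n r _).trans ?_
  rw [← Ex_mul_left]
  refine Ex_mono H n r fun v _ _ => ?_
  rw [abs_mul, abs_of_nonneg (hψ r v)]
  refine mul_le_mul_of_nonneg_right ?_ (hψ r v)
  have h5 := ks_ap hs hl hr (PadicInt.toZModPow n (Fp v))
  rw [abs_le] at h5 ⊢
  constructor <;> linarith [h5.1, h5.2]

theorem sum_end {H : ℕ} (hH : 2 ≤ H) (n : ℕ) (g : ZMod 15 → ℝ) :
    ∑ r ∈ UU, hh r * Ex H n r (fun v => g (st r v) / hh (st r v)) = ∑ s ∈ UU, g s := by
  induction n with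
  | zero =>
    refine Finset.sum_congr rfl fun r hr => ?_
    rw [Ex_zero]
    change hh r * (g r / hh r) = g r
    rw [mul_div_cancel₀]
    exact (hh_pos hr).ne'
  | succ n ih =>
    have h1 : ∀ r ∈ UU, hh r * Ex H (n + 1) r (fun v => g (st r v) / hh (st r v)) =
        ∑ l ∈ LS H, wt H l * hh (nx r (lw l)) *
          (fun s => Ex H n s (fun v => g (st s v) / hh (st s v))) (nx r (lw l)) := by
      intro r hr
      rw [Ex_succ, Finset.mul_sum]
      refine Finset.sum_congr rfl fun l _ => ?_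
      have h2 := (hh_pos hr).ne'
      simp only [smul_eq_mul, pr, st]
      field_simp
    exact (Finset.sum_congr rfl h1).trans
      ((col_sum hH (fun s => Ex H n s (fun v => g (st s v) / hh (st s v)))).trans ih)

theorem KS_total {H n : ℕ} (hH : 2 ≤ H) {s l : ℝ} (hs : 30 * (7 : ℝ) ^ n ≤ Real.exp s)
    (hl : 0 < l) : |KS H n s l Set.univ - 8 / 30 * l| ≤ 1 := by
  have h1 := kswap (H := H) hs hl (fun r v => 1 / hh (st r v))
    (fun r v => div_nonneg zero_le_one (hh_nonneg _))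
  have h2 := sum_end hH n (fun _ => 1)
  have h3 : ∑ s ∈ UU, (1 : ℝ) = 8 := by
    rw [Finset.sum_const]
    have : UU.card = 8 := by decide
    rw [this]; norm_num
  rw [h3] at h2
  rw [h2] at h1
  have h4 : KS H n s l Set.univ = ∑ M ∈ WN s l, (7 : ℝ) ^ n / M * hh (M : ZMod 15) *
      Ex H n (M : ZMod 15) (fun v =>
        if PadicInt.toZModPow n (Fp v) = ((M : ℕ) : ZMod (7 ^ n)) then
          (fun r v => 1 / hh (st r v)) (M : ZMod 15) v else 0) := by
    unfold KS KK PdL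
    refine Finset.sum_congr rfl fun M _ => ?_
    rw [Set.indicator_of_mem (Set.mem_univ _)]
  rw [h4]
  rw [abs_le] at h1 ⊢
  constructor <;> linarith [h1.1, h1.2]

theorem WS_total {s l : ℝ} (hs : 30 ≤ Real.exp s) (hl : 0 < l) :
    |WS s l Set.univ - 8 / 30 * l| ≤ 1 := by
  have hs' : 30 * (7 : ℝ) ^ 0 ≤ Real.exp s := by simpa using hs
  have h1 : WS s l Set.univ = ∑ r ∈ UU,
      ∑ M ∈ (WN s l).filter (fun M : ℕ => (M : ZMod 15) = r), 1 / (M : ℝ) := by
    unfold WS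
    rw [Finset.sum_fiberwise_of_maps_to (g := fun M : ℕ => (M : ZMod 15)) (t := UU)
      (fun M hM => WN_UU hM)]
    refine Finset.sum_congr rfl fun M _ => ?_
    rw [Set.indicator_of_mem (Set.mem_univ _)]
  have h2 : ∀ r ∈ UU,
      |∑ M ∈ (WN s l).filter (fun M : ℕ => (M : ZMod 15) = r), 1 / (M : ℝ) - l / 30| ≤ 1 / 30 := by
    intro r hr
    have h := ks_ap hs' hl hr 0
    have e : (∑ M ∈ (WN s l).filter (fun M : ℕ => (M : ZMod 15) = r),
        if (0 : ZMod (7 ^ 0)) = ((M : ℕ) : ZMod (7 ^ 0)) then (7 : ℝ) ^ 0 / M else 0) =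
        ∑ M ∈ (WN s l).filter (fun M : ℕ => (M : ZMod 15) = r), 1 / (M : ℝ) := by
      refine Finset.sum_congr rfl fun M _ => ?_
      have : (0 : ZMod (7 ^ 0)) = ((M : ℕ) : ZMod (7 ^ 0)) := by
        rw [pow_zero]; exact Subsingleton.elim _ _
      rw [if_pos this, pow_zero]
    rw [e] at h
    rw [abs_le] at h ⊢
    constructor <;> linarith [h.1, h.2]
  have hc : UU.card = 8 := by decide
  have h3 : WS s l Set.univ - 8 / 30 * l = ∑ r ∈ UU,
      (∑ M ∈ (WN s l).filter (fun M : ℕ => (M : ZMod 15) = r), 1 / (M : ℝ) - l / 30) := by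
    rw [Finset.sum_sub_distrib, Finset.sum_const, hc, h1]
    simp only [nsmul_eq_mul]
    push_cast
    ring
  rw [h3]
  refine (Finset.abs_sum_le_sum_abs _ _).trans ((Finset.sum_le_sum h2).trans ?_)
  rw [Finset.sum_const, hc]
  norm_num

theorem KK_nonneg (H n M : ℕ) : 0 ≤ KK H n M := by
  unfold KK PdL
  refine mul_nonneg (mul_nonneg (by positivity) (hh_nonneg _)) ?_
  refine Ex_nonneg H n _ fun v _ _ => ?_
  split_ifs
  · exact div_nonneg zero_le_one (hh_nonneg _)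
  · exact le_refl _

end Kak
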