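import Pool.Agent.Lib.Kak.Defs

/-!
# Kak.KernBase: sums over the alphabet

PROOFS.

* `nx_letter`: `2^4 = 1` in `ZMod 15`, and for `b ≥ 1` one has `3^b * 81 = 3^b` in `ZMod 15`
  (because `81 = 6` and `3 * 6 = 18 = 3`), for `c ≥ 1` one has `5^c * 25 = 5^c` (`25 = 10`,
  `5 * 10 = 50 = 5`).  In `LS H` the pair `(b, u)` with `b = 0` is `(0, 0)`, the pair `(c, k)` with
  `c = 0` is `(0, 0)`.  So the class of `lw l` modulo 15 is the class of
  `2 ^ l.1.1 * 3 ^ l.2.1.1 * 5 ^ l.2.2.1`.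
* `base_sum`: unfold `LS`, `Finset.sum_product`, and split `insert (0,0) _` (`(0,0)` is not in
  `Icc 1 4 ×ˢ _` or `Icc 1 2 ×ˢ _`); everything is a product of sums.  On the right
  `range 5 = insert 0 (Icc 1 4)` and `range 3 = insert 0 (Icc 1 2)`.
* `sum_w2`: for `H ≥ 1`: `15/16 + 1/16 + ∑_{k=1}^{H-1} 16^(-k) + (16/15) 16^(-H) = 16/15` (geometric
  sum), similarly `sum_w3` (81) and `sum_w5` (25).
* `sum_w2_geo` etc.: the same with an extra factor `x^(t-1)`.
-/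

open Finset

namespace Kak

namespace KernBaseAux

theorem three_pow (b u : ℕ) (hb : b ≠ 0) : (3 : ZMod 15) ^ (b + 4 * u) = 3 ^ b := by
  obtain ⟨c, rfl⟩ := Nat.exists_eq_succ_of_ne_zero hb
  induction u with
  | zero => simp
  | succ n ih =>
    have : c.succ + 4 * (n + 1) = (c.succ + 4 * n) + 4 := by ring
    rw [this, pow_add, ih]
    rw [Nat.succ_eq_add_one, pow_succ, mul_assoc]
    congr 1

theorem five_pow (b u : ℕ) (hb : b ≠ 0) : (5 : ZMod 15) ^ (b + 2 * u) = 5 ^ b := by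
  obtain ⟨c, rfl⟩ := Nat.exists_eq_succ_of_ne_zero hb
  induction u with
  | zero => simp
  | succ n ih =>
    have : c.succ + 2 * (n + 1) = (c.succ + 2 * n) + 2 := by ring
    rw [this, pow_add, ih]
    rw [Nat.succ_eq_add_one, pow_succ, mul_assoc]
    congr 1

theorem two_pow (a u : ℕ) : (2 : ZMod 15) ^ (a + 4 * u) = 2 ^ a := by
  rw [pow_add, pow_mul]
  have : (2 : ZMod 15) ^ 4 = 1 := by decide
  rw [this, one_pow, mul_one]

theorem sum_LS {M : Type*} [AddCommMonoid M] (H : ℕ) (F : Lt → M) :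
    ∑ l ∈ LS H, F l = ∑ p ∈ Icc 1 4 ×ˢ range (H + 2),
      ∑ q ∈ insert ((0 : ℕ), (0 : ℕ)) (Icc 1 4 ×ˢ range (H + 2)),
      ∑ s ∈ insert ((0 : ℕ), (0 : ℕ)) (Icc 1 2 ×ˢ range (H + 1)), F (p, (q, s)) := by
  unfold LS
  rw [Finset.sum_product]
  refine Finset.sum_congr rfl fun p _ => ?_
  rw [Finset.sum_product]

end KernBaseAux

open KernBaseAux

theorem nx_letter {H : ℕ} {l : Lt} (h : l ∈ LS H) (r : ZMod 15) :
    nx r (lw l) = nx r (2 ^ l.1.1 * 3 ^ l.2.1.1 * 5 ^ l.2.2.1) := by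
  obtain ⟨⟨a, t⟩, ⟨⟨b, u⟩, ⟨c, k⟩⟩⟩ := l
  have hb : (3 : ZMod 15) ^ (b + 4 * (u - 1)) = 3 ^ b := by
    rcases Nat.eq_zero_or_pos b with h0 | h0
    · have hu : u = 0 := by
        simp only [LS, Finset.mem_product, Finset.mem_insert, Prod.mk.injEq, mem_Icc] at h
        omega
      subst h0; subst hu; simp
    · exact three_pow _ _ h0.ne'
  have hc : (5 : ZMod 15) ^ (c + 2 * k) = 5 ^ c := by
    rcases Nat.eq_zero_or_pos c with h0 | h0
    · have hu : k = 0 := by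
        simp only [LS, Finset.mem_product, Finset.mem_insert, Prod.mk.injEq, mem_Icc] at h
        omega
      subst h0; subst hu; simp
    · exact five_pow _ _ h0.ne'
  have ha : (2 : ZMod 15) ^ (a + 4 * (t - 1)) = 2 ^ a := two_pow _ _
  simp only [nx, lw, la, lb, lc]
  push_cast
  rw [ha, hb, hc]

theorem base_sum (H : ℕ) (A B C : ℕ → ℝ) (G : ℕ → ℕ → ℕ → ℝ) :
    ∑ l ∈ LS H, wt H l * A l.1.2 * (if l.2.1.1 = 0 then 1 else B l.2.1.2) *
      (if l.2.2.1 = 0 then 1 else C l.2.2.2) * G l.1.1 l.2.1.1 l.2.2.1 =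
    ∑ a ∈ Icc 1 4, ∑ b ∈ range 5, ∑ c ∈ range 3,
      ((1 / 2) ^ a * ∑ t ∈ range (H + 2), w2 H t * A t) *
      (if b = 0 then 1 else (1 / 3) ^ b * ∑ u ∈ range (H + 2), w3 H u * B u) *
      (if c = 0 then 1 else (1 / 5) ^ c * ∑ k ∈ range (H + 1), w5 H k * C k) * G a b c := by
  have h5 : range 5 = insert 0 (Icc 1 4) := by decide
  have h3 : range 3 = insert 0 (Icc 1 2) := by decide
  rw [sum_LS, Finset.sum_product]
  refine Finset.sum_congr rfl fun a _ => ?_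
  -- the sum over (c, k)
  have hS : ∀ (X : ℝ) (g : ℕ → ℝ),
      ∑ s ∈ insert ((0 : ℕ), (0 : ℕ)) (Icc 1 2 ×ˢ range (H + 1)),
        X * ((if s.1 = 0 then 1 else (1 / 5) ^ s.1 * w5 H s.2) *
          (if s.1 = 0 then 1 else C s.2)) * g s.1 =
      ∑ c ∈ range 3, X * (if c = 0 then 1 else (1 / 5) ^ c *
        ∑ k ∈ range (H + 1), w5 H k * C k) * g c := by
    intro X g
    rw [h3, Finset.sum_insert (by simp), Finset.sum_insert (by simp), Finset.sum_product]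
    congr 1
    · simp
    · refine Finset.sum_congr rfl fun c hc => ?_
      have hc0 : c ≠ 0 := by have := (mem_Icc.1 hc).1; omega
      simp only [hc0, if_false]
      rw [Finset.mul_sum, Finset.mul_sum, Finset.sum_mul]
      refine Finset.sum_congr rfl fun k _ => ?_
      ring
  have hQ : ∀ (X : ℝ) (g : ℕ → ℝ),
      ∑ s ∈ insert ((0 : ℕ), (0 : ℕ)) (Icc 1 4 ×ˢ range (H + 2)),
        X * ((if s.1 = 0 then 1 else (1 / 3) ^ s.1 * w3 H s.2) *
          (if s.1 = 0 then 1 else B s.2)) * g s.1 =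
      ∑ c ∈ range 5, X * (if c = 0 then 1 else (1 / 3) ^ c *
        ∑ k ∈ range (H + 2), w3 H k * B k) * g c := by
    intro X g
    rw [h5, Finset.sum_insert (by simp), Finset.sum_insert (by simp), Finset.sum_product]
    congr 1
    · simp
    · refine Finset.sum_congr rfl fun c hc => ?_
      have hc0 : c ≠ 0 := by have := (mem_Icc.1 hc).1; omega
      simp only [hc0, if_false]
      rw [Finset.mul_sum, Finset.mul_sum, Finset.sum_mul]
      refine Finset.sum_congr rfl fun k _ => ?_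
      ring
  have e1 : ∀ t ∈ range (H + 2),
      ∑ q ∈ insert ((0 : ℕ), (0 : ℕ)) (Icc 1 4 ×ˢ range (H + 2)),
      ∑ s ∈ insert ((0 : ℕ), (0 : ℕ)) (Icc 1 2 ×ˢ range (H + 1)),
        (fun l : Lt => wt H l * A l.1.2 * (if l.2.1.1 = 0 then 1 else B l.2.1.2) *
      (if l.2.2.1 = 0 then 1 else C l.2.2.2) * G l.1.1 l.2.1.1 l.2.2.1) ((a, t), (q, s)) =
      ∑ b ∈ range 5, ∑ c ∈ range 3,
      ((1 / 2) ^ a * (w2 H t * A t)) *
      (if b = 0 then 1 else (1 / 3) ^ b * ∑ u ∈ range (H + 2), w3 H u * B u) *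
      (if c = 0 then 1 else (1 / 5) ^ c * ∑ k ∈ range (H + 1), w5 H k * C k) * G a b c := by
    intro t _
    have e2 : ∀ q ∈ insert ((0 : ℕ), (0 : ℕ)) (Icc 1 4 ×ˢ range (H + 2)),
      ∑ s ∈ insert ((0 : ℕ), (0 : ℕ)) (Icc 1 2 ×ˢ range (H + 1)),
        (fun l : Lt => wt H l * A l.1.2 * (if l.2.1.1 = 0 then 1 else B l.2.1.2) *
      (if l.2.2.1 = 0 then 1 else C l.2.2.2) * G l.1.1 l.2.1.1 l.2.2.1) ((a, t), (q, s)) =
      ((1 / 2) ^ a * (w2 H t * A t)) * ((if q.1 = 0 then 1 else (1 / 3) ^ q.1 * w3 H q.2) *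
          (if q.1 = 0 then 1 else B q.2)) * ∑ c ∈ range 3,
          (if c = 0 then 1 else (1 / 5) ^ c * ∑ k ∈ range (H + 1), w5 H k * C k) * G a q.1 c := by
      intro q _
      have := hS (((1 / 2) ^ a * (w2 H t * A t)) * ((if q.1 = 0 then 1 else (1 / 3) ^ q.1 * w3 H q.2) *
          (if q.1 = 0 then 1 else B q.2))) (fun c => G a q.1 c)
      rw [Finset.mul_sum]
      have e3 : ∀ c ∈ range 3, ((1 / 2) ^ a * (w2 H t * A t)) * ((if q.1 = 0 then 1 else (1 / 3) ^ q.1 * w3 H q.2) *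
          (if q.1 = 0 then 1 else B q.2)) * ((if c = 0 then 1 else (1 / 5) ^ c * ∑ k ∈ range (H + 1), w5 H k * C k) * G a q.1 c) =
          ((1 / 2) ^ a * (w2 H t * A t)) * ((if q.1 = 0 then 1 else (1 / 3) ^ q.1 * w3 H q.2) *
          (if q.1 = 0 then 1 else B q.2)) * (if c = 0 then 1 else (1 / 5) ^ c * ∑ k ∈ range (H + 1), w5 H k * C k) * G a q.1 c := by
        intro c _; ring
      rw [Finset.sum_congr rfl e3, ← this]
      refine Finset.sum_congr rfl fun s _ => ?_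
      simp only [wt]
      ring
    rw [Finset.sum_congr rfl e2]
    have := hQ ((1 / 2) ^ a * (w2 H t * A t)) (fun b => ∑ c ∈ range 3,
          (if c = 0 then 1 else (1 / 5) ^ c * ∑ k ∈ range (H + 1), w5 H k * C k) * G a b c)
    rw [this]
    refine Finset.sum_congr rfl fun b _ => ?_
    rw [Finset.mul_sum]
    refine Finset.sum_congr rfl fun c _ => ?_
    ring
  rw [Finset.sum_congr rfl e1, Finset.sum_comm]
  refine Finset.sum_congr rfl fun b _ => ?_
  rw [Finset.sum_comm]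
  refine Finset.sum_congr rfl fun c _ => ?_
  rw [← Finset.sum_mul, ← Finset.sum_mul, ← Finset.sum_mul, ← Finset.mul_sum]

/-- for `0 ≤ x`: `∑_t w2 x^(t-1) = ∑_{k<H} (x/16)^k + (16/15) (x/16)^H` -/
theorem sum_w2_geo {H : ℕ} (hH : 2 ≤ H) (x : ℝ) :
    ∑ t ∈ range (H + 2), w2 H t * x ^ (t - 1) =
      ∑ k ∈ range H, (x / 16) ^ k + 16 / 15 * (x / 16) ^ H := by
  obtain ⟨m, rfl⟩ : ∃ m, H = m + 1 := ⟨H - 1, by omega⟩
  rw [Finset.sum_range_succ, Finset.sum_range_succ', Finset.sum_range_succ',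
    Finset.sum_range_succ' (fun k => (x / 16) ^ k)]
  have h1 : ∑ k ∈ range m, w2 (m + 1) (k + 1 + 1) * x ^ (k + 1 + 1 - 1) =
      ∑ k ∈ range m, (x / 16) ^ (k + 1) := by
    refine Finset.sum_congr rfl fun k hk => ?_
    have hk' := mem_range.1 hk
    have : w2 (m + 1) (k + 1 + 1) = (1 / 16) ^ (k + 1) := by
      unfold w2
      rw [if_neg (by omega), if_neg (by omega), if_neg (by omega)]
      rfl
    rw [this, Nat.add_sub_cancel, div_pow, div_pow, one_pow]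
    ring
  rw [h1]
  have h2 : w2 (m + 1) (m + 1 + 1) = 16 / 15 * (1 / 16) ^ (m + 1) := by
    unfold w2
    rw [if_neg (by omega), if_neg (by omega), if_pos rfl]
  have h3 : w2 (m + 1) (0 + 1) = 1 / 16 := by
    unfold w2
    rw [if_neg (by omega), if_pos rfl]
  have h4 : w2 (m + 1) 0 = 15 / 16 := by
    unfold w2
    rw [if_pos rfl]
  rw [h2, h3, h4]
  have h5 : m + 1 + 1 - 1 = m + 1 := rfl
  rw [h5]
  simp only [pow_zero, Nat.zero_sub, zero_add, Nat.sub_self]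
  rw [div_pow x 16 (m + 1), div_pow 1 16 (m + 1), one_pow]
  ring

theorem sum_w3_geo {H : ℕ} (hH : 2 ≤ H) (x : ℝ) :
    ∑ t ∈ range (H + 2), w3 H t * x ^ (t - 1) =
      ∑ k ∈ range H, (x / 81) ^ k + 81 / 80 * (x / 81) ^ H := by
  obtain ⟨m, rfl⟩ : ∃ m, H = m + 1 := ⟨H - 1, by omega⟩
  rw [Finset.sum_range_succ, Finset.sum_range_succ', Finset.sum_range_succ',
    Finset.sum_range_succ' (fun k => (x / 81) ^ k)]
  have h1 : ∑ k ∈ range m, w3 (m + 1) (k + 1 + 1) * x ^ (k + 1 + 1 - 1) =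
      ∑ k ∈ range m, (x / 81) ^ (k + 1) := by
    refine Finset.sum_congr rfl fun k hk => ?_
    have hk' := mem_range.1 hk
    have : w3 (m + 1) (k + 1 + 1) = (1 / 81) ^ (k + 1) := by
      unfold w3
      rw [if_neg (by omega), if_neg (by omega), if_neg (by omega)]
      rfl
    rw [this, Nat.add_sub_cancel, div_pow, div_pow, one_pow]
    ring
  rw [h1]
  have h2 : w3 (m + 1) (m + 1 + 1) = 81 / 80 * (1 / 81) ^ (m + 1) := by
    unfold w3
    rw [if_neg (by omega), if_neg (by omega), if_pos rfl]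
  have h3 : w3 (m + 1) (0 + 1) = 1 / 81 := by
    unfold w3
    rw [if_neg (by omega), if_pos rfl]
  have h4 : w3 (m + 1) 0 = 80 / 81 := by
    unfold w3
    rw [if_pos rfl]
  rw [h2, h3, h4]
  have h5 : m + 1 + 1 - 1 = m + 1 := rfl
  rw [h5]
  simp only [pow_zero, Nat.zero_sub, zero_add, Nat.sub_self]
  rw [div_pow x 81 (m + 1), div_pow 1 81 (m + 1), one_pow]
  ring

theorem sum_w5_geo (H : ℕ) (x : ℝ) :
    ∑ k ∈ range (H + 1), w5 H k * x ^ k =
      ∑ k ∈ range H, (x / 25) ^ k + 25 / 24 * (x / 25) ^ H := by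
  rw [Finset.sum_range_succ]
  congr 1
  · refine Finset.sum_congr rfl fun k hk => ?_
    have hk' := mem_range.1 hk
    unfold w5
    rw [if_neg (by omega), div_pow, div_pow, one_pow]
    ring
  · unfold w5
    rw [if_pos rfl, div_pow, div_pow, one_pow]
    ring

theorem sum_w2 {H : ℕ} (hH : 2 ≤ H) : ∑ t ∈ range (H + 2), w2 H t = 16 / 15 := by
  have h := sum_w2_geo hH 1
  simp only [one_pow, mul_one] at h
  rw [h, geom_sum_eq (by norm_num)]
  ring

theorem sum_w3 {H : ℕ} (hH : 2 ≤ H) : ∑ t ∈ range (H + 2), w3 H t = 81 / 80 := by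
  have h := sum_w3_geo hH 1
  simp only [one_pow, mul_one] at h
  rw [h, geom_sum_eq (by norm_num)]
  ring

theorem sum_w5 (H : ℕ) : ∑ k ∈ range (H + 1), w5 H k = 25 / 24 := by
  have h := sum_w5_geo H 1
  simp only [one_pow, mul_one] at h
  rw [h, geom_sum_eq (by norm_num)]
  ring

end Kak
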