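import Pool.Agent.Lib.Kak.Growth

/-!
# Kak.LExE: early exits and late exits

PROOFS.

`exit_disjoint`: the sets `ExitAt Z t` are pairwise disjoint, because `Wd (v.take i) ∣ Wd (v.take j)`
for `i ≤ j` (`Wd_take_dvd`): if `v ∈ ExitAt Z t`, `v ∈ ExitAt Z t'`, `t < t'`, then
`Wd (v.take (2t)) ∣ Wd (v.take (2t'-2)) ∣ Z`, contradiction.

`early`: for `1 ≤ t ≤ j0`: `PP H (2(t+q)) r (ExitAt Z t) = PP H (2 j0) r (ExitAt Z t)` (both equal
`PP H (2t) r (ExitAt Z t)` by `PP_take`: membership depends only on `v.take (2t)`).  The events are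
disjoint and contained in `{v | Wd v ∤ Z}` (length `2 j0`), so (`sum_PP_le`) the sum is
`≤ PP H (2 j0) r {v | Wd v ∤ Z}`.  If `Wd v = 2^a 3^b 5^c ∤ Z` and `30^L ∣ Z` then `a > L` or `b > L` or
`c > L` (otherwise `Wd v ∣ 30^L ∣ Z`), so `Wd v ≥ 2^L`, and by Markov and `sqrtW` the probability is
`≤ 9^(2 j0) / √(2^L)`.

`noLate`: `Z ≠ 0` and `Wd v ∣ Z` give `Wd v ≤ |Z| ≤ 7^(2m)`.  Let `k = 2 (24m/25) ≥ (48/25) m - 2`,
so `(21/20) k ≥ 2.016 m - 2.1 ≥ 2m - 2.1`; so the event is contained in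
`{Wd v < D 7^((21/20)k)}` with `D = 7^3`, and `growth_prob'` gives `C √(7^3) (24/25)^k ≤ C' θ^m` with
`θ = 24/25` (as `k ≥ m` for `m ≥ 3`, enlarge `C'` for small `m`).
-/

open Finset

namespace Kak

namespace LExEAux

theorem aux {Z : ℤ} {t t' : ℕ} {v : List Lt} (h : v ∈ ExitAt Z t)
    (h' : v ∈ ExitAt Z t') (hlt : t < t') : False := by
  obtain ⟨_, h1⟩ := h
  obtain ⟨h2, _⟩ := h'
  apply h1
  have h3 : Wd (v.take (2 * t)) ∣ Wd (v.take (2 * t' - 2)) := Wd_take_dvd v (by omega)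
  exact (Int.natCast_dvd_natCast.2 h3).trans h2

theorem mem_take {Z : ℤ} {t : ℕ} {v : List Lt} {k : ℕ} (hk : 2 * t ≤ k) :
    v.take k ∈ ExitAt Z t ↔ v ∈ ExitAt Z t := by
  unfold ExitAt
  simp only [Set.mem_ofPred_eq, List.take_take]
  rw [min_eq_left (by omega : 2 * t - 2 ≤ k), min_eq_left hk]

theorem PP_exit {H : ℕ} (hH : 2 ≤ H) {Z : ℤ} {t n : ℕ} (hn : 2 * t ≤ n)
    {r : ZMod 15} (hr : r ∈ UU) : PP H n r (ExitAt Z t) = PP H (2 * t) r (ExitAt Z t) := by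
  rw [← PP_take hH hn hr (ExitAt Z t)]
  exact PP_congr H n r fun v _ _ => (mem_take le_rfl).symm

theorem big {Z : ℤ} {L : ℕ} (hL : (30 : ℤ) ^ L ∣ Z) {v : List Lt}
    (hv : ¬ ((Wd v : ℕ) : ℤ) ∣ Z) : 2 ^ L ≤ Wd v := by
  rw [Wd_eq]
  by_cases ha : ea v ≤ L
  · by_cases hb : eb v ≤ L
    · by_cases hc : ec v ≤ L
      · exfalso
        apply hv
        have h1 : 2 ^ ea v * 3 ^ eb v * 5 ^ ec v ∣ 2 ^ L * 3 ^ L * 5 ^ L :=
          mul_dvd_mul (mul_dvd_mul (pow_dvd_pow _ ha) (pow_dvd_pow _ hb)) (pow_dvd_pow _ hc)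
        have h2 : 2 ^ L * 3 ^ L * 5 ^ L = 30 ^ L := by
          rw [← mul_pow, ← mul_pow]
          norm_num
        rw [h2, ← Wd_eq] at h1
        refine (Int.natCast_dvd_natCast.2 h1).trans ?_
        exact_mod_cast hL
      · calc 2 ^ L ≤ 5 ^ L := Nat.pow_le_pow_left (by norm_num) _
          _ ≤ 5 ^ ec v := Nat.pow_le_pow_right (by norm_num) (by omega)
          _ ≤ 2 ^ ea v * 3 ^ eb v * 5 ^ ec v := Nat.le_mul_of_pos_left _ (by positivity)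
    · calc 2 ^ L ≤ 3 ^ L := Nat.pow_le_pow_left (by norm_num) _
        _ ≤ 3 ^ eb v := Nat.pow_le_pow_right (by norm_num) (by omega)
        _ ≤ 2 ^ ea v * 3 ^ eb v := Nat.le_mul_of_pos_left _ (by positivity)
        _ ≤ 2 ^ ea v * 3 ^ eb v * 5 ^ ec v := Nat.le_mul_of_pos_right _ (by positivity)
  · calc 2 ^ L ≤ 2 ^ ea v := Nat.pow_le_pow_right (by norm_num) (by omega)
      _ ≤ 2 ^ ea v * 3 ^ eb v := Nat.le_mul_of_pos_right _ (by positivity)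
      _ ≤ 2 ^ ea v * 3 ^ eb v * 5 ^ ec v := Nat.le_mul_of_pos_right _ (by positivity)

end LExEAux

open LExEAux

theorem exit_disjoint {Z : ℤ} {t t' : ℕ} {v : List Lt} (h : v ∈ ExitAt Z t)
    (h' : v ∈ ExitAt Z t') : t = t' := by
  rcases lt_trichotomy t t' with h1 | h1 | h1
  · exact (aux h h' h1).elim
  · exact h1
  · exact (aux h' h h1).elim

theorem early {H : ℕ} (hH : 2 ≤ H) {Z : ℤ} {L : ℕ} (hL : (30 : ℤ) ^ L ∣ Z) (j0 q : ℕ)
    {r : ZMod 15} (hr : r ∈ UU) :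
    ∑ t ∈ Icc 1 j0, PP H (2 * (t + q)) r (ExitAt Z t) ≤ 9 ^ (2 * j0) / √((2 : ℝ) ^ L) := by
  have h1 : ∑ t ∈ Icc 1 j0, PP H (2 * (t + q)) r (ExitAt Z t) =
      ∑ t ∈ Icc 1 j0, PP H (2 * j0) r (ExitAt Z t) := by
    refine sum_congr rfl fun t ht => ?_
    have ht' := (mem_Icc.1 ht).2
    rw [PP_exit hH (by omega : 2 * t ≤ 2 * (t + q)) hr, PP_exit hH (by omega : 2 * t ≤ 2 * j0) hr]
  rw [h1]
  have h2 : ∑ t ∈ Icc 1 j0, PP H (2 * j0) r (ExitAt Z t) ≤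
      PP H (2 * j0) r {v | ¬ ((Wd v : ℕ) : ℤ) ∣ Z} := by
    refine sum_PP_le (2 * j0) r _ _ _ (fun v _ _ i _ j _ hi hj => exit_disjoint hi hj) ?_
    intro v _ _ i _ hi hd
    obtain ⟨_, h3⟩ := hi
    apply h3
    have h4 : Wd (v.take (2 * i)) ∣ Wd v := by
      have := Wd_take_dvd v (le_max_left (2 * i) v.length)
      rwa [List.take_of_length_le (le_max_right (2 * i) v.length)] at this
    exact (Int.natCast_dvd_natCast.2 h4).trans hd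
  refine h2.trans ?_
  refine (PP_markov H (2 * j0) r (f := fun v => √(Wd v : ℝ)) (c := √((2 : ℝ) ^ L)) (by positivity)
    (fun v _ _ => Real.sqrt_nonneg _) (fun v _ _ hv => ?_)).trans ?_
  · refine Real.sqrt_le_sqrt ?_
    exact_mod_cast big hL hv
  · exact div_le_div_of_nonneg_right (sqrtW hH (2 * j0) hr) (Real.sqrt_nonneg _)

theorem noLate : ∃ C θ : ℝ, 0 < C ∧ 0 < θ ∧ θ < 1 ∧ ∀ H, 2 ≤ H → ∀ m : ℕ, ∀ r ∈ UU, ∀ Z : ℤ,
    Z ≠ 0 → |(Z : ℝ)| ≤ 7 ^ (2 * m) →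
      PP H (2 * (24 * m / 25)) r {v | ((Wd v : ℕ) : ℤ) ∣ Z} ≤ C * θ ^ m := by
  obtain ⟨C, hC, hg⟩ := growth_prob'
  refine ⟨C * √((7 : ℝ) ^ 4) * (25 / 24) ^ 2, 24 / 25, by positivity, by norm_num, by norm_num, ?_⟩
  intro H hH m r hr Z hZ hZm
  set k := 2 * (24 * m / 25) with hk
  have hk1 : m ≤ k + 2 := by omega
  have hk2 : (2 * m : ℝ) < 4 + 21 / 20 * k := by
    have h1 : 24 * m < 25 * (24 * m / 25) + 25 := by omega
    have h2 : (24 * m : ℝ) < 25 * ((24 * m / 25 : ℕ) : ℝ) + 25 := by exact_mod_cast h1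
    have h3 : (k : ℝ) = 2 * ((24 * m / 25 : ℕ) : ℝ) := by
      rw [hk]
      push_cast
      ring
    rw [h3]
    linarith
  have h1 := hg H hH k r hr ((7 : ℝ) ^ 4) (by positivity)
  have h2 : PP H k r {v | ((Wd v : ℕ) : ℤ) ∣ Z} ≤
      PP H k r {v | (Wd v : ℝ) < (7 : ℝ) ^ 4 * (7 : ℝ) ^ ((21 / 20 : ℝ) * k)} := by
    refine PP_mono H k r fun v _ _ hv => ?_
    have h3 : Wd v ≤ Z.natAbs := by
      refine Nat.le_of_dvd (Int.natAbs_pos.2 hZ) ?_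
      have := Int.natAbs_dvd_natAbs.2 hv
      simpa using this
    have h4 : (Wd v : ℝ) ≤ |(Z : ℝ)| := by
      have h5 : (Wd v : ℝ) ≤ (Z.natAbs : ℝ) := by exact_mod_cast h3
      rwa [Nat.cast_natAbs, Int.cast_abs] at h5
    show (Wd v : ℝ) < (7 : ℝ) ^ 4 * (7 : ℝ) ^ ((21 / 20 : ℝ) * k)
    refine (h4.trans hZm).trans_lt ?_
    rw [← Real.rpow_natCast, ← Real.rpow_natCast, ← Real.rpow_add (by norm_num)]
    refine Real.rpow_lt_rpow_of_exponent_lt (by norm_num) ?_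
    push_cast
    linarith
  refine (h2.trans h1).trans ?_
  have h5 : ((24 : ℝ) / 25) ^ k ≤ (25 / 24) ^ 2 * (24 / 25) ^ m := by
    have h6 : ((24 : ℝ) / 25) ^ (k + 2) ≤ (24 / 25) ^ m :=
      pow_le_pow_of_le_one (by norm_num) (by norm_num) hk1
    rw [pow_add] at h6
    have h7 : ((24 : ℝ) / 25) ^ k = (25 / 24) ^ 2 * ((24 / 25) ^ k * (24 / 25) ^ 2) := by
      rw [mul_comm ((24 / 25 : ℝ) ^ k), ← mul_assoc, ← mul_pow]
      norm_num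
    rw [h7]
    exact mul_le_mul_of_nonneg_left h6 (by positivity)
  calc C * √((7 : ℝ) ^ 4) * (24 / 25) ^ k ≤ C * √((7 : ℝ) ^ 4) * ((25 / 24) ^ 2 * (24 / 25) ^ m) :=
        mul_le_mul_of_nonneg_left h5 (by positivity)
    _ = _ := by ring

end Kak
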