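import Pool.Agent.Lib.Kak.Stage

/-!
# Kak.LogDens: logarithmic density of the bad set

PROOF.  Apply `stage` with `ε/70`: `N0`, `T`.  Let `X` be large, `u = log (X+1)`; put `x_j = u (32/33)^j` and let `J` be
the least number with `x_J < T` (or `x_J ≤ T`); for `j = 1..`, `x_j (1 + 1/32) = x_(j-1)`, so the window `[e^(x_j), e^(x_j + x_j/32))`
is `[e^(x_j), e^(x_(j-1)))`.  The integers `1 ≤ N ≤ X` (`< e^u`) coprime to 30 are either in one of the
windows `WN x_j (x_j/32)`, `1 ≤ j ≤ J'` with `x_j ≥ T`, or `< e^(33T/32)`.  So the sum is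
`≤ ∑_j (ε/70) x_j + ∑_{N < e^(2T)} 1/N ≤ (ε/70) * 33 u + (2T + 1) ≤ ε/2 * u + const ≤ ε log X` for `X` large
(`∑_{j ≥ 1} (32/33)^j = 32`).
-/

open Finset

namespace Kak

namespace LogDensAux

/-- logarithmic mass of a set among the numbers coprime to 30 below `exp u` -/
noncomputable def SS (F : Set ℕ) (u : ℝ) : ℝ :=
  ∑ N ∈ (Finset.range ⌈Real.exp u⌉₊).filter (fun N => Nat.Coprime N 30),
    F.indicator (fun N : ℕ => 1 / (N : ℝ)) N

theorem ind_nonneg (F : Set ℕ) (N : ℕ) : 0 ≤ F.indicator (fun N : ℕ => 1 / (N : ℝ)) N :=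
  Set.indicator_nonneg (fun N _ => by positivity) N

theorem SS_nonneg (F : Set ℕ) (u : ℝ) : 0 ≤ SS F u :=
  Finset.sum_nonneg fun N _ => ind_nonneg F N

theorem SS_mono (F : Set ℕ) {u u' : ℝ} (h : u ≤ u') : SS F u ≤ SS F u' := by
  unfold SS
  refine Finset.sum_le_sum_of_subset_of_nonneg ?_ fun N _ _ => ind_nonneg F N
  refine Finset.filter_subset_filter _ (Finset.range_subset_range.mpr ?_)
  exact Nat.ceil_mono (Real.exp_le_exp.mpr h)

theorem SS_step (F : Set ℕ) (x : ℝ) : SS F (x + x / 32) ≤ SS F x + WS x (x / 32) F := by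
  classical
  have hsub : (Finset.range ⌈Real.exp (x + x / 32)⌉₊).filter (fun N => Nat.Coprime N 30) ⊆
      (Finset.range ⌈Real.exp x⌉₊).filter (fun N => Nat.Coprime N 30) ∪ WN x (x / 32) := by
    intro N hN
    rw [Finset.mem_filter, Finset.mem_range, Nat.lt_ceil] at hN
    rw [Finset.mem_union]
    by_cases h : (N : ℝ) < Real.exp x
    · left
      rw [Finset.mem_filter, Finset.mem_range, Nat.lt_ceil]
      exact ⟨h, hN.2⟩
    · right
      unfold WN
      rw [Finset.mem_filter, Finset.mem_range, Nat.lt_ceil]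
      exact ⟨hN.1, not_lt.mp h, hN.1, hN.2⟩
  have h1 : SS F (x + x / 32) ≤ ∑ N ∈ (Finset.range ⌈Real.exp x⌉₊).filter
      (fun N => Nat.Coprime N 30) ∪ WN x (x / 32), F.indicator (fun N : ℕ => 1 / (N : ℝ)) N :=
    Finset.sum_le_sum_of_subset_of_nonneg hsub fun N _ _ => ind_nonneg F N
  have h2 := Finset.sum_union_inter (s₁ := (Finset.range ⌈Real.exp x⌉₊).filter
      (fun N => Nat.Coprime N 30)) (s₂ := WN x (x / 32))
      (f := fun N => F.indicator (fun N : ℕ => 1 / (N : ℝ)) N)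
  have h3 : 0 ≤ ∑ N ∈ (Finset.range ⌈Real.exp x⌉₊).filter
      (fun N => Nat.Coprime N 30) ∩ WN x (x / 32), F.indicator (fun N : ℕ => 1 / (N : ℝ)) N :=
    Finset.sum_nonneg fun N _ => ind_nonneg F N
  unfold WS
  unfold SS at h1 ⊢
  linarith

theorem SS_bound (F : Set ℕ) {T δ : ℝ} (hT : 1 ≤ T) (hδ : 0 < δ)
    (h : ∀ x : ℝ, T ≤ x → WS x (x / 32) F ≤ δ * x) (k : ℕ) :
    ∀ u : ℝ, 0 ≤ u → u ≤ (33 / 32 : ℝ) ^ k * (33 / 32 * T) →
      SS F u ≤ SS F (33 / 32 * T) + 33 * δ * u := by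
  induction k with
  | zero =>
    intro u hu0 hu
    have := SS_mono F (u := u) (u' := 33 / 32 * T) (by simpa using hu)
    have h2 : 0 ≤ 33 * δ * u := by positivity
    linarith
  | succ k ih =>
    intro u hu0 hu
    by_cases hc : u ≤ 33 / 32 * T
    · have := SS_mono F hc
      have h2 : 0 ≤ 33 * δ * u := by positivity
      linarith
    · have hc' := not_le.mp hc
      have hx : T ≤ 32 / 33 * u := by linarith
      have h1 := ih (32 / 33 * u) (by positivity) (by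
        rw [pow_succ] at hu
        nlinarith)
      have h2 := SS_step F (32 / 33 * u)
      have h3 := h _ hx
      have h4 : 32 / 33 * u + 32 / 33 * u / 32 = u := by ring
      rw [h4] at h2
      have h5 : 0 ≤ δ * u := by positivity
      nlinarith

theorem SS_bound' (F : Set ℕ) {T δ : ℝ} (hT : 1 ≤ T) (hδ : 0 < δ)
    (h : ∀ x : ℝ, T ≤ x → WS x (x / 32) F ≤ δ * x) (u : ℝ) (hu : 0 ≤ u) :
    SS F u ≤ SS F (33 / 32 * T) + 33 * δ * u := by
  obtain ⟨k, hk⟩ := pow_unbounded_of_one_lt (u / (33 / 32 * T)) (by norm_num : (1 : ℝ) < 33 / 32)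
  refine SS_bound F hT hδ h k u hu ?_
  rw [div_lt_iff₀ (by positivity)] at hk
  exact hk.le

end LogDensAux

open Classical in
theorem logDens {ε : ℝ} (hε : 0 < ε) : ∃ (N0 X0 : ℕ), ∀ X : ℕ, X0 ≤ X →
    ∑ N ∈ Icc 1 X with (Nat.Coprime N 30 ∧ ∀ k : ℕ, N0 < Syr^[k] N), 1 / (N : ℝ) ≤
      ε * Real.log X := by
  obtain ⟨N0, T, hT, hst⟩ := stage (ε := ε / 70) (by positivity)
  set F : Set ℕ := {N | ∀ k : ℕ, N0 < Syr^[k] N} with hF
  set C : ℝ := LogDensAux.SS F (33 / 32 * T) with hC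
  have hC0 : 0 ≤ C := LogDensAux.SS_nonneg _ _
  refine ⟨N0, ⌈Real.exp (2 * (C + ε) / ε)⌉₊ + 1, fun X hX => ?_⟩
  have hX1 : 1 ≤ X := by omega
  have hXR : (1 : ℝ) ≤ X := by exact_mod_cast hX1
  have hXe : Real.exp (2 * (C + ε) / ε) ≤ X := by
    refine (Nat.le_ceil _).trans ?_
    exact_mod_cast (by omega : ⌈Real.exp (2 * (C + ε) / ε)⌉₊ ≤ X)
  have hlogX : 2 * (C + ε) / ε ≤ Real.log X :=
    (Real.le_log_iff_exp_le (by linarith)).mpr hXe
  have hlogX' : 2 * (C + ε) ≤ ε * Real.log X := by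
    rw [div_le_iff₀ hε] at hlogX; linarith
  have hb := LogDensAux.SS_bound' F hT (by positivity : 0 < ε / 70) hst
    (Real.log (X + 1)) (Real.log_nonneg (by linarith))
  have hlog1 : Real.log (X + 1) ≤ 1 + Real.log X := by
    have h1 : Real.log ((X : ℝ) + 1) ≤ Real.log (2 * X) :=
      Real.log_le_log (by linarith) (by linarith)
    rw [Real.log_mul two_ne_zero (by linarith)] at h1
    have := Real.log_two_lt_d9
    linarith
  have hsum : ∑ N ∈ Icc 1 X with (Nat.Coprime N 30 ∧ ∀ k : ℕ, N0 < Syr^[k] N), 1 / (N : ℝ) ≤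
      LogDensAux.SS F (Real.log (X + 1)) := by
    unfold LogDensAux.SS
    rw [Real.exp_log (by linarith)]
    have he : ∀ N ∈ (Icc 1 X).filter (fun N => Nat.Coprime N 30 ∧ ∀ k : ℕ, N0 < Syr^[k] N),
        1 / (N : ℝ) = F.indicator (fun N : ℕ => 1 / (N : ℝ)) N := by
      intro N hN
      rw [Finset.mem_filter] at hN
      rw [Set.indicator_of_mem (show N ∈ F from hN.2.2)]
    rw [Finset.sum_congr rfl he]
    refine Finset.sum_le_sum_of_subset_of_nonneg ?_ fun N _ _ => LogDensAux.ind_nonneg F N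
    intro N hN
    rw [Finset.mem_filter, Finset.mem_Icc] at hN
    rw [Finset.mem_filter, Finset.mem_range, Nat.lt_ceil]
    refine ⟨?_, hN.2.1⟩
    have : (N : ℝ) ≤ X := by exact_mod_cast hN.1.2
    linarith
  have h3 : ε * Real.log (X + 1) ≤ ε * (1 + Real.log X) := mul_le_mul_of_nonneg_left hlog1 hε.le
  have hlogX0 : 0 ≤ Real.log X := Real.log_nonneg hXR
  nlinarith [hsum, hb, mul_nonneg hε.le hlogX0]

end Kak
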