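import Pool.Agent.Lib.Kak.DeepStep

/-!
# Kak.LongStep: the gain at an arbitrary point

PROOF.  Choose `p ≥ 1` with `(1-η)^p ≤ δ/2` and `κ = 1/(200 p C3)`.  Let `C', θ', m1'` be given by
`deepStep` with `κ` and `δ/2`.  Let `m ≥ m1` (large), `S = C3 (⌈κ m⌉₊ + 1)`, so
`p S ≤ p C3 (κ m + 2) = m/200 + 2 p C3 ≤ m/100`.
Put `θ = θ'^(99/100)` (or any `θ < 1` with `θ'^(m') ≤ θ^m` for `m' ≥ 99m/100`, e.g. `θ = √θ'`).
Claim for `k = 0,...,p`: for all `m'` with `m - (p-k) S ≤ m' ≤ m` (and `m' < m` if `k = 0`), all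
`r' ∈ UU`, units `ξ'`: `QQ H m' r' ξ' ≤ ((1-η)^k + δ/2) u + C' θ^m`.
`k = 0`: `m' ≥ 99m/100`, `m ≤ 50 m'`, hypothesis on `u`.
`k ≥ 1`: if `Dp ε ⌈κ m'⌉₊ m' ξ'` then `deepStep` at the level `m' ≥ m1'` (its hypothesis: levels `m''` with
`m' ≤ 30 m''`, `m'' < m'`, satisfy `m ≤ (100/99) m' ≤ 50 m''`) gives `QQ ≤ C' θ'^(m') + (δ/2) u`.
Otherwise `hS` with `L = ⌈κ m'⌉₊ ≤ ⌈κ m⌉₊` and `s = S` (`≤ m'`) gives `TT H S m' r' ξ' 1 ≤ 1 - η` and
`QQ_le_mul` with the bound at the level `m' - S` (`< m`, `≥ m - (p-(k-1)) S`) gives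
`QQ ≤ (1-η) (((1-η)^(k-1) + δ/2) u + C' θ^m) ≤ ((1-η)^k + δ/2) u + C' θ^m`.
Take `k = p`, `m' = m`: `QQ H m r ξ ≤ δ u + C' θ^m`.
-/

open Finset

namespace Kak

theorem longStep {ε η : ℝ} (hε0 : 0 < ε) (hε : ε ≤ 1 / 2 ^ 10) (hη0 : 0 < η) (hη1 : η ≤ 1)
    {C3 : ℕ} (hC3 : 1 ≤ C3)
    (hS : ∀ H, 2 ≤ H → ∀ m : ℕ, ∀ r ∈ UU, ∀ ξ : ℤ_[7], IsUnit ξ → ∀ L s : ℕ,
      C3 * (L + 1) ≤ s → s ≤ m → ¬ Dp ε L m ξ → TT H s m r ξ (fun _ _ => 1) ≤ 1 - η)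
    {δ : ℝ} (hδ : 0 < δ) :
    ∃ C θ : ℝ, 0 < C ∧ 0 < θ ∧ θ < 1 ∧ ∃ m1 : ℕ, ∀ H, 2 ≤ H → ∀ m, m1 ≤ m → ∀ u : ℝ, 0 ≤ u →
      (∀ m', m ≤ 50 * m' → m' < m → ∀ r' ∈ UU, ∀ ξ' : ℤ_[7], IsUnit ξ' → QQ H m' r' ξ' ≤ u) →
      ∀ r ∈ UU, ∀ ξ : ℤ_[7], IsUnit ξ → QQ H m r ξ ≤ C * θ ^ m + δ * u := by
  obtain ⟨p, hp⟩ : ∃ p : ℕ, (1 - η) ^ p ≤ δ / 2 := by
    have : Filter.Tendsto (fun p : ℕ => (1 - η) ^ p) Filter.atTop (nhds 0) :=
      tendsto_pow_atTop_nhds_zero_of_lt_one (by linarith) (by linarith)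
    obtain ⟨p, hp⟩ := ((this.eventually (gt_mem_nhds (by positivity : (0:ℝ) < δ / 2)))).exists
    exact ⟨p, hp.le⟩
  set P : ℕ := p + 1 with hP
  have hC3' : (1 : ℝ) ≤ C3 := by exact_mod_cast hC3
  have hP1 : (1 : ℝ) ≤ P := by rw [hP]; push_cast; linarith [Nat.cast_nonneg (α := ℝ) p]
  set κ : ℝ := 1 / (200 * P * C3) with hκ
  have hκ0 : 0 < κ := by positivity
  obtain ⟨C, θ, hC, hθ0, hθ1, m1, hD⟩ := deepStep hε0 hε hη0 hη1 hC3 hS hκ0
    (by positivity : (0 : ℝ) < δ / 2)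
  refine ⟨C, √θ, hC, Real.sqrt_pos.mpr hθ0, ?_, 2 * m1 + 400 * P * C3 + 400, ?_⟩
  · rw [Real.sqrt_lt' one_pos]; simpa using hθ1
  intro H hH m hm u hu hyp r hr ξ hξ
  have hm0 : (0 : ℝ) < m := by
    have : 0 < m := by omega
    exact_mod_cast this
  set S : ℕ := C3 * (⌈κ * m⌉₊ + 1) with hSdef
  have hceil : ((⌈κ * m⌉₊ : ℕ) : ℝ) ≤ κ * m + 1 := (Nat.ceil_lt_add_one (by positivity)).le
  have hPS : (P : ℝ) * S ≤ m / 100 := by
    rw [hSdef]; push_cast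
    have h1 : (C3 : ℝ) * ((⌈κ * m⌉₊ : ℝ) + 1) ≤ C3 * (κ * m + 2) :=
      mul_le_mul_of_nonneg_left (by linarith) (by positivity)
    have h2 : (P : ℝ) * (C3 * (κ * m + 2)) = m / 200 + 2 * P * C3 := by
      rw [hκ]; field_simp
    have h3 : (400 * P * C3 + 400 : ℝ) ≤ m := by
      have : 400 * P * C3 + 400 ≤ m := by omega
      exact_mod_cast this
    have h4 := mul_le_mul_of_nonneg_left h1 (by positivity : (0:ℝ) ≤ P)
    nlinarith
  have hPSn : 100 * (P * S) ≤ m := by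
    have : (100 * (P * S) : ℝ) ≤ m := by linarith
    exact_mod_cast this
  have hS1 : 1 ≤ S := by rw [hSdef]; nlinarith [Nat.zero_le (⌈κ * (m:ℝ)⌉₊)]
  -- main claim
  have key : ∀ k : ℕ, k ≤ P → ∀ m' : ℕ, m - (P - k) * S ≤ m' → m' ≤ m → (k = 0 → m' < m) →
      ∀ r' ∈ UU, ∀ ξ' : ℤ_[7], IsUnit ξ' →
        QQ H m' r' ξ' ≤ ((1 - η) ^ k + δ / 2) * u + C * (√θ) ^ m := by
    intro k
    induction k with
    | zero =>
      intro _ m' h1 h2 h3 r' hr' ξ' hξ'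
      have h4 := hyp m' (by
        have : (P - 0) * S = P * S := by simp
        omega) (h3 rfl) r' hr' ξ' hξ'
      have : 0 ≤ δ / 2 * u := by positivity
      have : 0 ≤ C * (√θ) ^ m := by positivity
      nlinarith
    | succ k ih =>
      intro hk m' h1 h2 _ r' hr' ξ' hξ'
      have hPk : (P - (k + 1)) * S + S = (P - k) * S := by
        have : P - k = P - (k + 1) + 1 := by omega
        rw [this]; ring
      have hle : (P - k) * S ≤ P * S := Nat.mul_le_mul_right S (Nat.sub_le P k)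
      have hm'S : S ≤ m' := by omega
      by_cases hdeep : Dp ε ⌈κ * m'⌉₊ m' ξ'
      · have h5 := hD H hH m' (by omega) u hu (by
          intro m'' ha hb r'' hr'' ξ'' hξ''
          exact hyp m'' (by omega) (by omega) r'' hr'' ξ'' hξ'') r' hr' ξ' hξ' hdeep
        have h6 : θ ^ m' ≤ (√θ) ^ m := by
          have : θ = (√θ) ^ 2 := (Real.sq_sqrt hθ0.le).symm
          conv_lhs => rw [this]
          rw [← pow_mul]
          refine pow_le_pow_of_le_one (Real.sqrt_nonneg _) ?_ (by omega)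
          rw [Real.sqrt_le_one]; exact hθ1.le
        have h7 : C * θ ^ m' ≤ C * (√θ) ^ m := mul_le_mul_of_nonneg_left h6 hC.le
        have h8 : 0 ≤ (1 - η) ^ (k + 1) * u := mul_nonneg (pow_nonneg (by linarith) _) hu
        nlinarith
      · have hL : C3 * (⌈κ * m'⌉₊ + 1) ≤ S := by
          rw [hSdef]
          refine Nat.mul_le_mul_left _ (Nat.add_le_add_right (Nat.ceil_le_ceil ?_) 1)
          exact mul_le_mul_of_nonneg_left (by exact_mod_cast h2) hκ0.le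
        have hT := hS H hH m' r' hr' ξ' hξ' ⌈κ * m'⌉₊ S hL hm'S hdeep
        set b := ((1 - η) ^ k + δ / 2) * u + C * (√θ) ^ m with hb
        have hb0 : 0 ≤ b := by
          have : 0 ≤ (1 - η) ^ k := pow_nonneg (by linarith) _
          positivity
        have hq := QQ_le_mul (H := H) (s := S) (m := m') hm'S hr' hξ' (u := b) (by
          intro r'' hr'' ξ'' hξ''
          exact ih (by omega) (m' - S) (by omega) (by omega) (fun _ => by omega) r'' hr'' ξ'' hξ'')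
        refine hq.trans ?_
        have h9 : b * TT H S m' r' ξ' (fun _ _ => 1) ≤ b * (1 - η) :=
          mul_le_mul_of_nonneg_left hT hb0
        refine h9.trans ?_
        have h10 : 0 ≤ C * (√θ) ^ m := by positivity
        have h11 : 0 ≤ δ / 2 * u := by positivity
        rw [hb, pow_succ]
        nlinarith
  have hfin := key P le_rfl m (by simp) le_rfl (fun h => by omega) r hr ξ hξ
  refine hfin.trans ?_
  have hpP : (1 - η) ^ P ≤ δ / 2 := by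
    rw [hP, pow_succ]
    have h0 : 0 ≤ (1 - η) ^ p := pow_nonneg (by linarith) _
    nlinarith
  nlinarith

end Kak
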