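import Pool.Agent.Lib.Kak.Growth
import Pool.Agent.Lib.Kak.KernProb

/-!
# Kak.Mean: mean and variance of `log Wd`

PROOFS.  Let `m n r = Ex H n r (log Wd)`, `g r = ∑_l pr H r l * log (lw l)`.  As `log x ≤ 4 x^(1/4)` one has
`(log x)^2 ≤ 16 √x`, so `∑_l pr H r l (log lw l)^2 ≤ 144` and `0 ≤ g r ≤ 12` (`sqrt_step`).
(a) `m (n+1) r = g r + ∑_l pr H r l * m n (nx r (lw l))`.  Let `o_n = max_{UU} m n - min_{UU} m n`.  As in the proof of
the convergence of the chain (`prob_two`: the state 2 is reached with probability `≥ 1/11`),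
`o_(n+1) ≤ 12 + (10/11) o_n`, so `o_n ≤ 132` for all `n`.  So `|m n r - m n 1| ≤ 132`: `mean_diff`.
(b) `mean_lo`: `m n r - n log 7 ≥ n/6 - C`: Jensen, `Ex (log √(7^n/Wd)) ≤ log Ex √(7^n/Wd)`
(`log x ≤ x/a + log a - 1`, `a = Ex √(7^n/Wd) > 0`) so
`(n log 7 - m n r)/2 ≤ log C + n log (91/100)` and `-2 log (91/100) = .1886 ≥ 1/6`.
`mean_hi`: similarly `m n r / 2 = Ex (log √Wd) ≤ log (9^n)`, so `m n r ≤ 2 n log 9` and
`2 log 9 - log 7 = 2.4485 ≤ 5/2`.
(c) `dd_incr`: `m (n + j) 1 = m n 1 + Ex H n 1 (v ↦ m j (st 1 v))` (`Ex_append`, `Wd_append`), and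
`j/6 - C ≤ m j s - j log 7 ≤ (5/2) j` for all `s ∈ UU`.
(d) `var`: let `V n r = Ex H n r ((log Wd - m n r)^2)`.  Then
`V (n+1) r = ∑_l pr (V n s + (log lw l + m n s - m (n+1) r)^2)`, `s = nx r (lw l)` and
`|m n s - m (n+1) r| ≤ 12 + 132`, so `V (n+1) r ≤ max V n + 2 * 144 + 2 * 144^2`; hence `V n r ≤ C n`.
And `(log Wd - n log 7 - dd H n)^2 ≤ 2 (log Wd - m n r)^2 + 2 * 132^2`.
-/

open Finset

namespace Kak

namespace MeanAux

/-- the mean of `log Wd` -/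
noncomputable def mm (H n : ℕ) (r : ZMod 15) : ℝ := Ex H n r (fun v => Real.log (Wd v))

theorem log_nonneg' {w : ℕ} (hw : 0 < w) : 0 ≤ Real.log (w : ℝ) :=
  Real.log_nonneg (by exact_mod_cast hw)

theorem log_sq_le {w : ℕ} (hw : 0 < w) : Real.log (w : ℝ) ^ 2 ≤ 16 * √(w : ℝ) := by
  have hw' : (0 : ℝ) < w := by exact_mod_cast hw
  have h0 : 0 < √(w : ℝ) := Real.sqrt_pos.mpr hw'
  have h1 : 0 < √√(w : ℝ) := Real.sqrt_pos.mpr h0
  have h2 : Real.log (√√(w : ℝ)) = Real.log (w : ℝ) / 4 := by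
    rw [Real.log_sqrt h0.le, Real.log_sqrt hw'.le]; ring
  have h3 : Real.log (√√(w : ℝ)) ≤ √√(w : ℝ) - 1 := Real.log_le_sub_one_of_pos h1
  have h4 : Real.log (w : ℝ) ≤ 4 * √√(w : ℝ) := by linarith
  have h5 : (√√(w : ℝ)) ^ 2 = √(w : ℝ) := Real.sq_sqrt h0.le
  calc Real.log (w : ℝ) ^ 2 ≤ (4 * √√(w : ℝ)) ^ 2 :=
        pow_le_pow_left₀ (log_nonneg' hw) h4 2
    _ = 16 * √(w : ℝ) := by rw [mul_pow, h5]; norm_num

theorem sum_log_sq {H : ℕ} (hH : 2 ≤ H) {r : ZMod 15} (hr : r ∈ UU) :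
    ∑ l ∈ LS H, pr H r l * Real.log (lw l) ^ 2 ≤ 144 := by
  have h := sqrt_step hH hr
  calc ∑ l ∈ LS H, pr H r l * Real.log (lw l) ^ 2
      ≤ ∑ l ∈ LS H, 16 * (pr H r l * √(lw l : ℝ)) := by
        refine Finset.sum_le_sum fun l _ => ?_
        have := mul_le_mul_of_nonneg_left (log_sq_le (lw_pos l)) (pr_nonneg H r l)
        linarith
    _ = 16 * ∑ l ∈ LS H, pr H r l * √(lw l : ℝ) := by rw [Finset.mul_sum]
    _ ≤ 144 := by linarith

theorem sum_log_nonneg (H : ℕ) (r : ZMod 15) :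
    0 ≤ ∑ l ∈ LS H, pr H r l * Real.log (lw l) :=
  Finset.sum_nonneg fun l _ => mul_nonneg (pr_nonneg _ _ _) (log_nonneg' (lw_pos l))

theorem sum_log_le {H : ℕ} (hH : 2 ≤ H) {r : ZMod 15} (hr : r ∈ UU) :
    ∑ l ∈ LS H, pr H r l * Real.log (lw l) ≤ 12 := by
  have h := sum_log_sq hH hr
  have h1 := pr_sum hH hr
  have h2 : ∑ l ∈ LS H, pr H r l * Real.log (lw l)
      ≤ ∑ l ∈ LS H, (1 / 24 * (pr H r l * Real.log (lw l) ^ 2) + 6 * pr H r l) := by
    refine Finset.sum_le_sum fun l _ => ?_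
    have h3 := pr_nonneg H r l
    nlinarith [mul_nonneg h3 (sq_nonneg (Real.log (lw l : ℝ) - 12))]
  rw [Finset.sum_add_distrib, ← Finset.mul_sum, ← Finset.mul_sum, h1] at h2
  linarith

theorem log_Wd_cons (l : Lt) (v : List Lt) :
    Real.log (Wd (l :: v) : ℝ) = Real.log (lw l) + Real.log (Wd v) := by
  have h1 : ((lw l : ℕ) : ℝ) ≠ 0 := by exact_mod_cast (lw_pos l).ne'
  have h2 : ((Wd v : ℕ) : ℝ) ≠ 0 := by exact_mod_cast (Wd_pos v).ne'
  rw [← Real.log_mul h1 h2]; simp [Wd]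

theorem log_Wd_append (v u : List Lt) :
    Real.log (Wd (v ++ u) : ℝ) = Real.log (Wd v) + Real.log (Wd u) := by
  have h1 : ((Wd v : ℕ) : ℝ) ≠ 0 := by exact_mod_cast (Wd_pos v).ne'
  have h2 : ((Wd u : ℕ) : ℝ) ≠ 0 := by exact_mod_cast (Wd_pos u).ne'
  rw [← Real.log_mul h1 h2, Wd_append]; push_cast; rfl

theorem mm_zero (H : ℕ) (r : ZMod 15) : mm H 0 r = 0 := by
  simp [mm, Ex_zero, Wd]

theorem mm_succ {H : ℕ} (hH : 2 ≤ H) (n : ℕ) (r : ZMod 15) :
    mm H (n + 1) r = ∑ l ∈ LS H, pr H r l * Real.log (lw l) +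
      ∑ l ∈ LS H, pr H r l * mm H n (nx r (lw l)) := by
  unfold mm
  rw [Ex_succ, ← Finset.sum_add_distrib]
  refine Finset.sum_congr rfl fun l _ => ?_
  rw [smul_eq_mul, ← mul_add]
  by_cases hl : nx r (lw l) ∈ UU
  · congr 1
    simp_rw [log_Wd_cons]
    rw [Ex_add, Ex_const hH n hl]
  · rw [pr_eq_zero hl]; simp

/-- the average of `f (next state)` -/
theorem avg_le {H : ℕ} (hH : 2 ≤ H) {r : ZMod 15} (hr : r ∈ UU) (f : ZMod 15 → ℝ) {M : ℝ}
    (hM : ∀ s ∈ UU, f s ≤ M) :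
    ∑ l ∈ LS H, pr H r l * f (nx r (lw l)) ≤ 1 / 11 * f 2 + 10 / 11 * M := by
  have h2 := prob_two hH hr
  have h1 := pr_sum hH hr
  have h2U : (2 : ZMod 15) ∈ UU := by decide
  have hterm : ∀ l ∈ LS H, pr H r l * f (nx r (lw l)) ≤
      pr H r l * M + (if nx r (lw l) = 2 then pr H r l else 0) * (f 2 - M) := by
    intro l _
    by_cases hl : nx r (lw l) ∈ UU
    · have h3 := pr_nonneg H r l
      by_cases h4 : nx r (lw l) = 2
      · rw [if_pos h4, h4]; apply le_of_eq; ring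
      · rw [if_neg h4]
        have := mul_le_mul_of_nonneg_left (hM _ hl) h3
        linarith
    · rw [pr_eq_zero hl]; simp
  have h5 := Finset.sum_le_sum hterm
  rw [Finset.sum_add_distrib, ← Finset.sum_mul, ← Finset.sum_mul, h1, ← Finset.sum_filter] at h5
  have h6 : f 2 - M ≤ 0 := by linarith [hM 2 h2U]
  nlinarith

theorem le_avg {H : ℕ} (hH : 2 ≤ H) {r : ZMod 15} (hr : r ∈ UU) (f : ZMod 15 → ℝ) {M : ℝ}
    (hM : ∀ s ∈ UU, M ≤ f s) :
    1 / 11 * f 2 + 10 / 11 * M ≤ ∑ l ∈ LS H, pr H r l * f (nx r (lw l)) := by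
  have h := avg_le hH hr (fun s => - f s) (M := - M) (fun s hs => by linarith [hM s hs])
  have h2 : ∑ l ∈ LS H, pr H r l * (fun s => - f s) (nx r (lw l)) =
      - ∑ l ∈ LS H, pr H r l * f (nx r (lw l)) := by
    rw [← Finset.sum_neg_distrib]
    exact Finset.sum_congr rfl fun l _ => by ring
  rw [h2] at h
  linarith

theorem UU_ne : UU.Nonempty := ⟨1, by decide⟩

theorem osc {H : ℕ} (hH : 2 ≤ H) (n : ℕ) : ∀ r ∈ UU, ∀ s ∈ UU, mm H n r - mm H n s ≤ 132 := by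
  induction n with
  | zero => intro r _ s _; rw [mm_zero, mm_zero]; norm_num
  | succ n ih =>
    intro r hr s hs
    obtain ⟨a, ha, ha'⟩ := Finset.exists_max_image UU (mm H n) UU_ne
    obtain ⟨b, hb, hb'⟩ := Finset.exists_min_image UU (mm H n) UU_ne
    have h1 := avg_le hH hr (mm H n) ha'
    have h2 := le_avg hH hs (mm H n) hb'
    have h3 := ih a ha b hb
    have h4 := sum_log_le hH hr
    have h5 := sum_log_nonneg H s
    rw [mm_succ hH, mm_succ hH]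
    linarith

theorem osc_abs {H : ℕ} (hH : 2 ≤ H) (n : ℕ) {r s : ZMod 15} (hr : r ∈ UU) (hs : s ∈ UU) :
    |mm H n r - mm H n s| ≤ 132 := by
  rw [abs_le]
  exact ⟨by linarith [osc hH n s hs r hr], osc hH n r hr s hs⟩

theorem step_diff {H : ℕ} (hH : 2 ≤ H) (n : ℕ) {r s : ZMod 15} (hr : r ∈ UU) (hs : s ∈ UU) :
    |mm H n s - mm H (n + 1) r| ≤ 144 := by
  rw [mm_succ hH]
  have h4 := sum_log_le hH hr
  have h5 := sum_log_nonneg H r
  have h1 := pr_sum hH hr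
  have h2 : |mm H n s - ∑ l ∈ LS H, pr H r l * mm H n (nx r (lw l))| ≤ 132 := by
    have h3 : mm H n s - ∑ l ∈ LS H, pr H r l * mm H n (nx r (lw l)) =
        ∑ l ∈ LS H, pr H r l * (mm H n s - mm H n (nx r (lw l))) := by
      simp_rw [mul_sub]
      rw [Finset.sum_sub_distrib, ← Finset.sum_mul, h1, one_mul]
    rw [h3]
    refine (Finset.abs_sum_le_sum_abs _ _).trans ?_
    calc ∑ l ∈ LS H, |pr H r l * (mm H n s - mm H n (nx r (lw l)))|
        ≤ ∑ l ∈ LS H, pr H r l * 132 := by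
          refine Finset.sum_le_sum fun l _ => ?_
          rw [abs_mul, abs_of_nonneg (pr_nonneg H r l)]
          by_cases hl : nx r (lw l) ∈ UU
          · exact mul_le_mul_of_nonneg_left (osc_abs hH n hs hl) (pr_nonneg _ _ _)
          · rw [pr_eq_zero hl]; simp
      _ = 132 := by rw [← Finset.sum_mul, h1, one_mul]
  rw [abs_le] at h2 ⊢
  constructor <;> linarith [h2.1, h2.2]

theorem mean_sqrt {H : ℕ} (hH : 2 ≤ H) (n : ℕ) {r : ZMod 15} (hr : r ∈ UU) {x : List Lt → ℝ}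
    {A : ℝ} (hA : 0 < A) (hx : ∀ v, 0 < x v) (h : Ex H n r x ≤ A) :
    Ex H n r (fun v => Real.log (x v)) ≤ Real.log A := by
  have h1 : ∀ v, Real.log (x v) ≤ A⁻¹ * x v + (Real.log A - 1) := by
    intro v
    have h2 := Real.log_le_sub_one_of_pos (div_pos (hx v) hA)
    rw [Real.log_div (hx v).ne' hA.ne', div_eq_inv_mul] at h2
    linarith
  have h3 := Ex_mono H n r (f := fun v => Real.log (x v))
    (g := fun v => A⁻¹ * x v + (Real.log A - 1)) (fun v _ _ => h1 v)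
  rw [Ex_add, Ex_mul_left, Ex_const hH n hr] at h3
  have h4 : A⁻¹ * Ex H n r x ≤ 1 := by
    calc A⁻¹ * Ex H n r x ≤ A⁻¹ * A := mul_le_mul_of_nonneg_left h (inv_nonneg.mpr hA.le)
      _ = 1 := inv_mul_cancel₀ hA.ne'
  linarith

theorem mean_lo : ∃ C : ℝ, 0 ≤ C ∧ ∀ H, 2 ≤ H → ∀ n : ℕ, ∀ r ∈ UU,
    (n : ℝ) / 6 - C ≤ mm H n r - n * Real.log 7 := by
  obtain ⟨C, hC, hg⟩ := growth_half
  refine ⟨2 * Real.log C, mul_nonneg zero_le_two (Real.log_nonneg hC), ?_⟩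
  intro H hH n r hr
  have h1 := hg H hH n r hr
  have hC0 : 0 < C := lt_of_lt_of_le one_pos hC
  have hA : 0 < C * (91 / 100 : ℝ) ^ n := by positivity
  have hWp : ∀ v, (0 : ℝ) < Wd v := fun v => by exact_mod_cast Wd_pos v
  have h2 := mean_sqrt hH n hr hA
    (fun v => Real.sqrt_pos.mpr (div_pos (pow_pos (by norm_num : (0:ℝ) < 7) n) (hWp v))) h1
  have h3 : ∀ v : List Lt, Real.log (√((7 : ℝ) ^ n / Wd v)) =
      (n * Real.log 7) / 2 - (1 / 2) * Real.log (Wd v) := by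
    intro v
    rw [Real.log_sqrt (div_pos (pow_pos (by norm_num : (0:ℝ) < 7) n) (hWp v)).le,
      Real.log_div (pow_pos (by norm_num : (0:ℝ) < 7) n).ne' (hWp v).ne', Real.log_pow]
    ring
  simp_rw [h3] at h2
  rw [Ex_sub, Ex_const hH n hr, Ex_mul_left] at h2
  rw [Real.log_mul hC0.ne' (by positivity), Real.log_pow] at h2
  have h4 : Real.log (91 / 100 : ℝ) ≤ - (1 / 12) := by
    have := Real.log_le_sub_one_of_pos (by norm_num : (0 : ℝ) < 91 / 100)
    linarith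
  have h5 : (n : ℝ) * Real.log (91 / 100 : ℝ) ≤ n * (-(1 / 12)) :=
    mul_le_mul_of_nonneg_left h4 (Nat.cast_nonneg n)
  unfold mm
  linarith

theorem mean_hi {H : ℕ} (hH : 2 ≤ H) (n : ℕ) {r : ZMod 15} (hr : r ∈ UU) :
    mm H n r - n * Real.log 7 ≤ 5 / 2 * n := by
  have h1 := sqrtW hH n hr
  have hWp : ∀ v, (0 : ℝ) < Wd v := fun v => by exact_mod_cast Wd_pos v
  have h2 := mean_sqrt hH n hr (pow_pos (by norm_num : (0:ℝ) < 9) n)
    (fun v => Real.sqrt_pos.mpr (hWp v)) h1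
  have h3 : ∀ v : List Lt, Real.log (√(Wd v : ℝ)) = (1 / 2) * Real.log (Wd v) := by
    intro v
    rw [Real.log_sqrt (hWp v).le]; ring
  simp_rw [h3] at h2
  rw [Ex_mul_left, Real.log_pow] at h2
  have h4 : 2 * Real.log 9 - Real.log 7 ≤ 5 / 2 := by
    have h5 : 2 * (2 * Real.log 9 - Real.log 7) = Real.log ((81 / 7) ^ 2) := by
      rw [Real.log_pow, Real.log_div (by norm_num) (by norm_num),
        show (81 : ℝ) = 9 ^ 2 from by norm_num, Real.log_pow]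
      push_cast; ring
    have h6 : Real.log ((81 / 7 : ℝ) ^ 2) ≤ 5 := by
      rw [Real.log_le_iff_le_exp (by positivity)]
      have h7 : Real.exp 5 = Real.exp 1 ^ 5 := by
        rw [← Real.exp_nat_mul]; norm_num
      rw [h7]
      have h8 := Real.exp_one_gt_d9
      calc (81 / 7 : ℝ) ^ 2 ≤ (2.7182818283 : ℝ) ^ 5 := by norm_num
        _ ≤ Real.exp 1 ^ 5 := pow_le_pow_left₀ (by norm_num) h8.le 5
    linarith
  have h5 : (n : ℝ) * (2 * Real.log 9 - Real.log 7) ≤ n * (5 / 2) :=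
    mul_le_mul_of_nonneg_left h4 (Nat.cast_nonneg n)
  unfold mm
  linarith

theorem var {H : ℕ} (hH : 2 ≤ H) (n : ℕ) : ∀ r ∈ UU,
    Ex H n r (fun v => (Real.log (Wd v) - mm H n r) ^ 2) ≤ 41760 * n := by
  induction n with
  | zero =>
    intro r _
    rw [Ex_zero, mm_zero]; simp [Wd]
  | succ n ih =>
    intro r hr
    rw [Ex_succ]
    have hterm : ∀ l ∈ LS H, pr H r l • Ex H n (nx r (lw l))
        (fun v => (Real.log (Wd (l :: v)) - mm H (n + 1) r) ^ 2) ≤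
        pr H r l * (41760 * n + 2 * 144 ^ 2) + 2 * (pr H r l * Real.log (lw l) ^ 2) := by
      intro l _
      by_cases hl : nx r (lw l) ∈ UU
      · set s := nx r (lw l) with hs
        set c : ℝ := mm H n s - mm H (n + 1) r with hc
        have h1 : ∀ v : List Lt, (Real.log (Wd (l :: v)) - mm H (n + 1) r) ^ 2 =
            (Real.log (Wd v) - mm H n s) ^ 2 +
              (2 * (Real.log (lw l) + c)) * (Real.log (Wd v) - mm H n s) +
              (Real.log (lw l) + c) ^ 2 := by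
          intro v
          rw [log_Wd_cons, hc]; ring
        simp_rw [h1]
        rw [Ex_add, Ex_add, Ex_mul_left, Ex_sub, Ex_const hH n hl, Ex_const hH n hl]
        have h2 : Ex H n s (fun v => Real.log (Wd v)) = mm H n s := rfl
        rw [h2, sub_self, mul_zero, add_zero, smul_eq_mul]
        have h3 := ih s hl
        have h4 := step_diff hH n hr hl
        rw [← hc] at h4
        have h5 : c ^ 2 ≤ 144 ^ 2 := by
          rw [← sq_abs]; exact pow_le_pow_left₀ (abs_nonneg c) h4 2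
        have h6 : (Real.log (lw l) + c) ^ 2 ≤ 2 * Real.log (lw l) ^ 2 + 2 * 144 ^ 2 := by
          nlinarith [sq_nonneg (Real.log (lw l : ℝ) - c)]
        have h7 := pr_nonneg H r l
        have h8 := mul_le_mul_of_nonneg_left (add_le_add h3 h6) h7
        linarith
      · rw [pr_eq_zero hl]; simp
    refine (Finset.sum_le_sum hterm).trans ?_
    rw [Finset.sum_add_distrib, ← Finset.sum_mul, ← Finset.mul_sum, pr_sum hH hr]
    have := sum_log_sq hH hr
    push_cast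
    linarith

theorem dd_eq (H n : ℕ) : dd H n = mm H n 1 - n * Real.log 7 := rfl

theorem one_mem : (1 : ZMod 15) ∈ UU := by decide

end MeanAux

open MeanAux

theorem mean_diff : ∃ C : ℝ, 0 ≤ C ∧ ∀ H, 2 ≤ H → ∀ n : ℕ, ∀ r ∈ UU,
    |Ex H n r (fun v => Real.log (Wd v)) - n * Real.log 7 - dd H n| ≤ C := by
  refine ⟨132, by norm_num, ?_⟩
  intro H hH n r hr
  have h := osc_abs hH n hr one_mem
  rw [dd_eq]
  have h1 : Ex H n r (fun v => Real.log (Wd v)) - n * Real.log 7 -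
      (mm H n 1 - n * Real.log 7) = mm H n r - mm H n 1 := by
    unfold mm; ring
  rw [h1]; exact h

theorem var_bound : ∃ C : ℝ, 0 ≤ C ∧ ∀ H, 2 ≤ H → ∀ n : ℕ, ∀ r ∈ UU,
    Ex H n r (fun v => (Real.log (Wd v) - n * Real.log 7 - dd H n) ^ 2) ≤ C * (n + 1) := by
  refine ⟨83520, by norm_num, ?_⟩
  intro H hH n r hr
  have h := var hH n r hr
  have h0 := osc_abs hH n hr one_mem
  have h1 : (mm H n r - mm H n 1) ^ 2 ≤ 132 ^ 2 := by
    rw [← sq_abs]; exact pow_le_pow_left₀ (abs_nonneg _) h0 2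
  have h2 : ∀ v : List Lt, (Real.log (Wd v) - n * Real.log 7 - dd H n) ^ 2 ≤
      2 * (Real.log (Wd v) - mm H n r) ^ 2 + 2 * 132 ^ 2 := by
    intro v
    rw [dd_eq]
    nlinarith [sq_nonneg ((Real.log (Wd v : ℝ) - mm H n r) - (mm H n r - mm H n 1))]
  have h3 := Ex_mono H n r (f := fun v => (Real.log (Wd v) - n * Real.log 7 - dd H n) ^ 2)
    (g := fun v => 2 * (Real.log (Wd v) - mm H n r) ^ 2 + 2 * 132 ^ 2) (fun v _ _ => h2 v)
  rw [Ex_add, Ex_mul_left, Ex_const hH n hr] at h3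
  linarith

theorem dd_incr : ∃ C : ℝ, 0 ≤ C ∧ ∀ H, 2 ≤ H → ∀ n j : ℕ,
    (j : ℝ) / 6 - C ≤ dd H (n + j) - dd H n ∧ dd H (n + j) - dd H n ≤ 5 / 2 * j + C := by
  obtain ⟨C, hC, hlo⟩ := mean_lo
  refine ⟨C, hC, ?_⟩
  intro H hH n j
  have h1 : mm H (n + j) 1 = mm H n 1 + Ex H n 1 (fun v => mm H j (st 1 v)) := by
    unfold mm
    rw [Ex_append, ← Ex_add]
    refine Ex_congr H n 1 fun v _ hv' => ?_
    simp_rw [log_Wd_append]
    rw [Ex_add, Ex_const hH j (st_mem v 1 one_mem hv')]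
  have h2 : dd H (n + j) - dd H n = Ex H n 1 (fun v => mm H j (st 1 v)) - j * Real.log 7 := by
    rw [dd_eq, dd_eq, h1]; push_cast; ring
  rw [h2]
  have h3 : (j : ℝ) / 6 - C + j * Real.log 7 ≤ Ex H n 1 (fun v => mm H j (st 1 v)) :=
    const_le_Ex hH n one_mem fun v _ hv' => by
      have := hlo H hH j (st 1 v) (st_mem v 1 one_mem hv')
      linarith
  have h4 : Ex H n 1 (fun v => mm H j (st 1 v)) ≤ 5 / 2 * j + j * Real.log 7 :=
    Ex_le_const hH n one_mem fun v _ hv' => by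
      have := mean_hi hH j (st_mem v 1 one_mem hv')
      linarith
  constructor <;> linarith

end Kak
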