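import Pool.Agent.Lib.Kak.Pars
import Pool.Agent.Lib.Kak.ClassBd

/-!
# Kak.OscClass: the `L^2` estimate over the classes

PROOF.  Put `K = 24n/25` and let `𝒦` be the set of `κ = (k, a, b, c, s)` with `k ∈ Icc 1 K`,
`a, b, c ∈ range (3n+1)`, `s ∈ UU`; `R = |𝒦| ≤ 8 n (3n+1)^3 ≤ 512 n^4`.  For `κ ∈ 𝒦` and `Y : ZMod (7^n)` let
`g_κ(Y) = PP H k r {v | v ∈ SK n k ∧ Wd v = 2^a 3^b 5^c ∧ st r v = s ∧ toZModPow n (Fp v) = Y}`, and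
`g_κ^(ξ) = ∑_Y g_κ(Y) stdAddChar(ξ Y)`.  An admissible word `v ∈ SK n k` of length `k` has
`Wd v = 2^(ea v) 3^(eb v) 5^(ec v) ≤ 7^n < 2^(3n)` (`v.take k = v`), so it belongs to exactly one class, and
the vector in the statement (for `ξ`) is `∑_κ g_κ^(ξ) c k (2^a 3^b 5^c) s ξ`
(`ph n (ξ.val Fp v) = stdAddChar(ξ * toZModPow n (Fp v))`).  By Cauchy-Schwarz its square norm is
`≤ R β^2 ∑_κ ‖g_κ^(ξ)‖^2` (the bound on `c` is only needed for `7 ∤ W`, `s ∈ UU`, `1 ≤ k ≤ K`).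
By `parseval`, `∑_{all ξ} ‖g_κ^(ξ)‖^2 = 7^n ∑_Y g_κ(Y)^2 ≤ 7^n (max g_κ) ∑_Y g_κ(Y) ≤ 7^n max g_κ`.  If some
`g_κ(Y) ≠ 0` then `W = 2^a 3^b 5^c` satisfies `W ≤ 7^n ≤ W n^13`, and `g_κ(Y) ≤ 2/W ≤ 2 n^13/7^n` by `classBd`
(`v ∈ SK n k` implies `Gd v < 7^n`).  So `∑_ξ ‖g_κ^(ξ)‖^2 ≤ 2 n^13`, and the total is
`≤ R β^2 R 2 n^13 ≤ 2 * 512^2 n^21 β^2 ≤ (1024 n^11 β)^2`.
-/

open Finset

namespace Kak

namespace OscClassAux

/-- the set of possible products -/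
def WW (n : ℕ) : Finset ℕ :=
  ((range (3 * n + 1)) ×ˢ ((range (3 * n + 1)) ×ˢ (range (3 * n + 1)))).image
    (fun e => 2 ^ e.1 * 3 ^ e.2.1 * 5 ^ e.2.2)

theorem card_WW (n : ℕ) : (WW n).card ≤ (3 * n + 1) ^ 3 := by
  refine Finset.card_image_le.trans ?_
  rw [card_product, card_product, card_range]
  exact le_of_eq (by ring)

theorem not_dvd_of_mem {n W : ℕ} (h : W ∈ WW n) : ¬ 7 ∣ W := by
  unfold WW at h
  rw [Finset.mem_image] at h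
  obtain ⟨e, _, rfl⟩ := h
  have hp : Nat.Prime 7 := by norm_num
  intro h
  rcases (Nat.Prime.dvd_mul hp).1 h with h | h
  · rcases (Nat.Prime.dvd_mul hp).1 h with h | h
    · exact absurd (hp.dvd_of_dvd_pow h) (by norm_num)
    · exact absurd (hp.dvd_of_dvd_pow h) (by norm_num)
  · exact absurd (hp.dvd_of_dvd_pow h) (by norm_num)

theorem exp_lt {q n a : ℕ} (hq : 2 ≤ q) (h : q ^ a ≤ 7 ^ n) : a < 3 * n + 1 := by
  have h1 : 2 ^ a ≤ q ^ a := Nat.pow_le_pow_left hq a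
  have h2 : (7 : ℕ) ^ n ≤ 2 ^ (3 * n) := by
    rw [pow_mul]; exact Nat.pow_le_pow_left (by norm_num) n
  have := (Nat.pow_le_pow_iff_right (by norm_num : 1 < 2)).1 (h1.trans (h.trans h2))
  omega

theorem mem_WW {n : ℕ} {v : List Lt} (h : Wd v ≤ 7 ^ n) : Wd v ∈ WW n := by
  unfold WW
  rw [Finset.mem_image]
  refine ⟨(ea v, eb v, ec v), ?_, (Wd_eq v).symm⟩
  rw [Finset.mem_product, Finset.mem_product, Finset.mem_range, Finset.mem_range, Finset.mem_range]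
  have hp := Wd_pos v
  refine ⟨exp_lt (q := 2) le_rfl ?_, exp_lt (q := 3) (by norm_num) ?_, exp_lt (q := 5) (by norm_num) ?_⟩
  · exact (Nat.le_of_dvd hp (by rw [Wd_eq, mul_assoc]; exact dvd_mul_right _ _)).trans h
  · exact (Nat.le_of_dvd hp (by rw [Wd_eq]; exact Dvd.dvd.mul_right (dvd_mul_left _ _) _)).trans h
  · exact (Nat.le_of_dvd hp (by rw [Wd_eq]; exact dvd_mul_left _ _)).trans h

/-- the classes -/
def KC (n : ℕ) : Finset (ℕ × (ℕ × ZMod 15)) := Icc 1 (24 * n / 25) ×ˢ (WW n ×ˢ UU)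

theorem card_KC {n : ℕ} (hn : 1 ≤ n) : ((KC n).card : ℝ) ≤ 512 * (n : ℝ) ^ 4 := by
  have h1 : (KC n).card ≤ n * ((3 * n + 1) ^ 3 * 8) := by
    unfold KC
    rw [card_product, card_product, Nat.card_Icc]
    have hu : UU.card = 8 := by decide
    rw [hu]
    refine Nat.mul_le_mul (by omega) (Nat.mul_le_mul (card_WW n) le_rfl)
  have h2 : n * ((3 * n + 1) ^ 3 * 8) ≤ n * ((4 * n) ^ 3 * 8) :=
    Nat.mul_le_mul le_rfl (Nat.mul_le_mul (Nat.pow_le_pow_left (by omega) 3) le_rfl)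
  have h3 : n * ((4 * n) ^ 3 * 8) = 512 * n ^ 4 := by ring
  exact_mod_cast (h1.trans h2).trans h3.le

/-- the event of a class -/
def EV (n : ℕ) (r : ZMod 15) (κ : ℕ × (ℕ × ZMod 15)) (Y : ZMod (7 ^ n)) : Set (List Lt) :=
  {v | v ∈ SK n κ.1 ∧ Wd v = κ.2.1 ∧ st r v = κ.2.2 ∧ PadicInt.toZModPow n (Fp v) = Y}

/-- the mass of a class -/
noncomputable def gg (H n : ℕ) (r : ZMod 15) (κ : ℕ × (ℕ × ZMod 15)) (Y : ZMod (7 ^ n)) : ℝ :=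
  PP H κ.1 r (EV n r κ Y)

theorem gg_nonneg (H n : ℕ) (r : ZMod 15) (κ : ℕ × (ℕ × ZMod 15)) (Y : ZMod (7 ^ n)) :
    0 ≤ gg H n r κ Y := PP_nonneg _ _ _ _

theorem take_len {v : List Lt} {k : ℕ} (h : v.length = k) : v.take k = v := by
  rw [← h]; exact List.take_length

theorem gg_le {H n : ℕ} (hH : 2 ≤ H) (hn1 : 1 ≤ n) (hn : n ≤ H) {r : ZMod 15} (hr : r ∈ UU)
    (κ : ℕ × (ℕ × ZMod 15)) (Y : ZMod (7 ^ n)) :
    gg H n r κ Y ≤ 2 * (n : ℝ) ^ 13 / 7 ^ n := by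
  classical
  by_cases hex : ∃ v : List Lt, v.length = κ.1 ∧ Ok H r v ∧ v ∈ EV n r κ Y
  · obtain ⟨v, hl, hok, hS, hW, hs, hY⟩ := hex
    obtain ⟨_, h2, h3, h4⟩ := hS
    rw [take_len hl] at h2 h3 h4
    rw [hW] at h2 h3
    have hW0 : 0 < κ.2.1 := hW ▸ Wd_pos v
    have h5 : gg H n r κ Y ≤ 2 / (κ.2.1 : ℝ) := by
      refine (PP_mono H κ.1 r fun u hu _ huE => ?_).trans (classBd hH hn hW0 h3 hr Y)
      obtain ⟨⟨_, _, _, g4⟩, g5, _, g7⟩ := huE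
      rw [take_len hu] at g4
      exact ⟨g5, g4, g7⟩
    refine h5.trans ?_
    have hWp : (0 : ℝ) < κ.2.1 := by exact_mod_cast hW0
    rw [div_le_div_iff₀ hWp (by positivity)]
    have h6 : (7 : ℝ) ^ n ≤ (κ.2.1 : ℝ) * (n : ℝ) ^ 13 := by exact_mod_cast h2
    nlinarith
  · have h0 : gg H n r κ Y ≤ PP H κ.1 r ∅ :=
      PP_mono H κ.1 r fun v hv hv' hvS => (hex ⟨v, hv, hv', hvS⟩).elim
    have h1 : PP H κ.1 r ∅ = 0 := by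
      unfold PP
      rw [Set.indicator_empty']
      exact Ex_zero_fun H κ.1 r
    refine h0.trans (h1.le.trans ?_)
    positivity

theorem sum_gg_le {H n : ℕ} (hH : 2 ≤ H) {r : ZMod 15} (hr : r ∈ UU)
    (κ : ℕ × (ℕ × ZMod 15)) :
    ∑ Y : ZMod (7 ^ n), gg H n r κ Y ≤ 1 := by
  have : NeZero (7 ^ n) := ⟨by positivity⟩
  refine (sum_PP_le (H := H) κ.1 r Finset.univ (EV n r κ) Set.univ ?_ ?_).trans
    (PP_le_one hH κ.1 hr _)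
  · intro v _ _ i _ j _ hi hj
    exact hi.2.2.2.symm.trans hj.2.2.2
  · intro v _ _ i _ _
    exact Set.mem_univ _

/-- the transform of a class -/
noncomputable def GG (H n : ℕ) (r : ZMod 15) (κ : ℕ × (ℕ × ZMod 15)) (ξ : ZMod (7 ^ n)) : ℂ :=
  ∑ Y : ZMod (7 ^ n), (gg H n r κ Y : ℂ) * ZMod.stdAddChar (ξ * Y)

theorem sum_GG_le {H n : ℕ} (hH : 2 ≤ H) (hn1 : 1 ≤ n) (hn : n ≤ H) {r : ZMod 15} (hr : r ∈ UU)
    (κ : ℕ × (ℕ × ZMod 15)) :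
    ∑ ξ : ZMod (7 ^ n), ‖GG H n r κ ξ‖ ^ 2 ≤ 2 * (n : ℝ) ^ 13 := by
  have : NeZero (7 ^ n) := ⟨by positivity⟩
  unfold GG
  rw [parseval]
  have h1 : ∑ Y : ZMod (7 ^ n), gg H n r κ Y ^ 2 ≤
      2 * (n : ℝ) ^ 13 / 7 ^ n * ∑ Y : ZMod (7 ^ n), gg H n r κ Y := by
    rw [Finset.mul_sum]
    refine Finset.sum_le_sum fun Y _ => ?_
    rw [sq]
    exact mul_le_mul_of_nonneg_right (gg_le hH hn1 hn hr κ Y) (gg_nonneg H n r κ Y)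
  have h2 := sum_gg_le (n := n) hH hr κ
  have h3 : 2 * (n : ℝ) ^ 13 / 7 ^ n * ∑ Y : ZMod (7 ^ n), gg H n r κ Y ≤
      2 * (n : ℝ) ^ 13 / 7 ^ n * 1 :=
    mul_le_mul_of_nonneg_left h2 (by positivity)
  have h4 : ((7 ^ n : ℕ) : ℝ) * ∑ Y : ZMod (7 ^ n), gg H n r κ Y ^ 2 ≤
      ((7 ^ n : ℕ) : ℝ) * (2 * (n : ℝ) ^ 13 / 7 ^ n * 1) :=
    mul_le_mul_of_nonneg_left (h1.trans h3) (by positivity)
  refine h4.trans (le_of_eq ?_)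
  push_cast
  field_simp

theorem ph_eq {n : ℕ} (ξ : ZMod (7 ^ n)) (x : ℤ_[7]) :
    ph n (((ξ.val : ℕ) : ℤ_[7]) * x) = ZMod.stdAddChar (ξ * PadicInt.toZModPow n x) := by
  have : NeZero (7 ^ n) := ⟨by positivity⟩
  unfold ph
  rw [map_mul, map_natCast, ZMod.natCast_zmod_val]

/-- real expectations as complex ones -/
theorem Ex_ofReal (H k : ℕ) (r : ZMod 15) (f : List Lt → ℝ) :
    ((Ex H k r f : ℝ) : ℂ) = Ex H k r (fun v => (f v : ℂ)) := by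
  have h := Ex_map (E := ℝ) (F := ℂ) H k r Complex.ofRealLI.toLinearMap f
  exact h

theorem Ex_cmul (H k : ℕ) (r : ZMod 15) (z : ℂ) (f : List Lt → ℂ) :
    Ex H k r (fun v => f v * z) = Ex H k r f * z := by
  have h := Ex_map (E := ℂ) (F := ℂ) H k r (LinearMap.mulRight ℝ z) f
  exact h.symm

open Classical in
theorem vec_eq {H n k : ℕ} {r : ZMod 15} (hr : r ∈ UU)
    (c : ℕ → ZMod 15 → ℂ) (ξ : ZMod (7 ^ n)) :
    Ex H k r ((SK n k).indicator (fun v => ph n (((ξ.val : ℕ) : ℤ_[7]) * Fp v) * c (Wd v) (st r v))) =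
      ∑ κ ∈ WW n ×ˢ UU, GG H n r (k, κ) ξ * c κ.1 κ.2 := by
  have : NeZero (7 ^ n) := ⟨by positivity⟩
  have h1 : ∀ κ ∈ WW n ×ˢ UU, GG H n r (k, κ) ξ * c κ.1 κ.2 =
      Ex H k r (fun v => ∑ Y : ZMod (7 ^ n),
        (((EV n r (k, κ) Y).indicator (fun _ => (1 : ℝ)) v : ℝ) : ℂ) *
          (ZMod.stdAddChar (ξ * Y) * c κ.1 κ.2)) := by
    intro κ _
    rw [Ex_sum]
    unfold GG
    rw [Finset.sum_mul]
    refine Finset.sum_congr rfl fun Y _ => ?_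
    rw [Ex_cmul, ← Ex_ofReal]
    unfold gg PP
    rw [mul_assoc]
  rw [Finset.sum_congr rfl h1, ← Ex_sum]
  refine Ex_congr H k r fun v hv hok => ?_
  by_cases hS : v ∈ SK n k
  · rw [Set.indicator_of_mem hS]
    have hW : Wd v ≤ 7 ^ n := by
      have := hS.2.2.1
      rwa [take_len hv] at this
    rw [Finset.sum_eq_single (Wd v, st r v)]
    · rw [Finset.sum_eq_single (PadicInt.toZModPow n (Fp v))]
      · rw [Set.indicator_of_mem (show v ∈ EV n r (k, (Wd v, st r v)) _ from ⟨hS, rfl, rfl, rfl⟩),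
          ph_eq]
        push_cast
        ring
      · intro Y _ hY
        rw [Set.indicator_of_notMem (fun h => hY h.2.2.2.symm)]
        simp
      · intro h
        exact absurd (Finset.mem_univ _) h
    · intro κ _ hκ
      refine Finset.sum_eq_zero fun Y _ => ?_
      rw [Set.indicator_of_notMem (fun h => hκ (Prod.ext h.2.1.symm h.2.2.1.symm))]
      simp
    · intro h
      exact absurd (Finset.mem_product.2 ⟨mem_WW hW, st_mem v r hr hok⟩) h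
  · rw [Set.indicator_of_notMem hS, Finset.sum_eq_zero]
    intro κ _
    refine Finset.sum_eq_zero fun Y _ => ?_
    rw [Set.indicator_of_notMem (fun h => hS h.1)]
    simp

end OscClassAux

open OscClassAux in
theorem classL2 {H n : ℕ} (hH : 2 ≤ H) (hn1 : 1 ≤ n) (hn : n ≤ H) {r : ZMod 15} (hr : r ∈ UU)
    (S : Finset (ZMod (7 ^ n))) (c : ℕ → ℕ → ZMod 15 → ℤ_[7] → ℂ) {β : ℝ} (hβ : 0 ≤ β)
    (hc : ∀ ξ ∈ S, ∀ k ∈ Icc 1 (24 * n / 25), ∀ W : ℕ, ¬ 7 ∣ W → ∀ s ∈ UU,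
      ‖c k W s ((ξ.val : ℕ) : ℤ_[7])‖ ≤ β) :
    ∑ ξ ∈ S, ‖∑ k ∈ Icc 1 (24 * n / 25), Ex H k r ((SK n k).indicator (fun v =>
        ph n (((ξ.val : ℕ) : ℤ_[7]) * Fp v) * c k (Wd v) (st r v) ((ξ.val : ℕ) : ℤ_[7])))‖ ^ 2 ≤
      (1024 * (n : ℝ) ^ 11 * β) ^ 2 := by
  have : NeZero (7 ^ n) := ⟨by positivity⟩
  set R : ℝ := ((KC n).card : ℝ) with hR
  have hR0 : 0 ≤ R := Nat.cast_nonneg _
  have hRle : R ≤ 512 * (n : ℝ) ^ 4 := card_KC hn1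
  have hstep : ∀ ξ ∈ S, ‖∑ k ∈ Icc 1 (24 * n / 25), Ex H k r ((SK n k).indicator (fun v =>
        ph n (((ξ.val : ℕ) : ℤ_[7]) * Fp v) * c k (Wd v) (st r v) ((ξ.val : ℕ) : ℤ_[7])))‖ ^ 2 ≤
      R * β ^ 2 * ∑ κ ∈ KC n, ‖GG H n r κ ξ‖ ^ 2 := by
    intro ξ hξ
    have e1 : ∑ k ∈ Icc 1 (24 * n / 25), Ex H k r ((SK n k).indicator (fun v =>
        ph n (((ξ.val : ℕ) : ℤ_[7]) * Fp v) * c k (Wd v) (st r v) ((ξ.val : ℕ) : ℤ_[7]))) =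
        ∑ κ ∈ KC n, GG H n r κ ξ * c κ.1 κ.2.1 κ.2.2 ((ξ.val : ℕ) : ℤ_[7]) := by
      unfold KC
      rw [Finset.sum_product]
      refine Finset.sum_congr rfl fun k _ => ?_
      exact vec_eq hr (fun W s => c k W s ((ξ.val : ℕ) : ℤ_[7])) ξ
    rw [e1]
    have e2 : ‖∑ κ ∈ KC n, GG H n r κ ξ * c κ.1 κ.2.1 κ.2.2 ((ξ.val : ℕ) : ℤ_[7])‖ ≤
        ∑ κ ∈ KC n, ‖GG H n r κ ξ‖ * β := by
      refine (norm_sum_le _ _).trans (Finset.sum_le_sum fun κ hκ => ?_)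
      unfold KC at hκ
      rw [Finset.mem_product, Finset.mem_product] at hκ
      rw [norm_mul]
      exact mul_le_mul_of_nonneg_left
        (hc ξ hξ κ.1 hκ.1 κ.2.1 (not_dvd_of_mem hκ.2.1) κ.2.2 hκ.2.2) (norm_nonneg _)
    have e3 : (∑ κ ∈ KC n, ‖GG H n r κ ξ‖ * β) ^ 2 ≤
        R * ∑ κ ∈ KC n, (‖GG H n r κ ξ‖ * β) ^ 2 := sq_sum_le_card_mul_sum_sq
    have e4 : ∑ κ ∈ KC n, (‖GG H n r κ ξ‖ * β) ^ 2 = β ^ 2 * ∑ κ ∈ KC n, ‖GG H n r κ ξ‖ ^ 2 := by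
      rw [Finset.mul_sum]
      exact Finset.sum_congr rfl fun κ _ => by ring
    calc _ ≤ (∑ κ ∈ KC n, ‖GG H n r κ ξ‖ * β) ^ 2 :=
          pow_le_pow_left₀ (norm_nonneg _) e2 2
      _ ≤ R * (β ^ 2 * ∑ κ ∈ KC n, ‖GG H n r κ ξ‖ ^ 2) := by rw [← e4]; exact e3
      _ = _ := by ring
  refine (Finset.sum_le_sum hstep).trans ?_
  rw [← Finset.mul_sum, Finset.sum_comm]
  have h1 : ∑ κ ∈ KC n, ∑ ξ ∈ S, ‖GG H n r κ ξ‖ ^ 2 ≤ R * (2 * (n : ℝ) ^ 13) := by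
    have h2 : ∀ κ ∈ KC n, ∑ ξ ∈ S, ‖GG H n r κ ξ‖ ^ 2 ≤ 2 * (n : ℝ) ^ 13 := by
      intro κ _
      refine (Finset.sum_le_sum_of_subset_of_nonneg (Finset.subset_univ S)
        fun _ _ _ => by positivity).trans (sum_GG_le hH hn1 hn hr κ)
    refine (Finset.sum_le_sum h2).trans ?_
    rw [Finset.sum_const, nsmul_eq_mul]
  have hn1' : (1 : ℝ) ≤ n := by exact_mod_cast hn1
  have h3 : R * β ^ 2 * ∑ κ ∈ KC n, ∑ ξ ∈ S, ‖GG H n r κ ξ‖ ^ 2 ≤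
      R * β ^ 2 * (R * (2 * (n : ℝ) ^ 13)) := mul_le_mul_of_nonneg_left h1 (by positivity)
  refine h3.trans ?_
  have h4 : R ^ 2 ≤ (512 * (n : ℝ) ^ 4) ^ 2 := pow_le_pow_left₀ hR0 hRle 2
  have h5 : R * β ^ 2 * (R * (2 * (n : ℝ) ^ 13)) = R ^ 2 * (2 * (n : ℝ) ^ 13 * β ^ 2) := by ring
  have h6 : R ^ 2 * (2 * (n : ℝ) ^ 13 * β ^ 2) ≤
      (512 * (n : ℝ) ^ 4) ^ 2 * (2 * (n : ℝ) ^ 13 * β ^ 2) :=
    mul_le_mul_of_nonneg_right h4 (by positivity)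
  rw [h5]
  refine h6.trans ?_
  have h7 : (n : ℝ) ^ 21 ≤ (n : ℝ) ^ 22 := pow_le_pow_right₀ hn1' (by norm_num)
  have h8 : (0 : ℝ) ≤ (n : ℝ) ^ 21 := by positivity
  have h9 : (512 * (n : ℝ) ^ 4) ^ 2 * (2 * (n : ℝ) ^ 13 * β ^ 2) =
      524288 * (n : ℝ) ^ 21 * β ^ 2 := by ring
  have h10 : (1024 * (n : ℝ) ^ 11 * β) ^ 2 = 1048576 * (n : ℝ) ^ 22 * β ^ 2 := by ring
  rw [h9, h10]
  refine mul_le_mul_of_nonneg_right ?_ (by positivity)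
  linarith

end Kak
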