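import Pool.Agent.Lib.Kak.PadicB

/-!
# Kak.OscFour: the Fourier transform of the stopped part

PROOF.  Exchange the sum over `Y` with the expectation (`Ex_map`/`Ex_sum`; cast to `ℂ` by `Ex_map` with
`Complex.ofRealLm`-like linear map): for a word `v` only `Y = toZModPow n (Fp v)` contributes, and
`ZMod.stdAddChar (ξ * toZModPow n (Fp v)) = ph n ((ξ.val : ℤ_[7]) * Fp v)` (`toZModPow n (ξ.val : ℤ_[7]) = ξ`).
So the left side is `∑_k Ex H n r ((SK n k).indicator (v ↦ ph n (ξ Fp v) φ(st r v)))`.  For `k ≤ 24n/25 ≤ n` write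
`v = v1 ++ u`, `|v1| = k` (`Ex_append`).  `v ∈ SK n k ↔ v1 ∈ SK n k` (only `v.take k`, `v.take (k-1)` enter),
`Fp v = Fp v1 + 7^k iv (Wd v1) Fp u` (`Fp_append`), `ph_add`, `st r v = st (st r v1) u`, so the inner
expectation is `ph n (ξ Fp v1) * cc H n φ k (Wd v1) (st r v1) ξ`.
-/

open Finset

namespace Kak

namespace OscFourAux

theorem char_eq (n : ℕ) (ξ : ZMod (7 ^ n)) (F : ℤ_[7]) :
    ZMod.stdAddChar (ξ * PadicInt.toZModPow n F) = ph n (((ξ.val : ℕ) : ℤ_[7]) * F) := by
  unfold ph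
  rw [map_mul (PadicInt.toZModPow n) _ F, map_natCast (PadicInt.toZModPow n),
    ZMod.natCast_zmod_val]

theorem SK_append {n k : ℕ} {v u : List Lt} (hv : v.length = k) :
    (v ++ u) ∈ SK n k ↔ v ∈ SK n k := by
  have h1 : (v ++ u).take k = v.take k := by
    rw [List.take_append_of_le_length (by omega)]
  have h2 : (v ++ u).take (k - 1) = v.take (k - 1) := by
    rw [List.take_append_of_le_length (by omega)]
  unfold SK
  simp only [Set.mem_ofPred_eq, h1, h2]

theorem inner (H n k : ℕ) (φ : ZMod 15 → ℝ) (r : ZMod 15) (x : ℤ_[7]) (v : List Lt)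
    (hv : v.length = k) :
    Ex H (n - k) (st r v) (fun u => ph n (x * Fp (v ++ u)) * (φ (st r (v ++ u)) : ℂ)) =
      ph n (x * Fp v) * cc H n φ k (Wd v) (st r v) x := by
  unfold cc
  have := Ex_map H (n - k) (st r v) (LinearMap.mulLeft ℝ (ph n (x * Fp v)))
    (fun u => ph n (x * 7 ^ k * iv (Wd v) * Fp u) * (φ (st (st r v) u) : ℂ))
  rw [LinearMap.mulLeft_apply] at this
  rw [this]
  congr 1
  funext u
  rw [LinearMap.mulLeft_apply, st_append, Fp_append, hv, mul_add, ph_add]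
  rw [show x * (7 ^ k * iv (Wd v) * Fp u) = x * 7 ^ k * iv (Wd v) * Fp u by ring]
  ring

theorem step1 (H n : ℕ) (r : ZMod 15) (φ : ZMod 15 → ℝ) (ξ : ZMod (7 ^ n)) (S : Set (List Lt)) :
    ∑ Y : ZMod (7 ^ n), ((Ex H n r (S.indicator
      (fun v => if PadicInt.toZModPow n (Fp v) = Y then φ (st r v) else 0)) : ℝ) : ℂ) *
        ZMod.stdAddChar (ξ * Y) =
    Ex H n r (S.indicator (fun v => ph n (((ξ.val : ℕ) : ℤ_[7]) * Fp v) * (φ (st r v) : ℂ))) := by
  have h : ∀ Y : ZMod (7 ^ n), ((Ex H n r (S.indicator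
      (fun v => if PadicInt.toZModPow n (Fp v) = Y then φ (st r v) else 0)) : ℝ) : ℂ) *
        ZMod.stdAddChar (ξ * Y) = Ex H n r (fun v => (S.indicator
      (fun v => if PadicInt.toZModPow n (Fp v) = Y then φ (st r v) else 0) v) •
        (ZMod.stdAddChar (ξ * Y) : ℂ)) := by
    intro Y
    have := Ex_map H n r (LinearMap.toSpanSingleton ℝ ℂ (ZMod.stdAddChar (ξ * Y) : ℂ))
      (S.indicator (fun v => if PadicInt.toZModPow n (Fp v) = Y then φ (st r v) else 0))
    simp only [LinearMap.toSpanSingleton_apply] at this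
    rw [← this, Complex.real_smul]
  rw [Finset.sum_congr rfl fun Y _ => h Y, ← Ex_sum]
  congr 1
  funext v
  by_cases hv : v ∈ S
  · simp only [Set.indicator_of_mem hv]
    rw [Finset.sum_eq_single (PadicInt.toZModPow n (Fp v))]
    · rw [if_pos rfl, Complex.real_smul, char_eq, mul_comm]
    · intro Y _ hY
      rw [if_neg (Ne.symm hY), zero_smul]
    · intro h; exact absurd (mem_univ _) h
  · simp only [Set.indicator_of_notMem hv, zero_smul, Finset.sum_const_zero]

theorem step2 (H n k : ℕ) (hk : k ≤ n) (r : ZMod 15) (φ : ZMod 15 → ℝ) (x : ℤ_[7]) :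
    Ex H n r ((SK n k).indicator (fun v => ph n (x * Fp v) * (φ (st r v) : ℂ))) =
    Ex H k r ((SK n k).indicator (fun v => ph n (x * Fp v) *
      cc H n φ k (Wd v) (st r v) x)) := by
  have h : Ex H n r ((SK n k).indicator (fun v => ph n (x * Fp v) * (φ (st r v) : ℂ))) =
      Ex H (k + (n - k)) r ((SK n k).indicator
        (fun v => ph n (x * Fp v) * (φ (st r v) : ℂ))) := by
    rw [Nat.add_sub_cancel' hk]
  rw [h, Ex_append]
  refine Ex_congr H k r fun v hv _ => ?_
  by_cases hS : v ∈ SK n k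
  · rw [Set.indicator_of_mem hS, ← inner H n k φ r x v hv]
    congr 1
    funext u
    rw [Set.indicator_of_mem ((SK_append hv).mpr hS)]
  · rw [Set.indicator_of_notMem hS]
    have : (fun u => (SK n k).indicator (fun v => ph n (x * Fp v) * (φ (st r v) : ℂ)) (v ++ u)) =
        fun _ => (0 : ℂ) := by
      funext u
      rw [Set.indicator_of_notMem (fun h => hS ((SK_append hv).mp h))]
    rw [this, Ex_zero_fun]

end OscFourAux

open OscFourAux

theorem MM_fourier (H n : ℕ) (r : ZMod 15) (φ : ZMod 15 → ℝ) (ξ : ZMod (7 ^ n)) :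
    ∑ Y : ZMod (7 ^ n), (MM H n r φ Y : ℂ) * ZMod.stdAddChar (ξ * Y) =
      ∑ k ∈ Icc 1 (24 * n / 25), Ex H k r ((SK n k).indicator (fun v =>
        ph n (((ξ.val : ℕ) : ℤ_[7]) * Fp v) *
          cc H n φ k (Wd v) (st r v) ((ξ.val : ℕ) : ℤ_[7]))) := by
  unfold MM
  simp_rw [Complex.ofReal_sum, Finset.sum_mul]
  rw [Finset.sum_comm]
  refine Finset.sum_congr rfl fun k hk => ?_
  rw [step1, step2 H n k _ r φ]
  have := (mem_Icc.mp hk).2
  omega

end Kak
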