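import Pool.Agent.Lib.Kak.OscSplit
import Pool.Agent.Lib.Kak.OscFour
import Pool.Agent.Lib.Kak.OscClass
import Pool.Agent.Lib.Kak.InnerBd

/-!
# Kak.OscOne: small oscillation between the levels `m ≥ 49n/50` and `n`

PROOF.  `Osc ≤ (MM-version) + 2 PP{...}` by `osc_split`; the last term is `≤ 2C/n^2` by `stopProb`.  By `osc_le` (with
`D = MM H n r φ`) the MM-version is `≤ √(∑_{ξ ∈ S} ‖∑_Y MM Y stdAddChar(ξ Y)‖^2)`, `S = {ξ | ¬ 7^(n-m) ∣ ξ.val}`.  Use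
`MM_fourier` and `classL2` with `c k W s x = cc H n φ k W s x` and `β = C_13/n^13` from `innerBd 13` (`ξ ∈ S`,
`x = ξ.val`).  So it is `≤ 1024 n^11 C_13/n^13 = 1024 C_13/n^2`.
-/

open Finset

namespace Kak

theorem oscOne : ∃ C : ℝ, 1 ≤ C ∧ ∀ H, 2 ≤ H → ∀ n m : ℕ, 1 ≤ n → n ≤ H → m ≤ n →
    49 * n ≤ 50 * m → ∀ r ∈ UU, ∀ φ : ZMod 15 → ℝ, (∀ t, |φ t| ≤ 1) →
      Osc H n m r φ ≤ C / (n : ℝ) ^ 2 := by
  obtain ⟨C1, hC1, h1⟩ := stopProb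
  obtain ⟨C2, hC2, h2⟩ := innerBd 13
  refine ⟨2 * C1 + 1024 * C2, by linarith, ?_⟩
  intro H hH n m hn hnH hm h49 r hr φ hφ
  have hn0 : (0 : ℝ) < n := by exact_mod_cast hn
  have hs := osc_split (H := H) hm r φ hφ
  have hp := h1 H hH n hn r hr
  have ho := osc_le hm (MM H n r φ)
  have hβ : 0 ≤ C2 / (n : ℝ) ^ 13 := by positivity
  have hcl := classL2 hH hn hnH hr (Finset.univ.filter fun ξ : ZMod (7 ^ n) => ¬ 7 ^ (n - m) ∣ ξ.val)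
    (fun k W s x => cc H n φ k W s x) hβ (by
      intro ξ hξ k hk W hW s hs
      rw [Finset.mem_filter] at hξ
      exact h2 H hH n k m ξ.val W hn (Finset.mem_Icc.mp hk).2 hm h49 hξ.2 hW s hs φ hφ)
  have hcl' : ∑ ξ : ZMod (7 ^ n) with ¬ 7 ^ (n - m) ∣ ξ.val,
      ‖∑ Y : ZMod (7 ^ n), (MM H n r φ Y : ℂ) * ZMod.stdAddChar (ξ * Y)‖ ^ 2 ≤
      (1024 * (n : ℝ) ^ 11 * (C2 / (n : ℝ) ^ 13)) ^ 2 := by
    refine le_trans (le_of_eq ?_) hcl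
    refine Finset.sum_congr rfl fun ξ _ => ?_
    rw [MM_fourier]
  have hsq := Real.sqrt_le_sqrt hcl'
  rw [Real.sqrt_sq (by positivity)] at hsq
  have he : 1024 * (n : ℝ) ^ 11 * (C2 / (n : ℝ) ^ 13) = 1024 * C2 / (n : ℝ) ^ 2 := by
    field_simp
  rw [he] at hsq
  have hfin : (2 * C1 + 1024 * C2) / (n : ℝ) ^ 2 = 1024 * C2 / (n : ℝ) ^ 2 + 2 * (C1 / (n : ℝ) ^ 2) := by
    ring
  rw [hfin]
  linarith

end Kak
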