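import Pool.Agent.Lib.Kak.Growth

/-!
# Kak.StopProb: almost all words are stopped before `24n/25`

PROOF.  `SK_disjoint`: if `v ∈ SK n k`, `v ∈ SK n k'` with `k < k'` then
`7^n ≤ Wd (v.take k) n^13 ≤ Wd (v.take (k'-1)) n^13 < 7^n` (`Wd` of a prefix is `≤`), contradiction.

`stopProb`: for `n < 40` take `C ≥ 1600` (`PP ≤ 1`).  Let `n ≥ 40`: then `n^13 < 7^n`.
Put `K = 24n/25` and (words `v` of length `n`)
* `A1 = {Wd (v.take K) * n^13 < 7^n}`: `(21/20) K ≥ (21/20)(24n/25 - 1) ≥ 1.008 n - 1.05`, so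
  `A1 ⊆ {Wd (v.take K) < 7^2 * 7^((21/20)K)}` and `growth_prob'` (with `PP_take`) gives
  `P(A1) ≤ 7 C (24/25)^K ≤ C'/n^2`;
* `A2 = {∃ l ∈ v, (n:ℝ)^6 ≤ lw l}`: `P(A2) ≤ n * 9/n^3 = 9/n^2` (`big_letter`);
* `A3 = {∃ k ≤ n, Fr (v.take k) > n^6}`: Markov with `Fr_half` and `Ex_take`: `≤ (n+1) C/n^3 ≤ 2C/n^2`.
Outside `A1 ∪ A2 ∪ A3` let `k` be the least number with `Wd (v.take k) n^13 ≥ 7^n`; `k ≤ K` (not `A1`),
`k ≥ 1` (`Wd [] = 1`, `n^13 < 7^n`), so `Wd (v.take (k-1)) n^13 < 7^n`.  Let `w = lw` of the `k`-th letter,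
`w < n^6`.  `Wd (v.take k) = Wd (v.take (k-1)) w < (7^n/n^13) n^6 ≤ 7^n`, and
`Gd (v.take k) = w Gd (v.take (k-1)) + 7^(k-1)` (`Gd_append`)
`= w Wd (v.take (k-1)) Fr (v.take (k-1)) + 7^(k-1) ≤ n^6 (7^n/n^13) n^6 + 7^(k-1) = 7^n/n + 7^(k-1) < 7^n`.
So `v ∈ SK n k`.
-/

open Finset

namespace Kak

namespace StopProbAux

theorem Wd_take_le (v : List Lt) {i j : ℕ} (h : i ≤ j) : Wd (v.take i) ≤ Wd (v.take j) :=
  Nat.le_of_dvd (Wd_pos _) (Wd_take_dvd v h)

theorem disj_lt {n k k' : ℕ} {v : List Lt} (h : v ∈ SK n k)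
    (h' : v ∈ SK n k') (hlt : k < k') : False := by
  have h1 : 7 ^ n ≤ Wd (v.take k) * n ^ 13 := h.2.1
  have h2 : Wd (v.take (k' - 1)) * n ^ 13 < 7 ^ n := h'.1
  have h3 : Wd (v.take k) ≤ Wd (v.take (k' - 1)) := Wd_take_le v (by omega)
  have h4 := Nat.mul_le_mul_right (n ^ 13) h3
  omega

theorem pow_lt {n : ℕ} (hn : 40 ≤ n) : n ^ 13 < 7 ^ n := by
  induction n, hn using Nat.le_induction with
  | base => norm_num
  | succ n hn ih =>
    have h1 : (n + 1) ^ 13 ≤ 7 * n ^ 13 := by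
      have h2 : 40 * (n + 1) ≤ 41 * n := by omega
      have h3 : (40 * (n + 1)) ^ 13 ≤ (41 * n) ^ 13 := Nat.pow_le_pow_left h2 13
      rw [mul_pow, mul_pow] at h3
      have h4 : 41 ^ 13 ≤ 7 * 40 ^ 13 := by norm_num
      have h5 : 41 ^ 13 * n ^ 13 ≤ (7 * 40 ^ 13) * n ^ 13 := Nat.mul_le_mul_right _ h4
      have h6 : 40 ^ 13 * (n + 1) ^ 13 ≤ 40 ^ 13 * (7 * n ^ 13) := by
        calc 40 ^ 13 * (n + 1) ^ 13 ≤ 41 ^ 13 * n ^ 13 := h3
          _ ≤ (7 * 40 ^ 13) * n ^ 13 := h5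
          _ = 40 ^ 13 * (7 * n ^ 13) := by ring
      exact Nat.le_of_mul_le_mul_left h6 (by norm_num)
    calc (n + 1) ^ 13 ≤ 7 * n ^ 13 := h1
      _ < 7 * 7 ^ n := by omega
      _ = 7 ^ (n + 1) := by ring

/-- exponential decay beats the square -/
theorem decay : ∃ B : ℝ, 0 ≤ B ∧ ∀ K : ℕ, (24 / 25 : ℝ) ^ K ≤ B / ((K : ℝ) + 1) ^ 2 := by
  have ht := tendsto_pow_const_mul_const_pow_of_abs_lt_one 2 (r := (24 / 25 : ℝ))
    (by rw [abs_of_pos] <;> norm_num)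
  obtain ⟨B, hB⟩ := ht.bddAbove_range
  have hB' : ∀ n : ℕ, (n : ℝ) ^ 2 * (24 / 25 : ℝ) ^ n ≤ B := fun n => hB ⟨n, rfl⟩
  refine ⟨25 / 24 * B, ?_, fun K => ?_⟩
  · have := hB' 0
    norm_num at this
    positivity
  · rw [le_div_iff₀ (by positivity)]
    have h := hB' (K + 1)
    push_cast at h
    rw [pow_succ (24 / 25 : ℝ) K] at h
    linarith

/-- the event `A1` -/
theorem ev1 {n : ℕ} (hn : 1 ≤ n) {W : ℕ} (h : W * n ^ 13 < 7 ^ n) :
    (W : ℝ) < 49 * (7 : ℝ) ^ ((21 / 20 : ℝ) * ((24 * n / 25 : ℕ) : ℝ)) := by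
  have h1 : W ≤ W * n ^ 13 := Nat.le_mul_of_pos_right _ (by positivity)
  have h2 : (W : ℝ) < (7 : ℝ) ^ n := by exact_mod_cast lt_of_le_of_lt h1 h
  refine h2.trans_le ?_
  have h3 : (49 : ℝ) = (7 : ℝ) ^ (2 : ℝ) := by norm_num
  rw [h3, ← Real.rpow_add (by norm_num), ← Real.rpow_natCast]
  refine Real.rpow_le_rpow_of_exponent_le (by norm_num) ?_
  have h4 : 24 * n < 25 * (24 * n / 25) + 25 := by omega
  have h5 : (24 : ℝ) * n < 25 * ((24 * n / 25 : ℕ) : ℝ) + 25 := by exact_mod_cast h4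
  have h6 : (0 : ℝ) ≤ n := Nat.cast_nonneg n
  linarith

theorem sqrt_six (n : ℕ) : √((n : ℝ) ^ 6) = (n : ℝ) ^ 3 := by
  rw [show ((n : ℝ) ^ 6) = ((n : ℝ) ^ 3) ^ 2 by ring]
  exact Real.sqrt_sq (by positivity)

/-- outside of the exceptional events the word is stopped -/
theorem stopped {n : ℕ} (hn : 40 ≤ n) {v : List Lt} (hv : v.length = n)
    (h1 : 7 ^ n ≤ Wd (v.take (24 * n / 25)) * n ^ 13)
    (h2 : ∀ l ∈ v, (lw l : ℝ) < (n : ℝ) ^ 6)
    (h3 : ∀ k ≤ n, Fr (v.take k) ≤ (n : ℝ) ^ 6) :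
    ∃ k ∈ Icc 1 (24 * n / 25), v ∈ SK n k := by
  classical
  have hex : ∃ k, 7 ^ n ≤ Wd (v.take k) * n ^ 13 := ⟨_, h1⟩
  set k := Nat.find hex with hk
  have hk1 : 7 ^ n ≤ Wd (v.take k) * n ^ 13 := Nat.find_spec hex
  have hkK : k ≤ 24 * n / 25 := Nat.find_min' hex h1
  have hkpos : 1 ≤ k := by
    by_contra h0
    have h0' : k = 0 := by omega
    rw [h0'] at hk1
    simp only [List.take_zero, Wd, one_mul] at hk1
    have := pow_lt hn
    omega
  have hk2 : Wd (v.take (k - 1)) * n ^ 13 < 7 ^ n := by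
    have := Nat.find_min hex (m := k - 1) (by omega)
    rwa [not_le] at this
  have hkn : k - 1 < v.length := by omega
  set l := v[k - 1] with hl
  set u := v.take (k - 1) with hu
  have htake : v.take k = u ++ [l] := by
    have : k = k - 1 + 1 := by omega
    rw [this, hu, hl, List.take_add_one, List.getElem?_eq_getElem hkn]
    simp
  have hlmem : l ∈ v := List.getElem_mem hkn
  have hlw : lw l < n ^ 6 := by exact_mod_cast h2 l hlmem
  have hulen : u.length = k - 1 := by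
    rw [hu, List.length_take]; omega
  have hWl : Wd [l] = lw l := by simp [Wd]
  have hGl : Gd [l] = 1 := by simp [Gd, Wd]
  have hWk : Wd (v.take k) = Wd u * lw l := by rw [htake, Wd_append, hWl]
  have hGk : Gd (v.take k) = lw l * Gd u + 7 ^ (k - 1) := by
    rw [htake, Gd_append, hWl, hGl, hulen, mul_one]
  refine ⟨k, Finset.mem_Icc.mpr ⟨hkpos, hkK⟩, hk2, hk1, ?_, ?_⟩
  · rw [hWk]
    have h4 : lw l ≤ n ^ 13 := hlw.le.trans (Nat.pow_le_pow_right (by omega) (by norm_num))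
    exact (Nat.mul_le_mul_left _ h4).trans hk2.le
  · rw [hGk]
    -- `Gd u ≤ n^6 Wd u`
    have hWu : (0 : ℝ) < (Wd u : ℝ) := by exact_mod_cast Wd_pos u
    have hFr := h3 (k - 1) (by omega)
    rw [← hu] at hFr
    have hG : (Gd u : ℝ) ≤ (n : ℝ) ^ 6 * Wd u := by
      have : Fr u = (Gd u : ℝ) / (Wd u : ℝ) := rfl
      rw [this, div_le_iff₀ hWu] at hFr
      exact hFr
    have hG' : Gd u ≤ n ^ 6 * Wd u := by exact_mod_cast hG
    have h5 : n * (lw l * Gd u) < 7 ^ n := by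
      calc n * (lw l * Gd u) ≤ n * (n ^ 6 * (n ^ 6 * Wd u)) :=
            Nat.mul_le_mul_left _ (Nat.mul_le_mul hlw.le hG')
        _ = Wd u * n ^ 13 := by ring
        _ < 7 ^ n := hk2
    have h6 : 40 * (lw l * Gd u) ≤ n * (lw l * Gd u) := Nat.mul_le_mul_right _ hn
    have h7 : 7 * 7 ^ (k - 1) ≤ 7 ^ n := by
      rw [← pow_succ']
      exact Nat.pow_le_pow_right (by norm_num) (by omega)
    omega

end StopProbAux

open StopProbAux

theorem SK_disjoint {n k k' : ℕ} {v : List Lt} (hk : 1 ≤ k) (hk' : 1 ≤ k') (h : v ∈ SK n k)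
    (h' : v ∈ SK n k') : k = k' := by
  rcases lt_trichotomy k k' with hlt | heq | hlt
  · exact (disj_lt h h' hlt).elim
  · exact heq
  · exact (disj_lt h' h hlt).elim

theorem stopProb : ∃ C : ℝ, 1 ≤ C ∧ ∀ H, 2 ≤ H → ∀ n : ℕ, 1 ≤ n → ∀ r ∈ UU,
    PP H n r {v | ∀ k ∈ Icc 1 (24 * n / 25), v ∉ SK n k} ≤ C / (n : ℝ) ^ 2 := by
  classical
  obtain ⟨C1, hC1, hgp⟩ := growth_prob'
  obtain ⟨C3, hC3, hfr⟩ := Fr_half
  obtain ⟨B, hB0, hB⟩ := decay
  refine ⟨1600 + 7 * C1 * (4 * B) + 9 + 2 * C3, ?_, ?_⟩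
  · have : 0 ≤ 7 * C1 * (4 * B) := by positivity
    linarith
  intro H hH n hn r hr
  have hn' : (1 : ℝ) ≤ n := by exact_mod_cast hn
  have hn0 : (0 : ℝ) < n := by linarith
  have hpos1 : 0 ≤ 7 * C1 * (4 * B) := by positivity
  rcases lt_or_ge n 40 with hlt | hge
  · refine (PP_le_one hH n hr _).trans ?_
    rw [le_div_iff₀ (by positivity)]
    have h40 : (n : ℝ) ≤ 40 := by exact_mod_cast hlt.le
    nlinarith
  · set K := 24 * n / 25 with hK
    have hKn : K ≤ n := by omega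
    let A1 : Set (List Lt) := {v | v.take K ∈ {u : List Lt | (Wd u : ℝ) <
      49 * (7 : ℝ) ^ ((21 / 20 : ℝ) * (K : ℝ))}}
    let A2 : Set (List Lt) := {v | ∃ l ∈ v, (n : ℝ) ^ 6 ≤ (lw l : ℝ)}
    let A3 : Set (List Lt) := ⋃ k ∈ range (n + 1), {v | v.take k ∈ {u : List Lt | (n : ℝ) ^ 6 < Fr u}}
    have hsub : PP H n r {v | ∀ k ∈ Icc 1 K, v ∉ SK n k} ≤ PP H n r ((A1 ∪ A2) ∪ A3) := by
      refine PP_mono H n r fun v hv _ hbad => ?_
      by_contra hnot
      have hA1 : v ∉ A1 := fun h => hnot (Or.inl (Or.inl h))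
      have hA2 : v ∉ A2 := fun h => hnot (Or.inl (Or.inr h))
      have hA3 : v ∉ A3 := fun h => hnot (Or.inr h)
      obtain ⟨k, hk, hkS⟩ := stopped hge hv (by
          by_contra hlt
          rw [not_le] at hlt
          exact hA1 (ev1 hn hlt)) (by
          intro l hl
          by_contra hlt
          rw [not_lt] at hlt
          exact hA2 ⟨l, hl, hlt⟩) (by
          intro k hk
          by_contra hlt
          rw [not_le] at hlt
          refine hA3 (Set.mem_iUnion₂.mpr ⟨k, Finset.mem_range.mpr (by omega), hlt⟩))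
      exact hbad k hk hkS
    have hP1 : PP H n r A1 ≤ 7 * C1 * (4 * B) / (n : ℝ) ^ 2 := by
      have h1 : PP H n r A1 = PP H K r {u : List Lt | (Wd u : ℝ) <
        49 * (7 : ℝ) ^ ((21 / 20 : ℝ) * (K : ℝ))} := PP_take hH hKn hr _
      rw [h1]
      have h2 := hgp H hH K r hr 49 (by norm_num)
      have h3 : √(49 : ℝ) = 7 := by
        rw [show (49 : ℝ) = 7 ^ 2 by norm_num]; exact Real.sqrt_sq (by norm_num)
      rw [h3] at h2
      refine h2.trans ?_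
      have h4 := hB K
      have h5 : (n : ℝ) ≤ 2 * ((K : ℝ) + 1) := by
        have : n ≤ 2 * (K + 1) := by omega
        exact_mod_cast this
      have h6 : B / ((K : ℝ) + 1) ^ 2 ≤ (4 * B) / (n : ℝ) ^ 2 := by
        rw [div_le_div_iff₀ (by positivity) (by positivity)]
        have h7 : (n : ℝ) ^ 2 ≤ 4 * ((K : ℝ) + 1) ^ 2 := by nlinarith
        nlinarith
      calc C1 * 7 * (24 / 25) ^ K ≤ C1 * 7 * ((4 * B) / (n : ℝ) ^ 2) := by
            refine mul_le_mul_of_nonneg_left (h4.trans h6) (by positivity)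
        _ = 7 * C1 * (4 * B) / (n : ℝ) ^ 2 := by ring
    have hP2 : PP H n r A2 ≤ 9 / (n : ℝ) ^ 2 := by
      have h1 := big_letter hH n hr (X := (n : ℝ) ^ 6) (by positivity)
      rw [sqrt_six] at h1
      refine h1.trans (le_of_eq ?_)
      field_simp
    have hP3 : PP H n r A3 ≤ 2 * C3 / (n : ℝ) ^ 2 := by
      refine (PP_biUnion_le H n r _ _).trans ?_
      have h1 : ∀ k ∈ range (n + 1), PP H n r {v | v.take k ∈ {u : List Lt | (n : ℝ) ^ 6 < Fr u}} ≤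
          C3 / (n : ℝ) ^ 3 := by
        intro k hk
        have hkn : k ≤ n := by
          have := Finset.mem_range.mp hk; omega
        rw [PP_take hH hkn hr]
        have h2 := PP_markov H k r (A := {u : List Lt | (n : ℝ) ^ 6 < Fr u})
          (f := fun u => √(Fr u)) (c := (n : ℝ) ^ 3) (by positivity)
          (fun v _ _ => Real.sqrt_nonneg _) (fun v _ _ hv => by
            rw [← sqrt_six]
            exact Real.sqrt_le_sqrt (le_of_lt hv))
        refine h2.trans ?_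
        exact div_le_div_of_nonneg_right (hfr H hH k r hr) (by positivity)
      refine (Finset.sum_le_sum h1).trans ?_
      rw [Finset.sum_const, Finset.card_range, nsmul_eq_mul]
      push_cast
      rw [mul_div_assoc', div_le_div_iff₀ (by positivity) (by positivity)]
      have h2 : ((n : ℝ) + 1) * C3 ≤ (2 * n) * C3 :=
        mul_le_mul_of_nonneg_right (by linarith) (by linarith)
      nlinarith [mul_le_mul_of_nonneg_right h2 (by positivity : (0 : ℝ) ≤ (n : ℝ) ^ 2)]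
    refine hsub.trans ((PP_union_le H n r _ _).trans ?_)
    have h12 := PP_union_le H n r A1 A2
    have hfin : 7 * C1 * (4 * B) / (n : ℝ) ^ 2 + 9 / (n : ℝ) ^ 2 + 2 * C3 / (n : ℝ) ^ 2 ≤
        (1600 + 7 * C1 * (4 * B) + 9 + 2 * C3) / (n : ℝ) ^ 2 := by
      rw [← add_div, ← add_div]
      refine div_le_div_of_nonneg_right ?_ (by positivity)
      linarith
    linarith

end Kak
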