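import Pool.Agent.Lib.Kak.ExBasic
import Pool.Agent.Lib.Kak.StopProb

/-!
# Kak.OscSplit: the oscillation is governed by the stopped part

PROOF.  `PdL_proj`: for `m ≤ n`: `toZModPow m x = (((toZModPow n x).val : ℕ) : ZMod (7^m))`
(`PadicInt.zmod_cast_comp_toZModPow` or `PadicInt.cast_toZModPow`), so, splitting the expectation
according to `Y' = toZModPow n (Fp v)` (`Ex_sum`), the claim holds.

`osc_split`: put `P Y = PdL H n n r φ Y`, `M Y = MM H n r φ Y`.  By `PdL_proj`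
`Osc H n m r φ = ∑_Y |P Y - (∑_{Y' ≡ Y (7^m)} P Y')/7^(n-m)|`.  Since
`∑_Y (∑_{Y' ≡ Y (7^m)} |P Y' - M Y'|)/7^(n-m) = ∑_Y' |P Y' - M Y'|` (each `Y'` is counted for the `7^(n-m)`
classes `Y` with the same residue mod `7^m`), the triangle inequality gives
`Osc ≤ (M-version) + 2 ∑_Y |P Y - M Y|`.  Finally `P Y - M Y = Ex H n r (v ↦ (1 - ∑_k 1_{SK n k}(v)) [toZModPow n (Fp v) = Y] φ(..))`
and `1 - ∑_k 1_{SK n k}(v)` is the indicator of `{∀ k, v ∉ SK n k}` because the `SK n k` are disjoint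
(`SK_disjoint`); summing the absolute values over `Y` gives at most `PP H n r {∀ k, v ∉ SK n k}` (`|φ| ≤ 1`, for each
`v` exactly one `Y`).
-/

open Finset

namespace Kak

namespace OscSplitAux

theorem cast_eq {n m : ℕ} (hm : m ≤ n) (x : ℤ_[7]) :
    (((PadicInt.toZModPow n x).val : ℕ) : ZMod (7 ^ m)) = PadicInt.toZModPow m x := by
  rw [ZMod.natCast_val]
  exact PadicInt.cast_toZModPow m n hm x

/-- the number of classes modulo `7^n` over one class modulo `7^m` -/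
theorem card_fib {n m : ℕ} (hm : m ≤ n) (y : ZMod (7 ^ m)) :
    ((univ.filter fun Y : ZMod (7 ^ n) => ((Y.val : ℕ) : ZMod (7 ^ m)) = y).card : ℝ) ≤
      7 ^ (n - m) := by
  have h : (univ.filter fun Y : ZMod (7 ^ n) => ((Y.val : ℕ) : ZMod (7 ^ m)) = y).card ≤
      (range (7 ^ (n - m))).card := by
    refine Finset.card_le_card_of_injOn (fun Y => Y.val / 7 ^ m) ?_ ?_
    · intro Y _
      simp only [coe_range, Set.mem_Iio]
      rw [Nat.div_lt_iff_lt_mul (by positivity), ← pow_add, Nat.sub_add_cancel hm]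
      exact ZMod.val_lt Y
    · intro Y hY Z hZ hYZ
      simp only [coe_filter, mem_univ, true_and, Set.mem_ofPred_eq] at hY hZ
      have h1 : Y.val % 7 ^ m = Z.val % 7 ^ m := by
        have := hY.trans hZ.symm
        exact (ZMod.natCast_eq_natCast_iff' _ _ _).mp this
      have h2 : Y.val / 7 ^ m = Z.val / 7 ^ m := hYZ
      apply ZMod.val_injective
      rw [← Nat.div_add_mod Y.val (7 ^ m), ← Nat.div_add_mod Z.val (7 ^ m), h1, h2]
  rw [card_range] at h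
  exact_mod_cast h

theorem sum_avg {n m : ℕ} (hm : m ≤ n) (f : ZMod (7 ^ n) → ℝ) (hf : ∀ Y, 0 ≤ f Y) :
    ∑ Y : ZMod (7 ^ n), (∑ Y' : ZMod (7 ^ n) with
        ((Y'.val : ℕ) : ZMod (7 ^ m)) = ((Y.val : ℕ) : ZMod (7 ^ m)), f Y') / 7 ^ (n - m) ≤
      ∑ Y : ZMod (7 ^ n), f Y := by
  rw [← Finset.sum_div, div_le_iff₀ (by positivity)]
  simp_rw [Finset.sum_filter]
  rw [Finset.sum_comm, Finset.sum_mul]
  refine Finset.sum_le_sum fun Y _ => ?_
  rw [← Finset.sum_filter, Finset.sum_const, nsmul_eq_mul, mul_comm]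
  refine mul_le_mul_of_nonneg_left ?_ (hf Y)
  have := card_fib hm ((Y.val : ℕ) : ZMod (7 ^ m))
  have e : (univ.filter fun Y' : ZMod (7 ^ n) =>
      ((Y.val : ℕ) : ZMod (7 ^ m)) = ((Y'.val : ℕ) : ZMod (7 ^ m))) =
      (univ.filter fun Y' : ZMod (7 ^ n) =>
      ((Y'.val : ℕ) : ZMod (7 ^ m)) = ((Y.val : ℕ) : ZMod (7 ^ m))) :=
    Finset.filter_congr fun Y' _ => eq_comm
  rw [e]
  exact this

/-- the sum of the indicators of the stopping events -/
theorem one_sub_sum (n : ℕ) (v : List Lt) (s : Finset ℕ) (hs : ∀ k ∈ s, 1 ≤ k) :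
    |1 - ∑ k ∈ s, (SK n k).indicator (fun _ => (1 : ℝ)) v| =
      {v | ∀ k ∈ s, v ∉ SK n k}.indicator (fun _ => (1 : ℝ)) v := by
  classical
  by_cases h : ∀ k ∈ s, v ∉ SK n k
  · rw [Set.indicator_of_mem (by exact h)]
    rw [Finset.sum_eq_zero (fun k hk => Set.indicator_of_notMem (h k hk) _)]
    simp
  · rw [Set.indicator_of_notMem (by exact h)]
    push Not at h
    obtain ⟨k, hk, hv⟩ := h
    rw [Finset.sum_eq_single k]
    · rw [Set.indicator_of_mem hv]; simp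
    · intro k' hk' hne
      refine Set.indicator_of_notMem (fun hv' => hne ?_) _
      exact (SK_disjoint (hs k hk) (hs k' hk') hv hv').symm
    · intro h; exact absurd hk h

theorem diff_eq (H n : ℕ) (r : ZMod 15) (φ : ZMod 15 → ℝ) (Y : ZMod (7 ^ n)) :
    PdL H n n r φ Y - MM H n r φ Y = Ex H n r (fun v =>
      (1 - ∑ k ∈ Icc 1 (24 * n / 25), (SK n k).indicator (fun _ => (1 : ℝ)) v) *
        (if PadicInt.toZModPow n (Fp v) = Y then φ (st r v) else 0)) := by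
  unfold PdL MM
  rw [← Ex_sum, ← Ex_sub]
  congr 1
  funext v
  rw [sub_mul, one_mul, Finset.sum_mul]
  congr 1
  refine Finset.sum_congr rfl fun k _ => ?_
  by_cases h : v ∈ SK n k
  · rw [Set.indicator_of_mem h, Set.indicator_of_mem h, one_mul]
  · rw [Set.indicator_of_notMem h, Set.indicator_of_notMem h, zero_mul]

theorem sum_diff (H n : ℕ) (r : ZMod 15) (φ : ZMod 15 → ℝ) (hφ : ∀ t, |φ t| ≤ 1) :
    ∑ Y : ZMod (7 ^ n), |PdL H n n r φ Y - MM H n r φ Y| ≤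
      PP H n r {v | ∀ k ∈ Icc 1 (24 * n / 25), v ∉ SK n k} := by
  have h1 : ∀ Y : ZMod (7 ^ n), |PdL H n n r φ Y - MM H n r φ Y| ≤ Ex H n r (fun v =>
      |(1 - ∑ k ∈ Icc 1 (24 * n / 25), (SK n k).indicator (fun _ => (1 : ℝ)) v) *
        (if PadicInt.toZModPow n (Fp v) = Y then φ (st r v) else 0)|) := by
    intro Y
    rw [diff_eq]
    have := norm_Ex_le H n r (fun v =>
      (1 - ∑ k ∈ Icc 1 (24 * n / 25), (SK n k).indicator (fun _ => (1 : ℝ)) v) *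
        (if PadicInt.toZModPow n (Fp v) = Y then φ (st r v) else 0))
    simpa only [Real.norm_eq_abs] using this
  refine (Finset.sum_le_sum fun Y _ => h1 Y).trans ?_
  rw [← Ex_sum]
  unfold PP
  refine Ex_mono H n r fun v _ _ => ?_
  simp_rw [abs_mul]
  rw [← Finset.mul_sum]
  have h2 : ∑ Y : ZMod (7 ^ n), |if PadicInt.toZModPow n (Fp v) = Y then φ (st r v) else 0| =
      |φ (st r v)| := by
    rw [Finset.sum_eq_single (PadicInt.toZModPow n (Fp v))]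
    · rw [if_pos rfl]
    · intro Y _ hY
      rw [if_neg (Ne.symm hY), abs_zero]
    · intro h; exact absurd (mem_univ _) h
  rw [h2, one_sub_sum n v _ (fun k hk => (mem_Icc.mp hk).1)]
  have h3 : 0 ≤ {v | ∀ k ∈ Icc 1 (24 * n / 25), v ∉ SK n k}.indicator (fun _ => (1 : ℝ)) v :=
    Set.indicator_nonneg (fun _ _ => zero_le_one) v
  calc _ ≤ {v | ∀ k ∈ Icc 1 (24 * n / 25), v ∉ SK n k}.indicator (fun _ => (1 : ℝ)) v * 1 :=
        mul_le_mul_of_nonneg_left (hφ _) h3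
    _ = _ := mul_one _

end OscSplitAux

open OscSplitAux

theorem PdL_proj {H n m : ℕ} (hm : m ≤ n) (r : ZMod 15) (φ : ZMod 15 → ℝ) (y : ZMod (7 ^ m)) :
    PdL H n m r φ y = ∑ Y' : ZMod (7 ^ n) with ((Y'.val : ℕ) : ZMod (7 ^ m)) = y,
      PdL H n n r φ Y' := by
  unfold PdL
  rw [← Ex_sum]
  congr 1
  funext v
  rw [Finset.sum_ite_eq]
  simp only [mem_filter, mem_univ, true_and, cast_eq hm]

theorem osc_split {H n m : ℕ} (hm : m ≤ n) (r : ZMod 15) (φ : ZMod 15 → ℝ)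
    (hφ : ∀ t, |φ t| ≤ 1) :
    Osc H n m r φ ≤ ∑ Y : ZMod (7 ^ n), |MM H n r φ Y - (∑ Y' : ZMod (7 ^ n) with
        ((Y'.val : ℕ) : ZMod (7 ^ m)) = ((Y.val : ℕ) : ZMod (7 ^ m)), MM H n r φ Y') / 7 ^ (n - m)| +
      2 * PP H n r {v | ∀ k ∈ Icc 1 (24 * n / 25), v ∉ SK n k} := by
  unfold Osc
  have hD := sum_diff H n r φ hφ
  set P : ZMod (7 ^ n) → ℝ := fun Y => PdL H n n r φ Y with hP
  set M : ZMod (7 ^ n) → ℝ := fun Y => MM H n r φ Y with hM
  have hD' : ∑ Y : ZMod (7 ^ n), |P Y - M Y| ≤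
      PP H n r {v | ∀ k ∈ Icc 1 (24 * n / 25), v ∉ SK n k} := hD
  have hA := sum_avg hm (fun Y => |P Y - M Y|) (fun Y => abs_nonneg _)
  have key : ∀ Y : ZMod (7 ^ n),
      |P Y - PdL H n m r φ ((Y.val : ℕ) : ZMod (7 ^ m)) / 7 ^ (n - m)| ≤
      |M Y - (∑ Y' : ZMod (7 ^ n) with
        ((Y'.val : ℕ) : ZMod (7 ^ m)) = ((Y.val : ℕ) : ZMod (7 ^ m)), M Y') / 7 ^ (n - m)| +
      |P Y - M Y| + (∑ Y' : ZMod (7 ^ n) with
        ((Y'.val : ℕ) : ZMod (7 ^ m)) = ((Y.val : ℕ) : ZMod (7 ^ m)), |P Y' - M Y'|) /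
          7 ^ (n - m) := by
    intro Y
    rw [PdL_proj hm]
    change |P Y - (∑ Y' : ZMod (7 ^ n) with
        ((Y'.val : ℕ) : ZMod (7 ^ m)) = ((Y.val : ℕ) : ZMod (7 ^ m)), P Y') / 7 ^ (n - m)| ≤ _
    have e : (∑ Y' : ZMod (7 ^ n) with
        ((Y'.val : ℕ) : ZMod (7 ^ m)) = ((Y.val : ℕ) : ZMod (7 ^ m)), P Y') =
        (∑ Y' : ZMod (7 ^ n) with
        ((Y'.val : ℕ) : ZMod (7 ^ m)) = ((Y.val : ℕ) : ZMod (7 ^ m)), M Y') +
        ∑ Y' : ZMod (7 ^ n) with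
        ((Y'.val : ℕ) : ZMod (7 ^ m)) = ((Y.val : ℕ) : ZMod (7 ^ m)), (P Y' - M Y') := by
      rw [← Finset.sum_add_distrib]
      exact Finset.sum_congr rfl fun Y' _ => by ring
    have e2 : |(∑ Y' : ZMod (7 ^ n) with
        ((Y'.val : ℕ) : ZMod (7 ^ m)) = ((Y.val : ℕ) : ZMod (7 ^ m)), (P Y' - M Y')) /
          7 ^ (n - m)| ≤ (∑ Y' : ZMod (7 ^ n) with
        ((Y'.val : ℕ) : ZMod (7 ^ m)) = ((Y.val : ℕ) : ZMod (7 ^ m)), |P Y' - M Y'|) /
          7 ^ (n - m) := by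
      rw [abs_div, abs_of_nonneg (show (0 : ℝ) ≤ 7 ^ (n - m) by positivity)]
      exact div_le_div_of_nonneg_right (Finset.abs_sum_le_sum_abs _ _) (by positivity)
    rw [e, add_div]
    calc _ = |(M Y - (∑ Y' : ZMod (7 ^ n) with
        ((Y'.val : ℕ) : ZMod (7 ^ m)) = ((Y.val : ℕ) : ZMod (7 ^ m)), M Y') / 7 ^ (n - m)) +
        (P Y - M Y) - (∑ Y' : ZMod (7 ^ n) with
        ((Y'.val : ℕ) : ZMod (7 ^ m)) = ((Y.val : ℕ) : ZMod (7 ^ m)), (P Y' - M Y')) /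
          7 ^ (n - m)| := by congr 1; ring
      _ ≤ _ := by
        refine (abs_sub _ _).trans ?_
        refine add_le_add (abs_add_le _ _) e2
  refine (Finset.sum_le_sum fun Y _ => key Y).trans ?_
  rw [Finset.sum_add_distrib, Finset.sum_add_distrib]
  linarith

end Kak
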