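import Mathlib

/-!
# Kak.Pars: Parseval on `ZMod N` and the averaging operator

PROOFS.
`parseval`: expand the square, `∑_ξ stdAddChar (ξ (Y - Y')) = N` if `Y = Y'`, `0` otherwise
(orthogonality: `AddChar.sum_eq_ite`/`AddChar.sum_mulShift`, `ZMod.isPrimitive_stdAddChar`).

`osc_le`: let `q = 7^n`, `D2 Y = D Y - (∑_{Y' : Y'.val ≡ Y.val mod 7^m} D Y') / 7^(n-m)`.  Cauchy-Schwarz:
`∑_Y |D2 Y| ≤ √(q ∑ D2^2) = √(∑_ξ ‖D2^(ξ)‖^2)` by `parseval`.  The transform of the average is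
`∑_Y stdAddChar(ξ Y) 7^(m-n) ∑_{Y' ≡ Y (7^m)} D Y' = 7^(m-n) ∑_{Y'} D Y' ∑_{Y ≡ Y' (7^m)} stdAddChar(ξ Y)`, and the
inner sum is over `Y = Y' + 7^m k`, `0 ≤ k < 7^(n-m)`: it equals `7^(n-m) stdAddChar (ξ Y')` if
`7^(n-m) ∣ ξ.val` (then `ξ 7^m = 0`), and `0` otherwise (geometric sum of the nontrivial
`7^(n-m)`-th root of unity `stdAddChar (ξ 7^m)`).  So `D2^(ξ) = 0` if `7^(n-m) ∣ ξ.val` and `D2^(ξ) = D^(ξ)`
otherwise.
-/

open Finset

namespace Kak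

theorem parseval {N : ℕ} [NeZero N] (g : ZMod N → ℝ) :
    ∑ ξ : ZMod N, ‖∑ Y : ZMod N, (g Y : ℂ) * ZMod.stdAddChar (ξ * Y)‖ ^ 2 =
      N * ∑ Y : ZMod N, g Y ^ 2 := by
  have h1 : ∀ ξ : ZMod N, ((‖∑ Y : ZMod N, (g Y : ℂ) * ZMod.stdAddChar (ξ * Y)‖ ^ 2 : ℝ) : ℂ) =
      ∑ Y : ZMod N, ∑ Y' : ZMod N, (g Y : ℂ) * (g Y' : ℂ) * ZMod.stdAddChar (ξ * (Y - Y')) := by
    intro ξ
    rw [Complex.ofReal_pow, ← Complex.mul_conj', map_sum, Finset.sum_mul_sum]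
    refine Finset.sum_congr rfl fun Y _ => Finset.sum_congr rfl fun Y' _ => ?_
    have e1 : (ZMod.stdAddChar (ξ * (Y - Y')) : ℂ) =
        ZMod.stdAddChar (ξ * Y) * (starRingEnd ℂ) (ZMod.stdAddChar (ξ * Y')) := by
      rw [mul_sub, sub_eq_add_neg, AddChar.map_add_eq_mul, AddChar.map_neg_eq_conj]
    rw [e1, RingHom.map_mul (starRingEnd ℂ), Complex.conj_ofReal]
    ring
  have h2 : ∀ b : ZMod N, ∑ ξ : ZMod N, (ZMod.stdAddChar (ξ * b) : ℂ) =
      if b = 0 then (N : ℂ) else 0 := by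
    intro b
    have := AddChar.sum_mulShift b (ZMod.isPrimitive_stdAddChar N)
    rw [this, ZMod.card]
    split_ifs <;> simp
  apply Complex.ofReal_injective
  rw [Complex.ofReal_sum]
  simp only [h1]
  rw [Finset.sum_comm]
  push_cast
  rw [Finset.mul_sum]
  refine Finset.sum_congr rfl fun Y _ => ?_
  rw [Finset.sum_comm]
  have h3 : ∀ Y' : ZMod N, ∑ ξ : ZMod N, (g Y : ℂ) * (g Y' : ℂ) * ZMod.stdAddChar (ξ * (Y - Y')) =
      if Y' = Y then (g Y : ℂ) * (g Y' : ℂ) * N else 0 := by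
    intro Y'
    rw [← Finset.mul_sum, h2]
    by_cases h : Y' = Y
    · rw [if_pos h, if_pos (by rw [h, sub_self])]
    · rw [if_neg h, if_neg (fun e => h (sub_eq_zero.mp e).symm), mul_zero]
  simp only [h3]
  rw [Finset.sum_ite_eq']
  simp only [Finset.mem_univ, if_true]
  ring

namespace ParsAux

/-- reduction modulo `7^m` -/
private theorem cast_eq {n m : ℕ} (h : m ≤ n) (Y : ZMod (7 ^ n)) :
    ((Y.val : ℕ) : ZMod (7 ^ m)) = ZMod.castHom (pow_dvd_pow 7 h) (ZMod (7 ^ m)) Y := by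
  have : NeZero (7 ^ n) := ⟨by positivity⟩
  rw [ZMod.castHom_apply, ZMod.natCast_val]

private theorem ker_iff {n m : ℕ} (h : m ≤ n) (Z : ZMod (7 ^ n)) :
    ZMod.castHom (pow_dvd_pow 7 h) (ZMod (7 ^ m)) Z = 0 ↔ 7 ^ m ∣ Z.val := by
  rw [← cast_eq h, ZMod.natCast_eq_zero_iff]

private theorem card_ker {n m : ℕ} (h : m ≤ n) :
    #{Z : ZMod (7 ^ n) | ZMod.castHom (pow_dvd_pow 7 h) (ZMod (7 ^ m)) Z = 0} = 7 ^ (n - m) := by
  classical
  set π := ZMod.castHom (pow_dvd_pow 7 h) (ZMod (7 ^ m)) with hπ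
  have hsurj : Function.Surjective π := ZMod.castHom_surjective _
  have : NeZero (7 ^ n) := ⟨by positivity⟩
  have : NeZero (7 ^ m) := ⟨by positivity⟩
  have h1 : (univ : Finset (ZMod (7 ^ n))).card =
      ∑ b ∈ (univ : Finset (ZMod (7 ^ m))), #{Z ∈ (univ : Finset (ZMod (7 ^ n))) | π Z = b} :=
    Finset.card_eq_sum_card_fiberwise fun _ _ => Finset.mem_univ _
  have h2 : ∀ b : ZMod (7 ^ m), #{Z ∈ (univ : Finset (ZMod (7 ^ n))) | π Z = b} =
      #{Z : ZMod (7 ^ n) | π Z = 0} := by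
    intro b
    obtain ⟨Z₀, hZ₀⟩ := hsurj b
    refine Finset.card_bij (fun Z _ => Z - Z₀) ?_ ?_ ?_
    · intro Z hZ
      rw [Finset.mem_filter] at hZ ⊢
      refine ⟨Finset.mem_univ _, ?_⟩
      rw [map_sub, hZ.2, hZ₀, sub_self]
    · intro a _ b _ hab
      exact sub_left_injective hab
    · intro Z hZ
      rw [Finset.mem_filter] at hZ
      refine ⟨Z + Z₀, ?_, by ring⟩
      rw [Finset.mem_filter]
      refine ⟨Finset.mem_univ _, ?_⟩
      rw [map_add, hZ.2, hZ₀, zero_add]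
  rw [Finset.sum_congr rfl fun b _ => h2 b, Finset.sum_const, smul_eq_mul, Finset.card_univ,
    Finset.card_univ, ZMod.card, ZMod.card] at h1
  have h3 : 7 ^ n = 7 ^ m * 7 ^ (n - m) := by
    rw [← pow_add]
    congr 1
    omega
  exact (Nat.eq_of_mul_eq_mul_left (by positivity) (h3.symm.trans h1)).symm

/-- the sum over a fibre -/
private theorem fibre_sum {n m : ℕ} (h : m ≤ n) (ξ Y' : ZMod (7 ^ n)) :
    ∑ Y : ZMod (7 ^ n) with ZMod.castHom (pow_dvd_pow 7 h) (ZMod (7 ^ m)) Y =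
        ZMod.castHom (pow_dvd_pow 7 h) (ZMod (7 ^ m)) Y', (ZMod.stdAddChar (ξ * Y) : ℂ) =
      if 7 ^ (n - m) ∣ ξ.val then (7 : ℂ) ^ (n - m) * ZMod.stdAddChar (ξ * Y') else 0 := by
  classical
  have : NeZero (7 ^ n) := ⟨by positivity⟩
  set π := ZMod.castHom (pow_dvd_pow 7 h) (ZMod (7 ^ m)) with hπ
  have h1 : ∑ Y : ZMod (7 ^ n) with π Y = π Y', (ZMod.stdAddChar (ξ * Y) : ℂ) =
      (∑ Z : ZMod (7 ^ n) with π Z = 0, (ZMod.stdAddChar (ξ * Z) : ℂ)) *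
        ZMod.stdAddChar (ξ * Y') := by
    rw [Finset.sum_mul]
    refine Finset.sum_bij (fun Y _ => Y - Y') ?_ ?_ ?_ ?_
    · intro Z hZ
      rw [Finset.mem_filter] at hZ ⊢
      refine ⟨Finset.mem_univ _, ?_⟩
      rw [map_sub, hZ.2, sub_self]
    · intro a _ b _ hab
      exact sub_left_injective hab
    · intro Z hZ
      rw [Finset.mem_filter] at hZ
      refine ⟨Z + Y', ?_, by ring⟩
      rw [Finset.mem_filter]
      refine ⟨Finset.mem_univ _, ?_⟩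
      rw [map_add, hZ.2, zero_add]
    · intro Y _
      rw [← AddChar.map_add_eq_mul]
      congr 1
      ring
  have h3 : 7 ^ n = 7 ^ m * 7 ^ (n - m) := by
    rw [← pow_add]
    congr 1
    omega
  have h7 : ξ * ((7 ^ m : ℕ) : ZMod (7 ^ n)) = 0 ↔ 7 ^ (n - m) ∣ ξ.val := by
    have e1 : ξ * ((7 ^ m : ℕ) : ZMod (7 ^ n)) = ((7 ^ m * ξ.val : ℕ) : ZMod (7 ^ n)) := by
      rw [Nat.cast_mul, ZMod.natCast_zmod_val, mul_comm]
    rw [e1, ZMod.natCast_eq_zero_iff]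
    have e2 : 7 ^ n ∣ 7 ^ m * ξ.val ↔ 7 ^ m * 7 ^ (n - m) ∣ 7 ^ m * ξ.val :=
      ⟨fun e => by simpa only [← h3] using e, fun e => by simpa only [← h3] using e⟩
    rw [e2]
    exact Nat.mul_dvd_mul_iff_left (by positivity)
  rw [h1]
  by_cases hd : 7 ^ (n - m) ∣ ξ.val
  · rw [if_pos hd]
    congr 1
    have h4 : ∀ Z ∈ ({Z : ZMod (7 ^ n) | π Z = 0} : Finset (ZMod (7 ^ n))),
        (ZMod.stdAddChar (ξ * Z) : ℂ) = 1 := by
      intro Z hZ
      rw [Finset.mem_filter] at hZ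
      obtain ⟨k, hk⟩ := (ker_iff h Z).mp hZ.2
      have h5 : ξ * Z = 0 := by
        rw [← ZMod.natCast_zmod_val Z, hk, Nat.cast_mul, ← mul_assoc, h7.mpr hd, zero_mul]
      rw [h5, AddChar.map_zero_eq_one]
    rw [Finset.sum_congr rfl h4, Finset.sum_const, card_ker h, nsmul_eq_mul, mul_one]
    push_cast
    rfl
  · rw [if_neg hd]
    have h8 : ξ * ((7 ^ m : ℕ) : ZMod (7 ^ n)) ≠ 0 := fun e => hd (h7.mp e)
    have h9 : (ZMod.stdAddChar (ξ * ((7 ^ m : ℕ) : ZMod (7 ^ n))) : ℂ) ≠ 1 := by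
      intro e
      apply h8
      apply ZMod.injective_stdAddChar
      rw [e, AddChar.map_zero_eq_one]
    have hπ7 : π ((7 ^ m : ℕ) : ZMod (7 ^ n)) = 0 := by
      rw [map_natCast, ZMod.natCast_self]
    have h10 : (∑ Z : ZMod (7 ^ n) with π Z = 0, (ZMod.stdAddChar (ξ * Z) : ℂ)) =
        (∑ Z : ZMod (7 ^ n) with π Z = 0, (ZMod.stdAddChar (ξ * Z) : ℂ)) *
          ZMod.stdAddChar (ξ * ((7 ^ m : ℕ) : ZMod (7 ^ n))) := by
      rw [Finset.sum_mul]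
      symm
      refine Finset.sum_bij (fun Z _ => Z + ((7 ^ m : ℕ) : ZMod (7 ^ n))) ?_ ?_ ?_ ?_
      · intro Z hZ
        rw [Finset.mem_filter] at hZ ⊢
        refine ⟨Finset.mem_univ _, ?_⟩
        rw [map_add, hZ.2, hπ7, add_zero]
      · intro a _ b _ hab
        exact add_left_injective _ hab
      · intro Z hZ
        rw [Finset.mem_filter] at hZ
        refine ⟨Z - ((7 ^ m : ℕ) : ZMod (7 ^ n)), ?_, by ring⟩
        rw [Finset.mem_filter]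
        refine ⟨Finset.mem_univ _, ?_⟩
        rw [map_sub, hZ.2, hπ7, sub_zero]
      · intro Y _
        rw [← AddChar.map_add_eq_mul]
        congr 1
        ring
    have h11 : (∑ Z : ZMod (7 ^ n) with π Z = 0, (ZMod.stdAddChar (ξ * Z) : ℂ)) = 0 := by
      by_contra hne
      exact h9 (mul_left_cancel₀ hne (by rw [← h10, mul_one]))
    rw [h11, zero_mul]

end ParsAux

open ParsAux in
theorem osc_le {n m : ℕ} (h : m ≤ n) (D : ZMod (7 ^ n) → ℝ) :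
    ∑ Y : ZMod (7 ^ n), |D Y - (∑ Y' : ZMod (7 ^ n) with
        ((Y'.val : ℕ) : ZMod (7 ^ m)) = ((Y.val : ℕ) : ZMod (7 ^ m)), D Y') / 7 ^ (n - m)| ≤
      √(∑ ξ : ZMod (7 ^ n) with ¬ 7 ^ (n - m) ∣ ξ.val,
        ‖∑ Y : ZMod (7 ^ n), (D Y : ℂ) * ZMod.stdAddChar (ξ * Y)‖ ^ 2) := by
  classical
  have : NeZero (7 ^ n) := ⟨by positivity⟩
  simp only [cast_eq h]
  set π := ZMod.castHom (pow_dvd_pow 7 h) (ZMod (7 ^ m)) with hπ
  set D2 : ZMod (7 ^ n) → ℝ := fun Y =>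
    D Y - (∑ Y' : ZMod (7 ^ n) with π Y' = π Y, D Y') / 7 ^ (n - m) with hD2
  have hpars := parseval (N := 7 ^ n) D2
  -- the transform of `D2`
  have htr : ∀ ξ : ZMod (7 ^ n), ∑ Y : ZMod (7 ^ n), (D2 Y : ℂ) * ZMod.stdAddChar (ξ * Y) =
      if 7 ^ (n - m) ∣ ξ.val then 0 else
        ∑ Y : ZMod (7 ^ n), (D Y : ℂ) * ZMod.stdAddChar (ξ * Y) := by
    intro ξ
    have h1 : ∑ Y : ZMod (7 ^ n), (D2 Y : ℂ) * ZMod.stdAddChar (ξ * Y) =
        (∑ Y : ZMod (7 ^ n), (D Y : ℂ) * ZMod.stdAddChar (ξ * Y)) -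
        ∑ Y : ZMod (7 ^ n), ∑ Y' : ZMod (7 ^ n), (if π Y = π Y' then
          (D Y' : ℂ) / 7 ^ (n - m) * ZMod.stdAddChar (ξ * Y) else 0) := by
      rw [← Finset.sum_sub_distrib]
      refine Finset.sum_congr rfl fun Y _ => ?_
      have h2 : (D2 Y : ℂ) = (D Y : ℂ) -
          ∑ Y' : ZMod (7 ^ n), (if π Y = π Y' then (D Y' : ℂ) / 7 ^ (n - m) else 0) := by
        simp only [hD2]
        push_cast
        rw [Finset.sum_filter, Finset.sum_div]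
        congr 1
        refine Finset.sum_congr rfl fun Y' _ => ?_
        by_cases e : π Y' = π Y
        · rw [if_pos e, if_pos e.symm]
        · rw [if_neg e, if_neg (fun e' => e e'.symm), zero_div]
      rw [h2, sub_mul, Finset.sum_mul]
      congr 1
      refine Finset.sum_congr rfl fun Y' _ => ?_
      split_ifs
      · rfl
      · rw [zero_mul]
    rw [h1, Finset.sum_comm]
    have h3 : ∀ Y' : ZMod (7 ^ n), ∑ Y : ZMod (7 ^ n), (if π Y = π Y' then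
          (D Y' : ℂ) / 7 ^ (n - m) * ZMod.stdAddChar (ξ * Y) else 0) =
        if 7 ^ (n - m) ∣ ξ.val then (D Y' : ℂ) * ZMod.stdAddChar (ξ * Y') else 0 := by
      intro Y'
      rw [← Finset.sum_filter, ← Finset.mul_sum, hπ, fibre_sum h ξ Y']
      split_ifs
      · have h4 : (7 : ℂ) ^ (n - m) ≠ 0 := pow_ne_zero _ (by norm_num)
        field_simp
      · rw [mul_zero]
    simp only [h3]
    split_ifs
    · rw [sub_self]
    · rw [Finset.sum_const_zero, sub_zero]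
  have hsum : ∑ ξ : ZMod (7 ^ n), ‖∑ Y : ZMod (7 ^ n), (D2 Y : ℂ) * ZMod.stdAddChar (ξ * Y)‖ ^ 2 =
      ∑ ξ : ZMod (7 ^ n) with ¬ 7 ^ (n - m) ∣ ξ.val,
        ‖∑ Y : ZMod (7 ^ n), (D Y : ℂ) * ZMod.stdAddChar (ξ * Y)‖ ^ 2 := by
    rw [Finset.sum_filter]
    refine Finset.sum_congr rfl fun ξ _ => ?_
    rw [htr ξ]
    by_cases hd : 7 ^ (n - m) ∣ ξ.val
    · rw [if_pos hd, if_neg (not_not.mpr hd)]
      simp
    · rw [if_neg hd, if_pos hd]
  rw [← hsum, hpars]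
  apply Real.le_sqrt_of_sq_le
  have hcs := sq_sum_le_card_mul_sum_sq (s := (univ : Finset (ZMod (7 ^ n)))) (f := fun Y => |D2 Y|)
  rw [Finset.card_univ, ZMod.card] at hcs
  simp only [sq_abs] at hcs
  exact hcs

end Kak
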