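import Pool.Agent.Lib.Kak.ChainStep

/-!
# Kak.Stage: the mass of the bad set in all windows

PROOF.  Let `C` be the constant of `chainStep`.  Let `T ≥ 1` be large (depending on `ε`), `T_i = 2^i T`,
`l_i = T_i/16`.  Requirements on `T`: `192 C ≤ 2T`, `(27/32)(2T) - C ≥ T`, and the last one below.
Let `F_N0 = {N | ∀ k, N0 < Syr^[k] N}`; it is closed under `Syr`.  Choose
`N0 = max {Syr^[k] N : N ≤ exp (3 T), k ≤ T}` (finite maximum).
Write `B x l = WS x l {N | Syr^[⌊x/8⌋₊] N ∈ F}`.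
Claim: `B x l_i ≤ b_i T_i` for all `x ∈ [T_i, (33/16) T_i]` and `i ≥ 0`, where `b_0 = 0` and
`b_(i+1) = b_i + 160 C 3^(3/4) T_(i+1)^(-1/4)`.
`i = 0`: every `N` of the window is `< exp (x + l_0) ≤ exp (3T)` and `⌊x/8⌋ ≤ T`, so
`Syr^[⌊x/8⌋] N ≤ N0` is not in `F`: `B = 0`.
Step.  (a) If `x ∈ [(27/32) T_(i+1) - C, T_(i+1)]` then `x ≥ T_i`, and cutting the window of length
`l_(i+1) = 2 l_i` in the middle, `B x l_(i+1) ≤ B x l_i + B (x + l_i) l_i ≤ 2 b_i T_i = b_i T_(i+1)`:
the second half has `⌊x/8⌋ ≤ ⌊(x + l_i)/8⌋` and `F` is closed under `Syr`; and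
`x + l_i ≤ T_(i+1) + T_i/16 = (33/16) T_i`.
(b) For `k ≥ 0`: if `x ∈ [T_(i+1), T_(i+1) (192/191)^k]` and `x ≤ 3 T_(i+1)` then
`B x l_(i+1) ≤ b_i T_(i+1) + k C (3 T_(i+1))^(3/4)`: induction on `k`; `k = 0`: (a).  `k + 1`: apply `chainStep`
(`l_(i+1) ≤ x`): `s ≤ (95/96) x + C ≤ (191/192) x` (as `x ≥ 2T ≥ 192 C`) `≤ T_(i+1)(192/191)^k` and
`s ≥ (27/32) T_(i+1) - C`; if `s ≥ T_(i+1)` use the induction hypothesis, otherwise (a).
Since `(192/191)^160 ≥ 33/16` (`160 log(192/191) = .8355`, `log (33/16) = .7239`), `k = 160` gives the claim for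
`i + 1`, because `C (3 T_(i+1))^(3/4) * 160 = (160 C 3^(3/4) T_(i+1)^(-1/4)) T_(i+1)`.
Now `b_i ≤ 160 C 3^(3/4) T^(-1/4) ∑_j 2^(-j/4) ≤ ε` for `T` large.
Conclusion: let `x ≥ T`, `i` with `T_i ≤ x < T_(i+1)`.  `x/32 ≤ T_i/16 = l_i`, and `N ∈ F` implies `Syr^[k] N ∈ F`, so
`WS x (x/32) F ≤ WS x l_i F ≤ B x l_i ≤ ε T_i ≤ ε x`.
-/

open Finset

namespace Kak

namespace StageAux

theorem mem_WN {s l : ℝ} {N : ℕ} : N ∈ WN s l ↔
    Real.exp s ≤ N ∧ (N : ℝ) < Real.exp (s + l) ∧ Nat.Coprime N 30 := by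
  unfold WN
  rw [Finset.mem_filter, Finset.mem_range, Nat.lt_ceil]
  constructor
  · rintro ⟨_, h⟩
    exact h
  · rintro ⟨h1, h2, h3⟩
    exact ⟨h2, h1, h2, h3⟩

theorem term_nonneg (P : Set ℕ) (N : ℕ) : 0 ≤ P.indicator (fun N : ℕ => 1 / (N : ℝ)) N :=
  Set.indicator_nonneg (fun N _ => by positivity) N

theorem WS_mono_set {s l : ℝ} {P Q : Set ℕ} (h : P ⊆ Q) : WS s l P ≤ WS s l Q := by
  unfold WS
  refine Finset.sum_le_sum fun N _ => ?_
  exact Set.indicator_le_indicator_of_subset h (fun N => by positivity) N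

theorem WS_mono_len {s l l' : ℝ} (h : l ≤ l') (P : Set ℕ) : WS s l P ≤ WS s l' P := by
  unfold WS
  refine Finset.sum_le_sum_of_subset_of_nonneg ?_ fun N _ _ => term_nonneg P N
  intro N hN
  rw [mem_WN] at hN ⊢
  exact ⟨hN.1, hN.2.1.trans_le (Real.exp_le_exp.2 (by linarith)), hN.2.2⟩

theorem WS_split (s l l' : ℝ) (P : Set ℕ) :
    WS s (l + l') P ≤ WS s l P + WS (s + l) l' P := by
  classical
  unfold WS
  rw [← Finset.sum_union_inter]
  have h1 : 0 ≤ ∑ N ∈ WN s l ∩ WN (s + l) l', P.indicator (fun N : ℕ => 1 / (N : ℝ)) N :=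
    Finset.sum_nonneg fun N _ => term_nonneg P N
  have h2 : ∑ N ∈ WN s (l + l'), P.indicator (fun N : ℕ => 1 / (N : ℝ)) N ≤
      ∑ N ∈ WN s l ∪ WN (s + l) l', P.indicator (fun N : ℕ => 1 / (N : ℝ)) N := by
    refine Finset.sum_le_sum_of_subset_of_nonneg ?_ fun N _ _ => term_nonneg P N
    intro N hN
    rw [mem_WN] at hN
    rw [Finset.mem_union, mem_WN, mem_WN]
    by_cases hc : (N : ℝ) < Real.exp (s + l)
    · exact Or.inl ⟨hN.1, hc, hN.2.2⟩
    · refine Or.inr ⟨not_lt.1 hc, ?_, hN.2.2⟩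
      rw [add_assoc]
      exact hN.2.1
  linarith

/-- the closed set -/
def FF (N0 : ℕ) : Set ℕ := {N | ∀ k : ℕ, N0 < Syr^[k] N}

theorem FF_iter {N0 N : ℕ} (h : N ∈ FF N0) (k : ℕ) : Syr^[k] N ∈ FF N0 := by
  intro j
  rw [← Function.iterate_add_apply]
  exact h (j + k)

theorem FF_mono {N0 N a b : ℕ} (hab : a ≤ b) (h : Syr^[a] N ∈ FF N0) : Syr^[b] N ∈ FF N0 := by
  obtain ⟨c, rfl⟩ := Nat.exists_eq_add_of_le hab
  have := FF_iter h c
  rwa [← Function.iterate_add_apply, add_comm c a] at this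

/-- the mass after `⌊x/8⌋` steps -/
noncomputable def BB (N0 : ℕ) (x l : ℝ) : ℝ := WS x l {N | Syr^[⌊x / 8⌋₊] N ∈ FF N0}

theorem BB_split {N0 : ℕ} {x l : ℝ} (hl : 0 ≤ l) :
    BB N0 x (l + l) ≤ BB N0 x l + BB N0 (x + l) l := by
  unfold BB
  refine (WS_split x l l _).trans (add_le_add le_rfl (WS_mono_set ?_))
  intro N hN
  exact FF_mono (Nat.floor_le_floor (by linarith)) hN

end StageAux

open StageAux

theorem stage {ε : ℝ} (hε : 0 < ε) : ∃ (N0 : ℕ) (T : ℝ), 1 ≤ T ∧ ∀ x : ℝ, T ≤ x →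
    WS x (x / 32) {N | ∀ k : ℕ, N0 < Syr^[k] N} ≤ ε * x := by
  obtain ⟨C, hC1, hch⟩ := chainStep
  set q : ℝ := (2 : ℝ) ^ (-(1 / 4) : ℝ) with hq
  have hq0 : 0 < q := by positivity
  have hq1 : q < 1 := Real.rpow_lt_one_of_one_lt_of_neg (by norm_num) (by norm_num)
  set K : ℝ := 160 * C * 3 ^ (3 / 4 : ℝ) with hK
  have hK0 : 0 < K := by positivity
  have hδ : 0 < ε * (1 - q) / K := by
    have : 0 < 1 - q := by linarith
    positivity
  have ht := tendsto_rpow_neg_atTop (y := (1 / 4 : ℝ)) (by norm_num)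
  obtain ⟨T, hT⟩ := ((ht.eventually (gt_mem_nhds hδ)).and
    (Filter.eventually_ge_atTop (192 * C))).exists
  obtain ⟨hTδ, hTC⟩ := hT
  have hT1 : 1 ≤ T := by linarith
  have hT0 : 0 < T := by linarith
  have hKT : K * T ^ (-(1 / 4) : ℝ) ≤ ε * (1 - q) := by
    have := (lt_div_iff₀ hK0).1 hTδ
    linarith
  -- the threshold
  set N0 : ℕ := (Finset.range (⌈Real.exp (3 * T)⌉₊)).sup
    (fun N => (Finset.range (⌊T⌋₊ + 1)).sup (fun k => Syr^[k] N)) with hN0
  have hmax : ∀ (N k : ℕ), (N : ℝ) < Real.exp (3 * T) → (k : ℝ) ≤ T → Syr^[k] N ≤ N0 := by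
    intro N k hN hk
    have h1 : N ∈ Finset.range (⌈Real.exp (3 * T)⌉₊) := by
      rw [Finset.mem_range, Nat.lt_ceil]
      exact hN
    have h2 : k ∈ Finset.range (⌊T⌋₊ + 1) := by
      rw [Finset.mem_range]
      exact Nat.lt_succ_of_le (Nat.le_floor hk)
    exact (Finset.le_sup (f := fun k => Syr^[k] N) h2).trans
      (Finset.le_sup (f := fun N => (Finset.range (⌊T⌋₊ + 1)).sup (fun k => Syr^[k] N)) h1)
  have hclosed : ∀ N ∈ FF N0, Syr N ∈ FF N0 := fun N hN => FF_iter hN 1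
  have main : ∀ i : ℕ, ∀ x : ℝ, 2 ^ i * T ≤ x → x ≤ 33 / 16 * (2 ^ i * T) →
      BB N0 x (2 ^ i * T / 16) ≤ ε * (1 - q ^ i) * (2 ^ i * T) := by
    intro i
    induction i with
    | zero =>
      intro x hx1 hx2
      rw [pow_zero, one_mul] at hx1 hx2 ⊢
      rw [pow_zero, sub_self, mul_zero, zero_mul]
      unfold BB WS
      refine le_of_eq (Finset.sum_eq_zero fun N hN => ?_)
      rw [Set.indicator_of_notMem]
      intro hmem
      rw [mem_WN] at hN
      have h1 : (N : ℝ) < Real.exp (3 * T) :=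
        hN.2.1.trans_le (Real.exp_le_exp.2 (by linarith))
      have h2 : ((⌊x / 8⌋₊ : ℕ) : ℝ) ≤ T := (Nat.floor_le (by linarith)).trans (by linarith)
      have h3 := hmax N _ h1 h2
      have h4 : N0 < Syr^[⌊x / 8⌋₊] N := hmem 0
      omega
    | succ i ih =>
      set S : ℝ := 2 ^ i * T with hS
      have hST : T ≤ S := by
        rw [hS]
        have : (1 : ℝ) ≤ 2 ^ i := one_le_pow₀ (by norm_num)
        nlinarith
      have hS0 : 0 < S := by linarith
      have hSS : (2 : ℝ) ^ (i + 1) * T = 2 * S := by rw [hS, pow_succ]; ring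
      rw [hSS]
      have hqi : 0 ≤ 1 - q ^ i := by
        have := pow_le_one₀ (n := i) hq0.le hq1.le
        linarith
      -- step (a)
      have ha : ∀ x : ℝ, 27 / 32 * (2 * S) - C ≤ x → x ≤ 2 * S →
          BB N0 x (2 * S / 16) ≤ ε * (1 - q ^ i) * (2 * S) := by
        intro x hx1 hx2
        have hx3 : S ≤ x := by linarith
        have e : 2 * S / 16 = S / 16 + S / 16 := by ring
        rw [e]
        refine (BB_split (by positivity)).trans ?_
        have h1 := ih x hx3 (by linarith)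
        have h2 := ih (x + S / 16) (by linarith) (by linarith)
        linarith
      -- step (b)
      have hb : ∀ k : ℕ, ∀ x : ℝ, 27 / 32 * (2 * S) - C ≤ x → x ≤ 2 * S * (192 / 191) ^ k →
          x ≤ 3 * (2 * S) →
          BB N0 x (2 * S / 16) ≤ ε * (1 - q ^ i) * (2 * S) +
            k * (C * (3 * (2 * S)) ^ (3 / 4 : ℝ)) := by
        intro k
        induction k with
        | zero =>
          intro x hx1 hx2 _
          rw [pow_zero, mul_one] at hx2
          have := ha x hx1 hx2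
          push_cast
          linarith
        | succ k ihk =>
          intro x hx1 hx2 hx3
          have hpos : 0 ≤ C * (3 * (2 * S)) ^ (3 / 4 : ℝ) := by positivity
          by_cases hc : x ≤ 2 * S
          · have h1 := ha x hx1 hc
            have h2 : 0 ≤ ((k + 1 : ℕ) : ℝ) * (C * (3 * (2 * S)) ^ (3 / 4 : ℝ)) := by positivity
            linarith
          · push Not at hc
            obtain ⟨s, hs1, hs2, hs3⟩ := hch x (by linarith)
            have h1 := hs3 (2 * S / 16) (by positivity) (by linarith) (FF N0) hclosed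
            have h2 : s ≤ 191 / 192 * x := by linarith
            have h3 : s ≤ 2 * S * (192 / 191) ^ k := by
              refine h2.trans ?_
              have e : 2 * S * (192 / 191 : ℝ) ^ k = 191 / 192 * (2 * S * (192 / 191) ^ (k + 1)) := by
                rw [pow_succ]; ring
              rw [e]
              exact mul_le_mul_of_nonneg_left hx2 (by norm_num)
            have h4 := ihk s (by linarith) h3 (by linarith)
            have h5 : x ^ (3 / 4 : ℝ) ≤ (3 * (2 * S)) ^ (3 / 4 : ℝ) :=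
              Real.rpow_le_rpow (by linarith) hx3 (by norm_num)
            have h6 : C * x ^ (3 / 4 : ℝ) ≤ C * (3 * (2 * S)) ^ (3 / 4 : ℝ) :=
              mul_le_mul_of_nonneg_left h5 (by linarith)
            have h7 : BB N0 x (2 * S / 16) ≤ BB N0 s (2 * S / 16) + C * x ^ (3 / 4 : ℝ) := h1
            push_cast
            linarith
      intro x hx1 hx2
      have hnum : (33 / 16 : ℝ) ≤ (192 / 191) ^ 160 := by norm_num
      have hx4 : x ≤ 2 * S * (192 / 191) ^ 160 := by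
        refine hx2.trans ?_
        rw [mul_comm]
        exact mul_le_mul_of_nonneg_left hnum (by positivity)
      have h1 := hb 160 x (by linarith) hx4 (by linarith)
      have e1 : (3 * (2 * S)) ^ (3 / 4 : ℝ) = 3 ^ (3 / 4 : ℝ) * (2 * S) * (2 * S) ^ (-(1 / 4) : ℝ) := by
        rw [Real.mul_rpow (by norm_num) (by positivity), mul_assoc]
        congr 1
        nth_rewrite 2 [← Real.rpow_one (2 * S)]
        rw [← Real.rpow_add (by positivity)]
        norm_num
      have e2 : (2 * S) ^ (-(1 / 4) : ℝ) = q ^ (i + 1) * T ^ (-(1 / 4) : ℝ) := by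
        rw [← hSS, Real.mul_rpow (by positivity) hT0.le, hq]
        congr 1
        rw [← Real.rpow_natCast, ← Real.rpow_natCast, ← Real.rpow_mul (by norm_num),
          ← Real.rpow_mul (by norm_num), mul_comm]
      have h2 : ((160 : ℕ) : ℝ) * (C * (3 * (2 * S)) ^ (3 / 4 : ℝ)) ≤
          ε * (q ^ i - q ^ (i + 1)) * (2 * S) := by
        rw [e1, e2]
        have e3 : ((160 : ℕ) : ℝ) * (C * (3 ^ (3 / 4 : ℝ) * (2 * S) * (q ^ (i + 1) * T ^ (-(1 / 4) : ℝ))))
            = (K * T ^ (-(1 / 4) : ℝ)) * (q ^ (i + 1) * (2 * S)) := by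
          rw [hK]; push_cast; ring
        rw [e3]
        have h3 : (K * T ^ (-(1 / 4) : ℝ)) * (q ^ (i + 1) * (2 * S)) ≤
            (ε * (1 - q)) * (q ^ i * (2 * S)) := by
          refine mul_le_mul hKT ?_ (by positivity) ?_
          · refine mul_le_mul_of_nonneg_right ?_ (by positivity)
            exact pow_le_pow_of_le_one hq0.le hq1.le (Nat.le_succ i)
          · have : 0 < 1 - q := by linarith
            positivity
        refine h3.trans (le_of_eq ?_)
        rw [pow_succ]; ring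
      have e4 : ε * (1 - q ^ (i + 1)) * (2 * S) = ε * (1 - q ^ i) * (2 * S) +
          ε * (q ^ i - q ^ (i + 1)) * (2 * S) := by ring
      rw [e4]
      linarith
  refine ⟨N0, T, hT1, fun x hx => ?_⟩
  have hx1 : 1 ≤ x / T := by
    rw [le_div_iff₀ hT0]
    linarith
  obtain ⟨i, hi1, hi2⟩ := exists_nat_pow_near hx1 (show (1 : ℝ) < 2 by norm_num)
  rw [le_div_iff₀ hT0] at hi1
  rw [div_lt_iff₀ hT0] at hi2
  have hx0 : 0 < x := by linarith
  have hi3 : x < 2 * (2 ^ i * T) := by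
    have e : (2 : ℝ) ^ (i + 1) * T = 2 * (2 ^ i * T) := by rw [pow_succ]; ring
    rw [← e]
    exact hi2
  have h1 := main i x hi1 (by linarith)
  have h2 : WS x (x / 32) (FF N0) ≤ WS x (2 ^ i * T / 16) (FF N0) :=
    WS_mono_len (by linarith) _
  have h3 : WS x (2 ^ i * T / 16) (FF N0) ≤ BB N0 x (2 ^ i * T / 16) :=
    WS_mono_set fun N hN => FF_iter hN _
  have h4 : ε * (1 - q ^ i) * (2 ^ i * T) ≤ ε * x := by
    have h5 : 0 ≤ q ^ i := by positivity
    have h6 : ε * (1 - q ^ i) ≤ ε := by nlinarith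
    calc ε * (1 - q ^ i) * (2 ^ i * T) ≤ ε * (2 ^ i * T) :=
          mul_le_mul_of_nonneg_right h6 (by positivity)
      _ ≤ ε * x := mul_le_mul_of_nonneg_left hi1 hε.le
  exact (h2.trans h3).trans (h1.trans h4)

end Kak
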