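import Pool.Agent.Lib.Kak.TOp

/-!
# Kak.StopQ: optional stopping for `QQ`

PROOF.  By induction on `T ≤ m`:
`QQ H m r ξ ≤ ∑_{t ∈ Icc 1 T} Ex H (2t) r ((ExitAt Z t).indicator (v ↦ QQ H (m-t) (st r v) (ξ iv (Wd v))))
  + Ex H (2T) r ({v | Wd v ∣ Z}.indicator (v ↦ QQ H (m-T) (st r v) (ξ iv (Wd v))))`.
`T = 0`: the second term is `QQ H m r ξ` (`Wd [] = 1 ∣ Z`).  Step: for a word `v` of length `2T` with
`Wd v ∣ Z`, by `QQ_eq` (`s = 1`) and `TT_le_Ex`:
`QQ H (m-T) (st r v) (ξ iv (Wd v)) ≤ Ex H 2 (st r v) (u ↦ QQ H (m-T-1) (st r (v ++ u)) (ξ iv (Wd (v++u))))`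
and each word `v ++ u` of length `2(T+1)` with `Wd v ∣ Z` is either in `ExitAt Z (T+1)`
(`(v++u).take (2(T+1)-2) = v`) or satisfies `Wd (v ++ u) ∣ Z`; `Ex_append`.
Finally `QQ ≤ 1` on `UU`.
-/

open Finset

namespace Kak

namespace StopQAux

/-- the value at the time `t` -/
private noncomputable def val (H m : ℕ) (r : ZMod 15) (ξ : ℤ_[7]) (t : ℕ) (v : List Lt) : ℝ :=
  QQ H (m - t) (st r v) (ξ * iv (Wd v))

private theorem val_nonneg (H m : ℕ) (r : ZMod 15) (ξ : ℤ_[7]) (t : ℕ) (v : List Lt) :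
    0 ≤ val H m r ξ t v := QQ_nonneg _ _ _ _

private theorem step {H : ℕ} {m T : ℕ} (hT : T + 1 ≤ m) (r : ZMod 15) (ξ : ℤ_[7]) (Z : ℤ) :
    Ex H (2 * T) r ({v | ((Wd v : ℕ) : ℤ) ∣ Z}.indicator (val H m r ξ T)) ≤
      Ex H (2 * (T + 1)) r ((ExitAt Z (T + 1)).indicator (val H m r ξ (T + 1))) +
      Ex H (2 * (T + 1)) r ({v | ((Wd v : ℕ) : ℤ) ∣ Z}.indicator (val H m r ξ (T + 1))) := by
  classical
  rw [← Ex_add, show 2 * (T + 1) = 2 * T + 2 from by ring, Ex_append]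
  refine Ex_mono H (2 * T) r fun v hv _ => ?_
  by_cases hd : ((Wd v : ℕ) : ℤ) ∣ Z
  · rw [Set.indicator_of_mem (show v ∈ {v | ((Wd v : ℕ) : ℤ) ∣ Z} from hd)]
    have h1 : val H m r ξ T v = TT H 1 (m - T) (st r v) (ξ * iv (Wd v))
        (fun r' ξ' => QQ H (m - T - 1) r' ξ') :=
      QQ_eq H (s := 1) (m := m - T) (by omega) (st r v) (ξ * iv (Wd v))
    rw [h1]
    refine (TT_le_Ex 1 (m - T) (st r v) (ξ * iv (Wd v)) (fun r' ξ' => QQ_nonneg _ _ _ _)).trans ?_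
    refine Ex_mono H (2 * 1) (st r v) fun u hu _ => ?_
    have h2 : QQ H (m - T - 1) (st (st r v) u) (ξ * iv (Wd v) * iv (Wd u)) =
        val H m r ξ (T + 1) (v ++ u) := by
      rw [val, st_append, iv_Wd_append, mul_assoc, Nat.sub_sub]
    rw [h2]
    have hlen : (v ++ u).length = 2 * T + 2 := by
      rw [List.length_append, hv, hu]
    by_cases hd2 : ((Wd (v ++ u) : ℕ) : ℤ) ∣ Z
    · rw [Set.indicator_of_mem (show v ++ u ∈ {v | ((Wd v : ℕ) : ℤ) ∣ Z} from hd2)]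
      have h3 : 0 ≤ (ExitAt Z (T + 1)).indicator (val H m r ξ (T + 1)) (v ++ u) :=
        Set.indicator_nonneg (fun w _ => val_nonneg H m r ξ (T + 1) w) _
      linarith
    · have h3 : v ++ u ∈ ExitAt Z (T + 1) := by
        refine ⟨?_, ?_⟩
        · rw [show 2 * (T + 1) - 2 = 2 * T from by omega, List.take_append_of_le_length (by omega),
            List.take_of_length_le (by omega)]
          exact hd
        · rw [List.take_of_length_le (by omega)]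
          exact hd2
      rw [Set.indicator_of_mem h3]
      have h4 : 0 ≤ ({v | ((Wd v : ℕ) : ℤ) ∣ Z} : Set (List Lt)).indicator
          (val H m r ξ (T + 1)) (v ++ u) :=
        Set.indicator_nonneg (fun w _ => val_nonneg H m r ξ (T + 1) w) _
      linarith
  · rw [Set.indicator_of_notMem (show v ∉ {v | ((Wd v : ℕ) : ℤ) ∣ Z} from hd)]
    refine Ex_nonneg H 2 (st r v) fun u _ _ => add_nonneg ?_ ?_
    · exact Set.indicator_nonneg (fun w _ => val_nonneg H m r ξ (T + 1) w) _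
    · exact Set.indicator_nonneg (fun w _ => val_nonneg H m r ξ (T + 1) w) _

private theorem main {H : ℕ} {m : ℕ} (r : ZMod 15) (ξ : ℤ_[7]) (Z : ℤ) (T : ℕ) (hT : T ≤ m) :
    QQ H m r ξ ≤ ∑ t ∈ Icc 1 T, Ex H (2 * t) r ((ExitAt Z t).indicator (val H m r ξ t)) +
      Ex H (2 * T) r ({v | ((Wd v : ℕ) : ℤ) ∣ Z}.indicator (val H m r ξ T)) := by
  classical
  induction T with
  | zero =>
    have h1 : ([] : List Lt) ∈ ({v | ((Wd v : ℕ) : ℤ) ∣ Z} : Set (List Lt)) := by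
      show ((Wd [] : ℕ) : ℤ) ∣ Z
      simp [Wd]
    rw [Finset.Icc_eq_empty (by omega), Finset.sum_empty, zero_add, mul_zero, Ex_zero,
      Set.indicator_of_mem h1]
    rw [val, Wd, st, iv_one, mul_one, Nat.sub_zero]
  | succ T ih =>
    have h1 := ih (by omega)
    have h2 := step (H := H) hT r ξ Z
    rw [Finset.sum_Icc_succ_top (by omega)]
    linarith

end StopQAux

open StopQAux in
theorem stopQ {H : ℕ} (hH : 2 ≤ H) {m T : ℕ} (hT : T ≤ m) {r : ZMod 15} (hr : r ∈ UU)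
    (ξ : ℤ_[7]) (Z : ℤ) :
    QQ H m r ξ ≤ ∑ t ∈ Icc 1 T, Ex H (2 * t) r ((ExitAt Z t).indicator
      (fun v => QQ H (m - t) (st r v) (ξ * iv (Wd v)))) +
      PP H (2 * T) r {v | ((Wd v : ℕ) : ℤ) ∣ Z} := by
  classical
  refine (main (H := H) r ξ Z T hT).trans ?_
  have h : Ex H (2 * T) r ({v | ((Wd v : ℕ) : ℤ) ∣ Z}.indicator (val H m r ξ T)) ≤
      PP H (2 * T) r {v | ((Wd v : ℕ) : ℤ) ∣ Z} := by
    refine Ex_mono H (2 * T) r fun v _ hv => ?_
    by_cases hd : v ∈ ({v | ((Wd v : ℕ) : ℤ) ∣ Z} : Set (List Lt))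
    · rw [Set.indicator_of_mem hd, Set.indicator_of_mem hd]
      exact QQ_le_one hH _ (st_mem v r hr hv) _
    · rw [Set.indicator_of_notMem hd, Set.indicator_of_notMem hd]
  exact add_le_add le_rfl h

end Kak
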