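import Pool.Agent.Lib.Kak.PadicB

/-!
# Kak.SyrB: the accelerated map and backward endpoints

PROOFS.
`sm n` is the 30-smooth part of `n ≥ 1`; `n = sm n * (n / sm n)` and `n / sm n` is coprime to 30.
`sm_mul`: if `w = 2^a 3^b 5^c` and `N` is coprime to 30 (`N ≥ 1`) then `sm (w * N) = w`.
`Syr_coprime`: `Syr N` is coprime to 30 (`7N+1 ≥ 1`).
`Syr_pred`: if `7 N + 1 = w M` with `w = 2^a 3^b 5^c`, `M` coprime to 30, then `Syr N = M`.

`Nb_rel`: let `M ≥ 1` be coprime to 30, `r = (M : ZMod 15)`, `v` admissible from `r` of length `n`, and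
`toZModPow n (Fp v) = (M : ZMod (7^n))`.  Induction on `v` (all `M`, `n`): for `l :: v`, the congruence says
`lw l * M ≡ 1 + 7 Fp v` modulo `7^(n+1)` (`Fp (l::v) = (1 + 7 Fp v) iv (lw l)`), so `7 ∣ lw l * M - 1`,
`M1 = (lw l * M - 1)/7 ≥ 1` (as `lw l ≥ 2`, `M ≥ 1`), `M1 ≡ Fp v` modulo `7^n`, and
`(M1 : ZMod 15) = (lw l * M - 1) * 13 = nx r (lw l) ∈ UU` (`7 * 13 = 1`); `M1` is odd because `lw l` is even
and `7 M1 = lw l M - 1`.  So `M1` is coprime to 30 (`UU` = units mod 15).  `Syr M1 = M` by `Syr_pred`.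
By induction `7^n Nb M1 v + Gd v = Wd v * M1`, so `7^(n+1) Nb M (l::v) + (Wd v + 7 Gd v) =
7 Wd v M1 + Wd v = Wd v lw l M`.  `Syr^[n+1] (Nb M (l::v)) = Syr (Syr^[n] (Nb M1 v)) = Syr M1 = M`.

`cong_iff`: for `l ∈ LS H` with `nx r (lw l) ∈ UU`: `toZModPow (n+1) (Fp (l :: v)) = (M : ZMod (7^(n+1)))` iff
`lw l * M % 7 = 1` and `toZModPow n (Fp v) = ((lw l * M - 1)/7 : ℕ)`.
-/

open Finset

namespace Kak

namespace SyrBAux

theorem cop_iff (M : ℕ) : Nat.Coprime M 30 ↔ ¬ 2 ∣ M ∧ ¬ 3 ∣ M ∧ ¬ 5 ∣ M := by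
  have h2 : Nat.Coprime M 2 ↔ ¬ 2 ∣ M := by
    rw [Nat.coprime_comm]; exact Nat.Prime.coprime_iff_not_dvd Nat.prime_two
  have h3 : Nat.Coprime M 3 ↔ ¬ 3 ∣ M := by
    rw [Nat.coprime_comm]; exact Nat.Prime.coprime_iff_not_dvd Nat.prime_three
  have h5 : Nat.Coprime M 5 ↔ ¬ 5 ∣ M := by
    rw [Nat.coprime_comm]; exact Nat.Prime.coprime_iff_not_dvd (by norm_num)
  rw [show (30 : ℕ) = 2 * 3 * 5 from rfl, Nat.coprime_mul_iff_right, Nat.coprime_mul_iff_right,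
    h2, h3, h5, and_assoc]

theorem exists_decomp {n : ℕ} (hn : n ≠ 0) : ∃ a b c M : ℕ,
    Nat.Coprime M 30 ∧ n = 2 ^ a * 3 ^ b * 5 ^ c * M := by
  obtain ⟨a, n1, h1, e1⟩ := Nat.exists_eq_pow_mul_and_not_dvd hn 2 (by norm_num)
  have hn1 : n1 ≠ 0 := by rintro rfl; exact h1 (dvd_zero _)
  obtain ⟨b, n2, h2, e2⟩ := Nat.exists_eq_pow_mul_and_not_dvd hn1 3 (by norm_num)
  have hn2 : n2 ≠ 0 := by rintro rfl; exact h2 (dvd_zero _)
  obtain ⟨c, n3, h3, e3⟩ := Nat.exists_eq_pow_mul_and_not_dvd hn2 5 (by norm_num)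
  refine ⟨a, b, c, n3, (cop_iff n3).2 ⟨?_, ?_, h3⟩, ?_⟩
  · intro h
    apply h1
    rw [e2, e3]
    exact Dvd.dvd.mul_left (Dvd.dvd.mul_left h _) _
  · intro h
    apply h2
    rw [e3]
    exact Dvd.dvd.mul_left h _
  · rw [e1, e2, e3]; ring

theorem dec_val (a b c : ℕ) {N : ℕ} (hN : Nat.Coprime N 30) :
    padicValNat 2 (2 ^ a * 3 ^ b * 5 ^ c * N) = a ∧
    padicValNat 3 (2 ^ a * 3 ^ b * 5 ^ c * N) = b ∧
    padicValNat 5 (2 ^ a * 3 ^ b * 5 ^ c * N) = c := by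
  obtain ⟨h2, h3, h5⟩ := (cop_iff N).1 hN
  have : Fact (Nat.Prime 2) := ⟨Nat.prime_two⟩
  have : Fact (Nat.Prime 3) := ⟨Nat.prime_three⟩
  have : Fact (Nat.Prime 5) := ⟨by norm_num⟩
  have hN0 : N ≠ 0 := by rintro rfl; exact h2 (dvd_zero _)
  have v2 : padicValNat 2 N = 0 := padicValNat.eq_zero_of_not_dvd h2
  have v3 : padicValNat 3 N = 0 := padicValNat.eq_zero_of_not_dvd h3
  have v5 : padicValNat 5 N = 0 := padicValNat.eq_zero_of_not_dvd h5
  have q23 : padicValNat 2 3 = 0 := padicValNat.eq_zero_of_not_dvd (by norm_num)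
  have q25 : padicValNat 2 5 = 0 := padicValNat.eq_zero_of_not_dvd (by norm_num)
  have q32 : padicValNat 3 2 = 0 := padicValNat.eq_zero_of_not_dvd (by norm_num)
  have q35 : padicValNat 3 5 = 0 := padicValNat.eq_zero_of_not_dvd (by norm_num)
  have q52 : padicValNat 5 2 = 0 := padicValNat.eq_zero_of_not_dvd (by norm_num)
  have q53 : padicValNat 5 3 = 0 := padicValNat.eq_zero_of_not_dvd (by norm_num)
  have a2 : (2 : ℕ) ^ a ≠ 0 := by positivity
  have b3 : (3 : ℕ) ^ b ≠ 0 := by positivity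
  have c5 : (5 : ℕ) ^ c ≠ 0 := by positivity
  refine ⟨?_, ?_, ?_⟩
  · rw [padicValNat.mul (by positivity) hN0, padicValNat.mul (by positivity) c5,
      padicValNat.mul a2 b3, padicValNat.pow, padicValNat.pow,
      padicValNat.pow, v2, q23, q25, padicValNat.self (by norm_num)]
    ring
  · rw [padicValNat.mul (by positivity) hN0, padicValNat.mul (by positivity) c5,
      padicValNat.mul a2 b3, padicValNat.pow, padicValNat.pow,
      padicValNat.pow, v3, q32, q35, padicValNat.self (by norm_num)]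
    ring
  · rw [padicValNat.mul (by positivity) hN0, padicValNat.mul (by positivity) c5,
      padicValNat.mul a2 b3, padicValNat.pow, padicValNat.pow,
      padicValNat.pow, v5, q52, q53, padicValNat.self (by norm_num)]
    ring

end SyrBAux

open SyrBAux

theorem sm_mul (a b c : ℕ) {N : ℕ} (hN : Nat.Coprime N 30) :
    sm (2 ^ a * 3 ^ b * 5 ^ c * N) = 2 ^ a * 3 ^ b * 5 ^ c := by
  obtain ⟨h2, h3, h5⟩ := dec_val a b c hN
  rw [sm, h2, h3, h5]

theorem Syr_pred {N M a b c : ℕ} (hM : Nat.Coprime M 30)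
    (h : 7 * N + 1 = 2 ^ a * 3 ^ b * 5 ^ c * M) : Syr N = M := by
  rw [Syr, h, sm_mul a b c hM]
  exact Nat.mul_div_cancel_left _ (by positivity)

theorem Syr_coprime (N : ℕ) : Nat.Coprime (Syr N) 30 := by
  obtain ⟨a, b, c, M, hM, e⟩ := exists_decomp (n := 7 * N + 1) (by omega)
  rw [Syr_pred hM e]
  exact hM

theorem Syr_pos (N : ℕ) : 0 < Syr N := by
  have h := Syr_coprime N
  rcases Nat.eq_zero_or_pos (Syr N) with h0 | h0
  · rw [h0] at h
    norm_num at h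
  · exact h0

/-- every `N ≥ 1` coprime to 30 arises from `Syr N` by a backward step -/
theorem Syr_spec {N : ℕ} (hN : Nat.Coprime N 30) : ∃ a b c : ℕ, 1 ≤ a ∧
    7 * N + 1 = 2 ^ a * 3 ^ b * 5 ^ c * Syr N := by
  obtain ⟨a, b, c, M, hM, e⟩ := exists_decomp (n := 7 * N + 1) (by omega)
  have hs := Syr_pred hM e
  refine ⟨a, b, c, ?_, by rw [hs]; exact e⟩
  rcases Nat.eq_zero_or_pos a with h0 | h0
  · exfalso
    have hN2 := ((cop_iff N).1 hN).1
    have hM2 := ((cop_iff M).1 hM).1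
    have h2 : 2 ∣ 7 * N + 1 := by omega
    rw [e, h0, pow_zero, one_mul] at h2
    rcases (Nat.Prime.dvd_mul Nat.prime_two).1 h2 with h | h
    · rcases (Nat.Prime.dvd_mul Nat.prime_two).1 h with h | h
      · have := Nat.Prime.dvd_of_dvd_pow Nat.prime_two h
        omega
      · have := Nat.Prime.dvd_of_dvd_pow Nat.prime_two h
        omega
    · exact hM2 h
  · exact h0

theorem coprime_iff {M : ℕ} : Nat.Coprime M 30 ↔ M % 2 = 1 ∧ (M : ZMod 15) ∈ UU := by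
  have e : M = 30 * (M / 30) + M % 30 := (Nat.div_add_mod M 30).symm
  have hlt : M % 30 < 30 := Nat.mod_lt _ (by norm_num)
  have h1 : Nat.Coprime M 30 ↔ Nat.Coprime (M % 30) 30 := by
    constructor
    · intro h
      have := (Nat.coprime_mul_left_add_left (M % 30) 30 (M / 30)).1 (by rwa [← e])
      exact this
    · intro h
      have := (Nat.coprime_mul_left_add_left (M % 30) 30 (M / 30)).2 h
      rwa [← e] at this
  have h2 : M % 2 = (M % 30) % 2 := by omega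
  have h3 : (M : ZMod 15) = ((M % 30 : ℕ) : ZMod 15) := by
    conv_lhs => rw [e]
    push_cast
    have : (30 : ZMod 15) = 0 := by decide
    rw [this, zero_mul, zero_add]
  rw [h1, h2, h3]
  generalize M % 30 = r at hlt
  interval_cases r <;> decide

theorem cong_iff {n M : ℕ} {l : Lt} {v : List Lt} (hM : 0 < M) :
    PadicInt.toZModPow (n + 1) (Fp (l :: v)) = ((M : ℕ) : ZMod (7 ^ (n + 1))) ↔
      (lw l * M) % 7 = 1 ∧
        PadicInt.toZModPow n (Fp v) = (((lw l * M - 1) / 7 : ℕ) : ZMod (7 ^ n)) := by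
  have key : ∀ (m : ℕ) (x : ℤ_[7]) (K : ℕ),
      PadicInt.toZModPow m x = ((K : ℕ) : ZMod (7 ^ m)) ↔ (7 : ℤ_[7]) ^ m ∣ x - (K : ℤ_[7]) := by
    intro m x K
    have h1 : PadicInt.toZModPow m x = ((K : ℕ) : ZMod (7 ^ m)) ↔
        PadicInt.toZModPow m (x - (K : ℤ_[7])) = 0 := by
      rw [map_sub, sub_eq_zero, map_natCast]
    rw [h1, ← RingHom.mem_ker, PadicInt.ker_toZModPow, Ideal.mem_span_singleton]
    norm_num
  rw [key, key]
  have hu : (lw l : ℤ_[7]) * iv (lw l) = 1 := iv_spec (not_dvd_lw l)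
  have hx : Fp (l :: v) = (1 + 7 * Fp v) * iv (lw l) := rfl
  have e1 : Fp (l :: v) - (M : ℤ_[7]) = iv (lw l) * (1 + 7 * Fp v - lw l * M) := by
    rw [hx]
    linear_combination (M : ℤ_[7]) * hu
  have hunit : IsUnit (iv (lw l)) := iv_isUnit (not_dvd_lw l)
  have e2 : (7 : ℤ_[7]) ^ (n + 1) ∣ Fp (l :: v) - (M : ℤ_[7]) ↔
      (7 : ℤ_[7]) ^ (n + 1) ∣ 1 + 7 * Fp v - lw l * M := by
    rw [e1]
    exact hunit.dvd_mul_left
  rw [e2]
  have hpos : 0 < lw l * M := by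
    apply Nat.mul_pos _ hM
    unfold lw; positivity
  have h70 : (7 : ℤ_[7]) ≠ 0 := by
    exact_mod_cast (by norm_num : (7 : ℕ) ≠ 0)
  constructor
  · intro h
    have h7 : (7 : ℤ_[7]) ∣ 1 + 7 * Fp v - lw l * M :=
      dvd_trans (dvd_pow_self _ (Nat.succ_ne_zero n)) h
    have h7' : (7 : ℤ_[7]) ^ 1 ∣ ((1 - (lw l : ℤ) * M : ℤ) : ℤ_[7]) := by
      rw [pow_one]
      have : ((1 - (lw l : ℤ) * M : ℤ) : ℤ_[7]) = (1 + 7 * Fp v - lw l * M) - 7 * Fp v := by
        push_cast; ring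
      rw [this]
      exact dvd_sub h7 (dvd_mul_right _ _)
    rw [int_dvd_iff, pow_one] at h7'
    have hmod : (lw l * M) % 7 = 1 := by
      have : ((lw l * M : ℕ) : ℤ) = (lw l : ℤ) * M := by push_cast; ring
      rw [← this] at h7'
      omega
    refine ⟨hmod, ?_⟩
    have hK : lw l * M = 1 + 7 * ((lw l * M - 1) / 7) := by omega
    have hK' : ((lw l : ℤ_[7]) * M) = 1 + 7 * (((lw l * M - 1) / 7 : ℕ) : ℤ_[7]) := by
      exact_mod_cast congrArg (fun x : ℕ => (x : ℤ_[7])) hK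
    have e3 : 1 + 7 * Fp v - (lw l : ℤ_[7]) * M =
        7 * (Fp v - (((lw l * M - 1) / 7 : ℕ) : ℤ_[7])) := by
      rw [hK']; ring
    rw [e3, pow_succ'] at h
    exact (mul_dvd_mul_iff_left h70).1 h
  · rintro ⟨hmod, h⟩
    have hK : lw l * M = 1 + 7 * ((lw l * M - 1) / 7) := by omega
    have hK' : ((lw l : ℤ_[7]) * M) = 1 + 7 * (((lw l * M - 1) / 7 : ℕ) : ℤ_[7]) := by
      exact_mod_cast congrArg (fun x : ℕ => (x : ℤ_[7])) hK
    have e3 : 1 + 7 * Fp v - (lw l : ℤ_[7]) * M =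
        7 * (Fp v - (((lw l * M - 1) / 7 : ℕ) : ℤ_[7])) := by
      rw [hK']; ring
    rw [e3, pow_succ']
    exact (mul_dvd_mul_iff_left h70).2 h

/-- one backward step -/
theorem back_step {H M : ℕ} {l : Lt} (hl : l ∈ LS H) (hM : Nat.Coprime M 30)
    (h7 : (lw l * M) % 7 = 1) :
    (((lw l * M - 1) / 7 : ℕ) : ZMod 15) = nx (M : ZMod 15) (lw l) ∧
      (nx (M : ZMod 15) (lw l) ∈ UU → Nat.Coprime ((lw l * M - 1) / 7) 30 ∧
        Syr ((lw l * M - 1) / 7) = M) := by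
  have hK : 7 * ((lw l * M - 1) / 7) + 1 = lw l * M := by omega
  have h1 : (((lw l * M - 1) / 7 : ℕ) : ZMod 15) = nx (M : ZMod 15) (lw l) := by
    have hc : (7 : ZMod 15) * (((lw l * M - 1) / 7 : ℕ) : ZMod 15) + 1 =
        (lw l : ZMod 15) * (M : ZMod 15) := by
      exact_mod_cast congrArg (fun x : ℕ => (x : ZMod 15)) hK
    rw [nx, ← hc]
    generalize (((lw l * M - 1) / 7 : ℕ) : ZMod 15) = K
    revert K; decide
  refine ⟨h1, fun hU => ?_⟩
  have hla : 1 ≤ la l := by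
    have : l.1 ∈ Icc 1 4 ×ˢ range (H + 2) := (mem_product.1 hl).1
    have := (mem_Icc.1 (mem_product.1 this).1).1
    unfold la; omega
  have heven : 2 ∣ lw l := by
    unfold lw
    exact Dvd.dvd.mul_right (Dvd.dvd.mul_right (dvd_pow_self 2 (by omega)) _) _
  have hcop : Nat.Coprime ((lw l * M - 1) / 7) 30 := by
    rw [coprime_iff]
    refine ⟨?_, by rw [h1]; exact hU⟩
    have : 2 ∣ lw l * M := Dvd.dvd.mul_right heven _
    omega
  refine ⟨hcop, ?_⟩
  exact Syr_pred (a := la l) (b := lb l) (c := lc l) hM (by rw [hK]; rfl)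

theorem Nb_rel {H n M : ℕ} {v : List Lt} (hn : v.length = n) (hM : Nat.Coprime M 30)
    (hv : Ok H (M : ZMod 15) v)
    (hc : PadicInt.toZModPow n (Fp v) = ((M : ℕ) : ZMod (7 ^ n))) :
    7 ^ n * Nb M v + Gd v = Wd v * M ∧ Nat.Coprime (Nb M v) 30 ∧ 0 < Nb M v ∧
      Syr^[n] (Nb M v) = M := by
  induction v generalizing n M with
  | nil =>
    subst hn
    refine ⟨by simp [Nb, Gd, Wd], hM, ?_, rfl⟩
    show 0 < M
    rcases Nat.eq_zero_or_pos M with h0 | h0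
    · rw [h0] at hM; norm_num at hM
    · exact h0
  | cons l v ih =>
    have hM0 : 0 < M := by
      rcases Nat.eq_zero_or_pos M with h0 | h0
      · rw [h0] at hM; norm_num at hM
      · exact h0
    obtain ⟨hl, hU, hv'⟩ := hv
    have hn' : n = v.length + 1 := by rw [← hn]; rfl
    subst hn'
    obtain ⟨h7, hc'⟩ := (cong_iff hM0).1 hc
    obtain ⟨hs1, hs2⟩ := back_step hl hM h7
    obtain ⟨hcop, hS⟩ := hs2 hU
    obtain ⟨r1, r2, r3, r4⟩ := ih (n := v.length) (M := (lw l * M - 1) / 7) rfl hcop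
      (by rw [hs1]; exact hv') hc'
    refine ⟨?_, r2, r3, ?_⟩
    · have hK : 7 * ((lw l * M - 1) / 7) + 1 = lw l * M := by omega
      show 7 ^ (v.length + 1) * Nb ((lw l * M - 1) / 7) v + (Wd v + 7 * Gd v) =
        lw l * Wd v * M
      calc 7 ^ (v.length + 1) * Nb ((lw l * M - 1) / 7) v + (Wd v + 7 * Gd v)
          = 7 * (7 ^ v.length * Nb ((lw l * M - 1) / 7) v + Gd v) + Wd v := by ring
        _ = 7 * (Wd v * ((lw l * M - 1) / 7)) + Wd v := by rw [r1]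
        _ = Wd v * (7 * ((lw l * M - 1) / 7) + 1) := by ring
        _ = lw l * Wd v * M := by rw [hK]; ring
    · show Syr^[v.length + 1] (Nb ((lw l * M - 1) / 7) v) = M
      rw [Function.iterate_succ_apply', r4, hS]

end Kak
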