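import Pool.Agent.Lib.Kak.PadicB

/-!
# Kak.TOp: the transfer operators `TT`

PROOFS.  All by induction on `s` from the recursion.  Use: `0 ≤ pr`, `pr = 0` if the next state is
not in `UU`; `iv` of a number prime to 7 is a unit; `iv (lw l1 * lw l2) * iv (Wd v)
= iv (Wd (l1 :: l2 :: v))`; `∑_l pr H r l = 1` for `r ∈ UU` (`pr_sum`).

* `rho_le_one`: `‖1 + ph‖ ≤ 2`.
* `TT_le_Ex`: drop the factors `rho ≤ 1` and use `Ex_succ` twice (words of length `2(s+1)` =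
  two letters followed by a word of length `2s`).
* `QQ_eq`: `QQ H m = TT H m m 1 = TT H (s + (m-s)) m 1`, use `TT_add`.
-/

open Finset

namespace Kak

namespace TOpAux

theorem TT_succ (H s m : ℕ) (r : ZMod 15) (ξ : ℤ_[7]) (g : ZMod 15 → ℤ_[7] → ℝ) :
    TT H (s + 1) m r ξ g = ∑ l1 ∈ LS H, ∑ l2 ∈ LS H,
      pr H r l1 * pr H (nx r (lw l1)) l2 * rho m ξ l1 l2 *
        TT H s (m - 1) (nx (nx r (lw l1)) (lw l2)) (ξ * iv (lw l1 * lw l2)) g := rfl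

theorem ndvd (l1 l2 : Lt) : ¬ 7 ∣ lw l1 * lw l2 := by
  intro h
  rcases (Nat.Prime.dvd_mul (by norm_num)).1 h with h | h
  · exact not_dvd_lw l1 h
  · exact not_dvd_lw l2 h

theorem unit_iv (l1 l2 : Lt) : IsUnit (iv (lw l1 * lw l2)) := iv_isUnit (ndvd l1 l2)

end TOpAux

theorem rho_nonneg (m : ℕ) (ξ : ℤ_[7]) (l1 l2 : Lt) : 0 ≤ rho m ξ l1 l2 := by
  unfold rho
  split_ifs
  · positivity
  · exact zero_le_one

theorem rho_le_one (m : ℕ) (ξ : ℤ_[7]) (l1 l2 : Lt) : rho m ξ l1 l2 ≤ 1 := by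
  unfold rho
  split_ifs
  · rw [div_le_one (by norm_num)]
    refine (norm_add_le _ _).trans ?_
    rw [norm_one, norm_ph]
    norm_num
  · exact le_rfl

theorem TT_mono {H s m : ℕ} {r : ZMod 15} {ξ : ℤ_[7]} {g g' : ZMod 15 → ℤ_[7] → ℝ}
    (hr : r ∈ UU) (hξ : IsUnit ξ)
    (h : ∀ r' ∈ UU, ∀ ξ' : ℤ_[7], IsUnit ξ' → g r' ξ' ≤ g' r' ξ') :
    TT H s m r ξ g ≤ TT H s m r ξ g' := by
  induction s generalizing m r ξ with
  | zero => exact h r hr ξ hξ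
  | succ s ih =>
    rw [TOpAux.TT_succ, TOpAux.TT_succ]
    refine Finset.sum_le_sum fun l1 _ => Finset.sum_le_sum fun l2 _ => ?_
    by_cases hl : nx (nx r (lw l1)) (lw l2) ∈ UU
    · refine mul_le_mul_of_nonneg_left (ih hl (hξ.mul (TOpAux.unit_iv l1 l2))) ?_
      exact mul_nonneg (mul_nonneg (pr_nonneg _ _ _) (pr_nonneg _ _ _)) (rho_nonneg _ _ _ _)
    · rw [pr_eq_zero hl]
      simp

theorem TT_nonneg {H s m : ℕ} {r : ZMod 15} {ξ : ℤ_[7]} {g : ZMod 15 → ℤ_[7] → ℝ}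
    (h : ∀ r' ξ', 0 ≤ g r' ξ') : 0 ≤ TT H s m r ξ g := by
  induction s generalizing m r ξ with
  | zero => exact h r ξ
  | succ s ih =>
    rw [TOpAux.TT_succ]
    refine Finset.sum_nonneg fun l1 _ => Finset.sum_nonneg fun l2 _ => ?_
    exact mul_nonneg (mul_nonneg (mul_nonneg (pr_nonneg _ _ _) (pr_nonneg _ _ _))
      (rho_nonneg _ _ _ _)) ih

theorem TT_mul (H s m : ℕ) (r : ZMod 15) (ξ : ℤ_[7]) (c : ℝ) (g : ZMod 15 → ℤ_[7] → ℝ) :
    TT H s m r ξ (fun r' ξ' => c * g r' ξ') = c * TT H s m r ξ g := by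
  induction s generalizing m r ξ with
  | zero => rfl
  | succ s ih =>
    rw [TOpAux.TT_succ, TOpAux.TT_succ, Finset.mul_sum]
    refine Finset.sum_congr rfl fun l1 _ => ?_
    rw [Finset.mul_sum]
    refine Finset.sum_congr rfl fun l2 _ => ?_
    rw [ih]
    ring

theorem TT_fun_add (H s m : ℕ) (r : ZMod 15) (ξ : ℤ_[7]) (g g' : ZMod 15 → ℤ_[7] → ℝ) :
    TT H s m r ξ (fun r' ξ' => g r' ξ' + g' r' ξ') = TT H s m r ξ g + TT H s m r ξ g' := by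
  induction s generalizing m r ξ with
  | zero => rfl
  | succ s ih =>
    rw [TOpAux.TT_succ, TOpAux.TT_succ, TOpAux.TT_succ, ← Finset.sum_add_distrib]
    refine Finset.sum_congr rfl fun l1 _ => ?_
    rw [← Finset.sum_add_distrib]
    refine Finset.sum_congr rfl fun l2 _ => ?_
    rw [ih]
    ring

theorem TT_add (H s s' m : ℕ) (r : ZMod 15) (ξ : ℤ_[7]) (g : ZMod 15 → ℤ_[7] → ℝ) :
    TT H (s + s') m r ξ g = TT H s m r ξ (fun r' ξ' => TT H s' (m - s) r' ξ' g) := by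
  induction s generalizing m r ξ with
  | zero =>
    rw [Nat.zero_add]
    rfl
  | succ s ih =>
    rw [show s + 1 + s' = (s + s') + 1 by ring, TOpAux.TT_succ, TOpAux.TT_succ]
    refine Finset.sum_congr rfl fun l1 _ => Finset.sum_congr rfl fun l2 _ => ?_
    rw [ih, Nat.sub_sub, Nat.add_comm 1 s]

theorem TT_le_Ex {H : ℕ} (s m : ℕ) (r : ZMod 15) (ξ : ℤ_[7]) {g : ZMod 15 → ℤ_[7] → ℝ}
    (h : ∀ r' ξ', 0 ≤ g r' ξ') :
    TT H s m r ξ g ≤ Ex H (2 * s) r (fun v => g (st r v) (ξ * iv (Wd v))) := by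
  induction s generalizing m r ξ with
  | zero =>
    show g r ξ ≤ g r (ξ * iv 1)
    rw [iv_one, mul_one]
  | succ s ih =>
    rw [TOpAux.TT_succ, show 2 * (s + 1) = 2 * s + 1 + 1 by ring, Ex_succ]
    refine Finset.sum_le_sum fun l1 _ => ?_
    rw [Ex_succ, smul_eq_mul, Finset.mul_sum]
    refine Finset.sum_le_sum fun l2 _ => ?_
    rw [smul_eq_mul, ← mul_assoc]
    have h1 := ih (m - 1) (nx (nx r (lw l1)) (lw l2)) (ξ * iv (lw l1 * lw l2))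
    have h2 : (fun v : List Lt => g (st r (l1 :: l2 :: v)) (ξ * iv (Wd (l1 :: l2 :: v)))) =
        fun v => g (st (nx (nx r (lw l1)) (lw l2)) v)
          (ξ * iv (lw l1 * lw l2) * iv (Wd v)) := by
      funext v
      have h3 : Wd (l1 :: l2 :: v) = lw l1 * lw l2 * Wd v := by
        show lw l1 * (lw l2 * Wd v) = _
        ring
      rw [h3, iv_mul (TOpAux.ndvd l1 l2) (not_dvd_Wd v), mul_assoc]
      rfl
    rw [h2]
    have h4 : 0 ≤ TT H s (m - 1) (nx (nx r (lw l1)) (lw l2)) (ξ * iv (lw l1 * lw l2)) g :=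
      TT_nonneg h
    have h5 : 0 ≤ pr H r l1 * pr H (nx r (lw l1)) l2 :=
      mul_nonneg (pr_nonneg _ _ _) (pr_nonneg _ _ _)
    have h6 := rho_le_one m ξ l1 l2
    have h7 := rho_nonneg m ξ l1 l2
    calc pr H r l1 * pr H (nx r (lw l1)) l2 * rho m ξ l1 l2 *
          TT H s (m - 1) (nx (nx r (lw l1)) (lw l2)) (ξ * iv (lw l1 * lw l2)) g
        ≤ pr H r l1 * pr H (nx r (lw l1)) l2 * 1 *
          TT H s (m - 1) (nx (nx r (lw l1)) (lw l2)) (ξ * iv (lw l1 * lw l2)) g :=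
          mul_le_mul_of_nonneg_right (mul_le_mul_of_nonneg_left h6 h5) h4
      _ = pr H r l1 * pr H (nx r (lw l1)) l2 *
          TT H s (m - 1) (nx (nx r (lw l1)) (lw l2)) (ξ * iv (lw l1 * lw l2)) g := by rw [mul_one]
      _ ≤ _ := mul_le_mul_of_nonneg_left h1 h5

theorem TT_le_one {H : ℕ} (hH : 2 ≤ H) (s m : ℕ) {r : ZMod 15} (hr : r ∈ UU) (ξ : ℤ_[7]) :
    TT H s m r ξ (fun _ _ => 1) ≤ 1 := by
  refine (TT_le_Ex s m r ξ (fun _ _ => zero_le_one)).trans ?_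
  rw [Ex_const hH (2 * s) hr (1 : ℝ)]

theorem QQ_nonneg (H m : ℕ) (r : ZMod 15) (ξ : ℤ_[7]) : 0 ≤ QQ H m r ξ := by
  exact TT_nonneg (fun _ _ => zero_le_one)

theorem QQ_le_one {H : ℕ} (hH : 2 ≤ H) (m : ℕ) {r : ZMod 15} (hr : r ∈ UU) (ξ : ℤ_[7]) :
    QQ H m r ξ ≤ 1 := by
  exact TT_le_one hH m m hr ξ

theorem QQ_eq (H : ℕ) {s m : ℕ} (h : s ≤ m) (r : ZMod 15) (ξ : ℤ_[7]) :
    QQ H m r ξ = TT H s m r ξ (fun r' ξ' => QQ H (m - s) r' ξ') := by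
  have h1 := TT_add H s (m - s) m r ξ (fun _ _ => 1)
  rw [Nat.add_sub_cancel' h] at h1
  exact h1

/-- if `QQ ≤ u` at the level `m - s` then `QQ ≤ u TT 1` at the level `m` -/
theorem QQ_le_mul {H s m : ℕ} (h : s ≤ m) {r : ZMod 15} {ξ : ℤ_[7]} (hr : r ∈ UU)
    (hξ : IsUnit ξ) {u : ℝ}
    (hu : ∀ r' ∈ UU, ∀ ξ' : ℤ_[7], IsUnit ξ' → QQ H (m - s) r' ξ' ≤ u) :
    QQ H m r ξ ≤ u * TT H s m r ξ (fun _ _ => 1) := by
  rw [QQ_eq H h, ← TT_mul]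
  refine TT_mono hr hξ fun r' hr' ξ' hξ' => ?_
  rw [mul_one]
  exact hu r' hr' ξ' hξ'

end Kak
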