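import Pool.Agent.Lib.Kak.KSwap
import Pool.Agent.Lib.Kak.Count

/-!
# Kak.Trans: transport of the logarithmic measure by `n` steps

PROOFS.  Let `d = dd H n`.

`T1` (lower bound).  Let `Win = {M ∈ WN s l : exp (s + w + 1) ≤ M < exp (s + l - w)}` (inner window).
For `M ∈ Win` apply `count` with `T = WN (s + d) l`, `g N = 1/N`.  Let `v` be admissible of length `n`
with `toZModPow n (Fp v) = M` and `v ∈ TY H n w s`.  By `Nb_rel`, `N = Nb M v = (Wd v M - Gd v)/7^n`, so
`N ≤ Wd v M/7^n` and, since `2 Fr v ≤ exp s ≤ M`, `Gd v ≤ Wd v M/2`, `N ≥ Wd v M/(2 * 7^n)`.  Taking logarithms: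
`log N ≤ log M + log Wd - n log 7 < s + l - w + d + w = s + d + l`,
`log N ≥ log M + log Wd - n log 7 - log 2 ≥ s + w + 1 + d - w - log 2 ≥ s + d`.
So `N ∈ WN (s+d) l` and `Wd v * (1/N) ≥ 7^n/M`.  Therefore
`∑_{N ∈ WN (s+d) l, Syr^[n] N = M} 1/N ≥ (7^n/M) hh M Ex H n M (v ↦ if toZModPow n (Fp v) = M ∧ v ∈ TY then 1/hh(st) else 0)
= KK H n M - (7^n/M) hh M Ex (v ↦ if toZModPow n (Fp v) = M ∧ v ∉ TY then 1/hh(st) else 0)`.
Sum over `M ∈ Win ∩ P` (the numbers `N` for different `M` are different, and `Syr^[n] N ∈ P`):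
`WS (s+d) l {N | Syr^[n] N ∈ P} ≥ KS H n s l P - (mass of KK on WN s l minus Win) - E`,
`E ≤ ∑_{M ∈ WN s l} (7^n/M) hh M Ex(..., v ∉ TY) ≤ (l+1)/30 ∑_{r ∈ UU} hh r Ex H n r (TYᶜ-indicator/hh (st r v)) ≤ C (l+1) p`
by `kswap` with `ψ r v = indicator (TY)ᶜ v / hh (st r v)` (`hh` between 11473 and 19410).
The mass of `KK` on the two boundary windows `[e^s, e^(s+w+1))` and `[e^(s+l-w), e^(s+l))` (intersected
with the window) is at most `(8/30)(w+1) + 1 + (8/30) w + 1` by `KS_total` (windows with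
starting points `s` and `max s (s+l-w)`, lengths at most `w + 1`; KK ≥ 0), so `≤ C (w+1)`.
(If `l ≤ 2w+1` the inner window is empty and `KS H n s l P ≤ KS_total ≤ (8/30) l + 1 ≤ C (w+1)`.)

`T2` (upper bound).  `WS (s+d) l {N | Syr^[n] N ∈ P} = WS (s+d) l univ - WS (s+d) l {N | Syr^[n] N ∈ Pᶜ}
≤ (8/30) l + 1 - KS H n s l Pᶜ + C(w+1) + C(l+1)p` by `WS_total` (needs `30 ≤ exp (s+d)`) and `T1` for `Pᶜ`, and
`KS H n s l Pᶜ = KS H n s l univ - KS H n s l P ≥ (8/30) l - 1 - KS H n s l P`.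
-/

open Finset

namespace Kak

namespace TransAux

lemma mem_WN {s l : ℝ} {N : ℕ} :
    N ∈ WN s l ↔ Real.exp s ≤ N ∧ (N : ℝ) < Real.exp (s + l) ∧ Nat.Coprime N 30 := by
  unfold WN
  rw [Finset.mem_filter, Finset.mem_range]
  constructor
  · rintro ⟨_, h⟩
    exact h
  · intro h
    exact ⟨Nat.lt_ceil.mpr h.2.1, h⟩

lemma pos_of_coprime {M : ℕ} (hM : Nat.Coprime M 30) : 0 < M := by
  rcases Nat.eq_zero_or_pos M with h | h
  · subst h
    norm_num at hM
  · exact h

/-- the endpoint of a typical word from the inner window lies in the target window -/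
lemma inner {H n M : ℕ} {v : List Lt} {s l w : ℝ} (hw : 0 ≤ w) (hM : Nat.Coprime M 30)
    (hn : v.length = n) (hv : Ok H (M : ZMod 15) v)
    (hc : PadicInt.toZModPow n (Fp v) = ((M : ℕ) : ZMod (7 ^ n))) (hT : v ∈ TY H n w s)
    (h1 : Real.exp (s + w + 1) ≤ M) (h2 : (M : ℝ) < Real.exp (s + l - w)) :
    Nb M v ∈ WN (s + dd H n) l ∧ (7 : ℝ) ^ n / M ≤ Wd v * (1 / (Nb M v : ℝ)) := by
  obtain ⟨hrel, hcop, hpos, -⟩ := Nb_rel hn hM hv hc
  obtain ⟨-, hlog, hFr⟩ := hT
  have hM0 : (0 : ℝ) < M := by exact_mod_cast pos_of_coprime hM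
  have hW0 : (0 : ℝ) < Wd v := by exact_mod_cast Wd_pos v
  have hN0 : (0 : ℝ) < Nb M v := by exact_mod_cast hpos
  have h7 : (0 : ℝ) < 7 ^ n := by positivity
  have hrel' : (7 : ℝ) ^ n * Nb M v + Gd v = Wd v * M := by exact_mod_cast hrel
  have hG0 : (0 : ℝ) ≤ Gd v := Nat.cast_nonneg _
  rw [abs_le] at hlog
  -- bounds for Wd
  have hWu : (Wd v : ℝ) ≤ 7 ^ n * Real.exp (dd H n + w) := by
    have : Real.log (Wd v) ≤ n * Real.log 7 + (dd H n + w) := by linarith [hlog.2]
    calc (Wd v : ℝ) = Real.exp (Real.log (Wd v)) := (Real.exp_log hW0).symm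
      _ ≤ Real.exp (n * Real.log 7 + (dd H n + w)) := Real.exp_le_exp.mpr this
      _ = 7 ^ n * Real.exp (dd H n + w) := by
          rw [Real.exp_add, ← Real.log_pow, Real.exp_log h7]
  have hWl : 7 ^ n * Real.exp (dd H n - w) ≤ (Wd v : ℝ) := by
    have : n * Real.log 7 + (dd H n - w) ≤ Real.log (Wd v) := by linarith [hlog.1]
    calc 7 ^ n * Real.exp (dd H n - w) = Real.exp (n * Real.log 7 + (dd H n - w)) := by
          rw [Real.exp_add, ← Real.log_pow, Real.exp_log h7]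
      _ ≤ Real.exp (Real.log (Wd v)) := Real.exp_le_exp.mpr this
      _ = Wd v := Real.exp_log hW0
  have hNle : (7 : ℝ) ^ n * Nb M v ≤ Wd v * M := by linarith
  refine ⟨mem_WN.mpr ⟨?_, ?_, hcop⟩, ?_⟩
  · -- lower bound
    have hG : (Gd v : ℝ) ≤ Real.exp s / 2 * Wd v := by
      have h3 : (Gd v : ℝ) / Wd v ≤ Real.exp s / 2 := by
        have : 2 * ((Gd v : ℝ) / Wd v) ≤ Real.exp s := hFr
        linarith
      rwa [div_le_iff₀ hW0] at h3
    have hsM : Real.exp s ≤ M := by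
      refine le_trans (Real.exp_le_exp.mpr ?_) h1
      linarith
    have h4 : (Wd v : ℝ) * M / 2 ≤ 7 ^ n * Nb M v := by
      have h5 : Real.exp s / 2 * Wd v ≤ M / 2 * Wd v :=
        mul_le_mul_of_nonneg_right (by linarith) hW0.le
      linarith
    have h5 : 7 ^ n * Real.exp (dd H n - w) * Real.exp (s + w + 1) / 2 ≤ 7 ^ n * Nb M v := by
      refine le_trans ?_ h4
      have := mul_le_mul hWl h1 (Real.exp_pos _).le hW0.le
      linarith
    have h6 : Real.exp (dd H n - w) * Real.exp (s + w + 1) =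
        Real.exp (s + dd H n) * Real.exp 1 := by
      rw [← Real.exp_add, ← Real.exp_add]
      congr 1
      ring
    have h7' : 2 ≤ Real.exp 1 := by
      have := Real.add_one_le_exp (1 : ℝ)
      linarith
    have h8 : (7 : ℝ) ^ n * Real.exp (s + dd H n) ≤ 7 ^ n * Nb M v := by
      refine le_trans ?_ h5
      rw [mul_assoc, h6]
      have h9 : Real.exp (s + dd H n) * 2 ≤ Real.exp (s + dd H n) * Real.exp 1 :=
        mul_le_mul_of_nonneg_left h7' (Real.exp_pos _).le
      have h10 := mul_le_mul_of_nonneg_left h9 h7.le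
      linarith
    exact le_of_mul_le_mul_left h8 h7
  · -- upper bound
    have h3 : (Wd v : ℝ) * M < 7 ^ n * Real.exp (dd H n + w) * Real.exp (s + l - w) :=
      mul_lt_mul' hWu h2 hM0.le (mul_pos h7 (Real.exp_pos _))
    have h4 : Real.exp (dd H n + w) * Real.exp (s + l - w) = Real.exp (s + dd H n + l) := by
      rw [← Real.exp_add]
      congr 1
      ring
    rw [mul_assoc, h4] at h3
    exact lt_of_mul_lt_mul_left (lt_of_le_of_lt hNle h3) h7.le
  · rw [mul_one_div, div_le_div_iff₀ hM0 hN0]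
    exact hNle

/-- total mass of `KK` over a window -/
lemma KS_univ_le {H n : ℕ} (hH : 2 ≤ H) {s l : ℝ} (hs : 30 * (7 : ℝ) ^ n ≤ Real.exp s)
    (hl : 0 < l) : ∑ M ∈ WN s l, KK H n M ≤ 8 / 30 * l + 1 := by
  have h := KS_total hH hs hl
  rw [abs_le] at h
  unfold KS at h
  simp only [Set.indicator_univ] at h
  linarith [h.2]

/-- the atypical part -/
lemma bad_le {H n : ℕ} (hH : 2 ≤ H) {s l w p : ℝ} (hs : 30 * (7 : ℝ) ^ n ≤ Real.exp s)
    (hl : 0 < l) (hp : 0 ≤ p) (hP : ∀ r ∈ UU, PP H n r (TY H n w s)ᶜ ≤ p) :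
    ∑ M ∈ WN s l, (7 : ℝ) ^ n / M * hh (M : ZMod 15) * Ex H n (M : ZMod 15) (fun v =>
        if PadicInt.toZModPow n (Fp v) = ((M : ℕ) : ZMod (7 ^ n)) then
          ((TY H n w s)ᶜ.indicator (fun v => 1 / hh (st (M : ZMod 15) v)) v) else 0) ≤
      (l + 1) * p := by
  have h := kswap (H := H) (n := n) (s := s) (l := l) hs hl
    (fun r v => (TY H n w s)ᶜ.indicator (fun v => 1 / hh (st r v)) v)
    (fun r v => Set.indicator_nonneg (fun v _ => one_div_nonneg.mpr (hh_nonneg _)) v)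
  rw [abs_le] at h
  have hS : ∑ r ∈ UU, hh r * Ex H n r (fun v => (TY H n w s)ᶜ.indicator
      (fun v => 1 / hh (st r v)) v) ≤ 16 * p := by
    have h1 : ∀ r ∈ UU, hh r * Ex H n r (fun v => (TY H n w s)ᶜ.indicator
      (fun v => 1 / hh (st r v)) v) ≤ 2 * p := by
      intro r hr
      have h2 : Ex H n r (fun v => (TY H n w s)ᶜ.indicator (fun v => 1 / hh (st r v)) v) ≤
          1 / 11473 * p := by
        refine le_trans ?_ (mul_le_mul_of_nonneg_left (hP r hr) (by norm_num))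
        unfold PP
        rw [← Ex_mul_left]
        refine Ex_mono H n r fun v _ hv => ?_
        by_cases hT : v ∈ (TY H n w s)ᶜ
        · rw [Set.indicator_of_mem hT, Set.indicator_of_mem hT, mul_one]
          exact one_div_le_one_div_of_le (by norm_num) (hh_bounds (st_mem v r hr hv)).1
        · rw [Set.indicator_of_notMem hT, Set.indicator_of_notMem hT, mul_zero]
      calc hh r * _ ≤ 19410 * (1 / 11473 * p) :=
            mul_le_mul (hh_bounds hr).2 h2 (Ex_nonneg H n r fun v _ _ =>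
              Set.indicator_nonneg (fun v _ => one_div_nonneg.mpr (hh_nonneg _)) v) (by norm_num)
        _ ≤ 2 * p := by nlinarith
    have hU : UU.card = 8 := by decide
    calc _ ≤ ∑ r ∈ UU, 2 * p := Finset.sum_le_sum h1
      _ = 16 * p := by
        rw [Finset.sum_const, hU]
        simp
        ring
  have h3 : l / 30 * ∑ r ∈ UU, hh r * Ex H n r (fun v => (TY H n w s)ᶜ.indicator
      (fun v => 1 / hh (st r v)) v) ≤ l / 30 * (16 * p) :=
    mul_le_mul_of_nonneg_left hS (by positivity)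
  have h4 := h.2
  have h5 : (16 : ℝ) / 30 * p * l ≤ l * p := by nlinarith [mul_nonneg hl.le hp]
  nlinarith [mul_nonneg hl.le hp]

end TransAux

open TransAux Classical in
theorem T1 : ∃ C : ℝ, 1 ≤ C ∧ ∀ H, 2 ≤ H → ∀ n : ℕ, ∀ s l w p : ℝ, 0 < l → 1 ≤ w → 0 ≤ p →
    30 * (7 : ℝ) ^ n ≤ Real.exp s → (∀ r ∈ UU, PP H n r (TY H n w s)ᶜ ≤ p) → ∀ P : Set ℕ,
      KS H n s l P ≤ WS (s + dd H n) l {N | Syr^[n] N ∈ P} + C * (w + 1) + C * (l + 1) * p := by
  refine ⟨3, by norm_num, ?_⟩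
  intro H hH n s l w p hl hw hp hs hPP P
  set T := WN (s + dd H n) l with hT
  set G : ℕ → ℝ := fun M => (7 : ℝ) ^ n / M * hh (M : ZMod 15) * Ex H n (M : ZMod 15) (fun v =>
    if PadicInt.toZModPow n (Fp v) = ((M : ℕ) : ZMod (7 ^ n)) ∧ v ∈ TY H n w s then
      1 / hh (st (M : ZMod 15) v) else 0) with hG
  set B : ℕ → ℝ := fun M => (7 : ℝ) ^ n / M * hh (M : ZMod 15) * Ex H n (M : ZMod 15) (fun v =>
        if PadicInt.toZModPow n (Fp v) = ((M : ℕ) : ZMod (7 ^ n)) then
          ((TY H n w s)ᶜ.indicator (fun v => 1 / hh (st (M : ZMod 15) v)) v) else 0) with hB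
  have hKGB : ∀ M, KK H n M = G M + B M := by
    intro M
    rw [hG, hB]
    simp only
    rw [← mul_add, ← Ex_add]
    unfold KK PdL
    congr 2
    funext v
    by_cases h1 : PadicInt.toZModPow n (Fp v) = ((M : ℕ) : ZMod (7 ^ n))
    · by_cases h2 : v ∈ TY H n w s
      · simp [h1, h2]
      · simp [h1, h2]
    · simp [h1]
  have hG0 : ∀ M, 0 ≤ G M := by
    intro M
    rw [hG]
    refine mul_nonneg (mul_nonneg (by positivity) (hh_nonneg _)) (Ex_nonneg _ _ _ fun v _ _ => ?_)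
    split_ifs
    · exact one_div_nonneg.mpr (hh_nonneg _)
    · exact le_rfl
  have hB0 : ∀ M, 0 ≤ B M := by
    intro M
    rw [hB]
    refine mul_nonneg (mul_nonneg (by positivity) (hh_nonneg _)) (Ex_nonneg _ _ _ fun v _ _ => ?_)
    split_ifs
    · exact Set.indicator_nonneg (fun v _ => one_div_nonneg.mpr (hh_nonneg _)) v
    · exact le_rfl
  -- the inner part
  have hin : ∀ M ∈ WN s l, Real.exp (s + w + 1) ≤ M → (M : ℝ) < Real.exp (s + l - w) →
      G M ≤ ∑ N ∈ T with Syr^[n] N = M, 1 / (N : ℝ) := by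
    intro M hM h1 h2
    have hMc := (mem_WN.mp hM).2.2
    have hcnt := count hH T (fun N => 1 / (N : ℝ)) (fun N => by positivity) n hMc
    refine le_trans ?_ hcnt
    rw [hG]
    simp only
    have e1 : (7 : ℝ) ^ n / M * hh (M : ZMod 15) * Ex H n (M : ZMod 15) (fun v =>
        if PadicInt.toZModPow n (Fp v) = ((M : ℕ) : ZMod (7 ^ n)) ∧ v ∈ TY H n w s then
          1 / hh (st (M : ZMod 15) v) else 0) =
        hh (M : ZMod 15) * Ex H n (M : ZMod 15) (fun v => (7 : ℝ) ^ n / M *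
        (if PadicInt.toZModPow n (Fp v) = ((M : ℕ) : ZMod (7 ^ n)) ∧ v ∈ TY H n w s then
          1 / hh (st (M : ZMod 15) v) else 0)) := by
      rw [Ex_mul_left]
      ring
    rw [e1]
    refine mul_le_mul_of_nonneg_left (Ex_mono _ _ _ fun v hv hv' => ?_) (hh_nonneg _)
    by_cases hc : PadicInt.toZModPow n (Fp v) = ((M : ℕ) : ZMod (7 ^ n)) ∧ v ∈ TY H n w s
    · have hi := inner (by linarith) hMc hv hv' hc.1 hc.2 h1 h2
      rw [if_pos hc, if_pos ⟨hc.1, hc.2.1, hi.1⟩]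
      have h3 : (Wd v : ℝ) * (1 / (Nb M v : ℝ)) / hh (st (M : ZMod 15) v) =
          (Wd v : ℝ) * (1 / (Nb M v : ℝ)) * (1 / hh (st (M : ZMod 15) v)) := by ring
      rw [h3]
      exact mul_le_mul_of_nonneg_right hi.2 (one_div_nonneg.mpr (hh_nonneg _))
    · rw [if_neg hc, mul_zero]
      split_ifs
      · exact div_nonneg (by positivity) (hh_nonneg _)
      · exact le_rfl
  -- split of the window
  set W1 := (WN s l).filter (fun M : ℕ => Real.exp (s + w + 1) ≤ M ∧
    (M : ℝ) < Real.exp (s + l - w)) with hW1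
  set W2 := (WN s l).filter (fun M : ℕ => ¬ (Real.exp (s + w + 1) ≤ M ∧
    (M : ℝ) < Real.exp (s + l - w))) with hW2
  have hsplit : KS H n s l P = ∑ M ∈ W1, P.indicator (fun M : ℕ => KK H n M) M +
      ∑ M ∈ W2, P.indicator (fun M : ℕ => KK H n M) M := by
    unfold KS
    rw [hW1, hW2, Finset.sum_filter_add_sum_filter_not]
  -- the boundary part
  have hbd : ∑ M ∈ W2, P.indicator (fun M : ℕ => KK H n M) M ≤ 3 * (w + 1) := by
    have h1 : ∑ M ∈ W2, P.indicator (fun M : ℕ => KK H n M) M ≤ ∑ M ∈ W2, KK H n M :=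
      Finset.sum_le_sum fun M _ => Set.indicator_le_self' (fun _ _ => KK_nonneg _ _ _) M
    set s' := max s (s + l - w) with hs'
    have hs'1 : s ≤ s' := le_max_left _ _
    have hs'2 : s + l - s' ≤ w := by
      have := le_max_right s (s + l - w)
      linarith
    have hs'3 : 0 < s + l - s' := by
      have : s' < s + l := max_lt (by linarith) (by linarith)
      linarith
    have h2 : W2 ⊆ WN s (w + 1) ∪ WN s' (s + l - s') := by
      intro M hM
      rw [hW2, Finset.mem_filter] at hM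
      obtain ⟨hM1, hM2⟩ := hM
      obtain ⟨ha, hb, hc⟩ := mem_WN.mp hM1
      rw [Finset.mem_union, mem_WN, mem_WN]
      by_cases h3 : Real.exp (s + w + 1) ≤ M
      · right
        have h4 : Real.exp (s + l - w) ≤ M := by
          by_contra h5
          exact hM2 ⟨h3, not_le.mp h5⟩
        refine ⟨?_, ?_, hc⟩
        · rcases max_choice s (s + l - w) with h | h
          · rw [hs', h]
            exact ha
          · rw [hs', h]
            exact h4
        · rw [show s' + (s + l - s') = s + l from by ring]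
          exact hb
      · left
        refine ⟨ha, ?_, hc⟩
        rw [show s + (w + 1) = s + w + 1 from by ring]
        exact not_le.mp h3
    have h3 : ∑ M ∈ W2, KK H n M ≤ ∑ M ∈ WN s (w + 1) ∪ WN s' (s + l - s'), KK H n M :=
      Finset.sum_le_sum_of_subset_of_nonneg h2 fun M _ _ => KK_nonneg _ _ _
    have h4 : ∑ M ∈ WN s (w + 1) ∪ WN s' (s + l - s'), KK H n M ≤
        ∑ M ∈ WN s (w + 1), KK H n M + ∑ M ∈ WN s' (s + l - s'), KK H n M := by
      rw [← Finset.sum_union_inter]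
      have : 0 ≤ ∑ M ∈ WN s (w + 1) ∩ WN s' (s + l - s'), KK H n M :=
        Finset.sum_nonneg fun M _ => KK_nonneg _ _ _
      linarith
    have h5 := KS_univ_le (H := H) (n := n) hH hs (l := w + 1) (by linarith)
    have h6 := KS_univ_le (H := H) (n := n) hH (s := s') (l := s + l - s')
      (hs.trans (Real.exp_le_exp.mpr hs'1)) hs'3
    have h7 : 8 / 30 * (s + l - s') ≤ 8 / 30 * w := by linarith
    linarith
  -- the typical part
  have htyp : ∑ M ∈ W1, P.indicator (fun M : ℕ => KK H n M) M ≤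
      WS (s + dd H n) l {N | Syr^[n] N ∈ P} + (l + 1) * p := by
    have h1 : ∀ M ∈ W1, P.indicator (fun M : ℕ => KK H n M) M ≤
        (if M ∈ P then ∑ N ∈ T with Syr^[n] N = M, 1 / (N : ℝ) else 0) + B M := by
      intro M hM
      rw [hW1, Finset.mem_filter] at hM
      by_cases hMP : M ∈ P
      · rw [Set.indicator_of_mem hMP, if_pos hMP, hKGB]
        exact add_le_add (hin M hM.1 hM.2.1 hM.2.2) le_rfl
      · rw [Set.indicator_of_notMem hMP, if_neg hMP, zero_add]
        exact hB0 M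
    refine (Finset.sum_le_sum h1).trans ?_
    rw [Finset.sum_add_distrib]
    refine add_le_add ?_ ?_
    · -- the sums over the preimages
      rw [← Finset.sum_filter]
      unfold WS
      have h2 : ∑ M ∈ W1 with M ∈ P, ∑ N ∈ T with Syr^[n] N = M, 1 / (N : ℝ) =
          ∑ N ∈ T with (Syr^[n] N ∈ W1.filter (fun M => M ∈ P)), 1 / (N : ℝ) := by
        rw [← Finset.sum_fiberwise_of_maps_to (g := fun N => Syr^[n] N)
          (t := W1.filter (fun M => M ∈ P)) (fun N hN => (Finset.mem_filter.mp hN).2)]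
        refine Finset.sum_congr rfl fun M hM => ?_
        refine Finset.sum_congr ?_ fun _ _ => rfl
        ext N
        simp only [Finset.mem_filter]
        constructor
        · rintro ⟨h3, h4⟩
          refine ⟨⟨h3, ?_⟩, h4⟩
          rw [h4]
          exact Finset.mem_filter.mp hM
        · rintro ⟨⟨h3, _⟩, h4⟩
          exact ⟨h3, h4⟩
      rw [h2, Finset.sum_filter]
      refine Finset.sum_le_sum fun N _ => ?_
      by_cases h3 : Syr^[n] N ∈ W1.filter (fun M => M ∈ P)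
      · rw [if_pos h3]
        have h4 : N ∈ {N | Syr^[n] N ∈ P} := (Finset.mem_filter.mp h3).2
        rw [Set.indicator_of_mem h4]
      · rw [if_neg h3]
        exact Set.indicator_nonneg (fun _ _ => by positivity) _
    · refine le_trans ?_ (bad_le hH hs hl hp hPP)
      rw [hW1]
      exact Finset.sum_le_sum_of_subset_of_nonneg (Finset.filter_subset _ _) fun M _ _ => hB0 M
  rw [hsplit]
  have h0 : 0 ≤ (l + 1) * p := mul_nonneg (by linarith) hp
  nlinarith

theorem T2 : ∃ C : ℝ, 1 ≤ C ∧ ∀ H, 2 ≤ H → ∀ n : ℕ, ∀ s l w p : ℝ, 0 < l → 1 ≤ w → 0 ≤ p →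
    30 * (7 : ℝ) ^ n ≤ Real.exp s → 30 ≤ Real.exp (s + dd H n) →
    (∀ r ∈ UU, PP H n r (TY H n w s)ᶜ ≤ p) → ∀ P : Set ℕ,
      WS (s + dd H n) l {N | Syr^[n] N ∈ P} ≤ KS H n s l P + C * (w + 1) + C * (l + 1) * p := by
  obtain ⟨C, hC, h⟩ := T1
  refine ⟨C + 2, by linarith, ?_⟩
  intro H hH n s l w p hl hw hp hs hsd hPP P
  have h1 := h H hH n s l w p hl hw hp hs hPP Pᶜ
  have h2 := KS_total (H := H) (n := n) hH hs hl
  have h3 := WS_total hsd hl
  rw [abs_le] at h2 h3
  have h4 : KS H n s l Set.univ = KS H n s l P + KS H n s l Pᶜ := by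
    unfold KS
    rw [← Finset.sum_add_distrib]
    refine Finset.sum_congr rfl fun M _ => ?_
    by_cases hM : M ∈ P <;> simp [hM]
  have h5 : WS (s + dd H n) l Set.univ = WS (s + dd H n) l {N | Syr^[n] N ∈ P} +
      WS (s + dd H n) l {N | Syr^[n] N ∈ Pᶜ} := by
    unfold WS
    rw [← Finset.sum_add_distrib]
    refine Finset.sum_congr rfl fun N _ => ?_
    by_cases hN : Syr^[n] N ∈ P <;> simp [hN]
  have h6 : 0 ≤ (l + 1) * p := mul_nonneg (by linarith) hp
  have h7 := h2.1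
  have h8 := h3.2
  nlinarith

end Kak
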