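import Pool.Agent.Lib.Kak.Count

/-!
# Kak.TransPt: pointwise lower bound for the transported measure

PROOF.  Let `d = dd H n`.  Apply `count` with `T = WN (s + d) l`, `g N = 1/N`.  Let `v` be admissible of length `n`
with `toZModPow n (Fp v) = M` and `v ∈ TY H n w s`.  By `Nb_rel`, `N = Nb M v` is coprime to 30 and
`7^n N + Gd v = Wd v M`, so `N ≤ Wd v M/7^n` and, since `2 Gd v/Wd v = 2 Fr v ≤ exp s ≤ M`,
`Gd v ≤ Wd v M/2`, `N ≥ Wd v M/(2 * 7^n)`.  Taking logarithms (`|log Wd - n log 7 - d| ≤ w`):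
`log N ≤ log M + log Wd - n log 7 < (s + l - w) + (d + w) = s + d + l`,
`log N ≥ log M + log Wd - n log 7 - log 2 ≥ (s + w + 1) + (d - w) - log 2 ≥ s + d`.
So `N ∈ WN (s+d) l`, and `Wd v * (1/N) ≥ 7^n/M`, `NT H v` holds.  So the integrand of `count` is at least
`(7^n/M) * (indicator) / hh (st M v)`.
-/

open Finset

namespace Kak

namespace TransPtAux

theorem key {H n : ℕ} {s l w : ℝ} (hw : 1 ≤ w) {M : ℕ}
    (hM : Nat.Coprime M 30) (h1 : Real.exp (s + w + 1) ≤ M) (h2 : (M : ℝ) < Real.exp (s + l - w))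
    {v : List Lt} (hv : v.length = n) (hok : Ok H (M : ZMod 15) v)
    (hc : PadicInt.toZModPow n (Fp v) = ((M : ℕ) : ZMod (7 ^ n))) (hT : v ∈ TY H n w s) :
    Nb M v ∈ WN (s + dd H n) l ∧ (7 : ℝ) ^ n / M ≤ (Wd v : ℝ) * (1 / (Nb M v : ℝ)) := by
  obtain ⟨hrel, hcop, hpos, -⟩ := Nb_rel hv hM hok hc
  obtain ⟨-, hlog, hFr⟩ := hT
  have hMpos : (0 : ℝ) < M := lt_of_lt_of_le (Real.exp_pos _) h1
  have hWpos : (0 : ℝ) < Wd v := by exact_mod_cast Wd_pos v
  have hNpos : (0 : ℝ) < (Nb M v : ℝ) := by exact_mod_cast hpos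
  have hrelR : (7 : ℝ) ^ n * (Nb M v : ℝ) + (Gd v : ℝ) = (Wd v : ℝ) * (M : ℝ) := by
    exact_mod_cast hrel
  have hGnn : (0 : ℝ) ≤ (Gd v : ℝ) := Nat.cast_nonneg _
  have hup : (7 : ℝ) ^ n * (Nb M v : ℝ) ≤ (Wd v : ℝ) * (M : ℝ) := by linarith
  have hFr' : (Gd v : ℝ) = Fr v * (Wd v : ℝ) := by
    unfold Fr; field_simp
  have hexp : Real.exp s ≤ (M : ℝ) := (Real.exp_le_exp.mpr (by linarith)).trans h1
  have hlow : (Wd v : ℝ) * (M : ℝ) ≤ 2 * ((7 : ℝ) ^ n * (Nb M v : ℝ)) := by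
    have : 2 * (Gd v : ℝ) ≤ (Wd v : ℝ) * (M : ℝ) := by
      rw [hFr']
      have := mul_le_mul_of_nonneg_right (hFr.trans hexp) hWpos.le
      nlinarith
    linarith
  have h7 : (0 : ℝ) < (7 : ℝ) ^ n := by positivity
  have hlogup : n * Real.log 7 + Real.log (Nb M v) ≤ Real.log (Wd v) + Real.log M := by
    have := Real.log_le_log (by positivity) hup
    rwa [Real.log_mul h7.ne' hNpos.ne', Real.log_mul hWpos.ne' hMpos.ne', Real.log_pow] at this
  have hloglow : Real.log (Wd v) + Real.log M ≤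
      Real.log 2 + (n * Real.log 7 + Real.log (Nb M v)) := by
    have := Real.log_le_log (by positivity) hlow
    rwa [Real.log_mul hWpos.ne' hMpos.ne', Real.log_mul two_ne_zero (by positivity),
      Real.log_mul h7.ne' hNpos.ne', Real.log_pow] at this
  have hM1 : s + w + 1 ≤ Real.log M := (Real.le_log_iff_exp_le hMpos).mpr h1
  have hM2 : Real.log M < s + l - w := (Real.log_lt_iff_lt_exp hMpos).mpr h2
  have hab := abs_le.mp hlog
  have hl2 : Real.log 2 ≤ 1 := by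
    have := Real.log_two_lt_d9; linarith
  have hN1 : s + dd H n ≤ Real.log (Nb M v) := by linarith [hab.1]
  have hN2 : Real.log (Nb M v) < s + dd H n + l := by linarith [hab.2]
  have hN1' : Real.exp (s + dd H n) ≤ (Nb M v : ℝ) := (Real.le_log_iff_exp_le hNpos).mp hN1
  have hN2' : (Nb M v : ℝ) < Real.exp (s + dd H n + l) := (Real.log_lt_iff_lt_exp hNpos).mp hN2
  refine ⟨?_, ?_⟩
  · unfold WN
    rw [Finset.mem_filter, Finset.mem_range]
    exact ⟨Nat.lt_ceil.mpr hN2', hN1', hN2', hcop⟩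
  · rw [mul_one_div, div_le_div_iff₀ hMpos hNpos]
    exact hup

end TransPtAux

open Classical in
theorem transPt {H : ℕ} (hH : 2 ≤ H) (n : ℕ) {s l w : ℝ} (hw : 1 ≤ w) {M : ℕ}
    (hM : Nat.Coprime M 30) (h1 : Real.exp (s + w + 1) ≤ M) (h2 : (M : ℝ) < Real.exp (s + l - w)) :
    (7 : ℝ) ^ n / M * hh (M : ZMod 15) * Ex H n (M : ZMod 15) (fun v =>
      if PadicInt.toZModPow n (Fp v) = ((M : ℕ) : ZMod (7 ^ n)) ∧ v ∈ TY H n w s then
        1 / hh (st (M : ZMod 15) v) else 0) ≤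
      ∑ N ∈ WN (s + dd H n) l with Syr^[n] N = M, 1 / (N : ℝ) := by
  have hcnt := count hH (WN (s + dd H n) l) (fun N => 1 / (N : ℝ)) (fun N => by positivity) n hM
  refine le_trans ?_ hcnt
  rw [mul_comm ((7 : ℝ) ^ n / M) (hh (M : ZMod 15)), mul_assoc]
  refine mul_le_mul_of_nonneg_left ?_ (hh_nonneg _)
  rw [← Ex_mul_left]
  refine Ex_mono H n _ fun v hv hok => ?_
  by_cases hA : PadicInt.toZModPow n (Fp v) = ((M : ℕ) : ZMod (7 ^ n)) ∧ v ∈ TY H n w s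
  · obtain ⟨hk1, hk2⟩ := TransPtAux.key hw hM h1 h2 hv hok hA.1 hA.2
    rw [if_pos hA, if_pos ⟨hA.1, hA.2.1, hk1⟩, mul_one_div]
    exact div_le_div_of_nonneg_right hk2 (hh_nonneg _)
  · rw [if_neg hA, mul_zero]
    split_ifs
    · exact div_nonneg (by positivity) (hh_nonneg _)
    · exact le_refl _

end Kak
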