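import Pool.Agent.Lib.Kak.ExBasic

/-!
# Kak.Visit: visit sums

PROOF.  Put `B = 1/(p0 (1-x))`, `A = x B`, and
`U n r k = ∑_{i<n} Ex H i r (v ↦ if e(v) ≤ k then x^(k - e(v)) else 0)`, `e(v) = (v.map e).sum`.
Claim: `U n r k ≤ B - A x^k` for all `n`, `k`, `r ∈ UU`.  Induction on `n`; `n = 0`:
`0 ≤ B - A x^k` since `A x^k ≤ A ≤ B`.  Step: expanding the first letter
(`Ex_succ`), `U (n+1) r k = x^k + ∑_l pr H r l * (if e l ≤ k then U n (nx r (lw l)) (k - e l) else 0)`.
For `e l = 0` the bracket is `≤ B - A x^k`.  For `1 ≤ e l ≤ k` it is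
`≤ B - A x^(k - e l) ≤ B - A x^k / x` (as `x^(k - e l) ≥ x^(k-1)`).  For `e l > k` it is
`0 ≤ B - A/x ≤ B - A x^k/x` (as `A/x = B` the first is an equality).  Let `P = ∑_{e l ≥ 1} pr ≥ p0`.
So `U (n+1) r k ≤ x^k + B - A x^k ((1 - P) + P / x) = x^k + B - A x^k (1 + P (1-x)/x)
≤ B - A x^k + x^k (1 - A p0 (1-x)/x) = B - A x^k`.
-/

open Finset

namespace Kak

theorem visit {H : ℕ} (hH : 2 ≤ H) (e : Lt → ℕ) {p0 x : ℝ} (hp0 : 0 < p0) (hx0 : 0 < x)
    (hx1 : x < 1) (hp : ∀ r ∈ UU, p0 ≤ ∑ l ∈ LS H with 1 ≤ e l, pr H r l) (n k : ℕ)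
    {r : ZMod 15} (hr : r ∈ UU) :
    ∑ i ∈ range n, Ex H i r (fun v => if (v.map e).sum ≤ k then x ^ (k - (v.map e).sum) else 0) ≤
      1 / (p0 * (1 - x)) := by
  have hx : 0 < 1 - x := by linarith
  obtain ⟨B, hBdef⟩ : ∃ B, B = 1 / (p0 * (1 - x)) := ⟨_, rfl⟩
  have hB : 0 < B := by rw [hBdef]; positivity
  have hBp : B * p0 * (1 - x) = 1 := by
    rw [hBdef]; field_simp
  rw [← hBdef]
  suffices h : ∀ n k : ℕ, ∀ r ∈ UU,
      ∑ i ∈ range n, Ex H i r (fun v => if (v.map e).sum ≤ k then x ^ (k - (v.map e).sum) else 0) ≤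
        B - x * B * x ^ k by
    refine (h n k r hr).trans ?_
    have : 0 ≤ x * B * x ^ k := by positivity
    linarith
  intro n
  induction n with
  | zero =>
    intro k r _
    rw [Finset.range_zero, Finset.sum_empty]
    have h1 : x ^ k ≤ 1 := pow_le_one₀ hx0.le hx1.le
    have h2 : x * B * x ^ k ≤ x * B * 1 := mul_le_mul_of_nonneg_left h1 (by positivity)
    nlinarith
  | succ n ih =>
    intro k r hr
    rw [Finset.sum_range_succ', Ex_zero]
    have hstep : ∑ i ∈ range n, Ex H (i + 1) r
        (fun v => if (v.map e).sum ≤ k then x ^ (k - (v.map e).sum) else 0) =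
        ∑ l ∈ LS H, pr H r l * ∑ i ∈ range n, Ex H i (nx r (lw l))
          (fun v => if e l + (v.map e).sum ≤ k then x ^ (k - (e l + (v.map e).sum)) else 0) := by
      simp_rw [Finset.mul_sum]
      rw [Finset.sum_comm]
      refine Finset.sum_congr rfl fun i _ => ?_
      rw [Ex_succ]
      refine Finset.sum_congr rfl fun l _ => ?_
      rw [smul_eq_mul]
      simp only [List.map_cons, List.sum_cons]
    rw [hstep]
    have hterm : ∀ l ∈ LS H, pr H r l * ∑ i ∈ range n, Ex H i (nx r (lw l))
          (fun v => if e l + (v.map e).sum ≤ k then x ^ (k - (e l + (v.map e).sum)) else 0) ≤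
        pr H r l * (B - x * B * x ^ k) -
          (if 1 ≤ e l then pr H r l else 0) * (B * x ^ k * (1 - x)) := by
      intro l _
      by_cases hl : nx r (lw l) ∈ UU
      · have hpr : 0 ≤ pr H r l := pr_nonneg H r l
        by_cases h0 : e l = 0
        · simp only [h0, zero_add]
          rw [if_neg (by omega), zero_mul, sub_zero]
          exact mul_le_mul_of_nonneg_left (ih k _ hl) hpr
        · rw [if_pos (by omega)]
          have hkey : ∑ i ∈ range n, Ex H i (nx r (lw l))
              (fun v => if e l + (v.map e).sum ≤ k then x ^ (k - (e l + (v.map e).sum)) else 0) ≤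
              B - B * x ^ k := by
            by_cases hk : e l ≤ k
            · have h1 : (fun v : List Lt => if e l + (v.map e).sum ≤ k then
                  x ^ (k - (e l + (v.map e).sum)) else 0) =
                  (fun v : List Lt => if (v.map e).sum ≤ k - e l then
                  x ^ (k - e l - (v.map e).sum) else 0) := by
                funext v
                by_cases hv : e l + (v.map e).sum ≤ k
                · rw [if_pos hv, if_pos (by omega), Nat.sub_sub]
                · rw [if_neg hv, if_neg (by omega)]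
              rw [h1]
              refine (ih (k - e l) _ hl).trans ?_
              have h2 : x ^ k ≤ x * x ^ (k - e l) := by
                rw [← pow_succ']
                exact pow_le_pow_of_le_one hx0.le hx1.le (by omega)
              have h3 := mul_le_mul_of_nonneg_left h2 hB.le
              nlinarith
            · have h1 : (fun v : List Lt => if e l + (v.map e).sum ≤ k then
                  x ^ (k - (e l + (v.map e).sum)) else 0) = fun _ => (0 : ℝ) := by
                funext v
                rw [if_neg (by omega)]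
              rw [h1]
              simp only [Ex_zero_fun, Finset.sum_const_zero]
              have h1 : x ^ k ≤ 1 := pow_le_one₀ hx0.le hx1.le
              nlinarith
          have := mul_le_mul_of_nonneg_left hkey hpr
          nlinarith
      · rw [pr_eq_zero hl]; simp
    have hsum := Finset.sum_le_sum hterm
    rw [Finset.sum_sub_distrib, ← Finset.sum_mul, ← Finset.sum_mul, pr_sum hH hr,
      ← Finset.sum_filter] at hsum
    have hP := hp r hr
    have h4 : p0 * (B * x ^ k * (1 - x)) ≤
        (∑ l ∈ LS H with 1 ≤ e l, pr H r l) * (B * x ^ k * (1 - x)) :=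
      mul_le_mul_of_nonneg_right hP (by positivity)
    have h5 : p0 * (B * x ^ k * (1 - x)) = x ^ k := by
      calc p0 * (B * x ^ k * (1 - x)) = (B * p0 * (1 - x)) * x ^ k := by ring
        _ = x ^ k := by rw [hBp, one_mul]
    simp only [List.map_nil, List.sum_nil, Nat.zero_le, if_true, Nat.sub_zero]
    linarith
end Kak
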